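import Pool.Agent.Mg.F019006.G8e8c10

section

set_option autoImplicit false

open MeasureTheory Filter Topology Set Matrix

namespace Pool.Agent.MP_019006_gt

namespace Loc

variable {F : EE → ℝ} {K ε r : ℝ} {f : EE → ℝ}

theorem abs_fderiv_le (hF : Bd F K) (hε : 0 < ε) (hε1 : ε ≤ 1) (hr : 0 < r)
    (hf : ∀ x, ‖x‖ < 1 / 2 → f x = f0 F ε r x) {x : EE} (hx : ‖x‖ < 1 / 2) (z : EE) :
    |fderiv ℝ f x z| ≤ K * r * ‖z‖ := by
  have h := (fderiv ℝ f x).le_opNorm z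
  rw [Real.norm_eq_abs] at h
  refine h.trans ?_
  gcongr
  exact norm_fderiv_loc hF hε hε1 hr hf hx

theorem TT_close (hF : Bd F K) (hε : 0 < ε) (hε1 : ε ≤ 1) (hr : 0 < r) (hr1 : r ≤ 1 / 100)
    (hf : ∀ x, ‖x‖ < 1 / 2 → f x = f0 F ε r x) {x x' u u' : EE} {a : ℝ} (hx : ‖x‖ ≤ 10 * r)
    (hu : ‖u‖ ≤ 3) (hu' : ‖u'‖ ≤ 3) (hxx : ‖x - x'‖ ≤ a * r) (huu : ‖u - u'‖ ≤ a) :
    |TT f x u u - ε * HH F (r⁻¹ • x') u'| ≤ 300 * K ^ 2 * (a + r ^ 2) := by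
  have hx2 : ‖x‖ < 1 / 2 := by linarith
  have k1 := hF.one
  have a0 : 0 ≤ a := (norm_nonneg _).trans huu
  have u2 : ‖u‖ ^ 2 ≤ 9 := by nlinarith [norm_nonneg u]
  have h1 : |ε * HH F (r⁻¹ • x) u - ε * HH F (r⁻¹ • x') u'| ≤ 2 * K * a := by
    rw [← mul_sub, abs_mul, abs_of_pos hε]
    have h := hF.b3 (r⁻¹ • x) (r⁻¹ • x') u u' hu hu'
    have h' : ‖r⁻¹ • x - r⁻¹ • x'‖ ≤ a := by
      rw [← smul_sub, norm_smul, norm_inv, Real.norm_eq_abs, abs_of_pos hr,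
        inv_mul_le_iff₀ hr]
      linarith
    have h2 : K * (‖r⁻¹ • x - r⁻¹ • x'‖ + ‖u - u'‖) ≤ K * (a + a) := by gcongr
    calc ε * |HH F (r⁻¹ • x) u - HH F (r⁻¹ • x') u'| ≤ 1 * (K * (a + a)) := by
          gcongr; linarith
      _ = 2 * K * a := by ring
  have h2 : |fderiv ℝ f x (Gam0 x u u)| ≤ 270 * K * r ^ 2 := by
    refine (abs_fderiv_le hF hε hε1 hr hf hx2 _).trans ?_
    have := norm_Gam0_le hx2 u
    calc K * r * ‖Gam0 x u u‖ ≤ K * r * (3 * (10 * r) * 9) := by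
          gcongr
          refine this.trans ?_
          gcongr
      _ = 270 * K * r ^ 2 := by ring
  have h3 : |fderiv ℝ f x u * fderiv ℝ f x u| ≤ 9 * K ^ 2 * r ^ 2 := by
    rw [abs_mul]
    have h := abs_fderiv_le hF hε hε1 hr hf hx2 u
    have h' : |fderiv ℝ f x u| ≤ K * r * 3 := h.trans (by gcongr)
    calc |fderiv ℝ f x u| * |fderiv ℝ f x u| ≤ (K * r * 3) * (K * r * 3) := by gcongr
      _ = 9 * K ^ 2 * r ^ 2 := by ring
  have h4 : |1 / 2 * fderiv ℝ f x (NN f x) * g0 x u u| ≤ 18 * K ^ 2 * r ^ 2 := by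
    obtain ⟨g1, g2⟩ := g0_le hx2 u
    rw [abs_mul, abs_mul, abs_of_nonneg g1, abs_of_pos (by norm_num : (0 : ℝ) < 1 / 2)]
    have h := abs_fderiv_le hF hε hε1 hr hf hx2 (NN f x)
    have hN := norm_NN_le f hx2
    have hd := norm_fderiv_loc hF hε hε1 hr hf hx2
    have h' : |fderiv ℝ f x (NN f x)| ≤ K * r * (2 * (K * r)) := h.trans (by gcongr; linarith)
    calc 1 / 2 * |fderiv ℝ f x (NN f x)| * g0 x u u ≤ 1 / 2 * (K * r * (2 * (K * r))) * 18 := by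
          gcongr; linarith
      _ = 18 * K ^ 2 * r ^ 2 := by ring
  have e : TT f x u u - ε * HH F (r⁻¹ • x') u' =
      (ε * HH F (r⁻¹ • x) u - ε * HH F (r⁻¹ • x') u') - fderiv ℝ f x (Gam0 x u u) -
        fderiv ℝ f x u * fderiv ℝ f x u + 1 / 2 * fderiv ℝ f x (NN f x) * g0 x u u := by
    rw [TT, Hess, fderiv2_loc hF.sm hr hf hx2]; ring
  have kk : K ≤ K ^ 2 := by nlinarith
  have m1 : K * a ≤ K ^ 2 * a := by gcongr
  have m2 : K * r ^ 2 ≤ K ^ 2 * r ^ 2 := by gcongr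
  have m3 : 0 ≤ K ^ 2 * a := by positivity
  have m4 : 0 ≤ K ^ 2 * r ^ 2 := by positivity
  rw [e, abs_le]
  rw [abs_le] at h1 h2 h3 h4
  constructor <;> linarith

theorem exp_close (hF : Bd F K) (hε : 0 < ε) (hε1 : ε ≤ 1) (hc : Conf f)
    (hf : ∀ x, ‖x‖ < 1 / 2 → f x = f0 F ε r x) {x : EE} (hx : ‖x‖ < 1 / 2) (c : ℝ)
    (hc4 : |c| ≤ 4) : |Real.exp (c * f x) - 1| ≤ 2 * |c| * K * r ^ 2 := by
  have h1 := hc.fb x (mem_Bl_of hx)
  have h2 := abs_f_loc hF hε hε1 hf hx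
  have h3 : |c * f x| ≤ 1 := by
    rw [abs_mul]
    nlinarith [abs_nonneg c, abs_nonneg (f x)]
  refine (Real.abs_exp_sub_one_le h3).trans ?_
  rw [abs_mul]
  calc 2 * (|c| * |f x|) ≤ 2 * (|c| * (K * r ^ 2)) := by gcongr
    _ = 2 * |c| * K * r ^ 2 := by ring

theorem d_close (hF : Bd F K) (hε : 0 < ε) (hε1 : ε ≤ 1) (hr : 0 < r) (hr1 : r ≤ 1 / 100)
    (hc : Conf f) (hf : ∀ x, ‖x‖ < 1 / 2 → f x = f0 F ε r x) {x x' v w : EE} {a : ℝ}
    (hx : ‖x‖ ≤ 10 * r) (hen : en f (x, v) = 1) (hw : ‖w‖ = 1) (ha : a ≤ 1)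
    (hxx : ‖x - x'‖ ≤ a * r) (hvw : ‖v - w‖ ≤ a) :
    |d1 f (x, v) - ε * sig1 F (r⁻¹ • x') w| ≤ 1000000 * K ^ 2 * (a + r ^ 2) ∧
    |dw f (x, v) - ε * sigw F (r⁻¹ • x') w| ≤ 1000000 * K ^ 2 * (a + r ^ 2) := by
  have hx2 : ‖x‖ < 1 / 2 := by linarith
  have k1 := hF.one
  have a0 : 0 ≤ a := (norm_nonneg _).trans hvw
  have hv : ‖v‖ ≤ 2 := by
    have := norm_add_le w (v - w)
    rw [add_sub_cancel] at this
    linarith
  have hI : ∀ z : EE, ‖Complex.I • z‖ = ‖z‖ := fun z => by rw [norm_smul, Complex.norm_I, one_mul]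
  have hB : ((x, v) : EE × EE).1 ∈ Bl := mem_Bl_of hx2
  have K00 := Kmat_eq hc.smooth hB hen 0 0
  have K11 := Kmat_eq hc.smooth hB hen 1 1
  have K22 := Kmat_eq hc.smooth hB hen 2 2
  simp only [K0, frame, Matrix.diagonal_apply_eq, Matrix.one_apply_eq, Matrix.cons_val_zero,
    Matrix.cons_val_one, Matrix.cons_val_two, Matrix.head_cons, Matrix.tail_cons,
    mul_one] at K00 K11 K22
  have x2 : ‖x‖ ^ 2 ≤ 100 * r ^ 2 := by nlinarith [norm_nonneg x]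
  have r2 : r ^ 2 ≤ 1 / 10000 := by nlinarith
  have he : ‖L0 x (perp (Linv0 x v)) - perp w‖ ≤ a + 1600 * r ^ 2 := by
    have := norm_e1_sub hx2 v w
    have h2 : 8 * ‖x‖ ^ 2 * ‖v‖ ≤ 8 * (100 * r ^ 2) * 2 := by gcongr
    linarith
  have he3 : ‖L0 x (perp (Linv0 x v))‖ ≤ 3 := by
    have := norm_add_le (perp w) (L0 x (perp (Linv0 x v)) - perp w)
    rw [add_sub_cancel, norm_perp] at this
    linarith
  have hxx' : ‖x - x'‖ ≤ (a + 1600 * r ^ 2) * r := hxx.trans (by gcongr; nlinarith)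
  have T1 := TT_close hF hε hε1 hr hr1 hf hx (u := v) (u' := w) (by linarith) (by linarith) hxx hvw
  have T2 := TT_close hF hε hε1 hr hr1 hf hx (u := Complex.I • v) (u' := Complex.I • w)
    (by rw [hI]; linarith) (by rw [hI]; linarith) hxx (by rw [← smul_sub, hI]; exact hvw)
  have T3 := TT_close hF hε hε1 hr hr1 hf hx (u := L0 x (perp (Linv0 x v))) (u' := perp w)
    he3 (by rw [norm_perp]; linarith) hxx' he
  have T4 := TT_close hF hε hε1 hr hr1 hf hx (u := Complex.I • L0 x (perp (Linv0 x v)))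
    (u' := Complex.I • perp w) (by rw [hI]; exact he3) (by rw [hI, norm_perp]; linarith) hxx'
    (by rw [← smul_sub, hI]; exact he)
  have E := exp_close hF hε hε1 hc hf hx2 (-2) (by norm_num)
  rw [show |(-2 : ℝ)| = 2 by norm_num] at E
  have kk : K ≤ K ^ 2 := by nlinarith
  have m2 : K * r ^ 2 ≤ K ^ 2 * r ^ 2 := by gcongr
  have m3 : 0 ≤ K ^ 2 * a := by positivity
  have m4 : 0 ≤ K ^ 2 * r ^ 2 := by positivity
  rw [abs_le] at T1 T2 T3 T4 E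
  unfold d1 dw sig1 sigw
  rw [K00, K11, K22, abs_le, abs_le]
  refine ⟨⟨?_, ?_⟩, ?_, ?_⟩ <;> linarith

theorem flow_d1 {φ : ℝ → EE × EE → EE × EE} {M : ℝ → EE × EE → (EE × EE) →L[ℝ] (EE × EE)}
    (hφ : IsFlow OO (XX f) φ M) {p : EE × EE} (hp : p ∈ OO) (t : ℝ) :
    HasDerivAt (fun s => (φ s p).1) (φ t p).2 t :=
  (hφ.deriv t p hp).fst

theorem flow_d2 {φ : ℝ → EE × EE → EE × EE} {M : ℝ → EE × EE → (EE × EE) →L[ℝ] (EE × EE)}
    (hφ : IsFlow OO (XX f) φ M) {p : EE × EE} (hp : p ∈ OO) (t : ℝ) :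
    HasDerivAt (fun s => (φ s p).2) (-Gam f (φ t p).1 (φ t p).2 (φ t p).2) t :=
  (hφ.deriv t p hp).snd

theorem en_flow (hf : ∀ n : ℕ, ContDiffOn ℝ n f Bl) {φ : ℝ → EE × EE → EE × EE}
    {M : ℝ → EE × EE → (EE × EE) →L[ℝ] (EE × EE)} (hφ : IsFlow OO (XX f) φ M) (t : ℝ)
    {p : EE × EE} (hp : p ∈ OO) : en f (φ t p) = en f p := by
  have hd : ∀ s, HasDerivAt (fun s => gg f (φ s p).1 (φ s p).2 (φ s p).2) 0 s := fun s => by
    have h3 := hasDerivAt_gg (x := fun s => (φ s p).1) (a := fun s => (φ s p).2)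
      (b := fun s => (φ s p).2) hf (mem_OO.1 (hφ.mem s p hp)) (flow_d1 hφ hp s)
      (flow_d2 hφ hp s) (flow_d2 hφ hp s)
    refine h3.congr_deriv ?_
    simp only [neg_add_cancel, gg_apply]
    have z1 : ∀ x u : EE, g0 x 0 u = 0 := fun x u => by
      have := g0_smul_left x 0 0 u
      rwa [zero_smul, zero_mul] at this
    have z2 : ∀ x u : EE, g0 x u 0 = 0 := fun x u => by rw [g0_symm, z1]
    rw [z1, z2]; ring
  have := is_const_of_deriv_eq_zero (fun s => (hd s).differentiableAt) (fun s => (hd s).deriv) t 0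
  rw [hφ.zero] at this
  exact this

theorem en_init {x : EE} (hx : x ∈ Bl) {w : EE} (hw : ‖w‖ = 1) :
    en f (x, Real.exp (-f x) • L0 x w) = 1 := by
  unfold en
  rw [gg_apply]
  simp only [g0_smul_left, g0_smul_right]
  rw [g0, hh_L0 hx, ip_self, hw, Complex.ofReal_re, ← mul_assoc, ← mul_assoc, ← Real.exp_add,
    ← Real.exp_add]
  simp only [one_pow, mul_one, Real.exp_eq_one_iff]
  ring

theorem norm_le_of_en (hc : Conf f) {p : EE × EE} (hp : p ∈ OO) (h : en f p = 1) :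
    ‖p.2‖ ≤ 4 / 3 := by
  have hB := mem_OO.1 hp
  have h1 := (g0_bounds hB p.2).1
  have h2 := abs_le.1 (hc.fb _ hB)
  unfold en at h
  rw [gg_apply] at h
  have h3 : 1 - 1 / 50 ≤ Real.exp (2 * f p.1) := by
    have := Real.add_one_le_exp (2 * f p.1)
    linarith
  have h4 : (1 - 1 / 50) * ‖p.2‖ ^ 2 ≤ Real.exp (2 * f p.1) * g0 p.1 p.2 p.2 := by gcongr
  nlinarith [norm_nonneg p.2]

theorem init_close (hF : Bd F K) (hε : 0 < ε) (hε1 : ε ≤ 1) (hr1 : r ≤ 1 / 100)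
    (hc : Conf f) (hf : ∀ x, ‖x‖ < 1 / 2 → f x = f0 F ε r x) {x w : EE} (hx : ‖x‖ ≤ 2 * r)
    (hw : ‖w‖ = 1) : ‖Real.exp (-f x) • L0 x w - w‖ ≤ 20 * K * r ^ 2 := by
  have hx2 : ‖x‖ < 1 / 2 := by linarith
  have k1 := hF.one
  have E := exp_close hF hε hε1 hc hf hx2 (-1) (by norm_num)
  rw [show |(-1 : ℝ)| = 1 by norm_num, neg_one_mul] at E
  have h1 := norm_L0_sub hx2 w
  have x2 : ‖x‖ ^ 2 ≤ 4 * r ^ 2 := by nlinarith [norm_nonneg x]
  have x3 : ‖x‖ ^ 2 ≤ 1 / 4 := by nlinarith [norm_nonneg x]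
  rw [hw] at h1
  have h2 : ‖L0 x w‖ ≤ 2 := by
    have := norm_add_le w (L0 x w - w)
    rw [add_sub_cancel] at this
    linarith
  have e : Real.exp (-f x) • L0 x w - w = (Real.exp (-f x) - 1) • L0 x w + (L0 x w - w) := by
    rw [sub_smul, one_smul]; abel
  have h3 : ‖(Real.exp (-f x) - 1) • L0 x w‖ ≤ (2 * 1 * K * r ^ 2) * 2 := by
    rw [norm_smul, Real.norm_eq_abs]
    gcongr
  have h4 : r ^ 2 ≤ K * r ^ 2 := by nlinarith [sq_nonneg r]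
  rw [e]
  have := norm_add_le ((Real.exp (-f x) - 1) • L0 x w) (L0 x w - w)
  nlinarith [sq_nonneg r]

theorem norm_Gam_le (hF : Bd F K) (hε : 0 < ε) (hε1 : ε ≤ 1) (hr : 0 < r) (hr1 : r ≤ 1 / 100)
    (hf : ∀ x, ‖x‖ < 1 / 2 → f x = f0 F ε r x) {x v : EE} (hx : ‖x‖ ≤ 10 * r) (hv : ‖v‖ ≤ 4 / 3) :
    ‖Gam f x v v‖ ≤ K := by
  have hx2 : ‖x‖ < 1 / 2 := by linarith
  have k1 := hF.one
  have v2 : ‖v‖ ^ 2 ≤ 2 := by nlinarith [norm_nonneg v]
  have h1 : ‖Gam0 x v v‖ ≤ 3 * (10 * (1 / 100)) * 2 := (norm_Gam0_le hx2 v).trans (by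
    gcongr; linarith)
  have h2 : ‖fderiv ℝ f x v • v‖ ≤ K * (1 / 100) * (4 / 3) * (4 / 3) := by
    rw [norm_smul, Real.norm_eq_abs]
    gcongr
    exact (abs_fderiv_le hF hε hε1 hr hf hx2 v).trans (by gcongr)
  have h3 : ‖g0 x v v • NN f x‖ ≤ 4 * (2 * (K * (1 / 100))) := by
    obtain ⟨g1, g2⟩ := g0_le hx2 v
    rw [norm_smul, Real.norm_eq_abs, abs_of_nonneg g1]
    have hN := norm_NN_le f hx2
    have hd := norm_fderiv_loc hF hε hε1 hr hf hx2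
    have : K * r ≤ K * (1 / 100) := by gcongr
    gcongr <;> linarith
  unfold Gam
  have a1 := norm_sub_le (Gam0 x v v + fderiv ℝ f x v • v + fderiv ℝ f x v • v) (g0 x v v • NN f x)
  have a2 := norm_add₃_le (a := Gam0 x v v) (b := fderiv ℝ f x v • v) (c := fderiv ℝ f x v • v)
  linarith

theorem flow_close (hF : Bd F K) (hε : 0 < ε) (hε1 : ε ≤ 1) (hr : 0 < r) (hr1 : r ≤ 1 / 100)
    (hc : Conf f) (hf : ∀ x, ‖x‖ < 1 / 2 → f x = f0 F ε r x) {φ : ℝ → EE × EE → EE × EE}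
    {M : ℝ → EE × EE → (EE × EE) →L[ℝ] (EE × EE)} (hφ : IsFlow OO (XX f) φ M) {x w : EE}
    (hx : ‖x‖ ≤ 2 * r) (hw : ‖w‖ = 1) {s : ℝ} (hs : s ∈ Icc (-(6 * r)) 0) :
    en f (φ s (x, Real.exp (-f x) • L0 x w)) = 1 ∧
      ‖(φ s (x, Real.exp (-f x) • L0 x w)).1‖ ≤ 10 * r ∧
      ‖(φ s (x, Real.exp (-f x) • L0 x w)).1 - (x + s • w)‖ ≤ 42 * K * r * r ∧
      ‖(φ s (x, Real.exp (-f x) • L0 x w)).2 - w‖ ≤ 7 * K * r := by
  have k1 := hF.one
  have hB : x ∈ Bl := mem_Bl_of (by linarith)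
  have hi := init_close hF hε hε1 hr1 hc hf hx hw
  have he := en_init (f := f) hB hw
  set q : EE × EE := (x, Real.exp (-f x) • L0 x w) with hq
  have hO : q ∈ OO := mem_OO.2 hB
  have hen : ∀ t, en f (φ t q) = 1 := fun t => (en_flow hc.smooth hφ t hO).trans he
  have hv : ∀ t, ‖(φ t q).2‖ ≤ 4 / 3 := fun t => norm_le_of_en hc (hφ.mem t q hO) (hen t)
  have d1' := flow_d1 hφ hO
  have d2' := flow_d2 hφ hO
  have h0 : (0 : ℝ) ∈ Icc (-(6 * r)) 0 := ⟨by linarith, le_rfl⟩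
  have hn : ∀ t ∈ Icc (-(6 * r)) 0, ‖t - 0‖ ≤ 6 * r := fun t ht => by
    rw [sub_zero, Real.norm_eq_abs, abs_le]
    exact ⟨ht.1, by linarith [ht.2]⟩
  have A : ∀ t ∈ Icc (-(6 * r)) 0, ‖(φ t q).1‖ ≤ 10 * r := fun t ht => by
    have h := (convex_Icc (-(6 * r)) 0).norm_image_sub_le_of_norm_hasDerivWithin_le
      (fun s _ => (d1' s).hasDerivWithinAt) (fun s _ => hv s) h0 ht
    rw [hφ.zero] at h
    have h2 : 4 / 3 * ‖t - 0‖ ≤ 4 / 3 * (6 * r) := by gcongr; exact hn t ht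
    have h3 := norm_add_le x ((φ t q).1 - x)
    rw [add_sub_cancel] at h3
    linarith
  have B : ∀ t ∈ Icc (-(6 * r)) 0, ‖(φ t q).2 - w‖ ≤ 7 * K * r := fun t ht => by
    have h := (convex_Icc (-(6 * r)) 0).norm_image_sub_le_of_norm_hasDerivWithin_le
      (fun s _ => (d2' s).hasDerivWithinAt) (C := K) (fun s hs => by
        rw [norm_neg]; exact norm_Gam_le hF hε hε1 hr hr1 hf (A s hs) (hv s)) h0 ht
    rw [hφ.zero] at h
    have h2 : K * ‖t - 0‖ ≤ K * (6 * r) := by gcongr; exact hn t ht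
    have h3 := norm_sub_le_norm_sub_add_norm_sub (φ t q).2 q.2 w
    have h4 : 20 * K * r ^ 2 ≤ K * r := by
      have : 0 ≤ K * r := by positivity
      nlinarith
    linarith
  refine ⟨hen s, A s hs, ?_, B s hs⟩
  have d3 : ∀ t, HasDerivAt (fun s => (φ s q).1 - s • w) ((φ t q).2 - w) t := fun t => by
    have := (d1' t).sub ((hasDerivAt_id t).smul_const w)
    rw [one_smul] at this
    exact this
  have h := (convex_Icc (-(6 * r)) 0).norm_image_sub_le_of_norm_hasDerivWithin_le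
      (fun s _ => (d3 s).hasDerivWithinAt) B h0 hs
  rw [hφ.zero, zero_smul, sub_zero] at h
  have h2 : 7 * K * r * ‖s - 0‖ ≤ 7 * K * r * (6 * r) := by gcongr; exact hn s hs
  have e : (φ s q).1 - (x + s • w) = (φ s q).1 - s • w - q.1 := by
    show _ = _ - _ - x
    abel
  rw [e]
  linarith

end Loc

end Pool.Agent.MP_019006_gt

end

section

set_option autoImplicit false

open MeasureTheory Filter Topology Set Matrix

namespace Pool.Agent.MP_019006_gt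

namespace Loc

variable {F : EE → ℝ} {K ε r : ℝ} {f : EE → ℝ}

theorem continuousOn_d1 (hf : ∀ n : ℕ, ContDiffOn ℝ n f Bl) : ContinuousOn (d1 f) OO := by
  have h := continuousOn_Kmat hf
  have h1 := continuousOn_pi.1 (continuousOn_pi.1 h 0) 0
  exact h1.sub continuousOn_const

theorem continuousOn_dw (hf : ∀ n : ℕ, ContDiffOn ℝ n f Bl) : ContinuousOn (dw f) OO := by
  have h := continuousOn_Kmat hf
  have h1 := continuousOn_pi.1 (continuousOn_pi.1 h 1) 1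
  have h2 := continuousOn_pi.1 (continuousOn_pi.1 h 2) 2
  exact (h1.add h2).sub continuousOn_const

theorem continuousOn_int {d : EE × EE → ℝ} (hd : ContinuousOn d OO) {φ : ℝ → EE × EE → EE × EE}
    {M : ℝ → EE × EE → (EE × EE) →L[ℝ] (EE × EE)} (hφ : IsFlow OO (XX f) φ M) (a b : ℝ) :
    ContinuousOn (fun q => ∫ s in a..b, d (φ s q)) OO := by
  rw [continuousOn_iff_continuous_domRestrict]
  have h1 : Continuous fun z : OO × ℝ => φ z.2 z.1.1 :=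
    hφ.cont.comp_continuous (f := fun z : OO × ℝ => (z.2, z.1.1)) (by fun_prop)
      fun z => ⟨mem_univ _, z.1.2⟩
  have h2 : Continuous fun z : OO × ℝ => d (φ z.2 z.1.1) :=
    hd.comp_continuous h1 fun z => hφ.mem _ _ z.1.2
  exact intervalIntegral.continuous_parametric_intervalIntegral_of_continuous'
    (f := fun (q : OO) (s : ℝ) => d (φ s q.1)) h2 a b

theorem int_close {g σ : ℝ → ℝ} (hr : 0 < r) (hg : Continuous g) (hσ : Continuous σ) {c : ℝ}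
    (h : ∀ s ∈ Icc (-(6 * r)) 0, |g s - ε * σ (r⁻¹ * s)| ≤ c) :
    |(∫ s in (-(6 * r))..0, g s) - ε * r * ∫ s in (-6 : ℝ)..0, σ s| ≤ c * (6 * r) := by
  have e1 : ∫ s in (-(6 * r))..0, σ (r⁻¹ * s) = r * ∫ s in (-6 : ℝ)..0, σ s := by
    rw [intervalIntegral.integral_comp_mul_left σ (inv_ne_zero hr.ne'), inv_inv, smul_eq_mul,
      mul_zero, show r⁻¹ * -(6 * r) = -6 by field_simp]
  have hσ' : Continuous fun s => ε * σ (r⁻¹ * s) := by fun_prop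
  rw [mul_assoc, ← e1, ← intervalIntegral.integral_const_mul,
    ← intervalIntegral.integral_sub (hg.intervalIntegrable _ _) (hσ'.intervalIntegrable _ _)]
  have := intervalIntegral.norm_integral_le_of_norm_le_const (a := -(6 * r)) (b := 0) (C := c)
    (f := fun s => g s - ε * σ (r⁻¹ * s)) (fun s hs => by
      rw [uIoc_of_le (by linarith)] at hs
      exact h s ⟨hs.1.le, hs.2⟩)
  rwa [Real.norm_eq_abs, zero_sub, neg_neg, abs_of_pos (by linarith : 0 < 6 * r)] at this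

theorem prod_close {A I a i c t : ℝ} (ht : t ≤ 1) (h1 : |A - a| ≤ c * t) (h2 : |I - i| ≤ c * t)
    (h3 : |a| ≤ c) (h4 : |i| ≤ c) : |A * I - a * i| ≤ 3 * c ^ 2 * t := by
  have c0 : 0 ≤ c := (abs_nonneg _).trans h3
  have ct : 0 ≤ c * t := (abs_nonneg _).trans h1
  have hI : |I| ≤ 2 * c := by
    have := abs_add_le i (I - i)
    rw [add_sub_cancel] at this
    nlinarith
  have e : A * I - a * i = (A - a) * I + a * (I - i) := by ring
  have m1 : |(A - a) * I| ≤ c * t * (2 * c) := by rw [abs_mul]; gcongr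
  have m2 : |a * (I - i)| ≤ c * (c * t) := by rw [abs_mul]; gcongr
  rw [e]
  have := abs_add_le ((A - a) * I) (a * (I - i))
  linarith

theorem sig_bd (hF : Bd F K) {w : EE} (hw : ‖w‖ = 1) (y : EE) :
    |sig1 F y w| ≤ 4 * K ∧ |sigw F y w| ≤ 4 * K := by
  have hI : ∀ z : EE, ‖Complex.I • z‖ = ‖z‖ := fun z => by rw [norm_smul, Complex.norm_I, one_mul]
  have h1 := abs_le.1 (hF.b2 y w (by linarith))
  have h2 := abs_le.1 (hF.b2 y (Complex.I • w) (by rw [hI]; linarith))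
  have h3 := abs_le.1 (hF.b2 y (perp w) (by rw [norm_perp]; linarith))
  have h4 := abs_le.1 (hF.b2 y (Complex.I • perp w) (by rw [hI, norm_perp]; linarith))
  have k1 := hF.one
  unfold sig1 sigw
  rw [abs_le, abs_le]
  refine ⟨⟨?_, ?_⟩, ?_, ?_⟩ <;> linarith

theorem sig_cont (hF : Bd F K) (w : EE) :
    (Continuous fun y => sig1 F y w) ∧ Continuous fun y => sigw F y w :=
  ⟨(hF.c2 _).add (hF.c2 _), ((hF.c2 _).add (hF.c2 _)).add (continuous_const.mul (hF.c2 _))⟩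

theorem sig_zero (hF : Bd F K) (w : EE) {y : EE} (hy : 1 < ‖y‖) :
    sig1 F y w = 0 ∧ sigw F y w = 0 := by
  simp only [sig1, sigw, hF.z2 y _ hy]
  norm_num

theorem int_bd {σ : ℝ → ℝ} {c : ℝ} (h : ∀ s, |σ s| ≤ c) : |∫ s in (-6 : ℝ)..0, σ s| ≤ 6 * c := by
  have := intervalIntegral.norm_integral_le_of_norm_le_const (a := -6) (b := 0) (C := c) (f := σ)
    (fun s _ => h s)
  rw [Real.norm_eq_abs, show |(0 : ℝ) - -6| = 6 by norm_num] at this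
  linarith

theorem dens_bd (hF : Bd F K) (hε : 0 < ε) (hε1 : ε ≤ 1) (hr1 : r ≤ 1 / 100)
    (hc : Conf f) (hf : ∀ x, ‖x‖ < 1 / 2 → f x = f0 F ε r x) {x : EE} (hx : ‖x‖ ≤ 2 * r) :
    0 ≤ Real.exp (4 * f x) / Dd x ^ 3 ∧ Real.exp (4 * f x) / Dd x ^ 3 ≤ 3 ∧
      |Real.exp (4 * f x) / Dd x ^ 3 - 1| ≤ 50 * K * r ^ 2 := by
  have hx2 : ‖x‖ < 1 / 2 := by linarith
  have k1 := hF.one
  have hD := Dd_ge hx2
  have hD1 := Dd_le_one x
  have hD3 : 27 / 64 ≤ Dd x ^ 3 := by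
    calc (27 / 64 : ℝ) = (3 / 4) ^ 3 := by norm_num
      _ ≤ Dd x ^ 3 := by gcongr
  have E := exp_close hF hε hε1 hc hf hx2 4 (by norm_num)
  rw [show |(4 : ℝ)| = 4 by norm_num] at E
  have h1 := hc.fb x (mem_Bl_of hx2)
  have h2 : |4 * f x| ≤ 4 / 100 := by
    rw [abs_mul, show |(4 : ℝ)| = 4 by norm_num]; linarith
  have h3 := (abs_le.1 (Real.abs_exp_sub_one_le (x := 4 * f x) (by linarith))).2
  have x2 : ‖x‖ ^ 2 ≤ 4 * r ^ 2 := by nlinarith [norm_nonneg x]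
  have h4 : 1 - Dd x ^ 3 ≤ 12 * r ^ 2 := by
    have e : 1 - Dd x ^ 3 = ‖x‖ ^ 2 * (1 + Dd x + Dd x ^ 2) := by unfold Dd; ring
    have : Dd x ^ 2 ≤ 1 := by nlinarith
    rw [e]
    calc ‖x‖ ^ 2 * (1 + Dd x + Dd x ^ 2) ≤ 4 * r ^ 2 * 3 := by gcongr; linarith
      _ = 12 * r ^ 2 := by ring
  have h5 : Dd x ^ 3 ≤ 1 := pow_le_one₀ (by linarith) hD1
  refine ⟨by positivity, ?_, ?_⟩
  · rw [div_le_iff₀ (by linarith)]
    linarith
  · rw [div_sub_one (by linarith), abs_div, abs_of_pos (by linarith : 0 < Dd x ^ 3),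
      div_le_iff₀ (by linarith)]
    have h6 : r ^ 2 ≤ K * r ^ 2 := by nlinarith [sq_nonneg r]
    have h7 : 50 * K * r ^ 2 * (27 / 64) ≤ 50 * K * r ^ 2 * Dd x ^ 3 := by gcongr
    rw [abs_le] at E ⊢
    constructor <;> nlinarith [sq_nonneg r]

/-- The second order term of the flat model. -/
noncomputable def SS (F : EE → ℝ) (w y : EE) : ℝ :=
  1 / 8 * sigw F y w * (∫ s in (-6 : ℝ)..0, sigw F (y + s • w) w) -
    1 / 16 * sig1 F y w * ∫ s in (-6 : ℝ)..0, sig1 F (y + s • w) w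

/-- The flat model. -/
noncomputable def Main (F : EE → ℝ) (ε r : ℝ) (w y : EE) : ℝ :=
  ε ^ 2 * r * SS F w y + ε / 4 * (sig1 F y w - 2 * sigw F y w)

theorem final_alg {A B IA IB a b Ia Ib m β η : ℝ} (k1 : 1 ≤ K) (hε : 0 < ε) (hε1 : ε ≤ 1)
    (hr : 0 < r) (hr1 : r ≤ 1 / 100) (hη : 0 ≤ η) (e : ℝ)
    (hA : |A - ε * a| ≤ 1000000 * K ^ 2 * (20 * K * r ^ 2 + r ^ 2))
    (hB : |B - ε * b| ≤ 1000000 * K ^ 2 * (20 * K * r ^ 2 + r ^ 2))
    (I1 : |IA - ε * r * Ia| ≤ 1000000 * K ^ 2 * (42 * K * r + r ^ 2) * (6 * r))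
    (Iw : |IB - ε * r * Ib| ≤ 1000000 * K ^ 2 * (42 * K * r + r ^ 2) * (6 * r))
    (J1 : |Ia| ≤ 6 * (4 * K)) (Jw : |Ib| ≤ 6 * (4 * K)) (s1 : |a| ≤ 4 * K) (sw : |b| ≤ 4 * K)
    (hb1 : β ≤ 1) (m0 : 0 ≤ m) (m3 : m ≤ 3) (m1 : |m - 1| ≤ 50 * K * r ^ 2) :
    ε ^ 2 * r * (1 / 8 * b * Ib - 1 / 16 * a * Ia) + ε / 4 * (a - 2 * b) -
        (7 * (1000000000 * K ^ 3) ^ 2 * r ^ 2 + 18 * η * e ^ 2 * r) ≤
      (1 / 8 * B * IB - 1 / 16 * A * IA + 1 / 4 * (A - 2 * B) - η * e ^ 2 * (6 * r) * β) * m := by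
  obtain ⟨c, hc⟩ : ∃ c, c = 1000000000 * K ^ 3 := ⟨_, rfl⟩
  rw [← hc]
  have k2 : K ≤ K ^ 2 := by nlinarith
  have k3 : K ^ 2 ≤ K ^ 3 := by nlinarith
  have r2 : r ^ 2 ≤ 1 := by nlinarith
  have r0 : 0 ≤ r ^ 2 := sq_nonneg r
  have c1 : 1 ≤ c := by linarith
  have b1 : 1000000 * K ^ 2 * (20 * K * r ^ 2 + r ^ 2) ≤ c * r ^ 2 := by
    have : 1000000 * K ^ 2 * (20 * K * r ^ 2 + r ^ 2) =
      (20000000 * K ^ 3 + 1000000 * K ^ 2) * r ^ 2 := by ring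
    rw [this]; gcongr; linarith
  have b2 : 1000000 * K ^ 2 * (42 * K * r + r ^ 2) * (6 * r) ≤ c * r ^ 2 := by
    have : 1000000 * K ^ 2 * (42 * K * r + r ^ 2) * (6 * r) =
      (252000000 * K ^ 3 + 6000000 * (K ^ 2 * r)) * r ^ 2 := by ring
    have h2 : K ^ 2 * r ≤ K ^ 2 * 1 := by gcongr; linarith
    rw [this]; gcongr; linarith
  have sc : ∀ {z t : ℝ}, |z| ≤ 24 * K → 0 ≤ t → t ≤ 1 → |t * z| ≤ 24 * K := fun {z t} h h0 h1 => by
    rw [abs_mul, abs_of_nonneg h0]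
    calc t * |z| ≤ 1 * (24 * K) := by gcongr
      _ = 24 * K := one_mul _
  have er0 : 0 ≤ ε * r := by positivity
  have er1 : ε * r ≤ 1 := by nlinarith
  have ea := sc (z := a) (by linarith) hε.le hε1
  have eb := sc (z := b) (by linarith) hε.le hε1
  have eIa := sc (z := Ia) (by linarith) er0 er1
  have eIb := sc (z := Ib) (by linarith) er0 er1
  have P1 := prod_close r2 (hA.trans b1) (I1.trans b2) (by linarith) (by linarith)
  have P2 := prod_close r2 (hB.trans b1) (Iw.trans b2) (by linarith) (by linarith)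
  have Q1 : |ε * a * (ε * r * Ia)| ≤ 24 * K * (24 * K) := by rw [abs_mul]; gcongr
  have Q2 : |ε * b * (ε * r * Ib)| ≤ 24 * K * (24 * K) := by rw [abs_mul]; gcongr
  obtain ⟨P, hP⟩ : ∃ P, P = 1 / 8 * B * IB - 1 / 16 * A * IA + 1 / 4 * (A - 2 * B) := ⟨_, rfl⟩
  obtain ⟨N, hN⟩ : ∃ N, N = ε ^ 2 * r * (1 / 8 * b * Ib - 1 / 16 * a * Ia) + ε / 4 * (a - 2 * b) :=
    ⟨_, rfl⟩
  have cc : c * r ^ 2 ≤ c ^ 2 * r ^ 2 := by gcongr; nlinarith
  have hA' := abs_le.1 (hA.trans b1)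
  have hB' := abs_le.1 (hB.trans b1)
  rw [abs_le] at P1 P2 Q1 Q2 ea eb
  have D1 : -(2 * c ^ 2 * r ^ 2) ≤ P - N := by
    have : 0 ≤ c ^ 2 * r ^ 2 := by positivity
    rw [hP, hN]; linarith
  have D2 : |N| ≤ c := by
    rw [hN, abs_le]; constructor <;> linarith
  have D3 : |N * (m - 1)| ≤ c * (c * r ^ 2) := by
    rw [abs_mul]
    gcongr
    refine m1.trans ?_
    gcongr
    linarith
  have D4 : -(2 * c ^ 2 * r ^ 2) * m ≤ (P - N) * m := by gcongr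
  have D5 : 2 * c ^ 2 * r ^ 2 * m ≤ 2 * c ^ 2 * r ^ 2 * 3 := by gcongr
  have D6 : η * e ^ 2 * (6 * r) * β * m ≤ η * e ^ 2 * (6 * r) * 1 * 3 := by gcongr
  rw [← hP, ← hN]
  rw [abs_le] at D3
  linarith

theorem point_est (hF : Bd F K) (hε : 0 < ε) (hε1 : ε ≤ 1) (hr : 0 < r) (hr1 : r ≤ 1 / 100)
    (hK : 42 * K * r ≤ 1)
    (hc : Conf f) (hf : ∀ x, ‖x‖ < 1 / 2 → f x = f0 F ε r x) {φ : ℝ → EE × EE → EE × EE}
    {M : ℝ → EE × EE → (EE × EE) →L[ℝ] (EE × EE)} (hφ : IsFlow OO (XX f) φ M) {x w : EE}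
    (hx : ‖x‖ ≤ 2 * r) (hw : ‖w‖ = 1) {η : ℝ} (hη : 0 ≤ η) (e : ℝ) :
    Main F ε r w (r⁻¹ • x) - (7 * (1000000000 * K ^ 3) ^ 2 * r ^ 2 + 18 * η * e ^ 2 * r) ≤
      PsiT f (b0 r) φ η e (6 * r) (x, Real.exp (-f x) • L0 x w) *
        (Real.exp (4 * f x) / Dd x ^ 3) := by
  have k1 := hF.one
  have hB : x ∈ Bl := mem_Bl_of (by linarith)
  have hi := init_close hF hε hε1 hr1 hc hf hx hw
  have he := en_init (f := f) hB hw
  have hfl := fun s hs => flow_close hF hε hε1 hr hr1 hc hf hφ hx hw (s := s) hs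
  obtain ⟨m0, m3, m1⟩ := dens_bd hF hε hε1 hr1 hc hf hx
  have Kr : 0 < K * r := by positivity
  obtain ⟨hA, hBB⟩ := d_close hF hε hε1 hr hr1 hc hf (x' := x) (a := 20 * K * r ^ 2)
    (by linarith) he hw (by nlinarith) (by rw [sub_self, norm_zero]; positivity) hi
  set q : EE × EE := (x, Real.exp (-f x) • L0 x w) with hq
  have hO : q ∈ OO := mem_OO.2 hB
  have hcφ : Continuous fun s => φ s q :=
    continuous_iff_continuousAt.2 fun s => (hφ.deriv s q hO).continuousAt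
  have hcl : ∀ s ∈ Icc (-(6 * r)) 0,
      |d1 f (φ s q) - ε * sig1 F (r⁻¹ • x + (r⁻¹ * s) • w) w| ≤
        1000000 * K ^ 2 * (42 * K * r + r ^ 2) ∧
      |dw f (φ s q) - ε * sigw F (r⁻¹ • x + (r⁻¹ * s) • w) w| ≤
        1000000 * K ^ 2 * (42 * K * r + r ^ 2) := fun s hs => by
    obtain ⟨a1, a2, a3, a4⟩ := hfl s hs
    have := d_close hF hε hε1 hr hr1 hc hf (x := (φ s q).1) (v := (φ s q).2) a2 a1 hw hK a3
      (by linarith)
    rwa [smul_add, smul_smul] at this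
  obtain ⟨c1, cw⟩ := sig_cont hF w
  have hl : Continuous fun s : ℝ => r⁻¹ • x + s • w := by fun_prop
  have I1 := int_close (ε := ε) hr
    ((continuousOn_d1 hc.smooth).comp_continuous hcφ fun s => hφ.mem s q hO)
    (c1.comp hl) fun s hs => (hcl s hs).1
  have Iw := int_close (ε := ε) hr
    ((continuousOn_dw hc.smooth).comp_continuous hcφ fun s => hφ.mem s q hO)
    (cw.comp hl) fun s hs => (hcl s hs).2
  simp only [Function.comp_def] at I1 Iw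
  have J1 := int_bd (σ := fun s : ℝ => sig1 F (r⁻¹ • x + s • w) w) fun s => (sig_bd hF hw _).1
  have Jw := int_bd (σ := fun s : ℝ => sigw F (r⁻¹ • x + s • w) w) fun s => (sig_bd hF hw _).2
  obtain ⟨s1, sw⟩ := sig_bd hF hw (r⁻¹ • x)
  have hb1 : b0 r x ≤ 1 := max_le zero_le_one (min_le_left _ _)
  unfold PsiT Main SS
  generalize (∫ s in (-(6 * r))..0, d1 f (φ s q)) = IA at *
  generalize (∫ s in (-(6 * r))..0, dw f (φ s q)) = IB at *
  generalize (∫ s in (-6 : ℝ)..0, sig1 F (r⁻¹ • x + s • w) w) = Ia at *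
  generalize (∫ s in (-6 : ℝ)..0, sigw F (r⁻¹ • x + s • w) w) = Ib at *
  generalize d1 f q = A at *
  generalize dw f q = B at *
  generalize sig1 F (r⁻¹ • x) w = a at *
  generalize sigw F (r⁻¹ • x) w = b at *
  generalize Real.exp (4 * f x) / Dd x ^ 3 = m at *
  have hq1 : b0 r q.1 = b0 r x := rfl
  rw [hq1]
  generalize b0 r x = β at *
  exact final_alg k1 hε hε1 hr hr1 hη e hA hBB I1 Iw J1 Jw s1 sw hb1 m0 m3 m1

end Loc

end Pool.Agent.MP_019006_gt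

end
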