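import Pool.Agent.MP_019006_gt.JobDefs

section

set_option autoImplicit false

open MeasureTheory Filter Topology Set Matrix

namespace Pool.Agent.MP_019006_gt

namespace OdeC

lemma mono {f : ℝ → ℝ} {a b c : ℝ} (hab : a ≤ b)
    (h : ∀ t ∈ Icc a b, ∃ d, HasDerivAt f d t ∧ c ≤ d) : c * (b - a) ≤ f b - f a := by
  have hd : ∀ t ∈ Icc a b, DifferentiableAt ℝ f t := fun t ht =>
    (h t ht).choose_spec.1.differentiableAt
  apply (convex_Icc a b).mul_sub_le_image_sub_of_le_deriv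
    (fun t ht => (hd t ht).continuousAt.continuousWithinAt)
    (fun t ht => (hd t (interior_subset ht)).differentiableWithinAt) _ a (left_mem_Icc.2 hab) b
    (right_mem_Icc.2 hab) hab
  intro t ht
  obtain ⟨d, h1, h2⟩ := h t (interior_subset ht)
  rwa [h1.deriv]

lemma anti {f : ℝ → ℝ} {a b c : ℝ} (hab : a ≤ b)
    (h : ∀ t ∈ Icc a b, ∃ d, HasDerivAt f d t ∧ d ≤ c) : f b - f a ≤ c * (b - a) := by
  have := mono (f := fun t => -f t) (c := -c) hab (fun t ht => by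
    obtain ⟨d, h1, h2⟩ := h t ht
    exact ⟨-d, h1.neg, by linarith⟩)
  linarith

lemma prim {c : ℝ → ℝ} (hc : Continuous c) (a t : ℝ) :
    HasDerivAt (fun s => ∫ x in a..s, c x) (c t) t :=
  (hc.integral_hasStrictDerivAt a t).hasDerivAt

lemma gron {f c : ℝ → ℝ} (hc : Continuous c) (h0 : f 0 ≤ 0) {T : ℝ} (hT : 0 ≤ T)
    (h : ∀ t ∈ Icc 0 T, ∃ d, HasDerivAt f d t ∧ d ≤ c t * f t) : f T ≤ 0 := by
  have := anti (f := fun t => f t * Real.exp (-∫ x in (0 : ℝ)..t, c x)) (c := 0) hT (fun t ht => by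
    obtain ⟨d, h1, h2⟩ := h t ht
    refine ⟨_, h1.mul (prim hc 0 t).neg.exp, ?_⟩
    have := Real.exp_pos (-∫ x in (0 : ℝ)..t, c x)
    simp only [Pi.neg_apply]
    nlinarith)
  simp only [intervalIntegral.integral_same, neg_zero, Real.exp_zero, mul_one, zero_mul] at this
  have h2 := Real.exp_pos (-∫ x in (0 : ℝ)..T, c x)
  by_contra hpos
  push Not at hpos
  nlinarith [mul_pos hpos h2]

/-- exponentially weighted running integral -/
noncomputable def mm (b : ℝ → ℝ) (t : ℝ) : ℝ :=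
  Real.exp (-t) * ∫ s in (0 : ℝ)..t, Real.exp s * b s

lemma mm_zero (b : ℝ → ℝ) : mm b 0 = 0 := by simp [mm]

lemma mm_deriv {b : ℝ → ℝ} (hb : Continuous b) (t : ℝ) :
    HasDerivAt (mm b) (b t - mm b t) t := by
  have h1 := prim (c := fun s => Real.exp s * b s) (by fun_prop) 0 t
  have h2 := (hasDerivAt_neg t).exp.mul h1
  refine HasDerivAt.congr_deriv h2 ?_
  have : Real.exp (-t) * Real.exp t = 1 := by rw [← Real.exp_add]; simp
  unfold mm
  linear_combination (b t) * this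

lemma mm_cont {b : ℝ → ℝ} (hb : Continuous b) : Continuous (mm b) :=
  continuous_iff_continuousAt.2 fun t => (mm_deriv hb t).continuousAt

lemma mm_nonneg {b : ℝ → ℝ} (h0 : ∀ t, 0 ≤ b t) {t : ℝ} (ht : 0 ≤ t) : 0 ≤ mm b t := by
  unfold mm
  apply mul_nonneg (Real.exp_pos _).le
  apply intervalIntegral.integral_nonneg ht
  intro s _
  exact mul_nonneg (Real.exp_pos _).le (h0 s)

lemma mm_step {b : ℝ → ℝ} (hb : Continuous b) (h0 : ∀ t, 0 ≤ b t) {s t : ℝ} (hst : s ≤ t) :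
    mm b t ≤ Real.exp (s - t) * mm b s + ∫ x in s..t, b x := by
  have := anti (f := fun u => Real.exp (u - t) * mm b u - ∫ x in s..u, b x) (c := 0) hst
    (fun u hu => by
      refine ⟨_, ((((hasDerivAt_id u).sub_const t).exp).mul (mm_deriv hb u)).sub (prim hb s u), ?_⟩
      have h1 : Real.exp (u - t) ≤ 1 := Real.exp_le_one_iff.2 (by linarith [hu.2])
      have := h0 u
      simp only [id]
      nlinarith)
  simp only [sub_self, Real.exp_zero, one_mul, intervalIntegral.integral_same, sub_zero,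
    zero_mul] at this
  linarith

lemma window {e τ R : ℝ} {b : ℝ → ℝ} {K Om : ℝ → M3} (hS : SmallPert e τ R b K Om) (hτ0 : 0 < τ)
    {s t : ℝ} (hst : s ≤ t) (hR : t - s < R) : ∫ x in s..t, b x ≤ τ := by
  rw [intervalIntegral.integral_of_le hst]
  obtain ⟨a, ha⟩ : ∃ a, ∀ x ∈ Ioc s t, b x ≠ 0 → x ∈ Icc a (a + τ) := by
    by_cases hne : {x | x ∈ Ioc s t ∧ b x ≠ 0}.Nonempty
    · have hbd : BddBelow {x | x ∈ Ioc s t ∧ b x ≠ 0} := ⟨s, fun x hx => hx.1.1.le⟩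
      refine ⟨sInf {x | x ∈ Ioc s t ∧ b x ≠ 0}, fun x hx hbx => ⟨csInf_le hbd ⟨hx, hbx⟩, ?_⟩⟩
      have : x - τ ≤ sInf {x | x ∈ Ioc s t ∧ b x ≠ 0} := by
        apply le_csInf hne
        rintro y ⟨hy, hby⟩
        rcases lt_or_ge y x with h | h
        · rcases hS.gap y x h hby hbx with h1 | h1
          · linarith
          · linarith [hx.2, hy.1]
        · linarith
      linarith
    · exact ⟨0, fun x hx hbx => absurd ⟨x, hx, hbx⟩ hne⟩
  rw [setIntegral_eq_of_subset_of_forall_sdiff_eq_zero (t := Ioc s t)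
    (s := Ioc s t ∩ Icc a (a + τ)) measurableSet_Ioc inter_subset_left]
  · have hfin : volume (Ioc s t ∩ Icc a (a + τ)) < ⊤ :=
      lt_of_le_of_lt (measure_mono inter_subset_right) measure_Icc_lt_top
    have h1 := norm_setIntegral_le_of_norm_le_const (f := b) (C := 1) hfin
      (fun x _ => by rw [Real.norm_of_nonneg (hS.b0 x)]; exact hS.b1 x)
    have h2 : volume.real (Ioc s t ∩ Icc a (a + τ)) ≤ volume.real (Icc a (a + τ)) :=
      measureReal_mono inter_subset_right measure_Icc_lt_top.ne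
    rw [Real.volume_real_Icc_of_le (by linarith)] at h2
    have h3 := le_abs_self (∫ x in Ioc s t ∩ Icc a (a + τ), b x)
    rw [Real.norm_eq_abs] at h1
    linarith
  · intro x hx
    by_contra hbx
    exact hx.2 ⟨hx.1, ha x hx.1 hbx⟩

lemma mm_le {e τ R : ℝ} {b : ℝ → ℝ} {K Om : ℝ → M3} (hS : SmallPert e τ R b K Om) (hτ0 : 0 < τ)
    (hR : 2 ≤ R) {t : ℝ} (ht : 0 ≤ t) : mm b t ≤ 2 * τ := by
  have key : ∀ n : ℕ, ∀ t : ℝ, 0 ≤ t → t ≤ n → mm b t ≤ 2 * τ := by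
    intro n
    induction n with
    | zero =>
      intro t h0 h1
      have : t = 0 := le_antisymm (by simpa using h1) h0
      rw [this, mm_zero]; positivity
    | succ n ih =>
      intro t h0 h1
      rcases le_total t 1 with h2 | h2
      · have h3 := mm_step hS.bc hS.b0 h0
        have h4 := window hS hτ0 h0 (by linarith)
        rw [mm_zero] at h3
        linarith
      · have h3 := mm_step hS.bc hS.b0 (s := t - 1) (t := t) (by linarith)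
        have h4 := window hS hτ0 (s := t - 1) (t := t) (by linarith) (by linarith)
        have h5 := ih (t - 1) (by linarith) (by push_cast at h1; linarith)
        have h6 : Real.exp (t - 1 - t) ≤ 1 / 2 := by
          rw [show t - 1 - t = -1 by ring, Real.exp_neg, one_div]
          apply inv_anti₀ (by norm_num)
          linarith [Real.add_one_le_exp (1 : ℝ)]
        have h7 := mm_nonneg hS.b0 (t := t - 1) (by linarith)
        nlinarith
  obtain ⟨n, hn⟩ := exists_nat_ge t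
  exact key n t ht hn

lemma mm_before {e τ R : ℝ} {b : ℝ → ℝ} {K Om : ℝ → M3} (hS : SmallPert e τ R b K Om)
    (hτ0 : 0 < τ) (hτ : τ ≤ 1) (hR : 2 ≤ R) {t : ℝ} (ht : τ ≤ t) (hb : b t ≠ 0) :
    mm b (t - τ) ≤ 2 * τ * Real.exp (τ - R) := by
  have hz : ∀ s, t - R ≤ s → s ≤ t - τ → ∫ x in s..(t - τ), b x = 0 := by
    intro s h1 h2
    rw [intervalIntegral.integral_of_le h2, integral_Ioc_eq_integral_Ioo]
    apply setIntegral_eq_zero_of_forall_eq_zero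
    intro x hx
    by_contra hbx
    rcases hS.gap x t (by linarith [hx.2]) hbx hb with h | h
    · linarith [hx.2]
    · linarith [hx.1]
  rcases le_total t R with h | h
  · have h3 := mm_step hS.bc hS.b0 (s := 0) (t := t - τ) (by linarith)
    rw [hz 0 (by linarith) (by linarith), mm_zero] at h3
    have : 0 ≤ 2 * τ * Real.exp (τ - R) := by positivity
    linarith
  · have h3 := mm_step hS.bc hS.b0 (s := t - R) (t := t - τ) (by linarith)
    rw [hz _ le_rfl (by linarith), show t - R - (t - τ) = τ - R by ring] at h3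
    have h4 := mm_le hS hτ0 hR (t := t - R) (by linarith)
    have := Real.exp_pos (τ - R)
    nlinarith

/-- entrywise derivative of a matrix function -/
def MD (A : ℝ → M3) (A' : M3) (t : ℝ) : Prop := ∀ i j, HasDerivAt (fun s => A s i j) (A' i j) t

lemma MD.mul {A B : ℝ → M3} {A' B' : M3} {t : ℝ} (hA : MD A A' t) (hB : MD B B' t) :
    MD (fun s => A s * B s) (A' * B t + A t * B') t := by
  intro i j
  simp only [Matrix.mul_apply, Matrix.add_apply, ← Finset.sum_add_distrib]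
  exact HasDerivAt.fun_sum fun k _ => (hA i k).mul (hB k j)

lemma MD.sub {A B : ℝ → M3} {A' B' : M3} {t : ℝ} (hA : MD A A' t) (hB : MD B B' t) :
    MD (fun s => A s - B s) (A' - B') t := fun i j => (hA i j).sub (hB i j)

lemma MD.const (A : M3) (t : ℝ) : MD (fun _ => A) 0 t := fun i j => hasDerivAt_const t (A i j)

lemma MD.transpose {A : ℝ → M3} {A' : M3} {t : ℝ} (hA : MD A A' t) :
    MD (fun s => (A s)ᵀ) A'ᵀ t := fun i j => hA j i

lemma MD.vec {A : ℝ → M3} {A' : M3} {t : ℝ} (hA : MD A A' t) (u : Fin 3 → ℝ) (i : Fin 3) :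
    HasDerivAt (fun s => (A s *ᵥ u) i) ((A' *ᵥ u) i) t := by
  simp only [Matrix.mulVec, dotProduct]
  exact HasDerivAt.fun_sum fun k _ => (hA i k).mul_const _

lemma MD.nsq {A : ℝ → M3} {A' : M3} {t : ℝ} (hA : MD A A' t) (u : Fin 3 → ℝ) :
    HasDerivAt (fun s => nsq (A s *ᵥ u)) (2 * ((A t *ᵥ u) ⬝ᵥ (A' *ᵥ u))) t := by
  have h := (((hA.vec u 0).fun_pow 2).fun_add ((hA.vec u 1).fun_pow 2)).fun_add
    ((hA.vec u 2).fun_pow 2)
  refine HasDerivAt.congr_deriv h ?_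
  simp only [dotProduct, Fin.sum_univ_three]
  push_cast
  ring

lemma om_facts {Om : M3} (h : Omᵀ = -Om) : Om 0 0 = 0 ∧ Om 1 1 = 0 ∧ Om 2 2 = 0 ∧
    Om 1 0 = -Om 0 1 ∧ Om 2 0 = -Om 0 2 ∧ Om 2 1 = -Om 1 2 := by
  have key : ∀ i j, Om j i = -Om i j := fun i j => congrFun (congrFun h i) j
  refine ⟨?_, ?_, ?_, key 0 1, key 0 2, key 1 2⟩
  · linarith [key 0 0]
  · linarith [key 1 1]
  · linarith [key 2 2]

lemma term_le {k ν p x z : ℝ} (hν : 0 < ν) (hp : |p| ≤ k / 3) :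
    2 * x * p * z ≤ k / 3 * (x ^ 2 / ν + ν * z ^ 2) := by
  have h1 : 2 * |x| * |z| ≤ x ^ 2 / ν + ν * z ^ 2 := by
    have : x ^ 2 / ν + ν * z ^ 2 - 2 * |x| * |z| = (|x| - ν * |z|) ^ 2 / ν := by
      rw [← sq_abs x, ← sq_abs z]
      field_simp
      ring
    have h2 : 0 ≤ (|x| - ν * |z|) ^ 2 / ν := by positivity
    linarith
  have h3 : 2 * x * p * z ≤ |p| * (2 * |x| * |z|) := by
    have := le_abs_self (2 * x * p * z)
    rw [abs_mul, abs_mul, abs_mul, abs_two] at this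
    linarith
  calc 2 * x * p * z ≤ |p| * (2 * |x| * |z|) := h3
    _ ≤ k / 3 * (2 * |x| * |z|) := mul_le_mul_of_nonneg_right hp (by positivity)
    _ ≤ _ := mul_le_mul_of_nonneg_left h1 ((abs_nonneg p).trans hp)

lemma form_le {k ν : ℝ} {P : M3} (hν : 0 < ν) (hP : ∀ i j, |P i j| ≤ k / 3) (d y : Fin 3 → ℝ) :
    2 * (d ⬝ᵥ (P *ᵥ y)) ≤ k / ν * nsq d + k * ν * nsq y := by
  have h := fun i j => term_le (x := d i) (z := y j) hν (hP i j)
  have e : k / ν * nsq d + k * ν * nsq y = ∑ i, ∑ j, k / 3 * (d i ^ 2 / ν + ν * y j ^ 2) := by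
    simp only [Fin.sum_univ_three, nsq]
    ring
  have e2 : 2 * (d ⬝ᵥ (P *ᵥ y)) = ∑ i, ∑ j, 2 * d i * P i j * y j := by
    simp only [Fin.sum_univ_three, dotProduct, Matrix.mulVec]
    ring
  rw [e, e2]
  exact Finset.sum_le_sum fun i _ => Finset.sum_le_sum fun j _ => h i j

lemma nsq_nonneg (u : Fin 3 → ℝ) : 0 ≤ nsq u := by unfold nsq; positivity

lemma dY_dot {Om Y H : M3} (hO : Omᵀ = -Om) (u : Fin 3 → ℝ) :
    (Y *ᵥ u) ⬝ᵥ ((H - Om * Y) *ᵥ u) = nsq (Y *ᵥ u) + (Y *ᵥ u) 0 ^ 2 +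
      (Y *ᵥ u) ⬝ᵥ ((H - U0 * Y) *ᵥ u) := by
  obtain ⟨o1, o2, o3, o4, o5, o6⟩ := om_facts hO
  rw [Matrix.sub_mulVec, Matrix.sub_mulVec, ← Matrix.mulVec_mulVec, ← Matrix.mulVec_mulVec]
  generalize Y *ᵥ u = y
  generalize H *ᵥ u = h
  simp [dotProduct, Matrix.mulVec, Fin.sum_univ_three, nsq, U0, o1, o2, o3, o4, o5, o6]
  ring

lemma dD_dot {K Om Y H : M3} (hO : Omᵀ = -Om) (u : Fin 3 → ℝ) :
    ((H - U0 * Y) *ᵥ u) ⬝ᵥ ((K * Y - Om * H - (0 * Y + U0 * (H - Om * Y))) *ᵥ u) =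
      ((H - U0 * Y) *ᵥ u) ⬝ᵥ ((K - K0 + (U0 * Om - Om * U0)) *ᵥ (Y *ᵥ u)) -
        nsq ((H - U0 * Y) *ᵥ u) - ((H - U0 * Y) *ᵥ u) 0 ^ 2 := by
  obtain ⟨o1, o2, o3, o4, o5, o6⟩ := om_facts hO
  simp only [Matrix.zero_mul, zero_add, Matrix.sub_mulVec, Matrix.add_mulVec,
    ← Matrix.mulVec_mulVec]
  generalize Y *ᵥ u = y
  generalize H *ᵥ u = h
  simp [dotProduct, Matrix.mulVec, Fin.sum_univ_three, nsq, U0, K0, o1, o2, o3, o4, o5, o6]
  ring

lemma P_bound {e τ R : ℝ} {b : ℝ → ℝ} {K Om Y H : ℝ → M3} (hJ : JacSys K Om Y H)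
    (hS : SmallPert e τ R b K Om) (he0 : 0 ≤ e) (hτ : τ ≤ 1 / 100) (t : ℝ) (i j : Fin 3) :
    |(K t - K0 + (U0 * Om t - Om t * U0)) i j| ≤ 4 * e * b t / 3 := by
  obtain ⟨o1, o2, o3, o4, o5, o6⟩ := om_facts (hJ.Oa t)
  have hb := hS.b0 t
  have h1 := hS.Kb t i j
  have h2 : |(U0 * Om t - Om t * U0) i j| ≤ e * τ * b t := by
    have a0 := hS.Ob t 0
    have a1 := hS.Ob t 1
    have a2 := hS.Ob t 2
    have a3 : 0 ≤ e * τ * b t := (abs_nonneg _).trans a0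
    rw [abs_le] at a1 a2 ⊢
    fin_cases i <;> fin_cases j <;>
      simp [U0, Matrix.mul_apply, Fin.sum_univ_three, o1, o2, o3, o4, o5, o6] <;>
      first
        | exact a3
        | constructor <;> linarith [a1.1, a1.2, a2.1, a2.2]
  rw [Matrix.add_apply]
  have h3 := abs_add_le ((K t - K0) i j) ((U0 * Om t - Om t * U0) i j)
  have h4 : e * τ * b t ≤ e * b t / 100 := by nlinarith [mul_nonneg he0 hb]
  nlinarith [mul_nonneg he0 hb]

lemma mu_le {e τ R : ℝ} {b : ℝ → ℝ} {K Om : ℝ → M3}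
    (hS : SmallPert e τ R b K Om) (he0 : 0 ≤ e) (hτ0 : 0 < τ) (hR : 2 ≤ R) {t : ℝ} (ht : 0 ≤ t) :
    4 * e * mm b t ≤ 8 * e * τ := by
  have := mm_le hS hτ0 hR ht
  nlinarith

/-- the sharp cone bound -/
theorem cone_sharp {e τ R : ℝ} {b : ℝ → ℝ} {K Om Y H : ℝ → M3} (hJ : JacSys K Om Y H)
    (hS : SmallPert e τ R b K Om) (he0 : 0 ≤ e) (he : e ≤ 1) (hτ0 : 0 < τ) (hτ : τ ≤ 1 / 100)
    (hR : 2 ≤ R) {T : ℝ} (hT : 0 ≤ T) (u : Fin 3 → ℝ) :
    nsq ((H T - U0 * Y T) *ᵥ u) ≤ (4 * e * mm b T) ^ 2 * nsq (Y T *ᵥ u) := by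
  have key : ∀ θ : ℝ, 0 < θ → θ < 1 / 2 →
      nsq ((H T - U0 * Y T) *ᵥ u) - (4 * e * mm b T + θ) ^ 2 * nsq (Y T *ᵥ u) ≤ 0 := by
    intro θ h0 h1
    have hmc := mm_cont hS.bc
    have hbc := hS.bc
    apply gron (f := fun t => nsq ((H t - U0 * Y t) *ᵥ u) -
        (4 * e * mm b t + θ) ^ 2 * nsq (Y t *ᵥ u))
      (c := fun t => 4 * e * b t / (4 * e * |mm b t| + θ) + (4 * e * mm b t + θ) - 2) _ _ hT
    · intro t ht
      have hY : MD Y (H t - Om t * Y t) t := hJ.dY t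
      have hH : MD H (K t * Y t - Om t * H t) t := hJ.dH t
      have hD := (hH.sub ((MD.const U0 t).mul hY)).nsq u
      have hν := ((((mm_deriv hS.bc t).const_mul (4 * e)).add_const θ).fun_pow 2).fun_mul
        (hY.nsq u)
      refine ⟨_, hD.sub hν, ?_⟩
      have hm0 := mm_nonneg hS.b0 ht.1
      have hmu := mu_le hS he0 hτ0 hR ht.1
      simp only [dY_dot (hJ.Oa t), dD_dot (hJ.Oa t), abs_of_nonneg hm0]
      have hμ0 : 0 ≤ 4 * e * mm b t := by positivity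
      have hf := form_le (ν := 4 * e * mm b t + θ) (by positivity)
        (P_bound hJ hS he0 hτ t) ((H t - U0 * Y t) *ᵥ u) (Y t *ᵥ u)
      generalize (H t - U0 * Y t) *ᵥ u = d at *
      generalize Y t *ᵥ u = y at *
      generalize d ⬝ᵥ ((K t - K0 + (U0 * Om t - Om t * U0)) *ᵥ y) = X at *
      obtain ⟨ν, hν⟩ : ∃ ν, ν = 4 * e * mm b t + θ := ⟨_, rfl⟩
      have hν0 : 0 < ν := by rw [hν]; positivity
      have hν1 : ν ≤ 1 := by nlinarith
      have hdot : -(2 * ν ^ 2 * (y ⬝ᵥ d)) ≤ ν * nsq d + ν ^ 3 * nsq y := by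
        simp only [dotProduct, Fin.sum_univ_three, nsq]
        nlinarith [mul_nonneg hν0.le (sq_nonneg (d 0 + ν * y 0)),
          mul_nonneg hν0.le (sq_nonneg (d 1 + ν * y 1)),
          mul_nonneg hν0.le (sq_nonneg (d 2 + ν * y 2))]
      have e1 : 4 * e * (b t - mm b t) = 4 * e * b t - (ν - θ) := by rw [hν]; ring
      rw [e1]
      rw [← hν] at hf ⊢
      obtain ⟨k, hk⟩ : ∃ k, k = 4 * e * b t := ⟨_, rfl⟩
      rw [← hk] at hf ⊢
      have e2 : k / ν * (ν ^ 2 * nsq y) = k * ν * nsq y := by field_simp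
      have hN := nsq_nonneg y
      have h5 : 0 ≤ ν * nsq y * (2 * ν + 2 * θ - 2 * ν ^ 2) := by
        apply mul_nonneg (mul_nonneg hν0.le hN)
        nlinarith
      have h6 : 0 ≤ ν ^ 2 * y 0 ^ 2 := by positivity
      have h7 := sq_nonneg (d 0)
      push_cast
      simp only [pow_one]
      nlinarith
    · apply Continuous.sub _ continuous_const
      apply Continuous.add _ (by fun_prop)
      apply Continuous.div (by fun_prop) (by fun_prop)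
      intro t
      positivity
    · simp only [hJ.Y0, hJ.H0, Matrix.mul_one, sub_self, Matrix.zero_mulVec, Matrix.one_mulVec]
      have := nsq_nonneg u
      have h2 : nsq 0 = 0 := by simp [nsq]
      rw [h2]
      nlinarith [mul_nonneg (sq_nonneg (4 * e * mm b 0 + θ)) this]
  have hc : Continuous (fun θ : ℝ =>
      nsq ((H T - U0 * Y T) *ᵥ u) - (4 * e * mm b T + θ) ^ 2 * nsq (Y T *ᵥ u)) := by fun_prop
  have h1 : Tendsto (fun θ : ℝ =>
      nsq ((H T - U0 * Y T) *ᵥ u) - (4 * e * mm b T + θ) ^ 2 * nsq (Y T *ᵥ u)) (𝓝[>] 0) _ :=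
    (hc.tendsto 0).mono_left nhdsWithin_le_nhds
  have h2 := le_of_tendsto h1 (by
    filter_upwards [Ioo_mem_nhdsGT (show (0 : ℝ) < 1 / 2 by norm_num)] with θ hθ
    exact key θ hθ.1 hθ.2)
  simp only [add_zero] at h2
  linarith

lemma MD.det_cont {A : ℝ → M3} {A' : ℝ → M3} (h : ∀ t, MD A (A' t) t) :
    Continuous fun t => (A t).det := by
  apply Continuous.matrix_det
  exact continuous_pi fun i => continuous_pi fun j =>
    continuous_iff_continuousAt.2 fun t => (h t i j).continuousAt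

end OdeC

open OdeC in
theorem cone_of_small {e τ R : ℝ} {b : ℝ → ℝ} {K Om Y H : ℝ → M3} (hJ : JacSys K Om Y H)
    (hS : SmallPert e τ R b K Om) (he0 : 0 ≤ e) (he : e ≤ 1) (hτ0 : 0 < τ) (hτ : τ ≤ 1 / 100)
    (hR : 2 ≤ R) : Cone K Om Y H := by
  have hcone : ∀ t, 0 ≤ t → ∀ u : Fin 3 → ℝ,
      nsq ((H t - U0 * Y t) *ᵥ u) ≤ 1 / 100 * nsq (Y t *ᵥ u) := by
    intro t ht u
    refine (cone_sharp hJ hS he0 he hτ0 hτ hR ht u).trans ?_
    apply mul_le_mul_of_nonneg_right _ (nsq_nonneg _)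
    have h1 := mu_le hS he0 hτ0 hR ht
    have h2 : 0 ≤ 4 * e * mm b t := by have := mm_nonneg hS.b0 ht; positivity
    have h3 : 4 * e * mm b t ≤ 1 / 10 := by nlinarith
    nlinarith
  have hne : ∀ t, 0 ≤ t → (Y t).det ≠ 0 := by
    intro t ht h0
    obtain ⟨u, hu, hYu⟩ := Matrix.exists_mulVec_eq_zero_iff.2 h0
    have := mono (f := fun s => nsq (Y s *ᵥ u)) (c := 0) ht (fun s hs => by
      have hY : MD Y (H s - Om s * Y s) s := hJ.dY s
      refine ⟨_, hY.nsq u, ?_⟩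
      rw [dY_dot (hJ.Oa s)]
      have h1 := hcone s hs.1 u
      generalize (H s - U0 * Y s) *ᵥ u = d at *
      generalize Y s *ᵥ u = y at *
      simp only [dotProduct, Fin.sum_univ_three, nsq] at *
      nlinarith [sq_nonneg (d 0 + y 0), sq_nonneg (d 1 + y 1), sq_nonneg (d 2 + y 2),
        sq_nonneg (y 0), sq_nonneg (y 1), sq_nonneg (y 2)])
    simp only [hYu, hJ.Y0, Matrix.one_mulVec, nsq, Pi.zero_apply] at this
    apply hu
    have a0 : u 0 = 0 := by nlinarith [sq_nonneg (u 0), sq_nonneg (u 1), sq_nonneg (u 2)]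
    have a1 : u 1 = 0 := by nlinarith [sq_nonneg (u 0), sq_nonneg (u 1), sq_nonneg (u 2)]
    have a2 : u 2 = 0 := by nlinarith [sq_nonneg (u 0), sq_nonneg (u 1), sq_nonneg (u 2)]
    ext i
    fin_cases i <;> simpa
  refine ⟨?_, ?_, hcone, ?_⟩
  · intro t ht
    by_contra hneg
    push Not at hneg
    have hc : Continuous fun t => (Y t).det := MD.det_cont (fun s => hJ.dY s)
    have h1 : (0 : ℝ) ∈ Icc ((Y t).det) ((Y 0).det) := ⟨hneg, by rw [hJ.Y0]; simp⟩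
    obtain ⟨s, hs, hs0⟩ := intermediate_value_Icc' ht hc.continuousOn h1
    exact hne s hs.1 hs0
  · intro t
    have hd : ∀ s, MD (fun s => (Y s)ᵀ * H s - (H s)ᵀ * Y s) 0 s := by
      intro s
      have hY : MD Y (H s - Om s * Y s) s := hJ.dY s
      have hH : MD H (K s * Y s - Om s * H s) s := hJ.dH s
      have := (hY.transpose.mul hH).sub (hH.transpose.mul hY)
      convert this using 1
      simp only [Matrix.transpose_sub, Matrix.transpose_mul, hJ.Ks s, hJ.Oa s]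
      noncomm_ring
    ext i j
    have h1 := is_const_of_deriv_eq_zero (f := fun s => ((Y s)ᵀ * H s - (H s)ᵀ * Y s) i j)
      (fun s => (hd s i j).differentiableAt) (fun s => (hd s i j).deriv) t 0
    simp only [hJ.Y0, hJ.H0, Matrix.transpose_one, Matrix.one_mul, Matrix.mul_one, U0,
      Matrix.diagonal_transpose, sub_self, Matrix.sub_apply] at h1
    linarith
  · intro t j
    have h1 := hS.Ob t j
    have h2 := hS.b0 t
    have h3 := hS.b1 t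
    have h4 : e * τ ≤ 1 / 100 := by nlinarith
    have h5 : 0 ≤ e * τ := by positivity
    nlinarith

end Pool.Agent.MP_019006_gt

end

section

set_option autoImplicit false

open MeasureTheory Filter Topology Set Matrix

namespace Pool.Agent.MP_019006_gt

namespace OdeC

lemma MD.unique {A B : ℝ → M3} {A' B' : M3} {t : ℝ} (hA : MD A A' t) (hB : MD B B' t)
    (h : ∀ᶠ s in 𝓝 t, A s = B s) : A' = B' := by
  ext i j
  refine (hA i j).unique ((hB i j).congr_of_eventuallyEq ?_)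
  filter_upwards [h] with s hs
  rw [hs]

lemma MD.det {Y : ℝ → M3} {A : M3} {t : ℝ} (h : MD Y (A * Y t) t) :
    HasDerivAt (fun s => (Y s).det) ((A 0 0 + A 1 1 + A 2 2) * (Y t).det) t := by
  simp only [Matrix.det_fin_three]
  have h1 := ((((((((h 0 0).fun_mul (h 1 1)).fun_mul (h 2 2)).fun_sub
    (((h 0 0).fun_mul (h 1 2)).fun_mul (h 2 1))).fun_sub
    (((h 0 1).fun_mul (h 1 0)).fun_mul (h 2 2))).fun_add
    (((h 0 1).fun_mul (h 1 2)).fun_mul (h 2 0))).fun_add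
    (((h 0 2).fun_mul (h 1 0)).fun_mul (h 2 1))).fun_sub
    (((h 0 2).fun_mul (h 1 1)).fun_mul (h 2 0)))
  refine HasDerivAt.congr_deriv h1 ?_
  simp only [Matrix.mul_apply, Fin.sum_univ_three]
  ring

lemma inv_deriv {Y Y' : ℝ → M3} (h : ∀ s, MD Y (Y' s) s) {t : ℝ} (hd : (Y t).det ≠ 0) :
    MD (fun s => (Y s)⁻¹) (-((Y t)⁻¹ * Y' t * (Y t)⁻¹)) t := by
  have hy : ∀ i j, DifferentiableAt ℝ (fun s => Y s i j) t := fun i j => (h t i j).differentiableAt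
  have hdet : DifferentiableAt ℝ (fun s => (Y s).det) t := by
    simp only [Matrix.det_fin_three]
    fun_prop
  have hadj : ∀ i j, DifferentiableAt ℝ (fun s => (Y s).adjugate i j) t := by
    intro i j
    simp only [Matrix.adjugate_fin_three]
    fin_cases i <;> fin_cases j <;> simp <;> fun_prop
  have hV : MD (fun s => (Y s)⁻¹) (Matrix.of fun i j => deriv (fun s => (Y s)⁻¹ i j) t) t := by
    intro i j
    apply DifferentiableAt.hasDerivAt
    simp only [Matrix.inv_def, Ring.inverse_eq_inv', Matrix.smul_apply, smul_eq_mul]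
    exact (hdet.inv hd).mul (hadj i j)
  have hev : ∀ᶠ s in 𝓝 t, (Y s)⁻¹ * Y s = 1 := by
    filter_upwards [hdet.continuousAt.eventually_ne hd] with s hs
    exact Matrix.nonsing_inv_mul _ (Ne.isUnit hs)
  have h1 := (hV.mul (h t)).unique (MD.const 1 t) hev
  have h2 : Y t * (Y t)⁻¹ = 1 := Matrix.mul_nonsing_inv _ (Ne.isUnit hd)
  generalize (Matrix.of fun i j => deriv (fun s => (Y s)⁻¹ i j) t) = V at *
  have h3 : V = -((Y t)⁻¹ * Y' t * (Y t)⁻¹) := by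
    calc V = V * (Y t * (Y t)⁻¹) := by rw [h2, Matrix.mul_one]
      _ = (V * Y t + (Y t)⁻¹ * Y' t) * (Y t)⁻¹ - (Y t)⁻¹ * Y' t * (Y t)⁻¹ := by noncomm_ring
      _ = _ := by rw [h1]; simp
  rwa [h3] at hV

/-- the Riccati matrix -/
noncomputable def UU (Y H : ℝ → M3) (s : ℝ) : M3 := H s * (Y s)⁻¹

lemma UU_mul {Y H : ℝ → M3} {t : ℝ} (hd : (Y t).det ≠ 0) : UU Y H t * Y t = H t := by
  unfold UU
  rw [Matrix.mul_assoc, Matrix.nonsing_inv_mul _ (Ne.isUnit hd), Matrix.mul_one]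

lemma UU_deriv {K Om Y H : ℝ → M3} (hJ : JacSys K Om Y H) {t : ℝ} (hd : (Y t).det ≠ 0) :
    MD (UU Y H) (K t - Om t * UU Y H t - UU Y H t * UU Y H t + UU Y H t * Om t) t := by
  have hH : MD H (K t * Y t - Om t * H t) t := hJ.dH t
  have h1 := hH.mul (inv_deriv (Y' := fun s => H s - Om s * Y s) (fun s => hJ.dY s) hd)
  have h2 : Y t * (Y t)⁻¹ = 1 := Matrix.mul_nonsing_inv _ (Ne.isUnit hd)
  have e : (K t * Y t - Om t * H t) * (Y t)⁻¹ + H t * -((Y t)⁻¹ * (H t - Om t * Y t) * (Y t)⁻¹) =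
      K t - Om t * UU Y H t - UU Y H t * UU Y H t + UU Y H t * Om t := by
    unfold UU
    calc _ = K t * (Y t * (Y t)⁻¹) - Om t * (H t * (Y t)⁻¹) - H t * (Y t)⁻¹ * (H t * (Y t)⁻¹) +
          H t * (Y t)⁻¹ * Om t * (Y t * (Y t)⁻¹) := by noncomm_ring
      _ = _ := by rw [h2]; simp
  rw [e] at h1
  exact h1

lemma UU_symm {K Om Y H : ℝ → M3} (hC : Cone K Om Y H) {t : ℝ} (hd : (Y t).det ≠ 0) (i j : Fin 3) :
    UU Y H t j i = UU Y H t i j := by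
  have h2 : Y t * (Y t)⁻¹ = 1 := Matrix.mul_nonsing_inv _ (Ne.isUnit hd)
  have h3 : ((Y t)⁻¹)ᵀ * (Y t)ᵀ = 1 := by
    rw [← Matrix.transpose_mul, h2, Matrix.transpose_one]
  have h : (UU Y H t)ᵀ = UU Y H t := by
    unfold UU
    rw [Matrix.transpose_mul]
    calc ((Y t)⁻¹)ᵀ * (H t)ᵀ = ((Y t)⁻¹)ᵀ * (H t)ᵀ * (Y t * (Y t)⁻¹) := by rw [h2, Matrix.mul_one]
      _ = ((Y t)⁻¹)ᵀ * ((H t)ᵀ * Y t) * (Y t)⁻¹ := by noncomm_ring
      _ = ((Y t)⁻¹)ᵀ * (Y t)ᵀ * (H t * (Y t)⁻¹) := by rw [← hC.wronski t]; noncomm_ring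
      _ = _ := by rw [h3, Matrix.one_mul]
  exact congrFun (congrFun h i) j

lemma W_bound {Y H : ℝ → M3} {t μ : ℝ} (hd : (Y t).det ≠ 0) (hμ : 0 ≤ μ)
    (h : ∀ u, nsq ((H t - U0 * Y t) *ᵥ u) ≤ μ ^ 2 * nsq (Y t *ᵥ u)) (i j : Fin 3) :
    |(UU Y H t - U0) i j| ≤ μ := by
  have h2 : Y t * (Y t)⁻¹ = 1 := Matrix.mul_nonsing_inv _ (Ne.isUnit hd)
  have h1 := h ((Y t)⁻¹ *ᵥ Pi.single j 1)
  have e : (H t - U0 * Y t) * (Y t)⁻¹ = UU Y H t - U0 := by
    unfold UU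
    rw [Matrix.sub_mul, Matrix.mul_assoc, h2, Matrix.mul_one]
  rw [Matrix.mulVec_mulVec, Matrix.mulVec_mulVec, e, h2, Matrix.one_mulVec,
    Matrix.mulVec_single_one] at h1
  have h3 : nsq (Pi.single j 1) = 1 := by
    fin_cases j <;> simp [nsq]
  rw [h3, mul_one] at h1
  apply abs_le_of_sq_le_sq' _ hμ |> abs_le.2
  refine le_trans ?_ h1
  generalize UU Y H t - U0 = W
  simp only [nsq, Matrix.col_apply]
  fin_cases i <;> simp <;> nlinarith [sq_nonneg (W 0 j), sq_nonneg (W 1 j), sq_nonneg (W 2 j)]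

lemma abs_mul_le' {x y a b : ℝ} (hx : |x| ≤ a) (hy : |y| ≤ b) : |x * y| ≤ a * b := by
  rw [abs_mul]
  exact mul_le_mul hx hy (abs_nonneg _) ((abs_nonneg _).trans hx)

lemma alg_E {a w1 w2 p q r o1 o2 μ o : ℝ} (ha : |a| ≤ μ) (h1 : |w1| ≤ μ) (h2 : |w2| ≤ μ)
    (hp : |p| ≤ μ) (hq : |q| ≤ μ) (hr : |r| ≤ μ) (g1 : |o1| ≤ o) (g2 : |o2| ≤ o) :
    |(p ^ 2 + 2 * q ^ 2 + r ^ 2) + (w1 ^ 2 + w2 ^ 2) - 2 * (o1 * w1 + o2 * w2)| ≤
        6 * μ ^ 2 + 4 * o * μ ∧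
      |a ^ 2 + (w1 ^ 2 + w2 ^ 2) + 2 * (o1 * w1 + o2 * w2)| ≤ 3 * μ ^ 2 + 4 * o * μ := by
  have s : ∀ x : ℝ, |x| ≤ μ → 0 ≤ x ^ 2 ∧ x ^ 2 ≤ μ ^ 2 := fun x hx =>
    ⟨sq_nonneg x, sq_le_sq' (abs_le.1 hx).1 (abs_le.1 hx).2⟩
  have b1 := abs_le.1 (abs_mul_le' g1 h1)
  have b2 := abs_le.1 (abs_mul_le' g2 h2)
  have := s a ha
  have := s w1 h1
  have := s w2 h2
  have := s p hp
  have := s q hq
  have := s r hr
  constructor <;> rw [abs_le] <;> constructor <;> nlinarith [sq_nonneg μ]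

lemma alg_main {a w1 w2 p q r o1 o2 d1 dw μ o : ℝ} (ha : |a| ≤ μ) (h1 : |w1| ≤ μ) (h2 : |w2| ≤ μ)
    (hp : |p| ≤ μ) (hq : |q| ≤ μ) (hr : |r| ≤ μ) (g1 : |o1| ≤ o) (g2 : |o2| ≤ o) {a' g' : ℝ}
    (ea : a' = d1 - 4 * a - (a ^ 2 + (w1 ^ 2 + w2 ^ 2) + 2 * (o1 * w1 + o2 * w2)))
    (eg : g' = dw - 2 * (p + r) -
      ((p ^ 2 + 2 * q ^ 2 + r ^ 2) + (w1 ^ 2 + w2 ^ 2) - 2 * (o1 * w1 + o2 * w2))) :
    1 / 4 * (d1 - 2 * dw) + 1 / 8 * dw * (p + r) - 1 / 16 * d1 * a -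
        (2 * μ ^ 3 + 2 * o * μ ^ 2 + 13 * o ^ 2) ≤
      (a - (p + r) - 4 * (o1 ^ 2 + o2 ^ 2)) + 1 / 4 * (a' - 2 * g') + 1 / 8 * (p + r) * g' -
        1 / 16 * a * a' := by
  obtain ⟨e1, e2⟩ := alg_E ha h1 h2 hp hq hr g1 g2
  have hg : |p + r| ≤ 2 * μ := by linarith [abs_add_le p r]
  have b1 := abs_le.1 (abs_mul_le' hg e1)
  have b2 := abs_le.1 (abs_mul_le' ha e2)
  have c1 : o1 ^ 2 ≤ o ^ 2 := sq_le_sq' (abs_le.1 g1).1 (abs_le.1 g1).2
  have c2 : o2 ^ 2 ≤ o ^ 2 := sq_le_sq' (abs_le.1 g2).1 (abs_le.1 g2).2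
  have hμ : 0 ≤ μ := (abs_nonneg _).trans ha
  have ho : 0 ≤ o := (abs_nonneg _).trans g1
  have p1 : 0 ≤ μ ^ 3 := by positivity
  have p2 : 0 ≤ o * μ ^ 2 := by positivity
  rw [ea, eg]
  nlinarith [sq_nonneg (w1 - 3 * o1), sq_nonneg (w2 - 3 * o2), sq_nonneg (p - r), sq_nonneg q,
    sq_nonneg o]

lemma alg_Q {a p q r o1 o2 y0 y1 y2 : ℝ} (ha : |a| ≤ 2 / 25)
    (hp : |p| ≤ 2 / 25) (hq : |q| ≤ 2 / 25) (hr : |r| ≤ 2 / 25) (g1 : |o1| ≤ 1 / 100)
    (g2 : |o2| ≤ 1 / 100) {Q' : ℝ}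
    (e : Q' = 2 * (2 + a) * y0 ^ 2 - 4 * y0 * (o1 * y1 + o2 * y2) -
      2 * ((1 + p) * y1 ^ 2 + 2 * q * y1 * y2 + (1 + r) * y2 ^ 2)) :
    7 / 2 * (y0 ^ 2 - y1 ^ 2 - y2 ^ 2) ≤ Q' ∧
      2 * (2 + a - 2 * (o1 ^ 2 + o2 ^ 2)) * (y0 ^ 2 - y1 ^ 2 - y2 ^ 2) ≤ Q' := by
  have c1 : o1 ^ 2 ≤ (1 / 100) ^ 2 := sq_le_sq' (abs_le.1 g1).1 (abs_le.1 g1).2
  have c2 : o2 ^ 2 ≤ (1 / 100) ^ 2 := sq_le_sq' (abs_le.1 g2).1 (abs_le.1 g2).2
  rw [abs_le] at ha hp hq hr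
  have s0 := sq_nonneg y0
  have s1 := sq_nonneg y1
  have s2 := sq_nonneg y2
  have k1 : 4 * y0 * (o1 * y1 + o2 * y2) ≤ 4 * (o1 ^ 2 + o2 ^ 2) * y0 ^ 2 + (y1 ^ 2 + y2 ^ 2) := by
    nlinarith [sq_nonneg (2 * o1 * y0 - y1), sq_nonneg (2 * o2 * y0 - y2)]
  have k2 : 2 * q * y1 * y2 ≤ 2 / 25 * (y1 ^ 2 + y2 ^ 2) := by
    nlinarith [mul_nonneg (sub_nonneg.2 hq.2) (sq_nonneg (y1 + y2)),
      mul_nonneg (sub_nonneg.2 hq.1) (sq_nonneg (y1 - y2))]
  have k3 : p * y1 ^ 2 ≤ 2 / 25 * y1 ^ 2 := mul_le_mul_of_nonneg_right hp.2 s1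
  have k4 : r * y2 ^ 2 ≤ 2 / 25 * y2 ^ 2 := mul_le_mul_of_nonneg_right hr.2 s2
  have k5 : -(2 / 25) * y0 ^ 2 ≤ a * y0 ^ 2 := mul_le_mul_of_nonneg_right ha.1 s0
  have k6 : -(2 / 25) * (y1 ^ 2 + y2 ^ 2) ≤ a * (y1 ^ 2 + y2 ^ 2) :=
    mul_le_mul_of_nonneg_right ha.1 (by positivity)
  have k7 : (o1 ^ 2 + o2 ^ 2) * y0 ^ 2 ≤ 2 * (1 / 100) ^ 2 * y0 ^ 2 :=
    mul_le_mul_of_nonneg_right (by linarith) s0
  have k8 : (o1 ^ 2 + o2 ^ 2) * (y1 ^ 2 + y2 ^ 2) ≤ 2 * (1 / 100) ^ 2 * (y1 ^ 2 + y2 ^ 2) :=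
    mul_le_mul_of_nonneg_right (by linarith) (by positivity)
  rw [e]
  constructor <;> nlinarith

lemma cmp {g δ : ℝ → ℝ} (hδ : Continuous δ) {s t L : ℝ} (hst : s ≤ t)
    (h : ∀ x ∈ Icc s t, ∃ d, HasDerivAt g d x ∧ |d - δ x| ≤ L) :
    |g t - ∫ x in s..t, δ x| ≤ |g s| + L * (t - s) := by
  have h1 := mono (f := fun u => g u - ∫ x in s..u, δ x) (c := -L) hst (fun x hx => by
    obtain ⟨d, a1, a2⟩ := h x hx
    exact ⟨_, a1.sub (prim hδ s x), (abs_le.1 a2).1⟩)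
  have h2 := anti (f := fun u => g u - ∫ x in s..u, δ x) (c := L) hst (fun x hx => by
    obtain ⟨d, a1, a2⟩ := h x hx
    exact ⟨_, a1.sub (prim hδ s x), (abs_le.1 a2).2⟩)
  simp only [intervalIntegral.integral_same, sub_zero] at h1 h2
  rw [abs_le]
  constructor <;> linarith [le_abs_self (g s), neg_abs_le (g s)]

lemma slide_cont {δ : ℝ → ℝ} (hδ : Continuous δ) (τ : ℝ) :
    Continuous fun t => ∫ s in (t - τ)..t, δ s := by
  have hF : Continuous fun t => ∫ s in (0 : ℝ)..t, δ s :=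
    continuous_iff_continuousAt.2 fun t => (prim hδ 0 t).continuousAt
  have : (fun t => ∫ s in (t - τ)..t, δ s) =
      fun t => (∫ s in (0 : ℝ)..t, δ s) - ∫ s in (0 : ℝ)..(t - τ), δ s := by
    ext t
    rw [intervalIntegral.integral_interval_sub_left (hδ.intervalIntegrable _ _)
      (hδ.intervalIntegrable _ _)]
  rw [this]
  exact hF.sub (hF.comp (continuous_id.sub continuous_const))

lemma slide_le {δ : ℝ → ℝ} {τ c : ℝ} (hτ : 0 ≤ τ) (h : ∀ s, |δ s| ≤ c) (t : ℝ) :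
    |∫ s in (t - τ)..t, δ s| ≤ c * τ := by
  have := intervalIntegral.norm_integral_le_of_norm_le_const (a := t - τ) (b := t) (f := δ) (C := c)
    (fun x _ => h x)
  rwa [sub_sub_cancel, abs_of_nonneg hτ] at this

end OdeC

end Pool.Agent.MP_019006_gt

end

section

set_option autoImplicit false

open MeasureTheory Filter Topology Set Matrix

namespace Pool.Agent.MP_019006_gt

namespace OdeC

/-- top diagonal entry of the Riccati deviation -/
noncomputable def aa (Y H : ℝ → M3) (s : ℝ) : ℝ := UU Y H s 0 0 - 2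

/-- trace of the lower block of the Riccati deviation -/
noncomputable def gg (Y H : ℝ → M3) (s : ℝ) : ℝ := UU Y H s 1 1 + UU Y H s 2 2 - 2

/-- the indefinite form on the first column -/
def QQ (Y : ℝ → M3) (s : ℝ) : ℝ := Y s 0 0 ^ 2 - Y s 1 0 ^ 2 - Y s 2 0 ^ 2

lemma point {e τ R : ℝ} {b : ℝ → ℝ} {K Om Y H : ℝ → M3} (hJ : JacSys K Om Y H)
    (hS : SmallPert e τ R b K Om) (he0 : 0 ≤ e) (he : e ≤ 1) (hτ0 : 0 < τ) (hτ : τ ≤ 1 / 100)
    (hR : 2 ≤ R) {t : ℝ} (ht : 0 ≤ t) :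
    ∃ a' g' Q' l : ℝ, HasDerivAt (aa Y H) a' t ∧ HasDerivAt (gg Y H) g' t ∧
      HasDerivAt (QQ Y) Q' t ∧
      HasDerivAt (fun s => (Y s).det) ((4 + aa Y H t + gg Y H t) * (Y t).det) t ∧
      |aa Y H t| ≤ 4 * e * mm b t ∧ |gg Y H t| ≤ 2 * (4 * e * mm b t) ∧
      |a' - (K t 0 0 - 4)| ≤ 40 * e * τ ∧ |g' - (K t 1 1 + K t 2 2 - 2)| ≤ 40 * e * τ ∧
      7 / 2 * QQ Y t ≤ Q' ∧ l * QQ Y t ≤ Q' ∧
      1 / 4 * ((K t 0 0 - 4) - 2 * (K t 1 1 + K t 2 2 - 2)) +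
          1 / 8 * (K t 1 1 + K t 2 2 - 2) * gg Y H t - 1 / 16 * (K t 0 0 - 4) * aa Y H t -
          512 * e ^ 2 * τ ^ 2 * mm b t - 15 * e ^ 2 * τ ^ 2 * b t ≤
        l - (4 + aa Y H t + gg Y H t) + 1 / 4 * (a' - 2 * g') + 1 / 8 * gg Y H t * g' -
          1 / 16 * aa Y H t * a' := by
  have hC := cone_of_small hJ hS he0 he hτ0 hτ hR
  have hd : (Y t).det ≠ 0 := (hC.det_pos t ht).ne'
  have hm0 := mm_nonneg hS.b0 ht
  have hμ0 : 0 ≤ 4 * e * mm b t := by positivity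
  have hμ1 := mu_le hS he0 hτ0 hR ht
  have hW := W_bound hd hμ0 (cone_sharp hJ hS he0 he hτ0 hτ hR ht)
  have hU := UU_deriv hJ hd
  have hsym := UU_symm hC hd
  obtain ⟨o1, o2, o3, o4, o5, o6⟩ := om_facts (hJ.Oa t)
  have hY : MD Y ((UU Y H t - Om t) * Y t) t := by
    rw [Matrix.sub_mul, UU_mul hd]
    exact hJ.dY t
  have g1 := hS.Ob t 1
  have g2 := hS.Ob t 2
  have hb0 := hS.b0 t
  have hb1 := hS.b1 t
  have w00 := hW 0 0
  have w01 := hW 0 1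
  have w02 := hW 0 2
  have w11 := hW 1 1
  have w12 := hW 1 2
  have w22 := hW 2 2
  simp only [Matrix.sub_apply, U0, Matrix.diagonal_apply_eq, Matrix.cons_val_zero,
    Matrix.cons_val_one, Matrix.cons_val, ne_eq, Fin.reduceEq, not_false_eq_true,
    Matrix.diagonal_apply_ne, sub_zero] at w00 w01 w02 w11 w12 w22
  have s10 := hsym 0 1
  have s20 := hsym 0 2
  have s21 := hsym 1 2
  have da : HasDerivAt (aa Y H) _ t := (hU 0 0).sub_const 2
  have dg : HasDerivAt (gg Y H) _ t := ((hU 1 1).add (hU 2 2)).sub_const 2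
  have dQ : HasDerivAt (QQ Y) _ t :=
    (((hY 0 0).fun_pow 2).fun_sub ((hY 1 0).fun_pow 2)).fun_sub ((hY 2 0).fun_pow 2)
  have dd := hY.det
  have heτ : e * τ ≤ 1 / 100 := (mul_le_of_le_one_left hτ0.le he).trans hτ
  have heτ0 : 0 ≤ e * τ := by positivity
  have ho1 : e * τ * b t ≤ e * τ := mul_le_of_le_one_right heτ0 hb1
  have ho0 : 0 ≤ e * τ * b t := by positivity
  obtain ⟨μ, hμ⟩ : ∃ μ, μ = 4 * e * mm b t := ⟨_, rfl⟩
  obtain ⟨o, ho⟩ : ∃ o, o = e * τ * b t := ⟨_, rfl⟩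
  rw [← hμ] at w00 w01 w02 w11 w12 w22 hμ0 hμ1
  rw [← ho] at g1 g2 ho1 ho0
  have hμ2 : μ ≤ 2 / 25 := by linarith
  have E := alg_E w00 w01 w02 w11 w12 w22 g1 g2
  have ea : (K t - Om t * UU Y H t - UU Y H t * UU Y H t + UU Y H t * Om t) 0 0 =
      (K t 0 0 - 4) - 4 * (UU Y H t 0 0 - 2) - ((UU Y H t 0 0 - 2) ^ 2 +
        (UU Y H t 0 1 ^ 2 + UU Y H t 0 2 ^ 2) +
          2 * (Om t 0 1 * UU Y H t 0 1 + Om t 0 2 * UU Y H t 0 2)) := by
    simp only [Matrix.add_apply, Matrix.sub_apply, Matrix.mul_apply, Fin.sum_univ_three,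
      o1, o4, o5, s10, s20]
    ring
  have eg : (K t - Om t * UU Y H t - UU Y H t * UU Y H t + UU Y H t * Om t) 1 1 +
      (K t - Om t * UU Y H t - UU Y H t * UU Y H t + UU Y H t * Om t) 2 2 =
      (K t 1 1 + K t 2 2 - 2) - 2 * ((UU Y H t 1 1 - 1) + (UU Y H t 2 2 - 1)) -
        (((UU Y H t 1 1 - 1) ^ 2 + 2 * UU Y H t 1 2 ^ 2 + (UU Y H t 2 2 - 1) ^ 2) +
          (UU Y H t 0 1 ^ 2 + UU Y H t 0 2 ^ 2) -
            2 * (Om t 0 1 * UU Y H t 0 1 + Om t 0 2 * UU Y H t 0 2)) := by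
    simp only [Matrix.add_apply, Matrix.sub_apply, Matrix.mul_apply, Fin.sum_univ_three,
      o2, o3, o4, o5, o6, s10, s20, s21]
    ring
  have M := alg_main w00 w01 w02 w11 w12 w22 g1 g2 ea eg
  have hQ := alg_Q (y0 := Y t 0 0) (y1 := Y t 1 0) (y2 := Y t 2 0) (w00.trans hμ2)
    (w11.trans hμ2) (w12.trans hμ2) (w22.trans hμ2) (g1.trans (ho1.trans heτ))
    (g2.trans (ho1.trans heτ)) rfl
  have hgg : gg Y H t = (UU Y H t 1 1 - 1) + (UU Y H t 2 2 - 1) := by unfold gg; ring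
  have haa : aa Y H t = UU Y H t 0 0 - 2 := rfl
  have hgb : |gg Y H t| ≤ 2 * μ := by
    rw [hgg]; linarith [abs_add_le (UU Y H t 1 1 - 1) (UU Y H t 2 2 - 1)]
  have q1 : μ ^ 2 ≤ 2 / 25 * μ := by rw [pow_two]; exact mul_le_mul_of_nonneg_right hμ2 hμ0
  have q2 : o * μ ≤ 1 / 100 * μ := mul_le_mul_of_nonneg_right (ho1.trans heτ) hμ0
  refine ⟨_, _, _, 2 * (2 + aa Y H t - 2 * (Om t 0 1 ^ 2 + Om t 0 2 ^ 2)), da, dg,
    dQ.congr_deriv ?_, dd.congr_deriv ?_, w00.trans hμ.le,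
    hgb.trans (by rw [hμ]), ?_, ?_, hQ.1, hQ.2, ?_⟩
  · simp only [Matrix.sub_apply, Matrix.mul_apply, Fin.sum_univ_three,
      o1, o2, o3, o4, o5, o6, s10, s20, s21]
    push_cast
    ring
  · simp only [Matrix.sub_apply, o1, o2, o3]
    unfold aa gg
    ring
  · rw [ea]
    have := abs_le.1 E.2
    have := abs_le.1 w00
    rw [abs_le]
    constructor <;> linarith
  · rw [eg, ← hgg]
    have := abs_le.1 E.1
    have := abs_le.1 hgb
    rw [abs_le]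
    constructor <;> linarith
  · rw [← hgg, ← haa] at M
    have r1 : μ ^ 2 ≤ (8 * e * τ) ^ 2 := pow_le_pow_left₀ hμ0 hμ1 2
    have r2 : μ ^ 3 ≤ 256 * e ^ 2 * τ ^ 2 * mm b t := by
      have : μ ≤ 4 * mm b t := by
        rw [hμ]
        exact mul_le_mul_of_nonneg_right (by linarith only [he]) hm0
      calc μ ^ 3 = μ ^ 2 * μ := by ring
        _ ≤ (8 * e * τ) ^ 2 * (4 * mm b t) := mul_le_mul r1 this hμ0 (by positivity)
        _ = _ := by ring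
    have r3 : o * μ ^ 2 ≤ e ^ 2 * τ ^ 2 * b t := by
      have : o ≤ 1 / 100 * b t := by rw [ho]; exact mul_le_mul_of_nonneg_right heτ hb0
      calc o * μ ^ 2 ≤ (1 / 100 * b t) * (8 * e * τ) ^ 2 :=
            mul_le_mul this r1 (by positivity) (by positivity)
        _ = 64 / 100 * (e ^ 2 * τ ^ 2 * b t) := by ring
        _ ≤ _ := by linarith only [show 0 ≤ e ^ 2 * τ ^ 2 * b t by positivity]
    have r4 : o ^ 2 ≤ e ^ 2 * τ ^ 2 * b t := by
      calc o ^ 2 = o * o := by ring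
        _ ≤ (e * τ) * o := mul_le_mul_of_nonneg_right ho1 ho0
        _ = _ := by rw [ho]; ring
    linarith

lemma Q_pos {e τ R : ℝ} {b : ℝ → ℝ} {K Om Y H : ℝ → M3} (hJ : JacSys K Om Y H)
    (hS : SmallPert e τ R b K Om) (he0 : 0 ≤ e) (he : e ≤ 1) (hτ0 : 0 < τ) (hτ : τ ≤ 1 / 100)
    (hR : 2 ≤ R) {T : ℝ} (hT : 0 ≤ T) : 0 < QQ Y T := by
  have := gron (f := fun t => Real.exp (7 / 2 * t) - QQ Y t) (c := fun _ => 7 / 2)
    continuous_const (by simp [QQ, hJ.Y0]) hT (fun t ht => by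
      obtain ⟨a', g', Q', l, -, -, h3, -, -, -, -, -, h9, -⟩ := point hJ hS he0 he hτ0 hτ hR ht.1
      refine ⟨_, ((hasDerivAt_id t).const_mul (7 / 2)).exp.sub h3, ?_⟩
      simp only [id]
      linarith)
  linarith [Real.exp_pos (7 / 2 * T)]

/-- the corrected functional -/
noncomputable def GG (e τ : ℝ) (b : ℝ → ℝ) (Y H : ℝ → M3) (s : ℝ) : ℝ :=
  Real.log (QQ Y s) - Real.log (Y s).det + 1 / 4 * (aa Y H s - 2 * gg Y H s) +
    1 / 16 * gg Y H s ^ 2 - 1 / 32 * aa Y H s ^ 2 - 512 * e ^ 2 * τ ^ 2 * mm b s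

lemma GG_deriv {e τ R : ℝ} {b : ℝ → ℝ} {K Om Y H : ℝ → M3} (hJ : JacSys K Om Y H)
    (hS : SmallPert e τ R b K Om) (he0 : 0 ≤ e) (he : e ≤ 1) (hτ0 : 0 < τ) (hτ : τ ≤ 1 / 100)
    (hR : 2 ≤ R) {t : ℝ} (ht : 0 ≤ t) :
    ∃ d, HasDerivAt (GG e τ b Y H) d t ∧
      1 / 4 * ((K t 0 0 - 4) - 2 * (K t 1 1 + K t 2 2 - 2)) +
          1 / 8 * (K t 1 1 + K t 2 2 - 2) * gg Y H t - 1 / 16 * (K t 0 0 - 4) * aa Y H t -
          527 * e ^ 2 * τ ^ 2 * b t ≤ d := by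
  obtain ⟨a', g', Q', l, h1, h2, h3, h4, -, -, -, -, -, h10, h11⟩ :=
    point hJ hS he0 he hτ0 hτ hR ht
  have hQ := Q_pos hJ hS he0 he hτ0 hτ hR ht
  have hd := (cone_of_small hJ hS he0 he hτ0 hτ hR).det_pos t ht
  have h := (((((h3.log hQ.ne').fun_sub (h4.log hd.ne')).fun_add
    ((h1.fun_sub (h2.const_mul 2)).const_mul (1 / 4))).fun_add
    ((h2.fun_pow 2).const_mul (1 / 16))).fun_sub ((h1.fun_pow 2).const_mul (1 / 32))).fun_sub
    ((mm_deriv hS.bc t).const_mul (512 * e ^ 2 * τ ^ 2))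
  refine ⟨_, h, ?_⟩
  have e1 : l ≤ Q' / QQ Y t := by rwa [le_div_iff₀ hQ]
  rw [mul_div_assoc, div_self hd.ne']
  push_cast
  linarith

lemma K_bounds {e τ R : ℝ} {b : ℝ → ℝ} {K Om : ℝ → M3} (hS : SmallPert e τ R b K Om) (t : ℝ) :
    |K t 0 0 - 4| ≤ e * b t ∧ |K t 1 1 + K t 2 2 - 2| ≤ 2 * (e * b t) := by
  have h0 := hS.Kb t 0 0
  have h1 := hS.Kb t 1 1
  have h2 := hS.Kb t 2 2
  simp only [Matrix.sub_apply, K0, Matrix.diagonal_apply_eq, Matrix.cons_val_zero,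
    Matrix.cons_val_one, Matrix.cons_val] at h0 h1 h2
  refine ⟨h0, ?_⟩
  have := abs_add_le (K t 1 1 - 1) (K t 2 2 - 1)
  rw [show K t 1 1 - 1 + (K t 2 2 - 1) = K t 1 1 + K t 2 2 - 2 by ring] at this
  linarith

end OdeC

open OdeC in
theorem core_ineq (η : ℝ) (hη : 0 < η) : ∃ τ₀ R₀ C : ℝ, 0 < τ₀ ∧
    ∀ (e τ R : ℝ) (b : ℝ → ℝ) (K Om Y H : ℝ → M3), 0 ≤ e → e ≤ 1 → 0 < τ → τ ≤ τ₀ → R₀ ≤ R →
      JacSys K Om Y H → SmallPert e τ R b K Om → ∀ T : ℝ, 0 ≤ T →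
        (∫ t in (0 : ℝ)..T, Psi η e τ b K t) - C ≤
          2 * Real.log (fro (Y T)) - Real.log (Y T).det := by
  refine ⟨min (1 / 100) (η / 1100), max 2 (1 - Real.log (η / 10)), 2, by positivity, ?_⟩
  intro e τ R b K Om Y H he0 he hτ0 hτ' hR' hJ hS T hT
  have hτ : τ ≤ 1 / 100 := hτ'.trans (min_le_left _ _)
  have hτη : τ ≤ η / 1100 := hτ'.trans (min_le_right _ _)
  have hR : 2 ≤ R := (le_max_left _ _).trans hR'
  have hE : Real.exp (τ - R) ≤ η / 10 := by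
    rw [← Real.le_log_iff_exp_le (by positivity)]
    linarith [(le_max_right _ _).trans hR']
  have hKc : ∀ i j, Continuous fun t => K t i j := fun i j =>
    (continuous_apply j).comp ((continuous_apply i).comp hJ.Kc)
  have c1 : Continuous fun t => K t 0 0 - 4 := (hKc 0 0).sub continuous_const
  have cw : Continuous fun t => K t 1 1 + K t 2 2 - 2 :=
    ((hKc 1 1).add (hKc 2 2)).sub continuous_const
  have hPsi : Continuous (Psi η e τ b K) := by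
    have s1 := slide_cont c1 τ
    have sw := slide_cont cw τ
    have hb := hS.bc
    exact ((((continuous_const.mul cw).mul sw).sub ((continuous_const.mul c1).mul s1)).add
      (continuous_const.mul (c1.sub (continuous_const.mul cw)))).sub (continuous_const.mul hb)
  have heτ : e * τ ≤ 1 / 100 := by nlinarith
  have heτ0 : 0 ≤ e * τ := by positivity
  have hab : ∀ t, 0 ≤ t → |aa Y H t| ≤ 4 * e * mm b t ∧ |gg Y H t| ≤ 2 * (4 * e * mm b t) := by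
    intro t ht
    obtain ⟨a', g', Q', l, -, -, -, -, h5, h6, -⟩ := point hJ hS he0 he hτ0 hτ hR ht
    exact ⟨h5, h6⟩
  have hab2 : ∀ t, 0 ≤ t → |aa Y H t| ≤ 2 / 25 ∧ |gg Y H t| ≤ 4 / 25 := by
    intro t ht
    have := hab t ht
    have := mu_le hS he0 hτ0 hR ht
    constructor <;> linarith
  have hdiff : ∀ t, 0 ≤ t → ∃ d, HasDerivAt
      (fun s => GG e τ b Y H s - ∫ x in (0 : ℝ)..s, Psi η e τ b K x) d t ∧
      1 / 8 * ((K t 1 1 + K t 2 2 - 2) *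
          (gg Y H t - ∫ s in (t - τ)..t, (K s 1 1 + K s 2 2 - 2))) -
        1 / 16 * ((K t 0 0 - 4) * (aa Y H t - ∫ s in (t - τ)..t, (K s 0 0 - 4))) +
        (η - 527 * τ) * (e ^ 2 * τ * b t) ≤ d := by
    intro t ht
    obtain ⟨d, h1, h2⟩ := GG_deriv hJ hS he0 he hτ0 hτ hR ht
    refine ⟨_, h1.fun_sub (prim hPsi 0 t), ?_⟩
    unfold Psi
    linarith
  have heb : ∀ t, e * b t ≤ 1 := fun t => by nlinarith [hS.b0 t, hS.b1 t]
  have hearly : ∀ t, 0 ≤ t → ∃ d, HasDerivAt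
      (fun s => GG e τ b Y H s - ∫ x in (0 : ℝ)..s, Psi η e τ b K x) d t ∧ -1 ≤ d := by
    intro t ht
    obtain ⟨d, h1, h2⟩ := hdiff t ht
    refine ⟨d, h1, le_trans ?_ h2⟩
    have k1 : ∀ s, |K s 0 0 - 4| ≤ 1 := fun s => (K_bounds hS s).1.trans (heb s)
    have kw : ∀ s, |K s 1 1 + K s 2 2 - 2| ≤ 2 := fun s => by
      linarith [(K_bounds hS s).2, heb s]
    have i1 := slide_le hτ0.le k1 t
    have iw := slide_le hτ0.le kw t
    have j1 : |aa Y H t - ∫ s in (t - τ)..t, (K s 0 0 - 4)| ≤ 1 := by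
      linarith [abs_sub (aa Y H t) (∫ s in (t - τ)..t, (K s 0 0 - 4)), (hab2 t ht).1]
    have jw : |gg Y H t - ∫ s in (t - τ)..t, (K s 1 1 + K s 2 2 - 2)| ≤ 1 := by
      linarith [abs_sub (gg Y H t) (∫ s in (t - τ)..t, (K s 1 1 + K s 2 2 - 2)), (hab2 t ht).2]
    have m1 := abs_le.1 (abs_mul_le' (k1 t) j1)
    have mw := abs_le.1 (abs_mul_le' (kw t) jw)
    have : 0 ≤ (η - 527 * τ) * (e ^ 2 * τ * b t) := by
      have := hS.b0 t
      apply mul_nonneg (by linarith) (by positivity)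
    linarith
  have hlate : ∀ t, τ ≤ t → ∃ d, HasDerivAt
      (fun s => GG e τ b Y H s - ∫ x in (0 : ℝ)..s, Psi η e τ b K x) d t ∧ 0 ≤ d := by
    intro t ht
    obtain ⟨d, h1, h2⟩ := hdiff t (by linarith)
    refine ⟨d, h1, le_trans ?_ h2⟩
    obtain ⟨k1, kw⟩ := K_bounds hS t
    by_cases hb : b t = 0
    · rw [hb, mul_zero] at k1 kw
      have z1 : K t 0 0 - 4 = 0 := abs_nonpos_iff.1 k1
      have zw : K t 1 1 + K t 2 2 - 2 = 0 := abs_nonpos_iff.1 (by linarith)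
      rw [z1, zw, hb]
      simp
    have hm := mm_before hS hτ0 (by linarith) hR ht hb
    have hb0 := hS.b0 t
    obtain ⟨p1, pw⟩ := hab (t - τ) (by linarith)
    have j1 := cmp (g := aa Y H) c1 (s := t - τ) (t := t) (L := 40 * e * τ) (by linarith)
      (fun x hx => by
        obtain ⟨a', g', Q', l, h1, -, -, -, -, -, h7, -⟩ :=
          point hJ hS he0 he hτ0 hτ hR (t := x) (by linarith [hx.1])
        exact ⟨a', h1, h7⟩)
    have jw := cmp (g := gg Y H) cw (s := t - τ) (t := t) (L := 40 * e * τ) (by linarith)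
      (fun x hx => by
        obtain ⟨a', g', Q', l, -, h2, -, -, -, -, -, h8, -⟩ :=
          point hJ hS he0 he hτ0 hτ hR (t := x) (by linarith [hx.1])
        exact ⟨g', h2, h8⟩)
    rw [sub_sub_cancel] at j1 jw
    have hm2 : 4 * e * mm b (t - τ) ≤ 8 * (e * τ) * (η / 10) := by
      calc 4 * e * mm b (t - τ) ≤ 4 * e * (2 * τ * (η / 10)) := by
            apply mul_le_mul_of_nonneg_left _ (by positivity)
            exact hm.trans (mul_le_mul_of_nonneg_left hE (by positivity))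
        _ = _ := by ring
    have hm3 : 40 * e * τ * τ ≤ 40 * (e * τ) * (η / 1100) := by
      calc 40 * e * τ * τ = 40 * (e * τ) * τ := by ring
        _ ≤ _ := mul_le_mul_of_nonneg_left hτη (by positivity)
    have hx : 0 ≤ e * τ * η := by positivity
    have l1 : |aa Y H t - ∫ s in (t - τ)..t, (K s 0 0 - 4)| ≤ e * τ * η := by linarith
    have lw : |gg Y H t - ∫ s in (t - τ)..t, (K s 1 1 + K s 2 2 - 2)| ≤ 17 / 10 * (e * τ * η) := by
      linarith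
    have m1 := abs_le.1 (abs_mul_le' k1 l1)
    have mw := abs_le.1 (abs_mul_le' kw lw)
    have hy : 0 ≤ e ^ 2 * τ * b t := by positivity
    have hz : η / 2 * (e ^ 2 * τ * b t) ≤ (η - 527 * τ) * (e ^ 2 * τ * b t) :=
      mul_le_mul_of_nonneg_right (by linarith) hy
    have hw : 0 ≤ η * (e ^ 2 * τ * b t) := by positivity
    linarith only [hw, hz, m1.2, mw.1]
  have hG0 : GG e τ b Y H 0 = 0 := by
    simp [GG, QQ, aa, gg, UU, mm_zero, hJ.Y0, hJ.H0, U0]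
    norm_num
  have hJT : -1 ≤ GG e τ b Y H T - ∫ x in (0 : ℝ)..T, Psi η e τ b K x := by
    rcases le_total T τ with h | h
    · have := mono hT (fun t ht => hearly t ht.1)
      simp only [hG0, intervalIntegral.integral_same] at this
      linarith
    · have h1 := mono hτ0.le (fun t ht => hearly t ht.1)
      have h2 := mono h (fun t ht => hlate t ht.1)
      simp only [hG0, intervalIntegral.integral_same] at h1
      linarith
  have hQ := Q_pos hJ hS he0 he hτ0 hτ hR hT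
  have hfro : Real.log (QQ Y T) ≤ 2 * Real.log (fro (Y T)) := by
    have h1 : QQ Y T ≤ ∑ i, ∑ j, Y T i j ^ 2 := by
      simp only [QQ, Fin.sum_univ_three]
      nlinarith [sq_nonneg (Y T 0 1), sq_nonneg (Y T 0 2), sq_nonneg (Y T 1 0), sq_nonneg (Y T 1 1),
        sq_nonneg (Y T 1 2), sq_nonneg (Y T 2 0), sq_nonneg (Y T 2 1), sq_nonneg (Y T 2 2)]
    unfold fro
    rw [Real.log_sqrt (by linarith)]
    linarith [Real.log_le_log hQ h1]
  obtain ⟨b1, b2⟩ := hab2 T hT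
  have b3 : gg Y H T ^ 2 ≤ (4 / 25) ^ 2 := sq_le_sq' (abs_le.1 b2).1 (abs_le.1 b2).2
  have b4 : 0 ≤ 512 * e ^ 2 * τ ^ 2 * mm b T := by have := mm_nonneg hS.b0 hT; positivity
  unfold GG at hJT
  rw [abs_le] at b1 b2
  linarith only [sq_nonneg (aa Y H T), b1.2, b2.1, b3, b4, hJT, hfro]

end Pool.Agent.MP_019006_gt

end
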