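import Pool.Agent.MP_019006_gt.JobDefs

section

set_option autoImplicit false

open MeasureTheory Filter Topology Set Matrix

namespace Pool.Agent.MP_019006_gt

lemma fm_det_rows {n : Type} [Fintype n] [DecidableEq n] (Y : Matrix n n ℝ) :
    Y.det = ∑ σ : Equiv.Perm n, ((Equiv.Perm.sign σ : ℤ) : ℝ) * ∏ i, Y i (σ i) := by
  rw [← det_transpose, det_apply']
  rfl

lemma fm_det_updateRow {n : Type} [Fintype n] [DecidableEq n] (Y : Matrix n n ℝ) (i : n)
    (v : n → ℝ) : (Y.updateRow i v).det = ∑ σ : Equiv.Perm n, ((Equiv.Perm.sign σ : ℤ) : ℝ) *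
      ((∏ j ∈ Finset.univ.erase i, Y j (σ j)) * v (σ i)) := by
  rw [fm_det_rows]
  refine Finset.sum_congr rfl fun σ _ => ?_
  rw [← Finset.prod_erase_mul _ _ (Finset.mem_univ i), updateRow_self]
  congr 2
  exact Finset.prod_congr rfl fun j hj => by rw [updateRow_ne (Finset.ne_of_mem_erase hj)]

theorem hasDerivAt_matrix_det {n : Type} [Fintype n] [DecidableEq n] (Y : ℝ → Matrix n n ℝ)
    (A : Matrix n n ℝ) (t : ℝ)
    (h : ∀ i j, HasDerivAt (fun s => Y s i j) ((A * Y t) i j) t) :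
    HasDerivAt (fun s => (Y s).det) (A.trace * (Y t).det) t := by
  have h1 : HasDerivAt (fun s => ∑ σ : Equiv.Perm n, ((Equiv.Perm.sign σ : ℤ) : ℝ) *
      ∏ i, Y s i (σ i)) (∑ σ : Equiv.Perm n, ((Equiv.Perm.sign σ : ℤ) : ℝ) *
        ∑ i, (∏ j ∈ Finset.univ.erase i, Y t j (σ j)) • (A * Y t) i (σ i)) t :=
    HasDerivAt.fun_sum fun σ _ =>
      (HasDerivAt.fun_finsetProd (f := fun i s => Y s i (σ i)) fun i _ => h i (σ i)).const_mul _
  have h2 : (fun s => (Y s).det) = fun s => ∑ σ : Equiv.Perm n,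
      ((Equiv.Perm.sign σ : ℤ) : ℝ) * ∏ i, Y s i (σ i) := funext fun s => fm_det_rows _
  have h3 : ∀ i, ((Y t).updateRow i ((A * Y t) i)).det = A i i * (Y t).det := by
    intro i
    have : (A * Y t) i = ∑ k, A i k • Y t k := by
      ext j
      simp [Matrix.mul_apply]
    rw [this, det_updateRow_sum, smul_eq_mul]
  have h4 : A.trace * (Y t).det = ∑ σ : Equiv.Perm n, ((Equiv.Perm.sign σ : ℤ) : ℝ) *
      ∑ i, (∏ j ∈ Finset.univ.erase i, Y t j (σ j)) • (A * Y t) i (σ i) := by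
    simp only [Finset.mul_sum, smul_eq_mul]
    rw [Finset.sum_comm, Matrix.trace, Finset.sum_mul]
    refine Finset.sum_congr rfl fun i _ => ?_
    rw [← fm_det_updateRow, h3, diag_apply]
  rw [h2, h4]
  exact h1

theorem hasDerivAt_det_comp {F : Type} [NormedAddCommGroup F] [NormedSpace ℝ F]
    [FiniteDimensional ℝ F]
    (M : ℝ → F →L[ℝ] F) (A : F →L[ℝ] F) (t : ℝ) (h : HasDerivAt M (A.comp (M t)) t) :
    HasDerivAt (fun s => (M s).det) (LinearMap.trace ℝ F (A : F →ₗ[ℝ] F) * (M t).det) t := by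
  classical
  let b := Module.finBasis ℝ F
  have h1 := hasDerivAt_matrix_det (fun s => LinearMap.toMatrix b b (M s : F →ₗ[ℝ] F))
    (LinearMap.toMatrix b b (A : F →ₗ[ℝ] F)) t (fun i j => by
      rw [← LinearMap.toMatrix_comp]
      simp only [LinearMap.toMatrix_apply]
      have h2 := (LinearMap.toContinuousLinearMap (b.coord i)).hasFDerivAt.comp_hasDerivAt t
        ((ContinuousLinearMap.apply ℝ F (b j)).hasFDerivAt.comp_hasDerivAt t h)
      exact h2)
  simp only [LinearMap.det_toMatrix] at h1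
  rw [LinearMap.trace_eq_matrix_trace ℝ b]
  exact h1

theorem IsFlow.M_add {F : Type} [NormedAddCommGroup F] [NormedSpace ℝ F]
    {O : Set F} {X : F → F} {φ : ℝ → F → F} {M : ℝ → F → F →L[ℝ] F}
    (h : IsFlow O X φ M) : (∀ p ∈ O, M 0 p = ContinuousLinearMap.id ℝ F) ∧
      ∀ t s, ∀ p ∈ O, M (t + s) p = (M t (φ s p)).comp (M s p) := by
  refine ⟨fun p hp => ?_, fun t s p hp => ?_⟩
  · have h1 := h.fderiv 0 p hp
    have h2 : φ 0 = id := funext h.zero
    rw [h2] at h1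
    exact h1.unique (hasFDerivAt_id p)
  · have h1 := h.fderiv (t + s) p hp
    have h2 : φ (t + s) = φ t ∘ φ s := funext (h.add t s)
    rw [h2] at h1
    exact h1.unique ((h.fderiv t _ (h.mem s p hp)).comp p (h.fderiv s p hp))

theorem IsFlow.det {F : Type} [NormedAddCommGroup F] [NormedSpace ℝ F] [FiniteDimensional ℝ F]
    {O : Set F} (hO : IsOpen O) {X : F → F} (hX : ContDiffOn ℝ 1 X O)
    {φ : ℝ → F → F} {M : ℝ → F → F →L[ℝ] F}
    (h : IsFlow O X φ M) (ρ : F → ℝ) (hρ : DifferentiableOn ℝ ρ O)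
    (hdiv : ∀ p ∈ O, _root_.fderiv ℝ ρ p (X p) +
      ρ p * LinearMap.trace ℝ F (_root_.fderiv ℝ X p : F →L[ℝ] F) = 0) :
    ∀ t, ∀ p ∈ O, ρ (φ t p) * (M t p).det = ρ p := by
  intro t p hp
  have _ := hX
  have key : ∀ s, HasDerivAt (fun s => ρ (φ s p) * (M s p).det) 0 s := by
    intro s
    have hq := h.mem s p hp
    have h1 := ((hρ _ hq).differentiableAt (hO.mem_nhds hq)).hasFDerivAt.comp_hasDerivAt s
      (h.deriv s p hp)
    have h2 := hasDerivAt_det_comp (fun s => M s p) _ s (h.Mderiv s p hp)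
    have h3 := h1.mul h2
    have h4 := hdiv _ hq
    refine h3.congr_deriv ?_
    simp only [Function.comp_apply]
    linear_combination (M s p).det * h4
  have h5 := is_const_of_deriv_eq_zero (fun s => (key s).differentiableAt)
    (fun s => (key s).deriv) t 0
  simp only [h.zero, h.M_add.1 p hp] at h5
  rw [h5]
  simp [ContinuousLinearMap.det]

theorem IsFlow.measurable {F : Type} [NormedAddCommGroup F] [NormedSpace ℝ F]
    [FiniteDimensional ℝ F] [MeasurableSpace F] [BorelSpace F]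
    {O : Set F} (hO : IsOpen O) {X : F → F} {φ : ℝ → F → F} {M : ℝ → F → F →L[ℝ] F}
    (h : IsFlow O X φ M) : Measurable (fun q : ℝ × F => φ q.1 q.2) := by
  classical
  have h1 := h.cont.measurable_piecewise (g := Prod.snd) continuousOn_snd
    (isOpen_univ.prod hO).measurableSet
  have h2 : (fun q : ℝ × F => φ q.1 q.2) =
      (univ ×ˢ O).piecewise (fun q : ℝ × F => φ q.1 q.2) Prod.snd := by
    ext q
    by_cases hq : q ∈ (univ ×ˢ O : Set (ℝ × F))
    · rw [piecewise_eq_of_mem _ _ _ hq]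
    · rw [piecewise_eq_of_notMem _ _ _ hq]
      exact h.junk _ _ fun h' => hq ⟨mem_univ _, h'⟩
  rw [h2]
  exact h1

theorem measurePreserving_of_det {F : Type} [NormedAddCommGroup F] [NormedSpace ℝ F]
    [FiniteDimensional ℝ F] [MeasurableSpace F] [BorelSpace F] (μ : Measure F)
    [μ.IsAddHaarMeasure]
    {S : Set F} (hS : MeasurableSet S) (T : F → F) (hT : Measurable T) (T' : F → F →L[ℝ] F)
    (hbij : BijOn T S S) (hd : ∀ p ∈ S, HasFDerivAt T (T' p) p)
    (ρ : F → ℝ) (hρ0 : ∀ p ∈ S, 0 ≤ ρ p)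
    (hdet : ∀ p ∈ S, ρ (T p) * |(T' p).det| = ρ p) :
    MeasurePreserving T ((μ.restrict S).withDensity fun p => ENNReal.ofReal (ρ p))
      ((μ.restrict S).withDensity fun p => ENNReal.ofReal (ρ p)) := by
  have _ := hρ0
  refine ⟨hT, Measure.ext fun A hA => ?_⟩
  have hB : MeasurableSet (T ⁻¹' A ∩ S) := (hT hA).inter hS
  have h1 : T '' (T ⁻¹' A ∩ S) = A ∩ S := by
    rw [image_preimage_inter, hbij.image_eq]
  rw [Measure.map_apply hT hA, withDensity_apply _ (hT hA), withDensity_apply _ hA,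
    Measure.restrict_restrict (hT hA), Measure.restrict_restrict hA, ← h1,
    lintegral_image_eq_lintegral_abs_det_fderiv_mul μ hB
      (fun x hx => (hd x hx.2).hasFDerivWithinAt) (hbij.injOn.mono inter_subset_right)]
  refine setLIntegral_congr_fun hB fun x hx => ?_
  rw [← ENNReal.ofReal_mul (abs_nonneg _), mul_comm, hdet x hx.2]

end Pool.Agent.MP_019006_gt

end

section

set_option autoImplicit false

open MeasureTheory Filter Topology Set Matrix

namespace Pool.Agent.MP_019006_gt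

namespace OdeMul

/-- Entrywise derivative of a matrix valued function. -/
def HD (F : ℝ → M3) (F' : M3) (t : ℝ) : Prop := ∀ i j, HasDerivAt (fun s => F s i j) (F' i j) t

theorem HD.mul {F G : ℝ → M3} {F' G' : M3} {t : ℝ} (hF : HD F F' t) (hG : HD G G' t) :
    HD (fun s => F s * G s) (F' * G t + F t * G') t := by
  intro i j
  simp only [Matrix.mul_apply, Matrix.add_apply, ← Finset.sum_add_distrib]
  exact HasDerivAt.fun_sum fun k _ => (hF i k).mul (hG k j)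

theorem HD.const (A : M3) (t : ℝ) : HD (fun _ => A) 0 t := fun i j => hasDerivAt_const t (A i j)

theorem HD.mul_const {F : ℝ → M3} {F' : M3} {t : ℝ} (hF : HD F F' t) (A : M3) :
    HD (fun s => F s * A) (F' * A) t := by
  simpa using hF.mul (HD.const A t)

theorem HD.transpose {F : ℝ → M3} {F' : M3} {t : ℝ} (hF : HD F F' t) :
    HD (fun s => (F s)ᵀ) F'ᵀ t := fun i j => hF j i

theorem HD.sub {F G : ℝ → M3} {F' G' : M3} {t : ℝ} (hF : HD F F' t) (hG : HD G G' t) :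
    HD (fun s => F s - G s) (F' - G') t := fun i j => (hF i j).sub (hG i j)

theorem HD.unique {F : ℝ → M3} {A B : M3} {t : ℝ} (h1 : HD F A t) (h2 : HD F B t) : A = B := by
  ext i j
  exact (h1 i j).unique (h2 i j)

theorem HD.shift {F : ℝ → M3} {F' : M3} {s t : ℝ} (hF : HD F F' (s + t)) :
    HD (fun r => F (s + r)) F' t := fun i j => (hF i j).comp_const_add s t

theorem HD.det_diff {F : ℝ → M3} {F' : M3} {t : ℝ} (hF : HD F F' t) :
    DifferentiableAt ℝ (fun s => (F s).det) t := by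
  have h : ∀ i j, DifferentiableAt ℝ (fun s => F s i j) t := fun i j => (hF i j).differentiableAt
  simp only [Matrix.det_fin_three]
  have h00 := h 0 0
  have h01 := h 0 1
  have h02 := h 0 2
  have h10 := h 1 0
  have h11 := h 1 1
  have h12 := h 1 2
  have h20 := h 2 0
  have h21 := h 2 1
  have h22 := h 2 2
  fun_prop

theorem HD.adj_diff {F : ℝ → M3} {F' : M3} {t : ℝ} (hF : HD F F' t) (i j : Fin 3) :
    DifferentiableAt ℝ (fun s => (F s).adjugate i j) t := by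
  have h : ∀ i j, DifferentiableAt ℝ (fun s => F s i j) t := fun i j => (hF i j).differentiableAt
  have h00 := h 0 0
  have h01 := h 0 1
  have h02 := h 0 2
  have h10 := h 1 0
  have h11 := h 1 1
  have h12 := h 1 2
  have h20 := h 2 0
  have h21 := h 2 1
  have h22 := h 2 2
  simp only [Matrix.adjugate_fin_three]
  fin_cases i <;> fin_cases j <;> simp <;> fun_prop

theorem HD.inv {F : ℝ → M3} {F' : M3} {t : ℝ} (hF : HD F F' t) (hd : (F t).det ≠ 0) :
    HD (fun s => (F s)⁻¹) (-((F t)⁻¹ * F' * (F t)⁻¹)) t := by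
  have hdiff : ∀ i j, DifferentiableAt ℝ (fun s => (F s)⁻¹ i j) t := by
    intro i j
    simp only [Matrix.inv_def, Ring.inverse_eq_inv', Matrix.smul_apply, smul_eq_mul]
    exact (hF.det_diff.inv hd).mul (hF.adj_diff i j)
  set D : M3 := Matrix.of fun i j => deriv (fun s => (F s)⁻¹ i j) t with hD
  have h1 : HD (fun s => (F s)⁻¹) D t := fun i j => (hdiff i j).hasDerivAt
  have h2 := h1.mul hF
  have hev : ∀ᶠ s in 𝓝 t, (F s).det ≠ 0 := hF.det_diff.continuousAt.eventually_ne hd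
  have h3 : HD (fun s => (F s)⁻¹ * F s) 0 t := by
    intro i j
    refine (hasDerivAt_const t ((1 : M3) i j)).congr_of_eventuallyEq ?_
    filter_upwards [hev] with s hs
    rw [Matrix.nonsing_inv_mul _ (Ne.isUnit hs)]
  have h4 := h2.unique h3
  have h5 : D = -((F t)⁻¹ * F' * (F t)⁻¹) := by
    have hu : F t * (F t)⁻¹ = 1 := Matrix.mul_nonsing_inv _ (Ne.isUnit hd)
    have : D * F t = -((F t)⁻¹ * F') := eq_neg_of_add_eq_zero_left h4
    calc D = D * (F t * (F t)⁻¹) := by rw [hu, Matrix.mul_one]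
      _ = D * F t * (F t)⁻¹ := by rw [Matrix.mul_assoc]
      _ = _ := by rw [this, Matrix.neg_mul]
  rwa [← h5]

theorem nsq_nonneg (u : Fin 3 → ℝ) : 0 ≤ nsq u := by
  unfold nsq
  positivity

theorem nsq_eq_dot (u : Fin 3 → ℝ) : nsq u = u ⬝ᵥ u := by
  simp [nsq, dotProduct, Fin.sum_univ_three, sq]

theorem cs (u v : Fin 3 → ℝ) : (u ⬝ᵥ v) ^ 2 ≤ nsq u * nsq v := by
  simp only [nsq, dotProduct, Fin.sum_univ_three]
  nlinarith [sq_nonneg (u 0 * v 1 - u 1 * v 0), sq_nonneg (u 0 * v 2 - u 2 * v 0),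
    sq_nonneg (u 1 * v 2 - u 2 * v 1)]

theorem nsq_single (j : Fin 3) : nsq (Pi.single j 1) = 1 := by
  fin_cases j <;> simp [nsq]

theorem transpose_bound (A : M3) (c : ℝ) (hc : 0 ≤ c) (h : ∀ u, nsq (A *ᵥ u) ≤ c * nsq u)
    (v : Fin 3 → ℝ) : nsq (Aᵀ *ᵥ v) ≤ c * nsq v := by
  set w := Aᵀ *ᵥ v with hw
  have h1 : nsq w = v ⬝ᵥ (A *ᵥ w) := by
    rw [nsq_eq_dot, Matrix.dotProduct_mulVec v A w, ← Matrix.mulVec_transpose]
  have h2 := cs v (A *ᵥ w)
  have h3 := h w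
  have h4 := nsq_nonneg w
  have h5 := nsq_nonneg v
  rw [← h1] at h2
  rcases h4.eq_or_lt with h0 | h0
  · rw [← h0]
    positivity
  · have : nsq w * nsq w ≤ c * nsq v * nsq w := by nlinarith [mul_le_mul_of_nonneg_left h3 h5]
    exact le_of_mul_le_mul_right this h0

theorem fro_nonneg (A : M3) : 0 ≤ fro A := Real.sqrt_nonneg _

theorem fro_sq (A : M3) : fro A ^ 2 = ∑ i, ∑ j, A i j ^ 2 :=
  Real.sq_sqrt (Finset.sum_nonneg fun _ _ => Finset.sum_nonneg fun _ _ => sq_nonneg _)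

theorem fro_sq_cols (A : M3) : fro A ^ 2 = ∑ j, nsq (A *ᵥ Pi.single j 1) := by
  rw [fro_sq, Finset.sum_comm]
  refine Finset.sum_congr rfl fun j _ => ?_
  simp [nsq, Fin.sum_univ_three]

theorem fro_mul_le (A B : M3) : fro (A * B) ≤ fro A * fro B := by
  refine (sq_le_sq₀ (fro_nonneg _) (mul_nonneg (fro_nonneg A) (fro_nonneg B))).1 ?_
  rw [mul_pow, fro_sq, fro_sq, fro_sq, Finset.sum_mul]
  refine Finset.sum_le_sum fun i _ => ?_
  rw [Finset.sum_comm (f := fun i j => B i j ^ 2), Finset.mul_sum]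
  refine Finset.sum_le_sum fun j _ => ?_
  rw [Matrix.mul_apply]
  exact Finset.sum_mul_sq_le_sq_mul_sq _ _ _

theorem fro_pos {A : M3} (h : A.det ≠ 0) : 0 < fro A := by
  rcases (fro_nonneg A).eq_or_lt with h0 | h0
  · exfalso
    have h1 : ∑ i, ∑ j, A i j ^ 2 = 0 := by rw [← fro_sq, ← h0]; norm_num
    have h2 : A = 0 := by
      ext i j
      have h3 := (Finset.sum_eq_zero_iff_of_nonneg
        (fun i _ => Finset.sum_nonneg fun j _ => sq_nonneg (A i j))).1 h1 i (Finset.mem_univ _)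
      have h4 := (Finset.sum_eq_zero_iff_of_nonneg
        (fun j _ => sq_nonneg (A i j))).1 h3 j (Finset.mem_univ _)
      simpa using h4
    apply h
    rw [h2]
    simp
  · exact h0

theorem fro_sq_trace (A : M3) : fro A ^ 2 = (Aᵀ * A).trace := by
  rw [fro_sq, Finset.sum_comm]
  simp [Matrix.trace, Matrix.mul_apply, sq]

theorem entry_sq_le (A : M3) (i j : Fin 3) : A i j ^ 2 ≤ nsq (A *ᵥ Pi.single j 1) := by
  have h0 := sq_nonneg (A 0 j)
  have h1 := sq_nonneg (A 1 j)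
  have h2 := sq_nonneg (A 2 j)
  fin_cases i <;> simp [nsq] <;> nlinarith

theorem det_bound (A : M3) (x : ℝ) (h : ∀ i j, |A i j| ≤ x) : |A.det| ≤ 6 * x ^ 3 := by
  have := Matrix.det_le (abv := AbsoluteValue.abs) (A := A) (x := x) h
  simpa [Nat.factorial] using this

end OdeMul

open OdeMul

theorem fro_rot (A R S : M3) (hR : Rᵀ * R = 1) (hS : Sᵀ * S = 1) : fro (R * A * S) = fro A := by
  have hS' : S * Sᵀ = 1 := mul_eq_one_comm.1 hS
  have : fro (R * A * S) ^ 2 = fro A ^ 2 := by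
    rw [fro_sq_trace, fro_sq_trace]
    have e1 : (R * A * S)ᵀ * (R * A * S) = Sᵀ * (Aᵀ * (Rᵀ * R) * A * S) := by
      simp only [Matrix.transpose_mul, Matrix.mul_assoc]
    rw [e1, hR, Matrix.trace_mul_comm, Matrix.mul_one, Matrix.mul_assoc, hS', Matrix.mul_one]
  exact (sq_eq_sq₀ (fro_nonneg _) (fro_nonneg _)).1 this

theorem growth_vec {K Om Y H : ℝ → M3} (hJ : JacSys K Om Y H) (hC : Cone K Om Y H)
    (s t : ℝ) (hs : 0 ≤ s) (hst : s ≤ t) (u : Fin 3 → ℝ) :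
    Real.exp (9 / 5 * (t - s)) * nsq (Y s *ᵥ u) ≤ nsq (Y t *ᵥ u) ∧
      nsq (Y t *ᵥ u) ≤ Real.exp (21 / 5 * (t - s)) * nsq (Y s *ᵥ u) := by
  have hy : ∀ r i, HasDerivAt (fun r => (Y r *ᵥ u) i) (((H r - Om r * Y r) *ᵥ u) i) r := by
    intro r i
    simp only [Matrix.mulVec, dotProduct]
    exact HasDerivAt.fun_sum fun k _ => (hJ.dY r i k).mul_const (u k)
  have hn : ∀ r, HasDerivAt (fun r => nsq (Y r *ᵥ u)) (2 * ((Y r *ᵥ u) ⬝ᵥ (H r *ᵥ u))) r := by
    intro r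
    have h := (((hy r 0).pow 2).add ((hy r 1).pow 2)).add ((hy r 2).pow 2)
    have hO : ∀ i j, Om r j i = -Om r i j := fun i j => by
      have := congrFun (congrFun (hJ.Oa r) i) j
      simpa using this
    have h00 : Om r 0 0 = 0 := by have := hO 0 0; linarith
    have h11 : Om r 1 1 = 0 := by have := hO 1 1; linarith
    have h22 : Om r 2 2 = 0 := by have := hO 2 2; linarith
    have h10 := hO 0 1
    have h20 := hO 0 2
    have h21 := hO 1 2
    refine h.congr_deriv ?_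
    rw [Matrix.sub_mulVec, ← Matrix.mulVec_mulVec]
    generalize Y r *ᵥ u = y
    generalize H r *ᵥ u = z
    simp only [Pi.sub_apply, Matrix.mulVec, dotProduct, Fin.sum_univ_three, h00, h11, h22, h10,
      h20, h21]
    push_cast
    ring
  have hb : ∀ r, 0 ≤ r → 9 / 5 * nsq (Y r *ᵥ u) ≤ 2 * ((Y r *ᵥ u) ⬝ᵥ (H r *ᵥ u)) ∧
      2 * ((Y r *ᵥ u) ⬝ᵥ (H r *ᵥ u)) ≤ 21 / 5 * nsq (Y r *ᵥ u) := by
    intro r hr
    have h := hC.cone r hr u
    rw [Matrix.sub_mulVec, ← Matrix.mulVec_mulVec] at h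
    revert h
    generalize Y r *ᵥ u = y
    generalize H r *ᵥ u = z
    intro h
    simp [nsq, U0, Matrix.mulVec_diagonal] at h
    simp only [nsq, dotProduct, Fin.sum_univ_three]
    constructor
    · nlinarith [sq_nonneg (y 0 / 10 + (z 0 - 2 * y 0)), sq_nonneg (y 1 / 10 + (z 1 - y 1)),
        sq_nonneg (y 2 / 10 + (z 2 - y 2)), sq_nonneg (y 0)]
    · nlinarith [sq_nonneg (y 0 / 10 - (z 0 - 2 * y 0)), sq_nonneg (y 1 / 10 - (z 1 - y 1)),
        sq_nonneg (y 2 / 10 - (z 2 - y 2)), sq_nonneg (y 1), sq_nonneg (y 2)]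
  have hg : ∀ (c r : ℝ), HasDerivAt (fun r => Real.exp (-c * r) * nsq (Y r *ᵥ u))
      (Real.exp (-c * r) * (2 * ((Y r *ᵥ u) ⬝ᵥ (H r *ᵥ u)) - c * nsq (Y r *ᵥ u))) r := by
    intro c r
    have h1 : HasDerivAt (fun r => Real.exp (-c * r)) (Real.exp (-c * r) * (-c)) r := by
      simpa using ((hasDerivAt_id r).const_mul (-c)).exp
    refine (h1.mul (hn r)).congr_deriv ?_
    ring
  have ht : 0 ≤ t := hs.trans hst
  constructor
  · have hm : MonotoneOn (fun r => Real.exp (-(9 / 5) * r) * nsq (Y r *ᵥ u)) (Ici 0) := by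
      refine monotoneOn_of_deriv_nonneg (convex_Ici 0)
        (fun r _ => (hg _ r).continuousAt.continuousWithinAt)
        (fun r _ => (hg _ r).differentiableAt.differentiableWithinAt) fun r hr => ?_
      rw [(hg _ r).deriv]
      have := (hb r (interior_subset hr)).1
      exact mul_nonneg (Real.exp_pos _).le (by linarith)
    have h := hm hs ht hst
    have e : Real.exp (9 / 5 * (t - s)) = Real.exp (9 / 5 * t) * Real.exp (-(9 / 5) * s) := by
      rw [← Real.exp_add]; ring_nf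
    have e2 : Real.exp (9 / 5 * t) * Real.exp (-(9 / 5) * t) = 1 := by
      rw [← Real.exp_add]; simp
    calc Real.exp (9 / 5 * (t - s)) * nsq (Y s *ᵥ u)
        = Real.exp (9 / 5 * t) * (Real.exp (-(9 / 5) * s) * nsq (Y s *ᵥ u)) := by rw [e]; ring
      _ ≤ Real.exp (9 / 5 * t) * (Real.exp (-(9 / 5) * t) * nsq (Y t *ᵥ u)) :=
        mul_le_mul_of_nonneg_left h (Real.exp_pos _).le
      _ = _ := by rw [← mul_assoc, e2, one_mul]
  · have hm : AntitoneOn (fun r => Real.exp (-(21 / 5) * r) * nsq (Y r *ᵥ u)) (Ici 0) := by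
      refine antitoneOn_of_deriv_nonpos (convex_Ici 0)
        (fun r _ => (hg _ r).continuousAt.continuousWithinAt)
        (fun r _ => (hg _ r).differentiableAt.differentiableWithinAt) fun r hr => ?_
      rw [(hg _ r).deriv]
      have := (hb r (interior_subset hr)).2
      exact mul_nonpos_of_nonneg_of_nonpos (Real.exp_pos _).le (by linarith)
    have h := hm hs ht hst
    have e : Real.exp (21 / 5 * (t - s)) = Real.exp (21 / 5 * t) * Real.exp (-(21 / 5) * s) := by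
      rw [← Real.exp_add]; ring_nf
    have e2 : Real.exp (21 / 5 * t) * Real.exp (-(21 / 5) * t) = 1 := by
      rw [← Real.exp_add]; simp
    calc nsq (Y t *ᵥ u)
        = Real.exp (21 / 5 * t) * (Real.exp (-(21 / 5) * t) * nsq (Y t *ᵥ u)) := by
          rw [← mul_assoc, e2, one_mul]
      _ ≤ Real.exp (21 / 5 * t) * (Real.exp (-(21 / 5) * s) * nsq (Y s *ᵥ u)) :=
        mul_le_mul_of_nonneg_left h (Real.exp_pos _).le
      _ = _ := by rw [e]; ring

end Pool.Agent.MP_019006_gt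

end

section

set_option autoImplicit false

open MeasureTheory Filter Topology Set Matrix

namespace Pool.Agent.MP_019006_gt

namespace OdeMul

theorem growth0 {K Om Y H : ℝ → M3} (hJ : JacSys K Om Y H) (hC : Cone K Om Y H)
    (t : ℝ) (ht : 0 ≤ t) (u : Fin 3 → ℝ) :
    Real.exp (9 / 5 * t) * nsq u ≤ nsq (Y t *ᵥ u) ∧
      nsq (Y t *ᵥ u) ≤ Real.exp (21 / 5 * t) * nsq u := by
  simpa [hJ.Y0] using growth_vec hJ hC 0 t le_rfl ht u

theorem growth_inv {K Om Y H : ℝ → M3} (hJ : JacSys K Om Y H) (hC : Cone K Om Y H)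
    (t : ℝ) (ht : 0 ≤ t) (u : Fin 3 → ℝ) :
    Real.exp (-(21 / 5 * t)) * nsq u ≤ nsq ((Y t)⁻¹ *ᵥ u) ∧
      nsq ((Y t)⁻¹ *ᵥ u) ≤ Real.exp (-(9 / 5 * t)) * nsq u := by
  have h := growth0 hJ hC t ht ((Y t)⁻¹ *ᵥ u)
  rw [Matrix.mulVec_mulVec, Matrix.mul_nonsing_inv _ (Ne.isUnit (hC.det_pos t ht).ne'),
    Matrix.one_mulVec] at h
  obtain ⟨h1, h2⟩ := h
  rw [Real.exp_neg, Real.exp_neg]
  constructor
  · rw [inv_mul_le_iff₀ (Real.exp_pos _)]
    exact h2
  · rw [le_inv_mul_iff₀ (Real.exp_pos _)]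
    exact h1

theorem log_fro_bound {A : M3} {a b : ℝ}
    (h : ∀ u, Real.exp a * nsq u ≤ nsq (A *ᵥ u) ∧ nsq (A *ᵥ u) ≤ Real.exp b * nsq u) :
    a / 2 ≤ Real.log (fro A) ∧ Real.log (fro A) ≤ b / 2 + 1 := by
  have h1 : 3 * Real.exp a ≤ fro A ^ 2 := by
    rw [fro_sq_cols, Fin.sum_univ_three]
    have h0 := (h (Pi.single 0 1)).1
    have h1 := (h (Pi.single 1 1)).1
    have h2 := (h (Pi.single 2 1)).1
    rw [nsq_single] at h0 h1 h2
    linarith
  have h2 : fro A ^ 2 ≤ 3 * Real.exp b := by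
    rw [fro_sq_cols, Fin.sum_univ_three]
    have h0 := (h (Pi.single 0 1)).2
    have h1 := (h (Pi.single 1 1)).2
    have h2 := (h (Pi.single 2 1)).2
    rw [nsq_single] at h0 h1 h2
    linarith
  have ha := Real.exp_pos a
  have hb := Real.exp_pos b
  have hp : 0 < fro A ^ 2 := by linarith
  have h3 : Real.log (fro A ^ 2) = 2 * Real.log (fro A) := by
    rw [Real.log_pow]; norm_num
  constructor
  · have : a ≤ Real.log (fro A ^ 2) := by
      rw [Real.le_log_iff_exp_le hp]; linarith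
    linarith
  · have h4 : Real.log (fro A ^ 2) ≤ b + 2 := by
      rw [Real.log_le_iff_le_exp hp, Real.exp_add]
      have : (2 : ℝ) + 1 ≤ Real.exp 2 := Real.add_one_le_exp 2
      nlinarith
    linarith

theorem log_det_le {A : M3} {b : ℝ} (hd : 0 < A.det)
    (h : ∀ u, nsq (A *ᵥ u) ≤ Real.exp b * nsq u) : Real.log A.det ≤ 3 / 2 * b + 5 := by
  have h1 : ∀ i j, |A i j| ≤ Real.exp (b / 2) := by
    intro i j
    refine abs_le_of_sq_le_sq' ?_ (Real.exp_pos _).le |> abs_le.2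
    have h2 := h (Pi.single j 1)
    rw [nsq_single, mul_one] at h2
    have h3 : Real.exp (b / 2) ^ 2 = Real.exp b := by
      rw [← Real.exp_nat_mul]; congr 1; push_cast; ring
    rw [h3]
    exact (entry_sq_le A i j).trans h2
  have h2 := det_bound A _ h1
  rw [abs_of_pos hd] at h2
  rw [Real.log_le_iff_le_exp hd, Real.exp_add]
  have h3 : Real.exp (b / 2) ^ 3 = Real.exp (3 / 2 * b) := by
    rw [← Real.exp_nat_mul]; congr 1; push_cast; ring
  have h4 : (5 : ℝ) + 1 ≤ Real.exp 5 := Real.add_one_le_exp 5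
  have h5 := Real.exp_pos (3 / 2 * b)
  rw [h3] at h2
  nlinarith

theorem small_det {E : M3} (h : ∀ i j, |E i j| ≤ 1 / 18) :
    1 / 2 ≤ (1 + E).det ∧ (1 + E).det ≤ 2 := by
  have m : ∀ a b c d : ℝ, |a| ≤ c → |b| ≤ d → |a * b| ≤ c * d := fun a b c d h1 h2 => by
    rw [abs_mul]
    exact mul_le_mul h1 h2 (abs_nonneg _) ((abs_nonneg _).trans h1)
  have hE := abs_le.1 (det_bound E _ h)
  have e : (1 + E).det = 1 + (E 0 0 + E 1 1 + E 2 2) + (E 0 0 * E 1 1 + E 0 0 * E 2 2 +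
      E 1 1 * E 2 2 - E 0 1 * E 1 0 - E 0 2 * E 2 0 - E 1 2 * E 2 1) + E.det := by
    simp [Matrix.det_fin_three]
    ring
  have a1 := abs_le.1 (h 0 0)
  have a2 := abs_le.1 (h 1 1)
  have a3 := abs_le.1 (h 2 2)
  have b1 := abs_le.1 (m _ _ _ _ (h 0 0) (h 1 1))
  have b2 := abs_le.1 (m _ _ _ _ (h 0 0) (h 2 2))
  have b3 := abs_le.1 (m _ _ _ _ (h 1 1) (h 2 2))
  have b4 := abs_le.1 (m _ _ _ _ (h 0 1) (h 1 0))
  have b5 := abs_le.1 (m _ _ _ _ (h 0 2) (h 2 0))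
  have b6 := abs_le.1 (m _ _ _ _ (h 1 2) (h 2 1))
  rw [e]
  constructor <;> linarith [a1.1, a1.2, a2.1, a2.2, a3.1, a3.2, b1.1, b1.2, b2.1, b2.2, b3.1, b3.2,
    b4.1, b4.2, b5.1, b5.2, b6.1, b6.2, hE.1, hE.2]

theorem small_vec {E : M3} (h : ∀ i j, |E i j| ≤ 1 / 18) (u : Fin 3 → ℝ) :
    nsq (E *ᵥ u) ≤ 1 / 36 * nsq u := by
  have hr : ∀ i, ((E *ᵥ u) i) ^ 2 ≤ 1 / 108 * nsq u := by
    intro i
    have h1 := cs (E i) u
    have h2 : nsq (E i) ≤ 1 / 108 := by
      have q : ∀ j, E i j ^ 2 ≤ (1 / 18) ^ 2 := fun j => sq_le_sq' (abs_le.1 (h i j)).1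
        (abs_le.1 (h i j)).2
      have q0 := q 0
      have q1 := q 1
      have q2 := q 2
      unfold nsq
      linarith
    exact h1.trans (mul_le_mul_of_nonneg_right h2 (nsq_nonneg u))
  have h0 := hr 0
  have h1 := hr 1
  have h2 := hr 2
  have : nsq (E *ᵥ u) = (E *ᵥ u) 0 ^ 2 + (E *ᵥ u) 1 ^ 2 + (E *ᵥ u) 2 ^ 2 := rfl
  linarith

theorem small_one_add {E : M3} (h : ∀ i j, |E i j| ≤ 1 / 18) (u : Fin 3 → ℝ) :
    1 / 2 * nsq u ≤ nsq ((1 + E) *ᵥ u) ∧ nsq ((1 + E) *ᵥ u) ≤ 2 * nsq u := by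
  have h1 := small_vec h u
  rw [Matrix.add_mulVec, Matrix.one_mulVec]
  generalize E *ᵥ u = d at h1
  simp only [nsq, Pi.add_apply] at h1 ⊢
  constructor
  · nlinarith [sq_nonneg (u 0 + 6 * d 0), sq_nonneg (u 1 + 6 * d 1), sq_nonneg (u 2 + 6 * d 2),
      sq_nonneg (d 0), sq_nonneg (d 1), sq_nonneg (d 2), sq_nonneg (u 0), sq_nonneg (u 1),
      sq_nonneg (u 2)]
  · nlinarith [sq_nonneg (u 0 - 6 * d 0), sq_nonneg (u 1 - 6 * d 1), sq_nonneg (u 2 - 6 * d 2),
      sq_nonneg (u 0), sq_nonneg (u 1), sq_nonneg (u 2)]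

theorem log_fro_le_one {A : M3} (hd : A.det ≠ 0) (h : ∀ u, nsq (A *ᵥ u) ≤ 2 * nsq u) :
    Real.log (fro A) ≤ 1 := by
  have h2 : fro A ^ 2 ≤ 6 := by
    rw [fro_sq_cols, Fin.sum_univ_three]
    have h0 := h (Pi.single 0 1)
    have h1 := h (Pi.single 1 1)
    have h2 := h (Pi.single 2 1)
    rw [nsq_single] at h0 h1 h2
    linarith
  rw [Real.log_le_iff_le_exp (fro_pos hd)]
  have h3 := Real.exp_one_gt_d9
  nlinarith [fro_pos hd]

theorem log_fro_mul3 {A B C : M3} (hA : A.det ≠ 0) (hB : B.det ≠ 0) (hC : C.det ≠ 0) :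
    Real.log (fro (A * B * C)) ≤ Real.log (fro A) + Real.log (fro B) + Real.log (fro C) := by
  have hd : (A * B * C).det ≠ 0 := by
    rw [Matrix.det_mul, Matrix.det_mul]
    exact mul_ne_zero (mul_ne_zero hA hB) hC
  rw [← Real.log_mul (fro_pos hA).ne' (fro_pos hB).ne',
    ← Real.log_mul (mul_pos (fro_pos hA) (fro_pos hB)).ne' (fro_pos hC).ne']
  refine Real.log_le_log (fro_pos hd) ((fro_mul_le _ _).trans ?_)
  exact mul_le_mul_of_nonneg_right (fro_mul_le _ _) (fro_nonneg _)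

theorem exists_small {K Om Y H Y' H' : ℝ → M3} {s : ℝ} (hs : 0 ≤ s) (hJ : JacSys K Om Y H)
    (hC : Cone K Om Y H) (hJ' : JacSys (fun t => K (s + t)) (fun t => Om (s + t)) Y' H')
    (hC' : Cone (fun t => K (s + t)) (fun t => Om (s + t)) Y' H') (t : ℝ) (ht : 0 ≤ t) :
    ∃ E : M3, (∀ i j, |E i j| ≤ 1 / 18) ∧ Y (s + t) = Y' t * (1 + E) * Y s := by
  have hYs : IsUnit (Y s).det := Ne.isUnit (hC.det_pos s hs).ne'
  set B := (Y s)⁻¹ with hB
  have hB1 : Y s * B = 1 := Matrix.mul_nonsing_inv _ hYs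
  have hB2 : B * Y s = 1 := Matrix.nonsing_inv_mul _ hYs
  set Z : ℝ → M3 := fun r => Y (s + r) * B with hZ
  set G : ℝ → M3 := fun r => H (s + r) * B with hG
  set W : M3 := (H s - U0 * Y s) * B with hW
  have dZ : ∀ r, HD Z (G r - Om (s + r) * Z r) r := by
    intro r
    have h := (HD.shift (F := Y) (s := s) (t := r) (hJ.dY (s + r))).mul_const B
    rwa [Matrix.sub_mul, Matrix.mul_assoc] at h
  have dG : ∀ r, HD G (K (s + r) * Z r - Om (s + r) * G r) r := by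
    intro r
    have h := (HD.shift (F := H) (s := s) (t := r) (hJ.dH (s + r))).mul_const B
    rwa [Matrix.sub_mul, Matrix.mul_assoc, Matrix.mul_assoc] at h
  have dY' : ∀ r, HD Y' (H' r - Om (s + r) * Y' r) r := fun r => hJ'.dY r
  have dH' : ∀ r, HD H' (K (s + r) * Y' r - Om (s + r) * H' r) r := fun r => hJ'.dH r
  have dW : ∀ r, HD (fun r => (Y' r)ᵀ * G r - (H' r)ᵀ * Z r) 0 r := by
    intro r
    have h := ((dY' r).transpose.mul (dG r)).sub ((dH' r).transpose.mul (dZ r))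
    convert h using 1
    simp only [Matrix.transpose_sub, Matrix.transpose_mul, hJ.Ks, hJ.Oa]
    noncomm_ring
  have hWr : ∀ r, (Y' r)ᵀ * G r - (H' r)ᵀ * Z r = W := by
    intro r
    have h0 : (Y' 0)ᵀ * G 0 - (H' 0)ᵀ * Z 0 = W := by
      simp only [hJ'.Y0, hJ'.H0, hG, hZ, hW, add_zero, Matrix.transpose_one, Matrix.one_mul,
        Matrix.sub_mul, Matrix.mul_assoc, U0, Matrix.diagonal_transpose]
    rw [← h0]
    ext i j
    exact is_const_of_deriv_eq_zero (fun r => (dW r i j).differentiableAt)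
      (fun r => (dW r i j).deriv) r 0
  have hWb : ∀ u, nsq (W *ᵥ u) ≤ 1 / 100 * nsq u := by
    intro u
    have h := hC.cone s hs (B *ᵥ u)
    rwa [Matrix.mulVec_mulVec, Matrix.mulVec_mulVec, hB1, Matrix.one_mulVec] at h
  have dE : ∀ r, 0 ≤ r → HD (fun r => (Y' r)⁻¹ * Z r) ((Y' r)⁻¹ * ((Y' r)⁻¹ᵀ * W)) r := by
    intro r hr
    have hd := (hC'.det_pos r hr).ne'
    have h := ((dY' r).inv hd).mul (dZ r)
    convert h using 1
    have u1 : Y' r * (Y' r)⁻¹ = 1 := Matrix.mul_nonsing_inv _ (Ne.isUnit hd)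
    have u2 : (Y' r)⁻¹ᵀ * (Y' r)ᵀ = 1 := by
      rw [← Matrix.transpose_mul, u1, Matrix.transpose_one]
    have u3 : (Y' r)⁻¹ᵀ * (H' r)ᵀ = H' r * (Y' r)⁻¹ := by
      calc (Y' r)⁻¹ᵀ * (H' r)ᵀ = (Y' r)⁻¹ᵀ * ((H' r)ᵀ * Y' r) * (Y' r)⁻¹ := by
            rw [Matrix.mul_assoc, Matrix.mul_assoc, u1, Matrix.mul_one]
        _ = _ := by rw [← hC'.wronski r, ← Matrix.mul_assoc, u2, Matrix.one_mul]
    rw [← hWr r, Matrix.mul_sub, ← Matrix.mul_assoc (Y' r)⁻¹ᵀ, u2, ← Matrix.mul_assoc (Y' r)⁻¹ᵀ,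
      u3]
    have u4 : (Y' r)⁻¹ * (H' r - Om (s + r) * Y' r) * (Y' r)⁻¹ =
        (Y' r)⁻¹ * H' r * (Y' r)⁻¹ - (Y' r)⁻¹ * Om (s + r) := by
      rw [Matrix.mul_sub, Matrix.sub_mul, Matrix.mul_assoc (Y' r)⁻¹ (Om (s + r) * Y' r),
        Matrix.mul_assoc (Om (s + r)), u1, Matrix.mul_one]
    rw [u4]
    noncomm_ring
  have hEb : ∀ r, 0 ≤ r → ∀ i j,
      |((Y' r)⁻¹ * ((Y' r)⁻¹ᵀ * W)) i j| ≤ 1 / 10 * Real.exp (-(9 / 5 * r)) := by
    intro r hr i j
    have ht := transpose_bound (Y' r)⁻¹ _ (Real.exp_pos _).le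
      (fun u => (growth_inv hJ' hC' r hr u).2)
    have e : ((Y' r)⁻¹ * ((Y' r)⁻¹ᵀ * W)) i j =
        ((Y' r)⁻¹ᵀ *ᵥ Pi.single i 1) ⬝ᵥ ((Y' r)⁻¹ᵀ *ᵥ (W *ᵥ Pi.single j 1)) := by
      rw [Matrix.mulVec_mulVec]
      simp [Matrix.mul_apply, dotProduct]
    have h1 := cs ((Y' r)⁻¹ᵀ *ᵥ Pi.single i 1) ((Y' r)⁻¹ᵀ *ᵥ (W *ᵥ Pi.single j 1))
    have h2 := ht (Pi.single i 1)
    have h3 := ht (W *ᵥ Pi.single j 1)
    have h4 := hWb (Pi.single j 1)
    rw [nsq_single] at h2 h4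
    rw [← e] at h1
    have hx := Real.exp_pos (-(9 / 5 * r))
    have h5 : nsq ((Y' r)⁻¹ᵀ *ᵥ (W *ᵥ Pi.single j 1)) ≤ Real.exp (-(9 / 5 * r)) * (1 / 100) :=
      h3.trans (mul_le_mul_of_nonneg_left (by linarith) hx.le)
    have h6 := mul_le_mul h2 h5 (nsq_nonneg _) (by positivity)
    refine abs_le.2 (abs_le_of_sq_le_sq' (h1.trans (h6.trans (le_of_eq (by ring)))) ?_)
    positivity
  have hex : ∀ r : ℝ, HasDerivAt (fun r => 1 / 18 * Real.exp (-(9 / 5 * r)))
      (-(1 / 10 * Real.exp (-(9 / 5 * r)))) r := by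
    intro r
    have h1 := (((hasDerivAt_id r).const_mul (9 / 5 : ℝ)).neg.exp).const_mul (1 / 18 : ℝ)
    refine HasDerivAt.congr_deriv h1 ?_
    simp only [Pi.neg_apply, id]
    ring
  have hZ0 : (Y' 0)⁻¹ * Z 0 = 1 := by
    simp only [hJ'.Y0, hZ, add_zero, hB1, inv_one, Matrix.mul_one]
  refine ⟨(Y' t)⁻¹ * Z t - 1, fun i j => ?_, ?_⟩
  · have m1 : MonotoneOn (fun r => ((Y' r)⁻¹ * Z r) i j - 1 / 18 * Real.exp (-(9 / 5 * r)))
        (Ici 0) := by
      refine monotoneOn_of_deriv_nonneg (convex_Ici 0)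
        (fun r hr => ((dE r hr i j).sub (hex r)).continuousAt.continuousWithinAt)
        (fun r hr => ((dE r (interior_subset hr) i j).sub
          (hex r)).differentiableAt.differentiableWithinAt) fun r hr => ?_
      have hr' : 0 ≤ r := interior_subset hr
      rw [((dE r hr' i j).fun_sub (hex r)).deriv]
      have := (abs_le.1 (hEb r hr' i j)).1
      linarith
    have m2 : AntitoneOn (fun r => ((Y' r)⁻¹ * Z r) i j + 1 / 18 * Real.exp (-(9 / 5 * r)))
        (Ici 0) := by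
      refine antitoneOn_of_deriv_nonpos (convex_Ici 0)
        (fun r hr => ((dE r hr i j).add (hex r)).continuousAt.continuousWithinAt)
        (fun r hr => ((dE r (interior_subset hr) i j).add
          (hex r)).differentiableAt.differentiableWithinAt) fun r hr => ?_
      have hr' : 0 ≤ r := interior_subset hr
      rw [((dE r hr' i j).fun_add (hex r)).deriv]
      have := (abs_le.1 (hEb r hr' i j)).2
      linarith
    have k1 := m1 (le_refl (0 : ℝ)) ht ht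
    have k2 := m2 (le_refl (0 : ℝ)) ht ht
    simp only [hZ0, mul_zero, neg_zero, Real.exp_zero] at k1 k2
    have hx := Real.exp_pos (-(9 / 5 * t))
    rw [Matrix.sub_apply, abs_le]
    constructor <;> linarith
  · have u1 : Y' t * (Y' t)⁻¹ = 1 := Matrix.mul_nonsing_inv _ (Ne.isUnit (hC'.det_pos t ht).ne')
    rw [add_sub_cancel, ← Matrix.mul_assoc, u1, Matrix.one_mul, hZ]
    simp only [Matrix.mul_assoc, hB2, Matrix.mul_one]

end OdeMul

open OdeMul

theorem growth_bounds {K Om Y H : ℝ → M3} (hJ : JacSys K Om Y H) (hC : Cone K Om Y H)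
    (t : ℝ) (ht : 0 ≤ t) : |Real.log (fro (Y t))| ≤ 9 * (1 + t) ∧
      |Real.log (fro (Y t)⁻¹)| ≤ 9 * (1 + t) ∧ |Real.log (Y t).det| ≤ 9 * (1 + t) := by
  have h1 := log_fro_bound (growth0 hJ hC t ht)
  have h2 := log_fro_bound (growth_inv hJ hC t ht)
  have hd := hC.det_pos t ht
  have h3 := log_det_le hd fun u => (growth0 hJ hC t ht u).2
  have hd' : 0 < ((Y t)⁻¹).det := by
    rw [Matrix.det_nonsing_inv, Ring.inverse_eq_inv']
    exact inv_pos.2 hd
  have h4 := log_det_le hd' fun u => (growth_inv hJ hC t ht u).2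
  rw [Matrix.det_nonsing_inv, Ring.inverse_eq_inv', Real.log_inv] at h4
  refine ⟨abs_le.2 ⟨?_, ?_⟩, abs_le.2 ⟨?_, ?_⟩, abs_le.2 ⟨?_, ?_⟩⟩ <;>
    linarith [h1.1, h1.2, h2.1, h2.2]

theorem almost_mul {K Om Y H Y' H' : ℝ → M3} {s : ℝ} (hs : 0 ≤ s) (hJ : JacSys K Om Y H)
    (hC : Cone K Om Y H) (hJ' : JacSys (fun t => K (s + t)) (fun t => Om (s + t)) Y' H')
    (hC' : Cone (fun t => K (s + t)) (fun t => Om (s + t)) Y' H') (t : ℝ) (ht : 0 ≤ t) :
    Real.log (fro (Y (s + t))) ≤ Real.log (fro (Y s)) + Real.log (fro (Y' t)) + 1 ∧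
    Real.log (fro (Y' t)) ≤ Real.log (fro (Y (s + t))) + Real.log (fro (Y s)⁻¹) + 1 ∧
    Real.log (fro (Y (s + t))⁻¹) ≤ Real.log (fro (Y s)⁻¹) + Real.log (fro (Y' t)⁻¹) + 1 ∧
    |Real.log (Y (s + t)).det - Real.log (Y s).det - Real.log (Y' t).det| ≤ 1 := by
  obtain ⟨E, hE, e⟩ := exists_small hs hJ hC hJ' hC' t ht
  have d1 := hC.det_pos s hs
  have d2 := hC'.det_pos t ht
  have d3 := hC.det_pos (s + t) (add_nonneg hs ht)
  have d4 := small_det hE
  have d5 : 0 < (1 + E).det := by linarith [d4.1]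
  have inv_ne : ∀ A : M3, 0 < A.det → (A⁻¹).det ≠ 0 := fun A hA => by
    rw [Matrix.det_nonsing_inv, Ring.inverse_eq_inv']
    exact (inv_pos.2 hA).ne'
  have f1 : Real.log (fro (1 + E)) ≤ 1 := log_fro_le_one d5.ne' fun u => (small_one_add hE u).2
  have f2 : Real.log (fro (1 + E)⁻¹) ≤ 1 := by
    refine log_fro_le_one (inv_ne _ d5) fun u => ?_
    have h := (small_one_add hE ((1 + E)⁻¹ *ᵥ u)).1
    rw [Matrix.mulVec_mulVec, Matrix.mul_nonsing_inv _ (Ne.isUnit d5.ne'), Matrix.one_mulVec] at h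
    linarith
  refine ⟨?_, ?_, ?_, ?_⟩
  · have h := log_fro_mul3 d2.ne' d5.ne' d1.ne'
    rw [← e] at h
    linarith
  · have h := log_fro_mul3 d3.ne' (inv_ne _ d1) (inv_ne _ d5)
    have e2 : Y (s + t) * (Y s)⁻¹ * (1 + E)⁻¹ = Y' t := by
      rw [e, Matrix.mul_assoc (Y' t * (1 + E)), Matrix.mul_nonsing_inv _ (Ne.isUnit d1.ne'),
        Matrix.mul_one, Matrix.mul_assoc, Matrix.mul_nonsing_inv _ (Ne.isUnit d5.ne'),
        Matrix.mul_one]
    rw [e2] at h
    linarith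
  · have h := log_fro_mul3 (inv_ne _ d1) (inv_ne _ d5) (inv_ne _ d2)
    have e2 : (Y s)⁻¹ * (1 + E)⁻¹ * (Y' t)⁻¹ = (Y (s + t))⁻¹ := by
      rw [e, Matrix.mul_inv_rev, Matrix.mul_inv_rev, Matrix.mul_assoc]
    rw [e2] at h
    linarith
  · have e2 : Real.log (Y (s + t)).det =
        Real.log (Y' t).det + Real.log (1 + E).det + Real.log (Y s).det := by
      rw [e, Matrix.det_mul, Matrix.det_mul, Real.log_mul (mul_pos d2 d5).ne' d1.ne',
        Real.log_mul d2.ne' d5.ne']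
    have l1 : Real.log (1 + E).det ≤ 1 := by
      have := Real.log_le_sub_one_of_pos d5
      linarith [d4.2]
    have l2 : -1 ≤ Real.log (1 + E).det := by
      have := Real.one_sub_inv_le_log_of_pos d5
      have h2 : ((1 + E).det)⁻¹ ≤ 2 := by
        rw [inv_le_comm₀ d5 (by norm_num)]
        linarith [d4.1]
      linarith
    rw [e2, abs_le]
    constructor <;> linarith

end Pool.Agent.MP_019006_gt

end
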