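import Pool.Agent.Mg.F019006.G29ea9e
import Pool.Agent.Mg.F019006.G5c6f1b
import Pool.Agent.Mg.F019006.G2753c4

section

set_option autoImplicit false

open MeasureTheory Filter Topology Set Matrix

namespace Pool.Agent.MP_019006_gt

/-- The Dirichlet solution of the pinched Jacobi equation in a rotating frame. -/
structure DirSys (K Om Y H : ℝ → M3) : Prop where
  Kc : Continuous K
  Oc : Continuous Om
  Ks : ∀ t, (K t)ᵀ = K t
  Oa : ∀ t, (Om t)ᵀ = -Om t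
  pinch : ∀ t u, 9 / 10 * nsq u ≤ u ⬝ᵥ (K t *ᵥ u) ∧ u ⬝ᵥ (K t *ᵥ u) ≤ 5 * nsq u
  dY : ∀ t i j, HasDerivAt (fun s => Y s i j) ((H t - Om t * Y t) i j) t
  dH : ∀ t i j, HasDerivAt (fun s => H s i j) ((K t * Y t - Om t * H t) i j) t
  Y0 : Y 0 = 0
  H0 : H 0 = 1

/-- Type of flows on the tangent bundle. -/
abbrev Flo := ℝ → EE × EE → EE × EE

/-- Type of their derivatives. -/
abbrev DFlo := ℝ → EE × EE → (EE × EE) →L[ℝ] (EE × EE)

/-- A small conformal factor with its geodesic flow. -/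
structure Ctx (f : EE → ℝ) (φ : Flo) (M : DFlo) : Prop where
  conf : Conf f
  flow : IsFlow OO (XX f) φ M

noncomputable def YD (f : EE → ℝ) (φ : Flo) (M : DFlo) (p : EE × EE) (t : ℝ) : M3 :=
  fun i j => gg f (φ t p).1 (M t p (0, frame p j)).1 (frame (φ t p) i)

noncomputable def HD (f : EE → ℝ) (φ : Flo) (M : DFlo) (p : EE × EE) (t : ℝ) : M3 :=
  fun i j => gg f (φ t p).1 ((M t p (0, frame p j)).2 +
    Gam f (φ t p).1 (φ t p).2 (M t p (0, frame p j)).1) (frame (φ t p) i)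

/-- The Riemannian volume density. -/
noncomputable def mm (f : EE → ℝ) (x : EE) : ℝ := Real.exp (4 * f x) / Dd x ^ 3

/-- The derivative of the exponential map. -/
noncomputable def dexp (M : DFlo) (p : EE × EE) : EE →L[ℝ] EE :=
  (ContinuousLinearMap.fst ℝ EE EE).comp ((M 1 p).comp (ContinuousLinearMap.inr ℝ EE EE))

/-- The Riemannian Jacobian of the exponential map. -/
noncomputable def Jac (f : EE → ℝ) (φ : Flo) (M : DFlo) (p : EE × EE) : ℝ :=
  mm f (φ 1 p).1 * |(dexp M p).det| / mm f p.1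

/-- `V y` is the inverse of the exponential map at `y`. -/
structure IsLog (φ : Flo) (V : EE → EE → EE) : Prop where
  right : ∀ y ∈ Bl, ∀ z ∈ Bl, (φ 1 (y, V y z)).1 = z
  left : ∀ y ∈ Bl, ∀ v, V y (φ 1 (y, v)).1 = v
  cont : ContinuousOn (fun q : EE × EE => V q.1 q.2) (Bl ×ˢ Bl)

/-- The distance. -/
noncomputable def dd (f : EE → ℝ) (V : EE → EE → EE) (y z : EE) : ℝ := Real.sqrt (en f (y, V y z))

/-- The unit vector at `y` pointing to `z`. -/
noncomputable def dir (f : EE → ℝ) (V : EE → EE → EE) (y z : EE) : EE := (nrm f (y, V y z)).2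

/-- The area element of the sphere of centre `y` through `z`. -/
noncomputable def JT (f : EE → ℝ) (φ : Flo) (M : DFlo) (V : EE → EE → EE) (y z : EE) : ℝ :=
  (YD f φ M (y, dir f V y z) (dd f V y z)).det

/-- Vectors with length in a half open interval. -/
def thin (f : EE → ℝ) (a b : ℝ) : Set (EE × EE) := {p | p.1 ∈ Bl ∧ a ^ 2 < en f p ∧ en f p ≤ b ^ 2}

/-- A measurable set invariant under the flow, the group and positive scalings. -/
structure InvSet {G : Type} [Group G] (ρ : G →* C3) (φ : Flo) (A : Set (EE × EE)) : Prop where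
  meas : MeasurableSet A
  flow : ∀ t, ∀ p : EE × EE, p.1 ∈ Bl → (φ t p ∈ A ↔ p ∈ A)
  grp : ∀ a, ∀ p : EE × EE, p.1 ∈ Bl → (mobT (ρ a) p ∈ A ↔ p ∈ A)
  scale : ∀ c : ℝ, 0 < c → ∀ p : EE × EE, p.1 ∈ Bl → ((p.1, c • p.2) ∈ A ↔ p ∈ A)

end Pool.Agent.MP_019006_gt

end

section

set_option autoImplicit false

open MeasureTheory Filter Topology Set Matrix

namespace Pool.Agent.MP_019006_gt

namespace Mob

open ComplexConjugate

/-- The Hermitian form of signature (2,1). -/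
noncomputable def BB (Z W : Fin 3 → ℂ) : ℂ :=
  Z 0 * conj (W 0) + Z 1 * conj (W 1) - Z 2 * conj (W 2)

theorem BB_eq (Z W : Fin 3 → ℂ) : BB Z W = star W ⬝ᵥ (Jm *ᵥ Z) := by
  simp [BB, Jm, dotProduct, Fin.sum_univ_three, Matrix.mulVec_diagonal]
  ring

theorem BB_inv {A : C3} (hA : IsU21 A) (Z W : Fin 3 → ℂ) : BB (A *ᵥ Z) (A *ᵥ W) = BB Z W := by
  rw [BB_eq, BB_eq, Matrix.star_mulVec, Matrix.mulVec_mulVec, ← Matrix.dotProduct_mulVec,
    Matrix.mulVec_mulVec, ← Matrix.mul_assoc, hA]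

theorem BB_smul_left (c : ℂ) (Z W : Fin 3 → ℂ) : BB (c • Z) W = c * BB Z W := by
  simp only [BB, Pi.smul_apply, smul_eq_mul]; ring

theorem BB_smul_right (c : ℂ) (Z W : Fin 3 → ℂ) : BB Z (c • W) = conj c * BB Z W := by
  simp only [BB, Pi.smul_apply, smul_eq_mul, map_mul]; ring

theorem BB_sub_left (Z Z' W : Fin 3 → ℂ) : BB (Z - Z') W = BB Z W - BB Z' W := by
  simp only [BB, Pi.sub_apply]; ring

theorem BB_sub_right (Z W W' : Fin 3 → ℂ) : BB Z (W - W') = BB Z W - BB Z W' := by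
  simp only [BB, Pi.sub_apply, map_sub]; ring

theorem ip_eq (u w : EE) : ip u w = u 0 * conj (w 0) + u 1 * conj (w 1) := by
  simp [ip, PiLp.inner_apply, Fin.sum_univ_two]

theorem normsq_eq (x : EE) : ‖x‖ ^ 2 = ‖x 0‖ ^ 2 + ‖x 1‖ ^ 2 := by
  rw [EuclideanSpace.norm_sq_eq, Fin.sum_univ_two]

theorem mul_conj' (z : ℂ) : z * conj z = ((‖z‖ ^ 2 : ℝ) : ℂ) := by
  rw [Complex.mul_conj, Complex.normSq_eq_norm_sq]

theorem BB_self (Z : Fin 3 → ℂ) : BB Z Z = (Qf Z : ℂ) := by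
  simp only [BB, Qf, mul_conj']; push_cast; ring

theorem Qf_lift1 (x : EE) : Qf (lift1 x) = -Dd x := by
  simp [Qf, lift1, Dd, normsq_eq]

theorem BB11 (x : EE) : BB (lift1 x) (lift1 x) = -(Dd x : ℂ) := by
  rw [BB_self, Qf_lift1]; push_cast; ring

theorem BB01 (u x : EE) : BB (lift0 u) (lift1 x) = ip u x := by
  simp [BB, lift0, lift1, ip_eq]

theorem BB10 (x u : EE) : BB (lift1 x) (lift0 u) = ip x u := by
  simp [BB, lift0, lift1, ip_eq]

theorem BB00 (u w : EE) : BB (lift0 u) (lift0 w) = ip u w := by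
  simp [BB, lift0, ip_eq]

theorem Qf_inv {A : C3} (hA : IsU21 A) (Z : Fin 3 → ℂ) : Qf (A *ᵥ Z) = Qf Z := by
  have h := BB_inv hA Z Z
  rw [BB_self, BB_self] at h
  exact_mod_cast h

theorem mem_Bl {x : EE} : x ∈ Bl ↔ ‖x‖ < 1 := by simp [Bl]

theorem Dd_pos {x : EE} (hx : x ∈ Bl) : 0 < Dd x := by
  have h := mem_Bl.1 hx
  have h0 := norm_nonneg x
  unfold Dd; nlinarith

theorem mem_of_Dd_pos {x : EE} (hx : 0 < Dd x) : x ∈ Bl := by
  rw [mem_Bl]
  unfold Dd at hx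
  have h0 := norm_nonneg x
  nlinarith

theorem Dd_le_one (x : EE) : Dd x ≤ 1 := by
  unfold Dd; nlinarith [sq_nonneg ‖x‖]

theorem isOpen_Bl : IsOpen Bl := Metric.isOpen_ball

theorem isOpen_OO : IsOpen OO := isOpen_Bl.prod isOpen_univ

theorem lift1_mob {A : C3} {x : EE} (hj : jj A x ≠ 0) :
    lift1 (mob A x) = (jj A x)⁻¹ • (A *ᵥ lift1 x) := by
  funext i
  fin_cases i
  · simp [lift1, mob, div_eq_inv_mul]
  · simp [lift1, mob, div_eq_inv_mul]
  · change (1 : ℂ) = (jj A x)⁻¹ * jj A x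
    rw [inv_mul_cancel₀ hj]

theorem mulVec_lift1 {A : C3} {x : EE} (hj : jj A x ≠ 0) :
    A *ᵥ lift1 x = jj A x • lift1 (mob A x) := by
  rw [lift1_mob hj, smul_smul, mul_inv_cancel₀ hj, one_smul]

theorem lift0_dmob (A : C3) (x u : EE) :
    lift0 (dmob A x u) = (jj A x)⁻¹ • (A *ᵥ lift0 u - cc A u • lift1 (mob A x)) := by
  funext i
  fin_cases i
  · rfl
  · rfl
  · change (0 : ℂ) = (jj A x)⁻¹ * (cc A u - cc A u * 1)
    ring

theorem lift0_inj {u w : EE} (h : lift0 u = lift0 w) : u = w := by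
  ext i
  fin_cases i
  · exact congrFun h 0
  · exact congrFun h 1

theorem lift1_inj {u w : EE} (h : lift1 u = lift1 w) : u = w := by
  ext i
  fin_cases i
  · exact congrFun h 0
  · exact congrFun h 1

theorem cc_eq (A : C3) (u : EE) : cc A u = A 2 0 * u 0 + A 2 1 * u 1 := by
  simp [cc, lift0, Matrix.mulVec, dotProduct, Fin.sum_univ_three]

theorem jj_eq (A : C3) (x : EE) : jj A x = cc A x + A 2 2 := by
  simp [jj, cc, lift0, lift1, Matrix.mulVec, dotProduct, Fin.sum_univ_three]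

/-- The upper left block as a complex linear map. -/
noncomputable def top (A : C3) : EE →L[ℂ] EE :=
  LinearMap.toContinuousLinearMap
    { toFun := fun u => !₂[(A *ᵥ lift0 u) 0, (A *ᵥ lift0 u) 1]
      map_add' := fun u w => by
        ext i
        fin_cases i <;> simp [lift0, Matrix.mulVec, dotProduct, Fin.sum_univ_three] <;> ring
      map_smul' := fun c u => by
        ext i
        fin_cases i <;> simp [lift0, Matrix.mulVec, dotProduct, Fin.sum_univ_three] <;> ring }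

theorem top_apply (A : C3) (u : EE) : top A u = !₂[(A *ᵥ lift0 u) 0, (A *ᵥ lift0 u) 1] := rfl

/-- The lower row as a complex linear form. -/
noncomputable def ccL (A : C3) : EE →L[ℂ] ℂ :=
  LinearMap.toContinuousLinearMap
    { toFun := fun u => cc A u
      map_add' := fun u w => by simp only [cc_eq, PiLp.add_apply]; ring
      map_smul' := fun c u => by
        simp only [cc_eq, PiLp.smul_apply, smul_eq_mul, RingHom.id_apply]; ring }

theorem ccL_apply (A : C3) (u : EE) : ccL A u = cc A u := rfl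

/-- The last column. -/
noncomputable def bb (A : C3) : EE := !₂[A 0 2, A 1 2]

theorem mob_eq (A : C3) (x : EE) : mob A x = (jj A x)⁻¹ • (top A x + bb A) := by
  ext i
  fin_cases i <;>
    simp [mob, top_apply, bb, lift0, lift1, Matrix.mulVec, dotProduct, Fin.sum_univ_three,
      div_eq_inv_mul] <;> ring

theorem dmob_eq (A : C3) (x u : EE) : dmob A x u = (jj A x)⁻¹ • (top A u - ccL A u • mob A x) :=
  rfl

/-- The complex derivative of the action. -/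
noncomputable def dC (A : C3) (x : EE) : EE →L[ℂ] EE :=
  (jj A x)⁻¹ • (top A - (ccL A).smulRight (mob A x))

theorem dC_apply (A : C3) (x u : EE) : dC A x u = dmob A x u := rfl

/-- The second derivative of the action. -/
noncomputable def d2C (A : C3) (x w : EE) : EE →L[ℂ] EE :=
  -((jj A x)⁻¹ • ((ccL A).smulRight (dmob A x w) + cc A w • dC A x))

theorem d2C_apply (A : C3) (x w u : EE) :
    d2C A x w u = -((jj A x)⁻¹ • (cc A u • dmob A x w + cc A w • dmob A x u)) := rfl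

theorem hasFDerivAt_jj (A : C3) (x : EE) : HasFDerivAt (jj A) (ccL A) x := by
  have h : jj A = fun y => ccL A y + A 2 2 := funext fun y => jj_eq A y
  rw [h]
  exact (ccL A).hasFDerivAt.add_const _

theorem hasFDerivAt_jinv {A : C3} {x : EE} (hj : jj A x ≠ 0) :
    HasFDerivAt (fun y => (jj A y)⁻¹) (-((jj A x) ^ 2)⁻¹ • ccL A) x :=
  (hasDerivAt_inv hj).comp_hasFDerivAt x (hasFDerivAt_jj A x)

theorem hasFDerivAt_mobC {A : C3} {x : EE} (hj : jj A x ≠ 0) :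
    HasFDerivAt (mob A) (dC A x) x := by
  have h : mob A = fun y => (jj A y)⁻¹ • (top A y + bb A) := funext fun y => mob_eq A y
  have h1 := (hasFDerivAt_jinv hj).fun_smul ((top A).hasFDerivAt.add_const (bb A))
  rw [← h] at h1
  refine h1.congr_fderiv ?_
  ext1 u
  rw [dC_apply, dmob_eq, mob_eq]
  simp only [_root_.add_apply, _root_.smul_apply,
    ContinuousLinearMap.smulRight_apply, smul_eq_mul]
  rw [sq, mul_inv]
  module

theorem hasFDerivAt_dmobC {A : C3} {p : EE × EE} (hj : jj A p.1 ≠ 0) :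
    HasFDerivAt (fun q : EE × EE => dmob A q.1 q.2)
      ((dC A p.1).comp (ContinuousLinearMap.snd ℂ EE EE) +
        (d2C A p.1 p.2).comp (ContinuousLinearMap.fst ℂ EE EE)) p := by
  have h0 := (hasFDerivAt_jinv hj).comp p (hasFDerivAt_fst (𝕜 := ℂ) (p := p))
  have h1 := (top A).hasFDerivAt.comp p (hasFDerivAt_snd (𝕜 := ℂ) (p := p))
  have h2 := (ccL A).hasFDerivAt.comp p (hasFDerivAt_snd (𝕜 := ℂ) (p := p))
  have h3 := (hasFDerivAt_mobC hj).comp p (hasFDerivAt_fst (𝕜 := ℂ) (p := p))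
  have h4 := h0.smul (h1.sub (h2.smul h3))
  refine HasFDerivAt.congr_fderiv h4 ?_
  refine ContinuousLinearMap.ext fun ξ => ?_
  simp only [_root_.add_apply, _root_.smul_apply,
    ContinuousLinearMap.smulRight_apply, smul_eq_mul, ContinuousLinearMap.comp_apply,
    _root_.sub_apply, ContinuousLinearMap.coe_fst', ContinuousLinearMap.coe_snd',
    Function.comp_apply, Pi.sub_apply, Pi.smul_apply', d2C_apply, dC_apply, dmob_eq, ccL_apply]
  rw [sq, mul_inv]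
  module

theorem hasFDerivAt_dmob1C {A : C3} {x : EE} (hj : jj A x ≠ 0) (w : EE) :
    HasFDerivAt (fun y => dmob A y w) (d2C A x w) x := by
  have h0 := hasFDerivAt_dmobC (A := A) (p := (x, w)) hj
  have h1 : HasFDerivAt (fun y : EE => (y, w)) (ContinuousLinearMap.inl ℂ EE EE) x :=
    hasFDerivAt_prodMk_left x w
  have h2 := h0.comp x h1
  refine HasFDerivAt.congr_fderiv h2 ?_
  refine ContinuousLinearMap.ext fun u => ?_
  simp

theorem fderiv_dmob1 {A : C3} {x : EE} (hj : jj A x ≠ 0) (u w : EE) :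
    fderiv ℝ (fun y => dmob A y w) x u =
      -((jj A x)⁻¹ • (cc A u • dmob A x w + cc A w • dmob A x u)) := by
  rw [((hasFDerivAt_dmob1C hj w).restrictScalars ℝ).fderiv]
  rfl

theorem Jm_mul_Jm : Jm * Jm = 1 := by
  rw [Jm, Matrix.diagonal_mul_diagonal, ← Matrix.diagonal_one]
  congr 1
  funext i
  fin_cases i <;> simp

theorem row_eq {A : C3} (hA : IsU21 A) : A * Jm * Aᴴ = Jm := by
  have h1 : (Jm * Aᴴ * Jm) * A = 1 := by
    have : Jm * Aᴴ * Jm * A = Jm * (Aᴴ * Jm * A) := by simp only [Matrix.mul_assoc]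
    rw [this, hA, Jm_mul_Jm]
  have h2 : A * (Jm * Aᴴ * Jm) = 1 := mul_eq_one_comm.1 h1
  have h3 : A * Jm * Aᴴ = A * (Jm * Aᴴ * Jm) * Jm := by
    simp only [Matrix.mul_assoc, Jm_mul_Jm, Matrix.mul_one]
  rw [h3, h2, Matrix.one_mul]

theorem row_norm {A : C3} (hA : IsU21 A) : ‖A 2 0‖ ^ 2 + ‖A 2 1‖ ^ 2 + 1 = ‖A 2 2‖ ^ 2 := by
  have h := congrFun (congrFun (row_eq hA) 2) 2
  simp only [Jm, Matrix.mul_apply, Matrix.diagonal_apply, Matrix.conjTranspose_apply,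
    Fin.sum_univ_three] at h
  simp at h
  have h' : A 2 0 * conj (A 2 0) + A 2 1 * conj (A 2 1) + 1 = A 2 2 * conj (A 2 2) := by
    linear_combination h
  rw [mul_conj', mul_conj', mul_conj'] at h'
  exact_mod_cast h'

theorem norm_cc_le {A : C3} (hA : IsU21 A) (u : EE) : ‖cc A u‖ ≤ ‖A 2 2‖ * ‖u‖ := by
  have h1 : ‖cc A u‖ ≤ ‖A 2 0‖ * ‖u 0‖ + ‖A 2 1‖ * ‖u 1‖ := by
    rw [cc_eq, ← norm_mul, ← norm_mul]; exact norm_add_le _ _
  have h2 := row_norm hA
  have h3 := normsq_eq u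
  refine h1.trans (abs_le_of_sq_le_sq' ?_ ?_).2
  · rw [mul_pow, h3, ← h2]
    nlinarith [sq_nonneg (‖A 2 0‖ * ‖u 1‖ - ‖A 2 1‖ * ‖u 0‖), sq_nonneg ‖u 0‖, sq_nonneg ‖u 1‖]
  · positivity

theorem normSq_det {A : C3} (hA : IsU21 A) : Complex.normSq A.det = 1 := by
  have h := congrArg Matrix.det hA
  rw [Matrix.det_mul, Matrix.det_mul, Matrix.det_conjTranspose] at h
  have hJ : Jm.det = -1 := by
    rw [Jm, Matrix.det_diagonal, Fin.prod_univ_three]; simp
  rw [hJ] at h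
  have h' : A.det * conj A.det = 1 := by
    have : star A.det = conj A.det := rfl
    rw [this] at h
    linear_combination -h
  rw [Complex.mul_conj] at h'
  exact_mod_cast h'

theorem det_dC {A : C3} {x : EE} (hj : jj A x ≠ 0) :
    LinearMap.det (dC A x : EE →ₗ[ℂ] EE) = A.det / jj A x ^ 3 := by
  rw [← LinearMap.det_toMatrix (EuclideanSpace.basisFun (Fin 2) ℂ).toBasis, Matrix.det_fin_two,
    Matrix.det_fin_three]
  have e : ∀ i k : Fin 2, LinearMap.toMatrix (EuclideanSpace.basisFun (Fin 2) ℂ).toBasis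
      (EuclideanSpace.basisFun (Fin 2) ℂ).toBasis (dC A x : EE →ₗ[ℂ] EE) i k =
      dmob A x (EuclideanSpace.single k 1) i := by
    intro i k
    simp [LinearMap.toMatrix_apply, dC_apply]
  have hjj : jj A x = A 2 0 * x 0 + A 2 1 * x 1 + A 2 2 := by rw [jj_eq, cc_eq]
  simp only [e]
  simp [dmob, mob, cc_eq, lift0, lift1, Matrix.mulVec, dotProduct, Fin.sum_univ_three]
  field_simp
  rw [hjj]
  ring

theorem det_block (D S : EE →L[ℝ] EE) :
    ((D.comp (ContinuousLinearMap.fst ℝ EE EE)).prod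
      (D.comp (ContinuousLinearMap.snd ℝ EE EE) + S.comp (ContinuousLinearMap.fst ℝ EE EE))).det =
      D.det * D.det := by
  classical
  let b := Module.finBasis ℝ EE
  unfold ContinuousLinearMap.det
  rw [← LinearMap.det_toMatrix (b.prod b), ← LinearMap.det_toMatrix b,
    ← Matrix.det_fromBlocks_zero₁₂ _ (LinearMap.toMatrix b b (S : EE →ₗ[ℝ] EE))]
  congr 1
  ext (i | i) (k | k) <;> simp [LinearMap.toMatrix_apply]

end Mob

open Mob

theorem IsU21.mul {A B : C3} (hA : IsU21 A) (hB : IsU21 B) : IsU21 (A * B) := by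
  unfold IsU21 at *
  rw [Matrix.conjTranspose_mul]
  have : Bᴴ * Aᴴ * Jm * (A * B) = Bᴴ * (Aᴴ * Jm * A) * B := by simp only [Matrix.mul_assoc]
  rw [this, hA, hB]

theorem jj_ne {A : C3} (hA : IsU21 A) {x : EE} (hx : x ∈ Bl) : jj A x ≠ 0 := by
  intro h
  have h1 := Qf_inv hA (lift1 x)
  rw [Qf_lift1] at h1
  have h2 := Dd_pos hx
  unfold jj at h
  unfold Qf at h1
  rw [h, norm_zero] at h1
  nlinarith [sq_nonneg ‖(A *ᵥ lift1 x) 0‖, sq_nonneg ‖(A *ᵥ lift1 x) 1‖]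

theorem Dd_mob {A : C3} (hA : IsU21 A) {x : EE} (hx : x ∈ Bl) :
    Dd (mob A x) = Dd x / ‖jj A x‖ ^ 2 := by
  have hj := jj_ne hA hx
  have h1 := BB11 (mob A x)
  rw [lift1_mob hj, BB_smul_left, BB_smul_right, BB_inv hA, BB11, ← mul_assoc, mul_conj',
    norm_inv] at h1
  have h2 : (‖jj A x‖⁻¹ ^ 2 * -Dd x : ℝ) = -Dd (mob A x) := by exact_mod_cast h1
  rw [div_eq_inv_mul, ← inv_pow]
  linarith

theorem mob_mem {A : C3} (hA : IsU21 A) {x : EE} (hx : x ∈ Bl) : mob A x ∈ Bl := by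
  apply mem_of_Dd_pos
  rw [Dd_mob hA hx]
  exact div_pos (Dd_pos hx) (pow_pos (norm_pos_iff.2 (jj_ne hA hx)) 2)

theorem mob_one (x : EE) : mob 1 x = x := by
  ext i
  fin_cases i <;> simp [mob, jj, lift1]

theorem dmob_one (x u : EE) : dmob 1 x u = u := by
  apply lift0_inj
  rw [lift0_dmob]
  have h1 : jj 1 x = 1 := by simp [jj, lift1]
  have h2 : cc 1 u = 0 := by simp [cc, lift0]
  rw [h1, h2]
  simp

theorem Mob.jj_mul {A B : C3} (hB : IsU21 B) {x : EE} (hx : x ∈ Bl) :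
    jj (A * B) x = jj B x * jj A (mob B x) := by
  have hj := jj_ne hB hx
  unfold jj at *
  rw [← Matrix.mulVec_mulVec, mulVec_lift1 hj, Matrix.mulVec_smul]
  simp only [Pi.smul_apply, smul_eq_mul]
  congr 1
  change jj B x = jj B x * 1
  rw [mul_one]

theorem mob_mul {A B : C3} (hB : IsU21 B) {x : EE} (hx : x ∈ Bl) :
    mob (A * B) x = mob A (mob B x) := by
  have hj := jj_ne hB hx
  have h : (A * B) *ᵥ lift1 x = jj B x • (A *ᵥ lift1 (mob B x)) := by
    rw [← Matrix.mulVec_mulVec, mulVec_lift1 hj, Matrix.mulVec_smul]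
  unfold mob at *
  rw [jj_mul hB hx, h]
  simp only [Pi.smul_apply, smul_eq_mul, mul_div_mul_left _ _ hj]
  rfl

theorem dmob_mul {A B : C3} (hA : IsU21 A) (hB : IsU21 B) {x : EE} (hx : x ∈ Bl) (u : EE) :
    dmob (A * B) x u = dmob A (mob B x) (dmob B x u) := by
  have hjB := jj_ne hB hx
  have hjA := jj_ne hA (mob_mem hB hx)
  have h1 : A *ᵥ lift0 (dmob B x u) = (jj B x)⁻¹ •
      ((A * B) *ᵥ lift0 u - (cc B u * jj A (mob B x)) • lift1 (mob A (mob B x))) := by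
    rw [lift0_dmob, Matrix.mulVec_smul, Matrix.mulVec_sub, Matrix.mulVec_smul,
      Matrix.mulVec_mulVec, mulVec_lift1 hjA, smul_smul]
  have h2 : cc A (dmob B x u) = (jj B x)⁻¹ * (cc (A * B) u - cc B u * jj A (mob B x)) := by
    change (A *ᵥ lift0 (dmob B x u)) 2 = _
    rw [h1]
    change (jj B x)⁻¹ * (cc (A * B) u - cc B u * jj A (mob B x) * 1) = _
    rw [mul_one]
  apply lift0_inj
  rw [lift0_dmob, lift0_dmob A, h1, h2, mob_mul hB hx, jj_mul hB hx, mul_inv]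
  module

theorem jj_bounds {A : C3} (hA : IsU21 A) {x : EE} (hx : x ∈ Bl) :
    ‖A 2 2‖ * (1 - ‖x‖) ≤ ‖jj A x‖ ∧ ‖jj A x‖ ≤ 2 * ‖A 2 2‖ := by
  have h1 := norm_cc_le hA x
  have h2 := mem_Bl.1 hx
  have h3 := norm_nonneg (A 2 2)
  constructor
  · have h4 : ‖A 2 2‖ ≤ ‖jj A x‖ + ‖cc A x‖ := by
      have : A 2 2 = jj A x - cc A x := by rw [jj_eq]; ring
      conv_lhs => rw [this]
      exact norm_sub_le _ _
    nlinarith
  · have h4 : ‖jj A x‖ ≤ ‖cc A x‖ + ‖A 2 2‖ := by rw [jj_eq]; exact norm_add_le _ _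
    nlinarith

theorem dmob_add (A : C3) (x u w : EE) : dmob A x (u + w) = dmob A x u + dmob A x w :=
  (dC A x).map_add u w

theorem dmob_smul (A : C3) (x : EE) (c : ℂ) (u : EE) : dmob A x (c • u) = c • dmob A x u :=
  (dC A x).map_smul c u

theorem Mob.contDiff_jj (A : C3) (n : ℕ) : ContDiff ℝ n (jj A) := by
  have h : jj A = fun y => (ccL A).restrictScalars ℝ y + A 2 2 := funext fun y => jj_eq A y
  rw [h]
  exact ((ccL A).restrictScalars ℝ).contDiff.add contDiff_const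

theorem contDiffOn_mob {A : C3} (hA : IsU21 A) (n : ℕ) : ContDiffOn ℝ n (mob A) Bl := by
  have h : mob A = fun y => (jj A y)⁻¹ • ((top A).restrictScalars ℝ y + bb A) :=
    funext fun y => mob_eq A y
  rw [h]
  exact ((contDiff_jj A n).contDiffOn.inv fun x hx => jj_ne hA hx).smul
    (((top A).restrictScalars ℝ).contDiff.add contDiff_const).contDiffOn

theorem contDiffOn_mobT {A : C3} (hA : IsU21 A) (n : ℕ) : ContDiffOn ℝ n (mobT A) OO := by
  have hm : ContDiffOn ℝ n (fun p : EE × EE => mob A p.1) OO :=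
    (contDiffOn_mob hA n).comp contDiffOn_fst fun p hp => hp.1
  have hj : ContDiffOn ℝ n (fun p : EE × EE => (jj A p.1)⁻¹) OO :=
    ((contDiff_jj A n).comp contDiff_fst).contDiffOn.inv fun p hp => jj_ne hA hp.1
  have ht : ContDiffOn ℝ n (fun p : EE × EE => top A p.2) OO :=
    (((top A).restrictScalars ℝ).contDiff.comp contDiff_snd).contDiffOn
  have hc : ContDiffOn ℝ n (fun p : EE × EE => ccL A p.2) OO :=
    (((ccL A).restrictScalars ℝ).contDiff.comp contDiff_snd).contDiffOn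
  have hd : ContDiffOn ℝ n (fun p : EE × EE => dmob A p.1 p.2) OO :=
    hj.smul (ht.sub (hc.smul hm))
  refine (hm.prodMk hd).congr fun p hp => ?_
  unfold mobT
  rw [if_pos hp.1]

theorem Mob.fderiv_mob_eq {A : C3} (hA : IsU21 A) {x : EE} (hx : x ∈ Bl) :
    fderiv ℝ (mob A) x = (dC A x).restrictScalars ℝ :=
  ((hasFDerivAt_mobC (jj_ne hA hx)).restrictScalars ℝ).fderiv

theorem fderiv_mob {A : C3} (hA : IsU21 A) {x : EE} (hx : x ∈ Bl) (u : EE) :
    fderiv ℝ (mob A) x u = dmob A x u := by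
  rw [fderiv_mob_eq hA hx]
  rfl

theorem Mob.lift0_dmob' {A : C3} {x : EE} (hj : jj A x ≠ 0) (u : EE) :
    lift0 (dmob A x u) = (jj A x)⁻¹ • (A *ᵥ (lift0 u - (cc A u * (jj A x)⁻¹) • lift1 x)) := by
  rw [lift0_dmob, lift1_mob hj, Matrix.mulVec_sub, Matrix.mulVec_smul, smul_smul]

theorem Mob.Dd_mobC {A : C3} (hA : IsU21 A) {x : EE} (hx : x ∈ Bl) :
    (Dd (mob A x) : ℂ) = (jj A x)⁻¹ * (starRingEnd ℂ) (jj A x)⁻¹ * (Dd x : ℂ) := by
  rw [Dd_mob hA hx, mul_conj', norm_inv]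
  push_cast
  rw [div_eq_inv_mul, inv_pow]

theorem Mob.conj_Dd (x : EE) : (starRingEnd ℂ) (Dd x : ℂ) = Dd x := Complex.conj_ofReal _

theorem hh_mob {A : C3} (hA : IsU21 A) {x : EE} (hx : x ∈ Bl) (u w : EE) :
    hh (mob A x) (dmob A x u) (dmob A x w) = hh x u w := by
  have hj := jj_ne hA hx
  have hD : (Dd x : ℂ) ≠ 0 := by exact_mod_cast (Dd_pos hx).ne'
  unfold hh
  rw [← BB00 (dmob A x u), ← BB01 (dmob A x u), ← BB10 (mob A x), Dd_mobC hA hx,
    lift0_dmob' hj, lift0_dmob' hj, lift1_mob hj]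
  simp only [BB_smul_left, BB_smul_right, BB_inv hA, BB_sub_left, BB_sub_right, BB00, BB01, BB10,
    BB11]
  have hi : (jj A x)⁻¹ ≠ 0 := inv_ne_zero hj
  have hc : (starRingEnd ℂ) (jj A x)⁻¹ ≠ 0 := (map_ne_zero _).2 hi
  generalize (starRingEnd ℂ) (cc A w * (jj A x)⁻¹) = s
  generalize (starRingEnd ℂ) (jj A x)⁻¹ = k' at *
  generalize (jj A x)⁻¹ = k at *
  field_simp
  ring

theorem Mob.al_mob {A : C3} (hA : IsU21 A) {x : EE} (hx : x ∈ Bl) (u : EE) :
    al (mob A x) (dmob A x u) = al x u + cc A u * (jj A x)⁻¹ := by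
  have hj := jj_ne hA hx
  have hD : (Dd x : ℂ) ≠ 0 := by exact_mod_cast (Dd_pos hx).ne'
  unfold al
  rw [← BB01 (dmob A x u), Dd_mobC hA hx, lift0_dmob' hj, lift1_mob hj]
  simp only [BB_smul_left, BB_smul_right, BB_inv hA, BB_sub_left, BB01, BB11]
  have hi : (jj A x)⁻¹ ≠ 0 := inv_ne_zero hj
  have hc : (starRingEnd ℂ) (jj A x)⁻¹ ≠ 0 := (map_ne_zero _).2 hi
  generalize (starRingEnd ℂ) (jj A x)⁻¹ = k' at *
  generalize (jj A x)⁻¹ = k at *
  field_simp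
  ring

theorem fderiv_dmob {A : C3} (hA : IsU21 A) {x : EE} (hx : x ∈ Bl) (u w : EE) :
    fderiv ℝ (fun y => dmob A y w) x u + Gam0 (mob A x) (dmob A x u) (dmob A x w) =
      dmob A x (Gam0 x u w) := by
  rw [fderiv_dmob1 (jj_ne hA hx), Gam0, Gam0, al_mob hA hx, al_mob hA hx, dmob_add, dmob_smul,
    dmob_smul]
  module

theorem Mob.hasFDerivAt_mobT {A : C3} (hA : IsU21 A) {p : EE × EE} (hp : p.1 ∈ Bl) :
    HasFDerivAt (mobT A)
      ((((dC A p.1).restrictScalars ℝ).comp (ContinuousLinearMap.fst ℝ EE EE)).prod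
        (((dC A p.1).restrictScalars ℝ).comp (ContinuousLinearMap.snd ℝ EE EE) +
          ((d2C A p.1 p.2).restrictScalars ℝ).comp (ContinuousLinearMap.fst ℝ EE EE))) p := by
  have hj := jj_ne hA hp
  have h1 := ((hasFDerivAt_mobC hj).restrictScalars ℝ).comp p (hasFDerivAt_fst (𝕜 := ℝ) (p := p))
  have h2 := (hasFDerivAt_dmobC hj).restrictScalars ℝ
  have h3 := h1.prodMk h2
  have h4 : mobT A =ᶠ[𝓝 p] fun q => (mob A q.1, dmob A q.1 q.2) := by
    filter_upwards [isOpen_OO.mem_nhds (show p ∈ OO from ⟨hp, mem_univ _⟩)] with q hq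
    unfold mobT
    rw [if_pos hq.1]
  exact h3.congr_of_eventuallyEq h4

theorem fderiv_mobT {A : C3} (hA : IsU21 A) {p : EE × EE} (hp : p.1 ∈ Bl) (ξ : EE × EE) :
    fderiv ℝ (mobT A) p ξ =
      (dmob A p.1 ξ.1, dmob A p.1 ξ.2 + fderiv ℝ (fun y => dmob A y p.2) p.1 ξ.1) := by
  rw [(hasFDerivAt_mobT hA hp).fderiv, fderiv_dmob1 (jj_ne hA hp)]
  rfl

theorem Mob.det_real {A : C3} (hA : IsU21 A) {x : EE} (hx : x ∈ Bl) :
    ((dC A x).restrictScalars ℝ).det = (Dd (mob A x) / Dd x) ^ 3 := by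
  have hj := jj_ne hA hx
  have h1 : ((dC A x).restrictScalars ℝ).det =
      LinearMap.det ((dC A x : EE →ₗ[ℂ] EE).restrictScalars ℝ) := rfl
  rw [h1, LinearMap.det_restrictScalars, Algebra.norm_complex_apply, det_dC hj, map_div₀, map_pow,
    normSq_det hA, Dd_mob hA hx, Complex.normSq_eq_norm_sq]
  have h2 := (Dd_pos hx).ne'
  have h3 : ‖jj A x‖ ≠ 0 := norm_ne_zero_iff.2 hj
  field_simp

theorem det_mob {A : C3} (hA : IsU21 A) {x : EE} (hx : x ∈ Bl) :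
    |(fderiv ℝ (mob A) x).det| = (Dd (mob A x) / Dd x) ^ 3 := by
  rw [fderiv_mob_eq hA hx, det_real hA hx]
  exact abs_of_pos (pow_pos (div_pos (Dd_pos (mob_mem hA hx)) (Dd_pos hx)) 3)

theorem det_mobT {A : C3} (hA : IsU21 A) {p : EE × EE} (hp : p.1 ∈ Bl) :
    |(fderiv ℝ (mobT A) p).det| = (Dd (mob A p.1) / Dd p.1) ^ 6 := by
  rw [(hasFDerivAt_mobT hA hp).fderiv, det_block, det_real hA hp, ← pow_add]
  exact abs_of_pos (pow_pos (div_pos (Dd_pos (mob_mem hA hp)) (Dd_pos hp)) 6)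

theorem measurable_mobT {A : C3} (hA : IsU21 A) : Measurable (mobT A) := by
  classical
  have h : mobT A = OO.piecewise (mobT A) id := by
    funext p
    by_cases hp : p ∈ OO
    · rw [piecewise_eq_of_mem _ _ _ hp]
    · rw [piecewise_eq_of_notMem _ _ _ hp]
      unfold mobT
      rw [if_neg fun h => hp ⟨h, mem_univ _⟩]
      rfl
  rw [h]
  exact ContinuousOn.measurable_piecewise (contDiffOn_mobT hA 0).continuousOn
    continuous_id.continuousOn isOpen_OO.measurableSet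

end Pool.Agent.MP_019006_gt

end

section

set_option autoImplicit false

open MeasureTheory Filter Topology Set Matrix

namespace Pool.Agent.MP_019006_gt

open Mob

theorem lattice_fin {Λ : ℝ} {G : Type} [Group G] {ρ : G →* C3} (hρ : IsLattice Λ G ρ)
    (c : ℝ) (hc : 0 < c) : {a : G | ∃ x ∈ Bl, c ≤ Dd x ∧ c ≤ Dd (mob (ρ a) x)}.Finite := by
  refine (hρ.fin (2 / c * (1 + 1 / c))).subset ?_
  rintro a ⟨x, hx, h1, h2⟩
  have hA : IsU21 (ρ a) := hρ.unit a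
  have hj : 0 < ‖jj (ρ a) x‖ := norm_pos_iff.2 (jj_ne hA hx)
  rw [Dd_mob hA hx, le_div_iff₀ (pow_pos hj 2)] at h2
  have h3 := Dd_le_one x
  have h4 : ‖jj (ρ a) x‖ ^ 2 ≤ 1 / c := by
    rw [le_div_iff₀ hc]; linarith
  have h5 : ‖jj (ρ a) x‖ ≤ 1 + 1 / c := by nlinarith [sq_nonneg (‖jj (ρ a) x‖ - 1)]
  have h6 := (jj_bounds hA hx).1
  have h7 : c / 2 ≤ 1 - ‖x‖ := by
    unfold Dd at h1
    nlinarith [sq_nonneg (1 - ‖x‖)]
  have h8 : ‖ρ a 2 2‖ * (c / 2) ≤ 1 + 1 / c :=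
    (mul_le_mul_of_nonneg_left h7 (norm_nonneg _)).trans (h6.trans h5)
  change ‖ρ a 2 2‖ ≤ _
  have h9 : ‖ρ a 2 2‖ = 2 / c * (‖ρ a 2 2‖ * (c / 2)) := by field_simp
  rw [h9]
  exact mul_le_mul_of_nonneg_left h8 (by positivity)

theorem lattice_cocpt {Λ : ℝ} {G : Type} [Group G] {ρ : G →* C3} (hρ : IsLattice Λ G ρ) :
    ∃ δ : ℝ, 0 < δ ∧ ∀ x ∈ Bl, ∃ a, δ ≤ Dd (mob (ρ a) x) := by
  obtain ⟨δ, hδ, h⟩ := hρ.cocpt
  refine ⟨δ, hδ, fun x hx => ?_⟩
  have h1 : Qf (lift1 x) < 0 := by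
    rw [Qf_lift1]; linarith [Dd_pos hx]
  obtain ⟨a, ha⟩ := h (lift1 x) h1
  have hA : IsU21 (ρ a) := hρ.unit a
  have hj : 0 < ‖jj (ρ a) x‖ := norm_pos_iff.2 (jj_ne hA hx)
  refine ⟨a, ?_⟩
  rw [Dd_mob hA hx, le_div_iff₀ (pow_pos hj 2)]
  rw [Qf_lift1, neg_neg] at ha
  exact ha

theorem lattice_far {Λ : ℝ} {G : Type} [Group G] {ρ : G →* C3} (hρ : IsLattice Λ G ρ)
    (hΛ : 0 < Λ) (a : G) (ha : a ≠ 1) {x : EE} (hx : ‖x‖ ≤ 1 / 2) :
    Dd (mob (ρ a) x) ≤ 4 / Λ ^ 2 := by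
  have hA : IsU21 (ρ a) := hρ.unit a
  have hxB : x ∈ Bl := mem_Bl.2 (by linarith)
  have h1 := hρ.far a ha
  have h2 := (jj_bounds hA hxB).1
  have h3 : Λ / 2 ≤ ‖jj (ρ a) x‖ := by nlinarith
  have h4 : (Λ / 2) ^ 2 ≤ ‖jj (ρ a) x‖ ^ 2 := pow_le_pow_left₀ (by positivity) h3 2
  rw [Dd_mob hA hxB]
  calc Dd x / ‖jj (ρ a) x‖ ^ 2 ≤ 1 / (Λ / 2) ^ 2 :=
        div_le_div₀ zero_le_one (Dd_le_one x) (by positivity) h4
    _ = 4 / Λ ^ 2 := by field_simp; norm_num

theorem Mob.continuous_Dd : Continuous Dd := by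
  unfold Dd; fun_prop

theorem isDeckAction {Λ : ℝ} {G : Type} [Group G] {ρ : G →* C3} (hρ : IsLattice Λ G ρ)
    (f : EE → ℝ) (hf : ∀ a, ∀ x ∈ Bl, f (mob (ρ a) x) = f x) :
    IsDeckAction Bl (gg f) G (fun a => mob (ρ a)) := by
  have hA : ∀ a, IsU21 (ρ a) := hρ.unit
  refine ⟨fun a x hx => mob_mem (hA a) hx, fun x _ => ?_, fun a b x hx => ?_,
    fun a n => contDiffOn_mob (hA a) n, fun a x hx u w => ?_, fun a x hx h => ?_,
    fun K hK hKc => ?_, ?_⟩
  · simp only [map_one]; exact mob_one x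
  · simp only [map_mul]; exact mob_mul (hA b) hx
  · simp only [gg_apply, fderiv_mob (hA a) hx, hf a x hx, g0, hh_mob (hA a) hx]
  · have h1 : Qf (lift1 x) < 0 := by
      rw [Qf_lift1]; linarith [Dd_pos hx]
    refine hρ.free a (lift1 x) (jj (ρ a) x) h1 ?_
    have h2 : mob (ρ a) x = x := h
    rw [mulVec_lift1 (jj_ne (hA a) hx), h2]
  · rcases K.eq_empty_or_nonempty with rfl | hne
    · simp
    · obtain ⟨z, hz, hmin⟩ := hKc.exists_isMinOn hne continuous_Dd.continuousOn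
      refine (lattice_fin hρ (Dd z) (Dd_pos (hK hz))).subset ?_
      rintro a ⟨y, ⟨x, hx, rfl⟩, hy⟩
      exact ⟨x, hK hx, hmin hx, hmin hy⟩
  · obtain ⟨δ, hδ, h⟩ := lattice_cocpt hρ
    refine ⟨{x | δ ≤ Dd x}, fun x hx => mem_of_Dd_pos (hδ.trans_le hx), ?_, h⟩
    refine (isCompact_closedBall (0 : EE) 1).of_isClosed_subset
      (isClosed_le continuous_const continuous_Dd) fun x hx => ?_
    exact Metric.ball_subset_closedBall (mem_of_Dd_pos (hδ.trans_le hx))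

end Pool.Agent.MP_019006_gt

end

section

set_option autoImplicit false

open MeasureTheory Filter Topology Set Matrix

namespace Pool.Agent.MP_019006_gt

namespace OdeD

open OdeC (MD mono anti om_facts UU UU_mul inv_deriv)

variable {K Om Y H : ℝ → M3}

lemma om_dot {O : M3} (h : Oᵀ = -O) (u v : Fin 3 → ℝ) :
    u ⬝ᵥ (O *ᵥ v) + v ⬝ᵥ (O *ᵥ u) = 0 := by
  obtain ⟨o1, o2, o3, o4, o5, o6⟩ := om_facts h
  simp only [dotProduct, Matrix.mulVec, Fin.sum_univ_three, o1, o2, o3, o4, o5, o6]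
  ring

lemma sym_dot {S : M3} (h : Sᵀ = S) (u v : Fin 3 → ℝ) : u ⬝ᵥ (S *ᵥ v) = v ⬝ᵥ (S *ᵥ u) := by
  have key : ∀ i j, S j i = S i j := fun i j => congrFun (congrFun h i) j
  simp only [dotProduct, Matrix.mulVec, Fin.sum_univ_three, key 0 1, key 0 2, key 1 2]
  ring

lemma dot_deriv {A B : ℝ → M3} {A' B' : M3} {t : ℝ} (hA : MD A A' t) (hB : MD B B' t)
    (u v : Fin 3 → ℝ) : HasDerivAt (fun s => (A s *ᵥ u) ⬝ᵥ (B s *ᵥ v))
      ((A' *ᵥ u) ⬝ᵥ (B t *ᵥ v) + (A t *ᵥ u) ⬝ᵥ (B' *ᵥ v)) t := by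
  simp only [dotProduct, ← Finset.sum_add_distrib]
  exact HasDerivAt.fun_sum fun k _ => (hA.vec u k).mul (hB.vec v k)

lemma dA (h : DirSys K Om Y H) (w : Fin 3 → ℝ) (t : ℝ) :
    HasDerivAt (fun s => nsq (Y s *ᵥ w)) (2 * ((Y t *ᵥ w) ⬝ᵥ (H t *ᵥ w))) t := by
  have hY : MD Y (H t - Om t * Y t) t := h.dY t
  refine (hY.nsq w).congr_deriv ?_
  rw [Matrix.sub_mulVec, ← Matrix.mulVec_mulVec, dotProduct_sub]
  have := om_dot (h.Oa t) (Y t *ᵥ w) (Y t *ᵥ w)
  linarith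

lemma dB (h : DirSys K Om Y H) (w : Fin 3 → ℝ) (t : ℝ) :
    HasDerivAt (fun s => (Y s *ᵥ w) ⬝ᵥ (H s *ᵥ w))
      (nsq (H t *ᵥ w) + (Y t *ᵥ w) ⬝ᵥ (K t *ᵥ (Y t *ᵥ w))) t := by
  have hY : MD Y (H t - Om t * Y t) t := h.dY t
  have hH : MD H (K t * Y t - Om t * H t) t := h.dH t
  refine (dot_deriv hY hH w w).congr_deriv ?_
  rw [Matrix.sub_mulVec, Matrix.sub_mulVec, ← Matrix.mulVec_mulVec, ← Matrix.mulVec_mulVec,
    ← Matrix.mulVec_mulVec, dotProduct_sub, sub_dotProduct, OdeMul.nsq_eq_dot,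
    dotProduct_comm (Om t *ᵥ (Y t *ᵥ w))]
  have := om_dot (h.Oa t) (Y t *ᵥ w) (H t *ᵥ w)
  linarith

lemma dD (h : DirSys K Om Y H) (w : Fin 3 → ℝ) (t : ℝ) :
    HasDerivAt (fun s => nsq (H s *ᵥ w)) (2 * ((H t *ᵥ w) ⬝ᵥ (K t *ᵥ (Y t *ᵥ w)))) t := by
  have hH : MD H (K t * Y t - Om t * H t) t := h.dH t
  refine (hH.nsq w).congr_deriv ?_
  rw [Matrix.sub_mulVec, ← Matrix.mulVec_mulVec, ← Matrix.mulVec_mulVec, dotProduct_sub]
  have := om_dot (h.Oa t) (H t *ᵥ w) (H t *ᵥ w)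
  linarith

lemma two_dot (u v : Fin 3 → ℝ) (c : ℝ) : 2 * c * (u ⬝ᵥ v) ≤ c ^ 2 * nsq u + nsq v := by
  simp only [nsq, dotProduct, Fin.sum_univ_three]
  nlinarith [sq_nonneg (c * u 0 - v 0), sq_nonneg (c * u 1 - v 1), sq_nonneg (c * u 2 - v 2)]

lemma K_cross (h : DirSys K Om Y H) (t : ℝ) (u v : Fin 3 → ℝ) :
    |2 * (u ⬝ᵥ (K t *ᵥ v))| ≤ 5 * (nsq u + nsq v) := by
  have h1 := (h.pinch t (u - v)).1
  have h2 := (h.pinch t (u + v)).1
  have h3 := (h.pinch t u).2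
  have h4 := (h.pinch t v).2
  have h5 := OdeMul.nsq_nonneg (u - v)
  have h6 := OdeMul.nsq_nonneg (u + v)
  have h7 := sym_dot (h.Ks t) u v
  rw [Matrix.mulVec_sub, dotProduct_sub, sub_dotProduct, sub_dotProduct] at h1
  rw [Matrix.mulVec_add, dotProduct_add, add_dotProduct, add_dotProduct] at h2
  rw [abs_le]
  constructor <;> linarith

/-- a differential inequality `f' ≥ c f` integrates -/
lemma exp_le {f : ℝ → ℝ} {a b c : ℝ} (hab : a ≤ b)
    (h : ∀ t ∈ Icc a b, ∃ d, HasDerivAt f d t ∧ c * f t ≤ d) :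
    Real.exp (c * (b - a)) * f a ≤ f b := by
  have h1 := mono (f := fun t => Real.exp (-c * t) * f t) (c := 0) hab (fun t ht => by
    obtain ⟨d, h1, h2⟩ := h t ht
    have h3 : HasDerivAt (fun r => Real.exp (-c * r)) (Real.exp (-c * t) * (-c)) t := by
      simpa using ((hasDerivAt_id t).const_mul (-c)).exp
    refine ⟨_, h3.mul h1, ?_⟩
    have := Real.exp_pos (-c * t)
    nlinarith)
  have e : Real.exp (c * (b - a)) = Real.exp (c * b) * Real.exp (-c * a) := by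
    rw [← Real.exp_add]; ring_nf
  have e2 : Real.exp (c * b) * Real.exp (-c * b) = 1 := by
    rw [← Real.exp_add]; simp
  have h2 := Real.exp_pos (c * b)
  calc Real.exp (c * (b - a)) * f a = Real.exp (c * b) * (Real.exp (-c * a) * f a) := by
        rw [e]; ring
    _ ≤ Real.exp (c * b) * (Real.exp (-c * b) * f b) :=
        mul_le_mul_of_nonneg_left (by linarith) h2.le
    _ = f b := by rw [← mul_assoc, e2, one_mul]

lemma le_exp {f : ℝ → ℝ} {a b c : ℝ} (hab : a ≤ b)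
    (h : ∀ t ∈ Icc a b, ∃ d, HasDerivAt f d t ∧ d ≤ c * f t) :
    f b ≤ Real.exp (c * (b - a)) * f a := by
  have := exp_le (f := fun t => -f t) (c := c) hab (fun t ht => by
    obtain ⟨d, h1, h2⟩ := h t ht
    exact ⟨-d, h1.neg, by linarith⟩)
  linarith

lemma cone (h : DirSys K Om Y H) (w : Fin 3 → ℝ) {t : ℝ} (ht : 0 ≤ t) :
    9 / 10 * nsq (Y t *ᵥ w) ≤ (Y t *ᵥ w) ⬝ᵥ (H t *ᵥ w) := by
  have h1 := mono (f := fun s => (Y s *ᵥ w) ⬝ᵥ (H s *ᵥ w) - 9 / 10 * nsq (Y s *ᵥ w)) (c := 0) ht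
    (fun s _ => by
      refine ⟨_, (dB h w s).sub ((dA h w s).const_mul (9 / 10)), ?_⟩
      have h2 := (h.pinch s (Y s *ᵥ w)).1
      have h3 := two_dot (Y s *ᵥ w) (H s *ᵥ w) (9 / 10)
      have h4 := OdeMul.nsq_nonneg (Y s *ᵥ w)
      linarith)
  simp only [h.Y0, Matrix.zero_mulVec, zero_dotProduct] at h1
  have : nsq 0 = 0 := by simp [nsq]
  rw [this] at h1
  linarith

lemma grow (h : DirSys K Om Y H) (w : Fin 3 → ℝ) {s t : ℝ} (hs : 0 ≤ s) (hst : s ≤ t) :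
    Real.exp (t - s) * nsq (Y s *ᵥ w) ≤ nsq (Y t *ᵥ w) := by
  have := exp_le (f := fun r => nsq (Y r *ᵥ w)) (c := 1) hst (fun r hr => by
    refine ⟨_, dA h w r, ?_⟩
    have h1 := cone h w (hs.trans hr.1)
    have h2 := OdeMul.nsq_nonneg (Y r *ᵥ w)
    linarith)
  simpa using this

lemma energy (h : DirSys K Om Y H) (w : Fin 3 → ℝ) {t : ℝ} (ht : 0 ≤ t) :
    Real.exp (-6 * t) * nsq w ≤ nsq (Y t *ᵥ w) + nsq (H t *ᵥ w) ∧
      nsq (Y t *ᵥ w) + nsq (H t *ᵥ w) ≤ Real.exp (6 * t) * nsq w := by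
  have hb : ∀ r, |2 * ((Y r *ᵥ w) ⬝ᵥ (H r *ᵥ w)) + 2 * ((H r *ᵥ w) ⬝ᵥ (K r *ᵥ (Y r *ᵥ w)))| ≤
      6 * (nsq (Y r *ᵥ w) + nsq (H r *ᵥ w)) := by
    intro r
    have h1 := abs_le.1 (K_cross h r (H r *ᵥ w) (Y r *ᵥ w))
    have h2 := two_dot (Y r *ᵥ w) (H r *ᵥ w) 1
    have h3 := two_dot (Y r *ᵥ w) (H r *ᵥ w) (-1)
    rw [abs_le]
    constructor <;> linarith [h1.1, h1.2]
  have h0 : nsq (Y 0 *ᵥ w) + nsq (H 0 *ᵥ w) = nsq w := by
    simp [h.Y0, h.H0, nsq]
  constructor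
  · have := exp_le (f := fun r => nsq (Y r *ᵥ w) + nsq (H r *ᵥ w)) (c := -6) ht (fun r _ =>
      ⟨_, (dA h w r).add (dD h w r), by linarith [(abs_le.1 (hb r)).1]⟩)
    simpa [h0] using this
  · have := le_exp (f := fun r => nsq (Y r *ᵥ w) + nsq (H r *ᵥ w)) (c := 6) ht (fun r _ =>
      ⟨_, (dA h w r).add (dD h w r), (abs_le.1 (hb r)).2⟩)
    simpa [h0] using this

lemma B_low (h : DirSys K Om Y H) (w : Fin 3 → ℝ) {t : ℝ} (ht : 0 ≤ t) :
    9 / 10 * Real.exp (-6 * t) * nsq w * t ≤ (Y t *ᵥ w) ⬝ᵥ (H t *ᵥ w) := by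
  have h1 := mono (f := fun s => (Y s *ᵥ w) ⬝ᵥ (H s *ᵥ w))
    (c := 9 / 10 * Real.exp (-6 * t) * nsq w) ht (fun s hs => by
      refine ⟨_, dB h w s, ?_⟩
      have h2 := (h.pinch s (Y s *ᵥ w)).1
      have h3 := (energy h w hs.1).1
      have h4 := OdeMul.nsq_nonneg (H s *ᵥ w)
      have h5 : Real.exp (-6 * t) ≤ Real.exp (-6 * s) := Real.exp_le_exp.2 (by linarith [hs.2])
      have h6 := mul_le_mul_of_nonneg_right h5 (OdeMul.nsq_nonneg w)
      linarith)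
  simpa [h.Y0] using h1

lemma nsq_pos {w : Fin 3 → ℝ} (hw : w ≠ 0) : 0 < nsq w := by
  rcases (OdeMul.nsq_nonneg w).eq_or_lt with h0 | h0
  · exfalso
    apply hw
    unfold nsq at h0
    have h1 : w 0 = 0 := by nlinarith [sq_nonneg (w 0), sq_nonneg (w 1), sq_nonneg (w 2)]
    have h2 : w 1 = 0 := by nlinarith [sq_nonneg (w 0), sq_nonneg (w 1), sq_nonneg (w 2)]
    have h3 : w 2 = 0 := by nlinarith [sq_nonneg (w 0), sq_nonneg (w 1), sq_nonneg (w 2)]
    ext i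
    fin_cases i <;> simp [h1, h2, h3]
  · exact h0

lemma det_pos (h : DirSys K Om Y H) {t : ℝ} (ht : 0 < t) : 0 < (Y t).det := by
  have hYc : Continuous Y := continuous_pi fun i => continuous_pi fun j =>
    continuous_iff_continuousAt.2 fun s => (h.dY s i j).continuousAt
  have hHc : Continuous H := continuous_pi fun i => continuous_pi fun j =>
    continuous_iff_continuousAt.2 fun s => (h.dH s i j).continuousAt
  set F : ℝ → M3 := fun r => (1 - r) • H (r * t) + r • Y (r * t) with hF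
  have hFc : Continuous fun r => (F r).det := by
    apply Continuous.matrix_det
    simp only [hF]
    fun_prop
  have hne : ∀ r ∈ Icc (0 : ℝ) 1, (F r).det ≠ 0 := by
    intro r hr h0
    rcases hr.1.eq_or_lt with h1 | h1
    · simp [hF, ← h1, h.H0] at h0
    obtain ⟨w, hw, hw0⟩ := Matrix.exists_mulVec_eq_zero_iff.2 h0
    have hrt : 0 < r * t := mul_pos h1 ht
    have h2 := B_low h w hrt.le
    have h3 : 0 < 9 / 10 * Real.exp (-6 * (r * t)) * nsq w * (r * t) := by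
      have := nsq_pos hw
      positivity
    have h4 : (Y (r * t) *ᵥ w) ⬝ᵥ (F r *ᵥ w) = 0 := by rw [hw0, dotProduct_zero]
    simp only [hF, Matrix.add_mulVec, Matrix.smul_mulVec, dotProduct_add, dotProduct_smul,
      smul_eq_mul] at h4
    rw [← OdeMul.nsq_eq_dot] at h4
    have h5 : Y (r * t) *ᵥ w ≠ 0 := by
      intro h6
      rw [h6, zero_dotProduct] at h2
      linarith
    have h6 := mul_pos h1 (nsq_pos h5)
    have h7 := mul_nonneg (sub_nonneg.2 hr.2) (h3.le.trans h2)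
    linarith
  have h0 : (F 0).det = 1 := by simp [hF, h.H0]
  have h1 : (F 1).det = (Y t).det := by simp [hF]
  by_contra hneg
  push Not at hneg
  have := intermediate_value_Icc' (zero_le_one' ℝ) hFc.continuousOn
    (show (0 : ℝ) ∈ Icc (F 1).det (F 0).det from ⟨h1 ▸ hneg, by rw [h0]; norm_num⟩)
  obtain ⟨r, hr, hr0⟩ := this
  exact hne r hr hr0

lemma const_of {W : ℝ → M3} (h : ∀ t, MD W 0 t) (s t : ℝ) : W s = W t := by
  ext i j
  exact is_const_of_deriv_eq_zero (f := fun r => W r i j)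
    (fun r => (h r i j).differentiableAt) (fun r => (h r i j).deriv) s t

/-- derivative of a Wronskian of two solutions -/
lemma wr_deriv {Y' H' : ℝ → M3} {t : ℝ} {k o : M3} (hk : kᵀ = k) (ho : oᵀ = -o)
    (hY : MD Y (H t - o * Y t) t) (hH : MD H (k * Y t - o * H t) t)
    (hY' : MD Y' (H' t - o * Y' t) t) (hH' : MD H' (k * Y' t - o * H' t) t) :
    MD (fun s => (Y s)ᵀ * H' s - (H s)ᵀ * Y' s) 0 t := by
  have h1 := (hY.transpose.mul hH').sub (hH.transpose.mul hY')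
  have e : (H t - o * Y t)ᵀ * H' t + (Y t)ᵀ * (k * Y' t - o * H' t) -
      ((k * Y t - o * H t)ᵀ * Y' t + (H t)ᵀ * (H' t - o * Y' t)) = 0 := by
    simp only [Matrix.transpose_sub, Matrix.transpose_mul, hk, ho]
    noncomm_ring
  rw [e] at h1
  exact h1

lemma wronski (h : DirSys K Om Y H) (t : ℝ) : (Y t)ᵀ * H t = (H t)ᵀ * Y t := by
  have h1 := const_of (W := fun s => (Y s)ᵀ * H s - (H s)ᵀ * Y s)
    (fun s => wr_deriv (h.Ks s) (h.Oa s) (h.dY s) (h.dH s) (h.dY s) (h.dH s)) t 0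
  simp only [h.Y0, Matrix.transpose_zero, Matrix.zero_mul, Matrix.mul_zero, sub_zero] at h1
  exact sub_eq_zero.1 h1

lemma one_low (h : DirSys K Om Y H) (w : Fin 3 → ℝ) :
    nsq w ≤ Real.exp 19 * nsq (Y 1 *ᵥ w) := by
  have h1 := B_low h w zero_le_one
  have h2 := (energy h w zero_le_one).2
  have h3 := OdeMul.cs (Y 1 *ᵥ w) (H 1 *ᵥ w)
  have h4 := OdeMul.nsq_nonneg (Y 1 *ᵥ w)
  have h5 := OdeMul.nsq_nonneg w
  simp only [mul_one] at h1 h2
  set A := nsq (Y 1 *ᵥ w)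
  set D := nsq (H 1 *ᵥ w)
  set B := (Y 1 *ᵥ w) ⬝ᵥ (H 1 *ᵥ w)
  set n := nsq w
  set e := Real.exp 6 with he
  have hepos : 0 < e := Real.exp_pos 6
  have e1 : Real.exp (-6) = e⁻¹ := Real.exp_neg 6
  have e2 : Real.exp 19 = Real.exp 1 * e ^ 3 := by
    rw [he, ← Real.exp_nat_mul, ← Real.exp_add]; norm_num
  have e3 : (2 : ℝ) ≤ Real.exp 1 := by linarith [Real.add_one_le_exp 1]
  rw [e1] at h1
  rcases h5.eq_or_lt with h0 | h0
  · rw [← h0]; positivity
  have h6 : 9 / 10 * n ≤ e * B := by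
    have := mul_le_mul_of_nonneg_left h1 hepos.le
    have e4 : e * (9 / 10 * e⁻¹ * n) = 9 / 10 * n := by field_simp
    linarith
  have h7 : (9 / 10 * n) ^ 2 ≤ (e * B) ^ 2 := pow_le_pow_left₀ (by positivity) h6 2
  have h8 : B ^ 2 ≤ A * (e * n) := h3.trans (mul_le_mul_of_nonneg_left (by linarith) h4)
  have h9 : 81 / 100 * n * n ≤ e ^ 3 * A * n := by
    have := mul_le_mul_of_nonneg_left h8 (sq_nonneg e)
    nlinarith
  have h10 : 81 / 100 * n ≤ e ^ 3 * A := le_of_mul_le_mul_right h9 h0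
  have h11 : 0 ≤ e ^ 3 * A := by positivity
  rw [e2]
  nlinarith

lemma U_deriv (h : DirSys K Om Y H) {t : ℝ} (ht : 0 < t) :
    MD (UU Y H) (K t - Om t * UU Y H t - UU Y H t * UU Y H t + UU Y H t * Om t) t := by
  have hd := (det_pos h ht).ne'
  have hH : MD H (K t * Y t - Om t * H t) t := h.dH t
  have h1 := hH.mul (inv_deriv (Y' := fun s => H s - Om s * Y s) (fun s => h.dY s) hd)
  have h2 : Y t * (Y t)⁻¹ = 1 := Matrix.mul_nonsing_inv _ (Ne.isUnit hd)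
  have e : (K t * Y t - Om t * H t) * (Y t)⁻¹ + H t * -((Y t)⁻¹ * (H t - Om t * Y t) * (Y t)⁻¹) =
      K t - Om t * UU Y H t - UU Y H t * UU Y H t + UU Y H t * Om t := by
    unfold UU
    calc _ = K t * (Y t * (Y t)⁻¹) - Om t * (H t * (Y t)⁻¹) - H t * (Y t)⁻¹ * (H t * (Y t)⁻¹) +
          H t * (Y t)⁻¹ * Om t * (Y t * (Y t)⁻¹) := by noncomm_ring
      _ = _ := by rw [h2]; simp
  rw [e] at h1
  exact h1

lemma U_symm (h : DirSys K Om Y H) {t : ℝ} (ht : 0 < t) : (UU Y H t)ᵀ = UU Y H t := by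
  have hd := (det_pos h ht).ne'
  have h2 : Y t * (Y t)⁻¹ = 1 := Matrix.mul_nonsing_inv _ (Ne.isUnit hd)
  have h3 : ((Y t)⁻¹)ᵀ * (Y t)ᵀ = 1 := by
    rw [← Matrix.transpose_mul, h2, Matrix.transpose_one]
  unfold UU
  rw [Matrix.transpose_mul]
  calc ((Y t)⁻¹)ᵀ * (H t)ᵀ = ((Y t)⁻¹)ᵀ * (H t)ᵀ * (Y t * (Y t)⁻¹) := by rw [h2, Matrix.mul_one]
    _ = ((Y t)⁻¹)ᵀ * ((H t)ᵀ * Y t) * (Y t)⁻¹ := by noncomm_ring
    _ = ((Y t)⁻¹)ᵀ * (Y t)ᵀ * (H t * (Y t)⁻¹) := by rw [← wronski h t]; noncomm_ring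
    _ = _ := by rw [h3, Matrix.one_mul]

lemma U_low (h : DirSys K Om Y H) {t : ℝ} (ht : 0 < t) (u : Fin 3 → ℝ) :
    9 / 10 * nsq u ≤ u ⬝ᵥ (UU Y H t *ᵥ u) := by
  have hd := (det_pos h ht).ne'
  have h1 := cone h ((Y t)⁻¹ *ᵥ u) ht.le
  rw [Matrix.mulVec_mulVec, Matrix.mulVec_mulVec, Matrix.mul_nonsing_inv _ (Ne.isUnit hd),
    Matrix.one_mulVec] at h1
  exact h1

lemma form_single (S : M3) (i : Fin 3) :
    (Pi.single i 1 : Fin 3 → ℝ) ⬝ᵥ (S *ᵥ Pi.single i 1) = S i i := by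
  simp

lemma U_diag (h : DirSys K Om Y H) {t : ℝ} (ht : 0 < t) (i : Fin 3) : 9 / 10 ≤ UU Y H t i i := by
  have := U_low h ht (Pi.single i 1)
  rwa [OdeMul.nsq_single, form_single, mul_one] at this

/-- the bound for the trace of the Riccati matrix -/
noncomputable def cX : ℝ := 6 * Real.exp 3

lemma cX_ge : 1 ≤ cX := by
  unfold cX
  linarith [Real.add_one_le_exp 3]

lemma trace_le (h : DirSys K Om Y H) {t : ℝ} (ht : 1 ≤ t) :
    UU Y H t 0 0 + UU Y H t 1 1 + UU Y H t 2 2 ≤ cX := by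
  set x : ℝ → ℝ := fun s => UU Y H s 0 0 + UU Y H s 1 1 + UU Y H s 2 2 with hx
  have hx0 : ∀ s, 0 < s → 27 / 10 ≤ x s := fun s hs => by
    linarith [U_diag h hs 0, U_diag h hs 1, U_diag h hs 2]
  have hd : ∀ s, 0 < s → ∃ d, HasDerivAt x d s ∧ d ≤ 15 - x s ^ 2 / 3 := by
    intro s hs
    have hU := U_deriv h hs
    refine ⟨_, ((hU 0 0).add (hU 1 1)).add (hU 2 2), ?_⟩
    have k0 := (h.pinch s (Pi.single 0 1)).2
    have k1 := (h.pinch s (Pi.single 1 1)).2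
    have k2 := (h.pinch s (Pi.single 2 1)).2
    rw [OdeMul.nsq_single, form_single] at k0 k1 k2
    have key : ∀ i j, UU Y H s j i = UU Y H s i j := fun i j =>
      congrFun (congrFun (U_symm h hs) i) j
    simp only [hx, Matrix.add_apply, Matrix.sub_apply, Matrix.mul_apply, Fin.sum_univ_three,
      key 0 1, key 0 2, key 1 2]
    obtain ⟨o1, o2, o3, o4, o5, o6⟩ := om_facts (h.Oa s)
    simp only [o1, o2, o3, o4, o5, o6]
    generalize UU Y H s = U
    nlinarith [sq_nonneg (U 0 0 - U 1 1), sq_nonneg (U 0 0 - U 2 2), sq_nonneg (U 1 1 - U 2 2),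
      sq_nonneg (U 0 1), sq_nonneg (U 0 2), sq_nonneg (U 1 2)]
  have h1 := mono (f := fun s => Real.exp (6 * s) * (x s)⁻¹) (a := t - 1 / 2) (b := t)
    (c := Real.exp (6 * (t - 1 / 2)) / 3) (by linarith) (fun s hs => by
      have hs0 : 0 < s := by linarith [hs.1]
      obtain ⟨d, hd1, hd2⟩ := hd s hs0
      have hxs := hx0 s hs0
      have hxp : 0 < x s := by linarith
      have h3 : HasDerivAt (fun r => Real.exp (6 * r)) (Real.exp (6 * s) * 6) s := by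
        simpa using ((hasDerivAt_id s).const_mul 6).exp
      refine ⟨_, h3.mul (hd1.inv hxp.ne'), ?_⟩
      have h4 : Real.exp (6 * (t - 1 / 2)) ≤ Real.exp (6 * s) :=
        Real.exp_le_exp.2 (by linarith [hs.1])
      have h5 : 1 / 3 ≤ 6 * (x s)⁻¹ + -d / x s ^ 2 := by
        have e : 6 * (x s)⁻¹ + -d / x s ^ 2 = (6 * x s - d) / x s ^ 2 := by field_simp; ring
        rw [e, le_div_iff₀ (by positivity)]
        linarith
      have h6 := mul_le_mul_of_nonneg_left h5 (Real.exp_pos (6 * s)).le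
      linarith)
  have ht0 : 0 < t := by linarith
  have hxt : 0 < x t := by linarith [hx0 t ht0]
  have h2 : 0 < Real.exp (6 * (t - 1 / 2)) * (x (t - 1 / 2))⁻¹ := by
    have : 0 < x (t - 1 / 2) := by linarith [hx0 (t - 1 / 2) (by linarith)]
    positivity
  have e : Real.exp (6 * t) = Real.exp (6 * (t - 1 / 2)) * Real.exp 3 := by
    rw [← Real.exp_add]; ring_nf
  have h3 : Real.exp (6 * (t - 1 / 2)) * (1 / 6) ≤
      Real.exp (6 * (t - 1 / 2)) * (Real.exp 3 * (x t)⁻¹) := by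
    rw [e] at h1
    linarith
  have h4 := le_of_mul_le_mul_left h3 (Real.exp_pos _)
  rw [← div_eq_mul_inv, le_div_iff₀ hxt] at h4
  show x t ≤ cX
  unfold cX
  linarith

lemma U_entry (h : DirSys K Om Y H) {t : ℝ} (ht : 1 ≤ t) (i j : Fin 3) : |UU Y H t i j| ≤ cX := by
  have ht0 : 0 < t := by linarith
  have h1 := trace_le h ht
  have h2 := U_low h ht0 (Pi.single i 1 + Pi.single j 1)
  have h3 := U_low h ht0 (Pi.single i 1 - Pi.single j 1)
  have h4 := OdeMul.nsq_nonneg (Pi.single i 1 + Pi.single j 1)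
  have h5 := OdeMul.nsq_nonneg (Pi.single i 1 - Pi.single j 1)
  have key : UU Y H t j i = UU Y H t i j := congrFun (congrFun (U_symm h ht0) i) j
  have hdiag : ∀ k, UU Y H t k k ≤ cX := by
    intro k
    have d0 := U_diag h ht0 0
    have d1 := U_diag h ht0 1
    have d2 := U_diag h ht0 2
    have e0 : UU Y H t 0 0 ≤ cX := by linarith
    have e1 : UU Y H t 1 1 ≤ cX := by linarith
    have e2 : UU Y H t 2 2 ≤ cX := by linarith
    fin_cases k
    exacts [e0, e1, e2]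
  simp only [Matrix.mulVec_add, Matrix.mulVec_sub, dotProduct_add, dotProduct_sub, add_dotProduct,
    sub_dotProduct, Matrix.mulVec_single_one, single_dotProduct, one_mul, Matrix.col_apply,
    key] at h2 h3
  have hi := hdiag i
  have hj := hdiag j
  rw [abs_le]
  constructor <;> linarith

lemma fro_le_of_entry {A : M3} {x : ℝ} (hx : 0 ≤ x) (h : ∀ i j, |A i j| ≤ x) : fro A ≤ 3 * x := by
  refine (sq_le_sq₀ (OdeMul.fro_nonneg _) (by positivity)).1 ?_
  rw [OdeMul.fro_sq]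
  have q : ∀ i j, A i j ^ 2 ≤ x ^ 2 := fun i j => sq_le_sq' (abs_le.1 (h i j)).1
    (abs_le.1 (h i j)).2
  simp only [Fin.sum_univ_three]
  linarith [q 0 0, q 0 1, q 0 2, q 1 0, q 1 1, q 1 2, q 2 0, q 2 1, q 2 2]

lemma entry_le_fro (A : M3) (i j : Fin 3) : |A i j| ≤ fro A := by
  refine abs_le_of_sq_le_sq' ?_ (OdeMul.fro_nonneg A) |> abs_le.2
  rw [OdeMul.fro_sq]
  exact (Finset.single_le_sum (f := fun j => A i j ^ 2) (fun _ _ => sq_nonneg _)
    (Finset.mem_univ j)).trans (Finset.single_le_sum (f := fun i => ∑ j, A i j ^ 2)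
      (fun _ _ => Finset.sum_nonneg fun _ _ => sq_nonneg _) (Finset.mem_univ i))

lemma nsq_mulVec_le (A : M3) (u : Fin 3 → ℝ) : nsq (A *ᵥ u) ≤ fro A ^ 2 * nsq u := by
  rw [OdeMul.fro_sq]
  have h0 := OdeMul.cs (A 0) u
  have h1 := OdeMul.cs (A 1) u
  have h2 := OdeMul.cs (A 2) u
  have e : nsq (A *ᵥ u) = (A 0 ⬝ᵥ u) ^ 2 + (A 1 ⬝ᵥ u) ^ 2 + (A 2 ⬝ᵥ u) ^ 2 := rfl
  have e2 : ∑ i, ∑ j, A i j ^ 2 = nsq (A 0) + nsq (A 1) + nsq (A 2) := by
    simp only [Fin.sum_univ_three, nsq]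
  rw [e, e2]
  linarith

lemma H_le (h : DirSys K Om Y H) {t : ℝ} (ht : 1 ≤ t) (w : Fin 3 → ℝ) :
    nsq (H t *ᵥ w) ≤ 9 * cX ^ 2 * nsq (Y t *ᵥ w) := by
  have hd := (det_pos h (show 0 < t by linarith)).ne'
  rw [← UU_mul (H := H) hd, ← Matrix.mulVec_mulVec]
  refine (nsq_mulVec_le _ _).trans (mul_le_mul_of_nonneg_right ?_ (OdeMul.nsq_nonneg _))
  have h1 := fro_le_of_entry (by linarith [cX_ge]) (U_entry h ht)
  have := pow_le_pow_left₀ (OdeMul.fro_nonneg _) h1 2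
  linarith

lemma logdet_deriv (h : DirSys K Om Y H) {t : ℝ} (ht : 0 < t) :
    HasDerivAt (fun s => Real.log (Y s).det)
      (UU Y H t 0 0 + UU Y H t 1 1 + UU Y H t 2 2) t := by
  have hd := (det_pos h ht).ne'
  have hY : MD Y ((UU Y H t - Om t) * Y t) t := by
    rw [Matrix.sub_mul, UU_mul hd]
    exact h.dY t
  refine (hY.det.log hd).congr_deriv ?_
  obtain ⟨o1, o2, o3, -⟩ := om_facts (h.Oa t)
  simp only [Matrix.sub_apply, o1, o2, o3, sub_zero]
  field_simp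

lemma abs_sub_le_of {f : ℝ → ℝ} {a b c : ℝ} (hab : a ≤ b)
    (h : ∀ t ∈ Icc a b, ∃ d, HasDerivAt f d t ∧ |d| ≤ c) : |f b - f a| ≤ c * (b - a) := by
  have h1 := mono (f := f) (c := -c) hab (fun t ht => by
    obtain ⟨d, h1, h2⟩ := h t ht
    exact ⟨d, h1, (abs_le.1 h2).1⟩)
  have h2 := anti (f := f) (c := c) hab (fun t ht => by
    obtain ⟨d, h1, h2⟩ := h t ht
    exact ⟨d, h1, (abs_le.1 h2).2⟩)
  rw [abs_le]
  constructor <;> linarith

lemma log_det_ge {A : M3} {b : ℝ} (hd : 0 < A.det)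
    (h : ∀ u, nsq u ≤ Real.exp b * nsq (A *ᵥ u)) : -(3 / 2 * b + 5) ≤ Real.log A.det := by
  have h1 : A⁻¹.det = A.det⁻¹ := by rw [Matrix.det_nonsing_inv, Ring.inverse_eq_inv']
  have h2 := OdeMul.log_det_le (A := A⁻¹) (b := b) (by rw [h1]; positivity) (fun u => by
    have := h (A⁻¹ *ᵥ u)
    rwa [Matrix.mulVec_mulVec, Matrix.mul_nonsing_inv _ (Ne.isUnit hd.ne'),
      Matrix.one_mulVec] at this)
  rw [h1, Real.log_inv] at h2
  linarith

end OdeD

end Pool.Agent.MP_019006_gt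

end

section

set_option autoImplicit false

open MeasureTheory Filter Topology Set Matrix

namespace Pool.Agent.MP_019006_gt

namespace OdeD

open OdeC (MD mono anti om_facts UU UU_mul inv_deriv abs_mul_le')

variable {K Om Y H : ℝ → M3}

/-- a solution of the Riccati equation at a point, with the bounds that are used -/
structure Ric (U : ℝ → M3) (k o : M3) (t : ℝ) : Prop where
  der : MD U (k - o * U t - U t * U t + U t * o) t
  skew : oᵀ = -o
  low : ∀ u, 9 / 10 * nsq u ≤ u ⬝ᵥ (U t *ᵥ u)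
  ent : ∀ i j, |U t i j| ≤ cX

lemma ric (h : DirSys K Om Y H) {t : ℝ} (ht : 1 ≤ t) : Ric (UU Y H) (K t) (Om t) t :=
  ⟨U_deriv h (by linarith), h.Oa t, U_low h (by linarith), U_entry h ht⟩

lemma Ric.shift {U : ℝ → M3} {k o : M3} {s t : ℝ} (h : Ric U k o (s + t)) :
    Ric (fun r => U (s + r)) k o t :=
  ⟨OdeMul.HD.shift (F := U) h.der, h.skew, h.low, h.ent⟩

/-- the Frobenius pairing -/
def pr (A B : M3) : ℝ := ∑ i, ∑ j, A i j * B i j

lemma pr_left (W U : M3) : pr W (U * W) =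
    W.col 0 ⬝ᵥ (U *ᵥ W.col 0) + W.col 1 ⬝ᵥ (U *ᵥ W.col 1) + W.col 2 ⬝ᵥ (U *ᵥ W.col 2) := by
  simp only [pr, Matrix.mul_apply, dotProduct, Matrix.mulVec, Fin.sum_univ_three, Matrix.col_apply]
  ring

lemma pr_right (W U : M3) : pr W (W * U) =
    W 0 ⬝ᵥ (U *ᵥ W 0) + W 1 ⬝ᵥ (U *ᵥ W 1) + W 2 ⬝ᵥ (U *ᵥ W 2) := by
  simp only [pr, Matrix.mul_apply, dotProduct, Matrix.mulVec, Fin.sum_univ_three]
  ring

lemma fro_cols (W : M3) : fro W ^ 2 = nsq (W.col 0) + nsq (W.col 1) + nsq (W.col 2) := by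
  rw [OdeMul.fro_sq]
  simp only [nsq, Fin.sum_univ_three, Matrix.col_apply]
  ring

lemma fro_rows (W : M3) : fro W ^ 2 = nsq (W 0) + nsq (W 1) + nsq (W 2) := by
  rw [OdeMul.fro_sq]
  simp only [nsq, Fin.sum_univ_three]

lemma pr_small (W R : M3) {x : ℝ} (h : ∀ i j, |R i j| ≤ x) :
    2 * pr W R ≤ 8 / 5 * fro W ^ 2 + 6 * x ^ 2 := by
  have q : ∀ i j, 2 * (W i j * R i j) ≤ 8 / 5 * W i j ^ 2 + 5 / 8 * x ^ 2 := fun i j => by
    have := sq_le_sq' (abs_le.1 (h i j)).1 (abs_le.1 (h i j)).2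
    nlinarith [sq_nonneg (8 / 5 * W i j - R i j)]
  rw [OdeMul.fro_sq]
  simp only [pr, Fin.sum_univ_three]
  nlinarith [q 0 0, q 0 1, q 0 2, q 1 0, q 1 1, q 1 2, q 2 0, q 2 1, q 2 2, sq_nonneg x]

lemma mul_entry {A B : M3} {a b : ℝ} (hA : ∀ i j, |A i j| ≤ a) (hB : ∀ i j, |B i j| ≤ b)
    (i j : Fin 3) : |(A * B) i j| ≤ 3 * (a * b) := by
  have q : ∀ k, |A i k * B k j| ≤ a * b := fun k => abs_mul_le' (hA i k) (hB k j)
  rw [Matrix.mul_apply, Fin.sum_univ_three, abs_le]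
  constructor <;> linarith [abs_le.1 (q 0), abs_le.1 (q 1), abs_le.1 (q 2)]

lemma W_deriv {U U' : ℝ → M3} {k o k' o' : M3} {t δ : ℝ} (h : Ric U k o t) (h' : Ric U' k' o' t)
    (hd : ∀ i j, |k i j - k' i j| ≤ δ ∧ |o i j - o' i j| ≤ δ) :
    ∃ d, HasDerivAt (fun s => fro (U s - U' s) ^ 2) d t ∧
      d ≤ -2 * fro (U t - U' t) ^ 2 + 6 * ((1 + 6 * cX) * δ) ^ 2 := by
  have h1 := h.der.sub h'.der
  set W := U t - U' t with hW
  set R := k - k' - (o - o') * U' t + U' t * (o - o') with hR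
  have e : k - o * U t - U t * U t + U t * o - (k' - o' * U' t - U' t * U' t + U' t * o') =
      R - o * W - U t * W - W * U' t + W * o := by
    rw [hR, hW]
    noncomm_ring
  rw [e] at h1
  have h2 : HasDerivAt (fun s => fro (U s - U' s) ^ 2)
      (2 * pr W (R - o * W - U t * W - W * U' t + W * o)) t := by
    simp only [OdeMul.fro_sq, pr, Finset.mul_sum]
    refine HasDerivAt.fun_sum fun i _ => HasDerivAt.fun_sum fun j _ => ?_
    refine ((h1 i j).fun_pow 2).congr_deriv ?_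
    simp only [hW]
    ring
  refine ⟨_, h2, ?_⟩
  have e2 : pr W (R - o * W - U t * W - W * U' t + W * o) =
      pr W R - pr W (o * W) - pr W (U t * W) - pr W (W * U' t) + pr W (W * o) := by
    simp only [pr, Fin.sum_univ_three, Matrix.add_apply, Matrix.sub_apply]
    ring
  have hR' : ∀ i j, |R i j| ≤ (1 + 6 * cX) * δ := by
    intro i j
    have a1 := abs_le.1 (hd i j).1
    have a2 := abs_le.1 (mul_entry (A := o - o') (fun i j => (hd i j).2) h'.ent i j)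
    have a3 := abs_le.1 (mul_entry (B := o - o') h'.ent (fun i j => (hd i j).2) i j)
    rw [hR, Matrix.add_apply, Matrix.sub_apply, Matrix.sub_apply, abs_le]
    constructor <;> linarith [a1.1, a1.2, a2.1, a2.2, a3.1, a3.2]
  have a1 := pr_small W R hR'
  have a2 : pr W (o * W) = 0 := by
    rw [pr_left]
    linarith [om_dot h.skew (W.col 0) (W.col 0), om_dot h.skew (W.col 1) (W.col 1),
      om_dot h.skew (W.col 2) (W.col 2)]
  have a3 : pr W (W * o) = 0 := by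
    rw [pr_right]
    linarith [om_dot h.skew (W 0) (W 0), om_dot h.skew (W 1) (W 1), om_dot h.skew (W 2) (W 2)]
  have a4 : 9 / 10 * fro W ^ 2 ≤ pr W (U t * W) := by
    rw [pr_left, fro_cols]
    linarith [h.low (W.col 0), h.low (W.col 1), h.low (W.col 2)]
  have a5 : 9 / 10 * fro W ^ 2 ≤ pr W (W * U' t) := by
    rw [pr_right, fro_rows]
    linarith [h'.low (W 0), h'.low (W 1), h'.low (W 2)]
  rw [e2]
  linarith

lemma W_flow {U U' k o k' o' : ℝ → M3} {a b δ : ℝ} (hab : a ≤ b) (hδ : 0 ≤ δ)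
    (h : ∀ t ∈ Icc a b, Ric U (k t) (o t) t) (h' : ∀ t ∈ Icc a b, Ric U' (k' t) (o' t) t)
    (hd : ∀ t ∈ Icc a b, ∀ i j, |k t i j - k' t i j| ≤ δ ∧ |o t i j - o' t i j| ≤ δ) :
    fro (U b - U' b) ≤ Real.exp (a - b) * fro (U a - U' a) + 2 * ((1 + 6 * cX) * δ) := by
  set ρ := (1 + 6 * cX) * δ with hρ
  have hρ0 : 0 ≤ ρ := mul_nonneg (by linarith [cX_ge]) hδ
  have h1 := le_exp (f := fun s => fro (U s - U' s) ^ 2 - 3 * ρ ^ 2) (c := -2) hab (fun t ht => by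
    obtain ⟨d, h1, h2⟩ := W_deriv (h t ht) (h' t ht) (hd t ht)
    exact ⟨d, h1.sub_const _, by linarith⟩)
  have e : Real.exp (-2 * (b - a)) = Real.exp (a - b) ^ 2 := by
    rw [← Real.exp_nat_mul]; congr 1; push_cast; ring
  rw [e] at h1
  have h2 := Real.exp_pos (a - b)
  have h3 := OdeMul.fro_nonneg (U a - U' a)
  refine (sq_le_sq₀ (OdeMul.fro_nonneg _) (by positivity)).1 ?_
  have h4 : 0 ≤ Real.exp (a - b) * fro (U a - U' a) * ρ := by positivity
  have h5 : 0 ≤ Real.exp (a - b) ^ 2 * ρ ^ 2 := by positivity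
  nlinarith [sq_nonneg ρ]

lemma trace_diff (A B : M3) :
    |A 0 0 + A 1 1 + A 2 2 - (B 0 0 + B 1 1 + B 2 2)| ≤ 3 * fro (A - B) := by
  have h0 := abs_le.1 (entry_le_fro (A - B) 0 0)
  have h1 := abs_le.1 (entry_le_fro (A - B) 1 1)
  have h2 := abs_le.1 (entry_le_fro (A - B) 2 2)
  simp only [Matrix.sub_apply] at h0 h1 h2
  rw [abs_le]
  constructor <;> linarith [h0.1, h0.2, h1.1, h1.2, h2.1, h2.2]

lemma logdet_lip (h : DirSys K Om Y H) {s t : ℝ} (hs : 1 ≤ s) (hst : s ≤ t) :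
    |Real.log (Y t).det - Real.log (Y s).det| ≤ cX * (t - s) :=
  abs_sub_le_of (f := fun r => Real.log (Y r).det) hst (fun r hr => by
    have hr1 : 1 ≤ r := hs.trans hr.1
    have hr0 : 0 < r := by linarith
    refine ⟨_, logdet_deriv h hr0, ?_⟩
    rw [abs_le]
    constructor
    · linarith [U_diag h hr0 0, U_diag h hr0 1, U_diag h hr0 2, cX_ge]
    · exact trace_le h hr1)

lemma logdet_one (h : DirSys K Om Y H) : |Real.log (Y 1).det| ≤ 34 := by
  have hd := det_pos h one_pos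
  have h1 := log_det_ge hd (one_low h)
  have h2 := OdeMul.log_det_le (b := 6) hd (fun u => by
    have := (energy h u zero_le_one).2
    rw [mul_one] at this
    linarith [OdeMul.nsq_nonneg (H 1 *ᵥ u)])
  rw [abs_le]
  constructor <;> linarith

lemma big (h : DirSys K Om Y H) {t : ℝ} (ht : 1 ≤ t) (w : Fin 3 → ℝ) :
    Real.exp t * nsq w ≤ Real.exp 20 * nsq (Y t *ᵥ w) := by
  have h1 := one_low h w
  have h2 := grow h w zero_le_one ht
  have e : Real.exp t * Real.exp 19 = Real.exp 20 * Real.exp (t - 1) := by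
    rw [← Real.exp_add, ← Real.exp_add]; congr 1; ring
  calc Real.exp t * nsq w ≤ Real.exp t * (Real.exp 19 * nsq (Y 1 *ᵥ w)) :=
        mul_le_mul_of_nonneg_left h1 (Real.exp_pos _).le
    _ = Real.exp 20 * (Real.exp (t - 1) * nsq (Y 1 *ᵥ w)) := by
        rw [← mul_assoc, e, mul_assoc]
    _ ≤ _ := mul_le_mul_of_nonneg_left h2 (Real.exp_pos _).le

end OdeD

open OdeD in
theorem dir_basic : ∃ C : ℝ, 1 ≤ C ∧ ∀ K Om Y H : ℝ → M3, DirSys K Om Y H →
    (∀ t, 0 < t → 0 < (Y t).det) ∧ (∀ t, (Y t)ᵀ * H t = (H t)ᵀ * Y t) ∧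
    (∀ t w, 1 ≤ t → Real.exp t * nsq w ≤ C * nsq (Y t *ᵥ w)) ∧
    (∀ s t w, 0 ≤ s → s ≤ t → 1 ≤ t →
      nsq (Y s *ᵥ w) + nsq (H s *ᵥ w) ≤ C * Real.exp (s - t) * nsq (Y t *ᵥ w)) ∧
    (∀ t, 1 ≤ t → fro (H t * (Y t)⁻¹) ≤ C) ∧
    |Real.log (Y 1).det| ≤ C ∧
    ∀ s t, 1 ≤ s → 1 ≤ t → |Real.log (Y t).det - Real.log (Y s).det| ≤ C * |t - s| := by
  have c1 := cX_ge
  have c2 : cX ≤ cX ^ 2 := by nlinarith
  have c3 := Real.exp_pos 26
  have c4 : Real.exp 20 ≤ Real.exp 26 := Real.exp_le_exp.2 (by norm_num)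
  refine ⟨Real.exp 26 + 9 * cX ^ 2 + 40, by linarith, fun K Om Y H h => ⟨fun t ht => det_pos h ht,
    wronski h, fun t w ht => ?_, fun s t w hs hst ht => ?_, fun t ht => ?_, ?_,
    fun s t hs ht => ?_⟩⟩
  · exact (big h ht w).trans (mul_le_mul_of_nonneg_right (by linarith) (OdeMul.nsq_nonneg _))
  · have hA := OdeMul.nsq_nonneg (Y t *ᵥ w)
    have hE := Real.exp_pos (s - t)
    have hEA : 0 ≤ Real.exp (s - t) * nsq (Y t *ᵥ w) := by positivity
    rw [mul_assoc]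
    rcases le_total 1 s with h1 | h1
    · have h2 := H_le h h1 w
      have h3 := mul_le_mul_of_nonneg_left (grow h w hs hst) hE.le
      rw [← mul_assoc, ← Real.exp_add, sub_add_sub_cancel, sub_self, Real.exp_zero, one_mul] at h3
      have h4 := mul_le_mul_of_nonneg_left h3 (show 0 ≤ 1 + 9 * cX ^ 2 by positivity)
      have h5 := mul_le_mul_of_nonneg_right
        (show 1 + 9 * cX ^ 2 ≤ Real.exp 26 + 9 * cX ^ 2 + 40 by linarith) hEA
      linarith
    · have h2 := (energy h w hs).2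
      have h3 := mul_le_mul_of_nonneg_left (big h ht w) (Real.exp_pos (6 + s - t)).le
      have h4 : Real.exp (6 * s) ≤ Real.exp (6 + s - t) * Real.exp t := by
        rw [← Real.exp_add]
        exact Real.exp_le_exp.2 (by linarith)
      have h5 := mul_le_mul_of_nonneg_right h4 (OdeMul.nsq_nonneg w)
      have h6 : Real.exp (6 + s - t) * Real.exp 20 = Real.exp 26 * Real.exp (s - t) := by
        rw [← Real.exp_add, ← Real.exp_add]; congr 1; ring
      rw [← mul_assoc, ← mul_assoc, h6, mul_assoc (Real.exp 26)] at h3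
      have h7 := mul_le_mul_of_nonneg_right
        (show Real.exp 26 ≤ Real.exp 26 + 9 * cX ^ 2 + 40 by linarith) hEA
      linarith
  · have := fro_le_of_entry (by linarith) (U_entry h ht)
    show fro (OdeC.UU Y H t) ≤ _
    linarith
  · linarith [logdet_one h]
  · have hc : cX ≤ Real.exp 26 + 9 * cX ^ 2 + 40 := by linarith
    rcases le_total s t with h1 | h1
    · rw [abs_of_nonneg (sub_nonneg.2 h1)]
      exact (logdet_lip h hs h1).trans (mul_le_mul_of_nonneg_right hc (sub_nonneg.2 h1))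
    · rw [abs_sub_comm, abs_sub_comm t, abs_of_nonneg (sub_nonneg.2 h1)]
      exact (logdet_lip h ht h1).trans (mul_le_mul_of_nonneg_right hc (sub_nonneg.2 h1))

open OdeD in
theorem dir_glue : ∃ C : ℝ, ∀ (K Om Y H Y' H' : ℝ → M3) (s t : ℝ), DirSys K Om Y H →
    DirSys (fun r => K (s + r)) (fun r => Om (s + r)) Y' H' → 1 ≤ s → 1 ≤ t →
    |Real.log (Y (s + t)).det - Real.log (Y s).det - Real.log (Y' t).det| ≤ C := by
  refine ⟨19 * cX + 34, fun K Om Y H Y' H' s t h h' hs ht => ?_⟩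
  have c1 := cX_ge
  have hW : ∀ r, 1 ≤ r →
      fro (OdeC.UU Y H (s + r) - OdeC.UU Y' H' r) ≤ Real.exp (1 - r) * (6 * cX) := by
    intro r hr
    have h1 := W_flow (U := fun x => OdeC.UU Y H (s + x)) (U' := OdeC.UU Y' H')
      (k := fun x => K (s + x)) (o := fun x => Om (s + x)) (k' := fun x => K (s + x))
      (o' := fun x => Om (s + x)) (δ := 0) hr le_rfl
      (fun x hx => (ric h (by linarith [hx.1])).shift) (fun x hx => ric h' hx.1)
      (fun x _ i j => by simp)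
    have h2 := fro_le_of_entry (A := OdeC.UU Y H (s + 1) - OdeC.UU Y' H' 1) (x := 2 * cX)
      (by linarith) (fun i j => by
        have a1 := abs_le.1 (U_entry h (show 1 ≤ s + 1 by linarith) i j)
        have a2 := abs_le.1 (U_entry h' le_rfl i j)
        rw [Matrix.sub_apply, abs_le]
        constructor <;> linarith [a1.1, a1.2, a2.1, a2.2])
    have h3 := mul_le_mul_of_nonneg_left h2 (Real.exp_pos (1 - r)).le
    simp only [mul_zero, add_zero] at h1
    linarith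
  have hd : ∀ r, 1 ≤ r → ∃ d,
      HasDerivAt (fun x => Real.log (Y (s + x)).det - Real.log (Y' x).det) d r ∧
        |d| ≤ 18 * cX * Real.exp (1 - r) := by
    intro r hr
    refine ⟨_, ((logdet_deriv h (show 0 < s + r by linarith)).comp_const_add s r).sub
      (logdet_deriv h' (show 0 < r by linarith)), ?_⟩
    refine (trace_diff _ _).trans ?_
    linarith [hW r hr]
  have hE : ∀ r : ℝ, HasDerivAt (fun x => 18 * cX * Real.exp (1 - x))
      (-(18 * cX * Real.exp (1 - r))) r := by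
    intro r
    have := (((hasDerivAt_id r).const_sub 1).exp).const_mul (18 * cX)
    simpa using this
  have h1 := OdeC.mono (f := fun x => Real.log (Y (s + x)).det - Real.log (Y' x).det -
    18 * cX * Real.exp (1 - x)) (c := 0) ht (fun r hr => by
      obtain ⟨d, a1, a2⟩ := hd r hr.1
      exact ⟨_, a1.sub (hE r), by linarith [(abs_le.1 a2).1]⟩)
  have h2 := OdeC.anti (f := fun x => Real.log (Y (s + x)).det - Real.log (Y' x).det +
    18 * cX * Real.exp (1 - x)) (c := 0) ht (fun r hr => by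
      obtain ⟨d, a1, a2⟩ := hd r hr.1
      exact ⟨_, a1.add (hE r), by linarith [(abs_le.1 a2).2]⟩)
  simp only [sub_self, Real.exp_zero, mul_one, zero_mul] at h1 h2
  have h3 : 0 ≤ 18 * cX * Real.exp (1 - t) := by positivity
  have h4 := abs_le.1 (logdet_lip h hs (show s ≤ s + 1 by linarith))
  have h5 := abs_le.1 (logdet_one h')
  rw [abs_le]
  constructor <;> linarith [h4.1, h4.2, h5.1, h5.2]

open OdeD in
theorem dir_compare : ∃ C : ℝ, 0 ≤ C ∧ ∀ (K Om Y H K' Om' Y' H' : ℝ → M3) (s δ : ℝ),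
    DirSys K Om Y H → DirSys K' Om' Y' H' → 1 ≤ s →
    (∀ t ∈ Icc s (s + 1), ∀ i j, |K t i j - K' t i j| ≤ δ ∧ |Om t i j - Om' t i j| ≤ δ) →
    fro (H (s + 1) * (Y (s + 1))⁻¹ - H' (s + 1) * (Y' (s + 1))⁻¹) ≤
      1 / 2 * fro (H s * (Y s)⁻¹ - H' s * (Y' s)⁻¹) + C * δ ∧
    |Real.log (Y (s + 1)).det - Real.log (Y s).det -
      (Real.log (Y' (s + 1)).det - Real.log (Y' s).det)| ≤
      C * (fro (H s * (Y s)⁻¹ - H' s * (Y' s)⁻¹) + δ) := by
  have c1 := cX_ge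
  refine ⟨6 * (1 + 6 * cX), by linarith, fun K Om Y H K' Om' Y' H' s δ h h' hs hd => ?_⟩
  have hδ : 0 ≤ δ := (abs_nonneg _).trans (hd s ⟨le_rfl, by linarith⟩ 0 0).1
  have hρ : 0 ≤ (1 + 6 * cX) * δ := mul_nonneg (by linarith) hδ
  have hW : ∀ r ∈ Icc s (s + 1), fro (OdeC.UU Y H r - OdeC.UU Y' H' r) ≤
      Real.exp (s - r) * fro (OdeC.UU Y H s - OdeC.UU Y' H' s) + 2 * ((1 + 6 * cX) * δ) :=
    fun r hr => W_flow hr.1 hδ (fun x hx => ric h (hs.trans hx.1))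
      (fun x hx => ric h' (hs.trans hx.1)) (fun x hx => hd x ⟨hx.1, hx.2.trans hr.2⟩)
  have h0 := OdeMul.fro_nonneg (OdeC.UU Y H s - OdeC.UU Y' H' s)
  constructor
  · have h1 := hW (s + 1) ⟨by linarith, le_rfl⟩
    have h2 : Real.exp (s - (s + 1)) ≤ 1 / 2 := by
      rw [show s - (s + 1) = -1 by ring, Real.exp_neg, one_div]
      exact inv_anti₀ (by norm_num) (by linarith [Real.add_one_le_exp 1])
    have h3 := mul_le_mul_of_nonneg_right h2 h0
    show fro (OdeC.UU Y H (s + 1) - OdeC.UU Y' H' (s + 1)) ≤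
      1 / 2 * fro (OdeC.UU Y H s - OdeC.UU Y' H' s) + _
    linarith
  · have h1 := abs_sub_le_of (f := fun r => Real.log (Y r).det - Real.log (Y' r).det)
      (c := 3 * (fro (OdeC.UU Y H s - OdeC.UU Y' H' s) + 2 * ((1 + 6 * cX) * δ)))
      (show s ≤ s + 1 by linarith) (fun r hr => by
        have hr0 : 0 < r := by linarith [hr.1]
        refine ⟨_, (logdet_deriv h hr0).sub (logdet_deriv h' hr0), (trace_diff _ _).trans ?_⟩
        have a1 := hW r hr
        have a2 : Real.exp (s - r) ≤ 1 := Real.exp_le_one_iff.2 (by linarith [hr.1])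
        have a3 := mul_le_mul_of_nonneg_right a2 h0
        linarith)
    have h2 := mul_nonneg (show 0 ≤ cX by linarith) h0
    show _ ≤ 6 * (1 + 6 * cX) * (fro (OdeC.UU Y H s - OdeC.UU Y' H' s) + δ)
    have h3 := abs_le.1 h1
    rw [abs_le]
    constructor <;> linarith [h3.1, h3.2]

end Pool.Agent.MP_019006_gt

end
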