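import Pool.Agent.Mg.F019006.G29ea9e

section

set_option autoImplicit false

open MeasureTheory Filter Topology Set Matrix

namespace Pool.Agent.MP_019006_gt

theorem isOpen_Bl : IsOpen Bl := Metric.isOpen_ball

theorem isOpen_OO : IsOpen OO := isOpen_Bl.prod isOpen_univ

theorem mem_OO {p : EE × EE} : p ∈ OO ↔ p.1 ∈ Bl := by simp [OO]

theorem mem_Bl {x : EE} : x ∈ Bl ↔ ‖x‖ < 1 := by simp [Bl]

theorem Dd_pos {x : EE} (hx : x ∈ Bl) : 0 < Dd x := by
  have := mem_Bl.1 hx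
  have h0 := norm_nonneg x
  unfold Dd
  nlinarith

theorem Dd_le_one (x : EE) : Dd x ≤ 1 := by
  unfold Dd
  nlinarith [sq_nonneg ‖x‖]

theorem ip_conj (u w : EE) : (starRingEnd ℂ) (ip u w) = ip w u := inner_conj_symm _ _

theorem ip_self (u : EE) : ip u u = ((‖u‖ ^ 2 : ℝ) : ℂ) := by
  rw [ip, inner_self_eq_norm_sq_to_K]
  simp

theorem ip_coord (u w : EE) :
    ip u w = u 0 * (starRingEnd ℂ) (w 0) + u 1 * (starRingEnd ℂ) (w 1) := by
  simp [ip, PiLp.inner_apply, Fin.sum_univ_two]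

theorem ip_re (u w : EE) : (ip u w).re = inner ℝ u w := by
  rw [ip_coord]
  simp only [PiLp.inner_apply, Fin.sum_univ_two, Complex.inner, Complex.add_re, Complex.mul_re,
    Complex.conj_re, Complex.conj_im]
  ring

theorem norm_ip_le (u w : EE) : ‖ip u w‖ ≤ ‖u‖ * ‖w‖ := by
  rw [ip, mul_comm]
  exact norm_inner_le_norm _ _

theorem hh_conj (x u w : EE) : (starRingEnd ℂ) (hh x u w) = hh x w u := by
  simp only [hh, map_add, map_div₀, map_mul, map_pow, ip_conj, Complex.conj_ofReal]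
  ring

theorem g0_symm (x u w : EE) : g0 x u w = g0 x w u := by
  rw [g0, g0, ← hh_conj x u w, Complex.conj_re]

theorem gg_symm (f : EE → ℝ) (x u w : EE) : gg f x u w = gg f x w u := by
  rw [gg_apply, gg_apply, g0_symm]

theorem Metric1.hh_self' (x u : EE) :
    hh x u u = ((‖u‖ ^ 2 / Dd x + ‖ip u x‖ ^ 2 / Dd x ^ 2 : ℝ) : ℂ) := by
  rw [hh, ip_self, ← ip_conj u x, Complex.mul_conj, Complex.normSq_eq_norm_sq]
  push_cast
  ring

theorem g0_self (x u : EE) : g0 x u u = ‖u‖ ^ 2 / Dd x + ‖ip u x‖ ^ 2 / Dd x ^ 2 := by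
  rw [g0, Metric1.hh_self', Complex.ofReal_re]

theorem hh_self (x u : EE) : hh x u u = (g0 x u u : ℂ) := by
  rw [g0_self, Metric1.hh_self']

theorem g0_bounds {x : EE} (hx : x ∈ Bl) (u : EE) :
    ‖u‖ ^ 2 ≤ g0 x u u ∧ ‖u‖ ^ 2 / Dd x ≤ g0 x u u ∧ g0 x u u ≤ ‖u‖ ^ 2 / Dd x ^ 2 := by
  have hD := Dd_pos hx
  have hD1 := Dd_le_one x
  have h1 : ‖u‖ ^ 2 / Dd x ≤ g0 x u u := by
    rw [g0_self]
    exact le_add_of_nonneg_right (by positivity)
  refine ⟨le_trans ?_ h1, h1, ?_⟩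
  · rw [le_div_iff₀ hD]
    nlinarith [sq_nonneg ‖u‖]
  · rw [g0_self]
    have h2 : ‖ip u x‖ ^ 2 ≤ (‖u‖ * ‖x‖) ^ 2 := by gcongr; exact norm_ip_le u x
    have h3 : ‖u‖ ^ 2 / Dd x + (‖u‖ * ‖x‖) ^ 2 / Dd x ^ 2 = ‖u‖ ^ 2 / Dd x ^ 2 := by
      field_simp
      unfold Dd
      ring
    rw [← h3]
    gcongr

theorem g0_I_I (x u w : EE) : g0 x (Complex.I • u) (Complex.I • w) = g0 x u w := by
  rw [g0, g0, hh_smul_left, hh_smul_right, Complex.conj_I, ← mul_assoc]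
  simp

theorem g0_I_self (x u : EE) : g0 x (Complex.I • u) u = 0 := by
  rw [g0, hh_smul_left, hh_self]
  simp

theorem fderiv_eq_re_ip (f : EE → ℝ) (x w : EE) :
    fderiv ℝ f x w = (ip (gradient f x) w).re := by
  rw [ip_re, gradient, InnerProductSpace.toDual_symm_apply]

theorem Metric1.ip_xx (x : EE) : ip x x = 1 - (Dd x : ℂ) := by
  rw [ip_self, Dd]
  push_cast
  ring

theorem hh_NN (f : EE → ℝ) {x : EE} (hx : x ∈ Bl) (w : EE) :
    hh x (NN f x) w = ip (gradient f x) w := by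
  have hD : (Dd x : ℂ) ≠ 0 := by exact_mod_cast (Dd_pos hx).ne'
  simp only [hh, NN, ip_rsmul_left, ip_sub_left, ip_smul_left, Metric1.ip_xx]
  field_simp
  ring

theorem g0_NN (f : EE → ℝ) {x : EE} (hx : x ∈ Bl) (w : EE) :
    g0 x (NN f x) w = fderiv ℝ f x w := by
  rw [g0, hh_NN f hx, fderiv_eq_re_ip]

theorem Gam_symm (f : EE → ℝ) (x u w : EE) : Gam f x u w = Gam f x w u := by
  simp only [Gam, Gam0, g0_symm x u w]
  abel

theorem Metric1.sqrt_facts {x : EE} (hx : x ∈ Bl) :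
    ((Real.sqrt (Dd x) : ℝ) : ℂ) ≠ 0 ∧ (1 + ((Real.sqrt (Dd x) : ℝ) : ℂ)) ≠ 0 ∧
      (Dd x : ℂ) = ((Real.sqrt (Dd x) : ℝ) : ℂ) ^ 2 := by
  have hD := Dd_pos hx
  have hs : 0 < Real.sqrt (Dd x) := Real.sqrt_pos.2 hD
  refine ⟨by exact_mod_cast hs.ne', ?_, ?_⟩
  · have : (1 + Real.sqrt (Dd x)) ≠ 0 := by positivity
    exact_mod_cast this
  · rw [← Complex.ofReal_pow, Real.sq_sqrt hD.le]

theorem hh_L0 {x : EE} (hx : x ∈ Bl) (w w' : EE) : hh x (L0 x w) (L0 x w') = ip w w' := by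
  obtain ⟨h1, h2, h3⟩ := Metric1.sqrt_facts hx
  simp only [hh, L0, ip_rsmul_left, ip_rsmul_right, ip_sub_left, ip_sub_right, ip_smul_left,
    ip_smul_right, Metric1.ip_xx, map_div₀, ip_conj, Complex.conj_ofReal]
  push_cast
  rw [h3]
  generalize ((Real.sqrt (Dd x) : ℝ) : ℂ) = s at h1 h2 ⊢
  field_simp
  ring

theorem L0_Linv0 {x : EE} (hx : x ∈ Bl) (v : EE) : L0 x (Linv0 x v) = v := by
  obtain ⟨h1, h2, h3⟩ := Metric1.sqrt_facts hx
  simp only [L0, Linv0, ip_rsmul_left, ip_add_left, ip_smul_left, Metric1.ip_xx]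
  simp only [rsmul_eq]
  push_cast
  rw [h3]
  generalize ((Real.sqrt (Dd x) : ℝ) : ℂ) = s at h1 h2 ⊢
  match_scalars
  · field_simp
  · field_simp
    ring

theorem Linv0_L0 {x : EE} (hx : x ∈ Bl) (w : EE) : Linv0 x (L0 x w) = w := by
  obtain ⟨h1, h2, h3⟩ := Metric1.sqrt_facts hx
  simp only [L0, Linv0, ip_rsmul_left, ip_sub_left, ip_smul_left, Metric1.ip_xx]
  simp only [rsmul_eq]
  push_cast
  rw [h3]
  generalize ((Real.sqrt (Dd x) : ℝ) : ℂ) = s at h1 h2 ⊢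
  match_scalars
  · field_simp
  · field_simp
    ring

theorem L0_add (x w w' : EE) : L0 x (w + w') = L0 x w + L0 x w' := by
  simp only [L0, ip_add_left, add_div, add_smul, smul_sub, smul_add]
  abel

theorem L0_smul (x : EE) (c : ℂ) (w : EE) : L0 x (c • w) = c • L0 x w := by
  simp only [L0, ip_smul_left, rsmul_eq]
  module

theorem Linv0_smul (x : EE) (c : ℂ) (w : EE) : Linv0 x (c • w) = c • Linv0 x w := by
  simp only [Linv0, ip_smul_left, rsmul_eq]
  module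

theorem norm_hh_sq_le {x : EE} (hx : x ∈ Bl) (u w : EE) :
    ‖hh x u w‖ ^ 2 ≤ g0 x u u * g0 x w w := by
  have h : ∀ a b, hh x a b = ip (Linv0 x a) (Linv0 x b) := fun a b => by
    rw [← hh_L0 hx, L0_Linv0 hx, L0_Linv0 hx]
  rw [g0, g0, h, h, h, ip_self, ip_self, Complex.ofReal_re, Complex.ofReal_re, ← mul_pow]
  gcongr
  exact norm_ip_le _ _

theorem Metric1.ip_perp_perp (w : EE) : ip (perp w) (perp w) = ip w w := by
  simp only [ip_coord, perp]
  simp
  ring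

theorem norm_perp (w : EE) : ‖perp w‖ = ‖w‖ := by
  have h := Metric1.ip_perp_perp w
  rw [ip_self, ip_self] at h
  have h2 : ‖perp w‖ ^ 2 = ‖w‖ ^ 2 := by exact_mod_cast h
  exact (pow_left_inj₀ (norm_nonneg _) (norm_nonneg _) two_ne_zero).1 h2

theorem ip_perp (w : EE) : ip (perp w) w = 0 := by
  simp only [ip_coord, perp]
  simp
  ring

theorem hh_frame {p : EE × EE} (hp : p.1 ∈ Bl) :
    hh p.1 (frame p 1) p.2 = 0 ∧ hh p.1 (frame p 1) (frame p 1) = hh p.1 p.2 p.2 := by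
  have e : frame p 1 = L0 p.1 (perp (Linv0 p.1 p.2)) := rfl
  constructor
  · conv_lhs => rw [e, ← L0_Linv0 hp p.2, Linv0_L0 hp, hh_L0 hp]
    exact ip_perp _
  · rw [e, hh_L0 hp, Metric1.ip_perp_perp, ← hh_L0 hp, L0_Linv0 hp]

theorem frame_orth {f : EE → ℝ} {p : EE × EE} (hp : p.1 ∈ Bl) (h1 : en f p = 1) (i j : Fin 3) :
    gg f p.1 (frame p i) (frame p j) = (1 : M3) i j ∧ gg f p.1 (frame p i) p.2 = 0 := by
  obtain ⟨a1, a2⟩ := hh_frame hp
  have a3 : hh p.1 p.2 (frame p 1) = 0 := by rw [← hh_conj, a1, map_zero]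
  have e0 : frame p 0 = Complex.I • p.2 := rfl
  have e2 : frame p 2 = Complex.I • frame p 1 := rfl
  have h2 : Real.exp (2 * f p.1) * g0 p.1 p.2 p.2 = 1 := h1
  obtain ⟨c, hc, h3⟩ : ∃ c : ℝ, Real.exp (2 * f p.1) * c = 1 ∧ hh p.1 p.2 p.2 = (c : ℂ) :=
    ⟨_, h2, hh_self p.1 p.2⟩
  rw [h3] at a2
  fin_cases i <;> fin_cases j <;>
    simp [gg_apply, g0, e0, e2, hh_smul_left, hh_smul_right, a1, a2, a3, h3, ← mul_assoc, hc]

theorem Metric1.span (w y : EE) :
    ((‖w‖ ^ 2 : ℝ) : ℂ) • y = ip y w • w + ip y (perp w) • perp w := by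
  rw [← ip_self]
  ext i
  fin_cases i <;> simp [ip_coord, perp] <;> ring

theorem frame_span {f : EE → ℝ} {p : EE × EE} (hp : p.1 ∈ Bl) (h1 : en f p = 1) (y : EE) :
    y = gg f p.1 y p.2 • p.2 + ∑ i, gg f p.1 y (frame p i) • frame p i := by
  set w := Linv0 p.1 p.2 with hw
  set z := Linv0 p.1 y with hz
  have e0 : frame p 0 = Complex.I • p.2 := rfl
  have e1 : frame p 1 = L0 p.1 (perp w) := rfl
  have e2 : frame p 2 = Complex.I • frame p 1 := rfl
  have b1 : hh p.1 y p.2 = ip z w := by rw [← hh_L0 hp, L0_Linv0 hp, L0_Linv0 hp]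
  have b2 : hh p.1 y (frame p 1) = ip z (perp w) := by rw [← hh_L0 hp, L0_Linv0 hp, e1]
  have b3 : g0 p.1 p.2 p.2 = ‖w‖ ^ 2 := by
    rw [g0, ← L0_Linv0 hp p.2, hh_L0 hp, ip_self, Complex.ofReal_re]
  have h2 : Real.exp (2 * f p.1) * ‖w‖ ^ 2 = 1 := by rw [← b3]; exact h1
  have h3 := congrArg (L0 p.1) (Metric1.span w z)
  rw [L0_smul, L0_add, L0_smul, L0_smul, L0_Linv0 hp, L0_Linv0 hp, ← e1] at h3
  have h4 : ((Real.exp (2 * f p.1) : ℝ) : ℂ) * ((‖w‖ ^ 2 : ℝ) : ℂ) = 1 := by exact_mod_cast h2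
  have h5 : y = ((Real.exp (2 * f p.1) : ℝ) : ℂ) • (ip z w • p.2 + ip z (perp w) • frame p 1) := by
    rw [← h3, smul_smul, h4, one_smul]
  rw [Fin.sum_univ_three, e0, e2]
  simp only [gg_apply, g0, hh_smul_right, b1, b2, rsmul_eq, Complex.conj_I]
  conv_lhs => rw [h5]
  generalize ip z w = α
  generalize ip z (perp w) = β
  generalize Real.exp (2 * f p.1) = c
  match_scalars
  · apply Complex.ext <;> simp
  · apply Complex.ext <;> simp

end Pool.Agent.MP_019006_gt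

end

section

set_option autoImplicit false

open MeasureTheory Filter Topology Set Matrix

namespace Pool.Agent.MP_019006_gt

section smooth

variable {F : Type} [NormedAddCommGroup F] [NormedSpace ℝ F] {s : Set F} {n : ℕ}

theorem Metric2.c_ip {a b : F → EE} (ha : ContDiffOn ℝ n a s) (hb : ContDiffOn ℝ n b s) :
    ContDiffOn ℝ n (fun y => ip (a y) (b y)) s := hb.inner ℂ ha

theorem Metric2.Dd_eq (x : EE) : (Dd x : ℂ) = 1 - ip x x := by
  rw [Metric1.ip_xx]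
  ring

theorem Metric2.c_Dd {x : F → EE} (hx : ContDiffOn ℝ n x s) :
    ContDiffOn ℝ n (fun y => Dd (x y)) s :=
  contDiffOn_const.sub (hx.norm_sq ℂ)

theorem Metric2.c_ofReal {a : F → ℝ} (ha : ContDiffOn ℝ n a s) :
    ContDiffOn ℝ n (fun y => ((a y : ℝ) : ℂ)) s :=
  Complex.ofRealCLM.contDiff.comp_contDiffOn ha

theorem Metric2.c_div {a b : F → ℂ} (ha : ContDiffOn ℝ n a s) (hb : ContDiffOn ℝ n b s)
    (h0 : ∀ y ∈ s, b y ≠ 0) : ContDiffOn ℝ n (fun y => a y / b y) s := by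
  simp only [div_eq_mul_inv]
  exact ha.mul (hb.inv h0)

theorem Metric2.Dd_ne {x : EE} (hx : x ∈ Bl) : (Dd x : ℂ) ≠ 0 := by
  exact_mod_cast (Dd_pos hx).ne'

theorem Metric2.c_al {x a : F → EE} (hm : ∀ y ∈ s, x y ∈ Bl) (hx : ContDiffOn ℝ n x s)
    (ha : ContDiffOn ℝ n a s) : ContDiffOn ℝ n (fun y => al (x y) (a y)) s :=
  Metric2.c_div (Metric2.c_ip ha hx) (Metric2.c_ofReal (Metric2.c_Dd hx))
    fun y hy => Metric2.Dd_ne (hm y hy)

theorem Metric2.c_hh {x a b : F → EE} (hm : ∀ y ∈ s, x y ∈ Bl) (hx : ContDiffOn ℝ n x s)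
    (ha : ContDiffOn ℝ n a s) (hb : ContDiffOn ℝ n b s) :
    ContDiffOn ℝ n (fun y => hh (x y) (a y) (b y)) s :=
  (Metric2.c_div (Metric2.c_ip ha hb) (Metric2.c_ofReal (Metric2.c_Dd hx))
    fun y hy => Metric2.Dd_ne (hm y hy)).add
    (Metric2.c_div ((Metric2.c_ip ha hx).mul (Metric2.c_ip hx hb))
      ((Metric2.c_ofReal (Metric2.c_Dd hx)).pow 2)
      fun y hy => pow_ne_zero 2 (Metric2.Dd_ne (hm y hy)))

theorem Metric2.c_g0 {x a b : F → EE} (hm : ∀ y ∈ s, x y ∈ Bl) (hx : ContDiffOn ℝ n x s)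
    (ha : ContDiffOn ℝ n a s) (hb : ContDiffOn ℝ n b s) :
    ContDiffOn ℝ n (fun y => g0 (x y) (a y) (b y)) s :=
  Complex.reCLM.contDiff.comp_contDiffOn (Metric2.c_hh hm hx ha hb)

theorem Metric2.c_sqrt {x : F → EE} (hm : ∀ y ∈ s, x y ∈ Bl) (hx : ContDiffOn ℝ n x s) :
    ContDiffOn ℝ n (fun y => Real.sqrt (Dd (x y))) s :=
  (Metric2.c_Dd hx).sqrt fun y hy => (Dd_pos (hm y hy)).ne'

theorem Metric2.c_L0 {x a : F → EE} (hm : ∀ y ∈ s, x y ∈ Bl) (hx : ContDiffOn ℝ n x s)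
    (ha : ContDiffOn ℝ n a s) : ContDiffOn ℝ n (fun y => L0 (x y) (a y)) s := by
  have h1 := Metric2.c_sqrt hm hx
  refine h1.smul (ha.sub (ContDiffOn.smul (Metric2.c_div (Metric2.c_ip ha hx)
    (Metric2.c_ofReal (contDiffOn_const.add h1)) fun y hy => ?_) hx))
  have : (1 + Real.sqrt (Dd (x y))) ≠ 0 := by positivity
  exact_mod_cast this

theorem Metric2.c_Linv0 {x a : F → EE} (hm : ∀ y ∈ s, x y ∈ Bl) (hx : ContDiffOn ℝ n x s)
    (ha : ContDiffOn ℝ n a s) : ContDiffOn ℝ n (fun y => Linv0 (x y) (a y)) s := by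
  have h1 := Metric2.c_sqrt hm hx
  have h2 : ∀ y ∈ s, 0 < Real.sqrt (Dd (x y)) := fun y hy => Real.sqrt_pos.2 (Dd_pos (hm y hy))
  refine (h1.inv fun y hy => (h2 y hy).ne').smul (ha.add (ContDiffOn.smul
    (Metric2.c_div (Metric2.c_ip ha hx)
    (Metric2.c_ofReal (h1.mul (contDiffOn_const.add h1))) fun y hy => ?_) hx))
  have := h2 y hy
  have : (Real.sqrt (Dd (x y)) * (1 + Real.sqrt (Dd (x y)))) ≠ 0 := by positivity
  exact_mod_cast this

theorem Metric2.lin_perp : IsLinearMap ℝ perp := by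
  constructor
  · intro u w
    ext i
    fin_cases i <;> simp [perp]
    ring
  · intro c u
    ext i
    fin_cases i <;> simp [perp]

theorem Metric2.c_perp {a : F → EE} (ha : ContDiffOn ℝ n a s) :
    ContDiffOn ℝ n (fun y => perp (a y)) s :=
  (IsLinearMap.mk' perp Metric2.lin_perp).toContinuousLinearMap.contDiff.comp_contDiffOn ha

end smooth

theorem contDiffOn_frame (j : Fin 3) (n : ℕ) : ContDiffOn ℝ n (fun q => frame q j) OO := by
  have hm : ∀ y ∈ OO, y.1 ∈ Bl := fun y hy => mem_OO.1 hy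
  have h1 : ContDiffOn ℝ n (fun q : EE × EE => L0 q.1 (perp (Linv0 q.1 q.2))) OO :=
    Metric2.c_L0 hm contDiffOn_fst
      (Metric2.c_perp (Metric2.c_Linv0 hm contDiffOn_fst contDiffOn_snd))
  fin_cases j
  · exact contDiffOn_snd.const_smul Complex.I
  · exact h1
  · exact h1.const_smul Complex.I

theorem Metric2.c_fderiv {f : EE → ℝ} (hf : ∀ n : ℕ, ContDiffOn ℝ n f Bl) (n : ℕ) :
    ContDiffOn ℝ n (fderiv ℝ f) Bl :=
  (hf (n + 1)).fderiv_of_isOpen isOpen_Bl (by push_cast; exact le_rfl)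

theorem Metric2.c_gradient {f : EE → ℝ} (hf : ∀ n : ℕ, ContDiffOn ℝ n f Bl) (n : ℕ) :
    ContDiffOn ℝ n (gradient f) Bl := by
  have hl : IsLinearMap ℝ (fun L : EE →L[ℝ] ℝ => (InnerProductSpace.toDual ℝ EE).symm L) :=
    ⟨fun a b => map_add _ a b, fun c a => by simp⟩
  exact (IsLinearMap.mk' _ hl).toContinuousLinearMap.contDiff.comp_contDiffOn
    (Metric2.c_fderiv hf n)

theorem contDiffOn_gg {f : EE → ℝ} (hf : ∀ n : ℕ, ContDiffOn ℝ n f Bl) (n : ℕ) :
    ContDiffOn ℝ n (gg f) Bl := by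
  refine contDiffOn_clm_apply.2 fun u => contDiffOn_clm_apply.2 fun w => ?_
  exact (contDiffOn_const.mul (hf n)).exp.mul
    (Metric2.c_g0 (fun _ h => h) contDiffOn_id contDiffOn_const contDiffOn_const)

theorem contDiffOn_NN {f : EE → ℝ} (hf : ∀ n : ℕ, ContDiffOn ℝ n f Bl) (n : ℕ) :
    ContDiffOn ℝ n (NN f) Bl :=
  (Metric2.c_Dd contDiffOn_id).smul ((Metric2.c_gradient hf n).sub
    ((Metric2.c_ip (Metric2.c_gradient hf n) contDiffOn_id).smul contDiffOn_id))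

theorem contDiffOn_GamL {f : EE → ℝ} (hf : ∀ n : ℕ, ContDiffOn ℝ n f Bl) (n : ℕ) :
    ContDiffOn ℝ n (GamL f) Bl := by
  refine contDiffOn_clm_apply.2 fun u => contDiffOn_clm_apply.2 fun w => ?_
  have h1 : ∀ a : EE, ContDiffOn ℝ n (fun y => al y a) Bl := fun a =>
    Metric2.c_al (fun _ h => h) contDiffOn_id contDiffOn_const
  have h2 : ∀ a : EE, ContDiffOn ℝ n (fun y => fderiv ℝ f y a) Bl := fun a =>
    (Metric2.c_fderiv hf n).clm_apply contDiffOn_const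
  exact (((((h1 u).smul contDiffOn_const).add ((h1 w).smul contDiffOn_const)).add
    ((h2 u).smul contDiffOn_const)).add ((h2 w).smul contDiffOn_const)).sub
    ((Metric2.c_g0 (fun _ h => h) contDiffOn_id contDiffOn_const contDiffOn_const).smul
      (contDiffOn_NN hf n))

theorem contDiffOn_XX {f : EE → ℝ} (hf : ∀ n : ℕ, ContDiffOn ℝ n f Bl) (n : ℕ) :
    ContDiffOn ℝ n (XX f) OO :=
  contDiffOn_snd.prodMk ((((contDiffOn_GamL hf n).comp contDiffOn_fst
    fun _ hy => mem_OO.1 hy).clm_apply contDiffOn_snd).clm_apply contDiffOn_snd).neg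

theorem contDiffOn_en {f : EE → ℝ} (hf : ∀ n : ℕ, ContDiffOn ℝ n f Bl) (n : ℕ) :
    ContDiffOn ℝ n (en f) OO :=
  (((contDiffOn_gg hf n).comp contDiffOn_fst
    fun _ hy => mem_OO.1 hy).clm_apply contDiffOn_snd).clm_apply contDiffOn_snd

theorem isRiemannian_gg {f : EE → ℝ} (hf : ∀ n : ℕ, ContDiffOn ℝ n f Bl) :
    IsRiemannian Bl (gg f) := by
  refine ⟨contDiffOn_gg hf, fun x hx => ⟨gg_symm f x, fun u hu => ?_⟩⟩
  rw [gg_apply]
  have h1 := (g0_bounds hx u).1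
  have h2 : 0 < ‖u‖ ^ 2 := by positivity
  exact mul_pos (Real.exp_pos _) (h2.trans_le h1)

end Pool.Agent.MP_019006_gt

end

section

set_option autoImplicit false

open MeasureTheory Filter Topology Set Matrix

namespace Pool.Agent.MP_019006_gt

theorem Metric3.line (x u : EE) : HasDerivAt (fun t : ℝ => x + t • u) u 0 := by
  simpa using ((hasDerivAt_id (0 : ℝ)).smul_const u).const_add x

theorem Metric3.fderiv_line {F G : Type} [NormedAddCommGroup F] [NormedSpace ℝ F]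
    [NormedAddCommGroup G] [NormedSpace ℝ G] {φ : F → G} {x u : F} {d : G}
    (h : DifferentiableAt ℝ φ x) (h' : HasDerivAt (fun t : ℝ => φ (x + t • u)) d 0) :
    fderiv ℝ φ x u = d := by
  have h1 : HasDerivAt (fun t : ℝ => x + t • u) u 0 := by
    simpa using ((hasDerivAt_id (0 : ℝ)).smul_const u).const_add x
  have h2 : HasFDerivAt φ (fderiv ℝ φ x) (x + (0 : ℝ) • u) := by simpa using h.hasFDerivAt
  exact (h2.comp_hasDerivAt (0 : ℝ) h1).unique h'

theorem Metric3.d_ip {a b : ℝ → EE} {a' b' : EE} {t : ℝ} (da : HasDerivAt a a' t)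
    (db : HasDerivAt b b' t) :
    HasDerivAt (fun s => ip (a s) (b s)) (ip a' (b t) + ip (a t) b') t := db.inner ℂ da

theorem Metric3.d_Dd {x : ℝ → EE} {v : EE} {t : ℝ} (dx : HasDerivAt x v t) :
    HasDerivAt (fun s => (Dd (x s) : ℂ)) (-(ip v (x t) + ip (x t) v)) t := by
  simp only [Metric2.Dd_eq]
  exact (Metric3.d_ip dx dx).const_sub 1

theorem Metric3.d_al {x a : ℝ → EE} {v a' : EE} {t : ℝ} (hx : x t ∈ Bl) (dx : HasDerivAt x v t)
    (da : HasDerivAt a a' t) : HasDerivAt (fun s => al (x s) (a s))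
      (al (x t) a' + hh (x t) (a t) v + al (x t) (a t) * al (x t) v) t := by
  have hD := Metric2.Dd_ne hx
  refine ((Metric3.d_ip da dx).fun_div (Metric3.d_Dd dx) hD).congr_deriv ?_
  simp only [al, hh]
  field_simp
  ring

theorem Metric3.d_hh {x a b : ℝ → EE} {v a' b' : EE} {t : ℝ} (hx : x t ∈ Bl)
    (dx : HasDerivAt x v t) (da : HasDerivAt a a' t) (db : HasDerivAt b b' t) :
    HasDerivAt (fun s => hh (x s) (a s) (b s))
      (hh (x t) (a' + Gam0 (x t) v (a t)) (b t) + hh (x t) (a t) (b' + Gam0 (x t) v (b t))) t := by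
  have hD := Metric2.Dd_ne hx
  refine (((Metric3.d_ip da db).fun_div (Metric3.d_Dd dx) hD).fun_add
    (((Metric3.d_ip da dx).fun_mul (Metric3.d_ip dx db)).fun_div ((Metric3.d_Dd dx).fun_pow 2)
      (pow_ne_zero 2 hD))).congr_deriv ?_
  simp only [hh, Gam0, al, ip_add_left, ip_add_right, ip_smul_left, ip_smul_right, map_div₀,
    ip_conj, Complex.conj_ofReal]
  field_simp
  ring

theorem Metric3.d_g0 {x a b : ℝ → EE} {v a' b' : EE} {t : ℝ} (hx : x t ∈ Bl)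
    (dx : HasDerivAt x v t) (da : HasDerivAt a a' t) (db : HasDerivAt b b' t) :
    HasDerivAt (fun s => g0 (x s) (a s) (b s))
      (g0 (x t) (a' + Gam0 (x t) v (a t)) (b t) + g0 (x t) (a t) (b' + Gam0 (x t) v (b t))) t :=
  Complex.reCLM.hasFDerivAt.comp_hasDerivAt t (Metric3.d_hh hx dx da db)

theorem Metric3.g0_sub_left (x u u' w : EE) : g0 x (u - u') w = g0 x u w - g0 x u' w := by
  rw [eq_sub_iff_add_eq, ← g0_add_left, sub_add_cancel]

theorem Metric3.g0_Gam (f : EE → ℝ) {x : EE} (hx : x ∈ Bl) (a' v a b : EE) :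
    g0 x (a' + Gam f x v a) b = g0 x (a' + Gam0 x v a) b + fderiv ℝ f x v * g0 x a b +
      fderiv ℝ f x a * g0 x v b - g0 x v a * fderiv ℝ f x b := by
  simp only [Gam, g0_add_left, Metric3.g0_sub_left, g0_smul_left, g0_NN f hx]
  ring

theorem Metric3.d_gg {f : EE → ℝ} {x a b : ℝ → EE} {v a' b' : EE} {t : ℝ} (hx : x t ∈ Bl)
    (hf : DifferentiableAt ℝ f (x t)) (dx : HasDerivAt x v t) (da : HasDerivAt a a' t)
    (db : HasDerivAt b b' t) : HasDerivAt (fun s => gg f (x s) (a s) (b s))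
      (gg f (x t) (a' + Gam f (x t) v (a t)) (b t) +
        gg f (x t) (a t) (b' + Gam f (x t) v (b t))) t := by
  have h1 : HasDerivAt (fun s => f (x s)) (fderiv ℝ f (x t) v) t :=
    hf.hasFDerivAt.comp_hasDerivAt t dx
  simp only [gg_apply]
  refine ((h1.const_mul 2).exp.fun_mul (Metric3.d_g0 hx dx da db)).congr_deriv ?_
  rw [g0_symm (x t) (a t) (b' + Gam f (x t) v (b t)), Metric3.g0_Gam f hx, Metric3.g0_Gam f hx,
    g0_symm (x t) (a t) (b' + Gam0 (x t) v (b t)), g0_symm (x t) (b t) (a t)]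
  ring

theorem Metric3.diffAt {F G : Type} [NormedAddCommGroup F] [NormedSpace ℝ F]
    [NormedAddCommGroup G] [NormedSpace ℝ G] {φ : F → G} {s : Set F} {x : F} (hs : IsOpen s)
    (h : ContDiffOn ℝ (1 : ℕ) φ s) (hx : x ∈ s) : DifferentiableAt ℝ φ x :=
  (h.contDiffAt (hs.mem_nhds hx)).differentiableAt (by simp)

theorem Metric3.mem0 {x : EE} (hx : x ∈ Bl) (u : EE) : x + (0 : ℝ) • u ∈ Bl := by simpa using hx

theorem hasDerivAt_al {x : EE} (hx : x ∈ Bl) (u w : EE) :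
    DifferentiableAt ℝ (fun y => al y w) x ∧
      fderiv ℝ (fun y => al y w) x u = hh x w u + al x w * al x u := by
  have h : DifferentiableAt ℝ (fun y => al y w) x := Metric3.diffAt isOpen_Bl
    (Metric2.c_al (fun _ h => h) contDiffOn_id contDiffOn_const) hx
  refine ⟨h, Metric3.fderiv_line h ?_⟩
  have := Metric3.d_al (x := fun t : ℝ => x + t • u) (t := 0) (Metric3.mem0 hx u)
    (Metric3.line x u) (hasDerivAt_const (0 : ℝ) w)
  simpa [al, ip] using this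

theorem fderiv_hh {x : EE} (hx : x ∈ Bl) (u v w : EE) :
    DifferentiableAt ℝ (fun y => hh y v w) x ∧
      fderiv ℝ (fun y => hh y v w) x u = hh x (Gam0 x u v) w + hh x v (Gam0 x u w) := by
  have h : DifferentiableAt ℝ (fun y => hh y v w) x := Metric3.diffAt isOpen_Bl
    (Metric2.c_hh (fun _ h => h) contDiffOn_id contDiffOn_const contDiffOn_const) hx
  refine ⟨h, Metric3.fderiv_line h ?_⟩
  simpa using Metric3.d_hh (x := fun t : ℝ => x + t • u) (t := 0) (Metric3.mem0 hx u)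
    (Metric3.line x u) (hasDerivAt_const (0 : ℝ) v) (hasDerivAt_const (0 : ℝ) w)

theorem fderiv_g0 {x : EE} (hx : x ∈ Bl) (u v w : EE) :
    DifferentiableAt ℝ (fun y => g0 y v w) x ∧
      fderiv ℝ (fun y => g0 y v w) x u = g0 x (Gam0 x u v) w + g0 x v (Gam0 x u w) := by
  have h : DifferentiableAt ℝ (fun y => g0 y v w) x := Metric3.diffAt isOpen_Bl
    (Metric2.c_g0 (fun _ h => h) contDiffOn_id contDiffOn_const contDiffOn_const) hx
  refine ⟨h, Metric3.fderiv_line h ?_⟩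
  simpa using Metric3.d_g0 (x := fun t : ℝ => x + t • u) (t := 0) (Metric3.mem0 hx u)
    (Metric3.line x u) (hasDerivAt_const (0 : ℝ) v) (hasDerivAt_const (0 : ℝ) w)

theorem fderiv_gg {f : EE → ℝ} {x : EE} (hx : x ∈ Bl) (hf : DifferentiableAt ℝ f x) (u v w : EE) :
    fderiv ℝ (fun y => gg f y v w) x u = gg f x (Gam f x u v) w + gg f x v (Gam f x u w) := by
  have h : DifferentiableAt ℝ (fun y => gg f y v w) x :=
    (hf.const_mul 2).exp.mul (fderiv_g0 hx u v w).1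
  refine Metric3.fderiv_line h ?_
  simpa using Metric3.d_gg (f := f) (x := fun t : ℝ => x + t • u) (t := 0) (Metric3.mem0 hx u)
    (by simpa using hf) (Metric3.line x u) (hasDerivAt_const (0 : ℝ) v)
    (hasDerivAt_const (0 : ℝ) w)

theorem hasDerivAt_gg {f : EE → ℝ} (hf : ∀ n : ℕ, ContDiffOn ℝ n f Bl) {x a b : ℝ → EE}
    {v a' b' : EE} {t : ℝ} (hx : x t ∈ Bl) (dx : HasDerivAt x v t) (da : HasDerivAt a a' t)
    (db : HasDerivAt b b' t) : HasDerivAt (fun s => gg f (x s) (a s) (b s))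
      (gg f (x t) (a' + Gam f (x t) v (a t)) (b t) +
        gg f (x t) (a t) (b' + Gam f (x t) v (b t))) t :=
  Metric3.d_gg hx (Metric3.diffAt isOpen_Bl (hf 1) hx) dx da db

theorem fderiv_en {f : EE → ℝ} (hf : ∀ n : ℕ, ContDiffOn ℝ n f Bl) {p : EE × EE} (hp : p.1 ∈ Bl)
    (ξ : EE × EE) : fderiv ℝ (en f) p ξ = 2 * gg f p.1 p.2 (ξ.2 + Gam f p.1 p.2 ξ.1) := by
  refine Metric3.fderiv_line (Metric3.diffAt isOpen_OO (contDiffOn_en hf 1) (mem_OO.2 hp)) ?_
  have := hasDerivAt_gg hf (x := fun t : ℝ => p.1 + t • ξ.1) (t := 0) (Metric3.mem0 hp ξ.1)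
    (Metric3.line p.1 ξ.1) (Metric3.line p.2 ξ.2) (Metric3.line p.2 ξ.2)
  refine this.congr_deriv ?_
  simp only [zero_smul, add_zero]
  rw [gg_symm f p.1 (ξ.2 + _), Gam_symm f p.1 ξ.1]
  ring

theorem fderiv_XX {f : EE → ℝ} (hf : ∀ n : ℕ, ContDiffOn ℝ n f Bl) {p : EE × EE} (hp : p.1 ∈ Bl)
    (ξ : EE × EE) : fderiv ℝ (XX f) p ξ = (ξ.2, -(fderiv ℝ (fun y => Gam f y p.2 p.2) p.1 ξ.1 +
      Gam f p.1 ξ.2 p.2 + Gam f p.1 p.2 ξ.2)) := by
  refine Metric3.fderiv_line (Metric3.diffAt isOpen_OO (contDiffOn_XX hf 1) (mem_OO.2 hp)) ?_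
  have h0 := Metric3.diffAt isOpen_Bl (contDiffOn_GamL hf 1) hp
  have h1 : HasFDerivAt (GamL f) (fderiv ℝ (GamL f) p.1) (p.1 + (0 : ℝ) • ξ.1) := by
    simpa using h0.hasFDerivAt
  have h2 : HasDerivAt (fun t : ℝ => GamL f (p.1 + t • ξ.1)) (fderiv ℝ (GamL f) p.1 ξ.1) 0 :=
    HasFDerivAt.comp_hasDerivAt (F := EE) (E := EE →L[ℝ] EE →L[ℝ] EE) (l := GamL f)
      (f := fun t : ℝ => p.1 + t • ξ.1) (0 : ℝ) h1 (Metric3.line p.1 ξ.1)
  have h3 : fderiv ℝ (fun y => Gam f y p.2 p.2) p.1 ξ.1 = fderiv ℝ (GamL f) p.1 ξ.1 p.2 p.2 := by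
    refine Metric3.fderiv_line (φ := fun y => GamL f y p.2 p.2)
      ((h0.clm_apply (differentiableAt_const _)).clm_apply (differentiableAt_const _)) ?_
    simpa using (h2.clm_apply (hasDerivAt_const (0 : ℝ) p.2)).clm_apply
      (hasDerivAt_const (0 : ℝ) p.2)
  have h4 := (h2.clm_apply (Metric3.line p.2 ξ.2)).clm_apply (Metric3.line p.2 ξ.2)
  refine ((Metric3.line p.2 ξ.2).prodMk h4.neg).congr_deriv ?_
  simp [h3, GamL_apply]

theorem isChristoffel_Gam {f : EE → ℝ} (hf : ∀ n : ℕ, ContDiffOn ℝ n f Bl) :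
    IsChristoffel Bl (gg f) (Gam f) := by
  intro x hx u v w
  have h := Metric3.diffAt isOpen_Bl (hf 1) hx
  rw [fderiv_gg hx h, fderiv_gg hx h, fderiv_gg hx h, Gam_symm f x v u, Gam_symm f x w u,
    Gam_symm f x w v, gg_symm f x v]
  ring

end Pool.Agent.MP_019006_gt

end

section

set_option autoImplicit false

open MeasureTheory Filter Topology Set Matrix

namespace Pool.Agent.MP_019006_gt

namespace Curv

theorem hh_sub_left (x u u' w : EE) : hh x (u - u') w = hh x u w - hh x u' w := by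
  simp only [hh, ip_sub_left]; ring
theorem hh_sub_right (x u w w' : EE) : hh x u (w - w') = hh x u w - hh x u w' := by
  simp only [hh, ip_sub_right]; ring
theorem hh_rsmul_left (x : EE) (c : ℝ) (u w : EE) : hh x (c • u) w = c * hh x u w := by
  rw [rsmul_eq, hh_smul_left]
theorem hh_rsmul_right (x : EE) (c : ℝ) (u w : EE) : hh x u (c • w) = c * hh x u w := by
  rw [rsmul_eq, hh_smul_right, Complex.conj_ofReal]
theorem al_sub (x u u' : EE) : al x (u - u') = al x u - al x u' := by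
  simp only [al, ip_sub_left]; ring
theorem al_rsmul (x : EE) (c : ℝ) (u : EE) : al x (c • u) = c * al x u := by
  rw [rsmul_eq, al_smul]
theorem g0_sub_left (x u u' w : EE) : g0 x (u - u') w = g0 x u w - g0 x u' w := by
  simp only [g0, hh_sub_left, Complex.sub_re]
theorem g0_sub_right (x u w w' : EE) : g0 x u (w - w') = g0 x u w - g0 x u w' := by
  simp only [g0, hh_sub_right, Complex.sub_re]

theorem cdAt {F : Type} [NormedAddCommGroup F] [NormedSpace ℝ F] {g : EE → F} {n : ℕ}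
    (hg : ContDiffOn ℝ n g Bl) {x : EE} (hx : x ∈ Bl) : ContDiffAt ℝ n g x :=
  hg.contDiffAt (isOpen_Bl.mem_nhds hx)

theorem diff_f {f : EE → ℝ} (hf : ∀ n : ℕ, ContDiffOn ℝ n f Bl) {x : EE} (hx : x ∈ Bl) :
    DifferentiableAt ℝ f x :=
  (cdAt (hf 1) hx).differentiableAt (by simp)

theorem diff_df {f : EE → ℝ} (hf : ∀ n : ℕ, ContDiffOn ℝ n f Bl) {x : EE} (hx : x ∈ Bl) :
    DifferentiableAt ℝ (fderiv ℝ f) x := by
  have h : ContDiffAt ℝ 1 (fderiv ℝ f) x :=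
    (cdAt (hf 2) hx).fderiv_right (by norm_num)
  exact h.differentiableAt (by simp)

theorem diff_NN {f : EE → ℝ} (hf : ∀ n : ℕ, ContDiffOn ℝ n f Bl) {x : EE} (hx : x ∈ Bl) :
    DifferentiableAt ℝ (NN f) x :=
  (cdAt (contDiffOn_NN hf 1) hx).differentiableAt (by simp)

theorem diff_GamL {f : EE → ℝ} (hf : ∀ n : ℕ, ContDiffOn ℝ n f Bl) {x : EE} (hx : x ∈ Bl) :
    DifferentiableAt ℝ (GamL f) x :=
  (cdAt (contDiffOn_GamL hf 1) hx).differentiableAt (by simp)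

theorem hasFDerivAt_df {f : EE → ℝ} (hf : ∀ n : ℕ, ContDiffOn ℝ n f Bl) {x : EE} (hx : x ∈ Bl)
    (w : EE) : HasFDerivAt (fun y => fderiv ℝ f y w)
      ((fderiv ℝ (fderiv ℝ f) x).flip w) x := by
  have h := (diff_df hf hx).hasFDerivAt.clm_apply (hasFDerivAt_const w x)
  simpa using h

theorem H_eq {f : EE → ℝ} (hf : ∀ n : ℕ, ContDiffOn ℝ n f Bl) {x : EE} (hx : x ∈ Bl)
    (u w : EE) : fderiv ℝ (fun y => fderiv ℝ f y w) x u = fderiv ℝ (fderiv ℝ f) x u w := by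
  rw [(hasFDerivAt_df hf hx w).fderiv]; rfl

theorem H_symm {f : EE → ℝ} (hf : ∀ n : ℕ, ContDiffOn ℝ n f Bl) {x : EE} (hx : x ∈ Bl)
    (u w : EE) : fderiv ℝ (fun y => fderiv ℝ f y w) x u =
      fderiv ℝ (fun y => fderiv ℝ f y u) x w := by
  rw [H_eq hf hx, H_eq hf hx]
  have h : IsSymmSndFDerivAt ℝ f x :=
    (cdAt (hf 2) hx).isSymmSndFDerivAt (by simp)
  exact h u w

theorem Gam0_symm (x u w : EE) : Gam0 x u w = Gam0 x w u := by
  simp only [Gam0]; abel

theorem fderiv_GamL {f : EE → ℝ} (hf : ∀ n : ℕ, ContDiffOn ℝ n f Bl) {x : EE} (hx : x ∈ Bl)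
    (u v w : EE) : fderiv ℝ (fun y => Gam f y v w) x u = fderiv ℝ (GamL f) x u v w := by
  have h := ((diff_GamL hf hx).hasFDerivAt.clm_apply (hasFDerivAt_const v x)).clm_apply
    (hasFDerivAt_const w x)
  have h' : fderiv ℝ (fun y => GamL f y v w) x = _ := h.fderiv
  have e : (fun y => Gam f y v w) = fun y => GamL f y v w := rfl
  rw [e, h']; simp

theorem curv_eq {f : EE → ℝ} (hf : ∀ n : ℕ, ContDiffOn ℝ n f Bl) {x : EE} (hx : x ∈ Bl)
    (u v w : EE) : curv (Gam f) x u v w = fderiv ℝ (GamL f) x u v w - fderiv ℝ (GamL f) x v u w +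
      GamL f x u (GamL f x v w) - GamL f x v (GamL f x u w) := by
  rw [curv, fderiv_GamL hf hx, fderiv_GamL hf hx]; rfl

theorem fderiv_Gam {f : EE → ℝ} (hf : ∀ n : ℕ, ContDiffOn ℝ n f Bl) {x : EE} (hx : x ∈ Bl)
    (u v w : EE) : fderiv ℝ (fun y => Gam f y v w) x u =
      (hh x v u + al x v * al x u) • w + (hh x w u + al x w * al x u) • v +
      fderiv ℝ (fun y => fderiv ℝ f y v) x u • w + fderiv ℝ (fun y => fderiv ℝ f y w) x u • v -
      ((g0 x (Gam0 x u v) w + g0 x v (Gam0 x u w)) • NN f x + g0 x v w • fderiv ℝ (NN f) x u) := by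
  have a1 := (hasDerivAt_al hx u v).1.hasFDerivAt.smul_const w
  have a2 := (hasDerivAt_al hx u w).1.hasFDerivAt.smul_const v
  have a3 := (hasFDerivAt_df hf hx v).differentiableAt.hasFDerivAt.smul_const w
  have a4 := (hasFDerivAt_df hf hx w).differentiableAt.hasFDerivAt.smul_const v
  have a5 := (fderiv_g0 hx u v w).1.hasFDerivAt.fun_smul (diff_NN hf hx).hasFDerivAt
  have a := (((a1.fun_add a2).fun_add a3).fun_add a4).fun_sub a5
  have e : (fun y => Gam f y v w) = fun y => al y v • w + al y w • v + fderiv ℝ f y v • w +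
      fderiv ℝ f y w • v - g0 y v w • NN f y := rfl
  rw [e, a.fderiv]
  simp only [_root_.sub_apply, _root_.add_apply,
    ContinuousLinearMap.smulRight_apply, _root_.smul_apply,
    (hasDerivAt_al hx u v).2, (hasDerivAt_al hx u w).2, (fderiv_g0 hx u v w).2]
  abel

theorem Gam_zero (x u w : EE) : Gam (fun _ => (0 : ℝ)) x u w = Gam0 x u w := by
  simp [Gam, NN, gradient, ip]

theorem g0_DN {f : EE → ℝ} (hf : ∀ n : ℕ, ContDiffOn ℝ n f Bl) {x : EE} (hx : x ∈ Bl)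
    (u z : EE) : g0 x (fderiv ℝ (NN f) x u) z = fderiv ℝ (fun y => fderiv ℝ f y z) x u -
      g0 x (Gam0 x u (NN f x)) z - g0 x (NN f x) (Gam0 x u z) := by
  have hc : HasDerivAt (fun s : ℝ => x + s • u) u 0 := by
    simpa using ((hasDerivAt_id (0 : ℝ)).smul_const u).const_add x
  have hx0 : x + (0 : ℝ) • u = x := by simp
  have hN : HasDerivAt (fun s : ℝ => NN f (x + s • u)) (fderiv ℝ (NN f) x u) 0 := by
    have h1 : HasFDerivAt (NN f) (fderiv ℝ (NN f) x) (x + (0 : ℝ) • u) := by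
      rw [hx0]; exact (diff_NN hf hx).hasFDerivAt
    exact h1.comp_hasDerivAt (0 : ℝ) hc
  have hD : HasDerivAt (fun s : ℝ => fderiv ℝ f (x + s • u) z)
      (fderiv ℝ (fun y => fderiv ℝ f y z) x u) 0 := by
    have h1 : HasFDerivAt (fun y => fderiv ℝ f y z) (fderiv ℝ (fun y => fderiv ℝ f y z) x)
        (x + (0 : ℝ) • u) := by
      rw [hx0]; exact (hasFDerivAt_df hf hx z).differentiableAt.hasFDerivAt
    exact h1.comp_hasDerivAt (0 : ℝ) hc
  have h0 : ∀ n : ℕ, ContDiffOn ℝ n (fun _ : EE => (0 : ℝ)) Bl := fun n => contDiffOn_const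
  have hG := hasDerivAt_gg h0 (x := fun s : ℝ => x + s • u) (a := fun s : ℝ => NN f (x + s • u))
    (b := fun _ => z) (t := 0) (by rw [hx0]; exact hx) hc hN (hasDerivAt_const 0 z)
  have hev : (fun s : ℝ => fderiv ℝ f (x + s • u) z) =ᶠ[𝓝 0]
      fun s : ℝ => gg (fun _ => (0 : ℝ)) (x + s • u) (NN f (x + s • u)) z := by
    have : ∀ᶠ s : ℝ in 𝓝 0, x + s • u ∈ Bl :=
      hc.continuousAt.preimage_mem_nhds (isOpen_Bl.mem_nhds (by rw [hx0]; exact hx))
    filter_upwards [this] with s hs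
    rw [gg_apply, g0_NN f hs]; simp
  have hu := hD.unique (hG.congr_of_eventuallyEq hev)
  simp only [hx0, gg_apply, Gam_zero, mul_zero, Real.exp_zero, one_mul, zero_add,
    g0_add_left] at hu
  linarith

end Curv

open Curv

theorem TT_symm {f : EE → ℝ} (hf : ∀ n : ℕ, ContDiffOn ℝ n f Bl) {x : EE} (hx : x ∈ Bl)
    (u w : EE) : TT f x u w = TT f x w u := by
  simp only [TT, Hess]
  rw [H_symm hf hx u w, Gam0_symm x u w, g0_symm x u w]; ring

theorem TT_add_left (f : EE → ℝ) (x u u' w : EE) :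
    TT f x (u + u') w = TT f x u w + TT f x u' w := by
  have h : Gam0 x (u + u') w = Gam0 x u w + Gam0 x u' w := by
    simp only [Gam0, al_add, add_smul, smul_add]; abel
  simp only [TT, Hess, h, map_add, g0_add_left]; ring

theorem TT_smul_left (f : EE → ℝ) (x : EE) (c : ℝ) (u w : EE) :
    TT f x (c • u) w = c * TT f x u w := by
  have h : Gam0 x (c • u) w = c • Gam0 x u w := by
    simp only [Gam0, al_rsmul]
    simp only [rsmul_eq]
    module
  simp only [TT, Hess, h, map_smul, g0_smul_left, smul_eq_mul]; ring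

theorem curv_add_left {f : EE → ℝ} (hf : ∀ n : ℕ, ContDiffOn ℝ n f Bl) {x : EE} (hx : x ∈ Bl)
    (u u' w y : EE) :
    curv (Gam f) x (u + u') w y = curv (Gam f) x u w y + curv (Gam f) x u' w y := by
  simp only [curv_eq hf hx, map_add, _root_.add_apply]; abel

theorem curv_smul_left {f : EE → ℝ} (hf : ∀ n : ℕ, ContDiffOn ℝ n f Bl) {x : EE} (hx : x ∈ Bl)
    (c : ℝ) (u w y : EE) : curv (Gam f) x (c • u) w y = c • curv (Gam f) x u w y := by
  simp only [curv_eq hf hx, map_smul, _root_.smul_apply, smul_add, smul_sub]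

theorem curv_formula {f : EE → ℝ} (hf : ∀ n : ℕ, ContDiffOn ℝ n f Bl) {x : EE} (hx : x ∈ Bl)
    (u w y z : EE) : g0 x (curv (Gam f) x u w y) z =
      (hh x y u * hh x w z - hh x y w * hh x u z + (hh x w u - hh x u w) * hh x y z).re -
        (TT f x w y * g0 x u z - TT f x u y * g0 x w z + g0 x w y * TT f x u z -
          g0 x u y * TT f x w z) := by
  have e1 := g0_DN hf hx u z
  have e2 := g0_DN hf hx w z
  have e3 := H_symm hf hx u w
  rw [curv, fderiv_Gam hf hx, fderiv_Gam hf hx]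
  simp only [TT, Hess]
  rw [e3]
  generalize fderiv ℝ (fun y => fderiv ℝ f y u) x w = Hwu at *
  generalize fderiv ℝ (fun y' => fderiv ℝ f y' y) x u = Huy at *
  generalize fderiv ℝ (fun y' => fderiv ℝ f y' y) x w = Hwy at *
  generalize fderiv ℝ (fun y' => fderiv ℝ f y' z) x u = Huz at *
  generalize fderiv ℝ (fun y' => fderiv ℝ f y' z) x w = Hwz at *
  generalize fderiv ℝ (NN f) x u = Du at *
  generalize fderiv ℝ (NN f) x w = Dw at *
  simp only [g0_add_left, g0_sub_left, g0_smul_left, e1, e2]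
  simp only [Gam, Gam0, ← g0_NN f hx]
  generalize NN f x = N
  simp only [g0, hh_add_left, hh_sub_left, hh_smul_left, hh_rsmul_left, hh_add_right,
    hh_sub_right, hh_smul_right, hh_rsmul_right, al_add, al_sub, al_smul, al_rsmul]
  rw [← hh_conj x u w, ← hh_conj x u y, ← hh_conj x w y, ← hh_conj x N u, ← hh_conj x N w]
  generalize hh x u w = uw
  generalize hh x u y = uy
  generalize hh x w y = wy
  generalize hh x N u = Nu
  generalize hh x N w = Nw
  generalize hh x N y = Ny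
  generalize hh x N z = Nz
  generalize hh x N N = NN'
  generalize hh x u z = uz
  generalize hh x w z = wz
  generalize hh x y z = yz
  generalize al x u = au
  generalize al x w = aw
  generalize al x y = ay
  generalize al x z = az
  generalize al x N = aN
  simp only [Complex.add_re, Complex.sub_re, Complex.mul_re, Complex.add_im, Complex.sub_im,
    Complex.mul_im, Complex.conj_re, Complex.conj_im, Complex.ofReal_re, Complex.ofReal_im]
  ring

end Pool.Agent.MP_019006_gt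

end

section

set_option autoImplicit false

open MeasureTheory Filter Topology Set Matrix

namespace Pool.Agent.MP_019006_gt

namespace Curv

theorem TT_sub_left (f : EE → ℝ) (x u u' w : EE) :
    TT f x (u - u') w = TT f x u w - TT f x u' w := by
  have h := TT_add_left f x (u - u') u' w
  rw [sub_add_cancel] at h; linarith

theorem TT_add_right {f : EE → ℝ} (hf : ∀ n : ℕ, ContDiffOn ℝ n f Bl) {x : EE} (hx : x ∈ Bl)
    (u w w' : EE) : TT f x u (w + w') = TT f x u w + TT f x u w' := by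
  rw [TT_symm hf hx, TT_add_left, TT_symm hf hx w, TT_symm hf hx w']

theorem TT_sub_right {f : EE → ℝ} (hf : ∀ n : ℕ, ContDiffOn ℝ n f Bl) {x : EE} (hx : x ∈ Bl)
    (u w w' : EE) : TT f x u (w - w') = TT f x u w - TT f x u w' := by
  rw [TT_symm hf hx, TT_sub_left, TT_symm hf hx w, TT_symm hf hx w']

theorem TT_smul_right {f : EE → ℝ} (hf : ∀ n : ℕ, ContDiffOn ℝ n f Bl) {x : EE} (hx : x ∈ Bl)
    (c : ℝ) (u w : EE) : TT f x u (c • w) = c * TT f x u w := by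
  rw [TT_symm hf hx, TT_smul_left, TT_symm hf hx w]

theorem g0_pos {x : EE} (hx : x ∈ Bl) {u : EE} (hu : u ≠ 0) : 0 < g0 x u u := by
  have h := (g0_bounds hx u).1
  have : 0 < ‖u‖ ^ 2 := pow_pos (norm_pos_iff.mpr hu) 2
  linarith

theorem g0_nonneg {x : EE} (hx : x ∈ Bl) (u : EE) : 0 ≤ g0 x u u :=
  (sq_nonneg _).trans (g0_bounds hx u).1

theorem exp_mul (a : ℝ) : Real.exp (2 * a) * Real.exp (-2 * a) = 1 := by
  rw [← Real.exp_add]; simp

theorem g0_of_gg (f : EE → ℝ) (x u w : EE) : g0 x u w = Real.exp (-2 * f x) * gg f x u w := by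
  rw [gg_apply, ← mul_assoc, mul_comm (Real.exp (-2 * f x)), exp_mul, one_mul]

theorem fin3 : ∀ i : Fin 3, i = 0 ∨ i = 1 ∨ i = 2 := by decide

theorem frame_zero (p : EE × EE) : frame p 0 = Complex.I • p.2 := rfl
theorem frame_two (p : EE × EE) : frame p 2 = Complex.I • frame p 1 := rfl

theorem hh_v_frame {p : EE × EE} (hp : p.1 ∈ Bl) (i : Fin 3) :
    hh p.1 p.2 (frame p i) =
      -Complex.I * ((g0 p.1 p.2 p.2 * (1 : M3) i 0 : ℝ) : ℂ) := by
  have h1 : hh p.1 p.2 (frame p 1) = 0 := by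
    rw [← hh_conj, (hh_frame hp).1, map_zero]
  rcases fin3 i with rfl | rfl | rfl
  · rw [frame_zero, hh_smul_right, hh_self]; simp
  · rw [h1]; simp
  · rw [frame_two, hh_smul_right, h1]; simp

theorem g0_frame {p : EE × EE} (hp : p.1 ∈ Bl) (i j : Fin 3) :
    g0 p.1 (frame p i) (frame p j) = g0 p.1 p.2 p.2 * (1 : M3) i j := by
  have h1 : hh p.1 (frame p 1) p.2 = 0 := (hh_frame hp).1
  have h2 : hh p.1 p.2 (frame p 1) = 0 := by
    rw [← hh_conj, h1, map_zero]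
  have h3 : hh p.1 (frame p 1) (frame p 1) = (g0 p.1 p.2 p.2 : ℂ) := by
    rw [(hh_frame hp).2, hh_self]
  have h4 : hh p.1 p.2 p.2 = (g0 p.1 p.2 p.2 : ℂ) := hh_self _ _
  generalize g0 p.1 p.2 p.2 = m at *
  have a00 : g0 p.1 (frame p 0) (frame p 0) = m := by
    rw [g0, frame_zero, hh_smul_left, hh_smul_right, h4]; simp
  have a01 : g0 p.1 (frame p 0) (frame p 1) = 0 := by
    rw [g0, frame_zero, hh_smul_left, h2]; simp
  have a02 : g0 p.1 (frame p 0) (frame p 2) = 0 := by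
    rw [g0, frame_zero, frame_two, hh_smul_left, hh_smul_right, h2]; simp
  have a11 : g0 p.1 (frame p 1) (frame p 1) = m := by
    rw [g0, h3]; simp
  have a12 : g0 p.1 (frame p 1) (frame p 2) = 0 := by
    rw [g0, frame_two, hh_smul_right, h3]; simp
  have a22 : g0 p.1 (frame p 2) (frame p 2) = m := by
    rw [g0, frame_two, hh_smul_left, hh_smul_right, h3]; simp
  have a10 := (g0_symm p.1 (frame p 1) (frame p 0)).trans a01
  have a20 := (g0_symm p.1 (frame p 2) (frame p 0)).trans a02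
  have a21 := (g0_symm p.1 (frame p 2) (frame p 1)).trans a12
  fin_cases i <;> fin_cases j <;> simp [a00, a01, a02, a10, a11, a12, a20, a21, a22]

theorem gg_frame (f : EE → ℝ) {p : EE × EE} (hp : p.1 ∈ Bl) (i j : Fin 3) :
    gg f p.1 (frame p i) (frame p j) = en f p * (1 : M3) i j := by
  rw [en, gg_apply, gg_apply, g0_frame hp, mul_assoc]

end Curv

open Curv

theorem negCurved {f : EE → ℝ} (hf : Conf f) : NegCurved Bl (gg f) (Gam f) := by
  intro x hx u v hli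
  have hs := hf.smooth
  have hv : v ≠ 0 := hli.ne_zero 1
  have hm : 0 < g0 x v v := g0_pos hx hv
  set c : ℝ := g0 x u v / g0 x v v with hc
  have hu' : u - c • v ≠ 0 := by
    intro h
    have := LinearIndependent.pair_iff.mp hli 1 (-c)
      (by rw [one_smul, neg_smul, ← sub_eq_add_neg, h])
    exact one_ne_zero this.1
  have hp : 0 < g0 x (u - c • v) (u - c • v) := g0_pos hx hu'
  have t1 := hf.Tb x hx v
  have t2 := hf.Tb x hx (u - c • v)
  have ha : g0 x u v = c * g0 x v v := by rw [hc]; field_simp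
  have e1 : g0 x (u - c • v) (u - c • v) = g0 x u u - c ^ 2 * g0 x v v := by
    simp only [g0_sub_left, g0_sub_right, g0_smul_left, g0_smul_right, g0_symm x v u, ha]; ring
  have e2 : TT f x (u - c • v) (u - c • v) =
      TT f x u u - 2 * c * TT f x u v + c ^ 2 * TT f x v v := by
    simp only [TT_sub_left, TT_sub_right hs hx, TT_smul_left, TT_smul_right hs hx,
      TT_symm hs hx v u]; ring
  rw [gg_apply, curv_formula hs hx]
  apply mul_neg_of_pos_of_neg (Real.exp_pos _)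
  have e3 : (hh x v u * hh x v u - hh x v v * hh x u u + (hh x v u - hh x u v) * hh x v u).re =
      (g0 x u v) ^ 2 - 3 * (hh x u v).im ^ 2 - g0 x v v * g0 x u u := by
    rw [hh_self, hh_self, ← hh_conj x u v]
    generalize g0 x v v = a
    generalize g0 x u u = b
    simp only [g0, Complex.add_re, Complex.sub_re, Complex.mul_re, Complex.sub_im,
      Complex.conj_re, Complex.conj_im, Complex.ofReal_re, Complex.ofReal_im]
    ring
  rw [e3, TT_symm hs hx v u, g0_symm x v u, ha]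
  rw [e1] at hp t2
  rw [e2] at t2
  have t1' := (abs_le.mp t1).1
  have t2' := (abs_le.mp t2).1
  generalize g0 x v v = m at *
  generalize g0 x u u = n at *
  generalize TT f x u u = A at *
  generalize TT f x u v = B at *
  generalize TT f x v v = C at *
  have k1 := mul_le_mul_of_nonneg_left t1' hp.le
  have k2 := mul_le_mul_of_nonneg_left t2' hm.le
  have k3 := mul_pos hm hp
  have k4 := sq_nonneg (hh x u v).im
  nlinarith

theorem Kmat_eq {f : EE → ℝ} (hf : ∀ n : ℕ, ContDiffOn ℝ n f Bl) {p : EE × EE} (hp : p.1 ∈ Bl)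
    (h1 : en f p = 1) (i j : Fin 3) : Kmat f p i j = Real.exp (-2 * f p.1) * K0 i j +
      TT f p.1 p.2 p.2 * (1 : M3) i j + TT f p.1 (frame p j) (frame p i) := by
  have hm : g0 p.1 p.2 p.2 = Real.exp (-2 * f p.1) := by
    rw [g0_of_gg f]; rw [en] at h1; rw [h1, mul_one]
  have hz : ∀ k, g0 p.1 p.2 (frame p k) = 0 := by
    intro k; rw [g0, hh_v_frame hp]; simp
  have hz' : ∀ k, g0 p.1 (frame p k) p.2 = 0 := fun k => (g0_symm _ _ _).trans (hz k)
  have he := exp_mul (f p.1)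
  have hK : K0 i j = (1 : M3) i j + 3 * ((1 : M3) i 0 * (1 : M3) j 0) := by
    rcases fin3 i with rfl | rfl | rfl <;> rcases fin3 j with rfl | rfl | rfl <;> simp [K0]
    norm_num
  have hs : (1 : M3) j i = (1 : M3) i j := by
    simp only [Matrix.one_apply, eq_comm]
  have e3 : (hh p.1 p.2 (frame p j) * hh p.1 p.2 (frame p i) -
      hh p.1 p.2 p.2 * hh p.1 (frame p j) (frame p i) +
      (hh p.1 p.2 (frame p j) - hh p.1 (frame p j) p.2) * hh p.1 p.2 (frame p i)).re =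
      -(Real.exp (-2 * f p.1)) ^ 2 * K0 i j := by
    have g := g0_frame hp j i
    rw [g0] at g
    rw [← hh_conj p.1 p.2 (frame p j), hh_v_frame hp, hh_v_frame hp, hh_self, hK]
    rw [hm] at g ⊢
    rw [hs] at g
    generalize Real.exp (-2 * f p.1) = m at *
    simp only [Complex.add_re, Complex.sub_re, Complex.mul_re, Complex.sub_im, Complex.mul_im,
      Complex.neg_re, Complex.neg_im, Complex.I_re, Complex.I_im,
      Complex.conj_re, Complex.conj_im, Complex.ofReal_re, Complex.ofReal_im, g]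
    ring
  show -gg f p.1 (curv (Gam f) p.1 (frame p j) p.2 p.2) (frame p i) = _
  rw [gg_apply, curv_formula hf hp, e3, hz, hz', g0_frame hp, hm, hs]
  generalize Real.exp (-2 * f p.1) = m at *
  generalize Real.exp (2 * f p.1) = e at *
  linear_combination (m * K0 i j + TT f p.1 p.2 p.2 * (1 : M3) i j +
    TT f p.1 (frame p j) (frame p i)) * he

theorem Kmat_symm {f : EE → ℝ} (hf : ∀ n : ℕ, ContDiffOn ℝ n f Bl) {p : EE × EE} (hp : p.1 ∈ Bl)
    (h1 : en f p = 1) : (Kmat f p)ᵀ = Kmat f p := by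
  ext i j
  rw [Matrix.transpose_apply, Kmat_eq hf hp h1, Kmat_eq hf hp h1,
    TT_symm hf hp (frame p i) (frame p j)]
  have hK : K0 j i = K0 i j := by
    fin_cases i <;> fin_cases j <;> simp [K0]
  have hs : (1 : M3) j i = (1 : M3) i j := by
    simp only [Matrix.one_apply, eq_comm]
  rw [hK, hs]

theorem Kmat_pinch {f : EE → ℝ} (hf : Conf f) {p : EE × EE} (hp : p.1 ∈ Bl)
    (h1 : en f p = 1) (u : Fin 3 → ℝ) :
    9 / 10 * nsq u ≤ u ⬝ᵥ (Kmat f p *ᵥ u) ∧ u ⬝ᵥ (Kmat f p *ᵥ u) ≤ 5 * nsq u := by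
  have hs := hf.smooth
  have hm : g0 p.1 p.2 p.2 = Real.exp (-2 * f p.1) := by
    rw [g0_of_gg f]; rw [en] at h1; rw [h1, mul_one]
  set y : EE := u 0 • frame p 0 + u 1 • frame p 1 + u 2 • frame p 2 with hy
  have e1 : g0 p.1 y y = Real.exp (-2 * f p.1) * nsq u := by
    simp only [hy, g0_add_left, g0_add_right, g0_smul_left, g0_smul_right, g0_frame hp, hm, nsq]
    simp
    ring
  have e2 : u ⬝ᵥ (Kmat f p *ᵥ u) = Real.exp (-2 * f p.1) * (nsq u + 3 * u 0 ^ 2) +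
      TT f p.1 p.2 p.2 * nsq u + TT f p.1 y y := by
    simp only [hy, TT_add_left, TT_add_right hs hp, TT_smul_left, TT_smul_right hs hp, nsq,
      dotProduct, Matrix.mulVec, Fin.sum_univ_three, Kmat_eq hs hp h1]
    simp [K0]
    ring
  have t1 := abs_le.mp (hf.Tb p.1 hp p.2)
  have t2 := abs_le.mp (hf.Tb p.1 hp y)
  have t3 := abs_le.mp (hf.fb p.1 hp)
  rw [hm] at t1
  rw [e1] at t2
  have m1 : 98 / 100 ≤ Real.exp (-2 * f p.1) := by
    have := Real.add_one_le_exp (-2 * f p.1)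
    linarith [t3.2]
  have m2 : Real.exp (-2 * f p.1) ≤ 103 / 100 := by
    have h2 := Real.add_one_le_exp (2 * f p.1)
    have h3 := exp_mul (f p.1)
    have h4 := Real.exp_pos (-2 * f p.1)
    nlinarith [t3.1]
  rw [e2]
  have n0 : 0 ≤ nsq u := by unfold nsq; positivity
  have n1 : u 0 ^ 2 ≤ nsq u := by unfold nsq; nlinarith [sq_nonneg (u 1), sq_nonneg (u 2)]
  have n2 := sq_nonneg (u 0)
  generalize Real.exp (-2 * f p.1) = m at *
  generalize nsq u = q at *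
  generalize u 0 ^ 2 = a at *
  have k1 := mul_le_mul_of_nonneg_right t1.1 n0
  have k2 := mul_le_mul_of_nonneg_right t1.2 n0
  have k3 := mul_le_mul_of_nonneg_right m1 n0
  have k4 := mul_le_mul_of_nonneg_right m2 n0
  have k5 : 0 ≤ m * a := mul_nonneg (by linarith) n2
  have k6 : m * a ≤ m * q := mul_le_mul_of_nonneg_left n1 (by linarith)
  constructor <;> nlinarith [t2.1, t2.2]

theorem Omat_antisymm {f : EE → ℝ} (hf : ∀ n : ℕ, ContDiffOn ℝ n f Bl) {p : EE × EE}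
    (hp : p.1 ∈ Bl) : (Omat f p)ᵀ = -Omat f p := by
  ext i j
  have hO : OO ∈ 𝓝 p := isOpen_OO.mem_nhds (mem_OO.mpr hp)
  have hc : HasDerivAt (fun s : ℝ => p + s • XX f p) (XX f p) 0 := by
    simpa using ((hasDerivAt_id (0 : ℝ)).smul_const (XX f p)).const_add p
  have h0 : p + (0 : ℝ) • XX f p = p := by simp
  have hx : HasDerivAt (fun s : ℝ => (p + s • XX f p).1) p.2 0 := hc.fst
  have hF : ∀ k, HasDerivAt (fun s : ℝ => frame (p + s • XX f p) k)
      (fderiv ℝ (fun q => frame q k) p (XX f p)) 0 := by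
    intro k
    have h1 : HasFDerivAt (fun q => frame q k) (fderiv ℝ (fun q => frame q k) p)
        (p + (0 : ℝ) • XX f p) := by
      rw [h0]
      exact (((contDiffOn_frame k 1).contDiffAt hO).differentiableAt (by simp)).hasFDerivAt
    exact h1.comp_hasDerivAt (0 : ℝ) hc
  have hE : HasDerivAt (fun s : ℝ => en f (p + s • XX f p)) 0 0 := by
    have h1 : HasFDerivAt (en f) (fderiv ℝ (en f) p) (p + (0 : ℝ) • XX f p) := by
      rw [h0]
      exact (((contDiffOn_en hf 1).contDiffAt hO).differentiableAt (by simp)).hasFDerivAt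
    have h2 := h1.comp_hasDerivAt (0 : ℝ) hc
    have h3 : fderiv ℝ (en f) p (XX f p) = 0 := by
      rw [fderiv_en hf hp]; simp [XX]
    rw [h3] at h2
    exact h2
  have hG := hasDerivAt_gg hf (x := fun s : ℝ => (p + s • XX f p).1)
    (a := fun s : ℝ => frame (p + s • XX f p) i) (b := fun s : ℝ => frame (p + s • XX f p) j)
    (t := 0) (by rw [h0]; exact hp) hx (hF i) (hF j)
  have hev : (fun s : ℝ => en f (p + s • XX f p) * (1 : M3) i j) =ᶠ[𝓝 0]
      fun s : ℝ => gg f (p + s • XX f p).1 (frame (p + s • XX f p) i)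
        (frame (p + s • XX f p) j) := by
    have : ∀ᶠ s : ℝ in 𝓝 0, p + s • XX f p ∈ OO :=
      hc.continuousAt.preimage_mem_nhds (by rw [h0]; exact hO)
    filter_upwards [this] with s hs
    rw [gg_frame f (mem_OO.mp hs)]
  have hu := (hE.mul_const ((1 : M3) i j)).unique (hG.congr_of_eventuallyEq hev)
  simp only [h0] at hu
  rw [gg_symm f p.1 (frame p i)] at hu
  show Omat f p j i = -Omat f p i j
  unfold Omat
  linarith

theorem Omat_zero {f : EE → ℝ} (hf : ∀ n : ℕ, ContDiffOn ℝ n f Bl) {p : EE × EE}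
    (hp : p.1 ∈ Bl) (h1 : en f p = 1) : Omat f p 0 0 = 0 ∧
      Omat f p 0 1 = fderiv ℝ f p.1 (frame p 2) ∧ Omat f p 0 2 = -fderiv ℝ f p.1 (frame p 1) := by
  have ha : ∀ i j, Omat f p j i = -Omat f p i j := fun i j =>
    congrFun (congrFun (Omat_antisymm hf hp) i) j
  have hm : g0 p.1 p.2 p.2 = Real.exp (-2 * f p.1) := by
    rw [g0_of_gg f]; rw [en] at h1; rw [h1, mul_one]
  have he := exp_mul (f p.1)
  have hD : fderiv ℝ (fun q => frame q 0) p (XX f p) = Complex.I • (-Gam f p.1 p.2 p.2) := by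
    have h : HasFDerivAt (fun q : EE × EE => Complex.I • q.2)
        (Complex.I • ContinuousLinearMap.snd ℝ EE EE) p := hasFDerivAt_snd.const_smul Complex.I
    have e : (fun q => frame q 0) = fun q : EE × EE => Complex.I • q.2 := rfl
    rw [e, h.fderiv]; rfl
  have hV : fderiv ℝ (fun q => frame q 0) p (XX f p) + Gam f p.1 p.2 (frame p 0) =
      fderiv ℝ f p.1 (Complex.I • p.2) • p.2 - fderiv ℝ f p.1 p.2 • (Complex.I • p.2) +
        g0 p.1 p.2 p.2 • (Complex.I • NN f p.1) := by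
    rw [hD, frame_zero]
    have h0 : g0 p.1 p.2 (Complex.I • p.2) = 0 := (g0_symm _ _ _).trans (g0_I_self _ _)
    simp only [Gam, Gam0, al_smul, h0]
    simp only [rsmul_eq]
    module
  have hz : ∀ k, g0 p.1 p.2 (frame p k) = 0 := by
    intro k; rw [g0, hh_v_frame hp]; simp
  have hk : ∀ k, k ≠ 0 → Omat f p k 0 = g0 p.1 (Complex.I • NN f p.1) (frame p k) := by
    intro k hk
    have h2 := g0_frame hp 0 k
    rw [frame_zero, Matrix.one_apply_ne hk.symm, mul_zero] at h2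
    unfold Omat
    rw [hV, gg_apply, g0_add_left, g0_sub_left, g0_smul_left, g0_smul_left, g0_smul_left, hz, h2,
      hm]
    linear_combination g0 p.1 (Complex.I • NN f p.1) (frame p k) * he
  refine ⟨by linarith [ha 0 0], ?_, ?_⟩
  · rw [ha 1 0, hk 1 (by decide), ← g0_NN f hp, frame_two, g0, g0, hh_smul_left, hh_smul_right]
    simp
  · rw [ha 2 0, hk 2 (by decide), ← g0_NN f hp, frame_two, g0_I_I]

theorem continuousOn_Kmat {f : EE → ℝ} (hf : ∀ n : ℕ, ContDiffOn ℝ n f Bl) :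
    ContinuousOn (Kmat f) OO := by
  refine continuousOn_pi.mpr fun i => continuousOn_pi.mpr fun j => ?_
  have hm : MapsTo (Prod.fst : EE × EE → EE) OO Bl := fun p hp => mem_OO.mp hp
  have cg : ContinuousOn (fun p : EE × EE => gg f p.1) OO :=
    (contDiffOn_gg hf 0).continuousOn.comp continuousOn_fst hm
  have cG : ContinuousOn (fun p : EE × EE => GamL f p.1) OO :=
    (contDiffOn_GamL hf 0).continuousOn.comp continuousOn_fst hm
  have cD := ((contDiffOn_GamL hf 1).continuousOn_fderiv_of_isOpen isOpen_Bl (by simp)).comp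
      continuousOn_fst hm
  have cF : ∀ k, ContinuousOn (fun p : EE × EE => frame p k) OO := fun k =>
    (contDiffOn_frame k 0).continuousOn
  have c2 : ContinuousOn (fun p : EE × EE => p.2) OO := continuousOn_snd
  have a1 := ((cD.clm_apply (cF j)).clm_apply c2).clm_apply c2
  have a2 := ((cD.clm_apply c2).clm_apply (cF j)).clm_apply c2
  have a3 := (cG.clm_apply (cF j)).clm_apply ((cG.clm_apply c2).clm_apply c2)
  have a4 := (cG.clm_apply c2).clm_apply ((cG.clm_apply (cF j)).clm_apply c2)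
  have a5 := ((cg.clm_apply (((a1.sub a2).add a3).sub a4)).clm_apply (cF i)).neg
  refine a5.congr fun p hp => ?_
  show -gg f p.1 (curv (Gam f) p.1 (frame p j) p.2 p.2) (frame p i) = _
  rw [curv_eq hf (mem_OO.mp hp)]
  rfl

theorem continuousOn_Omat {f : EE → ℝ} (hf : ∀ n : ℕ, ContDiffOn ℝ n f Bl) :
    ContinuousOn (Omat f) OO := by
  refine continuousOn_pi.mpr fun i => continuousOn_pi.mpr fun j => ?_
  have hm : MapsTo (Prod.fst : EE × EE → EE) OO Bl := fun p hp => mem_OO.mp hp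
  have cg : ContinuousOn (fun p : EE × EE => gg f p.1) OO :=
    (contDiffOn_gg hf 0).continuousOn.comp continuousOn_fst hm
  have cG : ContinuousOn (fun p : EE × EE => GamL f p.1) OO :=
    (contDiffOn_GamL hf 0).continuousOn.comp continuousOn_fst hm
  have cF : ∀ k, ContinuousOn (fun p : EE × EE => frame p k) OO := fun k =>
    (contDiffOn_frame k 0).continuousOn
  have cD : ContinuousOn (fun p : EE × EE => fderiv ℝ (fun q => frame q j) p) OO :=
    (contDiffOn_frame j 1).continuousOn_fderiv_of_isOpen isOpen_OO (by simp)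
  have cX : ContinuousOn (XX f) OO := (contDiffOn_XX hf 0).continuousOn
  have c2 : ContinuousOn (fun p : EE × EE => p.2) OO := continuousOn_snd
  exact (cg.clm_apply ((cD.clm_apply cX).add ((cG.clm_apply c2).clm_apply (cF j)))).clm_apply
    (cF i)

end Pool.Agent.MP_019006_gt

end

section

set_option autoImplicit false

open MeasureTheory Filter Topology Set Matrix

namespace Pool.Agent.MP_019006_gt

namespace Loc

/-- Bounds for the profile. -/
structure Bd (F : EE → ℝ) (K : ℝ) : Prop where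
  one : 1 ≤ K
  b0 : ∀ y, |F y| ≤ K
  b1 : ∀ y, ‖fderiv ℝ F y‖ ≤ K
  b2 : ∀ y u, ‖u‖ ≤ 3 → |HH F y u| ≤ K
  b3 : ∀ y y' u u', ‖u‖ ≤ 3 → ‖u'‖ ≤ 3 → |HH F y u - HH F y' u'| ≤ K * (‖y - y'‖ + ‖u - u'‖)
  c2 : ∀ u, Continuous fun y => HH F y u
  z2 : ∀ y u, 1 < ‖y‖ → HH F y u = 0
  sm : ContDiff ℝ 2 F

section gen

variable {E : Type} [NormedAddCommGroup E] [NormedSpace ℝ E]

theorem HH_eq {F : E → ℝ} (hF : ContDiff ℝ 2 F) (y u : E) :
    fderiv ℝ (fun z => fderiv ℝ F z u) y u = fderiv ℝ (fderiv ℝ F) y u u := by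
  have h1 : DifferentiableAt ℝ (fderiv ℝ F) y :=
    ((hF.fderiv_right (m := 1) (by norm_num)).differentiable (by norm_num)) y
  rw [fderiv_clm_apply h1 (differentiableAt_const u)]
  simp

theorem bil_le (B : E →L[ℝ] E →L[ℝ] ℝ) (u w : E) : |B u w| ≤ ‖B‖ * ‖u‖ * ‖w‖ := by
  simpa using B.le_opNorm₂ u w

theorem bil_sub (B B' : E →L[ℝ] E →L[ℝ] ℝ) {c K : ℝ} {u u' : E} (hd : ‖B - B'‖ ≤ c)
    (hK : ‖B'‖ ≤ K) (hu : ‖u‖ ≤ 3) (hu' : ‖u'‖ ≤ 3) :
    |B u u - B' u' u'| ≤ 9 * c + 6 * K * ‖u - u'‖ := by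
  have e : B u u - B' u' u' = (B - B') u u + B' (u - u') u + B' u' (u - u') := by
    simp only [_root_.sub_apply, map_sub]; ring
  have c0 : 0 ≤ c := (norm_nonneg (B - B')).trans hd
  have k0 : 0 ≤ K := (norm_nonneg B').trans hK
  have a1 : |(B - B') u u| ≤ c * 3 * 3 := (bil_le _ _ _).trans (by gcongr)
  have a2 : |B' (u - u') u| ≤ K * ‖u - u'‖ * 3 := (bil_le _ _ _).trans (by gcongr)
  have a3 : |B' u' (u - u')| ≤ K * 3 * ‖u - u'‖ := (bil_le _ _ _).trans (by gcongr)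
  rw [e]
  have := abs_add_three ((B - B') u u) (B' (u - u') u) (B' u' (u - u'))
  linarith

theorem gen_lip {V : Type} [NormedAddCommGroup V] [NormedSpace ℝ V] {G : E → V}
    (hc : HasCompactSupport G) (h : ContDiff ℝ 2 G) : ∃ C : ℝ, 0 ≤ C ∧ (∀ y, ‖fderiv ℝ G y‖ ≤ C) ∧
      ∀ y y', ‖fderiv ℝ G y - fderiv ℝ G y'‖ ≤ C * ‖y - y'‖ := by
  have h1 : ContDiff ℝ 1 (fderiv ℝ G) := h.fderiv_right (m := 1) (by norm_num)
  obtain ⟨K2, hK2⟩ := (hc.fderiv ℝ).exists_bound_of_continuous h1.continuous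
  obtain ⟨K3, hK3⟩ := ContDiff.lipschitzWith_of_hasCompactSupport (hc.fderiv ℝ) h1 (by norm_num)
  have k2 : 0 ≤ K2 := (norm_nonneg _).trans (hK2 0)
  have k3 : 0 ≤ (K3 : ℝ) := K3.2
  refine ⟨K2 + K3, by linarith, fun y => by linarith [hK2 y], fun y y' => ?_⟩
  have := hK3.dist_le_mul y y'
  rw [dist_eq_norm, dist_eq_norm] at this
  refine this.trans ?_
  gcongr; linarith

theorem exists_bd_gen {F : E → ℝ} (hc : HasCompactSupport F) (h3 : ContDiff ℝ 3 F) :
    ∃ K : ℝ, 1 ≤ K ∧ (∀ y, |F y| ≤ K) ∧ (∀ y, ‖fderiv ℝ F y‖ ≤ K) ∧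
      (∀ y u, ‖u‖ ≤ 3 → |fderiv ℝ (fun z => fderiv ℝ F z u) y u| ≤ K) ∧
      (∀ y y' u u', ‖u‖ ≤ 3 → ‖u'‖ ≤ 3 → |fderiv ℝ (fun z => fderiv ℝ F z u) y u -
        fderiv ℝ (fun z => fderiv ℝ F z u') y' u'| ≤ K * (‖y - y'‖ + ‖u - u'‖)) ∧
      ∀ u, Continuous fun y => fderiv ℝ (fun z => fderiv ℝ F z u) y u := by
  have h2 : ContDiff ℝ 2 F := h3.of_le (by norm_num)
  have h31 : ContDiff ℝ 2 (fderiv ℝ F) := h3.fderiv_right (m := 2) (by norm_num)
  have h32 : ContDiff ℝ 1 (fderiv ℝ (fderiv ℝ F)) := h31.fderiv_right (m := 1) (by norm_num)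
  obtain ⟨K0, hK0⟩ := hc.exists_bound_of_continuous h2.continuous
  obtain ⟨K1, hK1⟩ := (hc.fderiv ℝ).exists_bound_of_continuous h31.continuous
  obtain ⟨K2, k2, hK2, hK3⟩ := gen_lip (hc.fderiv ℝ) h31
  have k0 : 0 ≤ K0 := (norm_nonneg _).trans (hK0 0)
  have k1 : 0 ≤ K1 := (norm_nonneg _).trans (hK1 0)
  refine ⟨1 + K0 + K1 + 9 * K2, by linarith, fun y => ?_, fun y => ?_, fun y u hu => ?_,
    fun y y' u u' hu hu' => ?_, fun u => ?_⟩
  · have := hK0 y
    rw [Real.norm_eq_abs] at this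
    linarith
  · have := hK1 y
    linarith
  · rw [HH_eq h2]
    have h := bil_le (fderiv ℝ (fderiv ℝ F) y) u u
    have : ‖fderiv ℝ (fderiv ℝ F) y‖ * ‖u‖ * ‖u‖ ≤ K2 * 3 * 3 := by
      gcongr
      exact hK2 y
    linarith
  · rw [HH_eq h2, HH_eq h2]
    refine (bil_sub _ _ (hK3 y y') (hK2 y') hu hu').trans ?_
    have n1 := norm_nonneg (y - y')
    have n2 := norm_nonneg (u - u')
    have m1 : 9 * (K2 * ‖y - y'‖) ≤ (1 + K0 + K1 + 9 * K2) * ‖y - y'‖ := by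
      rw [← mul_assoc]; gcongr; linarith
    have m2 : 6 * K2 * ‖u - u'‖ ≤ (1 + K0 + K1 + 9 * K2) * ‖u - u'‖ := by
      gcongr; linarith
    linarith
  · simp only [HH_eq h2]
    exact ((h32.continuous).clm_apply continuous_const).clm_apply continuous_const

end gen

theorem exists_bd {F : EE → ℝ} {s₀ : ℝ} (hF : IsProfile F s₀) : ∃ K, Bd F K := by
  have hc : HasCompactSupport F := by
    refine HasCompactSupport.intro (isCompact_closedBall (0 : EE) 1) fun x hx => hF.supp x ?_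
    simp only [Metric.mem_closedBall, dist_zero_right, not_le] at hx
    exact hx.le
  have h2 : ContDiff ℝ 2 F := by exact_mod_cast hF.smooth 2
  have h3 : ContDiff ℝ 3 F := by exact_mod_cast hF.smooth 3
  obtain ⟨K, k1, k2, k3, k4, k5, k6⟩ := exists_bd_gen hc h3
  refine ⟨K, k1, k2, k3, k4, k5, k6, fun y u hy => ?_, h2⟩
  have ho : IsOpen {z : EE | 1 < ‖z‖} := isOpen_lt continuous_const continuous_norm
  have e1 : ∀ z : EE, 1 < ‖z‖ → fderiv ℝ F z = 0 := fun z hz => by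
    have : F =ᶠ[𝓝 z] fun _ => 0 := by
      filter_upwards [ho.mem_nhds hz] with t ht using hF.supp t (le_of_lt ht)
    rw [this.fderiv_eq]; simp
  have : (fun z => fderiv ℝ F z u) =ᶠ[𝓝 y] fun _ => 0 := by
    filter_upwards [ho.mem_nhds hy] with t ht
    rw [e1 t ht]; rfl
  unfold HH
  rw [this.fderiv_eq]; simp

section local_f

variable {F : EE → ℝ} {K ε r : ℝ} {f : EE → ℝ}

theorem fderiv_f0 (hF : ContDiff ℝ 2 F) (hr : 0 < r) (x : EE) :
    fderiv ℝ (f0 F ε r) x = (ε * r) • fderiv ℝ F (r⁻¹ • x) := by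
  have hd : DifferentiableAt ℝ F (r⁻¹ • x) := hF.differentiable (by norm_num) _
  have h1 : HasFDerivAt (fun y : EE => r⁻¹ • y) (r⁻¹ • ContinuousLinearMap.id ℝ EE) x :=
    (hasFDerivAt_id x).const_smul r⁻¹
  have h2 := (hd.hasFDerivAt.comp x h1).const_mul (ε * r ^ 2)
  have h3 : HasFDerivAt (f0 F ε r) _ x := h2
  rw [h3.fderiv]
  ext u
  simp only [_root_.smul_apply, ContinuousLinearMap.comp_apply,
    ContinuousLinearMap.id_apply, map_smul, smul_eq_mul]
  field_simp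

theorem fderiv_loc (hF : ContDiff ℝ 2 F) (hr : 0 < r)
    (hf : ∀ x, ‖x‖ < 1 / 2 → f x = f0 F ε r x) {x : EE} (hx : ‖x‖ < 1 / 2) :
    fderiv ℝ f x = (ε * r) • fderiv ℝ F (r⁻¹ • x) := by
  have ho : IsOpen {z : EE | ‖z‖ < 1 / 2} := isOpen_lt continuous_norm continuous_const
  have : f =ᶠ[𝓝 x] f0 F ε r := by
    filter_upwards [ho.mem_nhds hx] with t ht using hf t ht
  rw [this.fderiv_eq, fderiv_f0 hF hr]

theorem fderiv2_loc (hF : ContDiff ℝ 2 F) (hr : 0 < r)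
    (hf : ∀ x, ‖x‖ < 1 / 2 → f x = f0 F ε r x) {x : EE} (hx : ‖x‖ < 1 / 2) (u : EE) :
    fderiv ℝ (fun y => fderiv ℝ f y u) x u = ε * HH F (r⁻¹ • x) u := by
  have ho : IsOpen {z : EE | ‖z‖ < 1 / 2} := isOpen_lt continuous_norm continuous_const
  have e : (fun y => fderiv ℝ f y u) =ᶠ[𝓝 x]
      fun y => (ε * r) * (fun z => fderiv ℝ F z u) (r⁻¹ • y) := by
    filter_upwards [ho.mem_nhds hx] with t ht
    rw [fderiv_loc hF hr hf ht]; rfl
  have hd : DifferentiableAt ℝ (fun z => fderiv ℝ F z u) (r⁻¹ • x) :=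
    (((hF.fderiv_right (m := 1) (by norm_num)).differentiable (by norm_num)) _).clm_apply
      (differentiableAt_const u)
  have h1 : HasFDerivAt (fun y : EE => r⁻¹ • y) (r⁻¹ • ContinuousLinearMap.id ℝ EE) x :=
    (hasFDerivAt_id x).const_smul r⁻¹
  have h2 := (hd.hasFDerivAt.comp x h1).const_mul (ε * r)
  have h3 : HasFDerivAt (fun y => (ε * r) * (fun z => fderiv ℝ F z u) (r⁻¹ • y)) _ x := h2
  rw [e.fderiv_eq, h3.fderiv]
  simp only [_root_.smul_apply, ContinuousLinearMap.comp_apply,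
    ContinuousLinearMap.id_apply, map_smul, smul_eq_mul, HH]
  field_simp

theorem norm_fderiv_loc (hF : Bd F K) (hε : 0 < ε) (hε1 : ε ≤ 1) (hr : 0 < r)
    (hf : ∀ x, ‖x‖ < 1 / 2 → f x = f0 F ε r x) {x : EE} (hx : ‖x‖ < 1 / 2) :
    ‖fderiv ℝ f x‖ ≤ K * r := by
  rw [fderiv_loc hF.sm hr hf hx, norm_smul, Real.norm_eq_abs, abs_of_pos (mul_pos hε hr)]
  have := hF.b1 (r⁻¹ • x)
  have k : 0 ≤ K := by linarith [hF.one]
  calc ε * r * ‖fderiv ℝ F (r⁻¹ • x)‖ ≤ 1 * r * K := by gcongr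
    _ = K * r := by ring

theorem abs_f_loc (hF : Bd F K) (hε : 0 < ε) (hε1 : ε ≤ 1)
    (hf : ∀ x, ‖x‖ < 1 / 2 → f x = f0 F ε r x) {x : EE} (hx : ‖x‖ < 1 / 2) :
    |f x| ≤ K * r ^ 2 := by
  rw [hf x hx, f0, abs_mul, abs_of_nonneg (by positivity : 0 ≤ ε * r ^ 2)]
  have := hF.b0 (r⁻¹ • x)
  calc ε * r ^ 2 * |F (r⁻¹ • x)| ≤ 1 * r ^ 2 * K := by gcongr
    _ = K * r ^ 2 := by ring

end local_f

theorem mem_Bl_of {x : EE} (hx : ‖x‖ < 1 / 2) : x ∈ Bl := mem_Bl.2 (by linarith)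

theorem Dd_ge {x : EE} (hx : ‖x‖ < 1 / 2) : 3 / 4 ≤ Dd x := by
  unfold Dd
  nlinarith [norm_nonneg x]

theorem norm_Gam0_le {x : EE} (hx : ‖x‖ < 1 / 2) (u : EE) :
    ‖Gam0 x u u‖ ≤ 3 * ‖x‖ * ‖u‖ ^ 2 := by
  have hD := Dd_ge hx
  have h1 : ‖al x u‖ ≤ 4 / 3 * (‖u‖ * ‖x‖) := by
    unfold al
    rw [norm_div, Complex.norm_real, Real.norm_eq_abs, abs_of_pos (by linarith),
      div_le_iff₀ (by linarith)]
    have := norm_ip_le u x
    have h0 : 0 ≤ ‖u‖ * ‖x‖ := by positivity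
    nlinarith
  unfold Gam0
  calc ‖al x u • u + al x u • u‖ ≤ ‖al x u • u‖ + ‖al x u • u‖ := norm_add_le _ _
    _ = 2 * ‖al x u‖ * ‖u‖ := by rw [norm_smul]; ring
    _ ≤ 2 * (4 / 3 * (‖u‖ * ‖x‖)) * ‖u‖ := by gcongr
    _ ≤ 3 * ‖x‖ * ‖u‖ ^ 2 := by
      have : 0 ≤ ‖x‖ * ‖u‖ ^ 2 := by positivity
      nlinarith

theorem norm_NN_le (f : EE → ℝ) {x : EE} (hx : ‖x‖ < 1 / 2) :
    ‖NN f x‖ ≤ 2 * ‖fderiv ℝ f x‖ := by
  have hg : ‖gradient f x‖ = ‖fderiv ℝ f x‖ := by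
    unfold gradient
    exact (InnerProductSpace.toDual ℝ EE).symm.norm_map _
  have hD := Dd_ge hx
  have hD1 := Dd_le_one x
  unfold NN
  rw [norm_smul, Real.norm_eq_abs, abs_of_pos (by linarith), ← hg]
  have h1 := norm_sub_le (gradient f x) (ip (gradient f x) x • x)
  rw [norm_smul] at h1
  have h2 := norm_ip_le (gradient f x) x
  have h3 : ‖ip (gradient f x) x‖ * ‖x‖ ≤ ‖gradient f x‖ * ‖x‖ * ‖x‖ := by gcongr
  have h4 : ‖gradient f x‖ * ‖x‖ * ‖x‖ ≤ ‖gradient f x‖ * 1 * 1 := by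
    gcongr <;> linarith
  calc Dd x * ‖gradient f x - ip (gradient f x) x • x‖
      ≤ 1 * ‖gradient f x - ip (gradient f x) x • x‖ := by gcongr
    _ ≤ 2 * ‖gradient f x‖ := by linarith

theorem g0_le {x : EE} (hx : ‖x‖ < 1 / 2) (u : EE) : 0 ≤ g0 x u u ∧ g0 x u u ≤ 2 * ‖u‖ ^ 2 := by
  obtain ⟨h1, -, h3⟩ := g0_bounds (mem_Bl_of hx) u
  have hD := Dd_ge hx
  refine ⟨le_trans (by positivity) h1, h3.trans ?_⟩
  rw [div_le_iff₀ (by positivity)]
  have : 9 / 16 ≤ Dd x ^ 2 := by nlinarith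
  nlinarith [sq_nonneg ‖u‖]

theorem norm_L0_sub {x : EE} (hx : ‖x‖ < 1 / 2) (w : EE) : ‖L0 x w - w‖ ≤ 2 * ‖x‖ ^ 2 * ‖w‖ := by
  have hD := Dd_ge hx
  have hD1 := Dd_le_one x
  set s := Real.sqrt (Dd x) with hs
  have s0 : 0 ≤ s := Real.sqrt_nonneg _
  have s1 : s ≤ 1 := Real.sqrt_le_one.2 hD1
  have s2 : s ^ 2 = Dd x := Real.sq_sqrt (by linarith)
  have s3 : 1 - s ≤ ‖x‖ ^ 2 := by
    have : Dd x = 1 - ‖x‖ ^ 2 := rfl
    nlinarith
  have e : L0 x w - w = (s - 1) • w - s • ((ip w x / (1 + s : ℝ)) • x) := by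
    unfold L0
    rw [← hs, smul_sub, sub_smul, one_smul]
    abel
  have h1 : ‖(s - 1) • w‖ ≤ ‖x‖ ^ 2 * ‖w‖ := by
    rw [norm_smul, Real.norm_eq_abs, abs_of_nonpos (by linarith)]
    gcongr
    linarith
  have h2 : ‖s • ((ip w x / (1 + s : ℝ)) • x)‖ ≤ ‖x‖ ^ 2 * ‖w‖ := by
    rw [norm_smul, norm_smul, norm_div, Complex.norm_real, Real.norm_eq_abs, Real.norm_eq_abs,
      abs_of_nonneg s0, abs_of_pos (by linarith)]
    have a1 : ‖ip w x‖ / (1 + s) ≤ ‖w‖ * ‖x‖ :=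
      (div_le_self (norm_nonneg _) (by linarith)).trans (norm_ip_le w x)
    calc s * (‖ip w x‖ / (1 + s) * ‖x‖) ≤ 1 * (‖w‖ * ‖x‖ * ‖x‖) := by gcongr
      _ = ‖x‖ ^ 2 * ‖w‖ := by ring
  rw [e]
  linarith [norm_sub_le ((s - 1) • w) (s • ((ip w x / (1 + s : ℝ)) • x))]

theorem norm_Linv0_le {x : EE} (hx : ‖x‖ < 1 / 2) (v : EE) :
    ‖Linv0 x v‖ ≤ 2 * ‖v‖ ∧ ‖Linv0 x v - v‖ ≤ 4 * ‖x‖ ^ 2 * ‖v‖ := by
  have h1 := norm_L0_sub hx (Linv0 x v)
  rw [L0_Linv0 (mem_Bl_of hx), norm_sub_rev] at h1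
  have h2 : ‖Linv0 x v‖ ≤ ‖v‖ + ‖Linv0 x v - v‖ := by
    have := norm_add_le v (Linv0 x v - v)
    rwa [add_sub_cancel] at this
  have h3 : ‖x‖ ^ 2 ≤ 1 / 4 := by nlinarith [norm_nonneg x]
  have h4 : 2 * ‖x‖ ^ 2 * ‖Linv0 x v‖ ≤ 2 * (1 / 4) * ‖Linv0 x v‖ := by gcongr
  have h5 : ‖Linv0 x v‖ ≤ 2 * ‖v‖ := by linarith
  refine ⟨h5, h1.trans ?_⟩
  calc 2 * ‖x‖ ^ 2 * ‖Linv0 x v‖ ≤ 2 * ‖x‖ ^ 2 * (2 * ‖v‖) := by gcongr
    _ = 4 * ‖x‖ ^ 2 * ‖v‖ := by ring

theorem perp_sub (u w : EE) : perp u - perp w = perp (u - w) := by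
  ext i
  fin_cases i
  · simp [perp]; ring
  · simp [perp]

theorem norm_e1_sub {x : EE} (hx : ‖x‖ < 1 / 2) (v w : EE) :
    ‖L0 x (perp (Linv0 x v)) - perp w‖ ≤ 8 * ‖x‖ ^ 2 * ‖v‖ + ‖v - w‖ := by
  obtain ⟨h1, h2⟩ := norm_Linv0_le hx v
  have h3 := norm_L0_sub hx (perp (Linv0 x v))
  rw [norm_perp] at h3
  have h4 : ‖perp (Linv0 x v) - perp w‖ ≤ ‖Linv0 x v - v‖ + ‖v - w‖ := by
    rw [perp_sub, norm_perp]
    exact norm_sub_le_norm_sub_add_norm_sub _ _ _
  have h5 := norm_sub_le_norm_sub_add_norm_sub (L0 x (perp (Linv0 x v))) (perp (Linv0 x v)) (perp w)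
  have h6 : 2 * ‖x‖ ^ 2 * ‖Linv0 x v‖ ≤ 2 * ‖x‖ ^ 2 * (2 * ‖v‖) := by gcongr
  linarith

end Loc

end Pool.Agent.MP_019006_gt

end
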