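import Pool.Agent.MP_019006_gt.JobDefs

section

set_option autoImplicit false

open MeasureTheory Filter Topology Set Matrix
open scoped NNReal

namespace Pool.Agent.MP_019006_gt.FE

/-- The constant of the two-sided Gronwall inequality. -/
noncomputable def gr (K T : ℝ) : ℝ := gronwallBound 1 K 1 T

theorem gronwallBound_lin (δ K ε x : ℝ) :
    gronwallBound δ K ε x = δ * gronwallBound 1 K 0 x + ε * gronwallBound 0 K 1 x := by
  unfold gronwallBound
  split_ifs <;> ring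

theorem gb_le {δ K ε x T : ℝ} (hδ : 0 ≤ δ) (hε : 0 ≤ ε) (hK : 0 ≤ K) (hT : 0 ≤ T) (hx : x ≤ T) :
    gronwallBound δ K ε x ≤ gr K T * (δ + ε) := by
  have h1 : 0 ≤ gronwallBound 1 K 0 T := by
    have := gronwallBound_mono zero_le_one le_rfl hK hT
    rw [gronwallBound_x0] at this
    linarith
  have h2 : 0 ≤ gronwallBound 0 K 1 T := by
    have := gronwallBound_mono le_rfl zero_le_one hK hT
    rwa [gronwallBound_x0] at this
  refine (gronwallBound_mono hδ hε hK hx).trans ?_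
  rw [gr, gronwallBound_lin δ, gronwallBound_lin 1 K 1]
  nlinarith [mul_nonneg hδ h2, mul_nonneg hε h1]

theorem gr_nonneg {K T : ℝ} (hK : 0 ≤ K) (hT : 0 ≤ T) : 0 ≤ gr K T := by
  have := gronwallBound_mono zero_le_one zero_le_one hK hT
  rw [gronwallBound_x0] at this
  unfold gr
  linarith

theorem gr_mono {K T T' : ℝ} (hK : 0 ≤ K) (h : T ≤ T') : gr K T ≤ gr K T' :=
  gronwallBound_mono zero_le_one zero_le_one hK h

variable {E : Type} [NormedAddCommGroup E] [NormedSpace ℝ E]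

theorem gronwall_pos {f f' : ℝ → E} {δ K ε T : ℝ} (hδ : 0 ≤ δ) (hε : 0 ≤ ε) (hK : 0 ≤ K)
    (hf : ∀ t ∈ Ioo (-T) T, HasDerivAt f (f' t) t) (h0 : ‖f 0‖ ≤ δ)
    (hb : ∀ t ∈ Ioo (-T) T, ‖f' t‖ ≤ K * ‖f t‖ + ε) {t : ℝ} (ht0 : 0 ≤ t) (ht : t < T) :
    ‖f t‖ ≤ gr K T * (δ + ε) := by
  have hs : Icc 0 t ⊆ Ioo (-T) T := fun s hs => ⟨by linarith [hs.1], by linarith [hs.2]⟩
  have := norm_le_gronwallBound_of_norm_deriv_right_le (a := 0) (b := t)
    (HasDerivAt.continuousOn fun s hs' => hf s (hs hs'))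
    (fun s hs' => (hf s (hs (Ico_subset_Icc_self hs'))).hasDerivWithinAt) h0
    (fun s hs' => hb s (hs (Ico_subset_Icc_self hs'))) t ⟨ht0, le_rfl⟩
  exact this.trans (gb_le hδ hε hK (by linarith) (by linarith))

theorem gronwall2 {f f' : ℝ → E} {δ K ε T : ℝ} (hδ : 0 ≤ δ) (hε : 0 ≤ ε) (hK : 0 ≤ K)
    (hf : ∀ t ∈ Ioo (-T) T, HasDerivAt f (f' t) t) (h0 : ‖f 0‖ ≤ δ)
    (hb : ∀ t ∈ Ioo (-T) T, ‖f' t‖ ≤ K * ‖f t‖ + ε) {t : ℝ} (ht : t ∈ Ioo (-T) T) :
    ‖f t‖ ≤ gr K T * (δ + ε) := by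
  rcases le_total 0 t with h | h
  · exact gronwall_pos hδ hε hK hf h0 hb h ht.2
  · have hn : ∀ s ∈ Ioo (-T) T, -s ∈ Ioo (-T) T := fun s hs => ⟨by linarith [hs.2], by linarith [hs.1]⟩
    have := gronwall_pos (f := fun s => f (-s)) (f' := fun s => -f' (-s)) (T := T) hδ hε hK
      (fun s hs => by
        simpa [Function.comp_def] using (hf (-s) (hn s hs)).scomp s (hasDerivAt_neg s))
      (by simpa using h0) (fun s hs => by simpa using hb (-s) (hn s hs)) (t := -t) (by linarith)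
      (by linarith [ht.1])
    simpa using this

theorem exists_Ioo [FiniteDimensional ℝ E] {f : ℝ → E → E} {K : ℝ≥0}
    (hK : ∀ t, LipschitzWith K (f t)) (hc : ∀ x, Continuous (f · x)) (x₀ : E) {T : ℝ} (hT : 0 < T) :
    ∃ α : ℝ → E, α 0 = x₀ ∧ ∀ t ∈ Ioo (-T) T, HasDerivAt α (f t (α t)) t := by
  have : CompleteSpace E := FiniteDimensional.complete ℝ E
  obtain ⟨B, hB⟩ := (isCompact_Icc (a := -T) (b := T)).exists_bound_of_continuousOn
    (hc 0).continuousOn
  have hB0 : 0 ≤ B := (norm_nonneg _).trans (hB 0 ⟨by linarith, hT.le⟩)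
  have hlin : ∀ t ∈ Icc (-T) T, ∀ x, ‖f t x‖ ≤ K * ‖x‖ + B := fun t ht x => by
    have h1 := (hK t).dist_le_mul x 0
    rw [dist_eq_norm, dist_zero_right] at h1
    have h2 := norm_le_norm_sub_add (f t x) (f t 0)
    linarith [hB t ht]
  set R := gr K T * (‖x₀‖ + B) with hR
  have hR0 : 0 ≤ R := mul_nonneg (gr_nonneg K.coe_nonneg hT.le) (by positivity)
  let χ : ContDiffBump (0 : E) := ⟨R + 1, R + 2, by linarith, by linarith⟩
  let ρ : E → E := fun x => χ x • x
  obtain ⟨K', hK'⟩ : ∃ K', LipschitzWith K' ρ :=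
    ContDiff.lipschitzWith_of_hasCompactSupport (𝕂 := ℝ) (n := 1)
      (χ.hasCompactSupport.smul_right) (χ.contDiff.smul contDiff_id) one_ne_zero
  have hρ1 : ∀ x, ‖ρ x‖ ≤ ‖x‖ := fun x => by
    rw [norm_smul, Real.norm_of_nonneg χ.nonneg]
    exact mul_le_of_le_one_left (norm_nonneg _) χ.le_one
  have hρ2 : ∀ x, ‖ρ x‖ ≤ R + 2 := fun x => by
    by_cases h : ‖x‖ ≤ R + 2
    · exact (hρ1 x).trans h
    · have : χ x = 0 := χ.zero_of_le_dist (by rw [dist_zero_right]; exact (not_le.1 h).le)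
      simp only [ρ, this, zero_smul, norm_zero]
      linarith
  let L : ℝ≥0 := ⟨K * (R + 2) + B, by positivity⟩
  have hpl : IsPicardLindelof (fun t x => f t (ρ x)) (tmin := -T) (tmax := T)
      ⟨0, by linarith, hT.le⟩ x₀ (L * ⟨T, hT.le⟩) 0 L (K * K') :=
    { lipschitzOnWith := fun t _ => ((hK t).comp hK').lipschitzOnWith
      continuousOn := fun x _ => (hc _).continuousOn
      norm_le := fun t ht x _ => (hlin t ht _).trans (by
        change _ ≤ K * (R + 2) + B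
        gcongr
        exact hρ2 x)
      mul_max_le := by simp; rfl }
  obtain ⟨α, h0, hα⟩ := hpl.exists_eq_forall_mem_Icc_hasDerivWithinAt₀
  have hα' : ∀ t ∈ Ioo (-T) T, HasDerivAt α (f t (ρ (α t))) t := fun t ht =>
    (hα t (Ioo_subset_Icc_self ht)).hasDerivAt (Icc_mem_nhds ht.1 ht.2)
  refine ⟨α, h0, fun t ht => ?_⟩
  have h1 : ‖α t‖ ≤ R := gronwall2 (norm_nonneg _) hB0 K.coe_nonneg hα' (le_of_eq (congrArg _ h0))
    (fun s hs => (hlin s (Ioo_subset_Icc_self hs) _).trans (by gcongr; exact hρ1 _)) ht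
  have h2 : ρ (α t) = α t := by
    have : χ (α t) = 1 := χ.one_of_mem_closedBall (by
      rw [mem_closedBall_zero_iff]
      change _ ≤ R + 1
      linarith)
    simp only [ρ, this, one_smul]
  have h3 := hα' t ht
  rwa [h2] at h3

theorem uniq_Ioo {f : ℝ → E → E} {K : ℝ≥0} (hK : ∀ t, LipschitzWith K (f t)) {α β : ℝ → E}
    {a b t₀ : ℝ} (ht₀ : t₀ ∈ Ioo a b) (hα : ∀ t ∈ Ioo a b, HasDerivAt α (f t (α t)) t)
    (hβ : ∀ t ∈ Ioo a b, HasDerivAt β (f t (β t)) t) (h : α t₀ = β t₀) : EqOn α β (Ioo a b) :=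
  ODE_solution_unique_of_mem_Ioo (s := fun _ => univ) (fun t _ => (hK t).lipschitzOnWith) ht₀
    (fun t ht => ⟨hα t ht, trivial⟩) (fun t ht => ⟨hβ t ht, trivial⟩) h

theorem exists_global [FiniteDimensional ℝ E] {f : ℝ → E → E} {K : ℝ≥0}
    (hK : ∀ t, LipschitzWith K (f t)) (hc : ∀ x, Continuous (f · x)) (x₀ : E) :
    ∃ α : ℝ → E, α 0 = x₀ ∧ ∀ t, HasDerivAt α (f t (α t)) t := by
  choose! α h0 hα using fun T (hT : 0 < T) => exists_Ioo hK hc x₀ hT
  have hcomp : ∀ T t, t ∈ Ioo (-T) T → α (|t| + 1) t = α T t := by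
    intro T t ht
    have hT : 0 < T := by linarith [ht.1, ht.2]
    have h1 : 0 < |t| + 1 := by positivity
    have hs1 : Ioo (-min T (|t| + 1)) (min T (|t| + 1)) ⊆ Ioo (-T) T :=
      Ioo_subset_Ioo (neg_le_neg (min_le_left _ _)) (min_le_left _ _)
    have hs2 : Ioo (-min T (|t| + 1)) (min T (|t| + 1)) ⊆ Ioo (-(|t| + 1)) (|t| + 1) :=
      Ioo_subset_Ioo (neg_le_neg (min_le_right _ _)) (min_le_right _ _)
    have hm : 0 < min T (|t| + 1) := lt_min hT h1
    refine uniq_Ioo hK (t₀ := 0) ⟨by linarith, hm⟩ (fun s hs => hα _ h1 s (hs2 hs))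
      (fun s hs => hα _ hT s (hs1 hs)) ((h0 _ h1).trans (h0 _ hT).symm) ?_
    exact abs_lt.1 (lt_min (abs_lt.2 ht) (by linarith))
  refine ⟨fun t => α (|t| + 1) t, h0 _ (by positivity), fun t => ?_⟩
  have ht : t ∈ Ioo (-(|t| + 1)) (|t| + 1) := abs_lt.1 (by linarith)
  refine (hα _ (by positivity) t ht).congr_of_eventuallyEq ?_
  filter_upwards [Ioo_mem_nhds ht.1 ht.2] with s hs
  exact hcomp _ s hs

theorem continuous_of_lip {P G : Type} [NormedAddCommGroup P] [NormedAddCommGroup G]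
    {g : ℝ → P → G} (h1 : ∀ p, Continuous (g · p))
    (h2 : ∀ T > 0, ∃ A, ∀ t ∈ Ioo (-T) T, ∀ p q, ‖g t p - g t q‖ ≤ A * ‖p - q‖) :
    Continuous fun q : ℝ × P => g q.1 q.2 := by
  refine continuous_iff_continuousAt.2 fun q => ?_
  obtain ⟨A, hA⟩ := h2 (|q.1| + 1) (by positivity)
  have ht : q.1 ∈ Ioo (-(|q.1| + 1)) (|q.1| + 1) := abs_lt.1 (by linarith)
  have := continuousOn_prod_of_continuousOn_lipschitzOnWith' (fun q : ℝ × P => g q.1 q.2)
    (s := Ioo (-(|q.1| + 1)) (|q.1| + 1)) (t := univ) (Real.toNNReal A)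
    (fun t ht => LipschitzOnWith.of_dist_le_mul fun p _ p' _ => by
      rw [dist_eq_norm, dist_eq_norm]
      exact (hA t ht p p').trans (by gcongr; exact Real.le_coe_toNNReal A))
    (fun p _ => (h1 p).continuousOn)
  exact this.continuousAt (prod_mem_nhds (Ioo_mem_nhds ht.1 ht.2) univ_mem)

/-- The flow of a globally defined field with Lipschitz derivative. -/
structure GFlow (Y : E → E) (ψ : ℝ → E → E) (N : ℝ → E → E →L[ℝ] E) : Prop where
  zero : ∀ p, ψ 0 p = p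
  deriv : ∀ t p, HasDerivAt (fun s => ψ s p) (Y (ψ t p)) t
  Nzero : ∀ p, N 0 p = ContinuousLinearMap.id ℝ E
  Nderiv : ∀ t p, HasDerivAt (fun s => N s p) ((fderiv ℝ Y (ψ t p)).comp (N t p)) t
  fd : ∀ t p, HasFDerivAt (ψ t) (N t p) p
  cont : Continuous fun q : ℝ × E => ψ q.1 q.2
  Ncont : Continuous fun q : ℝ × E => N q.1 q.2

theorem lip_comp {A : E →L[ℝ] E} {K : ℝ≥0} (hA : ‖A‖ ≤ K) :
    LipschitzWith K fun M : E →L[ℝ] E => A.comp M :=
  LipschitzWith.of_dist_le_mul fun M M' => by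
    rw [dist_eq_norm, dist_eq_norm, ← ContinuousLinearMap.comp_sub]
    exact (A.opNorm_comp_le _).trans (by gcongr)

theorem exists_gflow [FiniteDimensional ℝ E] {Y : E → E} {K K₂ : ℝ≥0}
    (hY : Differentiable ℝ Y) (hK : LipschitzWith K Y) (hK₂ : LipschitzWith K₂ (fderiv ℝ Y)) :
    ∃ ψ N, GFlow Y ψ N := by
  have hD : ∀ x, ‖fderiv ℝ Y x‖ ≤ K := fun x => norm_fderiv_le_of_lipschitz ℝ hK
  choose α h0 hα using fun p : E =>
    exists_global (f := fun _ => Y) (fun _ => hK) (fun _ => continuous_const) p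
  have hαc : ∀ p, Continuous (α p) := fun p =>
    continuous_iff_continuousAt.2 fun t => (hα p t).continuousAt
  choose β hβ0 hβ using fun p : E =>
    exists_global (f := fun t (M : E →L[ℝ] E) => (fderiv ℝ Y (α p t)).comp M)
      (fun t => lip_comp (hD _))
      (fun M => (hK₂.continuous.comp (hαc p)).clm_comp continuous_const)
      (ContinuousLinearMap.id ℝ E)
  have hlip : ∀ T, ∀ t ∈ Ioo (-T) T, ∀ p q, ‖α p t - α q t‖ ≤ gr K T * ‖p - q‖ := by
    intro T t ht p q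
    have := gronwall2 (f := fun s => α p s - α q s) (ε := 0) (norm_nonneg (p - q)) le_rfl K.coe_nonneg
      (fun s _ => (hα p s).sub (hα q s)) (by simp [h0]) (fun s _ => by
        rw [add_zero, ← dist_eq_norm, ← dist_eq_norm]
        exact hK.dist_le_mul _ _) ht
    rwa [add_zero] at this
  have hN : ∀ T, ∀ t ∈ Ioo (-T) T, ∀ p, ‖β p t‖ ≤ gr K T := by
    intro T t ht p
    have := gronwall2 (f := β p) (ε := 0) zero_le_one le_rfl K.coe_nonneg (fun s _ => hβ p s)
      (by rw [hβ0]; exact ContinuousLinearMap.norm_id_le) (fun s _ => by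
        rw [add_zero]
        exact (ContinuousLinearMap.opNorm_comp_le _ _).trans (by gcongr; exact hD _)) ht
    simpa using this
  have htay : ∀ x y, ‖Y y - Y x - fderiv ℝ Y x (y - x)‖ ≤ K₂ * ‖y - x‖ * ‖y - x‖ := by
    intro x y
    refine (convex_closedBall x ‖y - x‖).norm_image_sub_le_of_norm_fderiv_le' (fun z _ => hY z)
      (fun z hz => ?_) (Metric.mem_closedBall_self (norm_nonneg _)) (mem_closedBall_iff_norm.2 le_rfl)
    rw [← dist_eq_norm]
    exact (hK₂.dist_le_mul _ _).trans (by gcongr; exact hz)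
  refine ⟨fun t p => α p t, fun t p => β p t, h0, fun t p => hα p t, hβ0, fun t p => hβ p t,
    fun t p => ?_, continuous_of_lip hαc fun T _ => ⟨_, hlip T⟩, continuous_of_lip
      (fun p => continuous_iff_continuousAt.2 fun t => (hβ p t).continuousAt) fun T hT => ?_⟩
  · set T := |t| + 1 with hT
    have hT0 : 0 ≤ T := by positivity
    have ht : t ∈ Ioo (-T) T := abs_lt.1 (by linarith)
    have hg := gr_nonneg K.coe_nonneg hT0
    have key : ∀ q, ‖α q t - α p t - β p t (q - p)‖ ≤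
        gr K T * (K₂ * gr K T * gr K T) * ‖q - p‖ ^ 2 := by
      intro q
      have := gronwall2 (f := fun s => α q s - α p s - β p s (q - p)) (δ := 0)
        (f' := fun s => Y (α q s) - Y (α p s) - fderiv ℝ Y (α p s) (β p s (q - p)))
        (ε := K₂ * (gr K T * ‖q - p‖) * (gr K T * ‖q - p‖)) le_rfl (by positivity) K.coe_nonneg
        (fun s _ => ((hα q s).sub (hα p s)).sub (by
          simpa using (hβ p s).clm_apply (hasDerivAt_const s (q - p))))
        (by simp [h0, hβ0]) (fun s hs => by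
          have e : Y (α q s) - Y (α p s) - fderiv ℝ Y (α p s) (β p s (q - p)) =
              fderiv ℝ Y (α p s) (α q s - α p s - β p s (q - p)) +
                (Y (α q s) - Y (α p s) - fderiv ℝ Y (α p s) (α q s - α p s)) := by
            rw [map_sub (fderiv ℝ Y (α p s)) (α q s - α p s)]
            abel
          rw [e]
          refine (norm_add_le _ _).trans (add_le_add ?_ ((htay _ _).trans ?_))
          · exact (ContinuousLinearMap.le_opNorm _ _).trans (by gcongr; exact hD _)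
          · have := hlip T s hs q p
            gcongr) ht
      refine this.trans (le_of_eq ?_)
      ring
    rw [hasFDerivAt_iff_isLittleO]
    refine (Asymptotics.IsBigO.of_bound (gr K T * (K₂ * gr K T * gr K T))
      (Eventually.of_forall fun q => ?_)).trans_isLittleO
      (Asymptotics.isLittleO_pow_sub_sub p one_lt_two)
    rw [Real.norm_of_nonneg (by positivity)]
    exact key q
  · have hg := gr_nonneg K.coe_nonneg hT.le
    refine ⟨gr K T * (K₂ * gr K T * gr K T), fun t ht p q => ?_⟩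
    have := gronwall2 (f := fun s => β p s - β q s) (δ := 0)
      (ε := K₂ * (gr K T * ‖p - q‖) * gr K T) le_rfl (by positivity) K.coe_nonneg
      (fun s _ => (hβ p s).sub (hβ q s)) (by simp [hβ0]) (fun s hs => by
        have e : (fderiv ℝ Y (α p s)).comp (β p s) - (fderiv ℝ Y (α q s)).comp (β q s) =
            (fderiv ℝ Y (α p s)).comp (β p s - β q s) +
              (fderiv ℝ Y (α p s) - fderiv ℝ Y (α q s)).comp (β q s) := by
          rw [ContinuousLinearMap.comp_sub, ContinuousLinearMap.sub_comp]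
          abel
        rw [e]
        refine (norm_add_le _ _).trans (add_le_add ?_ ?_)
        · exact (ContinuousLinearMap.opNorm_comp_le _ _).trans (by gcongr; exact hD _)
        · refine (ContinuousLinearMap.opNorm_comp_le _ _).trans ?_
          have h1 := hK₂.dist_le_mul (α p s) (α q s)
          rw [dist_eq_norm, dist_eq_norm] at h1
          have h2 := hlip T s hs p q
          have h3 := hN T s hs q
          refine mul_le_mul (h1.trans ?_) h3 (norm_nonneg _) (by positivity)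
          gcongr) ht
    refine this.trans (le_of_eq ?_)
    ring

end Pool.Agent.MP_019006_gt.FE

end

section

set_option autoImplicit false

open MeasureTheory Filter Topology Set Matrix
open scoped NNReal

namespace Pool.Agent.MP_019006_gt

namespace FE

variable {F : Type} [NormedAddCommGroup F] [NormedSpace ℝ F]

theorem exists_cutoff [FiniteDimensional ℝ F] {O S : Set F} (hO : IsOpen O) {X : F → F}
    (hX : ContDiffOn ℝ 2 X O) (hS : IsCompact S) (hSO : S ⊆ O) :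
    ∃ (χ : F → ℝ) (K K₂ : ℝ≥0), (∀ x, χ x ∈ Icc (0 : ℝ) 1) ∧ (∀ x, x ∉ O → χ x = 0) ∧
      (∀ x ∈ S, (fun y => χ y • X y) =ᶠ[𝓝 x] X) ∧ Differentiable ℝ (fun y => χ y • X y) ∧
      LipschitzWith K (fun y => χ y • X y) ∧ LipschitzWith K₂ (fderiv ℝ fun y => χ y • X y) := by
  obtain ⟨S', hS', h1, h2⟩ := exists_compact_between hS hO hSO
  obtain ⟨χ, h3, h4, h5⟩ := exists_contMDiffMap_one_nhds_of_subset_interior (n := 2)
    (modelWithCornersSelf ℝ F) hS.isClosed h1
  have hχ : ContDiff ℝ 2 χ := χ.contMDiff.contDiff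
  have hY : ContDiff ℝ 2 fun y => χ y • X y := by
    refine contDiff_iff_contDiffAt.2 fun x => ?_
    by_cases hx : x ∈ O
    · exact hχ.contDiffAt.smul (hX.contDiffAt (hO.mem_nhds hx))
    · refine (contDiffAt_const (c := (0 : F))).congr_of_eventuallyEq ?_
      filter_upwards [hS'.isClosed.isOpen_compl.mem_nhds fun h => hx (h2 h)] with y hy
      rw [h4 y hy, zero_smul]
  have hc : HasCompactSupport fun y => χ y • X y :=
    HasCompactSupport.intro hS' fun y hy => by rw [h4 y hy, zero_smul]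
  obtain ⟨K, hK⟩ := hY.lipschitzWith_of_hasCompactSupport hc two_ne_zero
  obtain ⟨K₂, hK₂⟩ := ContDiff.lipschitzWith_of_hasCompactSupport (𝕂 := ℝ) (n := 1) (hc.fderiv ℝ)
    (hY.fderiv_right (by norm_num)) one_ne_zero
  refine ⟨χ, K, K₂, h5, fun x hx => h4 x fun h => hx (h2 h), fun x hx => ?_,
    hY.differentiable two_ne_zero, hK, hK₂⟩
  filter_upwards [h3.filter_mono (nhds_le_nhdsSet hx)] with y hy
  rw [hy, one_smul]

theorem GFlow.stay {O : Set F} {X : F → F} {χ : F → ℝ} {K : ℝ≥0} {ψ : ℝ → F → F}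
    {N : ℝ → F → F →L[ℝ] F} (h : GFlow (fun y => χ y • X y) ψ N) (h0 : ∀ x, x ∉ O → χ x = 0)
    (hK : LipschitzWith K (fun y => χ y • X y)) {p : F} (hp : p ∈ O) (t : ℝ) : ψ t p ∈ O := by
  by_contra hcon
  have ht : t ∈ Ioo (-(|t| + 1)) (|t| + 1) := abs_lt.1 (by linarith)
  have h1 := uniq_Ioo (f := fun _ y => χ y • X y) (fun _ => hK) (α := fun s => ψ s p)
    (β := fun _ => ψ t p) ht (fun s _ => h.deriv s p) (fun s _ => by
      simpa [h0 _ hcon] using hasDerivAt_const s (ψ t p)) rfl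
    (show (0 : ℝ) ∈ _ from abs_lt.1 (by rw [abs_zero]; positivity))
  simp only [h.zero] at h1
  exact hcon (h1 ▸ hp)

theorem GFlow.level {O : Set F} (hO : IsOpen O) {X : F → F} {χ : F → ℝ} {K : ℝ≥0}
    {ψ : ℝ → F → F} {N : ℝ → F → F →L[ℝ] F} (h : GFlow (fun y => χ y • X y) ψ N)
    (h0 : ∀ x, x ∉ O → χ x = 0) (h1 : ∀ x, χ x ∈ Icc (0 : ℝ) 1)
    (hK : LipschitzWith K (fun y => χ y • X y)) {V : F → ℝ} {C : ℝ} (hV : DifferentiableOn ℝ V O)
    (hV0 : ∀ p ∈ O, 0 ≤ V p) (hVX : ∀ p ∈ O, |fderiv ℝ V p (X p)| ≤ C * (1 + V p))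
    {p : F} (hp : p ∈ O) {T t : ℝ} (ht : t ∈ Ioo (-T) T) :
    V (ψ t p) ≤ gr |C| T * (V p + |C|) := by
  have hm := h.stay h0 hK hp
  have := gronwall2 (f := fun s => V (ψ s p)) (δ := V p) (K := |C|) (ε := |C|)
    (f' := fun s => fderiv ℝ V (ψ s p) (χ (ψ s p) • X (ψ s p))) (hV0 p hp) (abs_nonneg C)
    (abs_nonneg C) (fun s _ => ((hV _ (hm s)).differentiableAt
      (hO.mem_nhds (hm s))).hasFDerivAt.comp_hasDerivAt s (h.deriv s p))
    (by rw [h.zero, Real.norm_of_nonneg (hV0 p hp)]) (fun s _ => by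
      rw [map_smul, norm_smul, Real.norm_of_nonneg (h1 _).1, Real.norm_of_nonneg (hV0 _ (hm s)),
        Real.norm_eq_abs]
      have h2 := hVX _ (hm s)
      have h3 := hV0 _ (hm s)
      have h4 : C * (1 + V (ψ s p)) ≤ |C| * (1 + V (ψ s p)) := by
        gcongr
        exact le_abs_self C
      have h5 := mul_le_of_le_one_left (abs_nonneg (fderiv ℝ V (ψ s p) (X (ψ s p)))) (h1 (ψ s p)).2
      linarith) ht
  exact (le_abs_self _).trans this

end FE

open FE in
theorem exists_isFlow {F : Type} [NormedAddCommGroup F] [NormedSpace ℝ F] [FiniteDimensional ℝ F]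
    {O : Set F} (hO : IsOpen O) {X : F → F} (hX : ContDiffOn ℝ 2 X O)
    (V : F → ℝ) (C : ℝ) (hV : DifferentiableOn ℝ V O) (hV0 : ∀ p ∈ O, 0 ≤ V p)
    (hVX : ∀ p ∈ O, |fderiv ℝ V p (X p)| ≤ C * (1 + V p))
    (hK : ∀ c : ℝ, IsCompact {p | p ∈ O ∧ V p ≤ c}) :
    ∃ φ M, IsFlow O X φ M := by
  classical
  choose χ K K₂ hχ1 hχ0 hev hdiff hlip hlip₂ using fun n : ℕ =>
    exists_cutoff hO hX (hK n) fun p hp => hp.1
  choose ψ N hψ using fun n : ℕ => exists_gflow (hdiff n) (hlip n) (hlip₂ n)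
  have hmem : ∀ n t p, p ∈ O → ψ n t p ∈ O := fun n t p hp => (hψ n).stay (hχ0 n) (hlip n) hp t
  have hlev : ∀ (n m : ℕ) T p, p ∈ O → gr |C| T * (V p + |C|) ≤ m → ∀ t ∈ Ioo (-T) T,
      (fun y => χ m y • X y) =ᶠ[𝓝 (ψ n t p)] X := fun n m T p hp hm t ht =>
    hev m _ ⟨hmem n t p hp,
      ((hψ n).level hO (hχ0 n) (hχ1 n) (hlip n) hV hV0 hVX hp ht).trans hm⟩
  have hcomp : ∀ (n m : ℕ) T p, p ∈ O → gr |C| T * (V p + |C|) ≤ n → gr |C| T * (V p + |C|) ≤ m →
      ∀ t ∈ Ioo (-T) T, ψ n t p = ψ m t p ∧ N n t p = N m t p := by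
    intro n m T p hp hn hm t ht
    have h0 : (0 : ℝ) ∈ Ioo (-T) T := ⟨by linarith [ht.1, ht.2], by linarith [ht.1, ht.2]⟩
    have h1 : EqOn (fun s => ψ n s p) (fun s => ψ m s p) (Ioo (-T) T) :=
      uniq_Ioo (f := fun _ y => χ m y • X y) (fun _ => hlip m) h0 (fun s hs => by
        have h2 := (hψ n).deriv s p
        rw [(hlev n n T p hp hn s hs).eq_of_nhds] at h2
        rwa [(hlev n m T p hp hm s hs).eq_of_nhds]) (fun s _ => (hψ m).deriv s p)
        (by simp only [(hψ n).zero, (hψ m).zero])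
    refine ⟨h1 ht, ?_⟩
    exact uniq_Ioo (f := fun s (M : F →L[ℝ] F) => (fderiv ℝ (fun y => χ m y • X y) (ψ m s p)).comp M)
      (fun _ => lip_comp (norm_fderiv_le_of_lipschitz ℝ (hlip m))) h0 (fun s hs => by
        have h2 := (hψ n).Nderiv s p
        rw [(hlev n n T p hp hn s hs).fderiv_eq] at h2
        have h3 : ψ m s p = ψ n s p := (h1 hs).symm
        rwa [h3, (hlev n m T p hp hm s hs).fderiv_eq]) (fun s _ => (hψ m).Nderiv s p)
        (by simp only [(hψ n).Nzero, (hψ m).Nzero]) ht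
  let lev : ℝ → F → ℕ := fun t p => ⌈gr |C| (|t| + 1) * (V p + |C|)⌉₊
  let φ : ℝ → F → F := fun t p => if p ∈ O then ψ (lev t p) t p else p
  let M : ℝ → F → F →L[ℝ] F := fun t p => N (lev t p) t p
  have hkey : ∀ (n : ℕ) T p, p ∈ O → gr |C| T * (V p + |C|) ≤ n → ∀ t ∈ Ioo (-T) T,
      φ t p = ψ n t p ∧ M t p = N n t p := by
    intro n T p hp hn t ht
    have h0 : 0 ≤ V p + |C| := add_nonneg (hV0 p hp) (abs_nonneg C)
    simp only [φ, M, if_pos hp]
    refine hcomp _ n (min T (|t| + 1)) p hp ?_ ?_ t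
      (abs_lt.1 (lt_min (abs_lt.2 ht) (by linarith)))
    · exact (mul_le_mul_of_nonneg_right (gr_mono (abs_nonneg C) (min_le_right _ _)) h0).trans
        (Nat.le_ceil _)
    · exact (mul_le_mul_of_nonneg_right (gr_mono (abs_nonneg C) (min_le_left _ _)) h0).trans hn
  have hloc : ∀ t₀ p₀, p₀ ∈ O → ∃ n : ℕ, (fun y => χ n y • X y) =ᶠ[𝓝 (ψ n t₀ p₀)] X ∧
      ∀ᶠ q : ℝ × F in 𝓝 (t₀, p₀), φ q.1 q.2 = ψ n q.1 q.2 ∧ M q.1 q.2 = N n q.1 q.2 := by
    intro t₀ p₀ hp
    obtain ⟨n, hn⟩ := exists_nat_gt (gr |C| (|t₀| + 1) * (V p₀ + |C|))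
    have ht : t₀ ∈ Ioo (-(|t₀| + 1)) (|t₀| + 1) := abs_lt.1 (by linarith)
    refine ⟨n, hlev n n _ p₀ hp hn.le t₀ ht, ?_⟩
    have hc : ContinuousAt (fun p => gr |C| (|t₀| + 1) * (V p + |C|)) p₀ :=
      continuousAt_const.mul ((hV.continuousOn.continuousAt (hO.mem_nhds hp)).add
        continuousAt_const)
    have h1 : ∀ᶠ p in 𝓝 p₀, p ∈ O ∧ gr |C| (|t₀| + 1) * (V p + |C|) < n :=
      (show ∀ᶠ p in 𝓝 p₀, p ∈ O from hO.mem_nhds hp).and (hc.eventually_lt_const hn)
    filter_upwards [prod_mem_nhds (Ioo_mem_nhds ht.1 ht.2) h1] with q hq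
    exact hkey n _ q.2 hq.2.1 hq.2.2.le q.1 hq.1
  have hzero : ∀ p, φ 0 p = p := fun p => by
    simp only [φ]
    split_ifs
    · exact (hψ _).zero p
    · rfl
  have hφO : ∀ t p, p ∈ O → φ t p ∈ O := fun t p hp => by
    simp only [φ, if_pos hp]
    exact hmem _ t p hp
  have hleft : ∀ (t : ℝ) (p : F), Tendsto (fun s : ℝ => (s, p)) (𝓝 t) (𝓝 (t, p)) := fun t p =>
    (Continuous.prodMk_left p).tendsto t
  have hright : ∀ (t : ℝ) (p : F), Tendsto (fun q : F => (t, q)) (𝓝 p) (𝓝 (t, p)) := fun t p =>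
    (Continuous.prodMk_right t).tendsto p
  have hder : ∀ t p, p ∈ O → HasDerivAt (fun s => φ s p) (X (φ t p)) t := by
    intro t p hp
    obtain ⟨n, h1, h2⟩ := hloc t p hp
    have h3 := (hψ n).deriv t p
    rw [h1.eq_of_nhds, ← h2.self_of_nhds.1] at h3
    exact h3.congr_of_eventuallyEq (((hleft t p).eventually h2).mono fun s hs => hs.1)
  have huniq : ∀ (c : ℝ → F) (a b t₀ : ℝ), t₀ ∈ Ioo a b →
      (∀ t ∈ Ioo a b, c t ∈ O ∧ HasDerivAt c (X (c t)) t) →
      ∀ t ∈ Ioo a b, c t = φ (t - t₀) (c t₀) := by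
    intro c a b t₀ ht₀ hc t ht
    have hp := (hc t₀ ht₀).1
    let d : ℝ → F := fun s => φ (s - t₀) (c t₀)
    have hd : ∀ s, HasDerivAt d (X (d s)) s := fun s =>
      HasDerivAt.comp_sub_const s t₀ (hder (s - t₀) _ hp)
    obtain ⟨a', ha1, ha2⟩ := exists_between (lt_min ht₀.1 ht.1)
    obtain ⟨b', hb1, hb2⟩ := exists_between (max_lt ht₀.2 ht.2)
    have hs : Icc a' b' ⊆ Ioo a b := Icc_subset_Ioo ha1 hb2
    obtain ⟨B₁, hB₁⟩ := (isCompact_Icc (a := a') (b := b')).exists_bound_of_continuousOn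
      (hV.continuousOn.comp (HasDerivAt.continuousOn fun s hs' => (hc s (hs hs')).2)
        fun s hs' => (hc s (hs hs')).1)
    obtain ⟨B₂, hB₂⟩ := (isCompact_Icc (a := a') (b := b')).exists_bound_of_continuousOn
      (hV.continuousOn.comp (HasDerivAt.continuousOn fun s _ => hd s) fun s _ => hφO _ _ hp)
    obtain ⟨n, hn⟩ := exists_nat_ge (max B₁ B₂)
    refine uniq_Ioo (f := fun _ y => χ n y • X y) (fun _ => hlip n) (α := c) (β := d) (a := a')
      (b := b') (t₀ := t₀) ⟨ha2.trans_le (min_le_left _ _), (le_max_left _ _).trans_lt hb1⟩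
      (fun s hs' => ?_) (fun s hs' => ?_) (by simp only [d, sub_self, hzero])
      ⟨ha2.trans_le (min_le_right _ _), (le_max_right _ _).trans_lt hb1⟩
    · have h1 := Ioo_subset_Icc_self hs'
      rw [(hev n (c s) ⟨(hc s (hs h1)).1, (le_abs_self _).trans ((hB₁ s h1).trans
        ((le_max_left _ _).trans hn))⟩).eq_of_nhds]
      exact (hc s (hs h1)).2
    · have h1 := Ioo_subset_Icc_self hs'
      rw [(hev n (d s) ⟨hφO _ _ hp, (le_abs_self _).trans ((hB₂ s h1).trans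
        ((le_max_right _ _).trans hn))⟩).eq_of_nhds]
      exact hd s
  have hjunk : ∀ t p, p ∉ O → φ t p = p := fun t p hp => if_neg hp
  refine ⟨φ, M, hjunk, hzero, hφO, hder, fun t s p => ?_, huniq, fun t p hp => ?_,
    fun t p hp => ?_, fun q hq => ?_, fun q hq => ?_⟩
  · by_cases hp : p ∈ O
    · have := huniq (fun τ => φ τ p) (min s (t + s) - 1) (max s (t + s) + 1) s
        ⟨by linarith [min_le_left s (t + s)], by linarith [le_max_left s (t + s)]⟩
        (fun τ _ => ⟨hφO τ p hp, hder τ p hp⟩) (t + s)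
        ⟨by linarith [min_le_right s (t + s)], by linarith [le_max_right s (t + s)]⟩
      rwa [add_sub_cancel_right] at this
    · rw [hjunk _ p hp, hjunk s p hp, hjunk t p hp]
  · obtain ⟨n, -, h2⟩ := hloc t p hp
    rw [show M t p = N n t p from h2.self_of_nhds.2]
    exact ((hψ n).fd t p).congr_of_eventuallyEq
      (((hright t p).eventually h2).mono fun s hs => hs.1)
  · obtain ⟨n, h1, h2⟩ := hloc t p hp
    have h3 := (hψ n).Nderiv t p
    rw [h1.fderiv_eq, ← h2.self_of_nhds.1, ← h2.self_of_nhds.2] at h3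
    exact h3.congr_of_eventuallyEq (((hleft t p).eventually h2).mono fun s hs => hs.2)
  · obtain ⟨n, -, h2⟩ := hloc q.1 q.2 hq.2
    exact ((hψ n).cont.continuousAt.congr (h2.mono fun s hs => hs.1.symm)).continuousWithinAt
  · obtain ⟨n, -, h2⟩ := hloc q.1 q.2 hq.2
    exact ((hψ n).Ncont.continuousAt.congr (h2.mono fun s hs => hs.2.symm)).continuousWithinAt

end Pool.Agent.MP_019006_gt

end
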