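import Pool.Agent.Mg.F019006.G8e8c10
import Pool.Agent.Mg.F019006.G9405fb
import Pool.Agent.Mg.F019006.G5c6f1b

section

set_option autoImplicit false

open MeasureTheory Filter Topology Set Matrix

namespace Pool.Agent.MP_019006_gt

namespace FG

theorem hasFDerivAt_Dd (x : EE) : HasFDerivAt Dd (-(2 : ℝ) • innerSL ℝ x) x := by
  have h := (hasStrictFDerivAt_norm_sq x).hasFDerivAt.const_sub (1 : ℝ)
  have e : (-(2 : ℝ) • innerSL ℝ x : EE →L[ℝ] ℝ) = -(2 • innerSL ℝ x) := by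
    ext w
    simp
  rw [e]
  exact h

theorem al_re (x u : EE) : (al x u).re = inner ℝ x u / Dd x := by
  rw [al, Complex.div_ofReal_re, ip_re, real_inner_comm]

theorem al_rsmul (x : EE) (c : ℝ) (u : EE) : al x (c • u) = c * al x u := by
  rw [rsmul_eq, al_smul]

theorem normSq_al_le {x : EE} (hx : x ∈ Bl) (u : EE) :
    (al x u).re ^ 2 + (al x u).im ^ 2 + ‖u‖ ^ 2 / Dd x = g0 x u u := by
  have hD := Dd_pos hx
  have h1 : (al x u).re ^ 2 + (al x u).im ^ 2 = ‖al x u‖ ^ 2 := by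
    rw [Complex.sq_norm, Complex.normSq_apply]; ring
  rw [h1, g0_self, al, norm_div, div_pow, Complex.norm_real, Real.norm_eq_abs, sq_abs]
  ring

theorem re_al_sq_le {x : EE} (hx : x ∈ Bl) (u : EE) : (al x u).re ^ 2 ≤ g0 x u u := by
  have h := normSq_al_le hx u
  have hD := Dd_pos hx
  have : 0 ≤ ‖u‖ ^ 2 / Dd x := by positivity
  nlinarith [sq_nonneg (al x u).im]

theorem g0_nonneg {x : EE} (hx : x ∈ Bl) (u : EE) : 0 ≤ g0 x u u :=
  le_trans (sq_nonneg _) (g0_bounds hx u).1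

theorem exp_small : Real.exp (1 / 50) ≤ 11 / 10 := by
  have h := Real.exp_bound' (x := 1 / 50) (by norm_num) (by norm_num) (n := 1) (by norm_num)
  norm_num at h
  linarith

theorem en_eq (f : EE → ℝ) (p : EE × EE) : en f p = Real.exp (2 * f p.1) * g0 p.1 p.2 p.2 := rfl

theorem en_le {f : EE → ℝ} (hf : Conf f) {p : EE × EE} (hp : p.1 ∈ Bl) :
    en f p ≤ 11 / 10 * g0 p.1 p.2 p.2 := by
  rw [en_eq]
  have h1 := abs_le.1 (hf.fb _ hp)
  have h2 : Real.exp (2 * f p.1) ≤ 11 / 10 :=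
    le_trans (Real.exp_le_exp.2 (by linarith)) exp_small
  exact mul_le_mul_of_nonneg_right h2 (g0_nonneg hp _)

theorem le_en {f : EE → ℝ} (hf : Conf f) {p : EE × EE} (hp : p.1 ∈ Bl) :
    g0 p.1 p.2 p.2 ≤ 11 / 10 * en f p := by
  rw [en_eq]
  have h1 := abs_le.1 (hf.fb _ hp)
  have h2 : Real.exp (-(2 * f p.1)) ≤ 11 / 10 :=
    le_trans (Real.exp_le_exp.2 (by linarith)) exp_small
  have h3 : Real.exp (-(2 * f p.1)) * Real.exp (2 * f p.1) = 1 := by
    rw [← Real.exp_add]; simp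
  have h4 := g0_nonneg hp p.2
  have h5 := Real.exp_pos (2 * f p.1)
  calc g0 p.1 p.2 p.2 = Real.exp (-(2 * f p.1)) * (Real.exp (2 * f p.1) * g0 p.1 p.2 p.2) := by
        rw [← mul_assoc, h3, one_mul]
    _ ≤ _ := mul_le_mul_of_nonneg_right h2 (by positivity)

theorem en_nonneg (f : EE → ℝ) {p : EE × EE} (hp : p.1 ∈ Bl) : 0 ≤ en f p := by
  rw [en_eq]
  exact mul_nonneg (Real.exp_pos _).le (g0_nonneg hp _)

theorem fderiv_en_XX {f : EE → ℝ} (hf : ∀ n : ℕ, ContDiffOn ℝ n f Bl) {p : EE × EE}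
    (hp : p.1 ∈ Bl) : fderiv ℝ (en f) p (XX f p) = 0 := by
  rw [fderiv_en hf hp]
  simp [XX]

theorem diff_en {f : EE → ℝ} (hf : ∀ n : ℕ, ContDiffOn ℝ n f Bl) {p : EE × EE}
    (hp : p.1 ∈ Bl) : DifferentiableAt ℝ (en f) p :=
  ((contDiffOn_en hf 1).differentiableOn (by simp)).differentiableAt
    (isOpen_OO.mem_nhds (mem_OO.2 hp))

theorem diff_f {f : EE → ℝ} (hf : ∀ n : ℕ, ContDiffOn ℝ n f Bl) {x : EE}
    (hx : x ∈ Bl) : DifferentiableAt ℝ f x :=
  ((hf 1).differentiableOn (by simp)).differentiableAt (isOpen_Bl.mem_nhds hx)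

/-- The Lyapunov function. -/
noncomputable def VV (f : EE → ℝ) (p : EE × EE) : ℝ := -Real.log (Dd p.1) + en f p

theorem hasFDerivAt_VV {f : EE → ℝ} (hf : ∀ n : ℕ, ContDiffOn ℝ n f Bl) {p : EE × EE}
    (hp : p.1 ∈ Bl) : HasFDerivAt (VV f)
      (-((Dd p.1)⁻¹ • ((-(2 : ℝ) • innerSL ℝ p.1).comp (ContinuousLinearMap.fst ℝ EE EE))) +
        fderiv ℝ (en f) p) p := by
  have h1 : HasFDerivAt (fun q : EE × EE => Dd q.1)
      ((-(2 : ℝ) • innerSL ℝ p.1).comp (ContinuousLinearMap.fst ℝ EE EE)) p :=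
    (hasFDerivAt_Dd p.1).comp p hasFDerivAt_fst
  exact (h1.log (Dd_pos hp).ne').neg.add (diff_en hf hp).hasFDerivAt

theorem log_Dd_nonpos {x : EE} (hx : x ∈ Bl) : Real.log (Dd x) ≤ 0 :=
  Real.log_nonpos (Dd_pos hx).le (Dd_le_one x)

theorem compact_VV {f : EE → ℝ} (hf : Conf f) (c : ℝ) :
    IsCompact {p : EE × EE | p ∈ OO ∧ VV f p ≤ c} := by
  set K : Set (EE × EE) := {x : EE | Real.exp (-c) ≤ Dd x} ×ˢ Metric.closedBall 0 (2 * |c| + 1)
    with hK
  have hDc : Continuous Dd := by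
    unfold Dd
    fun_prop
  have hsub : ∀ x : EE, Real.exp (-c) ≤ Dd x → x ∈ Bl := fun x hx => by
    rw [mem_Bl]
    have h1 := Real.exp_pos (-c)
    have h2 : ‖x‖ ^ 2 < 1 := by
      unfold Dd at hx
      linarith
    nlinarith [norm_nonneg x]
  have hK1 : IsCompact {x : EE | Real.exp (-c) ≤ Dd x} := by
    refine (isCompact_closedBall (0 : EE) 1).of_isClosed_subset
      (isClosed_le continuous_const hDc) fun x hx => ?_
    have := mem_Bl.1 (hsub x hx)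
    simpa using this.le
  have hKc : IsCompact K := hK1.prod (isCompact_closedBall _ _)
  have hKO : K ⊆ OO := fun p hp => mem_OO.2 (hsub _ hp.1)
  have hcont : ContinuousOn (VV f) K := fun p hp =>
    (hasFDerivAt_VV hf.smooth (mem_OO.1 (hKO hp))).continuousAt.continuousWithinAt
  have hcl : IsClosed (K ∩ VV f ⁻¹' Iic c) :=
    hcont.preimage_isClosed_of_isClosed hKc.isClosed isClosed_Iic
  have e : {p : EE × EE | p ∈ OO ∧ VV f p ≤ c} = K ∩ VV f ⁻¹' Iic c := by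
    ext p
    constructor
    · rintro ⟨hp, hc⟩
      have hp1 := mem_OO.1 hp
      have h1 := log_Dd_nonpos hp1
      have h2 := en_nonneg f hp1
      have hc' : -Real.log (Dd p.1) + en f p ≤ c := hc
      refine ⟨⟨?_, ?_⟩, hc⟩
      · have h3 : -c ≤ Real.log (Dd p.1) := by linarith
        have h4 := Real.exp_le_exp.2 h3
        rwa [Real.exp_log (Dd_pos hp1)] at h4
      · have h3 := le_en hf hp1
        have h4 := (g0_bounds hp1 p.2).1
        have h5 := le_abs_self c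
        rw [mem_closedBall_zero_iff]
        nlinarith [norm_nonneg p.2, abs_nonneg c, sq_nonneg (‖p.2‖ - 1)]
    · rintro ⟨hp, hc⟩
      exact ⟨hKO hp, hc⟩
  rw [e]
  exact hKc.of_isClosed_subset hcl inter_subset_left

/-- `al x` as a real linear map. -/
noncomputable def alL (x : EE) : EE →ₗ[ℝ] ℂ where
  toFun := al x
  map_add' := al_add x
  map_smul' c u := by rw [al_rsmul]; simp

/-- `g0 x v` as a real linear map. -/
noncomputable def g0L (x v : EE) : EE →ₗ[ℝ] ℝ where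
  toFun := g0 x v
  map_add' := g0_add_right x v
  map_smul' c u := by rw [g0_smul_right]; simp

/-- Multiplication by a complex number as a real linear map. -/
noncomputable def mulC (c : ℂ) : EE →ₗ[ℝ] EE where
  toFun w := c • w
  map_add' := smul_add c
  map_smul' a w := by rw [smul_comm]; simp

theorem finrank_EE : Module.finrank ℝ EE = 4 := by
  rw [finrank_real_of_complex]
  simp

theorem trace_mulC (c : ℂ) : LinearMap.trace ℝ EE (mulC c) = 4 * c.re := by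
  rw [LinearMap.trace_eq_sum_inner _ (stdOrthonormalBasis ℝ EE)]
  have h : ∀ i, inner ℝ (stdOrthonormalBasis ℝ EE i) (mulC c (stdOrthonormalBasis ℝ EE i)) =
      c.re := fun i => by
    have h1 := (stdOrthonormalBasis ℝ EE).orthonormal.1 i
    rw [real_inner_comm, ← ip_re]
    change (ip (c • _) _).re = _
    rw [ip_smul_left, ip_self, h1]
    simp
  simp only [h, Finset.sum_const, Finset.card_univ, Fintype.card_fin, finrank_EE]
  simp

theorem trace_Gam (f : EE → ℝ) {x : EE} (hx : x ∈ Bl) (v : EE) :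
    LinearMap.trace ℝ EE (GamL f x v : EE →ₗ[ℝ] EE) = 6 * (al x v).re + 4 * fderiv ℝ f x v := by
  have e : (GamL f x v : EE →ₗ[ℝ] EE) = mulC (al x v) +
      (Complex.reLm.comp (alL x)).smulRight v +
      (Complex.imLm.comp (alL x)).smulRight (Complex.I • v) +
      fderiv ℝ f x v • LinearMap.id + (fderiv ℝ f x : EE →ₗ[ℝ] ℝ).smulRight v -
      (g0L x v).smulRight (NN f x) := by
    apply LinearMap.ext
    intro w
    change Gam f x v w = al x v • w + (al x w).re • v + (al x w).im • (Complex.I • v) +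
      fderiv ℝ f x v • w + fderiv ℝ f x w • v - g0 x v w • NN f x
    have h : al x w • v = (al x w).re • v + (al x w).im • (Complex.I • v) := by
      rw [rsmul_eq (al x w).re, rsmul_eq (al x w).im, smul_smul, ← add_smul, Complex.re_add_im]
    rw [Gam, Gam0, h]
    abel
  rw [e]
  simp only [map_add, map_sub, map_smul, trace_mulC, LinearMap.trace_smulRight,
    LinearMap.trace_id, finrank_EE]
  have h1 : (Complex.imLm.comp (alL x)) (Complex.I • v) = (al x v).re := by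
    change (al x (Complex.I • v)).im = _
    rw [al_smul]
    simp
  have h2 : (Complex.reLm.comp (alL x)) v = (al x v).re := rfl
  have h3 : g0L x v (NN f x) = fderiv ℝ f x v := by
    change g0 x v (NN f x) = _
    rw [g0_symm, g0_NN f hx]
  rw [h1, h2, h3]
  simp only [smul_eq_mul, ContinuousLinearMap.coe_coe]
  push_cast
  ring

theorem trace_XX {f : EE → ℝ} (hf : ∀ n : ℕ, ContDiffOn ℝ n f Bl) {p : EE × EE}
    (hp : p.1 ∈ Bl) :
    LinearMap.trace ℝ (EE × EE) (fderiv ℝ (XX f) p : (EE × EE) →L[ℝ] (EE × EE)) =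
      -(12 * (al p.1 p.2).re + 8 * fderiv ℝ f p.1 p.2) := by
  set B : EE →ₗ[ℝ] EE := (fderiv ℝ (fun y => Gam f y p.2 p.2) p.1).toLinearMap with hB
  set G : EE →ₗ[ℝ] EE := (GamL f p.1 p.2).toLinearMap with hG
  have e : ((fderiv ℝ (XX f) p : (EE × EE) →L[ℝ] (EE × EE)) : (EE × EE) →ₗ[ℝ] (EE × EE)) =
      (LinearMap.inl ℝ EE EE).comp (LinearMap.snd ℝ EE EE) -
      (LinearMap.inr ℝ EE EE).comp (B.comp (LinearMap.fst ℝ EE EE)) -
      (2 : ℝ) • (LinearMap.inr ℝ EE EE).comp (G.comp (LinearMap.snd ℝ EE EE)) := by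
    apply LinearMap.ext
    intro ξ
    change fderiv ℝ (XX f) p ξ = _
    rw [fderiv_XX hf hp, Gam_symm f p.1 ξ.2 p.2]
    ext1
    · simp
    · simp only [hB, hG, LinearMap.sub_apply, LinearMap.comp_apply, LinearMap.smul_apply,
        LinearMap.inl_apply, LinearMap.inr_apply, LinearMap.fst_apply, LinearMap.snd_apply,
        Prod.snd_sub, Prod.smul_snd, ContinuousLinearMap.coe_coe, GamL_apply]
      module
  have t1 : LinearMap.trace ℝ (EE × EE)
      ((LinearMap.inl ℝ EE EE).comp (LinearMap.snd ℝ EE EE)) = 0 := by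
    rw [LinearMap.trace_comp_comm', LinearMap.snd_comp_inl, map_zero]
  have t2 : LinearMap.trace ℝ (EE × EE)
      ((LinearMap.inr ℝ EE EE).comp (B.comp (LinearMap.fst ℝ EE EE))) = 0 := by
    rw [LinearMap.trace_comp_comm', LinearMap.comp_assoc, LinearMap.fst_comp_inr,
      LinearMap.comp_zero, map_zero]
  have t3 : LinearMap.trace ℝ (EE × EE)
      ((LinearMap.inr ℝ EE EE).comp (G.comp (LinearMap.snd ℝ EE EE))) =
      LinearMap.trace ℝ EE G := by
    rw [LinearMap.trace_comp_comm', LinearMap.comp_assoc, LinearMap.snd_comp_inr,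
      LinearMap.comp_id]
  rw [e, map_sub, map_sub, map_smul, t1, t2, t3, hG, trace_Gam f hp]
  simp only [smul_eq_mul]
  ring

theorem rho_pos (f : EE → ℝ) {p : EE × EE} (hp : p.1 ∈ Bl) : 0 < rho f p := by
  have := Dd_pos hp
  unfold rho
  positivity

theorem rho_deriv {f : EE → ℝ} (hf : ∀ n : ℕ, ContDiffOn ℝ n f Bl) {p : EE × EE}
    (hp : p.1 ∈ Bl) : DifferentiableAt ℝ (rho f) p ∧ fderiv ℝ (rho f) p (XX f p) =
      rho f p * (12 * (al p.1 p.2).re + 8 * fderiv ℝ f p.1 p.2) := by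
  have hD := Dd_pos hp
  have h1 : HasFDerivAt (fun q : EE × EE => Dd q.1)
      ((-(2 : ℝ) • innerSL ℝ p.1).comp (ContinuousLinearMap.fst ℝ EE EE)) p :=
    (hasFDerivAt_Dd p.1).comp p hasFDerivAt_fst
  have h2 : HasFDerivAt (fun q : EE × EE => f q.1)
      ((fderiv ℝ f p.1).comp (ContinuousLinearMap.fst ℝ EE EE)) p :=
    (diff_f hf hp).hasFDerivAt.comp p hasFDerivAt_fst
  have h3 := ((h2.const_mul 8).sub ((h1.log hD.ne').const_mul 6)).exp
  have e : rho f =ᶠ[𝓝 p] fun q : EE × EE =>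
      Real.exp (((fun q : EE × EE => 8 * f q.1) - fun q : EE × EE => 6 * Real.log (Dd q.1)) q) := by
    filter_upwards [isOpen_OO.mem_nhds (mem_OO.2 hp)] with q hq
    have hq' := Dd_pos (mem_OO.1 hq)
    simp only [Pi.sub_apply]
    rw [Real.exp_sub, rho]
    congr 1
    rw [mul_comm, Real.exp_mul, Real.exp_log hq']
    norm_cast
  have h4 := h3.congr_of_eventuallyEq e
  refine ⟨h4.differentiableAt, ?_⟩
  rw [h4.fderiv, ← e.eq_of_nhds, al_re]
  simp [XX]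
  ring

end FG

end Pool.Agent.MP_019006_gt

end

section

set_option autoImplicit false

open MeasureTheory Filter Topology Set Matrix

namespace Pool.Agent.MP_019006_gt

theorem exists_geoFlow {f : EE → ℝ} (hf : Conf f) : ∃ φ M, IsFlow OO (XX f) φ M := by
  refine exists_isFlow isOpen_OO (contDiffOn_XX hf.smooth 2) (FG.VV f) 2
    (fun p hp => (FG.hasFDerivAt_VV hf.smooth (mem_OO.1 hp)).differentiableAt.differentiableWithinAt)
    (fun p hp => ?_) (fun p hp => ?_) (FG.compact_VV hf)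
  · have h1 := FG.log_Dd_nonpos (mem_OO.1 hp)
    have h2 := FG.en_nonneg f (mem_OO.1 hp)
    unfold FG.VV
    linarith
  · have hp1 := mem_OO.1 hp
    have h1 := FG.log_Dd_nonpos hp1
    have h2 := FG.le_en hf hp1
    have h3 := FG.re_al_sq_le hp1 p.2
    have h4 := FG.en_nonneg f hp1
    have e : fderiv ℝ (FG.VV f) p (XX f p) = 2 * (al p.1 p.2).re := by
      rw [(FG.hasFDerivAt_VV hf.smooth hp1).fderiv, _root_.add_apply,
        FG.fderiv_en_XX hf.smooth hp1, FG.al_re]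
      simp [XX]
      ring
    rw [e, abs_le]
    unfold FG.VV
    constructor
    · nlinarith [sq_nonneg ((al p.1 p.2).re + 1)]
    · nlinarith [sq_nonneg ((al p.1 p.2).re - 1)]

theorem isGeodesicFlow {f : EE → ℝ} {φ : ℝ → EE × EE → EE × EE}
    {M : ℝ → EE × EE → (EE × EE) →L[ℝ] (EE × EE)} (hφ : IsFlow OO (XX f) φ M) :
    IsGeodesicFlow Bl (Gam f) φ := fun p hp =>
  ⟨hφ.zero p, fun t => ⟨mem_OO.1 (hφ.mem t p (mem_OO.2 hp)), hφ.deriv t p (mem_OO.2 hp),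
    (hφ.fderiv t p (mem_OO.2 hp)).differentiableAt⟩⟩

theorem flow_det {f : EE → ℝ} (hf : ∀ n : ℕ, ContDiffOn ℝ n f Bl) {φ : ℝ → EE × EE → EE × EE}
    {M : ℝ → EE × EE → (EE × EE) →L[ℝ] (EE × EE)} (hφ : IsFlow OO (XX f) φ M) (t : ℝ)
    {p : EE × EE} (hp : p.1 ∈ Bl) : rho f (φ t p) * (M t p).det = rho f p := by
  refine hφ.det isOpen_OO (contDiffOn_XX hf 1) (rho f)
    (fun q hq => (FG.rho_deriv hf (mem_OO.1 hq)).1.differentiableWithinAt) (fun q hq => ?_) t p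
    (mem_OO.2 hp)
  rw [(FG.rho_deriv hf (mem_OO.1 hq)).2, FG.trace_XX hf (mem_OO.1 hq)]
  ring

theorem flow_measurePreserving {f : EE → ℝ} (hf : ∀ n : ℕ, ContDiffOn ℝ n f Bl)
    {φ : ℝ → EE × EE → EE × EE}
    {M : ℝ → EE × EE → (EE × EE) →L[ℝ] (EE × EE)} (hφ : IsFlow OO (XX f) φ M)
    {S : Set (EE × EE)} (hS : MeasurableSet S) (hSO : S ⊆ OO) (hinv : ∀ t, ∀ p ∈ S, φ t p ∈ S)
    (t : ℝ) : MeasurePreserving (φ t) (liou f S) (liou f S) := by
  have hm : Measurable (φ t) :=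
    (hφ.measurable isOpen_OO).comp (measurable_const.prodMk measurable_id)
  have h1 : ∀ p, φ (-t) (φ t p) = p := fun p => by rw [← hφ.add, neg_add_cancel, hφ.zero]
  have h2 : ∀ p, φ t (φ (-t) p) = p := fun p => by rw [← hφ.add, add_neg_cancel, hφ.zero]
  have : ((volume : Measure EE).prod (volume : Measure EE)).IsAddHaarMeasure :=
    Measure.prod.instIsAddHaarMeasure _ _
  refine measurePreserving_of_det ((volume : Measure EE).prod (volume : Measure EE)) hS (φ t) hm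
    (M t) ⟨fun p hp => hinv t p hp, fun p _ q _ h => ?_, fun p hp => ⟨φ (-t) p, hinv _ p hp, h2 p⟩⟩
    (fun p hp => hφ.fderiv t p (hSO hp)) (rho f)
    (fun p hp => (FG.rho_pos f (mem_OO.1 (hSO hp))).le) fun p hp => ?_
  · rw [← h1 p, h, h1]
  · have hp1 := mem_OO.1 (hSO hp)
    have h3 := flow_det hf hφ t hp1
    have h4 := FG.rho_pos f hp1
    have h5 := FG.rho_pos f (mem_OO.1 (hφ.mem t p (hSO hp)))
    have h6 : 0 < (M t p).det := by
      rw [← h3] at h4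
      exact (mul_pos_iff_of_pos_left h5).1 h4
    rw [abs_of_pos h6, h3]

namespace FG

theorem dx {f : EE → ℝ} {φ : ℝ → EE × EE → EE × EE}
    {M : ℝ → EE × EE → (EE × EE) →L[ℝ] (EE × EE)} (hφ : IsFlow OO (XX f) φ M)
    {p : EE × EE} (hp : p.1 ∈ Bl) (t : ℝ) : HasDerivAt (fun s => (φ s p).1) (φ t p).2 t :=
  (hφ.deriv t p (mem_OO.2 hp)).fst

theorem dv {f : EE → ℝ} {φ : ℝ → EE × EE → EE × EE}
    {M : ℝ → EE × EE → (EE × EE) →L[ℝ] (EE × EE)} (hφ : IsFlow OO (XX f) φ M)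
    {p : EE × EE} (hp : p.1 ∈ Bl) (t : ℝ) :
    HasDerivAt (fun s => (φ s p).2) (-Gam f (φ t p).1 (φ t p).2 (φ t p).2) t :=
  (hφ.deriv t p (mem_OO.2 hp)).snd

theorem memB {f : EE → ℝ} {φ : ℝ → EE × EE → EE × EE}
    {M : ℝ → EE × EE → (EE × EE) →L[ℝ] (EE × EE)} (hφ : IsFlow OO (XX f) φ M)
    {p : EE × EE} (hp : p.1 ∈ Bl) (t : ℝ) : (φ t p).1 ∈ Bl :=
  mem_OO.1 (hφ.mem t p (mem_OO.2 hp))

theorem en_const {f : EE → ℝ} (hf : ∀ n : ℕ, ContDiffOn ℝ n f Bl) {φ : ℝ → EE × EE → EE × EE}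
    {M : ℝ → EE × EE → (EE × EE) →L[ℝ] (EE × EE)} (hφ : IsFlow OO (XX f) φ M)
    {p : EE × EE} (hp : p.1 ∈ Bl) (t : ℝ) : en f (φ t p) = en f p := by
  have h : ∀ s, HasDerivAt (fun s => en f (φ s p)) 0 s := fun s => by
    have h1 := (diff_en hf (memB hφ hp s)).hasFDerivAt.comp_hasDerivAt s
      (hφ.deriv s p (mem_OO.2 hp))
    rw [fderiv_en_XX hf (memB hφ hp s)] at h1
    exact h1
  have h2 := is_const_of_deriv_eq_zero (fun s => (h s).differentiableAt) (fun s => (h s).deriv) t 0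
  rwa [hφ.zero] at h2

theorem en_smul (f : EE → ℝ) (p : EE × EE) (c : ℝ) :
    en f (p.1, c • p.2) = c ^ 2 * en f p := by
  rw [en_eq, en_eq, g0_smul_left, g0_smul_right]
  ring

theorem inner_Gam (f : EE → ℝ) {x : EE} (hx : x ∈ Bl) (v : EE) :
    inner ℝ x (Gam f x v v) = Dd x * (2 * ((al x v).re ^ 2 - (al x v).im ^ 2) +
      2 * fderiv ℝ f x v * (al x v).re - g0 x v v * (al x (NN f x)).re) := by
  have hD := (Dd_pos hx).ne'
  have h1 : inner ℝ x (Gam f x v v) = Dd x * (al x (Gam f x v v)).re := by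
    rw [al_re]
    field_simp
  have h2 : al x (Gam f x v v) = al x v * al x v + al x v * al x v + fderiv ℝ f x v * al x v +
      fderiv ℝ f x v * al x v + ((-g0 x v v : ℝ) : ℂ) * al x (NN f x) := by
    rw [Gam, Gam0, sub_eq_add_neg, ← neg_smul]
    simp only [al_add, al_smul, al_rsmul]
  rw [h1, h2]
  simp only [Complex.add_re, Complex.mul_re, Complex.ofReal_re, Complex.ofReal_im]
  ring

theorem re_al_NN {f : EE → ℝ} (hf : Conf f) {x : EE} (hx : x ∈ Bl) :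
    |(al x (NN f x)).re| ≤ 1 / 100 := by
  have h1 := re_al_sq_le hx (NN f x)
  have h2 := g0_NN f hx (NN f x)
  have h3 := hf.dfb x hx (NN f x)
  have h4 := g0_nonneg hx (NN f x)
  rw [← h2] at h3
  have h5 : g0 x (NN f x) (NN f x) ≤ 1 / 10000 := by nlinarith
  exact abs_le_of_sq_le_sq' (by linarith) (by norm_num) |> abs_le.2

end FG

theorem flow_scale {f : EE → ℝ} {φ : ℝ → EE × EE → EE × EE}
    {M : ℝ → EE × EE → (EE × EE) →L[ℝ] (EE × EE)} (hφ : IsFlow OO (XX f) φ M) (c t : ℝ)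
    {p : EE × EE} (hp : p.1 ∈ Bl) :
    φ t (p.1, c • p.2) = ((φ (c * t) p).1, c • (φ (c * t) p).2) := by
  have h := hφ.uniq (fun s => ((φ (c * s) p).1, c • (φ (c * s) p).2)) (-|t| - 1) (|t| + 1) 0
    ⟨by linarith [abs_nonneg t], by linarith [abs_nonneg t]⟩ (fun s _ => ?_) t
    ⟨by linarith [neg_abs_le t], by linarith [le_abs_self t]⟩
  · simp only [mul_zero, hφ.zero, sub_zero] at h
    exact h.symm
  · refine ⟨mem_OO.2 (FG.memB hφ hp _), ?_⟩
    have hc : HasDerivAt (fun s : ℝ => c * s) c s := by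
      simpa using (hasDerivAt_id s).const_mul c
    have h1 := (FG.dx hφ hp (c * s)).scomp s hc
    have h2 := ((FG.dv hφ hp (c * s)).scomp s hc).const_smul c
    have h3 := h1.prodMk h2
    have e : XX f ((φ (c * s) p).1, c • (φ (c * s) p).2) =
        (c • (φ (c * s) p).2, c • c • -Gam f (φ (c * s) p).1 (φ (c * s) p).2 (φ (c * s) p).2) := by
      simp only [XX, Gam_smul_left, Gam_smul_right, smul_neg]
    rw [e]
    exact h3

theorem en_nrm {f : EE → ℝ} {p : EE × EE} (hp : p.1 ∈ Bl) (h0 : p.2 ≠ 0) :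
    0 < en f p ∧ en f (nrm f p) = 1 := by
  have h1 : 0 < en f p := by
    rw [FG.en_eq]
    have h2 := (g0_bounds hp p.2).1
    have h3 : 0 < ‖p.2‖ ^ 2 := pow_pos (norm_pos_iff.2 h0) 2
    exact mul_pos (Real.exp_pos _) (by linarith)
  refine ⟨h1, ?_⟩
  rw [nrm, FG.en_smul, inv_pow, Real.sq_sqrt h1.le, inv_mul_cancel₀ h1.ne']

theorem flow_nrm {f : EE → ℝ} (hf : ∀ n : ℕ, ContDiffOn ℝ n f Bl) {φ : ℝ → EE × EE → EE × EE}
    {M : ℝ → EE × EE → (EE × EE) →L[ℝ] (EE × EE)} (hφ : IsFlow OO (XX f) φ M) (t : ℝ)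
    {p : EE × EE} (hp : p.1 ∈ Bl) (h0 : p.2 ≠ 0) :
    nrm f (φ t p) = φ (Real.sqrt (en f p) * t) (nrm f p) := by
  have h1 := Real.sqrt_pos.2 (en_nrm (f := f) hp h0).1
  rw [nrm, nrm, flow_scale hφ _ _ hp, FG.en_const hf hφ hp, ← mul_assoc, inv_mul_cancel₀ h1.ne',
    one_mul]

theorem inv_Dd_convex {f : EE → ℝ} (hf : Conf f) {φ : ℝ → EE × EE → EE × EE}
    {M : ℝ → EE × EE → (EE × EE) →L[ℝ] (EE × EE)} (hφ : IsFlow OO (XX f) φ M)
    {p : EE × EE} (hp : p.1 ∈ Bl) : ∃ u' u'' : ℝ → ℝ, ∀ t,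
      HasDerivAt (fun s => (Dd (φ s p).1)⁻¹) (u' t) t ∧ HasDerivAt u' (u'' t) t ∧
      u' t = 2 * (al (φ t p).1 (φ t p).2).re * (Dd (φ t p).1)⁻¹ ∧
      (u' t) ^ 2 ≤ 9 * en f p * ((Dd (φ t p).1)⁻¹) ^ 2 ∧
      en f p * (Dd (φ t p).1)⁻¹ ≤ u'' t := by
  have hu : ∀ t, HasDerivAt (fun s => (Dd (φ s p).1)⁻¹)
      (2 * inner ℝ (φ t p).1 (φ t p).2 * (Dd (φ t p).1)⁻¹ * (Dd (φ t p).1)⁻¹) t := fun t => by
    have hD := (Dd_pos (FG.memB hφ hp t)).ne'
    have h00 := (FG.hasFDerivAt_Dd (φ t p).1).comp_hasDerivAt t (FG.dx hφ hp t)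
    have h0 : HasDerivAt (fun s => Dd (φ s p).1) _ t := h00
    refine (h0.inv hD).congr_deriv ?_
    simp
    field_simp
  refine ⟨fun t => 2 * inner ℝ (φ t p).1 (φ t p).2 * (Dd (φ t p).1)⁻¹ * (Dd (φ t p).1)⁻¹,
    fun t => (Dd (φ t p).1)⁻¹ * (2 * g0 (φ t p).1 (φ t p).2 (φ t p).2 +
      2 * ((al (φ t p).1 (φ t p).2).re ^ 2 + (al (φ t p).1 (φ t p).2).im ^ 2) -
      4 * fderiv ℝ f (φ t p).1 (φ t p).2 * (al (φ t p).1 (φ t p).2).re +
      2 * g0 (φ t p).1 (φ t p).2 (φ t p).2 * (al (φ t p).1 (NN f (φ t p).1)).re),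
    fun t => ?_⟩
  have hB := FG.memB hφ hp t
  have hD := Dd_pos hB
  have ha : inner ℝ (φ t p).1 (φ t p).2 = Dd (φ t p).1 * (al (φ t p).1 (φ t p).2).re := by
    rw [FG.al_re]
    field_simp
  have hen := FG.en_const hf.smooth hφ hp t
  have h1 := FG.le_en hf hB
  have h2 := FG.en_le hf hB
  have h3 := FG.re_al_sq_le hB (φ t p).2
  have h4 := FG.g0_nonneg hB (φ t p).2
  rw [hen] at h1 h2
  have e' : 2 * inner ℝ (φ t p).1 (φ t p).2 * (Dd (φ t p).1)⁻¹ * (Dd (φ t p).1)⁻¹ =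
      2 * (al (φ t p).1 (φ t p).2).re * (Dd (φ t p).1)⁻¹ := by
    rw [ha]
    field_simp
  refine ⟨hu t, ?_, e', ?_, ?_⟩
  · have h5 := ((((FG.dx hφ hp t).inner ℝ (FG.dv hφ hp t)).const_mul 2).mul (hu t)).mul (hu t)
    refine HasDerivAt.congr_deriv h5 ?_
    have h6 := FG.normSq_al_le hB (φ t p).2
    simp only [Pi.mul_apply]
    rw [inner_neg_right, FG.inner_Gam f hB, real_inner_self_eq_norm_sq, ha]
    have h7 : ‖(φ t p).2‖ ^ 2 = Dd (φ t p).1 * (g0 (φ t p).1 (φ t p).2 (φ t p).2 -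
        (al (φ t p).1 (φ t p).2).re ^ 2 - (al (φ t p).1 (φ t p).2).im ^ 2) := by
      rw [← h6]
      field_simp
      ring
    rw [h7]
    field_simp
    ring
  · simp only []
    rw [e', mul_pow]
    exact mul_le_mul_of_nonneg_right (by nlinarith) (sq_nonneg _)
  · simp only []
    rw [mul_comm]
    refine mul_le_mul_of_nonneg_left ?_ (inv_pos.2 hD).le
    have h5 := abs_le.1 (FG.re_al_NN hf hB)
    have h6 := hf.dfb _ hB (φ t p).2
    nlinarith [sq_nonneg (al (φ t p).1 (φ t p).2).im,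
      sq_nonneg (10 * fderiv ℝ f (φ t p).1 (φ t p).2 - (al (φ t p).1 (φ t p).2).re / 5),
      mul_nonneg h4 (sub_nonneg.2 h5.1)]

theorem passage_short {f : EE → ℝ} (hf : Conf f) {φ : ℝ → EE × EE → EE × EE}
    {M : ℝ → EE × EE → (EE × EE) →L[ℝ] (EE × EE)} (hφ : IsFlow OO (XX f) φ M)
    {p : EE × EE} (hp : p.1 ∈ Bl) (h1 : en f p = 1) {r s t : ℝ} (hr0 : 0 ≤ r) (hr : r ≤ 1 / 20)
    (hst : s ≤ t) (hs : ‖(φ s p).1‖ ≤ 2 * r) (ht : ‖(φ t p).1‖ ≤ 2 * r) : t - s ≤ 6 * r := by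
  have _ := hst
  obtain ⟨u', u'', h⟩ := inv_Dd_convex hf hφ hp
  have hge : ∀ τ, 1 ≤ (Dd (φ τ p).1)⁻¹ := fun τ =>
    (one_le_inv₀ (Dd_pos (FG.memB hφ hp τ))).2 (Dd_le_one _)
  have hw : ∀ τ, HasDerivAt (fun τ => (Dd (φ τ p).1)⁻¹ - τ ^ 2 / 2) (u' τ - τ) τ := fun τ => by
    have h2 := (h τ).1.sub (((hasDerivAt_id τ).pow 2).div_const 2)
    refine HasDerivAt.congr_deriv h2 ?_
    simp
  have hw' : ∀ τ, HasDerivAt (fun τ => u' τ - τ) (u'' τ - 1) τ := fun τ =>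
    (h τ).2.1.sub (hasDerivAt_id τ)
  have hmono : Monotone fun τ => u' τ - τ :=
    monotone_of_deriv_nonneg (fun τ => (hw' τ).differentiableAt) fun τ => by
      rw [(hw' τ).deriv]
      have h2 := (h τ).2.2.2.2
      rw [h1, one_mul] at h2
      linarith [hge τ]
  have hconv : ConvexOn ℝ univ fun τ => (Dd (φ τ p).1)⁻¹ - τ ^ 2 / 2 := by
    refine Monotone.convexOn_univ_of_deriv (fun τ => (hw τ).differentiableAt) ?_
    have e : deriv (fun τ => (Dd (φ τ p).1)⁻¹ - τ ^ 2 / 2) = fun τ => u' τ - τ :=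
      funext fun τ => (hw τ).deriv
    rw [e]
    exact hmono
  have h2 := hconv.2 (mem_univ s) (mem_univ t) (show (0 : ℝ) ≤ 1 / 2 by norm_num)
    (show (0 : ℝ) ≤ 1 / 2 by norm_num) (by norm_num)
  simp only [smul_eq_mul] at h2
  have hle : ∀ τ, ‖(φ τ p).1‖ ≤ 2 * r → (Dd (φ τ p).1)⁻¹ ≤ 1 + 9 / 2 * r ^ 2 := fun τ hτ => by
    have h3 : ‖(φ τ p).1‖ ^ 2 ≤ (2 * r) ^ 2 := pow_le_pow_left₀ (norm_nonneg _) hτ 2
    have h4 : 1 - 4 * r ^ 2 ≤ Dd (φ τ p).1 := by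
      unfold Dd
      nlinarith
    have h5 : r ^ 2 ≤ 1 / 400 := by nlinarith
    rw [inv_le_iff_one_le_mul₀ (Dd_pos (FG.memB hφ hp τ))]
    nlinarith [sq_nonneg r, mul_nonneg (sq_nonneg r) (sub_nonneg.2 h5),
      mul_le_mul_of_nonneg_left h4 (show 0 ≤ 1 + 9 / 2 * r ^ 2 by positivity)]
  have h3 := hge (1 / 2 * s + 1 / 2 * t)
  have h4 := hle s hs
  have h5 := hle t ht
  have h6 : (t - s) ^ 2 ≤ (6 * r) ^ 2 := by nlinarith
  exact (abs_le_of_sq_le_sq' h6 (by positivity)).2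

theorem Dd_flow_ge {f : EE → ℝ} (hf : Conf f) {φ : ℝ → EE × EE → EE × EE}
    {M : ℝ → EE × EE → (EE × EE) →L[ℝ] (EE × EE)} (hφ : IsFlow OO (XX f) φ M)
    {p : EE × EE} (hp : p.1 ∈ Bl) (s t : ℝ) :
    Real.exp (-3 * Real.sqrt (en f p) * |t - s|) * Dd (φ s p).1 ≤ Dd (φ t p).1 := by
  obtain ⟨u', u'', h⟩ := inv_Dd_convex hf hφ hp
  have hD : ∀ τ, 0 < Dd (φ τ p).1 := fun τ => Dd_pos (FG.memB hφ hp τ)
  have hg : ∀ τ, HasDerivAt (fun τ => Real.log (Dd (φ τ p).1)⁻¹) (u' τ / (Dd (φ τ p).1)⁻¹) τ :=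
    fun τ => (h τ).1.log (inv_pos.2 (hD τ)).ne'
  have hb : ∀ τ, ‖u' τ / (Dd (φ τ p).1)⁻¹‖ ≤ 3 * Real.sqrt (en f p) := fun τ => by
    have h1 := (h τ).2.2.2.1
    have h2 := inv_pos.2 (hD τ)
    rw [Real.norm_eq_abs]
    refine abs_le.2 (abs_le_of_sq_le_sq' ?_ (by positivity))
    rw [div_pow, mul_pow, Real.sq_sqrt (FG.en_nonneg f hp), div_le_iff₀ (by positivity)]
    linarith
  have h1 := convex_univ.norm_image_sub_le_of_norm_hasDerivWithin_le
    (fun τ _ => (hg τ).hasDerivWithinAt) (fun τ _ => hb τ) (mem_univ s) (mem_univ t)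
  rw [Real.norm_eq_abs, Real.norm_eq_abs, Real.log_inv, Real.log_inv] at h1
  have h2 := (abs_le.1 h1).2
  rw [← Real.exp_log (hD s), ← Real.exp_log (hD t), ← Real.exp_add]
  exact Real.exp_le_exp.2 (by linarith)

end Pool.Agent.MP_019006_gt

end
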