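import Pool.Agent.Mg.F019006.G5031fe
import Pool.Agent.Mg.F019006.G8e8c10
import Pool.Agent.Mg.F019006.G60de2a
import Pool.Agent.Mg.F019006.Ga63dad
import Pool.Agent.Mg.F019006.G5c6f1b

section

set_option autoImplicit false

open MeasureTheory Filter Topology Set Matrix

namespace Pool.Agent.MP_019006_gt

namespace Exm

variable {f : EE → ℝ} {φ : Flo} {M : DFlo}

theorem Gam_zero (f : EE → ℝ) (x u : EE) : Gam f x u 0 = 0 := by
  rw [← GamL_apply, map_zero]

theorem mem_flow (h : Ctx f φ M) {p : EE × EE} (hp : p.1 ∈ Bl) (t : ℝ) : (φ t p).1 ∈ Bl :=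
  mem_OO.1 (h.flow.mem t p (mem_OO.2 hp))

theorem en_one (h : Ctx f φ M) {p : EE × EE} (h1 : en f p = 1) (t : ℝ) : en f (φ t p) = 1 := by
  rw [en_flow h.conf.smooth h.flow, h1]

theorem jac_frame (h : Ctx f φ M) {p : EE × EE} (hp : p.1 ∈ Bl) (h1 : en f p = 1) (j : Fin 3)
    (t : ℝ) :
    (∀ i, HasDerivAt (fun s => YD f φ M p s i j)
      ((HD f φ M p t - Omat f (φ t p) * YD f φ M p t) i j) t) ∧
    (∀ i, HasDerivAt (fun s => HD f φ M p s i j)
      ((Kmat f (φ t p) * YD f φ M p t - Omat f (φ t p) * HD f φ M p t) i j) t) ∧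
    (M t p (0, frame p j)).1 = ∑ i, YD f φ M p t i j • frame (φ t p) i ∧
    (M t p (0, frame p j)).2 + Gam f (φ t p).1 (φ t p).2 (M t p (0, frame p j)).1 =
      ∑ i, HD f φ M p t i j • frame (φ t p) i :=
  jacobi_eq h.conf.smooth h.flow hp h1 (0, frame p j) (by simp)
    (by simpa [Gam_zero] using (frame_orth hp h1 j j).2) (fun t i => YD f φ M p t i j)
    (fun t i => HD f φ M p t i j) (fun _ _ => rfl) (fun _ _ => rfl) t

theorem gg_comb {q : EE × EE} (hq : q.1 ∈ Bl) (h1 : en f q = 1) (y : Fin 3 → ℝ) :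
    gg f q.1 (∑ i, y i • frame q i) q.2 = 0 ∧
      gg f q.1 (∑ i, y i • frame q i) (∑ i, y i • frame q i) = nsq y := by
  have h2 := fun i j => (frame_orth hq h1 i j).1
  have h3 := fun i => (frame_orth hq h1 i i).2
  constructor
  · simp [Fin.sum_univ_three, h3]
  · simp [Fin.sum_univ_three, h2, nsq, sq]

theorem sum_mulVec (A : M3) (c : Fin 3 → ℝ) (v : Fin 3 → EE) :
    ∑ j, c j • ∑ i, A i j • v i = ∑ i, (A *ᵥ c) i • v i := by
  simp only [Fin.sum_univ_three, Matrix.mulVec, dotProduct]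
  module

theorem hasFDerivAt_exp (h : Ctx f φ M) {x : EE} (hx : x ∈ Bl) (t : ℝ) (v : EE) :
    HasFDerivAt (fun w => (φ t (x, w)).1) ((ContinuousLinearMap.fst ℝ EE EE).comp
      ((M t (x, v)).comp (ContinuousLinearMap.inr ℝ EE EE))) v :=
  ((h.flow.fderiv t (x, v) (mem_OO.2 hx)).comp v (hasFDerivAt_prodMk_right x v)).fst

theorem exp_smul (h : Ctx f φ M) {x : EE} (hx : x ∈ Bl) (T : ℝ) (w : EE) :
    (φ 1 (x, T • w)).1 = (φ T (x, w)).1 := by
  simpa using congrArg Prod.fst (flow_scale h.flow T 1 (p := (x, w)) hx)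

theorem dexp_smul (h : Ctx f φ M) {x : EE} (hx : x ∈ Bl) (T : ℝ) (u w : EE) :
    T • dexp M (x, T • u) w = (M T (x, u) (0, w)).1 := by
  have h1 := (hasFDerivAt_exp h hx 1 (T • u)).comp u ((hasFDerivAt_id u).const_smul T)
  have h2 : ((fun w => (φ 1 (x, w)).1) ∘ fun y => T • id y) = fun w => (φ T (x, w)).1 :=
    funext fun w => exp_smul h hx T w
  have h3 := congrArg (fun L : EE →L[ℝ] EE => L w) ((h2 ▸ h1).unique (hasFDerivAt_exp h hx T u))
  simpa [dexp] using h3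

theorem dexp_rad (h : Ctx f φ M) {x : EE} (hx : x ∈ Bl) (T : ℝ) (u : EE) :
    dexp M (x, T • u) u = (φ T (x, u)).2 := by
  have h1 := (hasFDerivAt_exp h hx 1 (T • u)).comp_hasDerivAt T
    ((hasDerivAt_id T).smul_const u)
  have h2 : ((fun w => (φ 1 (x, w)).1) ∘ fun s : ℝ => id s • u) = fun s => (φ s (x, u)).1 :=
    funext fun s => exp_smul h hx s u
  have h3 := (h2 ▸ h1).unique (h.flow.deriv T (x, u) (mem_OO.2 hx)).fst
  simpa [dexp, XX] using h3

theorem gg_AR (f : EE → ℝ) {x : EE} (hx : x ∈ Bl) (u w : EE) :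
    gg f x (Fib.AR f x u) (Fib.AR f x w) = inner ℝ u w := by
  rw [Fib.AR_apply, Fib.AR_apply, map_smul, map_smul, _root_.smul_apply, gg_apply,
    g0, hh_L0 hx, ip_re, smul_eq_mul, smul_eq_mul, ← mul_assoc, ← mul_assoc, ← Real.exp_add,
    ← Real.exp_add, show -f x + -f x + 2 * f x = 0 by ring, Real.exp_zero, one_mul]

theorem det_orth {ι : Type} [Fintype ι] [DecidableEq ι] (e : OrthonormalBasis ι ℝ EE)
    (f : EE → ℝ) {x : EE} (hx : x ∈ Bl) (b : ι → EE)
    (hb : ∀ i j, gg f x (b i) (b j) = (1 : Matrix ι ι ℝ) i j) :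
    mm f x * |e.toBasis.det b| = 1 := by
  choose c hc using fun i => Fib.AR_surj f hx (b i)
  have h1 : (e.toBasis.toMatrix c)ᵀ * e.toBasis.toMatrix c = 1 := by
    ext i j
    rw [← hb, ← hc, ← hc, gg_AR f hx, ← e.sum_inner_mul_inner, Matrix.mul_apply]
    refine Finset.sum_congr rfl fun k _ => ?_
    simp [Module.Basis.toMatrix_apply, e.repr_apply_apply, real_inner_comm]
  have h2 : |e.toBasis.det c| = 1 := by
    have := congrArg Matrix.det h1
    rw [Matrix.det_mul, Matrix.det_transpose, Matrix.det_one, ← Module.Basis.det_apply] at this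
    rcases mul_self_eq_one_iff.1 this with h | h <;> simp [h]
  have h3 : b = (Fib.AR f x : EE →ₗ[ℝ] EE) ∘ c := funext fun i => (hc i).symm
  have h4 := Dd_pos hx
  have h5 : LinearMap.det (Fib.AR f x : EE →ₗ[ℝ] EE) = Real.exp (-f x) ^ 4 * Dd x ^ 3 :=
    Fib.det_AR f hx
  rw [h3, Module.Basis.det_comp, abs_mul, h2, h5, abs_of_pos (by positivity), mm,
    ← Real.exp_nat_mul, mul_one, div_mul_eq_mul_div, ← mul_assoc, ← Real.exp_add]
  simp [h4.ne']

theorem det_frames {ι : Type} [Fintype ι] [DecidableEq ι] (hι : Fintype.card ι = 4)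
    (f : EE → ℝ) {x z : EE} (hx : x ∈ Bl) (hz : z ∈ Bl) (b c : ι → EE)
    (hb : ∀ i j, gg f x (b i) (b j) = (1 : Matrix ι ι ℝ) i j)
    (hc : ∀ i j, gg f z (c i) (c j) = (1 : Matrix ι ι ℝ) i j) (A : EE →L[ℝ] EE)
    (N : Matrix ι ι ℝ) (hA : ∀ j, A (b j) = ∑ i, N i j • c i) :
    mm f z * |A.det| / mm f x = |N.det| := by
  let e : OrthonormalBasis ι ℝ EE := (stdOrthonormalBasis ℝ EE).reindex
    (Fintype.equivOfCardEq (by rw [Fintype.card_fin, Fib.finrank_EE, hι]))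
  have h1 := det_orth e f hx b hb
  have h2 := det_orth e f hz c hc
  have h3 : A.det * e.toBasis.det b = e.toBasis.det c * N.det := by
    rw [ContinuousLinearMap.det, ← Module.Basis.det_comp, Module.Basis.det_apply,
      Module.Basis.det_apply, ← Matrix.det_mul]
    congr 1
    ext i j
    simp [Module.Basis.toMatrix_apply, hA, Matrix.mul_apply, mul_comm]
  have h4 := congrArg abs h3
  have h5 : mm f x ≠ 0 := left_ne_zero_of_mul_eq_one h1
  rw [abs_mul, abs_mul] at h4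
  rw [div_eq_iff h5]
  linear_combination mm f z * mm f x * h4 - mm f z * |A.det| * h1 + |N.det| * mm f x * h2

theorem orth_full {q : EE × EE} (hq : q.1 ∈ Bl) (h1 : en f q = 1) (i j : Unit ⊕ Fin 3) :
    gg f q.1 (Sum.elim (fun _ => q.2) (frame q) i) (Sum.elim (fun _ => q.2) (frame q) j) =
      (1 : Matrix (Unit ⊕ Fin 3) (Unit ⊕ Fin 3) ℝ) i j := by
  rcases i with i | i <;> rcases j with j | j
  · exact h1.trans (by simp)
  · rw [gg_symm]; exact (frame_orth hq h1 j j).2.trans (by simp)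
  · exact (frame_orth hq h1 i i).2.trans (by simp)
  · exact (frame_orth hq h1 i j).1.trans (by simp [Matrix.one_apply])

/-- A global inverse function theorem. -/
theorem global_inv {F : Type} [NormedAddCommGroup F] [NormedSpace ℝ F] {O U : Set F}
    (hO : IsOpen O) (hU : IsOpen U) (cO : Convex ℝ O) (cU : Convex ℝ U) {Ψ : F → F}
    (maps : MapsTo Ψ O U) (loc : IsLocalHomeomorphOn Ψ O)
    (prop : ∀ K ⊆ U, IsCompact K → IsCompact (O ∩ Ψ ⁻¹' K)) {a : F} (ha : a ∈ O) :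
    ∃ σ : F → F, ContinuousOn σ U ∧ (∀ y ∈ U, σ y ∈ O ∧ Ψ (σ y) = y) ∧ ∀ x ∈ O, σ (Ψ x) = x := by
  classical
  let g : O → U := maps.restrict Ψ O U
  have gc : Continuous g := loc.continuousOn.mapsToRestrict maps
  have gl : IsLocalHomeomorph g := by
    refine IsLocalHomeomorph.of_comp (g := ((↑) : U → F)) ?_
      hU.isOpenEmbedding_subtypeVal.isLocalHomeomorph gc
    exact isLocalHomeomorph_iff_isLocalHomeomorphOn_univ.2 (loc.comp
      hO.isOpenEmbedding_subtypeVal.isLocalHomeomorph.isLocalHomeomorphOn fun x _ => x.2)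
  have gk : ∀ K : Set U, IsCompact K → IsCompact (g ⁻¹' K) := fun K hK => by
    rw [Topology.IsEmbedding.subtypeVal.isCompact_iff]
    convert prop _ (Subtype.coe_image_subset U K) (hK.image continuous_subtype_val) using 1
    ext x
    constructor
    · rintro ⟨x, hx, rfl⟩
      exact ⟨x.2, g x, hx, rfl⟩
    · rintro ⟨hx, y, hy, e⟩
      exact ⟨⟨x, hx⟩, by rwa [mem_preimage, show g ⟨x, hx⟩ = y from Subtype.ext e.symm], rfl⟩
  have gp : IsProperMap g := isProperMap_iff_isCompact_preimage.2 ⟨gc, gk⟩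
  have cov : IsCoveringMap g := isCoveringMap_iff_isCoveringMapOn_univ.2
    (gp.isClosedMap.isCoveringMapOn_of_isLocalHomeomorphOn (fun y _ =>
      (gk _ isCompact_singleton).finite (gl.isLocalHomeomorphOn.isDiscrete_of_image
        ((finite_singleton y).subset (image_preimage_subset _ _)).isDiscrete))
      gl.isLocalHomeomorphOn)
  have := cU.contractibleSpace ⟨_, maps ha⟩
  have := cU.locallyPathConnectedSpace
  have := Subtype.preconnectedSpace cO.isPreconnected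
  obtain ⟨s, ⟨hs0, hs⟩, -⟩ := cov.existsUnique_continuousMap_lifts (ContinuousMap.id U)
    (g ⟨a, ha⟩) ⟨a, ha⟩ rfl
  have hs' : ∀ y, g (s y) = y := congrFun hs
  have hl : s ∘ g = id := cov.eq_of_comp_eq (s.continuous.comp gc) continuous_id
    (funext fun x => hs' (g x)) ⟨a, ha⟩ hs0
  refine ⟨fun y => if hy : y ∈ U then s ⟨y, hy⟩ else y, ?_, fun y hy => ?_, fun x hx => ?_⟩
  · rw [continuousOn_iff_continuous_domRestrict]
    exact (continuous_subtype_val.comp s.continuous).congr fun y => by simp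
  · simp only [hy, dif_pos]
    exact ⟨(s ⟨y, hy⟩).2, congrArg Subtype.val (hs' ⟨y, hy⟩)⟩
  · simp only [maps hx, dif_pos]
    exact congrArg Subtype.val (congrFun hl ⟨x, hx⟩)

end Exm

open Exm

theorem dirSys {f : EE → ℝ} {φ : Flo} {M : DFlo} (h : Ctx f φ M) {p : EE × EE} (hp : p.1 ∈ Bl)
    (h1 : en f p = 1) : DirSys (fun t => Kmat f (φ t p)) (fun t => Omat f (φ t p))
      (YD f φ M p) (HD f φ M p) := by
  have hO := mem_OO.2 hp
  have hc : Continuous fun t => φ t p :=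
    continuous_iff_continuousAt.2 fun t => (h.flow.deriv t p hO).continuousAt
  refine ⟨(continuousOn_Kmat h.conf.smooth).comp_continuous hc fun t => h.flow.mem t p hO,
    (continuousOn_Omat h.conf.smooth).comp_continuous hc fun t => h.flow.mem t p hO,
    fun t => Kmat_symm h.conf.smooth (mem_flow h hp t) (en_one h h1 t),
    fun t => Omat_antisymm h.conf.smooth (mem_flow h hp t),
    fun t u => Kmat_pinch h.conf (mem_flow h hp t) (en_one h h1 t) u,
    fun t i j => (jac_frame h hp h1 j t).1 i, fun t i j => (jac_frame h hp h1 j t).2.1 i, ?_, ?_⟩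
  · ext i j
    simp [YD, h.flow.M_add.1 p hO]
  · ext i j
    simp only [HD, h.flow.M_add.1 p hO, h.flow.zero, ContinuousLinearMap.id_apply, Gam_zero,
      add_zero]
    rw [gg_symm, (frame_orth hp h1 i j).1]

theorem M_dirichlet {f : EE → ℝ} {φ : Flo} {M : DFlo} (h : Ctx f φ M) {p : EE × EE}
    (hp : p.1 ∈ Bl) (h1 : en f p = 1) (n : EE) (hn : gg f p.1 n p.2 = 0) (t : ℝ) :
    gg f (φ t p).1 (M t p (0, n)).1 (φ t p).2 = 0 ∧
    gg f (φ t p).1 (M t p (0, n)).1 (M t p (0, n)).1 =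
      nsq (YD f φ M p t *ᵥ fun j => gg f p.1 n (frame p j)) ∧
    sasaki (gg f) (Gam f) (φ t p) (M t p (0, n)) ^ 2 =
      nsq (YD f φ M p t *ᵥ fun j => gg f p.1 n (frame p j)) +
        nsq (HD f φ M p t *ᵥ fun j => gg f p.1 n (frame p j)) ∧
    gg f p.1 n n = nsq fun j => gg f p.1 n (frame p j) := by
  have e1 := frame_span hp h1 n
  rw [hn, zero_smul, zero_add] at e1
  set c : Fin 3 → ℝ := fun j => gg f p.1 n (frame p j) with hc
  have e2 : M t p (0, n) = ∑ j, c j • M t p (0, frame p j) := by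
    simp only [← map_smul, ← map_sum]
    congr 1
    ext1
    · simp [Prod.fst_sum]
    · simpa [Prod.snd_sum] using e1
  have e3 : (M t p (0, n)).1 = ∑ i, (YD f φ M p t *ᵥ c) i • frame (φ t p) i := by
    rw [e2, Prod.fst_sum, ← sum_mulVec]
    exact Finset.sum_congr rfl fun j _ => by rw [Prod.smul_fst, (jac_frame h hp h1 j t).2.2.1]
  have e4 : (M t p (0, n)).2 + Gam f (φ t p).1 (φ t p).2 (M t p (0, n)).1 =
      ∑ i, (HD f φ M p t *ᵥ c) i • frame (φ t p) i := by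
    rw [e2, Prod.fst_sum, Prod.snd_sum, ← GamL_apply, map_sum, ← Finset.sum_add_distrib,
      ← sum_mulVec]
    exact Finset.sum_congr rfl fun j _ => by
      rw [Prod.smul_fst, Prod.smul_snd, map_smul, ← smul_add, GamL_apply,
        (jac_frame h hp h1 j t).2.2.2]
  have g1 := gg_comb (mem_flow h hp t) (en_one h h1 t) (YD f φ M p t *ᵥ c)
  have g2 := gg_comb (mem_flow h hp t) (en_one h h1 t) (HD f φ M p t *ᵥ c)
  have g3 := gg_comb hp h1 c
  rw [← e3] at g1
  rw [← e4] at g2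
  refine ⟨g1.1, g1.2, ?_, ?_⟩
  · rw [sasaki, g1.2, g2.2, Real.sq_sqrt (by unfold nsq; positivity)]
  · rw [← g3.2, ← e1]

theorem Jac_eq {f : EE → ℝ} {φ : Flo} {M : DFlo} (h : Ctx f φ M) {p : EE × EE} (hp : p.1 ∈ Bl)
    (h0 : p.2 ≠ 0) : Jac f φ M p =
      (YD f φ M (nrm f p) (Real.sqrt (en f p))).det / Real.sqrt (en f p) ^ 3 := by
  obtain ⟨he, h1⟩ := en_nrm (f := f) hp h0
  have hT := Real.sqrt_pos.2 he
  set T := Real.sqrt (en f p)
  obtain ⟨u, hu⟩ : ∃ u, u = T⁻¹ • p.2 := ⟨_, rfl⟩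
  have hq : nrm f p = (p.1, u) := by rw [hu]; rfl
  have hp' : p = (p.1, T • u) := by rw [hu, smul_inv_smul₀ hT.ne']
  rw [hq] at h1 ⊢
  clear_value T
  generalize p.1 = x at *
  subst hp'
  have hz := mem_flow h (p := (x, u)) hp T
  have hpos := dir_basic.choose_spec.2 _ _ _ _ (dirSys h (p := (x, u)) hp h1) |>.1 T hT
  rw [Jac, exp_smul h hp, det_frames (by simp) f hp hz _ _ (orth_full (q := (x, u)) hp h1)
    (orth_full hz (en_one h h1 T)) _ (Matrix.fromBlocks 1 0 0 (T⁻¹ • YD f φ M (x, u) T)),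
    Matrix.det_fromBlocks_zero₂₁, Matrix.det_one, one_mul, Matrix.det_smul, Fintype.card_fin,
    abs_of_pos (by positivity), inv_pow, inv_mul_eq_div]
  rintro (j | j)
  · simpa using dexp_rad h hp T u
  · have e := dexp_smul h hp T u (frame (x, u) j)
    rw [(jac_frame h (p := (x, u)) hp h1 j T).2.2.1, ← eq_inv_smul_iff₀ hT.ne', Finset.smul_sum]
      at e
    simpa [smul_smul] using e

theorem dexp_det_ne {f : EE → ℝ} {φ : Flo} {M : DFlo} (h : Ctx f φ M) {p : EE × EE}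
    (hp : p.1 ∈ Bl) : (dexp M p).det ≠ 0 := by
  by_cases h0 : p.2 = 0
  · have : dexp M p = ContinuousLinearMap.id ℝ EE := by
      ext1 u
      have := dexp_rad h hp 0 u
      rwa [zero_smul, ← h0, h.flow.zero] at this
    simp [this, ContinuousLinearMap.det]
  · obtain ⟨he, h1⟩ := en_nrm (f := f) hp h0
    have hT := Real.sqrt_pos.2 he
    have hpos := dir_basic.choose_spec.2 _ _ _ _ (dirSys h (p := nrm f p) hp h1) |>.1 _ hT
    intro hd
    have := Jac_eq h hp h0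
    rw [Jac, hd, abs_zero, mul_zero, zero_div] at this
    exact absurd this.symm (by positivity)

theorem inv_Dd_exp {f : EE → ℝ} {φ : Flo} {M : DFlo} (h : Ctx f φ M) {p : EE × EE}
    (hp : p.1 ∈ Bl) (t : ℝ) : t ^ 2 * en f p / 2 - 3 * |t| * Real.sqrt (en f p) * (Dd p.1)⁻¹ ≤
      (Dd (φ t p).1)⁻¹ := by
  obtain ⟨u', u'', H⟩ := inv_Dd_convex h.conf h.flow hp
  have he : 0 ≤ en f p :=
    mul_nonneg (Real.exp_pos _).le ((sq_nonneg _).trans (g0_bounds hp p.2).1)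
  have hk : ∀ s, HasDerivAt (fun s => u' s - en f p * s) (u'' s - en f p * 1) s := fun s =>
    (H s).2.1.sub ((hasDerivAt_id s).const_mul _)
  have hm : Monotone fun s => u' s - en f p * s :=
    monotone_of_deriv_nonneg (fun s => (hk s).differentiableAt) fun s => by
      rw [(hk s).deriv]
      have h2 := (one_le_inv₀ (Dd_pos (mem_flow h hp s))).2 (Dd_le_one _)
      nlinarith [(H s).2.2.2.2]
  have hg : ∀ s, HasDerivAt (fun s => (Dd (φ s p).1)⁻¹ - en f p * (s ^ 2 / 2))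
      (u' s - en f p * s) s := fun s =>
    (H s).1.sub (((hasDerivAt_pow 2 s).div_const 2).const_mul _ |>.congr_deriv (by simp))
  have hu0 : 0 < (Dd p.1)⁻¹ := inv_pos.2 (Dd_pos hp)
  have h3 : |u' 0| ≤ 3 * Real.sqrt (en f p) * (Dd p.1)⁻¹ := by
    refine abs_le_of_sq_le_sq ?_ (by positivity)
    have := (H 0).2.2.2.1
    rw [h.flow.zero] at this
    rw [mul_pow, mul_pow, Real.sq_sqrt he]
    linarith
  have h4 : u' 0 * t ≤ (Dd (φ t p).1)⁻¹ - en f p * (t ^ 2 / 2) - (Dd p.1)⁻¹ := by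
    rcases lt_trichotomy t 0 with ht | rfl | ht
    · obtain ⟨c, hc, e⟩ := exists_hasDerivAt_eq_slope _ _ ht
        (fun s _ => (hg s).continuousAt.continuousWithinAt) fun s _ => hg s
      have := hm hc.2.le
      rw [h.flow.zero, eq_div_iff (by linarith)] at e
      simp only at this
      nlinarith
    · simp [h.flow.zero]
    · obtain ⟨c, hc, e⟩ := exists_hasDerivAt_eq_slope _ _ ht
        (fun s _ => (hg s).continuousAt.continuousWithinAt) fun s _ => hg s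
      have := hm hc.1.le
      rw [h.flow.zero, eq_div_iff (by linarith)] at e
      simp only at this
      nlinarith
  have h5 := neg_abs_le (u' 0 * t)
  rw [abs_mul] at h5
  nlinarith [abs_nonneg t]

namespace Exm

variable {f : EE → ℝ} {φ : Flo} {M : DFlo}

theorem loc_exp (h : Ctx f φ M) :
    IsLocalHomeomorphOn (fun p : EE × EE => (p.1, (φ 1 p).1)) OO := fun p hp => by
  have hc : ContinuousOn (M 1) OO :=
    h.flow.Mcont.comp (f := fun q : EE × EE => ((1 : ℝ), q))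
      (continuousOn_const.prodMk continuousOn_id) fun q hq => ⟨mem_univ _, hq⟩
  have hs : HasStrictFDerivAt (φ 1) (M 1 p) p :=
    hasStrictFDerivAt_of_hasFDerivAt_of_continuousAt
      (mem_of_superset (isOpen_OO.mem_nhds hp) fun q hq => h.flow.fderiv 1 q hq)
      (hc.continuousAt (isOpen_OO.mem_nhds hp))
  have hs2 := (hasStrictFDerivAt_fst (𝕜 := ℝ) (p := p)).prodMk hs.fst
  obtain ⟨D, hD⟩ : ∃ D : (EE × EE) →L[ℝ] (EE × EE), D = (ContinuousLinearMap.fst ℝ EE EE).prod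
    ((ContinuousLinearMap.fst ℝ EE EE).comp (M 1 p)) := ⟨_, rfl⟩
  have hinj : Function.Injective D.toLinearMap := by
    rw [injective_iff_map_eq_zero]
    rintro ⟨a, b⟩ hab
    have h1 : a = 0 := by simpa [hD] using congrArg Prod.fst hab
    have h2 : (dexp M p).toLinearMap b = 0 := by simpa [hD, h1, dexp] using congrArg Prod.snd hab
    have h3 : LinearMap.ker (dexp M p).toLinearMap = ⊥ := by
      by_contra h4
      exact dexp_det_ne h (mem_OO.1 hp) (LinearMap.det_eq_zero_iff_ker_ne_bot.2 h4)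
    rw [h1, LinearMap.ker_eq_bot'.1 h3 b h2, Prod.mk_zero_zero]
  rw [← hD] at hs2
  obtain ⟨e, he⟩ : ∃ e : (EE × EE) ≃L[ℝ] (EE × EE), (e : (EE × EE) →L[ℝ] (EE × EE)) = D :=
    ⟨(LinearEquiv.ofInjectiveEndo _ hinj).toContinuousLinearEquiv,
      ContinuousLinearMap.ext fun _ => rfl⟩
  rw [← he] at hs2
  exact ⟨hs2.toOpenPartialHomeomorph _, hs2.mem_toOpenPartialHomeomorph_source, rfl⟩

theorem norm_le_exp (h : Ctx f φ M) {p : EE × EE} (hB : p.1 ∈ Bl) {C : ℝ}
    (h1 : (Dd p.1)⁻¹ + (Dd (φ 1 p).1)⁻¹ ≤ C) : ‖p.2‖ ≤ 2 * (6 * C + 2) := by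
  have h2 := inv_Dd_exp h hB 1
  have h3 := inv_pos.2 (Dd_pos hB)
  have h4 := inv_pos.2 (Dd_pos (mem_flow h hB 1))
  have h5 := (g0_bounds hB p.2).1
  have h6 : 1 / 4 * ‖p.2‖ ^ 2 ≤ en f p :=
    mul_le_mul (by linarith [Real.add_one_le_exp (2 * f p.1), (abs_le.1 (h.conf.fb _ hB)).1])
      h5 (sq_nonneg _) (Real.exp_pos _).le
  have h7 := Real.sq_sqrt (le_trans (by positivity) h6)
  have h8 := Real.sqrt_nonneg (en f p)
  rw [abs_one] at h2
  generalize Real.sqrt (en f p) = s at h2 h7 h8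
  generalize (Dd p.1)⁻¹ = a at *
  generalize (Dd (φ 1 p).1)⁻¹ = b at *
  have h9 : s ≤ 6 * C + 2 := by
    by_contra! h9
    have := mul_le_mul_of_nonneg_left (show a ≤ C by linarith) h8
    nlinarith
  exact le_trans (abs_le_of_sq_le_sq' (by linarith) (by positivity)).2
    (by linarith : 2 * s ≤ _)

theorem prop_exp (h : Ctx f φ M) (K : Set (EE × EE)) (hK : K ⊆ Bl ×ˢ Bl) (cK : IsCompact K) :
    IsCompact (OO ∩ (fun p : EE × EE => (p.1, (φ 1 p).1)) ⁻¹' K) := by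
  have cD : ContinuousOn (fun x => (Dd x)⁻¹) Bl :=
    Fib.cont_Dd.continuousOn.inv₀ fun x hx => (Dd_pos hx).ne'
  have c1 : ContinuousOn (fun q : EE × EE => (Dd q.1)⁻¹) K :=
    cD.comp continuousOn_fst fun q hq => (hK hq).1
  have c2 : ContinuousOn (fun q : EE × EE => (Dd q.2)⁻¹) K :=
    cD.comp continuousOn_snd fun q hq => (hK hq).2
  obtain ⟨C, hC⟩ := cK.bddAbove_image (c1.add c2)
  have cL := (cK.image continuous_fst).prod (isCompact_closedBall (0 : EE) (2 * (6 * C + 2)))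
  have sL : (Prod.fst '' K) ×ˢ Metric.closedBall (0 : EE) (2 * (6 * C + 2)) ⊆ OO := by
    rintro p ⟨⟨q, hq, e⟩, -⟩
    exact mem_OO.2 (e ▸ (hK hq).1)
  have cl := ((loc_exp h).continuousOn.mono sL).preimage_isClosed_of_isClosed
    cL.isClosed cK.isClosed
  have e : OO ∩ (fun p : EE × EE => (p.1, (φ 1 p).1)) ⁻¹' K =
      (Prod.fst '' K) ×ˢ Metric.closedBall (0 : EE) (2 * (6 * C + 2)) ∩
        (fun p : EE × EE => (p.1, (φ 1 p).1)) ⁻¹' K := by
    refine Subset.antisymm (fun p hp => ⟨⟨⟨_, hp.2, rfl⟩, ?_⟩, hp.2⟩)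
      (inter_subset_inter_left _ sL)
    exact mem_closedBall_zero_iff.2 (norm_le_exp h (mem_OO.1 hp.1) (hC ⟨_, hp.2, rfl⟩))
  rw [e]
  exact cL.of_isClosed_subset cl inter_subset_left

end Exm

theorem exists_isLog {f : EE → ℝ} {φ : Flo} {M : DFlo} (h : Ctx f φ M) : ∃ V, IsLog φ V := by
  have cB : Convex ℝ Bl := convex_ball 0 1
  have cO : Convex ℝ OO := cB.prod convex_univ
  obtain ⟨σ, hσ1, hσ2, hσ3⟩ := global_inv (Ψ := fun p : EE × EE => (p.1, (φ 1 p).1)) isOpen_OO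
    (isOpen_Bl.prod isOpen_Bl) cO (cB.prod cB)
    (fun p hp => ⟨mem_OO.1 hp, mem_flow h (mem_OO.1 hp) 1⟩) (loc_exp h) (prop_exp h)
    (a := 0) (mem_OO.2 (mem_Bl.2 (by simp)))
  refine ⟨fun y z => (σ (y, z)).2, fun y hy z hz => ?_, fun y hy v => ?_, hσ1.snd⟩
  · obtain ⟨e1, e2⟩ := Prod.mk.inj (hσ2 (y, z) ⟨hy, hz⟩).2
    have e : (y, (σ (y, z)).2) = σ (y, z) := Prod.ext e1.symm rfl
    rw [e, e2]
  · have := hσ3 (y, v) (mem_OO.2 hy)
    simp only at this
    rw [this]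

end Pool.Agent.MP_019006_gt

end

section

set_option autoImplicit false

open MeasureTheory Filter Topology Set Matrix

namespace Pool.Agent.MP_019006_gt

namespace LogM

open ContinuousLinearMap in
theorem det_block (A S B : EE →L[ℝ] EE) :
    ((A.comp (fst ℝ EE EE)).prod (B.comp (snd ℝ EE EE) + S.comp (fst ℝ EE EE))).det =
      A.det * B.det := by
  classical
  let b := Module.finBasis ℝ EE
  unfold ContinuousLinearMap.det
  rw [← LinearMap.det_toMatrix (b.prod b), ← LinearMap.det_toMatrix b, ← LinearMap.det_toMatrix b,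
    ← Matrix.det_fromBlocks_zero₁₂ _ (LinearMap.toMatrix b b (S : EE →ₗ[ℝ] EE))]
  congr 1
  ext (i | i) (k | k) <;> simp [LinearMap.toMatrix_apply]

theorem det_comp (A B : (EE × EE) →L[ℝ] (EE × EE)) : (A.comp B).det = A.det * B.det :=
  LinearMap.det_comp (A : (EE × EE) →ₗ[ℝ] (EE × EE)) (B : (EE × EE) →ₗ[ℝ] (EE × EE))

theorem abs_det_invol (A : (EE × EE) →L[ℝ] (EE × EE)) (h : ∀ p, A (A p) = p) : |A.det| = 1 := by
  have h1 : A.comp A = ContinuousLinearMap.id ℝ _ := ContinuousLinearMap.ext h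
  have h2 := det_comp A A
  rw [h1] at h2
  have h3 : A.det * A.det = 1 := by rw [← h2]; simp [ContinuousLinearMap.det]
  rcases mul_self_eq_one_iff.mp h3 with e | e <;> simp [e]

/-- The derivative of the end point map. -/
noncomputable def DP (M : DFlo) (p : EE × EE) : (EE × EE) →L[ℝ] (EE × EE) :=
  (ContinuousLinearMap.fst ℝ EE EE).prod ((ContinuousLinearMap.fst ℝ EE EE).comp (M 1 p))

open ContinuousLinearMap in
theorem det_DP (M : DFlo) (p : EE × EE) : (DP M p).det = (dexp M p).det := by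
  have := det_block (ContinuousLinearMap.id ℝ EE)
    ((fst ℝ EE EE).comp ((M 1 p).comp (inl ℝ EE EE))) (dexp M p)
  rw [show (ContinuousLinearMap.id ℝ EE).det = 1 by simp [ContinuousLinearMap.det], one_mul] at this
  rw [← this]
  congr 1
  refine ContinuousLinearMap.ext fun q => Prod.ext rfl ?_
  have e : q = (0, q.2) + (q.1, 0) := by simp
  change (M 1 p q).1 = (M 1 p (0, q.2)).1 + (M 1 p (q.1, 0)).1
  rw [← Prod.fst_add, ← map_add, ← e]

variable {f : EE → ℝ} {φ : Flo} {M : DFlo} {V : EE → EE → EE}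

theorem mem (h : Ctx f φ M) {p : EE × EE} (hp : p.1 ∈ Bl) (t : ℝ) : (φ t p).1 ∈ Bl :=
  mem_OO.1 (h.flow.mem t p (mem_OO.2 hp))

theorem hasF_P (h : Ctx f φ M) {p : EE × EE} (hp : p.1 ∈ Bl) :
    HasFDerivAt (fun q : EE × EE => (q.1, (φ 1 q).1)) (DP M p) p :=
  hasFDerivAt_fst.prodMk (h.flow.fderiv 1 p (mem_OO.2 hp)).fst

theorem hasF_fib (h : Ctx f φ M) {x : EE} (hx : x ∈ Bl) (t : ℝ) (a : EE) :
    HasFDerivAt (fun b : EE => (φ t (x, b)).1) ((ContinuousLinearMap.fst ℝ EE EE).comp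
      ((M t (x, a)).comp (ContinuousLinearMap.inr ℝ EE EE))) a :=
  ((h.flow.fderiv t (x, a) (mem_OO.2 hx)).comp a (hasFDerivAt_prodMk_right x a)).fst

theorem hasF_exp (h : Ctx f φ M) {x : EE} (hx : x ∈ Bl) (a : EE) :
    HasFDerivAt (fun b : EE => (φ 1 (x, b)).1) (dexp M (x, a)) a := hasF_fib h hx 1 a

theorem scale1 (h : Ctx f φ M) {x : EE} (hx : x ∈ Bl) (c : ℝ) (v : EE) :
    φ 1 (x, c • v) = ((φ c (x, v)).1, c • (φ c (x, v)).2) := by
  have := flow_scale h.flow c 1 (p := (x, v)) hx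
  rwa [mul_one] at this

theorem rev (h : Ctx f φ M) {p : EE × EE} (hp : p.1 ∈ Bl) :
    φ 1 ((φ 1 p).1, -(φ 1 p).2) = (p.1, -p.2) := by
  have := scale1 h (mem h hp 1) (-1) (φ 1 p).2
  rw [Prod.mk.eta, ← h.flow.add, neg_add_cancel, h.flow.zero] at this
  simpa using this

theorem mm_pos (f : EE → ℝ) {x : EE} (hx : x ∈ Bl) : 0 < mm f x :=
  div_pos (Real.exp_pos _) (pow_pos (Dd_pos hx) 3)

theorem rho_eq (f : EE → ℝ) (p : EE × EE) : rho f p = mm f p.1 ^ 2 := by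
  unfold rho mm
  rw [div_pow, ← Real.exp_nat_mul, ← pow_mul]
  congr 2
  push_cast
  ring

theorem en_nonneg (f : EE → ℝ) {p : EE × EE} (hp : p.1 ∈ Bl) : 0 ≤ en f p :=
  mul_nonneg (Real.exp_pos _).le ((sq_nonneg _).trans (g0_bounds hp p.2).1)

theorem Jac_rev (h : Ctx f φ M) {p : EE × EE} (hp : p.1 ∈ Bl) :
    Jac f φ M p = Jac f φ M ((φ 1 p).1, -(φ 1 p).2) := by
  set sg : (EE × EE) →L[ℝ] (EE × EE) :=
    (ContinuousLinearMap.fst ℝ EE EE).prod (-ContinuousLinearMap.snd ℝ EE EE) with hsg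
  set sw : (EE × EE) →L[ℝ] (EE × EE) :=
    (ContinuousLinearMap.snd ℝ EE EE).prod (ContinuousLinearMap.fst ℝ EE EE) with hsw
  have h1 := sw.hasFDerivAt.comp p (hasF_P h hp)
  have h2 := (hasF_P h (p := sg (φ 1 p)) (mem h hp 1)).comp p
    (sg.hasFDerivAt.comp p (h.flow.fderiv 1 p (mem_OO.2 hp)))
  have h3 := h1.unique (h2.congr_of_eventuallyEq (by
    filter_upwards [isOpen_OO.mem_nhds (mem_OO.2 hp)] with q hq
    have := rev h (mem_OO.1 hq)
    simp [hsw, hsg, this]))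
  have h4 := congrArg (fun A : (EE × EE) →L[ℝ] (EE × EE) => |A.det|) h3
  simp only [det_comp, abs_mul, det_DP] at h4
  rw [abs_det_invol sw (fun q => by simp [hsw]), abs_det_invol sg (fun q => by simp [hsg])] at h4
  have h5 := congrArg abs (flow_det h.conf.smooth h.flow 1 hp)
  have a1 := mm_pos f hp
  have a2 := mm_pos f (mem h hp 1)
  rw [rho_eq, rho_eq, abs_mul, abs_of_pos (pow_pos a1 2), abs_of_pos (pow_pos a2 2)] at h5
  have e : sg (φ 1 p) = ((φ 1 p).1, -(φ 1 p).2) := by simp [hsg]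
  rw [e] at h4
  unfold Jac
  rw [rev h hp]
  field_simp
  linear_combination mm f (φ 1 p).1 ^ 2 * h4 + |(dexp M ((φ 1 p).1, -(φ 1 p).2)).det| * h5

theorem V_ne (h : Ctx f φ M) (hV : IsLog φ V) {y z : EE} (hy : y ∈ Bl) (hz : z ∈ Bl)
    (hne : z ≠ y) : V y z ≠ 0 := by
  intro h0
  have h1 := hV.right y hy z hz
  have h2 := scale1 h hy 0 0
  rw [zero_smul, h.flow.zero] at h2
  rw [h0, h2] at h1
  exact hne h1.symm

theorem JT_eq (h : Ctx f φ M) (hV : IsLog φ V) {y z : EE} (hy : y ∈ Bl) (hz : z ∈ Bl)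
    (hne : z ≠ y) : JT f φ M V y z = Jac f φ M (y, V y z) * dd f V y z ^ 3 := by
  have h0 := V_ne h hV hy hz hne
  have h1 : 0 < dd f V y z := Real.sqrt_pos.2 (Fib.en_pos f (p := (y, V y z)) hy h0)
  rw [Jac_eq h (p := (y, V y z)) hy h0]
  exact (div_mul_cancel₀ _ (pow_pos h1 3).ne').symm

theorem V_deriv (h : Ctx f φ M) (hV : IsLog φ V) {y : EE} (hy : y ∈ Bl) {c : ℝ → EE} {c' : EE}
    {θ : ℝ} (hc : c θ ∈ Bl) (hd : HasDerivAt c c' θ) : ∃ a' : EE,
      HasDerivAt (fun s => V y (c s)) a' θ ∧ dexp M (y, V y (c θ)) a' = c' := by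
  have hcont : ContinuousAt (V y) (c θ) :=
    (hV.cont.comp (f := fun z : EE => (y, z)) (s := Bl) (by fun_prop)
      fun z hz => ⟨hy, hz⟩).continuousAt (isOpen_Bl.mem_nhds hc)
  obtain ⟨E, hE⟩ : ∃ E : EE ≃L[ℝ] EE, (E : EE →L[ℝ] EE) = dexp M (y, V y (c θ)) :=
    ⟨_, ContinuousLinearMap.coe_toContinuousLinearEquivOfDetNeZero _
      (dexp_det_ne h (p := (y, V y (c θ))) hy)⟩
  have hF : HasFDerivAt (V y) (E.symm : EE →L[ℝ] EE) (c θ) :=
    HasFDerivAt.of_local_left_inverse (f := fun b => (φ 1 (y, b)).1) hcont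
      (by rw [hE]; exact hasF_exp h hy _)
      (by filter_upwards [isOpen_Bl.mem_nhds hc] with z hz using hV.right y hy z hz)
  have h2 := hF.comp_hasDerivAt θ hd
  exact ⟨E.symm c', h2, by rw [← hE]; exact E.apply_symm_apply c'⟩

theorem polar (B : EE →L[ℝ] EE →L[ℝ] ℝ) (hB : ∀ u w, B u w = B w u) {a : ℝ → EE} {a' : EE}
    {θ : ℝ} (ha : HasDerivAt a a' θ) (hpos : 0 < B (a θ) (a θ)) : ∃ (n : EE) (d : ℝ),
      HasDerivAt (fun s => (Real.sqrt (B (a s) (a s)))⁻¹ • a s) n θ ∧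
      HasDerivAt (fun s => Real.sqrt (B (a s) (a s))) d θ ∧
      B n ((Real.sqrt (B (a θ) (a θ)))⁻¹ • a θ) = 0 ∧
      a' = d • (Real.sqrt (B (a θ) (a θ)))⁻¹ • a θ + Real.sqrt (B (a θ) (a θ)) • n ∧
      a θ = Real.sqrt (B (a θ) (a θ)) • (Real.sqrt (B (a θ) (a θ)))⁻¹ • a θ := by
  have hen : HasDerivAt (fun s => B (a s) (a s)) (B a' (a θ) + B (a θ) a') θ :=
    (B.hasFDerivAt.comp_hasDerivAt θ ha).clm_apply ha
  have hD := Real.sqrt_pos.2 hpos
  have hdd := hen.sqrt hpos.ne'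
  have hsq := Real.sq_sqrt hpos.le
  refine ⟨_, _, (hdd.inv hD.ne').smul ha, hdd, ?_, ?_, ?_⟩
  · simp only [map_add, map_smul, _root_.add_apply, _root_.smul_apply, smul_eq_mul, Pi.inv_apply,
      hB (a θ) a']
    generalize Real.sqrt (B (a θ) (a θ)) = D at hD hsq
    rw [← hsq]
    field_simp
    ring
  · simp only [Pi.inv_apply]
    generalize Real.sqrt (B (a θ) (a θ)) = D at hD
    match_scalars <;> field_simp
    ring
  · rw [smul_smul, mul_inv_cancel₀ hD.ne', one_smul]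

theorem dexp_rad (h : Ctx f φ M) {y : EE} (hy : y ∈ Bl) (D : ℝ) (u : EE) :
    dexp M (y, D • u) u = (φ D (y, u)).2 := by
  have k0 : HasDerivAt (fun s : ℝ => s • u) ((1 : ℝ) • u) D := (hasDerivAt_id D).smul_const u
  have k0' := (hasF_exp h hy (D • u)).comp_hasDerivAt D k0
  have k1 : HasDerivAt (fun s : ℝ => (φ 1 (y, s • u)).1) (dexp M (y, D • u) ((1 : ℝ) • u)) D := k0'
  have k2 : HasDerivAt (fun s : ℝ => (φ s (y, u)).1) (φ D (y, u)).2 D :=
    (h.flow.deriv D (y, u) (mem_OO.2 hy)).fst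
  simp only [scale1 h hy, one_smul] at k1
  exact k1.unique k2

theorem dexp_tan (h : Ctx f φ M) {y : EE} (hy : y ∈ Bl) (D : ℝ) (u n : EE) :
    dexp M (y, D • u) (D • n) = (M D (y, u) (0, n)).1 := by
  have k1 : HasFDerivAt (fun b : EE => (φ 1 (y, D • b)).1)
      ((dexp M (y, D • u)).comp (D • ContinuousLinearMap.id ℝ EE)) u :=
    (hasF_exp h hy (D • u)).comp u ((hasFDerivAt_id u).const_smul D)
  simp only [scale1 h hy] at k1
  exact congrArg (fun A : EE →L[ℝ] EE => A n) (k1.unique (hasF_fib h hy D u))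

end LogM

open LogM

theorem log_rev {f : EE → ℝ} {φ : Flo} {M : DFlo} {V : EE → EE → EE} (h : Ctx f φ M)
    (hV : IsLog φ V) {y z : EE} (hy : y ∈ Bl) (hz : z ∈ Bl) :
    φ 1 (y, V y z) = (z, -V z y) ∧ dd f V y z = dd f V z y ∧
      Jac f φ M (y, V y z) = Jac f φ M (z, V z y) ∧
      JT f φ M V y z = JT f φ M V z y := by
  have h1 := hV.right y hy z hz
  have h2 := rev h (p := (y, V y z)) hy
  rw [h1] at h2
  have h3 := hV.left z hz (-(φ 1 (y, V y z)).2)
  rw [h2] at h3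
  have h4 : φ 1 (y, V y z) = (z, -V z y) := Prod.ext h1 (by rw [h3, neg_neg])
  have h5 : dd f V y z = dd f V z y := by
    unfold dd
    rw [← en_flow h.conf.smooth h.flow 1 (y, V y z), h4]
    simp [en]
  have h6 : Jac f φ M (y, V y z) = Jac f φ M (z, V z y) := by
    rw [Jac_rev h (p := (y, V y z)) hy, h4, neg_neg]
  refine ⟨h4, h5, h6, ?_⟩
  by_cases e : z = y
  · rw [e]
  · rw [JT_eq h hV hy hz e, JT_eq h hV hz hy (Ne.symm e), h5, h6]

theorem log_flow {f : EE → ℝ} {φ : Flo} {M : DFlo} {V : EE → EE → EE} (h : Ctx f φ M)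
    (hV : IsLog φ V) {p : EE × EE} (hp : p.1 ∈ Bl) (h1 : en f p = 1) (s t : ℝ) (hst : s < t) :
    V (φ s p).1 (φ t p).1 = (t - s) • (φ s p).2 ∧ dd f V (φ s p).1 (φ t p).1 = t - s ∧
      dir f V (φ s p).1 (φ t p).1 = (φ s p).2 := by
  have hq := mem h hp s
  have h2 := hV.left _ hq ((t - s) • (φ s p).2)
  rw [scale1 h hq, Prod.mk.eta, ← h.flow.add, sub_add_cancel] at h2
  have h3 : dd f V (φ s p).1 (φ t p).1 = t - s := by
    unfold dd
    rw [h2, Fib.en_smul, Prod.mk.eta, en_flow h.conf.smooth h.flow, h1, mul_one,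
      Real.sqrt_sq (sub_pos.2 hst).le]
  refine ⟨h2, h3, ?_⟩
  change (dd f V (φ s p).1 (φ t p).1)⁻¹ • V (φ s p).1 (φ t p).1 = _
  rw [h3, h2, smul_smul, inv_mul_cancel₀ (sub_pos.2 hst).ne', one_smul]

theorem Dd_dd {f : EE → ℝ} {φ : Flo} {M : DFlo} {V : EE → EE → EE} (h : Ctx f φ M)
    (hV : IsLog φ V) {y z : EE} (hy : y ∈ Bl) (hz : z ∈ Bl) :
    Real.exp (-3 * dd f V y z) * Dd y ≤ Dd z ∧
      dd f V y z ^ 2 / 2 - 3 * dd f V y z * (Dd y)⁻¹ ≤ (Dd z)⁻¹ := by
  have h1 := Dd_flow_ge h.conf h.flow (p := (y, V y z)) hy 0 1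
  have h2 := inv_Dd_exp h (p := (y, V y z)) hy 1
  rw [hV.right y hy z hz] at h1 h2
  rw [h.flow.zero] at h1
  unfold dd
  rw [Real.sq_sqrt (en_nonneg f (p := (y, V y z)) hy)]
  exact ⟨by simpa using h1, by simpa using h2⟩

theorem dir_deriv {f : EE → ℝ} {φ : Flo} {M : DFlo} {V : EE → EE → EE} (h : Ctx f φ M)
    (hV : IsLog φ V) {y : EE} (hy : y ∈ Bl) {c : ℝ → EE} {c' : EE} {θ : ℝ} (hc : c θ ∈ Bl)
    (hne : c θ ≠ y) (hd : HasDerivAt c c' θ) : ∃ (n : EE) (d : ℝ),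
      HasDerivAt (fun s => dir f V y (c s)) n θ ∧ HasDerivAt (fun s => dd f V y (c s)) d θ ∧
      gg f y n (dir f V y (c θ)) = 0 ∧
      d ^ 2 + nsq (YD f φ M (y, dir f V y (c θ)) (dd f V y (c θ)) *ᵥ
        fun j => gg f y n (frame (y, dir f V y (c θ)) j)) = gg f (c θ) c' c' := by
  obtain ⟨hpos, hu⟩ := en_nrm (f := f) (p := (y, V y (c θ))) hy (V_ne h hV hy hc hne)
  obtain ⟨a', ha, ha'⟩ := V_deriv h hV hy hc hd
  obtain ⟨n, d, h1, h2, h3, h4, h5⟩ := polar (gg f y) (gg_symm f y) ha hpos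
  refine ⟨n, d, h1, h2, h3, ?_⟩
  have hu' : en f (y, dir f V y (c θ)) = 1 := hu
  have h3' : gg f y n (dir f V y (c θ)) = 0 := h3
  have h4' : a' = d • dir f V y (c θ) + dd f V y (c θ) • n := h4
  have h5' : V y (c θ) = dd f V y (c θ) • dir f V y (c θ) := h5
  have hright := hV.right y hy _ hc
  rw [h5'] at ha' hright
  generalize dd f V y (c θ) = D at ha' hright h4' ⊢
  generalize dir f V y (c θ) = u at ha' hright h4' hu' h3' ⊢
  rw [h4', map_add, map_smul, dexp_rad h hy, dexp_tan h hy] at ha'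
  rw [scale1 h hy] at hright
  obtain ⟨m1, m2, -⟩ := M_dirichlet h (p := (y, u)) hy hu' n h3' D
  have m3 := en_flow h.conf.smooth h.flow D (y, u)
  rw [hu', en] at m3
  rw [← ha', ← hright, ← m2]
  simp only [map_add, map_smul, _root_.add_apply, _root_.smul_apply,
    smul_eq_mul, m1, m3, gg_symm f _ (φ D (y, u)).2 (M D (y, u) (0, n)).1]
  ring

theorem LogM.exp_image {f : EE → ℝ} {φ : Flo} {M : DFlo} {V : EE → EE → EE} (h : Ctx f φ M)
    (hV : IsLog φ V) {x : EE} (hx : x ∈ Bl) : (fun a : EE => (φ 1 (x, a)).1) '' univ = Bl := by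
  ext y
  constructor
  · rintro ⟨a, -, rfl⟩
    exact mem h (p := (x, a)) hx 1
  · exact fun hy => ⟨V x y, mem_univ _, hV.right x hx y hy⟩

theorem lintegral_exp {f : EE → ℝ} {φ : Flo} {M : DFlo} {V : EE → EE → EE} (h : Ctx f φ M)
    (hV : IsLog φ V) {x : EE} (hx : x ∈ Bl) (k : EE → ENNReal) :
    ∫⁻ y in Bl, k y * ENNReal.ofReal (mm f y) =
      ∫⁻ a, k (φ 1 (x, a)).1 * ENNReal.ofReal (Jac f φ M (x, a) * mm f x) := by
  rw [← exp_image h hV hx, lintegral_image_eq_lintegral_abs_det_fderiv_mul volume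
    MeasurableSet.univ (fun a _ => (hasF_exp h hx a).hasFDerivWithinAt)
    (Function.LeftInverse.injective (hV.left x hx)).injOn, Measure.restrict_univ]
  refine lintegral_congr fun a => ?_
  rw [mul_left_comm, ← ENNReal.ofReal_mul (abs_nonneg _)]
  congr 2
  unfold Jac
  have := (mm_pos f hx).ne'
  field_simp

theorem lintegral_pairs {f : EE → ℝ} {φ : Flo} {M : DFlo} {V : EE → EE → EE} (h : Ctx f φ M)
    (hV : IsLog φ V) {x : EE} (hx : x ∈ Bl) (k : EE × EE → ENNReal) (hk : Measurable k) :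
    ∫⁻ q : EE × EE, k ((φ 1 (x, q.1)).1, V (φ 1 (x, q.1)).1 (φ 1 (x, q.2)).1) =
      ∫⁻ p, k p * ENNReal.ofReal (Jac f φ M p / (mm f x ^ 2 * Jac f φ M (x, V x p.1) *
        Jac f φ M (x, V x (φ 1 p).1))) ∂(liou f OO) := by
  have _ := hk
  have : ((volume : Measure EE).prod (volume : Measure EE)).IsAddHaarMeasure :=
    Measure.prod.instIsAddHaarMeasure _ _
  set H : EE × EE → ENNReal := fun q => k (q.1, V q.1 q.2) *
    ENNReal.ofReal (1 / (|(dexp M (x, V x q.1)).det| * |(dexp M (x, V x q.2)).det|)) with hH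
  have i1 : (fun q : EE × EE => ((φ 1 (x, q.1)).1, (φ 1 (x, q.2)).1)) '' univ = Bl ×ˢ Bl := by
    ext q
    constructor
    · rintro ⟨a, -, rfl⟩
      exact ⟨mem h (p := (x, a.1)) hx 1, mem h (p := (x, a.2)) hx 1⟩
    · exact fun hq => ⟨(V x q.1, V x q.2), mem_univ _,
        Prod.ext (hV.right x hx _ hq.1) (hV.right x hx _ hq.2)⟩
  have i2 : (fun q : EE × EE => (q.1, (φ 1 q).1)) '' OO = Bl ×ˢ Bl := by
    ext q
    constructor
    · rintro ⟨a, ha, rfl⟩
      exact ⟨mem_OO.1 ha, mem h (mem_OO.1 ha) 1⟩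
    · exact fun hq => ⟨(q.1, V q.1 q.2), mem_OO.2 hq.1, Prod.ext rfl (hV.right _ hq.1 _ hq.2)⟩
  have j1 := lintegral_image_eq_lintegral_abs_det_fderiv_mul
    ((volume : Measure EE).prod (volume : Measure EE)) MeasurableSet.univ
    (f := fun q : EE × EE => ((φ 1 (x, q.1)).1, (φ 1 (x, q.2)).1))
    (fun q _ => (((hasF_exp h hx q.1).comp q hasFDerivAt_fst).prodMk
      ((hasF_exp h hx q.2).comp q hasFDerivAt_snd)).hasFDerivWithinAt)
    (fun a _ b _ e => Prod.ext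
      (Function.LeftInverse.injective (hV.left x hx) (Prod.ext_iff.1 e).1)
      (Function.LeftInverse.injective (hV.left x hx) (Prod.ext_iff.1 e).2)) H
  have j2 := lintegral_image_eq_lintegral_abs_det_fderiv_mul
    ((volume : Measure EE).prod (volume : Measure EE)) isOpen_OO.measurableSet
    (fun q hq => (hasF_P h (mem_OO.1 hq)).hasFDerivWithinAt)
    (fun a ha b hb e => by
      have e1 : a.1 = b.1 := (Prod.ext_iff.1 e).1
      have e2 : (φ 1 a).1 = (φ 1 b).1 := (Prod.ext_iff.1 e).2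
      have e3 := hV.left a.1 (mem_OO.1 ha) a.2
      have e4 := hV.left b.1 (mem_OO.1 hb) b.2
      rw [Prod.mk.eta] at e3 e4
      exact Prod.ext e1 (by rw [← e3, ← e4, e1, e2])) H
  rw [i1, Measure.restrict_univ] at j1
  rw [i2, j1] at j2
  unfold liou
  rw [lintegral_withDensity_eq_lintegral_mul_non_measurable₀ _
    (Fib.aemeas_rho h.conf isOpen_OO.measurableSet subset_rfl)
    (Eventually.of_forall fun _ => ENNReal.ofReal_lt_top)]
  refine Eq.trans (lintegral_congr fun q => ?_) (j2.trans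
    (setLIntegral_congr_fun isOpen_OO.measurableSet fun p hp => ?_))
  · have e := det_block (dexp M (x, q.1)) 0 (dexp M (x, q.2))
    rw [ContinuousLinearMap.zero_comp, add_zero] at e
    have a1 := abs_pos.2 (dexp_det_ne h (p := (x, q.1)) hx)
    have a2 := abs_pos.2 (dexp_det_ne h (p := (x, q.2)) hx)
    simp only [hH, hV.left x hx]
    rw [e, mul_left_comm, ← ENNReal.ofReal_mul (abs_nonneg _), abs_mul,
      mul_one_div_cancel (mul_pos a1 a2).ne', ENNReal.ofReal_one, mul_one]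
  · have hp1 := mem_OO.1 hp
    have hp2 := mem h hp1 1
    have e3 := hV.left p.1 hp1 p.2
    rw [Prod.mk.eta] at e3
    have a1 := (abs_pos.2 (dexp_det_ne h (p := (x, V x p.1)) hx)).ne'
    have a2 := (abs_pos.2 (dexp_det_ne h (p := (x, V x (φ 1 p).1)) hx)).ne'
    have b0 := (mm_pos f hx).ne'
    have b1 := (mm_pos f hp1).ne'
    have b2 := (mm_pos f hp2).ne'
    simp only [hH, e3, Pi.mul_apply, det_DP]
    rw [mul_left_comm, ← ENNReal.ofReal_mul (abs_nonneg _), mul_left_comm,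
      ← ENNReal.ofReal_mul (Fib.rho_pos f hp1).le]
    congr 2
    unfold Jac
    rw [rho_eq, hV.right x hx _ hp1, hV.right x hx _ hp2]
    field_simp

end Pool.Agent.MP_019006_gt

end

section

set_option autoImplicit false

open MeasureTheory Filter Topology Set Matrix

namespace Pool.Agent.MP_019006_gt

namespace Erg

open Fib

theorem cross_int {α : Type} [MeasurableSpace α] (ν : Measure α) [SFinite ν]
    {i : α → ENNReal} (hi : Measurable i) {E : α × α → ENNReal} (hE : Measurable E) :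
    ∫⁻ z : (α × α) × (α × α), E (z.1.1, z.2.2) * (i z.1.2 * i z.2.1) ∂(ν.prod ν).prod (ν.prod ν) =
      (∫⁻ q, E q ∂ν.prod ν) * ((∫⁻ a, i a ∂ν) * ∫⁻ a, i a ∂ν) := by
  have hg : Measurable fun a => ∫⁻ b, E (a, b) ∂ν := hE.lintegral_prod_right'
  rw [lintegral_prod _ (Measurable.aemeasurable (by fun_prop))]
  have h1 : ∀ u : α × α, ∫⁻ v : α × α, E (u.1, v.2) * (i u.2 * i v.1) ∂ν.prod ν =
      ((∫⁻ b, E (u.1, b) ∂ν) * i u.2) * ∫⁻ a, i a ∂ν := by
    intro u
    have := lintegral_prod_mul (μ := ν) (ν := ν) (f := i) (g := fun b => E (u.1, b) * i u.2)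
      hi.aemeasurable (Measurable.aemeasurable (by fun_prop))
    rw [lintegral_mul_const _ (by fun_prop)] at this
    rw [mul_comm, ← this]
    refine lintegral_congr fun v => by ring
  simp only [h1]
  rw [lintegral_mul_const _ (by fun_prop), lintegral_prod_mul (f := fun a => ∫⁻ b, E (a, b) ∂ν)
    hg.aemeasurable hi.aemeasurable, ← lintegral_prod _ hE.aemeasurable, mul_assoc]

theorem four_point {α : Type} [MeasurableSpace α] (ν : Measure α) [SFinite ν] {An : Set α}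
    (hAn : MeasurableSet An) {S₁ S₂ : Set (α × α)}
    {E E' : α × α → ENNReal} (hE : Measurable E) (hE' : Measurable E') (ε : ENNReal)
    (h : ∀ a b a' b', (a, b) ∈ S₁ → (a', b') ∈ S₂ → (a ∈ An ∧ b ∈ An ∧ a' ∈ An ∧ b' ∈ An) ∧
      1 ≤ E (a, b) + E (a, b') + E' (a, b') + E' (a', b') + ε) :
    ν.prod ν S₁ * ν.prod ν S₂ ≤ (2 * ∫⁻ q, E q ∂ν.prod ν + 2 * ∫⁻ q, E' q ∂ν.prod ν) *
      (ν An * ν An) + ε * ((ν An * ν An) * (ν An * ν An)) := by
  set i : α → ENNReal := An.indicator 1 with hi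
  have mi : Measurable i := measurable_one.indicator hAn
  have ii : ∫⁻ a, i a ∂ν = ν An := lintegral_indicator_one hAn
  have i2 : ∫⁻ q : α × α, i q.1 * i q.2 ∂ν.prod ν = ν An * ν An := by
    rw [lintegral_prod_mul mi.aemeasurable mi.aemeasurable, ii]
  have m2 : Measurable fun q : α × α => i q.1 * i q.2 := by fun_prop
  rw [← Measure.prod_prod]
  calc _ ≤ ∫⁻ z : (α × α) × (α × α), (E z.1 * (i z.2.1 * i z.2.2) +
        E (z.1.1, z.2.2) * (i z.1.2 * i z.2.1) + E' (z.1.1, z.2.2) * (i z.1.2 * i z.2.1) +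
        (i z.1.1 * i z.1.2) * E' z.2 + ε * ((i z.1.1 * i z.1.2) * (i z.2.1 * i z.2.2)))
        ∂(ν.prod ν).prod (ν.prod ν) := by
        refine meas_le_lintegral₀ (Measurable.aemeasurable (by fun_prop)) ?_
        rintro ⟨⟨a, b⟩, a', b'⟩ ⟨h1, h2⟩
        obtain ⟨⟨m1, m2, m3, m4⟩, h3⟩ := h a b a' b' h1 h2
        simpa [hi, m1, m2, m3, m4] using h3
    _ = _ := by
        rw [lintegral_add_right _ (by fun_prop), lintegral_add_right _ (by fun_prop),
          lintegral_add_right _ (by fun_prop), lintegral_add_right _ (by fun_prop),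
          cross_int ν mi hE, cross_int ν mi hE', lintegral_const_mul _ (by fun_prop),
          lintegral_prod_mul (f := E) (g := fun q : α × α => i q.1 * i q.2) hE.aemeasurable
            m2.aemeasurable,
          lintegral_prod_mul (f := fun q : α × α => i q.1 * i q.2) (g := E') m2.aemeasurable
            hE'.aemeasurable,
          lintegral_prod_mul (f := fun q : α × α => i q.1 * i q.2)
            (g := fun q : α × α => i q.1 * i q.2) m2.aemeasurable m2.aemeasurable, i2, ii]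
        ring

theorem meas_on {X Y : Type} [TopologicalSpace X] [MeasurableSpace X] [BorelSpace X]
    [TopologicalSpace Y] [MeasurableSpace Y] [BorelSpace Y] {O : Set X} (hO : IsOpen O)
    {g : X → Y} (hg : ContinuousOn g O) {S : Set Y} (hS : MeasurableSet S) :
    MeasurableSet (O ∩ g ⁻¹' S) := by
  rw [← Subtype.image_preimage_coe]
  exact hO.measurableSet.subtype_image (hg.restrict.measurable hS)

variable {f : EE → ℝ} {φ : Flo} {M : DFlo} {V : EE → EE → EE}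

theorem meas_thin (hf : Conf f) (a b : ℝ) : MeasurableSet (thin f a b) :=
  meas_on isOpen_OO (contOn_en hf) (measurableSet_Ioc (a := a ^ 2) (b := b ^ 2)) |>.congr (by
    ext p; simp [thin, mem_OO])

theorem norm_sq_le (hf : Conf f) {p : EE × EE} (hp : p.1 ∈ Bl) : ‖p.2‖ ^ 2 ≤ 2 * en f p := by
  have h1 := (g0_bounds hp p.2).1
  have h3 : -(1 / 100 : ℝ) ≤ f p.1 := (abs_le.1 (hf.fb _ hp)).1
  have h4 : 2 * f p.1 + 1 ≤ Real.exp (2 * f p.1) := Real.add_one_le_exp _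
  have h5 : en f p = Real.exp (2 * f p.1) * g0 p.1 p.2 p.2 := rfl
  have h6 : 0 ≤ g0 p.1 p.2 p.2 := (sq_nonneg _).trans h1
  nlinarith

theorem en_nonneg (hf : Conf f) {p : EE × EE} (hp : p.1 ∈ Bl) : 0 ≤ en f p := by
  nlinarith [norm_sq_le hf hp, sq_nonneg ‖p.2‖]

theorem liou_fin (hf : Conf f) {c : ℝ} (hc : 0 < c) :
    liou f OO ({p : EE × EE | c ≤ Dd p.1} ∩ en f ⁻¹' Iic 1) < ⊤ := by
  have hK : IsClosed {p : EE × EE | c ≤ Dd p.1} :=
    isClosed_le continuous_const (cont_Dd.comp continuous_fst)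
  have hsub : {p : EE × EE | c ≤ Dd p.1} ⊆ OO := fun p hp => mem_OO.2 (mem_Bl_of hc hp)
  have hcl : IsClosed ({p : EE × EE | c ≤ Dd p.1} ∩ en f ⁻¹' Iic 1) :=
    ((contOn_en hf).mono hsub).preimage_isClosed_of_isClosed hK isClosed_Iic
  have hC : IsCompact ({p : EE × EE | c ≤ Dd p.1} ∩ en f ⁻¹' Iic 1) := by
    refine IsCompact.of_isClosed_subset
      ((isCompact_closedBall (0 : EE) 1).prod (isCompact_closedBall (0 : EE) 2)) hcl ?_
    rintro p ⟨hp, h2⟩
    have hB := mem_Bl_of hc hp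
    refine ⟨mem_closedBall_zero_iff.2 (mem_Bl.1 hB).le, mem_closedBall_zero_iff.2 ?_⟩
    have := norm_sq_le hf hB
    have h3 : en f p ≤ 1 := h2
    nlinarith [norm_nonneg p.2]
  unfold liou
  rw [withDensity_apply _ hC.measurableSet, Measure.restrict_restrict hC.measurableSet,
    inter_eq_left.2 (inter_subset_left.trans hsub)]
  exact (((contOn_rho hf).mono (inter_subset_left.trans hsub)).integrableOn_compact
    hC).lintegral_lt_top

theorem ne_of_en {p : EE × EE} (h : 0 < en f p) : p.2 ≠ 0 := by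
  intro e
  simp [en, e] at h

theorem fl_mem (h : Ctx f φ M) (t : ℝ) {p : EE × EE} (hp : p.1 ∈ Bl) : (φ t p).1 ∈ Bl :=
  mem_OO.1 (h.flow.mem t p (mem_OO.2 hp))

theorem fst_nrm (h : Ctx f φ M) (t : ℝ) {p : EE × EE} (hp : p.1 ∈ Bl) (h0 : p.2 ≠ 0) :
    (φ t p).1 = (φ (Real.sqrt (en f p) * t) (nrm f p)).1 := by
  rw [← flow_nrm h.conf.smooth h.flow t hp h0]; rfl

theorem dir_eq (h : Ctx f φ M) (hV : IsLog φ V) {p : EE × EE} (hp : p.1 ∈ Bl) (h0 : p.2 ≠ 0)
    {σ : ℝ} (hσ : 0 < σ) : dd f V p.1 (φ σ p).1 = Real.sqrt (en f p) * σ ∧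
      dir f V p.1 (φ σ p).1 = (nrm f p).2 := by
  have h1 := en_nrm (f := f) hp h0
  have := log_flow h hV (p := nrm f p) hp h1.2 0 (Real.sqrt (en f p) * σ)
    (mul_pos (Real.sqrt_pos.2 h1.1) hσ)
  rw [h.flow.zero, ← fst_nrm h σ hp h0, sub_zero] at this
  exact this.2

theorem dd_self (h : Ctx f φ M) (hV : IsLog φ V) {y : EE} (hy : y ∈ Bl) : dd f V y y = 0 := by
  have h1 := flow_scale h.flow 0 1 (p := (y, 0)) hy
  simp only [smul_zero, zero_mul, h.flow.zero, zero_smul] at h1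
  have h2 := hV.left y hy 0
  rw [h1] at h2
  simp only at h2
  simp [dd, h2, en]

theorem exists_far (h : Ctx f φ M) (hV : IsLog φ V) {δ : ℝ} (hδ : 0 < δ) : ∃ R₁ : ℝ,
    ∀ z y, y ∈ Bl → δ ≤ Dd z → R₁ ≤ dd f V z y → ∀ m, δ ≤ Dd m → 1 ≤ dd f V y m := by
  refine ⟨6 / δ + 2 + 2 * (Real.exp 3 / δ), fun z y hy hz hR m hm => ?_⟩
  by_contra hn
  push Not at hn
  have hm' := mem_Bl_of hδ hm
  have h1 := (Dd_dd h hV hm' hy).1
  rw [← (log_rev h hV hy hm').2.1] at h1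
  have h2 := (Dd_dd h hV (mem_Bl_of hδ hz) hy).2
  have h3 : Real.exp (-3) * δ ≤ Dd y :=
    le_trans (mul_le_mul (Real.exp_le_exp.2 (by linarith)) hm hδ.le (Real.exp_pos _).le) h1
  have h4 : (Dd y)⁻¹ ≤ Real.exp 3 / δ := by
    have := inv_anti₀ (by positivity) h3
    rwa [mul_inv, Real.exp_neg, inv_inv, ← div_eq_mul_inv] at this
  have h5 : (Dd z)⁻¹ ≤ δ⁻¹ := inv_anti₀ hδ hz
  have h6 : 0 < Real.exp 3 / δ := by positivity
  have h7 : 0 < δ⁻¹ := by positivity
  rw [div_eq_mul_inv 6] at hR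
  set s := dd f V z y
  have h8 : 3 * s * (Dd z)⁻¹ ≤ 3 * s * δ⁻¹ := mul_le_mul_of_nonneg_left h5 (by linarith)
  nlinarith

/-- The reversed vector at the end point. -/
noncomputable def rev (φ : Flo) (p : EE × EE) : EE × EE := ((φ 1 p).1, (-1 : ℝ) • (φ 1 p).2)

theorem rev_flow (h : Ctx f φ M) {p : EE × EE} (hp : p.1 ∈ Bl) (τ : ℝ) :
    (φ τ (rev φ p)).1 = (φ (1 - τ) p).1 := by
  rw [rev, flow_scale h.flow (-1) τ (fl_mem h 1 hp), ← h.flow.add,
    show -1 * τ + 1 = 1 - τ by ring]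

theorem en_rev (h : Ctx f φ M) (p : EE × EE) : en f (rev φ p) = en f p := by
  rw [rev, en_smul, ← en_flow h.conf.smooth h.flow 1 p]; simp

theorem u_cmp (h : Ctx f φ M) (hV : IsLog φ V) {u : EE × EE → ℝ}
    (hu : ∀ c : ℝ, 0 < c → ∀ p : EE × EE, p.1 ∈ Bl → u (p.1, c • p.2) = u p) {ε κ δ C₁ R : ℝ}
    (hκ : ∀ y ∈ Bl, ∀ v v' : EE, en f (y, v) = 1 → en f (y, v') = 1 →
      gg f y (v - v') (v - v') ≤ κ → |u (y, v) - u (y, v')| ≤ ε)
    (hC : 0 ≤ C₁) (hR : C₁ * Real.exp (-R) ≤ κ) {y v v' : EE} (hy : y ∈ Bl)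
    (hfar : ∀ m, δ ≤ Dd m → 1 ≤ dd f V y m)
    (hlip : ∀ m m', δ ≤ Dd m → δ ≤ Dd m' →
      gg f y (dir f V y m - dir f V y m') (dir f V y m - dir f V y m') ≤
        C₁ * Real.exp (-dd f V y m))
    (hv : v ≠ 0) (hv' : v' ≠ 0) {σ : ℝ} (hσ : 0 ≤ σ) (h1 : δ ≤ Dd (φ (1 / 2) (y, v)).1)
    (h2 : δ ≤ Dd (φ σ (y, v')).1) (h3 : 2 * R ≤ Real.sqrt (en f (y, v))) {η : ℝ}
    (hη : η ^ 2 = 1) : |u (y, η • v) - u (y, η • v')| ≤ ε := by
  have hσ' : 0 < σ := lt_of_le_of_ne hσ (by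
    rintro rfl
    rw [h.flow.zero] at h2
    have := hfar y h2
    rw [dd_self h hV hy] at this
    linarith)
  have e1 := dir_eq h hV (p := (y, v)) hy hv (σ := 1 / 2) (by norm_num)
  have e2 := dir_eq h hV (p := (y, v')) hy hv' hσ'
  have h4 := hlip _ _ h1 h2
  simp only at e1 e2
  rw [e1.1, e1.2, e2.2] at h4
  have n1 := en_nrm (f := f) (p := (y, v)) hy hv
  have n2 := en_nrm (f := f) (p := (y, v')) hy hv'
  have e3 : ∀ w : EE, 0 < en f (y, w) → u (y, η • (nrm f (y, w)).2) = u (y, η • w) := fun w hw => by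
    have := hu (Real.sqrt (en f (y, w)))⁻¹ (inv_pos.2 (Real.sqrt_pos.2 hw)) (y, η • w) hy
    rw [← this, smul_comm]; rfl
  rw [← e3 v n1.1, ← e3 v' n2.1]
  refine hκ y hy _ _ ?_ ?_ ?_
  · rw [en_smul, hη, one_mul]; exact n1.2
  · rw [en_smul, hη, one_mul]; exact n2.2
  · rw [← smul_sub]
    have := en_smul f y ((nrm f (y, v)).2 - (nrm f (y, v')).2) η
    rw [hη, one_mul] at this
    refine le_trans (le_of_eq this) (h4.trans (le_trans ?_ hR))
    exact mul_le_mul_of_nonneg_left (Real.exp_le_exp.2 (by linarith)) hC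

theorem quart_le {a b : ℝ} (ha : 0 ≤ a) (hab : a ≤ b) : b ^ 4 - a ^ 4 ≤ 4 * (b - a) * b ^ 3 := by
  have h1 : b ^ 4 - a ^ 4 = (b - a) * (b ^ 3 + b ^ 2 * a + b * a ^ 2 + a ^ 3) := by ring
  have hb : 0 ≤ b := ha.trans hab
  have h2 : b ^ 2 * a ≤ b ^ 2 * b := by gcongr
  have h3 : b * a ^ 2 ≤ b * b ^ 2 := by gcongr
  have h4 : a ^ 3 ≤ b ^ 3 := by gcongr
  rw [h1]
  nlinarith [mul_le_mul_of_nonneg_left (show b ^ 3 + b ^ 2 * a + b * a ^ 2 + a ^ 3 ≤ 4 * b ^ 3 by
    linarith) (sub_nonneg.2 hab)]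

open Pointwise in
theorem annulus (hf : Conf f) {x : EE} (hx : x ∈ Bl) : ∃ k : ℝ, 0 ≤ k ∧ ∀ a b : ℝ, 0 < a → a ≤ b →
    ∃ An : Set EE, MeasurableSet An ∧ volume An ≤ ENNReal.ofReal (k * (b ^ 4 - a ^ 4)) ∧
      ∀ v, a < Real.sqrt (en f (x, v)) → Real.sqrt (en f (x, v)) ≤ b → v ∈ An := by
  let K : ℝ → Set EE := fun c => {v | en f (x, v) ≤ c ^ 2}
  have hc : Continuous fun v : EE => en f (x, v) := by
    simp only [en]; fun_prop
  have hK : ∀ c, MeasurableSet (K c) := fun c => (isClosed_le hc continuous_const).measurableSet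
  have hfin : volume (K 1) ≠ ⊤ := by
    refine ne_top_of_le_ne_top (measure_closedBall_lt_top (x := (0 : EE)) (r := 2)).ne
      (measure_mono fun v hv => mem_closedBall_zero_iff.2 ?_)
    have := norm_sq_le hf (p := (x, v)) hx
    have h3 : en f (x, v) ≤ 1 ^ 2 := hv
    nlinarith [norm_nonneg v]
  have hvol : ∀ c, 0 < c → volume (K c) = ENNReal.ofReal ((volume (K 1)).toReal * c ^ 4) := by
    intro c hc0
    have : K c = c • K 1 := by
      ext v
      rw [mem_smul_set_iff_inv_smul_mem₀ hc0.ne']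
      simp only [K, mem_setOf_eq, en_smul, inv_pow]
      rw [inv_mul_le_iff₀ (by positivity), one_pow, mul_one]
    rw [this, Measure.addHaar_smul, finrank_EE, abs_of_pos (by positivity), mul_comm,
      ENNReal.ofReal_mul ENNReal.toReal_nonneg, ENNReal.ofReal_toReal hfin]
  refine ⟨(volume (K 1)).toReal, ENNReal.toReal_nonneg, fun a b ha hab => ⟨K b \ K a,
    (hK b).diff (hK a), ?_, fun v h1 h2 => ⟨?_, fun h3 => ?_⟩⟩⟩
  · have hsub : K a ⊆ K b := fun v hv => le_trans (show en f (x, v) ≤ a ^ 2 from hv) (by gcongr)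
    rw [measure_diff hsub (hK a).nullMeasurableSet
      (by rw [hvol a ha]; exact ENNReal.ofReal_ne_top), hvol a ha, hvol b (ha.trans_le hab),
      ← ENNReal.ofReal_sub _ (by positivity), mul_sub]
  · exact (Real.sqrt_le_left (ha.le.trans hab)).1 h2
  · exact absurd ((Real.sqrt_le_left ha.le).2 h3) (not_le.2 h1)

end Erg

end Pool.Agent.MP_019006_gt

end

section

set_option autoImplicit false

open MeasureTheory Filter Topology Set Matrix

namespace Pool.Agent.MP_019006_gt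

namespace Visib

/-- The norm of a tangent vector. -/
noncomputable def nr (f : EE → ℝ) (x u : EE) : ℝ := Real.sqrt (gg f x u u)

theorem le_of_sq {a b : ℝ} (hb : 0 ≤ b) (h : a ^ 2 ≤ b ^ 2) : a ≤ b :=
  (abs_le_of_sq_le_sq' h hb).2

theorem gg_nonneg (f : EE → ℝ) {x : EE} (hx : x ∈ Bl) (u : EE) : 0 ≤ gg f x u u := by
  rw [gg_apply]
  exact mul_nonneg (Real.exp_pos _).le ((sq_nonneg _).trans (g0_bounds hx u).1)

theorem nr_nonneg (f : EE → ℝ) (x u : EE) : 0 ≤ nr f x u := Real.sqrt_nonneg _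

theorem nr_sq (f : EE → ℝ) {x : EE} (hx : x ∈ Bl) (u : EE) : nr f x u ^ 2 = gg f x u u :=
  Real.sq_sqrt (gg_nonneg f hx u)

theorem gg_le (f : EE → ℝ) {x : EE} (hx : x ∈ Bl) (u w : EE) :
    gg f x u w ≤ nr f x u * nr f x w := by
  refine le_of_sq (mul_nonneg (nr_nonneg _ _ _) (nr_nonneg _ _ _)) ?_
  rw [mul_pow, nr_sq f hx, nr_sq f hx, gg_apply, gg_apply, gg_apply]
  have h1 : g0 x u w ^ 2 ≤ g0 x u u * g0 x w w := by
    refine le_trans ?_ (norm_hh_sq_le hx u w)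
    rw [g0, ← sq_abs]
    exact pow_le_pow_left₀ (abs_nonneg _) (Complex.abs_re_le_norm _) 2
  have h2 := mul_le_mul_of_nonneg_left h1 (sq_nonneg (Real.exp (2 * f x)))
  linarith

theorem nr_add (f : EE → ℝ) {x : EE} (hx : x ∈ Bl) (u w : EE) :
    nr f x (u + w) ≤ nr f x u + nr f x w := by
  refine le_of_sq (add_nonneg (nr_nonneg _ _ _) (nr_nonneg _ _ _)) ?_
  rw [add_sq, nr_sq f hx, nr_sq f hx, nr_sq f hx]
  simp only [map_add, _root_.add_apply]
  have h1 := gg_le f hx u w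
  have h2 := gg_symm f x w u
  linarith

theorem nr_neg (f : EE → ℝ) (x u : EE) : nr f x (-u) = nr f x u := by simp [nr]

theorem nr_sub_comm (f : EE → ℝ) (x u w : EE) : nr f x (u - w) = nr f x (w - u) := by
  rw [← nr_neg, neg_sub]

theorem nr_tri (f : EE → ℝ) {x : EE} (hx : x ∈ Bl) (u v w : EE) :
    nr f x (u - w) ≤ nr f x (u - v) + nr f x (v - w) := by
  have := nr_add f hx (u - v) (v - w)
  rwa [sub_add_sub_cancel] at this

theorem le_of_deriv {F : ℝ → ℝ} {a b : ℝ} (hab : a ≤ b)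
    (hF : ∀ t ∈ Icc a b, ∃ d, HasDerivAt F d t ∧ 0 ≤ d) : F a ≤ F b := by
  refine monotoneOn_of_deriv_nonneg (convex_Icc a b) (fun t ht => ?_) (fun t ht => ?_)
    (fun t ht => ?_) (left_mem_Icc.2 hab) (right_mem_Icc.2 hab) hab
  · obtain ⟨d, hd, -⟩ := hF t ht
    exact hd.continuousAt.continuousWithinAt
  · obtain ⟨d, hd, -⟩ := hF t (interior_subset ht)
    exact hd.differentiableAt.differentiableWithinAt
  · obtain ⟨d, hd, h0⟩ := hF t (interior_subset ht)
    rwa [hd.deriv]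

/-- The mean value inequality for the norm at a fixed point. -/
theorem mvt (f : EE → ℝ) {x : EE} (hx : x ∈ Bl) {γ : ℝ → EE} {g : ℝ → ℝ} {a b : ℝ} (hab : a ≤ b)
    (h : ∀ t ∈ Icc a b, ∃ n d, HasDerivAt γ n t ∧ HasDerivAt g d t ∧ nr f x n ≤ d) :
    nr f x (γ b - γ a) ≤ g b - g a := by
  have h0 : g a ≤ g b := le_of_deriv hab fun t ht => by
    obtain ⟨n, d, -, h2, h3⟩ := h t ht
    exact ⟨d, h2, (nr_nonneg _ _ _).trans h3⟩
  set Δ := γ b - γ a with hΔ
  have h1 := le_of_deriv (F := fun t => nr f x Δ * g t - gg f x Δ (γ t)) hab fun t ht => by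
    obtain ⟨n, d, h1, h2, h3⟩ := h t ht
    refine ⟨_, (h2.const_mul _).sub ((gg f x Δ).hasFDerivAt.comp_hasDerivAt t h1), ?_⟩
    have := gg_le f hx Δ n
    have := mul_le_mul_of_nonneg_left h3 (nr_nonneg f x Δ)
    linarith
  have h2 : gg f x Δ (γ b) - gg f x Δ (γ a) = nr f x Δ ^ 2 := by
    rw [← map_sub, nr_sq f hx]
  rcases (nr_nonneg f x Δ).eq_or_lt with e | e
  · linarith
  · refine le_of_mul_le_mul_left ?_ e
    nlinarith

variable {f : EE → ℝ} {φ : Flo} {M : DFlo} {V : EE → EE → EE}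

theorem flow_zero (h : Ctx f φ M) {y : EE} (hy : y ∈ Bl) : (φ 1 (y, 0)).1 = y := by
  have := flow_scale h.flow 0 1 (p := (y, 0)) hy
  simp only [smul_zero, zero_mul, h.flow.zero] at this
  rw [this]

theorem flow_mem (h : Ctx f φ M) (t : ℝ) {p : EE × EE} (hp : p.1 ∈ Bl) : (φ t p).1 ∈ Bl :=
  mem_OO.1 (h.flow.mem t p (mem_OO.2 hp))

theorem flow_deriv (h : Ctx f φ M) (t : ℝ) {p : EE × EE} (hp : p.1 ∈ Bl) :
    HasDerivAt (fun s => (φ s p).1) (φ t p).2 t :=
  (ContinuousLinearMap.fst ℝ EE EE).hasFDerivAt.comp_hasDerivAt t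
    (h.flow.deriv t p (mem_OO.2 hp))

theorem dd_zero {y z : EE} (e : V y z = 0) : dd f V y z = 0 := by simp [dd, en, e]

/-- The basic estimate. -/
theorem basic : ∃ C : ℝ, 1 ≤ C ∧ ∀ {f : EE → ℝ} {φ : Flo} {M : DFlo} {V : EE → EE → EE},
    Ctx f φ M → IsLog φ V → ∀ {y : EE}, y ∈ Bl → ∀ {c : ℝ → EE} {c' : EE} {θ : ℝ}, c θ ∈ Bl →
    1 ≤ dd f V y (c θ) → HasDerivAt c c' θ → ∃ (n : EE) (d : ℝ),
      HasDerivAt (fun s => dir f V y (c s)) n θ ∧ HasDerivAt (fun s => dd f V y (c s)) d θ ∧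
      d ^ 2 ≤ gg f (c θ) c' c' ∧
      gg f y n n ≤ C * Real.exp (-dd f V y (c θ)) * gg f (c θ) c' c' := by
  obtain ⟨C, hC, hb⟩ := dir_basic
  refine ⟨C, hC, fun {f φ M V} h hV {y} hy {c c' θ} hc h1 hd => ?_⟩
  have hV0 : V y (c θ) ≠ 0 := fun e => by
    rw [dd_zero e] at h1
    linarith
  have hne : c θ ≠ y := fun e => hV0 (by
    have := hV.left y hy 0
    rw [flow_zero h hy] at this
    rwa [e])
  obtain ⟨n, d, a1, a2, a3, a4⟩ := dir_deriv h hV hy hc hne hd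
  have hen : en f (y, dir f V y (c θ)) = 1 := (en_nrm (f := f) (p := (y, V y (c θ))) hy hV0).2
  have b1 := (hb _ _ _ _ (dirSys h (p := (y, dir f V y (c θ))) hy hen)).2.2.1 _
    (fun j => gg f y n (frame (y, dir f V y (c θ)) j)) h1
  have b2 := (M_dirichlet h (p := (y, dir f V y (c θ))) hy hen n a3 0).2.2.2
  have b3 : ∀ u, 0 ≤ nsq u := fun u => by unfold nsq; positivity
  refine ⟨n, d, a1, a2, by linarith [b3 (YD f φ M (y, dir f V y (c θ)) (dd f V y (c θ)) *ᵥ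
    fun j => gg f y n (frame (y, dir f V y (c θ)) j))], ?_⟩
  simp only at b2
  rw [← b2] at b1
  rw [Real.exp_neg, mul_right_comm, ← div_eq_mul_inv, le_div_iff₀ (Real.exp_pos _), mul_comm]
  refine b1.trans (mul_le_mul_of_nonneg_left ?_ (by linarith))
  linarith [sq_nonneg d]

/-- Small visual angle of an outgoing ray. -/
theorem ray : ∃ K : ℝ, 0 < K ∧ ∀ {f : EE → ℝ} {φ : Flo} {M : DFlo} {V : EE → EE → EE},
    Ctx f φ M → IsLog φ V → ∀ {x : EE}, x ∈ Bl → ∀ {q : EE × EE}, q.1 ∈ Bl → en f q = 1 →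
    0 ≤ (al q.1 q.2).re → ∀ W : ℝ, 2 ≤ W → Real.exp (3 * W) ≤ (Dd q.1)⁻¹ * Dd x →
    ∀ b, 0 ≤ b → nr f x (dir f V x (φ b q).1 - dir f V x q.1) ≤ K * Real.exp (-W / 2) := by
  obtain ⟨C, hC, hb⟩ := basic
  have hs : 0 < Real.sqrt C := Real.sqrt_pos.2 (by linarith)
  refine ⟨6 * Real.sqrt C * Real.exp (1 / 2), by positivity,
    fun {f φ M V} h hV {x} hx {q} hq h1 h0 W hW hU b hb0 => ?_⟩
  obtain ⟨u', u'', hu⟩ := inv_Dd_convex h.conf h.flow hq
  have hx0 := Dd_pos hx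
  have grow : ∀ t, 0 ≤ t → (Dd q.1)⁻¹ * Real.exp t ≤ 4 * (Dd (φ t q).1)⁻¹ := fun t ht => by
    have a1 := le_of_deriv (F := fun s => ((Dd (φ s q).1)⁻¹ + u' s) * Real.exp (-s)) ht
      fun s _ => by
        refine ⟨_, ((hu s).1.add (hu s).2.1).mul (hasDerivAt_neg s).exp, ?_⟩
        have a := (hu s).2.2.2.2
        rw [h1, one_mul] at a
        have := mul_nonneg (sub_nonneg.2 a) (Real.exp_pos (-s)).le
        simp only [Pi.add_apply]
        linarith
    have a2 : 0 ≤ u' 0 := by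
      rw [(hu 0).2.2.1, h.flow.zero]
      have := (Dd_pos hq).le
      positivity
    have a3 : u' t ≤ 3 * (Dd (φ t q).1)⁻¹ := by
      have := (Dd_pos (flow_mem h t hq)).le
      refine le_of_sq (by positivity) ?_
      have a := (hu t).2.2.2.1
      rw [h1] at a
      linarith
    simp only [h.flow.zero, neg_zero, Real.exp_zero, mul_one] at a1
    rw [Real.exp_neg, ← div_eq_mul_inv, le_div_iff₀ (Real.exp_pos _)] at a1
    have := mul_nonneg a2 (Real.exp_pos t).le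
    linarith
  have far : ∀ t, 0 ≤ t → W - 1 + t / 3 ≤ dd f V x (φ t q).1 := fun t ht => by
    have a1 := (Dd_dd h hV hx (flow_mem h t hq)).1
    have a2 := Dd_pos (flow_mem h t hq)
    have a3 : Real.exp (3 * W) * Real.exp t ≤ 4 * (Dd (φ t q).1)⁻¹ * Dd x :=
      calc _ ≤ (Dd q.1)⁻¹ * Dd x * Real.exp t :=
            mul_le_mul_of_nonneg_right hU (Real.exp_pos _).le
        _ = (Dd q.1)⁻¹ * Real.exp t * Dd x := by ring
        _ ≤ _ := mul_le_mul_of_nonneg_right (grow t ht) hx0.le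
    have a4 : Real.exp (-3 * dd f V x (φ t q).1) * (4 * (Dd (φ t q).1)⁻¹ * Dd x) ≤ 4 := by
      have := mul_le_mul_of_nonneg_right a1 (inv_pos.2 a2).le
      rw [mul_inv_cancel₀ a2.ne'] at this
      linarith
    have a5 : (4 : ℝ) ≤ Real.exp 3 := by linarith [Real.add_one_le_exp 3]
    have a6 := (mul_le_mul_of_nonneg_left a3 (Real.exp_pos _).le).trans (a4.trans a5)
    rw [← Real.exp_add, ← Real.exp_add, Real.exp_le_exp] at a6
    linarith
  have key := mvt f hx (γ := fun s => dir f V x (φ s q).1)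
    (g := fun s => -6 * Real.sqrt C * Real.exp ((1 - W) / 2 - s / 6)) hb0 fun t ht => by
      obtain ⟨n, d, a1, -, -, a4⟩ := hb h hV hx (c := fun s => (φ s q).1) (flow_mem h t hq)
        (by linarith [far t ht.1, ht.1]) (flow_deriv h t hq)
      refine ⟨n, _, a1, (((hasDerivAt_id t).div_const 6).const_sub _).exp.const_mul _, ?_⟩
      have e : gg f (φ t q).1 (φ t q).2 (φ t q).2 = 1 := (en_flow h.conf.smooth h.flow t q).trans h1
      rw [e, mul_one] at a4
      refine le_of_sq ?_ ?_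
      · have := Real.exp_pos ((1 - W) / 2 - id t / 6)
        nlinarith [mul_pos hs this]
      · rw [nr_sq f hx]
        refine a4.trans ?_
        have e1 : Real.exp (-dd f V x (φ t q).1) ≤ Real.exp ((1 - W) / 2 - id t / 6) ^ 2 := by
          rw [← Real.exp_nat_mul, Real.exp_le_exp]
          have := far t ht.1
          simp only [id, Nat.cast_ofNat]
          linarith
        have e2 : Real.sqrt C ^ 2 = C := Real.sq_sqrt (by linarith)
        calc _ ≤ C * Real.exp ((1 - W) / 2 - id t / 6) ^ 2 :=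
              mul_le_mul_of_nonneg_left e1 (by linarith)
          _ = _ := by linear_combination (-Real.exp ((1 - W) / 2 - id t / 6) ^ 2) * e2
  simp only [h.flow.zero] at key
  refine key.trans ?_
  have e : Real.exp ((1 - W) / 2 - 0 / 6) = Real.exp (1 / 2) * Real.exp (-W / 2) := by
    rw [← Real.exp_add]; congr 1; ring
  rw [e]
  have := mul_pos hs (Real.exp_pos ((1 - W) / 2 - b / 6))
  linarith

theorem en_neg (p : EE × EE) : en f (p.1, (-1 : ℝ) • p.2) = en f p := by simp [en]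

/-- Small visual angle of a far away segment. -/
theorem seg : ∃ K : ℝ, 0 < K ∧ ∀ {f : EE → ℝ} {φ : Flo} {M : DFlo} {V : EE → EE → EE},
    Ctx f φ M → IsLog φ V → ∀ {x : EE}, x ∈ Bl → ∀ {q : EE × EE}, q.1 ∈ Bl → en f q = 1 →
    ∀ W : ℝ, 2 ≤ W → ∀ a b, a ≤ b →
    (∀ t ∈ Icc a b, Real.exp (3 * W) ≤ (Dd (φ t q).1)⁻¹ * Dd x) →
    nr f x (dir f V x (φ a q).1 - dir f V x (φ b q).1) ≤ K * Real.exp (-W / 2) := by
  obtain ⟨K, hK, hr⟩ := ray
  refine ⟨2 * K, by positivity, fun {f φ M V} h hV {x} hx {q} hq h1 W hW a b hab hU => ?_⟩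
  have k0 : 0 ≤ K * Real.exp (-W / 2) := by positivity
  have fw : ∀ t ∈ Icc a b, 0 ≤ (al (φ t q).1 (φ t q).2).re →
      nr f x (dir f V x (φ t q).1 - dir f V x (φ b q).1) ≤ K * Real.exp (-W / 2) := by
    intro t ht h0
    have := hr h hV hx (flow_mem h t hq) ((en_flow h.conf.smooth h.flow t q).trans h1) h0 W hW
      (hU t ht) (b - t) (sub_nonneg.2 ht.2)
    rwa [← h.flow.add, sub_add_cancel, nr_sub_comm] at this
  have bw : ∀ t ∈ Icc a b, (al (φ t q).1 (φ t q).2).re ≤ 0 →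
      nr f x (dir f V x (φ a q).1 - dir f V x (φ t q).1) ≤ K * Real.exp (-W / 2) := by
    intro t ht h0
    have := hr h hV hx (q := ((φ t q).1, (-1 : ℝ) • (φ t q).2)) (flow_mem h t hq)
      ((en_neg _).trans ((en_flow h.conf.smooth h.flow t q).trans h1))
      (by rw [rsmul_eq, al_smul]; simpa using h0) W hW (hU t ht) (t - a) (sub_nonneg.2 ht.1)
    rw [flow_scale h.flow _ _ (flow_mem h t hq), ← h.flow.add] at this
    rwa [show -1 * (t - a) + t = a by ring] at this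
  by_cases ha : 0 ≤ (al (φ a q).1 (φ a q).2).re
  · linarith [fw a (left_mem_Icc.2 hab) ha]
  by_cases hb : (al (φ b q).1 (φ b q).2).re ≤ 0
  · linarith [bw b (right_mem_Icc.2 hab) hb]
  obtain ⟨u', u'', hu⟩ := inv_Dd_convex h.conf h.flow hq
  have pos : ∀ t, 0 < (Dd (φ t q).1)⁻¹ := fun t => inv_pos.2 (Dd_pos (flow_mem h t hq))
  obtain ⟨t, ht, e⟩ : (0 : ℝ) ∈ u' '' Icc a b := by
    refine intermediate_value_Icc hab (fun t _ => (hu t).2.1.continuousAt.continuousWithinAt) ⟨?_, ?_⟩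
    · rw [(hu a).2.2.1]
      nlinarith [pos a]
    · rw [(hu b).2.2.1]
      nlinarith [pos b]
  rw [(hu t).2.2.1] at e
  have e' : (al (φ t q).1 (φ t q).2).re = 0 := by
    rcases mul_eq_zero.1 e with e | e
    · linarith
    · exact absurd e (pos t).ne'
  linarith [nr_tri f hx (dir f V x (φ a q).1) (dir f V x (φ t q).1) (dir f V x (φ b q).1),
    fw t ht e'.ge, bw t ht e'.le]

theorem mem_of_le {δ : ℝ} (hδ : 0 < δ) {m : EE} (h : δ ≤ Dd m) : m ∈ Bl := by
  rw [mem_Bl]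
  unfold Dd at h
  nlinarith [norm_nonneg m]

end Visib

open Visib

theorem dd_lip {f : EE → ℝ} {φ : Flo} {M : DFlo} {V : EE → EE → EE} (h : Ctx f φ M)
    (hV : IsLog φ V) (δ : ℝ) (hδ : 0 < δ) : ∃ C : ℝ, ∀ y ∈ Bl,
      (∀ m, δ ≤ Dd m → 1 ≤ dd f V y m) → ∀ m m', δ ≤ Dd m → δ ≤ Dd m' →
        |dd f V y m - dd f V y m'| ≤ C ∧
        gg f y (dir f V y m - dir f V y m') (dir f V y m - dir f V y m') ≤
          C * Real.exp (-dd f V y m) := by
  obtain ⟨C, hC, hb⟩ := basic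
  set L := 3 / δ with hL
  have L0 : 0 < L := by positivity
  refine ⟨L + C * Real.exp L * L ^ 2, fun y hy h1 m m' hm hm' => ?_⟩
  let c : ℝ → EE := fun θ => m + θ • (m' - m)
  have c0 : c 0 = m := by simp [c]
  have c1 : c 1 = m' := by simp [c]
  have dc : ∀ θ, HasDerivAt c (m' - m) θ := fun θ => by
    have := ((hasDerivAt_id θ).smul_const (m' - m)).const_add m
    rwa [one_smul] at this
  have cm : ∀ θ ∈ Icc (0 : ℝ) 1, δ ≤ Dd (c θ) := fun θ hθ => by
    have e : c θ = (1 - θ) • m + θ • m' := by simp only [c]; module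
    have a1 : ‖c θ‖ ≤ (1 - θ) * ‖m‖ + θ * ‖m'‖ := by
      rw [e]
      refine (norm_add_le _ _).trans ?_
      rw [norm_smul, norm_smul, Real.norm_of_nonneg hθ.1, Real.norm_of_nonneg (sub_nonneg.2 hθ.2)]
    have a2 := pow_le_pow_left₀ (norm_nonneg _) a1 2
    unfold Dd at hm hm' ⊢
    nlinarith [mul_nonneg hθ.1 (sub_nonneg.2 hθ.2), sq_nonneg (‖m‖ - ‖m'‖), hθ.1, hθ.2,
      mul_nonneg (mul_nonneg hθ.1 (sub_nonneg.2 hθ.2)) (sq_nonneg (‖m‖ - ‖m'‖))]
  have sp : ∀ θ ∈ Icc (0 : ℝ) 1, gg f (c θ) (m' - m) (m' - m) ≤ L ^ 2 := fun θ hθ => by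
    have hc := mem_of_le hδ (cm θ hθ)
    have a1 : ‖m' - m‖ ≤ 2 := by
      have := mem_Bl.1 (mem_of_le hδ hm)
      have := mem_Bl.1 (mem_of_le hδ hm')
      linarith [norm_sub_le m' m]
    have a2 : g0 (c θ) (m' - m) (m' - m) ≤ 2 ^ 2 / δ ^ 2 :=
      (g0_bounds hc _).2.2.trans (div_le_div₀ (by norm_num)
        (pow_le_pow_left₀ (norm_nonneg _) a1 2) (by positivity)
        (pow_le_pow_left₀ hδ.le (cm θ hθ) 2))
    have a3 : Real.exp (2 * f (c θ)) ≤ 2 := by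
      have := (abs_le.1 (h.conf.fb _ hc)).2
      have b := Real.add_one_le_exp (-(2 * f (c θ)))
      have b' : Real.exp (2 * f (c θ)) * Real.exp (-(2 * f (c θ))) = 1 := by
        rw [← Real.exp_add]; simp
      nlinarith [Real.exp_pos (2 * f (c θ))]
    rw [gg_apply, hL, div_pow]
    calc _ ≤ 2 * (2 ^ 2 / δ ^ 2) :=
          mul_le_mul a3 a2 ((sq_nonneg _).trans (g0_bounds hc _).1) (by norm_num)
      _ ≤ _ := by
          rw [← mul_div_assoc]
          exact div_le_div_of_nonneg_right (by norm_num) (by positivity)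
  have st := fun θ (hθ : θ ∈ Icc (0 : ℝ) 1) =>
    hb h hV hy (mem_of_le hδ (cm θ hθ)) (h1 _ (cm θ hθ)) (dc θ)
  have lip : ∀ θ ∈ Icc (0 : ℝ) 1, |dd f V y m - dd f V y (c θ)| ≤ L := fun θ hθ => by
    have a1 := le_of_deriv (F := fun s => L * s - dd f V y (c s)) hθ.1 fun s hs => by
      have hs' : s ∈ Icc (0 : ℝ) 1 := ⟨hs.1, hs.2.trans hθ.2⟩
      obtain ⟨n, d, -, b2, b3, -⟩ := st s hs'
      refine ⟨_, ((hasDerivAt_id s).const_mul L).sub b2, ?_⟩
      have := abs_le_of_sq_le_sq' (b3.trans (sp s hs')) L0.le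
      linarith [this.2]
    have a2 := le_of_deriv (F := fun s => L * s + dd f V y (c s)) hθ.1 fun s hs => by
      have hs' : s ∈ Icc (0 : ℝ) 1 := ⟨hs.1, hs.2.trans hθ.2⟩
      obtain ⟨n, d, -, b2, b3, -⟩ := st s hs'
      refine ⟨_, ((hasDerivAt_id s).const_mul L).add b2, ?_⟩
      have := abs_le_of_sq_le_sq' (b3.trans (sp s hs')) L0.le
      linarith [this.1]
    simp only [c0] at a1 a2
    have := mul_le_mul_of_nonneg_left hθ.2 L0.le
    rw [abs_le]
    constructor <;> linarith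
  have k0 : 0 ≤ C * Real.exp L * L ^ 2 := by have : 0 ≤ C := by linarith
                                             positivity
  refine ⟨by linarith [c1 ▸ lip 1 (right_mem_Icc.2 zero_le_one)], ?_⟩
  set B := C * Real.exp L * L ^ 2 * Real.exp (-dd f V y m) with hB
  have B0 : 0 ≤ B := mul_nonneg k0 (Real.exp_pos _).le
  have key := mvt f hy (γ := fun s => dir f V y (c s)) (g := fun s => Real.sqrt B * s) zero_le_one
    fun θ hθ => by
      obtain ⟨n, d, b1, -, -, b4⟩ := st θ hθ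
      refine ⟨n, _, b1, (hasDerivAt_id θ).const_mul _, ?_⟩
      rw [mul_one]
      refine Real.sqrt_le_sqrt (b4.trans ?_)
      have a1 : Real.exp (-dd f V y (c θ)) ≤ Real.exp L * Real.exp (-dd f V y m) := by
        rw [← Real.exp_add, Real.exp_le_exp]
        linarith [(abs_le.1 (lip θ hθ)).2]
      calc _ ≤ C * (Real.exp L * Real.exp (-dd f V y m)) * L ^ 2 :=
            mul_le_mul (mul_le_mul_of_nonneg_left a1 (by linarith)) (sp θ hθ)
              (gg_nonneg f (mem_of_le hδ (cm θ hθ)) _)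
              (mul_nonneg (by linarith) (by positivity))
        _ = B := by rw [hB]; ring
  simp only [c0, c1, mul_one, mul_zero, sub_zero] at key
  rw [← nr_sq f hy, nr_sub_comm]
  refine (pow_le_pow_left₀ (nr_nonneg _ _ _) key 2).trans ?_
  rw [Real.sq_sqrt B0, hB]
  exact mul_le_mul_of_nonneg_right (by linarith) (Real.exp_pos _).le

theorem visibility {f : EE → ℝ} {φ : Flo} {M : DFlo} {V : EE → EE → EE} (h : Ctx f φ M)
    (hV : IsLog φ V) {p₀ : EE × EE} (hp : p₀.1 ∈ Bl) (h1 : en f p₀ = 1) :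
    ∃ (δ T : ℝ) (N : Set (EE × EE)), 0 < δ ∧ IsOpen N ∧ p₀ ∈ N ∧ (∀ p ∈ N, δ ≤ Dd p.1) ∧
      ∀ p ∈ N, ∀ p' ∈ N, en f p = 1 → en f p' = 1 → ∀ s t : ℝ, T ≤ s → T ≤ t →
        ∃ σ ∈ Icc (0 : ℝ) 1,
          δ ≤ Dd (φ σ ((φ (-s) p).1, V (φ (-s) p).1 (φ t p').1)).1 := by
  obtain ⟨K, hK, hs⟩ := seg
  set W := 2 + 8 * K with hW
  have W2 : 2 ≤ W := by linarith
  have hKW : K * Real.exp (-W / 2) ≤ 1 / 4 := by
    have a := Real.add_one_le_exp (W / 2)
    rw [neg_div, Real.exp_neg, ← div_eq_mul_inv, div_le_iff₀ (Real.exp_pos _)]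
    linarith
  have d0 := Dd_pos hp
  set u₀ := 2 / Dd p₀.1 with hu₀
  have u0 : 0 < u₀ := by positivity
  set U := Real.exp (3 * W) * u₀ with hU
  have e1 : 1 ≤ Real.exp (3 * W) := Real.one_le_exp (by linarith)
  have uU : u₀ ≤ U := le_mul_of_one_le_left u0.le e1
  have U0 : 0 < U := u0.trans_le uU
  set T := 6 * u₀ + 2 * U + 2 with hT
  have T0 : 0 < T := by positivity
  have cφ : ContinuousAt (φ T) p₀ := (h.flow.fderiv T p₀ (mem_OO.2 hp)).continuousAt
  have lf := log_flow h hV hp h1 0 T T0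
  rw [h.flow.zero] at lf
  have cV : ContinuousAt (fun q : (EE × EE) × (EE × EE) => V q.1.1 (φ T q.2).1) (p₀, p₀) :=
    ContinuousAt.comp (g := fun q : EE × EE => V q.1 q.2)
      (f := fun q : (EE × EE) × (EE × EE) => (q.1.1, (φ T q.2).1))
      (hV.cont.continuousAt ((isOpen_Bl.prod isOpen_Bl).mem_nhds ⟨hp, flow_mem h T hp⟩))
      (continuousAt_fst.fst.prodMk (ContinuousAt.comp (g := φ T) cφ continuousAt_snd).fst)
  have cg : ContinuousAt (fun q : (EE × EE) × (EE × EE) => gg f q.1.1) (p₀, p₀) :=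
    ContinuousAt.comp (g := gg f)
      ((contDiffOn_gg h.conf.smooth 0).continuousOn.continuousAt (isOpen_Bl.mem_nhds hp))
      continuousAt_fst.fst
  have cd : ContinuousAt (fun q : (EE × EE) × (EE × EE) => dir f V q.1.1 (φ T q.2).1 - q.1.2)
      (p₀, p₀) := by
    refine ContinuousAt.sub (ContinuousAt.smul (ContinuousAt.inv₀
      ((cg.clm_apply cV).clm_apply cV).sqrt ?_) cV) continuousAt_fst.snd
    have : dd f V p₀.1 (φ T p₀).1 ≠ 0 := by rw [lf.2.1]; linarith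
    exact this
  have cG := ((cg.clm_apply cd).clm_apply cd).sqrt
  have ev := cG.eventually_lt (continuousAt_const (y := (1 / 4 : ℝ))) (by simp [lf.2.2])
  rw [nhds_prod_eq] at ev
  obtain ⟨N1, hN1, hN⟩ := mem_prod_self_iff.1 ev
  have cD : Continuous fun p : EE × EE => Dd p.1 := by unfold Dd; fun_prop
  have low : ∀ p : EE × EE, Dd p₀.1 / 2 < Dd p.1 → p.1 ∈ Bl ∧ (Dd p.1)⁻¹ ≤ u₀ := fun p hp' =>
    ⟨mem_of_le (half_pos d0) hp'.le, by
      rw [hu₀, ← inv_div]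
      exact inv_anti₀ (half_pos d0) hp'.le⟩
  refine ⟨U⁻¹, T, interior N1 ∩ {p | Dd p₀.1 / 2 < Dd p.1}, inv_pos.2 U0,
    isOpen_interior.inter (isOpen_lt continuous_const cD),
    ⟨mem_interior_iff_mem_nhds.2 hN1, half_lt_self d0⟩, fun p hp' => ?_,
    fun p hp1 p' hp2 a1 a2 s t hTs hTt => ?_⟩
  · obtain ⟨b1, b2⟩ := low p hp'.2
    exact inv_le_of_inv_le₀ (Dd_pos b1) (b2.trans uU)
  obtain ⟨b1, b2⟩ := low p hp1.2
  obtain ⟨b3, b4⟩ := low p' hp2.2
  have x0 := Dd_pos b1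
  have big : ∀ v : ℝ, U ≤ v → Real.exp (3 * W) ≤ v * Dd p.1 := fun v hv => by
    have c1 : 1 ≤ u₀ * Dd p.1 := by
      have := mul_le_mul_of_nonneg_right b2 x0.le
      rwa [inv_mul_cancel₀ x0.ne'] at this
    calc _ ≤ Real.exp (3 * W) * (u₀ * Dd p.1) := le_mul_of_one_le_right (Real.exp_pos _).le c1
      _ = U * Dd p.1 := by rw [hU]; ring
      _ ≤ _ := mul_le_mul_of_nonneg_right hv x0.le
  by_contra hcon
  push Not at hcon
  have hy := flow_mem h (-s) b1
  have hz := flow_mem h t b3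
  set y := (φ (-s) p).1 with hy'
  set z := (φ t p').1 with hz'
  have i1 : dir f V p.1 y = -p.2 := by
    have := (log_flow h hV (p := (p.1, (-1 : ℝ) • p.2)) b1 ((en_neg p).trans a1) 0 s
      (T0.trans_le hTs)).2.2
    rw [h.flow.zero, flow_scale h.flow _ _ b1] at this
    simpa using this
  have i2 : nr f p.1 (dir f V p.1 y - dir f V p.1 z) ≤ 1 / 4 := by
    have r := hV.right y hy z hz
    by_cases e : V y z = 0
    · rw [e, flow_zero h hy] at r
      simp [r, nr]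
    · obtain ⟨c1, c2⟩ := en_nrm (f := f) (p := (y, V y z)) hy e
      have l0 := Real.sqrt_pos.2 c1
      set l := Real.sqrt (en f (y, V y z)) with hl
      have c3 : ∀ σ, (φ (l * σ) (nrm f (y, V y z))).1 = (φ σ (y, V y z)).1 := fun σ => by
        rw [← flow_nrm h.conf.smooth h.flow σ (p := (y, V y z)) hy e]
        rfl
      have := hs h hV b1 (q := nrm f (y, V y z)) hy c2 W W2 0 l l0.le fun τ hτ => by
        refine big _ ?_
        rw [← mul_div_cancel₀ τ l0.ne', c3]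
        have c4 := hcon (τ / l) ⟨div_nonneg hτ.1 l0.le, (div_le_one l0).2 hτ.2⟩
        exact le_inv_of_le_inv₀ (Dd_pos (flow_mem h _ hy)) c4.le
      have c5 := c3 1
      rw [mul_one, r] at c5
      rw [c5, h.flow.zero] at this
      exact this.trans hKW
  have i3 : nr f p.1 (dir f V p.1 (φ T p').1 - dir f V p.1 z) ≤ 1 / 4 := by
    refine (hs h hV b1 b3 a2 W W2 T t hTt fun τ hτ => big _ ?_).trans hKW
    refine le_trans ?_ (inv_Dd_exp h b3 τ)
    have τ0 : 0 < τ := T0.trans_le hτ.1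
    rw [a2, Real.sqrt_one, abs_of_pos τ0]
    have c1 := mul_le_mul_of_nonneg_left b4 τ0.le
    have c2 := mul_le_mul_of_nonneg_left hτ.1 τ0.le
    have c3 : 1 ≤ τ := by linarith [hτ.1]
    nlinarith [mul_le_mul_of_nonneg_right c3 U0.le]
  have i4 : nr f p.1 (dir f V p.1 (φ T p').1 - p.2) < 1 / 4 :=
    hN (a := (p, p')) ⟨interior_subset hp1.1, interior_subset hp2.1⟩
  have i5 : nr f p.1 (-p.2 - p.2) ^ 2 = 4 := by
    rw [nr_sq f b1]
    simp only [map_sub, map_neg, _root_.sub_apply, _root_.neg_apply]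
    unfold en at a1
    linarith
  have i6 := nr_tri f b1 (-p.2) (dir f V p.1 z) p.2
  have i7 := nr_tri f b1 (dir f V p.1 z) (dir f V p.1 (φ T p').1) p.2
  rw [nr_sub_comm] at i3
  rw [i1] at i2
  nlinarith [nr_nonneg f p.1 (-p.2 - p.2)]

end Pool.Agent.MP_019006_gt

end
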