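import Pool.Agent.Mg.F019006.G637484
import Pool.Agent.Mg.F019006.G5031fe
import Pool.Agent.Mg.F019006.G7a948e
import Pool.Agent.Mg.F019006.G60de2a
import Pool.Agent.Mg.F019006.Ga63dad

section

set_option autoImplicit false

open MeasureTheory Filter Topology Set Matrix

namespace Pool.Agent.MP_019006_gt

namespace Dstr

theorem c1_fderiv {X E F : Type} [NormedAddCommGroup X] [NormedSpace ℝ X] [NormedAddCommGroup E]
    [NormedSpace ℝ E] [NormedAddCommGroup F] [NormedSpace ℝ F] {g : E → F} {s : Set E}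
    (hs : IsOpen s) (hg : ContDiffOn ℝ (2 : ℕ) g s) {a b : X → E} {t : Set X}
    (ha : ContDiffOn ℝ 1 a t) (hb : ContDiffOn ℝ 1 b t) (hm : MapsTo a t s) :
    ContDiffOn ℝ 1 (fun p => fderiv ℝ g (a p) (b p)) t :=
  ((hg.fderiv_of_isOpen (m := 1) hs (by norm_num)).comp ha hm).clm_apply hb

theorem c1_Kmat {f : EE → ℝ} (hf : ∀ n : ℕ, ContDiffOn ℝ n f Bl) (i j : Fin 3) :
    ContDiffOn ℝ 1 (fun p => Kmat f p i j) OO := by
  have hm : MapsTo (Prod.fst : EE × EE → EE) OO Bl := fun p hp => mem_OO.mp hp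
  have cg : ContDiffOn ℝ 1 (fun p : EE × EE => gg f p.1) OO :=
    (contDiffOn_gg hf 1).comp contDiffOn_fst hm
  have cG : ContDiffOn ℝ 1 (fun p : EE × EE => GamL f p.1) OO :=
    (contDiffOn_GamL hf 1).comp contDiffOn_fst hm
  have cF : ∀ k, ContDiffOn ℝ 1 (fun p : EE × EE => frame p k) OO := fun k =>
    contDiffOn_frame k 1
  have c2 : ContDiffOn ℝ 1 (fun p : EE × EE => p.2) OO := contDiffOn_snd
  have a1 := ((c1_fderiv isOpen_Bl (contDiffOn_GamL hf 2) contDiffOn_fst (cF j) hm).clm_apply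
    c2).clm_apply c2
  have a2 := ((c1_fderiv isOpen_Bl (contDiffOn_GamL hf 2) contDiffOn_fst c2 hm).clm_apply
    (cF j)).clm_apply c2
  have a3 := (cG.clm_apply (cF j)).clm_apply ((cG.clm_apply c2).clm_apply c2)
  have a4 := (cG.clm_apply c2).clm_apply ((cG.clm_apply (cF j)).clm_apply c2)
  have a5 := ((cg.clm_apply (((a1.sub a2).add a3).sub a4)).clm_apply (cF i)).neg
  refine a5.congr fun p hp => ?_
  show -gg f p.1 (curv (Gam f) p.1 (frame p j) p.2 p.2) (frame p i) = _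
  rw [Curv.curv_eq hf (mem_OO.mp hp)]

theorem c1_Omat {f : EE → ℝ} (hf : ∀ n : ℕ, ContDiffOn ℝ n f Bl) (i j : Fin 3) :
    ContDiffOn ℝ 1 (fun p => Omat f p i j) OO := by
  have hm : MapsTo (Prod.fst : EE × EE → EE) OO Bl := fun p hp => mem_OO.mp hp
  have cg : ContDiffOn ℝ 1 (fun p : EE × EE => gg f p.1) OO :=
    (contDiffOn_gg hf 1).comp contDiffOn_fst hm
  have cG : ContDiffOn ℝ 1 (fun p : EE × EE => GamL f p.1) OO :=
    (contDiffOn_GamL hf 1).comp contDiffOn_fst hm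
  have cF : ∀ k, ContDiffOn ℝ 1 (fun p : EE × EE => frame p k) OO := fun k =>
    contDiffOn_frame k 1
  have cD : ContDiffOn ℝ 1 (fun p : EE × EE => fderiv ℝ (fun q => frame q j) p) OO :=
    (contDiffOn_frame j 2).fderiv_of_isOpen (m := 1) isOpen_OO (by norm_num)
  have cX : ContDiffOn ℝ 1 (XX f) OO := contDiffOn_XX hf 1
  have c2 : ContDiffOn ℝ 1 (fun p : EE × EE => p.2) OO := contDiffOn_snd
  exact (cg.clm_apply ((cD.clm_apply cX).add ((cG.clm_apply c2).clm_apply (cF j)))).clm_apply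
    (cF i)

theorem c1_rot {A : C3} (hA : IsU21 A) {f : EE → ℝ} (hf : ∀ n : ℕ, ContDiffOn ℝ n f Bl)
    (i j : Fin 3) : ContDiffOn ℝ 1 (fun p => Inv.rot A f p i j) OO := by
  have cT : ContDiffOn ℝ 1 (mobT A) OO := contDiffOn_mobT hA 1
  have hm : MapsTo (mobT A) OO OO := fun p hp => mem_OO.2 (Inv.mobT_mem hA (mem_OO.1 hp))
  have cg : ContDiffOn ℝ 1 (fun p : EE × EE => gg f (mobT A p).1) OO :=
    (contDiffOn_gg hf 1).comp cT.fst fun p hp => mem_OO.1 (hm hp)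
  have cF : ContDiffOn ℝ 1 (fun p : EE × EE => frame (mobT A p) j) OO :=
    (contDiffOn_frame j 1).comp cT hm
  have cE : ContDiffOn ℝ 1 (fun p : EE × EE => (mobT A (p.1, frame p i)).2) OO :=
    (cT.comp (contDiffOn_fst.prodMk (contDiffOn_frame i 1)) fun p hp =>
      mem_OO.2 (mem_OO.1 hp :)).snd
  refine ((cg.clm_apply cF).clm_apply cE).congr fun p hp => ?_
  have hp' : p.1 ∈ Bl := mem_OO.1 hp
  have e1 : (mobT A p).1 = mob A p.1 := by rw [Inv.mobT_of_mem A hp']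
  have e2 : (mobT A (p.1, frame p i)).2 = dmob A p.1 (frame p i) := by
    rw [Inv.mobT_of_mem A (p := (p.1, frame p i)) hp']
  rw [e1, e2]
  rfl

theorem YH_mobT {A : C3} (hA : IsU21 A) {f : EE → ℝ} {φ : Flo} {M : DFlo} (h : Ctx f φ M)
    (hfA : ∀ x ∈ Bl, f (mob A x) = f x) {p : EE × EE} (hp : p.1 ∈ Bl) (h1 : en f p = 1) (t : ℝ) :
    YD f φ M (mobT A p) t = (Inv.rot A f (φ t p))ᵀ * YD f φ M p t * Inv.rot A f p ∧
    HD f φ M (mobT A p) t = (Inv.rot A f (φ t p))ᵀ * HD f φ M p t * Inv.rot A f p := by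
  have hf := h.conf.smooth
  have hφ := h.flow
  have hq : (φ t p).1 ∈ Bl := mem_OO.1 (hφ.mem t p (mem_OO.2 hp))
  have hq1 : en f (φ t p) = 1 := by rw [en_flow hf hφ, h1]
  have e1 : (mobT A (φ t p)).1 = mob A (φ t p).1 := by rw [Inv.mobT_of_mem A hq]
  have e0 : ∀ j, ((0 : EE), frame (mobT A p) j) = fderiv ℝ (mobT A) p
      (Inv.rot A f p 0 j • ((0 : EE), frame p 0) + Inv.rot A f p 1 j • ((0 : EE), frame p 1) +
        Inv.rot A f p 2 j • ((0 : EE), frame p 2)) := fun j => by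
    rw [fderiv_mobT hA hp, Inv.frame_mobT hA hfA hp h1 j]
    have z : dmob A p.1 0 = 0 := (Mob.dC A p.1).map_zero
    simp [z]
  constructor
  · ext i j
    simp only [Matrix.mul_apply, Matrix.transpose_apply, Fin.sum_univ_three, YD]
    rw [e0, Inv.M_mobT hA hf hfA hφ hp, flow_mobT hA hf hfA hφ, (conn_mobT hA hf hfA hq _).1,
      Inv.frame_mobT hA hfA hq hq1 i, e1, Inv.gg_mob hA hfA hq]
    simp only [map_add, map_smul, Prod.fst_add, Prod.smul_fst, _root_.add_apply,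
      _root_.smul_apply, smul_eq_mul]
    ring
  · ext i j
    simp only [Matrix.mul_apply, Matrix.transpose_apply, Fin.sum_univ_three, HD]
    rw [e0, Inv.M_mobT hA hf hfA hφ hp, flow_mobT hA hf hfA hφ, (conn_mobT hA hf hfA hq _).2,
      Inv.frame_mobT hA hfA hq hq1 i, e1, Inv.gg_mob hA hfA hq]
    simp only [map_add, map_smul, Prod.fst_add, Prod.smul_fst, Prod.snd_add, Prod.smul_snd,
      Gam_add_right, Gam_smul_right, _root_.add_apply,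
      _root_.smul_apply, smul_eq_mul]
    ring

/-- The Riccati matrix. -/
noncomputable def UD (f : EE → ℝ) (φ : Flo) (M : DFlo) (p : EE × EE) (t : ℝ) : M3 :=
  HD f φ M p t * (YD f φ M p t)⁻¹

/-- The logarithm of the area element. -/
noncomputable def LD (f : EE → ℝ) (φ : Flo) (M : DFlo) (p : EE × EE) (t : ℝ) : ℝ :=
  Real.log (YD f φ M p t).det

theorem UL_mobT {A : C3} (hA : IsU21 A) {f : EE → ℝ} {φ : Flo} {M : DFlo} (h : Ctx f φ M)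
    (hfA : ∀ x ∈ Bl, f (mob A x) = f x) {p : EE × EE} (hp : p.1 ∈ Bl) (h1 : en f p = 1) (t : ℝ) :
    (Inv.rot A f (φ t p))ᵀ * Inv.rot A f (φ t p) = 1 ∧
    UD f φ M (mobT A p) t = (Inv.rot A f (φ t p))ᵀ * UD f φ M p t * Inv.rot A f (φ t p) ∧
    LD f φ M (mobT A p) t = LD f φ M p t := by
  have hq : (φ t p).1 ∈ Bl := mem_OO.1 (h.flow.mem t p (mem_OO.2 hp))
  have hq1 : en f (φ t p) = 1 := by rw [en_flow h.conf.smooth h.flow, h1]
  have r1 := Inv.rot_orth hA hfA hq hq1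
  have r2 := Inv.rot_orth hA hfA hp h1
  obtain ⟨e1, e2⟩ := YH_mobT hA h hfA hp h1 t
  unfold UD LD
  rw [e1, e2]
  exact ⟨r1, ric_rot r1 r2 _ _, log_det_rot r1 r2 _⟩

theorem step {f : EE → ℝ} {φ : Flo} {M : DFlo} (h : Ctx f φ M)
    {Λ : ℝ} {G : Type} [Group G] {ρ : G →* C3} (hρ : IsLattice Λ G ρ)
    (hf : ∀ a, ∀ x ∈ Bl, f (mob (ρ a) x) = f x) {δ : ℝ} (hδ : 0 < δ) (σ₀ : ℝ) :
    ∃ C : ℝ, 0 ≤ C ∧ ∀ (p q : EE × EE) (a b : G) (s σ : ℝ), p.1 ∈ Bl → en f p = 1 → q.1 ∈ Bl →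
      en f q = 1 → 1 ≤ s → 0 ≤ σ → σ ≤ σ₀ → (∀ t ∈ Icc s (s + 1), Near f σ (φ t p) (φ t q)) →
      δ ≤ Dd (mob (ρ a) (φ s p).1) → δ ≤ Dd (mob (ρ b) (φ (s + 1) p).1) →
      fro (UD f φ M (mobT (ρ b) p) (s + 1) - UD f φ M (mobT (ρ b) q) (s + 1)) ≤
        1 / 2 * fro (UD f φ M (mobT (ρ a) p) s - UD f φ M (mobT (ρ a) q) s) + C * σ ∧
      |LD f φ M p (s + 1) - LD f φ M p s - (LD f φ M q (s + 1) - LD f φ M q s)| ≤
        C * (fro (UD f φ M (mobT (ρ a) p) s - UD f φ M (mobT (ρ a) q) s) + σ) := by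
  have hs := h.conf.smooth
  have hU : ∀ a, IsU21 (ρ a) := hρ.unit
  have hδ' : 0 < Real.exp (-3) * δ := by positivity
  have hδδ : Real.exp (-3) * δ ≤ δ :=
    mul_le_of_le_one_left hδ.le (Real.exp_le_one_iff.2 (by norm_num))
  obtain ⟨Cb, hCb1, hCb⟩ := dir_basic
  obtain ⟨Cc, hCc0, hCc⟩ := dir_compare
  obtain ⟨CK, hCK0, hCK⟩ := near_lip_fin h.conf hδ' σ₀ (S := univ) finite_univ
    (Φ := fun (i : Fin 3 × Fin 3) p => Kmat f p i.1 i.2) fun i => c1_Kmat hs i.1 i.2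
  obtain ⟨CO, hCO0, hCO⟩ := near_lip_fin h.conf hδ' σ₀ (S := univ) finite_univ
    (Φ := fun (i : Fin 3 × Fin 3) p => Omat f p i.1 i.2) fun i => c1_Omat hs i.1 i.2
  obtain ⟨CR, hCR0, hCR⟩ := near_lip_fin h.conf hδ' σ₀
    ((lattice_fin hρ _ hδ').prod (finite_univ (α := Fin 3 × Fin 3)))
    (Φ := fun i p => Inv.rot (ρ i.1) f p i.2.1 i.2.2) fun i => c1_rot (hU i.1) hs i.2.1 i.2.2
  refine ⟨Cc + Cc * (CK + CO) + 6 * Cb * CR, by positivity, ?_⟩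
  intro p q a b s σ hp hp1 hq hq1 h1s hσ0 hσ hN ha hb
  have hp' := Inv.mobT_mem (hU a) hp
  have hq' := Inv.mobT_mem (hU a) hq
  have hp1' : en f (mobT (ρ a) p) = 1 := by rw [en_mobT (hU a) (hf a), hp1]
  have hq1' : en f (mobT (ρ a) q) = 1 := by rw [en_mobT (hU a) (hf a), hq1]
  have hB : ∀ t, (φ t p).1 ∈ Bl := fun t => mem_OO.1 (h.flow.mem t p (mem_OO.2 hp))
  have hN' : ∀ t ∈ Icc s (s + 1), Near f σ (φ t (mobT (ρ a) p)) (φ t (mobT (ρ a) q)) :=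
    fun t ht => by
      rw [flow_mobT (hU a) hs (hf a) h.flow, flow_mobT (hU a) hs (hf a) h.flow]
      exact (hN t ht).mobT (hU a) hs (hf a)
  have e1 : ∀ c t, (φ t (mobT (ρ c) p)).1 = mob (ρ c) (φ t p).1 := fun c t => by
    rw [flow_mobT (hU c) hs (hf c) h.flow, Inv.mobT_of_mem _ (hB t)]
  have hD : ∀ t ∈ Icc s (s + 1), Real.exp (-3) * δ ≤ Dd (φ t (mobT (ρ a) p)).1 := fun t ht => by
    refine le_trans ?_ (Dd_flow_ge h.conf h.flow hp' s t)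
    rw [hp1', Real.sqrt_one, e1, abs_of_nonneg (by linarith [ht.1])]
    exact mul_le_mul (Real.exp_le_exp.2 (by linarith [ht.2])) ha hδ.le (Real.exp_pos _).le
  have sp := dirSys h hp' hp1'
  have sq := dirSys h hq' hq1'
  obtain ⟨c1, c2⟩ := hCc _ _ _ _ _ _ _ _ s ((CK + CO) * σ) sp sq h1s fun t ht i j => by
    have k1 := hCK (i, j) (mem_univ _) σ _ _ hσ (hN' t ht) (hD t ht)
    have k2 := hCO (i, j) (mem_univ _) σ _ _ hσ (hN' t ht) (hD t ht)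
    have k3 := mul_nonneg hCK0 hσ0
    have k4 := mul_nonneg hCO0 hσ0
    constructor
    · exact k1.trans (by linarith)
    · exact k2.trans (by linarith)
  change fro (UD f φ M _ _ - UD f φ M _ _) ≤ 1 / 2 * fro (UD f φ M _ _ - UD f φ M _ _) + _ at c1
  change |LD f φ M _ _ - LD f φ M _ _ - (LD f φ M _ _ - LD f φ M _ _)| ≤
    Cc * (fro (UD f φ M _ _ - UD f φ M _ _) + _) at c2
  simp only [(UL_mobT (hU a) h (hf a) hp hp1 _).2.2, (UL_mobT (hU a) h (hf a) hq hq1 _).2.2] at c2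
  have hΔ := OdeMul.fro_nonneg (UD f φ M (mobT (ρ a) p) s - UD f φ M (mobT (ρ a) q) s)
  have k5 : 0 ≤ Cc * (CK + CO) := by positivity
  have k6 : 0 ≤ Cb * CR := by positivity
  refine ⟨?_, c2.trans (by
    nlinarith [mul_nonneg hCc0 hσ0, mul_nonneg k5 hΔ, mul_nonneg k6 hΔ, mul_nonneg k6 hσ0])⟩
  have e2 : ∀ r : EE × EE, r.1 ∈ Bl → mobT (ρ b) r = mobT (ρ (b * a⁻¹)) (mobT (ρ a) r) :=
    fun r hr => by rw [← Inv.mobT_mul (hU _) (hU _) hr, ← map_mul, inv_mul_cancel_right]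
  have hs1 : s + 1 ∈ Icc s (s + 1) := ⟨by linarith, le_rfl⟩
  have hc : b * a⁻¹ ∈ {c : G | ∃ x ∈ Bl, Real.exp (-3) * δ ≤ Dd x ∧
      Real.exp (-3) * δ ≤ Dd (mob (ρ c) x)} := by
    refine ⟨_, mem_OO.1 (h.flow.mem (s + 1) _ (mem_OO.2 hp')), hD _ hs1, ?_⟩
    rw [e1, ← mob_mul (hU a) (hB _), ← map_mul, inv_mul_cancel_right]
    exact hδδ.trans hb
  obtain ⟨r1, u1, -⟩ := UL_mobT (hU (b * a⁻¹)) h (hf _) hp' hp1' (s + 1)
  obtain ⟨r2, u2, -⟩ := UL_mobT (hU (b * a⁻¹)) h (hf _) hq' hq1' (s + 1)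
  rw [e2 p hp, e2 q hq, u1, u2]
  refine (fro_conj r1 r2 _ _).trans ?_
  have k7 : fro (Inv.rot (ρ (b * a⁻¹)) f (φ (s + 1) (mobT (ρ a) p)) -
      Inv.rot (ρ (b * a⁻¹)) f (φ (s + 1) (mobT (ρ a) q))) ≤ 3 * (CR * σ) :=
    fro_le_of fun i j => hCR (b * a⁻¹, i, j) ⟨hc, mem_univ _⟩ σ _ _ hσ (hN' _ hs1) (hD _ hs1)
  have k8 : fro (UD f φ M (mobT (ρ a) q) (s + 1)) ≤ Cb :=
    (hCb _ _ _ _ sq).2.2.2.2.1 (s + 1) (by linarith)
  have k9 := mul_le_mul k8 k7 (OdeMul.fro_nonneg _) (by linarith)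
  nlinarith [mul_nonneg hCc0 hσ0]

theorem twin {f : EE → ℝ} {φ : Flo} {M : DFlo} (h : Ctx f φ M)
    {Λ : ℝ} {G : Type} [Group G] {ρ : G →* C3} (hρ : IsLattice Λ G ρ)
    (hf : ∀ a, ∀ x ∈ Bl, f (mob (ρ a) x) = f x) {σ₀ : ℝ} (hσ₀ : 0 ≤ σ₀) :
    ∃ C : ℝ, ∀ (p q : EE × EE) (T : ℝ), p.1 ∈ Bl → en f p = 1 → q.1 ∈ Bl → en f q = 1 → 1 ≤ T →
      (∀ t ∈ Icc 1 T, Near f (σ₀ * Real.exp ((t - T) / 2)) (φ t p) (φ t q)) →
      |LD f φ M p T - LD f φ M q T| ≤ C := by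
  have hU : ∀ a, IsU21 (ρ a) := hρ.unit
  obtain ⟨δ, hδ, hco⟩ := lattice_cocpt hρ
  obtain ⟨C, hC0, hC⟩ := step h hρ hf hδ σ₀
  obtain ⟨Cb, hCb1, hCb⟩ := dir_basic
  refine ⟨4 * Cb + 2 * C * (2 * Cb) + 3 * ((C + 2 * C ^ 2) * σ₀), ?_⟩
  intro p q T hp hp1 hq hq1 hT hN
  choose a ha using fun t => hco _ (mem_OO.1 (h.flow.mem t p (mem_OO.2 hp)))
  set Δ : ℝ → ℝ := fun s =>
    fro (UD f φ M (mobT (ρ (a s)) p) s - UD f φ M (mobT (ρ (a s)) q) s) with hΔ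
  have hΔ0 : ∀ s, 0 ≤ Δ s := fun s => OdeMul.fro_nonneg _
  have hB : 0 ≤ (C + 2 * C ^ 2) * σ₀ := by positivity
  have key := pot (fun s => |LD f φ M p s - LD f φ M q s| + 2 * C * Δ s -
    3 * ((C + 2 * C ^ 2) * σ₀) * Real.exp ((s - T) / 2)) T (4 * Cb + 2 * C * (2 * Cb))
    (fun s h1 h2 => by
      have l : ∀ r : EE × EE, r.1 ∈ Bl → en f r = 1 → |LD f φ M r s| ≤ 2 * Cb := fun r hr hr1 => by
        obtain ⟨-, -, -, -, -, b1, b2⟩ := hCb _ _ _ _ (dirSys h hr hr1)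
        have b3 := b2 1 s le_rfl h1
        rw [abs_of_nonneg (by linarith : 0 ≤ s - 1)] at b3
        have b4 := abs_sub_abs_le_abs_sub (Real.log (YD f φ M r s).det)
          (Real.log (YD f φ M r 1).det)
        unfold LD
        nlinarith
      have u : ∀ r : EE × EE, r.1 ∈ Bl → en f r = 1 → fro (UD f φ M (mobT (ρ (a s)) r) s) ≤ Cb :=
        fun r hr hr1 => (hCb _ _ _ _ (dirSys h (Inv.mobT_mem (hU _) hr)
          (by rw [en_mobT (hU _) (hf _), hr1]))).2.2.2.2.1 s h1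
      have b5 : Δ s ≤ 2 * Cb := (fro_sub_le _ _).trans (by linarith [u p hp hp1, u q hq hq1])
      have b6 := abs_sub (LD f φ M p s) (LD f φ M q s)
      have b7 := mul_le_mul_of_nonneg_left b5 hC0
      have b8 := mul_nonneg hB (Real.exp_pos ((s - T) / 2)).le
      linarith [l p hp hp1, l q hq hq1])
    (fun s h1 h2 => by
      have b0 : Real.exp ((s + 1 - T) / 2) ≤ 1 := Real.exp_le_one_iff.2 (by linarith)
      have b1 := (Real.exp_pos ((s + 1 - T) / 2)).le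
      obtain ⟨c1, c2⟩ := hC p q (a s) (a (s + 1)) s (σ₀ * Real.exp ((s + 1 - T) / 2)) hp hp1 hq hq1
        h1 (by positivity) (mul_le_of_le_one_right hσ₀ b0) (fun t ht =>
          (hN t ⟨h1.trans ht.1, ht.2.trans h2⟩).mono (mul_le_mul_of_nonneg_left
            (Real.exp_le_exp.2 (by linarith [ht.2])) hσ₀)) (ha s) (ha (s + 1))
      change Δ (s + 1) ≤ 1 / 2 * Δ s + _ at c1
      change _ ≤ C * (Δ s + _) at c2
      have b2 : 3 / 2 * Real.exp ((s - T) / 2) ≤ Real.exp ((s + 1 - T) / 2) := by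
        rw [show (s + 1 - T) / 2 = 1 / 2 + (s - T) / 2 by ring, Real.exp_add]
        exact mul_le_mul_of_nonneg_right (by linarith [Real.add_one_le_exp (1 / 2 : ℝ)])
          (Real.exp_pos _).le
      have b3 := abs_add_le (LD f φ M p s - LD f φ M q s)
        (LD f φ M p (s + 1) - LD f φ M p s - (LD f φ M q (s + 1) - LD f φ M q s))
      rw [show LD f φ M p s - LD f φ M q s +
        (LD f φ M p (s + 1) - LD f φ M p s - (LD f φ M q (s + 1) - LD f φ M q s)) =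
          LD f φ M p (s + 1) - LD f φ M q (s + 1) by ring] at b3
      have b4 := mul_le_mul_of_nonneg_left c1 hC0
      have b5 := mul_le_mul_of_nonneg_left b2 hB
      nlinarith) T hT le_rfl
  simp only [sub_self, zero_div, Real.exp_zero] at key
  nlinarith [mul_nonneg hC0 (hΔ0 T)]

end Dstr

end Pool.Agent.MP_019006_gt

end

section

set_option autoImplicit false

open MeasureTheory Filter Topology Set Matrix

namespace Pool.Agent.MP_019006_gt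

namespace Dstr

theorem seg_Dd {δ θ : ℝ} {m m' : EE} (hm : δ ≤ Dd m) (hm' : δ ≤ Dd m') (hθ : θ ∈ Icc (0 : ℝ) 1) :
    δ ≤ Dd (m + θ • (m' - m)) := by
  have e : m + θ • (m' - m) = (1 - θ) • m + θ • m' := by module
  have h0 : 0 ≤ 1 - θ := by linarith [hθ.2]
  have h1 : ‖m + θ • (m' - m)‖ ≤ (1 - θ) * ‖m‖ + θ * ‖m'‖ := by
    rw [e]
    refine (norm_add_le _ _).trans ?_
    rw [norm_smul, norm_smul, Real.norm_of_nonneg h0, Real.norm_of_nonneg hθ.1]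
  have h2 := pow_le_pow_left₀ (norm_nonneg _) h1 2
  have h3 := mul_nonneg (mul_nonneg hθ.1 h0) (sq_nonneg (‖m‖ - ‖m'‖))
  have h4 := mul_le_mul_of_nonneg_left hm h0
  have h5 := mul_le_mul_of_nonneg_left hm' hθ.1
  unfold Dd at *
  nlinarith

theorem dir_unit {f : EE → ℝ} {φ : Flo} {M : DFlo} {V : EE → EE → EE} (h : Ctx f φ M)
    (hV : IsLog φ V) {y z : EE} (hy : y ∈ Bl) (hd : 0 < dd f V y z) :
    z ≠ y ∧ en f (y, dir f V y z) = 1 := by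
  have h0 : V y z ≠ 0 := fun h0 => by
    rw [dd, h0] at hd
    simp [en] at hd
  refine ⟨fun e => h0 ?_, (en_nrm (p := (y, V y z)) hy h0).2⟩
  have h1 := flow_scale h.flow 0 1 (p := (y, 0)) hy
  have h2 := hV.left y hy 0
  simp only [zero_mul, h.flow.zero, smul_zero] at h1
  rw [h1] at h2
  rw [e, h2]

theorem gg_seg {f : EE → ℝ} (hf : Conf f) {δ : ℝ} (hδ : 0 < δ) {x m m' : EE} (hx : δ ≤ Dd x)
    (hm : δ ≤ Dd m) (hm' : δ ≤ Dd m') : gg f x (m' - m) (m' - m) ≤ 5 / δ ^ 2 := by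
  have hx' := Fib.mem_Bl_of hδ hx
  have a1 : gg f x (m' - m) (m' - m) ≤ 11 / 10 * g0 x (m' - m) (m' - m) :=
    FG.en_le hf (p := (x, m' - m)) hx'
  have a2 := (g0_bounds hx' (m' - m)).2.2
  have a3 : ‖m' - m‖ ≤ 2 := by
    linarith [norm_sub_le m' m, mem_Bl.1 (Fib.mem_Bl_of hδ hm), mem_Bl.1 (Fib.mem_Bl_of hδ hm')]
  have a4 : ‖m' - m‖ ^ 2 / Dd x ^ 2 ≤ 2 ^ 2 / δ ^ 2 := by gcongr
  have a5 : 0 < 1 / δ ^ 2 := by positivity
  rw [div_eq_mul_one_div] at a2 a4 ⊢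
  rw [div_eq_mul_one_div (2 ^ 2 : ℝ)] at a4
  linarith

end Dstr

open Dstr in
theorem distortion {f : EE → ℝ} {φ : Flo} {M : DFlo} {V : EE → EE → EE} (h : Ctx f φ M)
    (hV : IsLog φ V) {Λ : ℝ} {G : Type} [Group G] {ρ : G →* C3} (hρ : IsLattice Λ G ρ)
    (hf : ∀ a, ∀ x ∈ Bl, f (mob (ρ a) x) = f x) (δ : ℝ) (hδ : 0 < δ) : ∃ C : ℝ, ∀ y ∈ Bl,
      (∀ m, δ ≤ Dd m → 2 ≤ dd f V y m) → ∀ m m', δ ≤ Dd m → δ ≤ Dd m' →
        |Real.log (JT f φ M V y m) - Real.log (JT f φ M V y m')| ≤ C := by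
  obtain ⟨C0, hC0⟩ := dd_lip h hV δ hδ
  obtain ⟨Cb, hCb1, hCb⟩ := dir_basic
  have hB : 0 ≤ Cb * (5 / δ ^ 2) := by positivity
  obtain ⟨C, hC⟩ := twin h hρ hf (Real.sqrt_nonneg (Cb * (5 / δ ^ 2)))
  refine ⟨C + 4 * Cb * C0, fun y hy h2 m m' hm hm' => ?_⟩
  have hL := fun z z' hz hz' => (hC0 y hy (fun z hz => by linarith [h2 z hz]) z z' hz hz').1
  have hC00 : 0 ≤ C0 := (abs_nonneg _).trans (hL m m hm hm)
  set T := max 1 (dd f V y m - C0) with hT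
  have hT1 : ∀ z, δ ≤ Dd z → T ≤ dd f V y z ∧ dd f V y z - T ≤ 2 * C0 := fun z hz => by
    have a := abs_le.1 (hL m z hm hz)
    have b := le_max_right 1 (dd f V y m - C0)
    exact ⟨max_le (by linarith [h2 z hz]) (by linarith), by linarith⟩
  have hu := fun z hz => dir_unit h hV hy (lt_of_lt_of_le two_pos (h2 z hz))
  have hc : ∀ θ : ℝ, HasDerivAt (fun s : ℝ => m + s • (m' - m)) (m' - m) θ := fun θ => by
    simpa using ((hasDerivAt_id θ).smul_const (m' - m)).const_add m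
  choose! n d hn hd hn0 hnd using fun (θ : ℝ) (hθ : θ ∈ Icc (0 : ℝ) 1) =>
    dir_deriv h hV hy (c := fun s : ℝ => m + s • (m' - m)) (θ := θ)
      (Fib.mem_Bl_of hδ (seg_Dd hm hm' hθ)) (hu _ (seg_Dd hm hm' hθ)).1 (hc θ)
  have key := hC (y, dir f V y m) (y, dir f V y m') T hy (hu m hm).2 hy (hu m' hm').2
    (le_max_left _ _) fun t ht => by
      refine ⟨fun θ => φ t (y, dir f V y (m + θ • (m' - m))),
        fun θ => M t (y, dir f V y (m + θ • (m' - m))) (0, n θ), by simp, by simp,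
        fun θ hθ => ?_⟩
      have hz := seg_Dd hm hm' hθ
      have hO : (y, dir f V y (m + θ • (m' - m))) ∈ OO := mem_OO.2 hy
      refine ⟨mem_OO.1 (h.flow.mem t _ hO), by rw [en_flow h.conf.smooth h.flow, (hu _ hz).2],
        (h.flow.fderiv t _ hO).comp_hasDerivAt θ ((hasDerivAt_const θ y).prodMk (hn θ hθ)), ?_⟩
      refine (sq_le_sq₀ (Real.sqrt_nonneg _) (by positivity)).1 ?_
      have a1 := (M_dirichlet h (p := (y, dir f V y (m + θ • (m' - m)))) hy (hu _ hz).2 (n θ)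
        (hn0 θ hθ) t).2.2.1
      have a2 := (hCb _ _ _ _ (dirSys h (p := (y, dir f V y (m + θ • (m' - m)))) hy
        (hu _ hz).2)).2.2.2.1 t _ (fun j => gg f y (n θ) (frame (y, dir f V y (m + θ • (m' - m))) j))
        (by linarith [ht.1]) (ht.2.trans (hT1 _ hz).1) (by linarith [h2 _ hz])
      have a3 := hnd θ hθ
      have a4 := gg_seg h.conf hδ hz hm hm'
      have a5 : Real.exp (t - dd f V y (m + θ • (m' - m))) ≤ Real.exp (t - T) :=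
        Real.exp_le_exp.2 (by linarith [(hT1 _ hz).1])
      refine (a1.trans_le a2).trans ?_
      rw [mul_pow, Real.sq_sqrt hB, ← Real.exp_nat_mul,
        show ((2 : ℕ) : ℝ) * ((t - T) / 2) = t - T by push_cast; ring, mul_right_comm]
      refine mul_le_mul (mul_le_mul_of_nonneg_left ?_ (by linarith)) a5 (Real.exp_pos _).le hB
      nlinarith [sq_nonneg (d θ)]
  have l : ∀ z, δ ≤ Dd z → |Real.log (JT f φ M V y z) - LD f φ M (y, dir f V y z) T| ≤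
      Cb * (2 * C0) := fun z hz => by
    have a := (hCb _ _ _ _ (dirSys h (p := (y, dir f V y z)) hy (hu z hz).2)).2.2.2.2.2.2 T
      (dd f V y z) (le_max_left _ _) (by linarith [h2 z hz])
    rw [abs_of_nonneg (a := dd f V y z - T) (by linarith [(hT1 z hz).1])] at a
    exact a.trans (mul_le_mul_of_nonneg_left (hT1 z hz).2 (by linarith))
  have l1 := abs_le.1 (l m hm)
  have l2 := abs_le.1 (l m' hm')
  have l3 := abs_le.1 key
  rw [abs_le]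
  constructor <;> linarith

end Pool.Agent.MP_019006_gt

end

section

set_option autoImplicit false

open MeasureTheory Filter Topology Set Matrix

namespace Pool.Agent.MP_019006_gt

theorem cmp_mem_Bl {x : EE} (h : 0 < Dd x) : x ∈ Bl := by
  unfold Dd at h
  simp only [Bl, mem_ball_zero_iff]
  nlinarith [norm_nonneg x]

theorem cmp_Dd_pos {x : EE} (h : x ∈ Bl) : 0 < Dd x := by
  simp only [Bl, mem_ball_zero_iff] at h
  unfold Dd
  nlinarith [norm_nonneg x]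

theorem cmp_flow_mem {f : EE → ℝ} {φ : Flo} {M : DFlo} (h : Ctx f φ M) {p : EE × EE}
    (hp : p.1 ∈ Bl) (t : ℝ) : (φ t p).1 ∈ Bl :=
  (h.flow.mem t p ⟨hp, mem_univ _⟩).1

/-- Points far from `x` are close to the boundary. -/
theorem cmp_far {f : EE → ℝ} {φ : Flo} {M : DFlo} {V : EE → EE → EE} (h : Ctx f φ M)
    (hV : IsLog φ V) {δ : ℝ} (hδ : 0 < δ) {x y : EE} (hx : δ ≤ Dd x) (hy : y ∈ Bl)
    (hd : 6 * δ⁻¹ + 2 * (Real.exp 6 * δ⁻¹) + 2 ≤ dd f V x y) : Dd y < Real.exp (-6) * δ := by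
  have hxB := cmp_mem_Bl (hδ.trans_le hx)
  have h1 := (Dd_dd h hV hxB hy).2
  have h2 : (Dd x)⁻¹ ≤ δ⁻¹ := inv_anti₀ hδ hx
  have h3 : 0 < δ⁻¹ := inv_pos.2 hδ
  have h4 : 0 < Real.exp 6 * δ⁻¹ := mul_pos (Real.exp_pos _) h3
  set d := dd f V x y
  have h5 : Real.exp 6 * δ⁻¹ < (Dd y)⁻¹ := by
    have e1 : 3 * d * (Dd x)⁻¹ ≤ 3 * d * δ⁻¹ := by
      apply mul_le_mul_of_nonneg_left h2; linarith
    have e2 : 2 * (Real.exp 6 * δ⁻¹ + 1) ≤ d * (d / 2 - 3 * δ⁻¹) := by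
      apply mul_le_mul <;> linarith
    nlinarith
  have h6 : Real.exp (-6) * δ = (Real.exp 6 * δ⁻¹)⁻¹ := by
    rw [mul_inv, inv_inv, Real.exp_neg]
  rw [h6]
  exact (lt_inv_comm₀ h4 (cmp_Dd_pos hy)).1 h5

theorem cmp_two_le {f : EE → ℝ} {φ : Flo} {M : DFlo} {V : EE → EE → EE} (h : Ctx f φ M)
    (hV : IsLog φ V) {δ : ℝ} (hδ : 0 < δ) {y : EE} (hy : y ∈ Bl)
    (hd : Dd y < Real.exp (-6) * δ) (m : EE) (hm : δ ≤ Dd m) : 2 ≤ dd f V y m := by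
  by_contra hlt
  have hmB := cmp_mem_Bl (hδ.trans_le hm)
  have h1 := (Dd_dd h hV hmB hy).1
  rw [(log_rev h hV hmB hy).2.1] at h1
  have h2 : Real.exp (-6) ≤ Real.exp (-3 * dd f V y m) := Real.exp_le_exp.2 (by linarith)
  have h3 : Real.exp (-6) * δ ≤ Real.exp (-3 * dd f V y m) * Dd m :=
    mul_le_mul h2 hm hδ.le (Real.exp_pos _).le
  linarith

theorem cmp_not_le {δ : ℝ} (hδ : 0 < δ) {y : EE} (hd : Dd y < Real.exp (-6) * δ) :
    ¬ δ ≤ Dd y := by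
  have : Real.exp (-6) ≤ 1 := Real.exp_le_one_iff.2 (by norm_num)
  intro h
  nlinarith

theorem cmp_Jac {f : EE → ℝ} {φ : Flo} {M : DFlo} {V : EE → EE → EE} (h : Ctx f φ M)
    {x y : EE} (hx : x ∈ Bl) (hd : 0 < dd f V x y) :
    0 < JT f φ M V x y ∧ Jac f φ M (x, V x y) = JT f φ M V x y / dd f V x y ^ 3 := by
  have h0 : V x y ≠ 0 := by
    intro e
    simp [dd, en, e] at hd
  obtain ⟨_, -, hb⟩ := dir_basic
  refine ⟨?_, Jac_eq h (p := (x, V x y)) hx h0⟩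
  exact (hb _ _ _ _ (dirSys h (p := nrm f (x, V x y)) hx
    (en_nrm (p := (x, V x y)) hx h0).2)).1 _ hd

theorem cmp_real {a b c d₁ d₂ T μ K R : ℝ} (ha : 0 < a) (hb : 0 < b) (hc : 0 < c) (hμ : 0 < μ)
    (hR : 0 < R) (hK : |Real.log a - Real.log b - Real.log c| ≤ K) (h1 : R ≤ d₁)
    (h1' : d₁ ≤ 2 * R) (h2 : R ≤ d₂) (h2' : d₂ ≤ 2 * R) (hT : R ≤ T) (hT' : T ≤ 4 * R) {C : ℝ}
    (hC : 64 * Real.exp K * (μ ^ 2 + (μ ^ 2)⁻¹) ≤ C) :
    R ^ 3 / C ≤ a / T ^ 3 / (μ ^ 2 * (b / d₁ ^ 3) * (c / d₂ ^ 3)) ∧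
      a / T ^ 3 / (μ ^ 2 * (b / d₁ ^ 3) * (c / d₂ ^ 3)) ≤ C * R ^ 3 := by
  have hd1 : 0 < d₁ := hR.trans_le h1
  have hd2 : 0 < d₂ := hR.trans_le h2
  have hT0 : 0 < T := hR.trans_le hT
  have e : a / T ^ 3 / (μ ^ 2 * (b / d₁ ^ 3) * (c / d₂ ^ 3)) =
      Real.exp (Real.log a - Real.log b - Real.log c) * (d₁ * d₂ / T) ^ 3 * (μ ^ 2)⁻¹ := by
    rw [Real.exp_sub, Real.exp_sub, Real.exp_log ha, Real.exp_log hb, Real.exp_log hc]
    field_simp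
  rw [e]
  obtain ⟨k1, k2⟩ := abs_le.1 hK
  have l1 : Real.exp (-K) ≤ Real.exp (Real.log a - Real.log b - Real.log c) :=
    Real.exp_le_exp.2 k1
  have l2 : Real.exp (Real.log a - Real.log b - Real.log c) ≤ Real.exp K := Real.exp_le_exp.2 k2
  have m1 : R / 4 ≤ d₁ * d₂ / T := by
    rw [le_div_iff₀ hT0]
    nlinarith [mul_le_mul h1 h2 hR.le hd1.le]
  have m2 : d₁ * d₂ / T ≤ 4 * R := by
    rw [div_le_iff₀ hT0]
    nlinarith [mul_le_mul h1' h2' hd2.le (by linarith)]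
  have n1 : (R / 4) ^ 3 ≤ (d₁ * d₂ / T) ^ 3 := pow_le_pow_left₀ (by positivity) m1 3
  have n2 : (d₁ * d₂ / T) ^ 3 ≤ (4 * R) ^ 3 := pow_le_pow_left₀ (by positivity) m2 3
  have hμ2 : 0 < μ ^ 2 := by positivity
  have hμ3 : 0 < (μ ^ 2)⁻¹ := by positivity
  have hE := Real.exp_pos K
  constructor
  · have c1 : 64 * Real.exp K * μ ^ 2 ≤ C := by nlinarith [mul_pos hE hμ3]
    calc R ^ 3 / C ≤ R ^ 3 / (64 * Real.exp K * μ ^ 2) :=
          div_le_div_of_nonneg_left (by positivity) (by positivity) c1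
      _ = Real.exp (-K) * (R / 4) ^ 3 * (μ ^ 2)⁻¹ := by
          rw [Real.exp_neg]; field_simp; norm_num
      _ ≤ _ := by gcongr
  · have c2 : 64 * Real.exp K * (μ ^ 2)⁻¹ ≤ C := by nlinarith [mul_pos hE hμ2]
    calc _ ≤ Real.exp K * (4 * R) ^ 3 * (μ ^ 2)⁻¹ := by gcongr
      _ = 64 * Real.exp K * (μ ^ 2)⁻¹ * R ^ 3 := by ring
      _ ≤ C * R ^ 3 := by gcongr

theorem jac_compare {f : EE → ℝ} {φ : Flo} {M : DFlo} {V : EE → EE → EE} (h : Ctx f φ M)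
    (hV : IsLog φ V) {Λ : ℝ} {G : Type} [Group G] {ρ : G →* C3} (hρ : IsLattice Λ G ρ)
    (hf : ∀ a, ∀ x ∈ Bl, f (mob (ρ a) x) = f x) (δ L : ℝ) (hδ : 0 < δ) (hL : 0 ≤ L)
    {x : EE} (hx : δ ≤ Dd x) :
    ∃ C R₀ δ' : ℝ, 1 ≤ C ∧ 0 < δ' ∧ ∀ R, R₀ ≤ R → ∀ p : EE × EE, p.1 ∈ Bl →
      dd f V x p.1 ∈ Icc R (R + L) → dd f V x (φ 1 p).1 ∈ Icc R (R + L) →
      (∃ σ ∈ Icc (0 : ℝ) 1, δ ≤ Dd (φ σ p).1) →
        R ^ 3 / C ≤ Jac f φ M p / (mm f x ^ 2 * Jac f φ M (x, V x p.1) *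
          Jac f φ M (x, V x (φ 1 p).1)) ∧
        Jac f φ M p / (mm f x ^ 2 * Jac f φ M (x, V x p.1) *
          Jac f φ M (x, V x (φ 1 p).1)) ≤ C * R ^ 3 ∧
        |Real.sqrt (en f p) - 2 * R| ≤ C ∧ δ' ≤ Dd (φ (1 / 2) p).1 := by
  obtain ⟨C₁, hC₁⟩ := dd_lip h hV δ hδ
  obtain ⟨C₂, hC₂⟩ := distortion h hV hρ hf δ hδ
  obtain ⟨C₃, hC₃⟩ := dir_glue
  obtain ⟨_, -, hb⟩ := dir_basic
  have hxB := cmp_mem_Bl (hδ.trans_le hx)
  have hμ : 0 < mm f x := div_pos (Real.exp_pos _) (pow_pos (cmp_Dd_pos hxB) 3)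
  have hW : 0 < 64 * Real.exp (C₃ + 2 * C₂) * (mm f x ^ 2 + (mm f x ^ 2)⁻¹) := by positivity
  have hi : 0 < δ⁻¹ := inv_pos.2 hδ
  have hi' : 0 < Real.exp 6 * δ⁻¹ := mul_pos (Real.exp_pos _) hi
  have hab := le_abs_self C₁
  have hab0 := abs_nonneg C₁
  refine ⟨64 * Real.exp (C₃ + 2 * C₂) * (mm f x ^ 2 + (mm f x ^ 2)⁻¹) + 2 * L + 2 * |C₁| + 1,
    6 * δ⁻¹ + 2 * (Real.exp 6 * δ⁻¹) + 2 + L + 2 * |C₁|,
    Real.exp (-3 * ((L + 2 * C₁) / 2)) * δ, by linarith, by positivity, ?_⟩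
  rintro R hR p hp ⟨a1, a2⟩ ⟨b1, b2⟩ ⟨σ, ⟨s0, s1⟩, hm⟩
  have hz := cmp_flow_mem h hp 1
  have hmB := cmp_flow_mem h hp σ
  have fy := cmp_far h hV hδ hx hp (by linarith)
  have fz := cmp_far h hV hδ hx hz (by linarith)
  have ty := cmp_two_le h hV hδ hp fy
  have tz := cmp_two_le h hV hδ hz fz
  have h0 : p.2 ≠ 0 := by
    intro e
    have h1 := flow_scale h.flow 0 σ hp
    rw [zero_smul, ← e, zero_mul, h.flow.zero] at h1
    rw [show φ σ p = φ σ (p.1, p.2) from rfl, h1] at hm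
    exact cmp_not_le hδ fy hm
  have σ0 : 0 < σ := by
    refine lt_of_le_of_ne s0 fun e => ?_
    rw [← e, h.flow.zero] at hm
    exact cmp_not_le hδ fy hm
  have σ1 : σ < 1 := by
    refine lt_of_le_of_ne s1 fun e => ?_
    rw [e] at hm
    exact cmp_not_le hδ fz hm
  obtain ⟨he, hq1⟩ := en_nrm (f := f) hp h0
  have hJ := Jac_eq h hp h0
  have hfl : ∀ r, (φ r p).1 = (φ (Real.sqrt (en f p) * r) (nrm f p)).1 := fun r => by
    rw [← flow_nrm h.conf.smooth h.flow r hp h0]; rfl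
  have hge := Dd_flow_ge h.conf h.flow hp σ (1 / 2)
  have hT : 0 < Real.sqrt (en f p) := Real.sqrt_pos.2 he
  set T := Real.sqrt (en f p) with hTd
  set q := nrm f p with hq
  have hqB : q.1 ∈ Bl := hp
  have hs : 0 < T * σ := mul_pos hT σ0
  have hst : T * σ < T * 1 := mul_lt_mul_of_pos_left σ1 hT
  obtain ⟨-, d1, e1⟩ := log_flow h hV hqB hq1 0 (T * σ) hs
  obtain ⟨-, d2, e2⟩ := log_flow h hV hqB hq1 (T * σ) (T * 1) hst
  rw [h.flow.zero, ← hfl, show q.1 = p.1 from rfl] at d1 e1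
  rw [sub_zero] at d1
  have J2 : JT f φ M V (φ σ p).1 (φ 1 p).1 = (YD f φ M (φ (T * σ) q) (T * 1 - T * σ)).det := by
    rw [hfl σ, hfl 1, JT, d2, e2]
  rw [← hfl, ← hfl] at d2
  have J1 : JT f φ M V p.1 (φ σ p).1 = (YD f φ M q (T * σ)).det := by
    rw [JT, d1, e1]; rfl
  have r1 := log_rev h hV hxB hp
  have r2 := log_rev h hV hxB hz
  have r3 := log_rev h hV hmB hz
  have l1 := abs_le.1 (hC₁ _ hp (fun m hm => le_trans (by norm_num) (ty m hm)) _ _ hm hx).1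
  have l2 := abs_le.1 (hC₁ _ hz (fun m hm => le_trans (by norm_num) (tz m hm)) _ _ hm hx).1
  have k1 := abs_le.1 (hC₂ _ hp ty _ _ hm hx)
  have k2 := abs_le.1 (hC₂ _ hz tz _ _ hm hx)
  have t1 := ty _ hm
  have t2 := tz _ hm
  rw [← r3.2.1, d2] at t2 l2
  rw [d1] at t1 l1
  rw [← r1.2.1] at l1
  rw [← r2.2.1] at l2
  rw [J1, ← r1.2.2.2] at k1
  rw [← r3.2.2.2, J2, ← r2.2.2.2] at k2
  have D1 := dirSys h hqB hq1
  have D2 := dirSys h (cmp_flow_mem h hqB (T * σ))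
    ((en_flow h.conf.smooth h.flow (T * σ) q).trans hq1)
  have hadd : ∀ r, φ r (φ (T * σ) q) = φ (T * σ + r) q := fun r => by
    rw [add_comm, h.flow.add]
  simp only [hadd] at D2
  have g := abs_le.1 (hC₃ _ _ _ _ _ _ (T * σ) (T * 1 - T * σ) D1 D2 (by linarith) (by linarith))
  rw [show T * σ + (T * 1 - T * σ) = T by ring] at g
  have hR0 : 0 < R := by linarith
  obtain ⟨p1, j1⟩ := cmp_Jac (V := V) h (y := p.1) hxB (by linarith)
  obtain ⟨p2, j2⟩ := cmp_Jac (V := V) h (y := (φ 1 p).1) hxB (by linarith)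
  have main := cmp_real (K := C₃ + 2 * C₂) (T := T) ((hb _ _ _ _ D1).1 T hT) p1 p2 hμ hR0
    (abs_le.2 ⟨by linarith, by linarith⟩) a1 (by linarith) b1 (by linarith) (by linarith)
    (by linarith) (C := 64 * Real.exp (C₃ + 2 * C₂) * (mm f x ^ 2 + (mm f x ^ 2)⁻¹) + 2 * L +
      2 * |C₁| + 1) (by linarith)
  rw [hJ, j1, j2]
  refine ⟨main.1, main.2, abs_le.2 ⟨by linarith, by linarith⟩, le_trans ?_ hge⟩
  refine mul_le_mul (Real.exp_le_exp.2 ?_) hm hδ.le (Real.exp_pos _).le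
  have : T * |1 / 2 - σ| ≤ (L + 2 * C₁) / 2 := by
    rw [← abs_of_pos hT, ← abs_mul, abs_le]
    constructor <;> linarith
  linarith

end Pool.Agent.MP_019006_gt

end
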