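import Mathlib
import Pool.Agent.MP_019006_gt.JobDefs

section

set_option autoImplicit false

namespace Pool.Agent.MP_019006_gt

open Filter Topology

variable {E : Type} [NormedAddCommGroup E] [NormedSpace ℝ E]

/-- `g` is a smooth Riemannian metric on the open set `Ω`. -/
def IsRiemannian (Ω : Set E) (g : E → E →L[ℝ] E →L[ℝ] ℝ) : Prop :=
  (∀ n : ℕ, ContDiffOn ℝ n g Ω) ∧
    ∀ x ∈ Ω, (∀ u w : E, g x u w = g x w u) ∧ ∀ u : E, u ≠ 0 → 0 < g x u u

/-- `Γ` is the Christoffel map of `g` on `Ω` (Koszul formula). -/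
def IsChristoffel (Ω : Set E) (g : E → E →L[ℝ] E →L[ℝ] ℝ) (Γ : E → E → E → E) : Prop :=
  ∀ x ∈ Ω, ∀ u v w : E, 2 * g x (Γ x u v) w =
    fderiv ℝ (fun y => g y v w) x u + fderiv ℝ (fun y => g y u w) x v -
      fderiv ℝ (fun y => g y u v) x w

/-- The curvature tensor `R(u,v)w` at `x`. -/
noncomputable def curv (Γ : E → E → E → E) (x u v w : E) : E :=
  fderiv ℝ (fun y => Γ y v w) x u - fderiv ℝ (fun y => Γ y u w) x v +
    Γ x u (Γ x v w) - Γ x v (Γ x u w)

/-- All sectional curvatures are negative on `Ω`. -/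
def NegCurved (Ω : Set E) (g : E → E →L[ℝ] E →L[ℝ] ℝ) (Γ : E → E → E → E) : Prop :=
  ∀ x ∈ Ω, ∀ u v : E, LinearIndependent ℝ ![u, v] → g x (curv Γ x u v v) u < 0

/-- A free, properly discontinuous, cocompact action of `G` on `Ω` by smooth isometries. -/
def IsDeckAction (Ω : Set E) (g : E → E →L[ℝ] E →L[ℝ] ℝ) (G : Type) [Group G]
    (act : G → E → E) : Prop :=
  (∀ a : G, ∀ x ∈ Ω, act a x ∈ Ω) ∧ (∀ x ∈ Ω, act 1 x = x) ∧
    (∀ a b : G, ∀ x ∈ Ω, act (a * b) x = act a (act b x)) ∧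
    (∀ (a : G) (n : ℕ), ContDiffOn ℝ n (act a) Ω) ∧
    (∀ a : G, ∀ x ∈ Ω, ∀ u w : E,
      g (act a x) (fderiv ℝ (act a) x u) (fderiv ℝ (act a) x w) = g x u w) ∧
    (∀ a : G, ∀ x ∈ Ω, act a x = x → a = 1) ∧
    (∀ K : Set E, K ⊆ Ω → IsCompact K → {a : G | (act a '' K ∩ K).Nonempty}.Finite) ∧
    ∃ K : Set E, K ⊆ Ω ∧ IsCompact K ∧ ∀ x ∈ Ω, ∃ a : G, act a x ∈ K

/-- `φ` is the (complete, differentiable) geodesic flow on the tangent bundle `Ω × E`. -/
def IsGeodesicFlow (Ω : Set E) (Γ : E → E → E → E) (φ : ℝ → E × E → E × E) : Prop :=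
  ∀ p : E × E, p.1 ∈ Ω → φ 0 p = p ∧ ∀ t : ℝ, (φ t p).1 ∈ Ω ∧
    HasDerivAt (fun s => φ s p) ((φ t p).2, -Γ (φ t p).1 (φ t p).2 (φ t p).2) t ∧
    DifferentiableAt ℝ (φ t) p

/-- The Sasaki norm of a tangent vector `ξ` to the tangent bundle at `p`. -/
noncomputable def sasaki (g : E → E →L[ℝ] E →L[ℝ] ℝ) (Γ : E → E → E → E) (p ξ : E × E) : ℝ :=
  Real.sqrt (g p.1 ξ.1 ξ.1 + g p.1 (ξ.2 + Γ p.1 p.2 ξ.1) (ξ.2 + Γ p.1 p.2 ξ.1))

/-- `χ` is the exponential growth rate, as time tends to the filter `l`, of some non-zero vector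
tangent to the sphere bundle at `p`. -/
def IsExponentAlong (l : Filter ℝ) (g : E → E →L[ℝ] E →L[ℝ] ℝ) (Γ : E → E → E → E)
    (φ : ℝ → E × E → E × E) (p : E × E) (χ : ℝ) : Prop :=
  ∃ ξ : E × E, ξ ≠ 0 ∧ fderiv ℝ (fun q : E × E => g q.1 q.2 q.2) p ξ = 0 ∧
    Tendsto (fun t : ℝ => Real.log (sasaki g Γ (φ t p) (fderiv ℝ (φ t) p ξ)) / t) l (𝓝 χ)

end Pool.Agent.MP_019006_gt

end

section

set_option autoImplicit false

open MeasureTheory Filter Topology Set Matrix

namespace Pool.Agent.MP_019006_gt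

/-- `χ` is a Lyapunov exponent of the flow on the unit tangent bundle at `p`. -/
def IsExponent {E : Type} [NormedAddCommGroup E] [NormedSpace ℝ E] (g : E → E →L[ℝ] E →L[ℝ] ℝ) (Γ : E → E → E → E) (φ : ℝ → E × E → E × E)
    (p : E × E) (χ : ℝ) : Prop :=
  ∃ ξ : E × E, ξ ≠ 0 ∧ fderiv ℝ (fun q : E × E => g q.1 q.2 q.2) p ξ = 0 ∧
    Tendsto (fun t : ℝ => Real.log (sasaki g Γ (φ t p) (fderiv ℝ (φ t) p ξ)) / t) atTop (𝓝 χ)

/-- The open unit ball. -/
def Bl : Set EE := Metric.ball 0 1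

/-- The tangent bundle of the ball. -/
def OO : Set (EE × EE) := Bl ×ˢ univ

/-- Hermitian product, linear in the first argument. -/
noncomputable def ip (u w : EE) : ℂ := inner ℂ w u

noncomputable def Dd (x : EE) : ℝ := 1 - ‖x‖ ^ 2

/-- The Bergman Hermitian form. -/
noncomputable def hh (x u w : EE) : ℂ :=
  ip u w / (Dd x : ℂ) + ip u x * ip x w / (Dd x : ℂ) ^ 2

/-- The complex hyperbolic metric. -/
noncomputable def g0 (x u w : EE) : ℝ := (hh x u w).re

noncomputable def al (x u : EE) : ℂ := ip u x / (Dd x : ℂ)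

/-- Christoffel map of `g0`. -/
noncomputable def Gam0 (x u w : EE) : EE := al x u • w + al x w • u

/-- The `g0` gradient of `f`. -/
noncomputable def NN (f : EE → ℝ) (x : EE) : EE :=
  Dd x • (gradient f x - ip (gradient f x) x • x)

/-- Christoffel map of `exp (2 f) g0`. -/
noncomputable def Gam (f : EE → ℝ) (x u w : EE) : EE :=
  Gam0 x u w + fderiv ℝ f x u • w + fderiv ℝ f x w • u - g0 x u w • NN f x

theorem ip_add_left (u u' w : EE) : ip (u + u') w = ip u w + ip u' w := inner_add_right _ _ _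
theorem ip_add_right (u w w' : EE) : ip u (w + w') = ip u w + ip u w' := inner_add_left _ _ _
theorem ip_sub_left (u u' w : EE) : ip (u - u') w = ip u w - ip u' w := inner_sub_right _ _ _
theorem ip_sub_right (u w w' : EE) : ip u (w - w') = ip u w - ip u w' := inner_sub_left _ _ _
theorem ip_smul_left (c : ℂ) (u w : EE) : ip (c • u) w = c * ip u w := inner_smul_right _ _ _
theorem ip_smul_right (c : ℂ) (u w : EE) : ip u (c • w) = (starRingEnd ℂ) c * ip u w :=
  inner_smul_left _ _ _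
theorem rsmul_eq (c : ℝ) (u : EE) : c • u = (c : ℂ) • u := (Complex.coe_smul c u).symm
theorem ip_rsmul_left (c : ℝ) (u w : EE) : ip (c • u) w = c * ip u w := by
  rw [rsmul_eq, ip_smul_left]
theorem ip_rsmul_right (c : ℝ) (u w : EE) : ip u (c • w) = c * ip u w := by
  rw [rsmul_eq, ip_smul_right, Complex.conj_ofReal]

theorem hh_add_left (x u u' w : EE) : hh x (u + u') w = hh x u w + hh x u' w := by
  simp only [hh, ip_add_left]; ring
theorem hh_add_right (x u w w' : EE) : hh x u (w + w') = hh x u w + hh x u w' := by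
  simp only [hh, ip_add_right]; ring
theorem hh_smul_left (x : EE) (c : ℂ) (u w : EE) : hh x (c • u) w = c * hh x u w := by
  simp only [hh, ip_smul_left]; ring
theorem hh_smul_right (x : EE) (c : ℂ) (u w : EE) :
    hh x u (c • w) = (starRingEnd ℂ) c * hh x u w := by
  simp only [hh, ip_smul_right]; ring
theorem g0_add_left (x u u' w : EE) : g0 x (u + u') w = g0 x u w + g0 x u' w := by
  simp only [g0, hh_add_left, Complex.add_re]
theorem g0_add_right (x u w w' : EE) : g0 x u (w + w') = g0 x u w + g0 x u w' := by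
  simp only [g0, hh_add_right, Complex.add_re]
theorem g0_smul_left (x : EE) (c : ℝ) (u w : EE) : g0 x (c • u) w = c * g0 x u w := by
  rw [g0, g0, rsmul_eq, hh_smul_left, Complex.re_ofReal_mul]
theorem g0_smul_right (x : EE) (c : ℝ) (u w : EE) : g0 x u (c • w) = c * g0 x u w := by
  rw [g0, g0, rsmul_eq, hh_smul_right, Complex.conj_ofReal, Complex.re_ofReal_mul]
theorem al_add (x u u' : EE) : al x (u + u') = al x u + al x u' := by
  simp only [al, ip_add_left]; ring
theorem al_smul (x : EE) (c : ℂ) (u : EE) : al x (c • u) = c * al x u := by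
  simp only [al, ip_smul_left]; ring

theorem Gam_add_left (f : EE → ℝ) (x u u' w : EE) :
    Gam f x (u + u') w = Gam f x u w + Gam f x u' w := by
  simp only [Gam, Gam0, al_add, map_add, g0_add_left, add_smul, smul_add]; abel
theorem Gam_add_right (f : EE → ℝ) (x u w w' : EE) :
    Gam f x u (w + w') = Gam f x u w + Gam f x u w' := by
  simp only [Gam, Gam0, al_add, map_add, g0_add_right, add_smul, smul_add]; abel
theorem Gam_smul_left (f : EE → ℝ) (x : EE) (c : ℝ) (u w : EE) :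
    Gam f x (c • u) w = c • Gam f x u w := by
  have h : al x (c • u) = c * al x u := by rw [rsmul_eq, al_smul]
  simp only [Gam, Gam0, h, map_smul, g0_smul_left, smul_eq_mul]
  simp only [rsmul_eq, Complex.ofReal_mul]
  module
theorem Gam_smul_right (f : EE → ℝ) (x : EE) (c : ℝ) (u w : EE) :
    Gam f x u (c • w) = c • Gam f x u w := by
  have h : al x (c • w) = c * al x w := by rw [rsmul_eq, al_smul]
  simp only [Gam, Gam0, h, map_smul, g0_smul_right, smul_eq_mul]
  simp only [rsmul_eq, Complex.ofReal_mul]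
  module

/-- The metric `exp (2 f) g0` as a bilinear map. -/
noncomputable def gg (f : EE → ℝ) (x : EE) : EE →L[ℝ] EE →L[ℝ] ℝ :=
  (LinearMap.mk₂ ℝ (fun u w => Real.exp (2 * f x) * g0 x u w)
    (fun u u' w => by rw [g0_add_left]; ring)
    (fun c u w => by rw [g0_smul_left, smul_eq_mul]; ring)
    (fun u w w' => by rw [g0_add_right]; ring)
    (fun c u w => by rw [g0_smul_right, smul_eq_mul]; ring)).toContinuousBilinearMap

theorem gg_apply (f : EE → ℝ) (x u w : EE) : gg f x u w = Real.exp (2 * f x) * g0 x u w := rfl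

/-- The Christoffel map as a bilinear map. -/
noncomputable def GamL (f : EE → ℝ) (x : EE) : EE →L[ℝ] EE →L[ℝ] EE :=
  (LinearMap.mk₂ ℝ (fun u w => Gam f x u w) (Gam_add_left f x) (Gam_smul_left f x)
    (Gam_add_right f x) (Gam_smul_right f x)).toContinuousBilinearMap

theorem GamL_apply (f : EE → ℝ) (x u w : EE) : GamL f x u w = Gam f x u w := rfl

/-- The geodesic vector field. -/
noncomputable def XX (f : EE → ℝ) (p : EE × EE) : EE × EE := (p.2, -Gam f p.1 p.2 p.2)

/-- The energy. -/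
noncomputable def en (f : EE → ℝ) (p : EE × EE) : ℝ := gg f p.1 p.2 p.2

/-- The Liouville density. -/
noncomputable def rho (f : EE → ℝ) (p : EE × EE) : ℝ := Real.exp (8 * f p.1) / Dd p.1 ^ 6

/-- The `g0` Hessian of `f`. -/
noncomputable def Hess (f : EE → ℝ) (x u w : EE) : ℝ :=
  fderiv ℝ (fun y => fderiv ℝ f y w) x u - fderiv ℝ f x (Gam0 x u w)

noncomputable def TT (f : EE → ℝ) (x u w : EE) : ℝ :=
  Hess f x u w - fderiv ℝ f x u * fderiv ℝ f x w + 1 / 2 * fderiv ℝ f x (NN f x) * g0 x u w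

/-- A complex linear isometry from the Euclidean metric to `hh x`. -/
noncomputable def L0 (x w : EE) : EE :=
  Real.sqrt (Dd x) • (w - (ip w x / (1 + Real.sqrt (Dd x) : ℝ)) • x)

/-- Its inverse. -/
noncomputable def Linv0 (x v : EE) : EE :=
  (Real.sqrt (Dd x))⁻¹ • (v + (ip v x / (Real.sqrt (Dd x) * (1 + Real.sqrt (Dd x)) : ℝ)) • x)

/-- The frame of the orthogonal complement of `p.2`. -/
noncomputable def frame (p : EE × EE) : Fin 3 → EE :=
  ![Complex.I • p.2, L0 p.1 (perp (Linv0 p.1 p.2)), Complex.I • L0 p.1 (perp (Linv0 p.1 p.2))]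

/-- The curvature matrix. -/
noncomputable def Kmat (f : EE → ℝ) (p : EE × EE) : M3 :=
  fun i j => -gg f p.1 (curv (Gam f) p.1 (frame p j) p.2 p.2) (frame p i)

/-- The rotation matrix of the frame. -/
noncomputable def Omat (f : EE → ℝ) (p : EE × EE) : M3 :=
  fun i j => gg f p.1 (fderiv ℝ (fun q => frame q j) p (XX f p) + Gam f p.1 p.2 (frame p j))
    (frame p i)

/-- Initial condition of the Jacobi field with value `y`. -/
noncomputable def xi (f : EE → ℝ) (p : EE × EE) (y : EE) : EE × EE :=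
  (y, y + gg f p.1 y (Complex.I • p.2) • (Complex.I • p.2) - Gam f p.1 p.2 y)

noncomputable def Ymat (f : EE → ℝ) (φ : ℝ → EE × EE → EE × EE)
    (M : ℝ → EE × EE → (EE × EE) →L[ℝ] (EE × EE)) (p : EE × EE) (t : ℝ) : M3 :=
  fun i j => gg f (φ t p).1 (M t p (xi f p (frame p j))).1 (frame (φ t p) i)

noncomputable def Hmat (f : EE → ℝ) (φ : ℝ → EE × EE → EE × EE)
    (M : ℝ → EE × EE → (EE × EE) →L[ℝ] (EE × EE)) (p : EE × EE) (t : ℝ) : M3 :=
  fun i j => gg f (φ t p).1 ((M t p (xi f p (frame p j))).2 +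
    Gam f (φ t p).1 (φ t p).2 (M t p (xi f p (frame p j))).1) (frame (φ t p) i)

/-- A smooth and small conformal factor. -/
structure Conf (f : EE → ℝ) : Prop where
  smooth : ∀ n : ℕ, ContDiffOn ℝ n f Bl
  fb : ∀ x ∈ Bl, |f x| ≤ 1 / 100
  dfb : ∀ x ∈ Bl, ∀ u, (fderiv ℝ f x u) ^ 2 ≤ 1 / 10000 * g0 x u u
  Tb : ∀ x ∈ Bl, ∀ u, |TT f x u u| ≤ 1 / 100 * g0 x u u

/-- Complex 3 by 3 matrices. -/
abbrev C3 := Matrix (Fin 3) (Fin 3) ℂ

def lift1 (x : EE) : Fin 3 → ℂ := ![x 0, x 1, 1]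

def lift0 (u : EE) : Fin 3 → ℂ := ![u 0, u 1, 0]

noncomputable def jj (A : C3) (x : EE) : ℂ := (A *ᵥ lift1 x) 2

noncomputable def cc (A : C3) (u : EE) : ℂ := (A *ᵥ lift0 u) 2

/-- The projective action on the ball. -/
noncomputable def mob (A : C3) (x : EE) : EE :=
  !₂[(A *ᵥ lift1 x) 0 / jj A x, (A *ᵥ lift1 x) 1 / jj A x]

/-- Its derivative. -/
noncomputable def dmob (A : C3) (x u : EE) : EE :=
  (jj A x)⁻¹ • (!₂[(A *ᵥ lift0 u) 0, (A *ᵥ lift0 u) 1] - cc A u • mob A x)

open Classical in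
/-- The action on the tangent bundle. -/
noncomputable def mobT (A : C3) (p : EE × EE) : EE × EE :=
  if p.1 ∈ Bl then (mob A p.1, dmob A p.1 p.2) else p

/-- Normalisation to unit length. -/
noncomputable def nrm (f : EE → ℝ) (p : EE × EE) : EE × EE :=
  (p.1, (Real.sqrt (en f p))⁻¹ • p.2)

open Classical in
/-- Sum of the translates of a function on the ball. -/
noncomputable def ext {G : Type} [Group G] (ρ : G →* C3) (F : EE → ℝ) (x : EE) : ℝ :=
  if x ∈ Bl then ∑' a : G, F (mob (ρ a) x) else 0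

/-- The rescaled profile. -/
noncomputable def f0 (F : EE → ℝ) (ε r : ℝ) (x : EE) : ℝ := ε * r ^ 2 * F (r⁻¹ • x)

/-- The cut-off, equal to one on the ball of radius `r` and to zero outside the ball of radius
`2 r`. -/
noncomputable def b0 (r : ℝ) (x : EE) : ℝ := max 0 (min 1 (2 - ‖x‖ / r))

/-- Deviation of the curvature in the complex direction. -/
noncomputable def d1 (f : EE → ℝ) (p : EE × EE) : ℝ := Kmat f p 0 0 - 4

/-- Deviation of the curvature in the totally real directions. -/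
noncomputable def dw (f : EE → ℝ) (p : EE × EE) : ℝ := Kmat f p 1 1 + Kmat f p 2 2 - 2

/-- The second order functional on the unit tangent bundle. -/
noncomputable def PsiT (f β : EE → ℝ) (φ : ℝ → EE × EE → EE × EE) (η e τ : ℝ) (q : EE × EE) : ℝ :=
  1 / 8 * dw f q * (∫ s in (-τ)..0, dw f (φ s q)) -
    1 / 16 * d1 f q * (∫ s in (-τ)..0, d1 f (φ s q)) +
    1 / 4 * (d1 f q - 2 * dw f q) - η * e ^ 2 * τ * β q.1

/-- The vectors of length between one and two. -/
def shell (f : EE → ℝ) : Set (EE × EE) := {p | p.1 ∈ Bl ∧ 1 ≤ en f p ∧ en f p ≤ 4}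

/-- The Liouville measure on a subset of the tangent bundle. -/
noncomputable def liou (f : EE → ℝ) (S : Set (EE × EE)) : Measure (EE × EE) :=
  (((volume : Measure EE).prod (volume : Measure EE)).restrict S).withDensity
    fun p => ENNReal.ofReal (rho f p)

/-- Membership in U(2,1). -/
def IsU21 (A : C3) : Prop := Aᴴ * Jm * A = Jm

end Pool.Agent.MP_019006_gt

end
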