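import Pool.Agent.Mg.F019006.G8e8c10
import Pool.Agent.Mg.F019006.G5031fe
import Pool.Agent.Mg.F019006.G60de2a
import Pool.Agent.Mg.F019006.G5c6f1b
import Pool.Agent.MP_019006_gt.JobDefs
import Pool.Agent.Mg.F019006.Ga63dad

section

set_option autoImplicit false

open MeasureTheory Filter Topology Set Matrix

namespace Pool.Agent.MP_019006_gt

namespace Inv

theorem dmob_rsmul (A : C3) (x : EE) (c : ℝ) (u : EE) : dmob A x (c • u) = c • dmob A x u := by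
  rw [rsmul_eq, rsmul_eq, dmob_smul]

theorem dmob_sub (A : C3) (x u w : EE) : dmob A x (u - w) = dmob A x u - dmob A x w :=
  (Mob.dC A x).map_sub u w

theorem dmob_neg (A : C3) (x u : EE) : dmob A x (-u) = -dmob A x u :=
  (Mob.dC A x).map_neg u

theorem g0_mob {A : C3} (hA : IsU21 A) {x : EE} (hx : x ∈ Bl) (u w : EE) :
    g0 (mob A x) (dmob A x u) (dmob A x w) = g0 x u w := by
  rw [g0, g0, hh_mob hA hx]

theorem gg_mob {A : C3} (hA : IsU21 A) {f : EE → ℝ} (hfA : ∀ x ∈ Bl, f (mob A x) = f x)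
    {x : EE} (hx : x ∈ Bl) (u w : EE) :
    gg f (mob A x) (dmob A x u) (dmob A x w) = gg f x u w := by
  rw [gg_apply, gg_apply, hfA x hx, g0_mob hA hx]

theorem eq_zero_of_g0 {x : EE} (hx : x ∈ Bl) {u : EE} (h : g0 x u u = 0) : u = 0 := by
  have h1 := (g0_bounds hx u).1
  rw [h] at h1
  have h2 : ‖u‖ ^ 2 = 0 := le_antisymm h1 (sq_nonneg _)
  exact norm_eq_zero.1 (pow_eq_zero_iff two_ne_zero |>.1 h2)

theorem dmob_surj {A : C3} (hA : IsU21 A) {x : EE} (hx : x ∈ Bl) (z : EE) :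
    ∃ y, dmob A x y = z := by
  have hinj : Function.Injective (Mob.dC A x : EE →ₗ[ℂ] EE) := by
    rw [injective_iff_map_eq_zero]
    intro u hu
    have hu' : dmob A x u = 0 := hu
    apply eq_zero_of_g0 hx
    rw [← g0_mob hA hx, hu']
    simp [g0, hh, ip]
  exact LinearMap.injective_iff_surjective.1 hinj z

theorem diffAt {f : EE → ℝ} (hf : ∀ n : ℕ, ContDiffOn ℝ n f Bl) {x : EE} (hx : x ∈ Bl) :
    DifferentiableAt ℝ f x :=
  ((hf 1).contDiffAt (isOpen_Bl.mem_nhds hx)).differentiableAt (by simp)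

theorem diffAt2 {f : EE → ℝ} (hf : ∀ n : ℕ, ContDiffOn ℝ n f Bl) {x : EE} (hx : x ∈ Bl) :
    DifferentiableAt ℝ (fderiv ℝ f) x :=
  (((hf 2).contDiffAt (isOpen_Bl.mem_nhds hx)).fderiv_right (m := 1)
    (by norm_num)).differentiableAt (by simp)

theorem hasFDerivAt_mob {A : C3} (hA : IsU21 A) {x : EE} (hx : x ∈ Bl) :
    HasFDerivAt (mob A) ((Mob.dC A x).restrictScalars ℝ) x :=
  (Mob.hasFDerivAt_mobC (jj_ne hA hx)).restrictScalars ℝ

theorem mobT_of_mem (A : C3) {p : EE × EE} (hp : p.1 ∈ Bl) :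
    mobT A p = (mob A p.1, dmob A p.1 p.2) := by
  unfold mobT
  rw [if_pos hp]

theorem mobT_of_not_mem (A : C3) {p : EE × EE} (hp : p.1 ∉ Bl) : mobT A p = p := by
  unfold mobT
  rw [if_neg hp]

theorem mobT_mem {A : C3} (hA : IsU21 A) {p : EE × EE} (hp : p.1 ∈ Bl) : (mobT A p).1 ∈ Bl := by
  rw [mobT_of_mem A hp]
  exact mob_mem hA hp

theorem mobT_mul {A B : C3} (hA : IsU21 A) (hB : IsU21 B) {p : EE × EE} (hp : p.1 ∈ Bl) :
    mobT (A * B) p = mobT A (mobT B p) := by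
  rw [mobT_of_mem A (mobT_mem hB hp), mobT_of_mem B hp, mobT_of_mem _ hp, mob_mul hB hp,
    dmob_mul hA hB hp]

theorem mobT_one (p : EE × EE) : mobT 1 p = p := by
  by_cases hp : p.1 ∈ Bl
  · rw [mobT_of_mem _ hp, mob_one, dmob_one]
  · exact mobT_of_not_mem _ hp

theorem hasFDerivAt_mobT {A : C3} (hA : IsU21 A) {p : EE × EE} (hp : p.1 ∈ Bl) :
    HasFDerivAt (mobT A) (fderiv ℝ (mobT A) p) p :=
  (Mob.hasFDerivAt_mobT hA hp).differentiableAt.hasFDerivAt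

end Inv

open Inv

theorem fderiv_f_mob {A : C3} (hA : IsU21 A) {f : EE → ℝ} (hf : ∀ n : ℕ, ContDiffOn ℝ n f Bl)
    (hfA : ∀ x ∈ Bl, f (mob A x) = f x) {x : EE} (hx : x ∈ Bl) (u : EE) :
    fderiv ℝ f (mob A x) (dmob A x u) = fderiv ℝ f x u := by
  have h1 := (diffAt hf (mob_mem hA hx)).hasFDerivAt.comp x (hasFDerivAt_mob hA hx)
  have h2 : f =ᶠ[𝓝 x] f ∘ mob A := by
    filter_upwards [isOpen_Bl.mem_nhds hx] with y hy
    exact (hfA y hy).symm
  rw [(h1.congr_of_eventuallyEq h2).fderiv]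
  rfl

theorem Inv.NN_mob {A : C3} (hA : IsU21 A) {f : EE → ℝ} (hf : ∀ n : ℕ, ContDiffOn ℝ n f Bl)
    (hfA : ∀ x ∈ Bl, f (mob A x) = f x) {x : EE} (hx : x ∈ Bl) :
    NN f (mob A x) = dmob A x (NN f x) := by
  have hx' := mob_mem hA hx
  obtain ⟨y, hy⟩ := dmob_surj hA hx (NN f (mob A x) - dmob A x (NN f x))
  have h1 : g0 (mob A x) (NN f (mob A x)) (dmob A x y) =
      g0 (mob A x) (dmob A x (NN f x)) (dmob A x y) := by
    rw [g0_NN f hx', g0_mob hA hx, g0_NN f hx, fderiv_f_mob hA hf hfA hx]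
  have h2 : NN f (mob A x) = dmob A x y + dmob A x (NN f x) := by rw [hy]; abel
  have h3 : g0 (mob A x) (dmob A x y) (dmob A x y) = 0 := by
    rw [h2, g0_add_left] at h1
    linarith
  rw [h2, eq_zero_of_g0 hx' h3, zero_add]

theorem Inv.Hess_mob {A : C3} (hA : IsU21 A) {f : EE → ℝ} (hf : ∀ n : ℕ, ContDiffOn ℝ n f Bl)
    (hfA : ∀ x ∈ Bl, f (mob A x) = f x) {x : EE} (hx : x ∈ Bl) (u w : EE) :
    Hess f (mob A x) (dmob A x u) (dmob A x w) = Hess f x u w := by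
  have hx' := mob_mem hA hx
  have h1 := (diffAt2 hf hx').hasFDerivAt.comp x (hasFDerivAt_mob hA hx)
  have h2 : HasFDerivAt (fun y => dmob A y w) (fderiv ℝ (fun y => dmob A y w) x) x :=
    ((Mob.hasFDerivAt_dmob1C (jj_ne hA hx) w).restrictScalars ℝ).differentiableAt.hasFDerivAt
  have h3 := h1.clm_apply h2
  have h4 : (fun y => fderiv ℝ f y w) =ᶠ[𝓝 x]
      fun y => (fderiv ℝ f ∘ mob A) y (dmob A y w) := by
    filter_upwards [isOpen_Bl.mem_nhds hx] with y hy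
    exact (fderiv_f_mob hA hf hfA hy w).symm
  have h5 : fderiv ℝ (fun y => fderiv ℝ f y w) x u =
      fderiv ℝ f (mob A x) (fderiv ℝ (fun y => dmob A y w) x u) +
        fderiv ℝ (fderiv ℝ f) (mob A x) (dmob A x u) (dmob A x w) := by
    rw [(h3.congr_of_eventuallyEq h4).fderiv]
    rfl
  have h6 : fderiv ℝ (fun y => fderiv ℝ f y (dmob A x w)) (mob A x) (dmob A x u) =
      fderiv ℝ (fderiv ℝ f) (mob A x) (dmob A x u) (dmob A x w) := by
    rw [((diffAt2 hf hx').hasFDerivAt.clm_apply (hasFDerivAt_const (dmob A x w) _)).fderiv]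
    simp
  unfold Hess
  rw [h5, h6, ← fderiv_f_mob hA hf hfA hx (Gam0 x u w), ← fderiv_dmob hA hx, map_add]
  ring

theorem TT_mob {A : C3} (hA : IsU21 A) {f : EE → ℝ} (hf : ∀ n : ℕ, ContDiffOn ℝ n f Bl)
    (hfA : ∀ x ∈ Bl, f (mob A x) = f x) {x : EE} (hx : x ∈ Bl) (u w : EE) :
    TT f (mob A x) (dmob A x u) (dmob A x w) = TT f x u w := by
  unfold TT
  rw [Hess_mob hA hf hfA hx, NN_mob hA hf hfA hx, g0_mob hA hx]
  simp only [fderiv_f_mob hA hf hfA hx]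

theorem Gam_mob {A : C3} (hA : IsU21 A) {f : EE → ℝ} (hf : ∀ n : ℕ, ContDiffOn ℝ n f Bl)
    (hfA : ∀ x ∈ Bl, f (mob A x) = f x) {x : EE} (hx : x ∈ Bl) (u w : EE) :
    fderiv ℝ (fun y => dmob A y w) x u + Gam f (mob A x) (dmob A x u) (dmob A x w) =
      dmob A x (Gam f x u w) := by
  unfold Gam
  rw [NN_mob hA hf hfA hx, g0_mob hA hx, dmob_sub, dmob_add, dmob_add, dmob_rsmul, dmob_rsmul,
    dmob_rsmul, ← fderiv_dmob hA hx]
  simp only [fderiv_f_mob hA hf hfA hx]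
  abel

theorem en_mobT {A : C3} (hA : IsU21 A) {f : EE → ℝ} (hfA : ∀ x ∈ Bl, f (mob A x) = f x)
    (p : EE × EE) : en f (mobT A p) = en f p := by
  by_cases hp : p.1 ∈ Bl
  · rw [mobT_of_mem A hp]
    exact gg_mob hA hfA hp _ _
  · rw [mobT_of_not_mem A hp]

theorem nrm_mobT {A : C3} (hA : IsU21 A) {f : EE → ℝ} (hfA : ∀ x ∈ Bl, f (mob A x) = f x)
    {p : EE × EE} (hp : p.1 ∈ Bl) : nrm f (mobT A p) = mobT A (nrm f p) := by
  have hp' : (nrm f p).1 ∈ Bl := hp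
  rw [mobT_of_mem A hp']
  unfold nrm
  rw [en_mobT hA hfA, mobT_of_mem A hp, dmob_rsmul]

theorem Inv.fderiv_mobT_XX {A : C3} (hA : IsU21 A) {f : EE → ℝ}
    (hf : ∀ n : ℕ, ContDiffOn ℝ n f Bl) (hfA : ∀ x ∈ Bl, f (mob A x) = f x) {q : EE × EE}
    (hq : q.1 ∈ Bl) : fderiv ℝ (mobT A) q (XX f q) = XX f (mobT A q) := by
  rw [fderiv_mobT hA hq, mobT_of_mem A hq]
  unfold XX
  simp only [dmob_neg, ← Gam_mob hA hf hfA hq]
  congr 1
  abel

theorem flow_mobT {A : C3} (hA : IsU21 A) {f : EE → ℝ} (hf : ∀ n : ℕ, ContDiffOn ℝ n f Bl)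
    (hfA : ∀ x ∈ Bl, f (mob A x) = f x) {φ : ℝ → EE × EE → EE × EE}
    {M : ℝ → EE × EE → (EE × EE) →L[ℝ] (EE × EE)} (hφ : IsFlow OO (XX f) φ M) (t : ℝ)
    (p : EE × EE) : φ t (mobT A p) = mobT A (φ t p) := by
  by_cases hp : p.1 ∈ Bl
  · have hpO : p ∈ OO := mem_OO.2 hp
    have h0 : (0 : ℝ) ∈ Ioo (-(|t| + 1)) (|t| + 1) := by
      constructor <;> linarith [abs_nonneg t]
    have ht : t ∈ Ioo (-(|t| + 1)) (|t| + 1) := by
      constructor <;> linarith [le_abs_self t, neg_abs_le t]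
    have h := hφ.uniq (fun s => mobT A (φ s p)) _ _ 0 h0 (fun s _ => by
      have hq : (φ s p).1 ∈ Bl := mem_OO.1 (hφ.mem s p hpO)
      refine ⟨mem_OO.2 (mobT_mem hA hq), ?_⟩
      rw [← fderiv_mobT_XX hA hf hfA hq]
      exact (hasFDerivAt_mobT hA hq).comp_hasDerivAt s (hφ.deriv s p hpO)) t ht
    simp only [sub_zero, hφ.zero] at h
    exact h.symm
  · have hpO : p ∉ OO := fun h => hp (mem_OO.1 h)
    rw [mobT_of_not_mem A hp, hφ.junk t p hpO, mobT_of_not_mem A hp]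

/-- The change of frame matrix. -/
noncomputable def Inv.rot (A : C3) (f : EE → ℝ) (p : EE × EE) : M3 :=
  fun k j => gg f (mob A p.1) (frame (mobT A p) j) (dmob A p.1 (frame p k))

theorem Inv.frame_mobT {A : C3} (hA : IsU21 A) {f : EE → ℝ}
    (hfA : ∀ x ∈ Bl, f (mob A x) = f x) {p : EE × EE} (hp : p.1 ∈ Bl) (h1 : en f p = 1)
    (j : Fin 3) : frame (mobT A p) j = dmob A p.1 (rot A f p 0 j • frame p 0 +
      rot A f p 1 j • frame p 1 + rot A f p 2 j • frame p 2) := by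
  obtain ⟨y, hy⟩ := dmob_surj hA hp (frame (mobT A p) j)
  have h1' : en f (mobT A p) = 1 := by rw [en_mobT hA hfA, h1]
  have h2 := (frame_orth (mobT_mem hA hp) h1' j j).2
  have h3 : gg f p.1 y p.2 = 0 := by
    rw [← gg_mob hA hfA hp, hy, ← h2, mobT_of_mem A hp]
  have h4 : ∀ k, gg f p.1 y (frame p k) = rot A f p k j := fun k => by
    rw [← gg_mob hA hfA hp, hy]; rfl
  have h5 := frame_span hp h1 y
  rw [h3, zero_smul, zero_add, Fin.sum_univ_three, h4, h4, h4] at h5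
  rw [← h5, hy]

theorem Inv.rot_orth {A : C3} (hA : IsU21 A) {f : EE → ℝ}
    (hfA : ∀ x ∈ Bl, f (mob A x) = f x) {p : EE × EE} (hp : p.1 ∈ Bl) (h1 : en f p = 1) :
    (rot A f p)ᵀ * rot A f p = 1 := by
  ext i j
  have h1' : en f (mobT A p) = 1 := by rw [en_mobT hA hfA, h1]
  have h2 := (frame_orth (mobT_mem hA hp) h1' i j).1
  rw [← h2, frame_mobT hA hfA hp h1 j, dmob_add, dmob_add, dmob_rsmul, dmob_rsmul, dmob_rsmul]
  simp only [map_add, map_smul, smul_eq_mul, Matrix.mul_apply, Matrix.transpose_apply,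
    Fin.sum_univ_three]
  have e : (mobT A p).1 = mob A p.1 := by rw [mobT_of_mem A hp]
  rw [e]
  have h4 : ∀ k, gg f (mob A p.1) (frame (mobT A p) i) (dmob A p.1 (frame p k)) = rot A f p k i :=
    fun k => rfl
  rw [h4, h4, h4]
  ring

theorem Inv.TT_expand {f : EE → ℝ} (hf : ∀ n : ℕ, ContDiffOn ℝ n f Bl) {x : EE} (hx : x ∈ Bl)
    (a b c : ℝ) (u v w : EE) : TT f x (a • u + b • v + c • w) (a • u + b • v + c • w) =
      a * a * TT f x u u + b * b * TT f x v v + c * c * TT f x w w + 2 * (a * b) * TT f x u v +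
        2 * (a * c) * TT f x u w + 2 * (b * c) * TT f x v w := by
  have h : ∀ z, TT f x z (a • u + b • v + c • w) =
      a * TT f x u z + b * TT f x v z + c * TT f x w z := fun z => by
    rw [TT_symm hf hx, TT_add_left, TT_add_left, TT_smul_left, TT_smul_left, TT_smul_left]
  rw [TT_add_left, TT_add_left, TT_smul_left, TT_smul_left, TT_smul_left, h, h, h,
    TT_symm hf hx v u, TT_symm hf hx w u, TT_symm hf hx w v]
  ring

theorem d1_dw_mobT {A : C3} (hA : IsU21 A) {f : EE → ℝ} (hf : ∀ n : ℕ, ContDiffOn ℝ n f Bl)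
    (hfA : ∀ x ∈ Bl, f (mob A x) = f x) {p : EE × EE} (hp : p.1 ∈ Bl) (h1 : en f p = 1) :
    d1 f (mobT A p) = d1 f p ∧ dw f (mobT A p) = dw f p := by
  have h1' : en f (mobT A p) = 1 := by rw [en_mobT hA hfA, h1]
  have hp' := mobT_mem hA hp
  have e1 : (mobT A p).1 = mob A p.1 := by rw [mobT_of_mem A hp]
  have e2 : (mobT A p).2 = dmob A p.1 p.2 := by rw [mobT_of_mem A hp]
  have e0 : frame (mobT A p) 0 = dmob A p.1 (frame p 0) := by
    change Complex.I • (mobT A p).2 = dmob A p.1 (Complex.I • p.2)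
    rw [e2, dmob_smul]
  have h0 : TT f (mob A p.1) (frame (mobT A p) 0) (frame (mobT A p) 0) =
      TT f p.1 (frame p 0) (frame p 0) := by rw [e0, TT_mob hA hf hfA hp]
  have hr : rot A f p * (rot A f p)ᵀ = 1 := mul_eq_one_comm.1 (rot_orth hA hfA hp h1)
  have hs : ∀ k l, rot A f p k 0 * rot A f p l 0 + rot A f p k 1 * rot A f p l 1 +
      rot A f p k 2 * rot A f p l 2 = (1 : M3) k l := fun k l => by
    rw [← hr]
    simp only [Matrix.mul_apply, Matrix.transpose_apply, Fin.sum_univ_three]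
  have ht : ∀ j, TT f (mob A p.1) (frame (mobT A p) j) (frame (mobT A p) j) = _ := fun j => by
    rw [frame_mobT hA hfA hp h1 j, TT_mob hA hf hfA hp, TT_expand hf hp]
  have t0 := ht 0
  have t1 := ht 1
  have t2 := ht 2
  have s00 := hs 0 0
  have s11 := hs 1 1
  have s22 := hs 2 2
  have s01 := hs 0 1
  have s02 := hs 0 2
  have s12 := hs 1 2
  rw [Matrix.one_apply_eq] at s00 s11 s22
  rw [Matrix.one_apply_ne (by decide)] at s01 s02 s12
  unfold d1 dw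
  simp only [Kmat_eq hf hp' h1', Kmat_eq hf hp h1, e1, e2, hfA _ hp, TT_mob hA hf hfA hp]
  refine ⟨by rw [h0], ?_⟩
  linear_combination t0 + t1 + t2 - h0 + TT f p.1 (frame p 0) (frame p 0) * s00 +
    TT f p.1 (frame p 1) (frame p 1) * s11 + TT f p.1 (frame p 2) (frame p 2) * s22 +
    2 * TT f p.1 (frame p 0) (frame p 1) * s01 + 2 * TT f p.1 (frame p 0) (frame p 2) * s02 +
    2 * TT f p.1 (frame p 1) (frame p 2) * s12

theorem Inv.xi_add (f : EE → ℝ) (p : EE × EE) (y z : EE) :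
    xi f p (y + z) = xi f p y + xi f p z := by
  unfold xi
  rw [Gam_add_right, map_add, Prod.mk_add_mk]
  congr 1
  rw [_root_.add_apply, add_smul]
  abel

theorem Inv.xi_smul (f : EE → ℝ) (p : EE × EE) (c : ℝ) (y : EE) :
    xi f p (c • y) = c • xi f p y := by
  unfold xi
  rw [Gam_smul_right, (gg f p.1).map_smul c y, Prod.smul_mk]
  congr 1
  rw [_root_.smul_apply, smul_eq_mul, mul_smul, smul_sub, smul_add]

theorem Inv.fderiv_mobT_xi {A : C3} (hA : IsU21 A) {f : EE → ℝ}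
    (hf : ∀ n : ℕ, ContDiffOn ℝ n f Bl) (hfA : ∀ x ∈ Bl, f (mob A x) = f x) {p : EE × EE}
    (hp : p.1 ∈ Bl) (y : EE) :
    fderiv ℝ (mobT A) p (xi f p y) = xi f (mobT A p) (dmob A p.1 y) := by
  rw [fderiv_mobT hA hp, mobT_of_mem A hp]
  unfold xi
  simp only
  congr 1
  rw [dmob_sub, dmob_add, dmob_rsmul, ← dmob_smul, gg_mob hA hfA hp, Gam_symm f p.1 p.2 y,
    ← Gam_mob hA hf hfA hp, Gam_symm f (mob A p.1) (dmob A p.1 p.2)]
  abel

theorem Inv.M_mobT {A : C3} (hA : IsU21 A) {f : EE → ℝ} (hf : ∀ n : ℕ, ContDiffOn ℝ n f Bl)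
    (hfA : ∀ x ∈ Bl, f (mob A x) = f x) {φ : ℝ → EE × EE → EE × EE}
    {M : ℝ → EE × EE → (EE × EE) →L[ℝ] (EE × EE)} (hφ : IsFlow OO (XX f) φ M)
    {p : EE × EE} (hp : p.1 ∈ Bl) (t : ℝ) (ξ : EE × EE) :
    M t (mobT A p) (fderiv ℝ (mobT A) p ξ) = fderiv ℝ (mobT A) (φ t p) (M t p ξ) := by
  have hpO : p ∈ OO := mem_OO.2 hp
  have hq : (φ t p).1 ∈ Bl := mem_OO.1 (hφ.mem t p hpO)
  have h1 := (hφ.fderiv t _ (mem_OO.2 (mobT_mem hA hp))).comp p (hasFDerivAt_mobT hA hp)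
  have h2 := (hasFDerivAt_mobT hA hq).comp p (hφ.fderiv t p hpO)
  have h3 : φ t ∘ mobT A = mobT A ∘ φ t := funext fun q => flow_mobT hA hf hfA hφ t q
  rw [h3] at h1
  exact congrArg (fun L : (EE × EE) →L[ℝ] (EE × EE) => L ξ) (h1.unique h2)

theorem Ymat_mobT {A : C3} (hA : IsU21 A) {f : EE → ℝ} (hf : ∀ n : ℕ, ContDiffOn ℝ n f Bl)
    (hfA : ∀ x ∈ Bl, f (mob A x) = f x) {φ : ℝ → EE × EE → EE × EE}
    {M : ℝ → EE × EE → (EE × EE) →L[ℝ] (EE × EE)} (hφ : IsFlow OO (XX f) φ M)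
    {p : EE × EE} (hp : p.1 ∈ Bl) (h1 : en f p = 1) (t : ℝ) :
    ∃ R S : M3, Rᵀ * R = 1 ∧ Sᵀ * S = 1 ∧ Ymat f φ M (mobT A p) t = R * Ymat f φ M p t * S := by
  have hpO : p ∈ OO := mem_OO.2 hp
  have hq : (φ t p).1 ∈ Bl := mem_OO.1 (hφ.mem t p hpO)
  have hq1 : en f (φ t p) = 1 := by rw [en_flow hf hφ, h1]
  refine ⟨(rot A f (φ t p))ᵀ, rot A f p, ?_, rot_orth hA hfA hp h1, ?_⟩
  · rw [Matrix.transpose_transpose]
    exact mul_eq_one_comm.1 (rot_orth hA hfA hq hq1)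
  ext i j
  have e1 : (mobT A (φ t p)).1 = mob A (φ t p).1 := by rw [mobT_of_mem A hq]
  have h2 : Ymat f φ M (mobT A p) t i j = gg f (φ t p).1
      (M t p (xi f p (rot A f p 0 j • frame p 0 + rot A f p 1 j • frame p 1 +
        rot A f p 2 j • frame p 2))).1
      (rot A f (φ t p) 0 i • frame (φ t p) 0 + rot A f (φ t p) 1 i • frame (φ t p) 1 +
        rot A f (φ t p) 2 i • frame (φ t p) 2) := by
    unfold Ymat
    rw [frame_mobT hA hfA hp h1 j, ← fderiv_mobT_xi hA hf hfA hp, M_mobT hA hf hfA hφ hp,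
      flow_mobT hA hf hfA hφ, frame_mobT hA hfA hq hq1 i, fderiv_mobT hA hq, e1,
      gg_mob hA hfA hq]
  rw [h2]
  simp only [xi_add, xi_smul, map_add, map_smul, Prod.fst_add, Prod.smul_fst, _root_.add_apply,
    _root_.smul_apply, smul_eq_mul, Matrix.mul_apply, Matrix.transpose_apply, Fin.sum_univ_three,
    Ymat]
  ring

theorem mobT_measurePreserving {A B : C3} (hA : IsU21 A) (hB : IsU21 B) (hAB : A * B = 1)
    {f : EE → ℝ} (hfA : ∀ x ∈ Bl, f (mob A x) = f x)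
    {S : Set (EE × EE)} (hS : MeasurableSet S) (hSO : S ⊆ OO) (hinv : ∀ p ∈ S, mobT A p ∈ S)
    (hinv' : ∀ p ∈ S, mobT B p ∈ S) : MeasurePreserving (mobT A) (liou f S) (liou f S) := by
  have hBA : B * A = 1 := mul_eq_one_comm.1 hAB
  have hm : ∀ p ∈ S, p.1 ∈ Bl := fun p hp => mem_OO.1 (hSO hp)
  have : ((volume : Measure EE).prod (volume : Measure EE)).IsAddHaarMeasure :=
    Measure.prod.instIsAddHaarMeasure _ _
  refine measurePreserving_of_det ((volume : Measure EE).prod (volume : Measure EE)) hS (mobT A)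
    (measurable_mobT hA) (fderiv ℝ (mobT A))
    ⟨hinv, fun p hp q hq h => ?_, fun p hp => ⟨mobT B p, hinv' p hp, ?_⟩⟩
    (fun p hp => hasFDerivAt_mobT hA (hm p hp)) (rho f) (fun p _ => ?_) fun p hp => ?_
  · rw [← mobT_one p, ← mobT_one q, ← hBA, mobT_mul hB hA (hm p hp), mobT_mul hB hA (hm q hq), h]
  · rw [← mobT_mul hA hB (hm p hp), hAB, mobT_one]
  · unfold rho
    positivity
  · have h1 := (Dd_pos (hm p hp)).ne'
    have h2 := (Dd_pos (mob_mem hA (hm p hp))).ne'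
    rw [det_mobT hA (hm p hp), mobT_of_mem A (hm p hp)]
    unfold rho
    simp only [hfA _ (hm p hp)]
    field_simp

end Pool.Agent.MP_019006_gt

end

section

set_option autoImplicit false

open MeasureTheory Filter Topology Set Matrix
open scoped ENNReal

namespace Pool.Agent.MP_019006_gt

variable {P G : Type} [MeasurableSpace P] [Group G] [Countable G]

/-- Unfolding. -/
theorem weight_unfold (μ : Measure P) (S : Set P) (hSc : μ Sᶜ = 0)
    (act : G → P → P) (hact : ∀ a, MeasurePreserving (act a) μ μ)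
    (act1 : ∀ p ∈ S, act 1 p = p)
    (actmul : ∀ a b, ∀ p ∈ S, act (a * b) p = act a (act b p))
    (χ : P → ℝ≥0∞) (hχm : Measurable χ) (hχ : ∀ p ∈ S, ∑' a, χ (act a p) = 1)
    (u₀ : P → ℝ≥0∞) (hu₀ : Measurable u₀) :
    ∫⁻ p, χ p * ∑' a, u₀ (act a p) ∂μ = ∫⁻ p, u₀ p ∂μ := by
  have hae : ∀ᵐ p ∂μ, p ∈ S := hSc
  have h1 : ∀ a : G, ∫⁻ p, χ p * u₀ (act a p) ∂μ = ∫⁻ q, χ (act a⁻¹ q) * u₀ q ∂μ := by
    intro a
    have hm : Measurable fun q => χ (act a⁻¹ q) * u₀ q :=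
      (hχm.comp (hact a⁻¹).measurable).mul hu₀
    rw [← (hact a).lintegral_comp hm]
    refine lintegral_congr_ae (hae.mono fun p hp => ?_)
    simp only []
    rw [← actmul _ _ p hp, inv_mul_cancel, act1 p hp]
  calc ∫⁻ p, χ p * ∑' a, u₀ (act a p) ∂μ
      = ∫⁻ p, ∑' a, χ p * u₀ (act a p) ∂μ := by simp only [ENNReal.tsum_mul_left]
    _ = ∑' a, ∫⁻ p, χ p * u₀ (act a p) ∂μ :=
        lintegral_tsum fun a => (hχm.mul (hu₀.comp (hact a).measurable)).aemeasurable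
    _ = ∑' a : G, ∫⁻ q, χ (act a⁻¹ q) * u₀ q ∂μ := by simp only [h1]
    _ = ∫⁻ q, ∑' a : G, χ (act a⁻¹ q) * u₀ q ∂μ :=
        (lintegral_tsum fun a =>
          ((hχm.comp (hact a⁻¹).measurable).mul hu₀).aemeasurable).symm
    _ = ∫⁻ p, u₀ p ∂μ := by
        refine lintegral_congr_ae (hae.mono fun p hp => ?_)
        simp only []
        have h2 : ∑' a : G, χ (act a⁻¹ p) = 1 :=
          ((Equiv.inv G).tsum_eq (fun a => χ (act a p))).trans (hχ p hp)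
        rw [ENNReal.tsum_mul_right, h2, one_mul]

/-- The weighted integral of an invariant function does not depend on the weight. -/
theorem weight_lintegral (μ : Measure P) (S : Set P) (hSc : μ Sᶜ = 0)
    (act : G → P → P) (hact : ∀ a, MeasurePreserving (act a) μ μ)
    (act1 : ∀ p ∈ S, act 1 p = p)
    (actmul : ∀ a b, ∀ p ∈ S, act (a * b) p = act a (act b p))
    (χ₁ χ₂ : P → ℝ≥0∞) (h₁m : Measurable χ₁) (h₂m : Measurable χ₂)
    (h₁ : ∀ p ∈ S, ∑' a, χ₁ (act a p) = 1) (h₂ : ∀ p ∈ S, ∑' a, χ₂ (act a p) = 1)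
    (u : P → ℝ≥0∞) (hu : Measurable u) (uinv : ∀ a, ∀ p ∈ S, u (act a p) = u p) :
    ∫⁻ p, χ₁ p * u p ∂μ = ∫⁻ p, χ₂ p * u p ∂μ := by
  have hae : ∀ᵐ p ∂μ, p ∈ S := hSc
  rw [← weight_unfold μ S hSc act hact act1 actmul χ₁ h₁m h₁ (fun p => χ₂ p * u p) (h₂m.mul hu)]
  refine lintegral_congr_ae (hae.mono fun p hp => ?_)
  simp only [uinv _ p hp]
  rw [ENNReal.tsum_mul_right, h₂ p hp, one_mul]

/-- Existence of a weight supported in `K`. -/
theorem exists_weight (S : Set P) (hS : MeasurableSet S)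
    (act : G → P → P) (hact : ∀ a, Measurable (act a))
    (actS : ∀ a, ∀ p ∈ S, act a p ∈ S)
    (actmul : ∀ a b, ∀ p ∈ S, act (a * b) p = act a (act b p))
    (K : Set P) (hK : MeasurableSet K)
    (hKcov : ∀ p ∈ S, ∃ a, act a p ∈ K) (hKf : ∀ p ∈ S, {a | act a p ∈ K}.Finite) :
    ∃ χ : P → ℝ≥0∞, Measurable χ ∧ (∀ p, χ p ≤ K.indicator 1 p) ∧
      ∀ p ∈ S, ∑' a, χ (act a p) = 1 := by
  classical
  set N : P → ℝ≥0∞ := fun p => ∑' a, K.indicator 1 (act a p) with hN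
  have hNm : Measurable N :=
    Measurable.tsum fun a => (measurable_one.indicator hK).comp (hact a)
  have hNinv : ∀ b, ∀ p ∈ S, N (act b p) = N p := by
    intro b p hp
    simp only [hN, ← actmul _ _ p hp]
    exact (Equiv.mulRight b).tsum_eq (fun a => K.indicator (1 : P → ℝ≥0∞) (act a p))
  have hN1 : ∀ p ∈ S, 1 ≤ N p := by
    intro p hp
    obtain ⟨a, ha⟩ := hKcov p hp
    refine le_trans ?_ (ENNReal.le_tsum a)
    rw [indicator_of_mem ha]; rfl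
  have hNt : ∀ p ∈ S, N p ≠ ⊤ := by
    intro p hp
    have : N p = ∑ a ∈ (hKf p hp).toFinset, K.indicator (1 : P → ℝ≥0∞) (act a p) := by
      refine tsum_eq_sum fun a ha => ?_
      rw [indicator_of_notMem]
      simpa using ha
    rw [this]
    refine ENNReal.sum_ne_top.2 fun a _ => ?_
    by_cases h : act a p ∈ K <;> simp [h]
  refine ⟨(K ∩ S).indicator fun p => (N p)⁻¹, hNm.inv.indicator (hK.inter hS), fun p => ?_,
    fun p hp => ?_⟩
  · by_cases h : p ∈ K ∩ S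
    · rw [indicator_of_mem h, indicator_of_mem h.1]
      exact ENNReal.inv_le_one.2 (hN1 p h.2)
    · rw [indicator_of_notMem h]; exact zero_le
  · have : ∀ a, (K ∩ S).indicator (fun p => (N p)⁻¹) (act a p) =
        K.indicator (1 : P → ℝ≥0∞) (act a p) * (N p)⁻¹ := by
      intro a
      by_cases h : act a p ∈ K
      · rw [indicator_of_mem (show act a p ∈ K ∩ S from ⟨h, actS a p hp⟩), indicator_of_mem h,
          hNinv a p hp]
        simp
      · rw [indicator_of_notMem (fun h' => h h'.1), indicator_of_notMem h, zero_mul]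
    simp only [this]
    rw [ENNReal.tsum_mul_right]
    exact ENNReal.mul_inv_cancel (zero_lt_one.trans_le (hN1 p hp)).ne' (hNt p hp)

/-- A measure preserving map commuting with the action preserves weighted integrals of
invariant functions. -/
theorem weight_lintegral_comp (μ : Measure P) (S : Set P) (hSc : μ Sᶜ = 0)
    (act : G → P → P) (hact : ∀ a, MeasurePreserving (act a) μ μ)
    (act1 : ∀ p ∈ S, act 1 p = p)
    (actmul : ∀ a b, ∀ p ∈ S, act (a * b) p = act a (act b p))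
    (χ : P → ℝ≥0∞) (hχm : Measurable χ) (hχ : ∀ p ∈ S, ∑' a, χ (act a p) = 1)
    (T : P → P) (hT : MeasurePreserving T μ μ) (TS : ∀ p ∈ S, T p ∈ S)
    (comm : ∀ a, ∀ p ∈ S, T (act a p) = act a (T p))
    (u : P → ℝ≥0∞) (hu : Measurable u) (uinv : ∀ a, ∀ p ∈ S, u (act a p) = u p) :
    ∫⁻ p, χ p * u (T p) ∂μ = ∫⁻ p, χ p * u p ∂μ := by
  have hm : Measurable fun p => χ p * u p := hχm.mul hu
  rw [← hT.lintegral_comp hm]
  refine weight_lintegral μ S hSc act hact act1 actmul χ (fun p => χ (T p)) hχm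
    (hχm.comp hT.measurable) hχ (fun p hp => ?_) (fun p => u (T p)) (hu.comp hT.measurable)
    (fun a p hp => ?_)
  · simp only [comm _ p hp]
    exact hχ _ (TS p hp)
  · simp only [comm _ p hp]
    exact uinv a _ (TS p hp)

end Pool.Agent.MP_019006_gt

end

section

set_option autoImplicit false

open MeasureTheory Filter Topology Set Matrix
open scoped ENNReal

namespace Pool.Agent.MP_019006_gt

namespace Apx

/-- The abstract estimate: unfolding, invariance under a commuting map and a finite covering. -/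
theorem abs_bound {P G : Type} [MeasurableSpace P] [Group G] [Countable G]
    (μ : Measure P) (S : Set P) (hSc : μ Sᶜ = 0)
    (act : G → P → P) (hact : ∀ a, MeasurePreserving (act a) μ μ)
    (act1 : ∀ p ∈ S, act 1 p = p)
    (actmul : ∀ a b, ∀ p ∈ S, act (a * b) p = act a (act b p))
    (χ : P → ℝ≥0∞) (hχm : Measurable χ) (hχ : ∀ p ∈ S, ∑' a, χ (act a p) = 1)
    (T : P → P) (hT : MeasurePreserving T μ μ) (TS : ∀ p ∈ S, T p ∈ S)
    (comm : ∀ a, ∀ p ∈ S, T (act a p) = act a (T p))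
    (e k : P → ℝ≥0∞) (he : Measurable e) (hk : Measurable k)
    (einv : ∀ a, ∀ p ∈ S, e (act a p) = e p) (hek : ∀ p ∈ S, e p ≤ ∑' a, k (act a p))
    (B : Set P) (hB : MeasurableSet B) (F : Finset G)
    (hF : ∀ p ∈ S, p ∈ B → ∀ a ∉ F, χ (act a p) = 0) :
    ∫⁻ p in B, e (T p) ∂μ ≤ F.card * ∫⁻ p, k p ∂μ := by
  have hae : ∀ᵐ p ∂μ, p ∈ S := hSc
  have h1 : ∫⁻ p, χ p * e (T p) ∂μ ≤ ∫⁻ p, k p ∂μ := by
    rw [weight_lintegral_comp μ S hSc act hact act1 actmul χ hχm hχ T hT TS comm e he einv,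
      ← weight_unfold μ S hSc act hact act1 actmul χ hχm hχ k hk]
    exact lintegral_mono_ae (hae.mono fun p hp => mul_le_mul_right (hek p hp) _)
  have hm : Measurable fun p => χ p * e (T p) := hχm.mul (he.comp hT.measurable)
  have h2 : ∀ c, ∫⁻ p, χ (act c p) * e (T p) ∂μ = ∫⁻ p, χ p * e (T p) ∂μ := by
    intro c
    rw [← (hact c).lintegral_comp hm]
    refine lintegral_congr_ae (hae.mono fun p hp => ?_)
    simp only []
    rw [comm c p hp, einv c _ (TS p hp)]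
  calc ∫⁻ p in B, e (T p) ∂μ = ∫⁻ p, B.indicator (fun p => e (T p)) p ∂μ :=
        (lintegral_indicator hB _).symm
    _ ≤ ∫⁻ p, ∑ c ∈ F, χ (act c p) * e (T p) ∂μ := by
        refine lintegral_mono_ae (hae.mono fun p hp => ?_)
        by_cases hb : p ∈ B
        · have h3 : ∑' a, χ (act a p) = ∑ a ∈ F, χ (act a p) := tsum_eq_sum (hF p hp hb)
          rw [indicator_of_mem hb, ← Finset.sum_mul, ← h3, hχ p hp, one_mul]
        · rw [indicator_of_notMem hb]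
          exact zero_le
    _ = ∑ c ∈ F, ∫⁻ p, χ (act c p) * e (T p) ∂μ :=
        lintegral_finsetSum _ fun c _ =>
          (hχm.comp (hact c).measurable).mul (he.comp hT.measurable)
    _ ≤ F.card * ∫⁻ p, k p ∂μ := by
        simp only [h2, Finset.sum_const, nsmul_eq_mul]
        exact mul_le_mul_right h1 _

open Classical in
/-- A globally measurable version of the energy. -/
noncomputable def enm (f : EE → ℝ) : EE × EE → ℝ := OO.piecewise (en f) 0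

theorem enm_eq (f : EE → ℝ) {p : EE × EE} (hp : p.1 ∈ Bl) : enm f p = en f p := by
  classical
  unfold enm
  exact piecewise_eq_of_mem _ _ _ (mem_OO.2 hp)

theorem meas_enm {f : EE → ℝ} (hf : Conf f) : Measurable (enm f) := by
  classical
  unfold enm
  exact (Fib.contOn_en hf).measurable_piecewise continuousOn_const isOpen_OO.measurableSet

/-- A globally measurable version of the normalisation. -/
noncomputable def nrmm (f : EE → ℝ) (p : EE × EE) : EE × EE :=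
  (p.1, (Real.sqrt (enm f p))⁻¹ • p.2)

theorem nrmm_eq (f : EE → ℝ) {p : EE × EE} (hp : p.1 ∈ Bl) : nrmm f p = nrm f p := by
  unfold nrmm nrm
  rw [enm_eq f hp]

theorem meas_nrmm {f : EE → ℝ} (hf : Conf f) : Measurable (nrmm f) :=
  measurable_fst.prodMk ((meas_enm hf).sqrt.inv.smul measurable_snd)

theorem thin_sub (f : EE → ℝ) (a b : ℝ) : thin f a b ⊆ OO := fun _ hp => mem_OO.2 hp.1

theorem meas_thin {f : EE → ℝ} (hf : Conf f) (a b : ℝ) : MeasurableSet (thin f a b) := by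
  have h : thin f a b = OO ∩ enm f ⁻¹' Ioc (a ^ 2) (b ^ 2) := by
    ext p
    constructor
    · rintro ⟨h1, h2⟩
      exact ⟨mem_OO.2 h1, by rw [mem_preimage, enm_eq f h1]; exact h2⟩
    · rintro ⟨h1, h2⟩
      rw [mem_preimage, enm_eq f (mem_OO.1 h1)] at h2
      exact ⟨mem_OO.1 h1, h2⟩
  rw [h]
  exact isOpen_OO.measurableSet.inter (meas_enm hf measurableSet_Ioc)

theorem liou_restrict (f : EE → ℝ) {S : Set (EE × EE)} (hS : MeasurableSet S) (hSO : S ⊆ OO) :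
    (liou f OO).restrict S = liou f S := by
  unfold liou
  rw [restrict_withDensity hS, Measure.restrict_restrict hS, inter_eq_left.2 hSO]

theorem lintegral_scale (g : EE × EE → ℝ≥0∞) {s : ℝ} (hs : 0 < s) :
    ∫⁻ p, g p ∂((volume : Measure EE).prod (volume : Measure EE)) =
      ENNReal.ofReal (s ^ 4) *
        ∫⁻ p, g (p.1, s • p.2) ∂((volume : Measure EE).prod (volume : Measure EE)) := by
  let T : EE × EE ≃ᵐ EE × EE :=
    (MeasurableEquiv.refl EE).prodCongr (MeasurableEquiv.smul₀ s hs.ne')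
  have h1 : Measure.map T ((volume : Measure EE).prod (volume : Measure EE)) =
      ENNReal.ofReal (s ^ 4)⁻¹ • ((volume : Measure EE).prod (volume : Measure EE)) := by
    have h2 : (T : EE × EE → EE × EE) = Prod.map id fun v => s • v := rfl
    rw [h2, ← Measure.map_prod_map _ _ measurable_id (measurable_const_smul s), Measure.map_id,
      Measure.map_addHaar_smul _ hs.ne', Fib.finrank_EE, Measure.prod_smul_right,
      abs_of_pos (inv_pos.2 (pow_pos hs 4))]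
  have h3 := lintegral_map_equiv (μ := (volume : Measure EE).prod (volume : Measure EE)) g T
  rw [h1, lintegral_smul_measure, smul_eq_mul] at h3
  have h4 : ∫⁻ p, g (p.1, s • p.2) ∂((volume : Measure EE).prod (volume : Measure EE)) =
      ∫⁻ p, g (T p) ∂((volume : Measure EE).prod (volume : Measure EE)) := rfl
  rw [h4, ← h3, ← mul_assoc, ← ENNReal.ofReal_mul (pow_pos hs 4).le,
    mul_inv_cancel₀ (pow_pos hs 4).ne', ENNReal.ofReal_one, one_mul]

theorem lintegral_eq {f : EE → ℝ} (hf : Conf f) (k : EE × EE → ℝ≥0∞) (hk : Measurable k)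
    {S : Set (EE × EE)} (hS : MeasurableSet S) (hSO : S ⊆ OO) :
    ∫⁻ p in S, k p ∂(liou f OO) = ∫⁻ p, S.indicator (fun p => ENNReal.ofReal (rho f p) * k p) p
      ∂((volume : Measure EE).prod (volume : Measure EE)) := by
  rw [liou_restrict f hS hSO, lintegral_indicator hS]
  exact lintegral_withDensity_eq_lintegral_mul₀ (Fib.aemeas_rho hf hS hSO) hk.aemeasurable

theorem lintegral_thin0 {f : EE → ℝ} (hf : Conf f) (k : EE × EE → ℝ≥0∞) (hk : Measurable k)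
    (hs : ∀ c : ℝ, 0 < c → ∀ p : EE × EE, p.1 ∈ Bl → k (p.1, c • p.2) = k p) {s : ℝ}
    (h0 : 0 ≤ s) : ∫⁻ p in thin f 0 s, k p ∂(liou f OO) =
      ENNReal.ofReal (s ^ 4) * ∫⁻ p in thin f 0 1, k p ∂(liou f OO) := by
  rcases h0.eq_or_lt with rfl | h0
  · have h : thin f 0 0 = ∅ := eq_empty_of_forall_notMem fun p hp => (hp.2.1.trans_le hp.2.2).false
    simp [h]
  rw [lintegral_eq hf k hk (meas_thin hf _ _) (thin_sub f _ _),
    lintegral_eq hf k hk (meas_thin hf _ _) (thin_sub f _ _), lintegral_scale _ h0]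
  congr 1
  refine lintegral_congr fun p => ?_
  have hs2 : 0 < s ^ 2 := pow_pos h0 2
  have hm : (p.1, s • p.2) ∈ thin f 0 s ↔ p ∈ thin f 0 1 := by
    simp only [thin, mem_ofPred_eq, Fib.en_smul]
    refine and_congr_right fun _ => and_congr ?_ ?_
    · rw [zero_pow two_ne_zero]
      exact mul_pos_iff_of_pos_left hs2
    · rw [one_pow]
      exact mul_le_iff_le_one_right hs2
  by_cases hp : p ∈ thin f 0 1
  · rw [indicator_of_mem hp, indicator_of_mem (hm.2 hp), hs s h0 p hp.1]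
    rfl
  · rw [indicator_of_notMem hp, indicator_of_notMem fun h => hp (hm.1 h)]

theorem liou_fin {f : EE → ℝ} (hf : Conf f) {c : ℝ} (hc : 0 < c) :
    liou f OO (thin f 0 1 ∩ {p | c ≤ Dd p.1}) < ⊤ := by
  have hK : IsCompact ({x : EE | c ≤ Dd x} ×ˢ Metric.closedBall (0 : EE) 2) := by
    refine IsCompact.prod ?_ (isCompact_closedBall _ _)
    refine IsCompact.of_isClosed_subset (isCompact_closedBall (0 : EE) 1)
      (isClosed_le continuous_const Fib.cont_Dd) fun x hx => ?_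
    rw [mem_closedBall_zero_iff]
    exact (mem_Bl.1 (Fib.mem_Bl_of hc hx)).le
  have hKO : {x : EE | c ≤ Dd x} ×ˢ Metric.closedBall (0 : EE) 2 ⊆ OO := fun p hp =>
    mem_OO.2 (Fib.mem_Bl_of hc hp.1)
  have hsub : thin f 0 1 ∩ {p | c ≤ Dd p.1} ⊆
      {x : EE | c ≤ Dd x} ×ˢ Metric.closedBall (0 : EE) 2 := by
    rintro p ⟨hp, hp'⟩
    refine ⟨hp', ?_⟩
    rw [mem_closedBall_zero_iff]
    have h1 := (g0_bounds hp.1 p.2).1
    have h2 : en f p ≤ 1 ^ 2 := hp.2.2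
    have h3 : -(1 / 100 : ℝ) ≤ f p.1 := (abs_le.1 (hf.fb _ hp.1)).1
    have h4 : 2 * f p.1 + 1 ≤ Real.exp (2 * f p.1) := Real.add_one_le_exp _
    have h5 : en f p = Real.exp (2 * f p.1) * g0 p.1 p.2 p.2 := rfl
    have h6 : 0 ≤ g0 p.1 p.2 p.2 := (sq_nonneg _).trans h1
    have h7 : (49 / 50 : ℝ) * g0 p.1 p.2 p.2 ≤ 1 ^ 2 := by
      refine le_trans ?_ h2
      rw [h5]
      exact mul_le_mul_of_nonneg_right (by linarith) h6
    by_contra h
    push Not at h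
    nlinarith
  refine (measure_mono hsub).trans_lt ?_
  unfold liou
  rw [withDensity_apply _ hK.measurableSet, Measure.restrict_restrict hK.measurableSet,
    inter_eq_left.2 hKO]
  exact (((Fib.contOn_rho hf).mono hKO).integrableOn_compact hK).lintegral_lt_top

/-- Approximation of a bounded scale invariant function supported over a compact set. -/
theorem exists_w {f : EE → ℝ} (hf : Conf f) {c : ℝ} (hc : 0 < c) (g : EE × EE → ℝ)
    (hg : Measurable g) (hg1 : ∀ p, ‖g p‖ ≤ 1) (hg0 : ∀ p : EE × EE, Dd p.1 < c → g p = 0)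
    (hs : ∀ s : ℝ, 0 < s → ∀ p : EE × EE, p.1 ∈ Bl → g (p.1, s • p.2) = g p)
    {ε : ℝ≥0∞} (hε : ε ≠ 0) : ∃ w : EE × EE → ℝ, UniformContinuous w ∧
      (∀ p : EE × EE, Dd p.1 < c / 2 → w p = 0) ∧
      ∫⁻ p in thin f 0 1, ‖g p - w (nrmm f p)‖ₑ ∂(liou f OO) ≤ ε := by
  have hK : MeasurableSet {p : EE × EE | c / 2 ≤ Dd p.1} :=
    (isClosed_le continuous_const (Fib.cont_Dd.comp continuous_fst)).measurableSet
  have hT := (meas_thin hf 0 1).inter hK
  have : IsFiniteMeasure ((liou f OO).restrict (thin f 0 1 ∩ {p | c / 2 ≤ Dd p.1})) :=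
    isFiniteMeasure_restrict.2 (liou_fin hf (half_pos hc)).ne
  set σ := Measure.map (nrmm f) ((liou f OO).restrict (thin f 0 1 ∩ {p | c / 2 ≤ Dd p.1})) with hσ
  have hi : Integrable g σ :=
    (integrable_const (1 : ℝ)).mono' hg.aestronglyMeasurable (Eventually.of_forall hg1)
  obtain ⟨w, hw, hwε, hwc, -⟩ := hi.exists_hasCompactSupport_lintegral_sub_le hε
  let cut : EE × EE → ℝ := fun p => max 0 (min 1 (2 * Dd p.1 / c - 1))
  have hcc : Continuous cut :=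
    continuous_const.max (continuous_const.min
      (((continuous_const.mul (Fib.cont_Dd.comp continuous_fst)).div_const c).sub
        continuous_const))
  have hc0 : ∀ p : EE × EE, Dd p.1 < c / 2 → cut p = 0 := by
    intro p hp
    refine max_eq_left ((min_le_right _ _).trans ?_)
    rw [sub_nonpos, div_le_one hc]
    linarith
  have hc1 : ∀ p : EE × EE, c ≤ Dd p.1 → cut p = 1 := by
    intro p hp
    have : 1 ≤ 2 * Dd p.1 / c - 1 := by
      rw [le_sub_iff_add_le, le_div_iff₀ hc]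
      linarith
    simp only [cut]
    rw [min_eq_left this, max_eq_right zero_le_one]
  have hcb : ∀ p : EE × EE, ‖cut p‖ ≤ 1 := by
    intro p
    rw [Real.norm_of_nonneg (le_max_left _ _)]
    exact max_le zero_le_one (min_le_left _ _)
  refine ⟨fun p => w p * cut p,
    (hw.mul_right (f' := cut)).uniformContinuous_of_continuous (hwc.mul hcc),
    fun p hp => mul_eq_zero_of_right _ (hc0 p hp), ?_⟩
  refine le_trans ?_ hwε
  have hm : Measurable fun x => ‖g x - w x‖ₑ := (hg.sub hwc.measurable).enorm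
  simp only []
  rw [hσ, lintegral_map hm (meas_nrmm hf),
    ← lintegral_indicator hT, ← lintegral_indicator (meas_thin hf 0 1)]
  refine lintegral_mono fun p => ?_
  by_cases hp : p ∈ thin f 0 1
  · have he : 0 < en f p := by simpa using hp.2.1
    have hgn : g (nrmm f p) = g p := by
      rw [nrmm_eq f hp.1]
      exact hs _ (inv_pos.2 (Real.sqrt_pos.2 he)) p hp.1
    have h1 : (nrmm f p).1 = p.1 := rfl
    rw [indicator_of_mem hp]
    by_cases hq : c / 2 ≤ Dd p.1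
    · rw [indicator_of_mem (show p ∈ thin f 0 1 ∩ {p | c / 2 ≤ Dd p.1} from ⟨hp, hq⟩), hgn]
      by_cases hr : c ≤ Dd p.1
      · rw [hc1 (nrmm f p) hr, mul_one]
      · rw [hg0 p (not_le.1 hr), zero_sub, zero_sub, enorm_neg, enorm_neg, ← ofReal_norm,
          ← ofReal_norm, norm_mul]
        exact ENNReal.ofReal_le_ofReal (mul_le_of_le_one_right (norm_nonneg _) (hcb _))
    · have hq' : Dd p.1 < c / 2 := not_le.1 hq
      rw [hc0 (nrmm f p) hq', hg0 p (by linarith), mul_zero, sub_zero, enorm_zero]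
      exact zero_le
  · rw [indicator_of_notMem hp]
    exact zero_le

end Apx

theorem lintegral_thin {f : EE → ℝ} (hf : Conf f) (k : EE × EE → ENNReal) (hk : Measurable k)
    (hs : ∀ c : ℝ, 0 < c → ∀ p : EE × EE, p.1 ∈ Bl → k (p.1, c • p.2) = k p) (a b : ℝ)
    (ha : 0 ≤ a) (hab : a ≤ b) (hfin : ∫⁻ p in thin f 0 1, k p ∂(liou f OO) ≠ ⊤) :
    ∫⁻ p in thin f a b, k p ∂(liou f OO) =
      ENNReal.ofReal (b ^ 4 - a ^ 4) * ∫⁻ p in thin f 0 1, k p ∂(liou f OO) := by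
  have h2 : a ^ 2 ≤ b ^ 2 := pow_le_pow_left₀ ha hab 2
  have h4 : a ^ 4 ≤ b ^ 4 := pow_le_pow_left₀ ha hab 4
  have hu : thin f 0 b = thin f 0 a ∪ thin f a b := by
    ext p
    constructor
    · rintro ⟨h1, h0, hb⟩
      rcases le_or_gt (en f p) (a ^ 2) with h | h
      · exact Or.inl ⟨h1, h0, h⟩
      · exact Or.inr ⟨h1, h, hb⟩
    · rintro (⟨h1, h0, h⟩ | ⟨h1, h, hb⟩)
      · exact ⟨h1, h0, h.trans h2⟩
      · exact ⟨h1, lt_of_le_of_lt (by simpa using sq_nonneg a) h, hb⟩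
  have hd : Disjoint (thin f 0 a) (thin f a b) :=
    disjoint_left.2 fun p h h' => (h'.2.1.trans_le h.2.2).false
  have h := Apx.lintegral_thin0 hf k hk hs (ha.trans hab)
  rw [hu, lintegral_union (Apx.meas_thin hf a b) hd, Apx.lintegral_thin0 hf k hk hs ha,
    show b ^ 4 = a ^ 4 + (b ^ 4 - a ^ 4) by ring,
    ENNReal.ofReal_add (pow_nonneg ha 4) (sub_nonneg.2 h4), add_mul] at h
  exact (ENNReal.add_right_inj (ENNReal.mul_ne_top ENNReal.ofReal_ne_top hfin)).1 h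

end Pool.Agent.MP_019006_gt

end

section

set_option autoImplicit false

open MeasureTheory Filter Topology Set Matrix
open scoped ENNReal

namespace Pool.Agent.MP_019006_gt

namespace Apx

/-- A weight depending on the base point only. -/
theorem exists_base_weight {Λ : ℝ} {G : Type} [Group G] [Countable G] {ρ : G →* C3}
    (hρ : IsLattice Λ G ρ) {c : ℝ} (hc : 0 < c) (hcov : ∀ x ∈ Bl, ∃ a, c ≤ Dd (mob (ρ a) x)) :
    ∃ χ : EE → ℝ≥0∞, Measurable χ ∧ (∀ x, χ x ≤ 1) ∧ (∀ x, Dd x < c → χ x = 0) ∧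
      ∀ x ∈ Bl, ∑' a, χ (mob (ρ a) x) = 1 := by
  have e : ∀ a, ∀ x ∈ Bl, (mobT (ρ a) (x, 0)).1 = mob (ρ a) x := fun a x hx => by
    rw [Inv.mobT_of_mem (ρ a) (p := (x, 0)) hx]
  obtain ⟨χ, h1, h2, h3⟩ := exists_weight (G := G) Bl isOpen_Bl.measurableSet
    (fun a x => (mobT (ρ a) (x, 0)).1)
    (fun a => ((measurable_mobT (hρ.unit a)).comp measurable_prodMk_right).fst)
    (fun a x hx => by rw [e a x hx]; exact mob_mem (hρ.unit a) hx)
    (fun a b x hx => by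
      rw [e _ x hx, e b x hx, e a _ (mob_mem (hρ.unit b) hx), map_mul, mob_mul (hρ.unit b) hx])
    {x | c ≤ Dd x} (isClosed_le continuous_const Fib.cont_Dd).measurableSet
    (fun x hx => by simpa only [e _ x hx, mem_ofPred_eq] using hcov x hx)
    (fun x hx => by
      refine (lattice_fin hρ (min c (Dd x)) (lt_min hc (Dd_pos hx))).subset fun a ha => ?_
      rw [mem_ofPred_eq, e a x hx] at ha
      exact ⟨x, hx, min_le_right _ _, (min_le_left _ _).trans ha⟩)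
  refine ⟨χ, h1, fun x => (h2 x).trans (indicator_le_self _ _ x), fun x hx => ?_,
    fun x hx => by simpa only [e _ x hx] using h3 x hx⟩
  have := h2 x
  rw [indicator_of_notMem (show x ∉ {x | c ≤ Dd x} from not_le.2 hx)] at this
  exact le_antisymm this zero_le

/-- The sum of the translates of `w`, extended by homogeneity. -/
noncomputable def uu {G : Type} [Group G] (ρ : G →* C3) (f : EE → ℝ) (w : EE × EE → ℝ) :
    EE × EE → ℝ := OO.indicator fun p => ∑' a, w (nrmm f (mobT (ρ a) p))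

theorem uu_eq {G : Type} [Group G] (ρ : G →* C3) (f : EE → ℝ) (w : EE × EE → ℝ) {p : EE × EE}
    (hp : p.1 ∈ Bl) : uu ρ f w p = ∑' a, w (nrmm f (mobT (ρ a) p)) :=
  indicator_of_mem (mem_OO.2 hp) _

theorem meas_uu {Λ : ℝ} {G : Type} [Group G] [Countable G] {ρ : G →* C3} (hρ : IsLattice Λ G ρ)
    {f : EE → ℝ} (hf : Conf f) {w : EE × EE → ℝ} (hw : Measurable w) : Measurable (uu ρ f w) :=
  (Measurable.tsum fun a => hw.comp ((meas_nrmm hf).comp (measurable_mobT (hρ.unit a)))).indicator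
    isOpen_OO.measurableSet

theorem uu_inv {Λ : ℝ} {G : Type} [Group G] {ρ : G →* C3} (hρ : IsLattice Λ G ρ)
    (f : EE → ℝ) (w : EE × EE → ℝ) (b : G) {p : EE × EE} (hp : p.1 ∈ Bl) :
    uu ρ f w (mobT (ρ b) p) = uu ρ f w p := by
  rw [uu_eq ρ f w hp, uu_eq ρ f w (Inv.mobT_mem (hρ.unit b) hp),
    ← (Equiv.mulRight b).tsum_eq fun a => w (nrmm f (mobT (ρ a) p))]
  refine tsum_congr fun a => ?_
  rw [← Inv.mobT_mul (hρ.unit a) (hρ.unit b) hp, ← map_mul]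
  rfl

theorem nrmm_smul (f : EE → ℝ) {c : ℝ} (hc : 0 < c) {p : EE × EE} (hp : p.1 ∈ Bl) :
    nrmm f (p.1, c • p.2) = nrmm f p := by
  rw [nrmm_eq f hp, nrmm_eq f (p := (p.1, c • p.2)) hp, Fib.nrm_smul f _ _ hc]

theorem uu_smul {Λ : ℝ} {G : Type} [Group G] {ρ : G →* C3} (hρ : IsLattice Λ G ρ)
    (f : EE → ℝ) (w : EE × EE → ℝ) {c : ℝ} (hc : 0 < c) {p : EE × EE} (hp : p.1 ∈ Bl) :
    uu ρ f w (p.1, c • p.2) = uu ρ f w p := by
  rw [uu_eq ρ f w hp, uu_eq ρ f w (p := (p.1, c • p.2)) hp]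
  refine tsum_congr fun a => ?_
  rw [← nrmm_smul f hc (Inv.mobT_mem (hρ.unit a) hp), Inv.mobT_of_mem (ρ a) hp,
    Inv.mobT_of_mem (ρ a) (p := (p.1, c • p.2)) hp, Inv.dmob_rsmul]

theorem uu_unif {Λ : ℝ} {G : Type} [Group G] {ρ : G →* C3} (hρ : IsLattice Λ G ρ)
    {f : EE → ℝ} (hf : Conf f) (hfG : ∀ a, ∀ x ∈ Bl, f (mob (ρ a) x) = f x)
    {c : ℝ} (hc : 0 < c) (hcov : ∀ x ∈ Bl, ∃ a, c ≤ Dd (mob (ρ a) x))
    {w : EE × EE → ℝ} (hw : UniformContinuous w) (hw0 : ∀ p : EE × EE, Dd p.1 < c → w p = 0)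
    (ε : ℝ) (hε : 0 < ε) : ∃ κ : ℝ, 0 < κ ∧ ∀ y ∈ Bl, ∀ v v' : EE, en f (y, v) = 1 →
      en f (y, v') = 1 → gg f y (v - v') (v - v') ≤ κ →
        |uu ρ f w (y, v) - uu ρ f w (y, v')| ≤ ε := by
  set F := (lattice_fin hρ c hc).toFinset with hF
  have hN : (0 : ℝ) < F.card + 1 := by positivity
  obtain ⟨η, hη, hwη⟩ := Metric.uniformContinuous_iff.1 hw (ε / (F.card + 1)) (div_pos hε hN)
  refine ⟨η ^ 2 / 4, by positivity, fun y hy v v' hv hv' hκ => ?_⟩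
  obtain ⟨a₀, ha₀⟩ := hcov y hy
  have hsum : ∀ z : EE, en f (y, z) = 1 → uu ρ f w (y, z) =
      ∑ a ∈ F, w (mob (ρ (a * a₀)) y, dmob (ρ (a * a₀)) y z) := by
    intro z hz
    have h1 : ∀ a, nrmm f (mobT (ρ a) (y, z)) = (mob (ρ a) y, dmob (ρ a) y z) := by
      intro a
      rw [nrmm_eq f (Inv.mobT_mem (hρ.unit a) (p := (y, z)) hy)]
      unfold nrm
      rw [en_mobT (hρ.unit a) (hfG a), hz, Real.sqrt_one, inv_one, one_smul,
        Inv.mobT_of_mem (ρ a) (p := (y, z)) hy]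
    rw [uu_eq ρ f w (p := (y, z)) hy]
    simp only [h1]
    rw [← (Equiv.mulRight a₀).tsum_eq fun a => w (mob (ρ a) y, dmob (ρ a) y z)]
    refine tsum_eq_sum fun a ha => hw0 _ ?_
    by_contra hlt
    refine ha ?_
    rw [hF, Finite.mem_toFinset]
    refine ⟨mob (ρ a₀) y, mob_mem (hρ.unit a₀) hy, ha₀, ?_⟩
    rw [← mob_mul (hρ.unit a₀) hy, ← map_mul]
    exact not_lt.1 hlt
  rw [hsum v hv, hsum v' hv', ← Finset.sum_sub_distrib]
  refine (Finset.abs_sum_le_sum_abs _ _).trans ?_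
  have hterm : ∀ a ∈ F, |w (mob (ρ (a * a₀)) y, dmob (ρ (a * a₀)) y v) -
      w (mob (ρ (a * a₀)) y, dmob (ρ (a * a₀)) y v')| ≤ ε / (F.card + 1) := by
    intro a _
    refine (hwη ?_).le
    rw [Prod.dist_eq, dist_self, dist_eq_norm, ← Inv.dmob_sub, max_eq_right (norm_nonneg _)]
    have h1 := (g0_bounds (mob_mem (hρ.unit (a * a₀)) hy) (dmob (ρ (a * a₀)) y (v - v'))).1
    rw [Inv.g0_mob (hρ.unit (a * a₀)) hy] at h1
    have h3 : -(1 / 100 : ℝ) ≤ f y := (abs_le.1 (hf.fb _ hy)).1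
    have h4 : 2 * f y + 1 ≤ Real.exp (2 * f y) := Real.add_one_le_exp _
    have h6 : 0 ≤ g0 y (v - v') (v - v') := (sq_nonneg _).trans h1
    have h7 : (49 / 50 : ℝ) * g0 y (v - v') (v - v') ≤ η ^ 2 / 4 := by
      refine le_trans ?_ hκ
      rw [gg_apply]
      exact mul_le_mul_of_nonneg_right (by linarith) h6
    refine lt_of_pow_lt_pow_left₀ 2 hη.le ?_
    nlinarith [pow_pos hη 2]
  refine (Finset.sum_le_card_nsmul _ _ _ hterm).trans ?_
  rw [nsmul_eq_mul, ← mul_div_assoc, div_le_iff₀ hN]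
  nlinarith

end Apx

open Apx

theorem approx {f : EE → ℝ} {φ : Flo} {M : DFlo} (h : Ctx f φ M)
    {Λ : ℝ} {G : Type} [Group G] [Countable G] {ρ : G →* C3} (hρ : IsLattice Λ G ρ)
    (hf : ∀ a, ∀ x ∈ Bl, f (mob (ρ a) x) = f x) {A : Set (EE × EE)} (hA : InvSet ρ φ A)
    (δ ε : ℝ) (hδ : 0 < δ) (hε : 0 < ε) : ∃ u : EE × EE → ℝ, Measurable u ∧
      (∀ c : ℝ, 0 < c → ∀ p : EE × EE, p.1 ∈ Bl → u (p.1, c • p.2) = u p) ∧
      (∀ ε' : ℝ, 0 < ε' → ∃ κ : ℝ, 0 < κ ∧ ∀ y ∈ Bl, ∀ v v' : EE, en f (y, v) = 1 →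
        en f (y, v') = 1 → gg f y (v - v') (v - v') ≤ κ → |u (y, v) - u (y, v')| ≤ ε') ∧
      ∀ t a b : ℝ, 0 ≤ a → a ≤ b →
        ∫⁻ p in thin f a b ∩ {p | δ ≤ Dd p.1},
          ENNReal.ofReal |A.indicator 1 (φ t p) - u (φ t p)| ∂(liou f OO) ≤
            ENNReal.ofReal (ε * (b ^ 4 - a ^ 4)) := by
  obtain ⟨c, hc, hcov⟩ := lattice_cocpt hρ
  obtain ⟨χ, hχm, hχ1, hχ0, hχ⟩ := exists_base_weight hρ hc hcov
  set F := (lattice_fin hρ (min δ c) (lt_min hδ hc)).toFinset with hF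
  have hN : (0 : ℝ) < F.card + 1 := by positivity
  let g : EE × EE → ℝ := fun p => (χ p.1).toReal * A.indicator 1 p
  have hind : Measurable (A.indicator (1 : EE × EE → ℝ)) := measurable_one.indicator hA.meas
  have hg : Measurable g := (hχm.comp measurable_fst).ennreal_toReal.mul hind
  have hg1 : ∀ p, ‖g p‖ ≤ 1 := by
    intro p
    have h1 : (χ p.1).toReal ≤ 1 := ENNReal.toReal_le_of_le_ofReal zero_le_one (by simpa using hχ1 _)
    have h2 : ‖A.indicator (1 : EE × EE → ℝ) p‖ ≤ 1 := by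
      by_cases hp : p ∈ A <;> simp [hp]
    rw [norm_mul, Real.norm_of_nonneg ENNReal.toReal_nonneg]
    exact mul_le_one₀ h1 (norm_nonneg _) h2
  have hg0 : ∀ p : EE × EE, Dd p.1 < c → g p = 0 := fun p hp => by
    simp only [g, hχ0 _ hp, ENNReal.toReal_zero, zero_mul]
  have hcong : ∀ p q : EE × EE, (p ∈ A ↔ q ∈ A) →
      A.indicator (1 : EE × EE → ℝ) p = A.indicator 1 q := by
    intro p q hpq
    by_cases hq : q ∈ A
    · rw [indicator_of_mem hq, indicator_of_mem (hpq.2 hq)]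
      rfl
    · rw [indicator_of_notMem hq, indicator_of_notMem fun h' => hq (hpq.1 h')]
  have hgs : ∀ s : ℝ, 0 < s → ∀ p : EE × EE, p.1 ∈ Bl → g (p.1, s • p.2) = g p := by
    intro s hs p hp
    simp only [g]
    rw [hcong _ _ (hA.scale s hs p hp)]
  have hε' : ENNReal.ofReal (ε / (F.card + 1)) ≠ 0 := (ENNReal.ofReal_pos.2 (div_pos hε hN)).ne'
  obtain ⟨w, hw, hw0, hwε⟩ := exists_w h.conf hc g hg hg1 hg0 hgs hε'
  have hwm : Measurable w := hw.continuous.measurable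
  have hcov' : ∀ x ∈ Bl, ∃ a, c / 2 ≤ Dd (mob (ρ a) x) := fun x hx =>
    (hcov x hx).imp fun a ha => (half_le_self hc.le).trans ha
  refine ⟨uu ρ f w, meas_uu hρ h.conf hwm, fun s hs p hp => uu_smul hρ f w hs hp,
    uu_unif hρ h.conf hf (half_pos hc) hcov' hw hw0, fun t a b ha hab => ?_⟩
  have hS := meas_thin h.conf a b
  have hSO := thin_sub f a b
  have hB : MeasurableSet {p : EE × EE | δ ≤ Dd p.1} :=
    (isClosed_le continuous_const (Fib.cont_Dd.comp continuous_fst)).measurableSet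
  have hmobS : ∀ a', ∀ p ∈ thin f a b, mobT (ρ a') p ∈ thin f a b := by
    intro a' p hp
    refine ⟨Inv.mobT_mem (hρ.unit a') hp.1, ?_⟩
    rw [en_mobT (hρ.unit a') (hf a')]
    exact hp.2
  have hflowS : ∀ t, ∀ p ∈ thin f a b, φ t p ∈ thin f a b := by
    intro t p hp
    refine ⟨mem_OO.1 (h.flow.mem t p (hSO hp)), ?_⟩
    rw [en_flow h.conf.smooth h.flow]
    exact hp.2
  have hk : Measurable fun p => ‖g p - w (nrmm f p)‖ₑ :=
    (hg.sub (hwm.comp (meas_nrmm h.conf))).enorm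
  have he : Measurable fun p => ‖A.indicator 1 p - uu ρ f w p‖ₑ :=
    (hind.sub (meas_uu hρ h.conf hwm)).enorm
  have key := abs_bound (liou f (thin f a b)) (thin f a b)
    (by rw [← liou_restrict f hS hSO, Measure.restrict_apply hS.compl, compl_inter_self,
      measure_empty])
    (fun a' => mobT (ρ a'))
    (fun a' => mobT_measurePreserving (hρ.unit a') (hρ.unit a'⁻¹)
      (by rw [← map_mul, mul_inv_cancel, map_one]) (hf a') hS hSO (hmobS a') (hmobS a'⁻¹))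
    (fun p _ => by rw [map_one, Inv.mobT_one])
    (fun a' b' p hp => by rw [map_mul, Inv.mobT_mul (hρ.unit a') (hρ.unit b') hp.1])
    (fun p => χ p.1) (hχm.comp measurable_fst)
    (fun p hp => by simpa only [Inv.mobT_of_mem _ hp.1] using hχ p.1 hp.1)
    (φ t) (flow_measurePreserving h.conf.smooth h.flow hS hSO hflowS t) (hflowS t)
    (fun a' p _ => flow_mobT (hρ.unit a') h.conf.smooth (hf a') h.flow t p)
    _ _ he hk
    (fun a' p hp => by rw [uu_inv hρ f w a' hp.1, hcong _ _ (hA.grp a' p hp.1)])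
    (fun p hp => by
      have h1 : ∀ a', g (mobT (ρ a') p) = (χ (mob (ρ a') p.1)).toReal * A.indicator 1 p := by
        intro a'
        simp only [g]
        rw [hcong _ _ (hA.grp a' p hp.1), Inv.mobT_of_mem _ hp.1]
      have h2 : Summable fun a' => g (mobT (ρ a') p) := by
        simp only [h1]
        exact (ENNReal.summable_toReal (by rw [hχ p.1 hp.1]; exact ENNReal.one_ne_top)).mul_right _
      have h3 : ∑' a', g (mobT (ρ a') p) = A.indicator 1 p := by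
        simp only [h1]
        rw [tsum_mul_right, ← ENNReal.tsum_toReal_eq fun a' =>
          ((hχ1 _).trans_lt ENNReal.one_lt_top).ne, hχ p.1 hp.1, ENNReal.toReal_one, one_mul]
      have h4 : Summable fun a' => w (nrmm f (mobT (ρ a') p)) := by
        refine summable_of_hasFiniteSupport
          ((lattice_fin hρ (min (c / 2) (Dd p.1)) (lt_min (half_pos hc) (Dd_pos hp.1))).subset
            fun a' ha' => ⟨p.1, hp.1, min_le_right _ _, (min_le_left _ _).trans ?_⟩)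
        by_contra hlt
        refine ha' (hw0 _ ?_)
        rw [Inv.mobT_of_mem _ hp.1]
        exact not_le.1 hlt
      rw [uu_eq ρ f w hp.1, ← h3, ← h2.tsum_sub h4]
      exact enorm_tsum_le_tsum_enorm)
    _ hB F
    (fun p hp hpB a' ha' => by
      refine hχ0 _ ?_
      by_contra hlt
      refine ha' ?_
      rw [hF, Finite.mem_toFinset]
      rw [Inv.mobT_of_mem _ hp.1] at hlt
      exact ⟨p.1, hp.1, (min_le_left _ _).trans hpB, (min_le_right _ _).trans (not_lt.1 hlt)⟩)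
  rw [← liou_restrict f hS hSO, Measure.restrict_restrict hB, inter_comm,
    lintegral_thin h.conf _ hk
      (fun s hs p hp => by rw [hgs s hs p hp, nrmm_smul f hs hp]) a b ha hab
      (hwε.trans_lt ENNReal.ofReal_lt_top).ne] at key
  have h4 : 0 ≤ b ^ 4 - a ^ 4 := sub_nonneg.2 (pow_le_pow_left₀ ha hab 4)
  simp only [← Real.enorm_eq_ofReal_abs]
  refine key.trans ((mul_le_mul_right (mul_le_mul_right hwε _) _).trans ?_)
  rw [← ENNReal.ofReal_mul h4, ← ENNReal.ofReal_natCast, ← ENNReal.ofReal_mul (Nat.cast_nonneg _)]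
  refine ENNReal.ofReal_le_ofReal ?_
  rw [← mul_assoc, ← mul_div_assoc, div_le_iff₀ hN]
  nlinarith [mul_nonneg hε.le h4]

end Pool.Agent.MP_019006_gt

end

section

set_option autoImplicit false

open MeasureTheory Filter Topology Set Matrix

namespace Pool.Agent.MP_019006_gt

namespace Dstr

theorem fro_eq (A : M3) : fro A =
    ‖(WithLp.toLp 2 fun q : Fin 3 × Fin 3 => A q.1 q.2 : EuclideanSpace ℝ (Fin 3 × Fin 3))‖ := by
  rw [EuclideanSpace.norm_eq, fro, Fintype.sum_prod_type]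
  simp only [Real.norm_eq_abs, sq_abs]

theorem fro_add_le (A B : M3) : fro (A + B) ≤ fro A + fro B := by
  rw [fro_eq, fro_eq, fro_eq]
  exact norm_add_le (WithLp.toLp 2 fun q : Fin 3 × Fin 3 => A q.1 q.2 :
    EuclideanSpace ℝ (Fin 3 × Fin 3)) (WithLp.toLp 2 fun q : Fin 3 × Fin 3 => B q.1 q.2)

theorem fro_sub_le (A B : M3) : fro (A - B) ≤ fro A + fro B := by
  rw [fro_eq, fro_eq, fro_eq]
  exact norm_sub_le (WithLp.toLp 2 fun q : Fin 3 × Fin 3 => A q.1 q.2 :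
    EuclideanSpace ℝ (Fin 3 × Fin 3)) (WithLp.toLp 2 fun q : Fin 3 × Fin 3 => B q.1 q.2)

theorem fro_transpose (A : M3) : fro Aᵀ = fro A := by
  unfold fro
  rw [Finset.sum_comm]
  rfl

theorem fro_le_of {A : M3} {c : ℝ} (h : ∀ i j, |A i j| ≤ c) : fro A ≤ 3 * c := by
  have hc : 0 ≤ c := (abs_nonneg _).trans (h 0 0)
  refine (sq_le_sq₀ (OdeMul.fro_nonneg _) (by positivity)).1 ?_
  rw [OdeMul.fro_sq]
  have h1 : ∀ i j, A i j ^ 2 ≤ c ^ 2 := fun i j => by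
    rw [← sq_abs]
    exact pow_le_pow_left₀ (abs_nonneg _) (h i j) 2
  simp only [Fin.sum_univ_three]
  linarith [h1 0 0, h1 0 1, h1 0 2, h1 1 0, h1 1 1, h1 1 2, h1 2 0, h1 2 1, h1 2 2]

theorem fro_conj {R R' : M3} (hR : Rᵀ * R = 1) (hR' : R'ᵀ * R' = 1) (U U' : M3) :
    fro (Rᵀ * U * R - R'ᵀ * U' * R') ≤ fro (U - U') + 2 * fro U' * fro (R - R') := by
  have h1 : Rᵀᵀ * Rᵀ = 1 := by
    rw [Matrix.transpose_transpose]
    exact mul_eq_one_comm.1 hR
  have h1' : R'ᵀᵀ * R'ᵀ = 1 := by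
    rw [Matrix.transpose_transpose]
    exact mul_eq_one_comm.1 hR'
  have h0 : (1 : M3)ᵀ * 1 = 1 := by simp
  have e : Rᵀ * U * R - R'ᵀ * U' * R' = Rᵀ * (U - U') * R +
      (1 * ((R - R')ᵀ * U') * R + R'ᵀ * (U' * (R - R')) * 1) := by
    simp only [Matrix.transpose_sub, Matrix.mul_sub, Matrix.sub_mul, Matrix.one_mul,
      Matrix.mul_one, Matrix.mul_assoc]
    abel
  rw [e]
  refine (fro_add_le _ _).trans ?_
  rw [fro_rot _ _ _ h1 hR]
  refine add_le_add le_rfl ((fro_add_le _ _).trans ?_)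
  rw [fro_rot _ _ _ h0 hR, fro_rot _ _ _ h1' h0]
  have a1 := OdeMul.fro_mul_le (R - R')ᵀ U'
  have a2 := OdeMul.fro_mul_le U' (R - R')
  rw [fro_transpose] at a1
  linarith

theorem log_det_rot {R S : M3} (hR : Rᵀ * R = 1) (hS : Sᵀ * S = 1) (Y : M3) :
    Real.log (Rᵀ * Y * S).det = Real.log Y.det := by
  have k : ∀ T : M3, Tᵀ * T = 1 → |T.det| = 1 := fun T hT => by
    have h := congrArg Matrix.det hT
    rw [Matrix.det_mul, Matrix.det_transpose, Matrix.det_one] at h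
    rcases mul_self_eq_one_iff.1 h with h | h <;> rw [h] <;> simp
  rw [← Real.log_abs, Matrix.det_mul, Matrix.det_mul, Matrix.det_transpose, abs_mul, abs_mul,
    k R hR, k S hS, one_mul, mul_one, Real.log_abs]

theorem ric_rot {R S : M3} (hR : Rᵀ * R = 1) (hS : Sᵀ * S = 1) (Y H : M3) :
    Rᵀ * H * S * (Rᵀ * Y * S)⁻¹ = Rᵀ * (H * Y⁻¹) * R := by
  have h1 : S⁻¹ = Sᵀ := Matrix.inv_eq_left_inv hS
  have h2 : (Rᵀ)⁻¹ = R := Matrix.inv_eq_right_inv hR
  have h3 : S * Sᵀ = 1 := mul_eq_one_comm.1 hS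
  rw [Matrix.mul_inv_rev, Matrix.mul_inv_rev, h1, h2]
  calc Rᵀ * H * S * (Sᵀ * (Y⁻¹ * R)) = Rᵀ * H * (S * Sᵀ) * (Y⁻¹ * R) := by
        simp only [Matrix.mul_assoc]
    _ = _ := by rw [h3]; simp only [Matrix.mul_assoc, Matrix.one_mul]

theorem pot (P : ℝ → ℝ) (T P0 : ℝ) (hb : ∀ s, 1 ≤ s → s ≤ 2 → P s ≤ P0)
    (hs : ∀ s, 1 ≤ s → s + 1 ≤ T → P (s + 1) ≤ P s) (s : ℝ) (h1 : 1 ≤ s) (hT : s ≤ T) :
    P s ≤ P0 := by
  have k : ∀ n : ℕ, ∀ s, 1 ≤ s → s ≤ T → s ≤ n + 2 → P s ≤ P0 := by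
    intro n
    induction n with
    | zero => exact fun s h1 _ h2 => hb s h1 (by simpa using h2)
    | succ n ih =>
      intro s h1 hT h2
      rcases le_total s 2 with h3 | h3
      · exact hb s h1 h3
      · have h4 := hs (s - 1) (by linarith) (by linarith)
        rw [sub_add_cancel] at h4
        push_cast at h2
        exact h4.trans (ih (s - 1) (by linarith) (by linarith) (by linarith))
  obtain ⟨n, hn⟩ := exists_nat_ge s
  exact k n s h1 hT (by linarith)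

/-- Two unit vectors joined by a curve of unit vectors of Sasaki speed at most `σ`. -/
def Near (f : EE → ℝ) (σ : ℝ) (p q : EE × EE) : Prop :=
  ∃ Q Q' : ℝ → EE × EE, Q 0 = p ∧ Q 1 = q ∧ ∀ θ ∈ Icc (0 : ℝ) 1, (Q θ).1 ∈ Bl ∧
    en f (Q θ) = 1 ∧ HasDerivAt Q (Q' θ) θ ∧ sasaki (gg f) (Gam f) (Q θ) (Q' θ) ≤ σ

theorem Near.mono {f : EE → ℝ} {σ σ' : ℝ} {p q : EE × EE} (h : Near f σ p q) (hσ : σ ≤ σ') :
    Near f σ' p q := by
  obtain ⟨Q, Q', h0, h1, h⟩ := h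
  exact ⟨Q, Q', h0, h1, fun θ hθ =>
    ⟨(h θ hθ).1, (h θ hθ).2.1, (h θ hθ).2.2.1, (h θ hθ).2.2.2.trans hσ⟩⟩

theorem conn_mobT {A : C3} (hA : IsU21 A) {f : EE → ℝ} (hf : ∀ n : ℕ, ContDiffOn ℝ n f Bl)
    (hfA : ∀ x ∈ Bl, f (mob A x) = f x) {p : EE × EE} (hp : p.1 ∈ Bl) (ξ : EE × EE) :
    (fderiv ℝ (mobT A) p ξ).1 = dmob A p.1 ξ.1 ∧
    (fderiv ℝ (mobT A) p ξ).2 + Gam f (mobT A p).1 (mobT A p).2 (fderiv ℝ (mobT A) p ξ).1 =
      dmob A p.1 (ξ.2 + Gam f p.1 p.2 ξ.1) := by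
  rw [fderiv_mobT hA hp, Inv.mobT_of_mem A hp]
  refine ⟨rfl, ?_⟩
  simp only
  rw [dmob_add, Gam_symm f p.1 p.2, ← Gam_mob hA hf hfA hp, Gam_symm f (mob A p.1) (dmob A p.1 p.2)]
  abel

theorem Near.mobT {A : C3} (hA : IsU21 A) {f : EE → ℝ} (hf : ∀ n : ℕ, ContDiffOn ℝ n f Bl)
    (hfA : ∀ x ∈ Bl, f (mob A x) = f x) {σ : ℝ} {p q : EE × EE} (h : Near f σ p q) :
    Near f σ (mobT A p) (mobT A q) := by
  obtain ⟨Q, Q', h0, h1, h⟩ := h
  refine ⟨fun θ => Pool.Agent.MP_019006_gt.mobT A (Q θ),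
    fun θ => fderiv ℝ (Pool.Agent.MP_019006_gt.mobT A) (Q θ) (Q' θ), by simp only [h0],
    by simp only [h1], fun θ hθ => ?_⟩
  obtain ⟨a1, a2, a3, a4⟩ := h θ hθ
  refine ⟨Inv.mobT_mem hA a1, by rw [en_mobT hA hfA, a2],
    (Inv.hasFDerivAt_mobT hA a1).comp_hasDerivAt θ a3, le_of_eq_of_le ?_ a4⟩
  obtain ⟨c1, c2⟩ := conn_mobT hA hf hfA a1 (Q' θ)
  unfold sasaki
  simp only
  rw [c2, c1]
  have e : (Pool.Agent.MP_019006_gt.mobT A (Q θ)).1 = mob A (Q θ).1 := by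
    rw [Inv.mobT_of_mem A a1]
  rw [e, Inv.gg_mob hA hfA a1, Inv.gg_mob hA hfA a1]

theorem sas_bound {f : EE → ℝ} (hf : Conf f) {p ξ : EE × EE} (hp : p.1 ∈ Bl) {σ : ℝ}
    (h : sasaki (gg f) (Gam f) p ξ ≤ σ) : g0 p.1 ξ.1 ξ.1 ≤ 2 * σ ^ 2 ∧ ‖ξ.1‖ ≤ 2 * σ ∧
      ‖ξ.2 + Gam f p.1 p.2 ξ.1‖ ≤ 2 * σ := by
  have hσ : 0 ≤ σ := (Real.sqrt_nonneg _).trans h
  have a1 := FG.le_en hf (p := (p.1, ξ.1)) hp
  have a2 := FG.le_en hf (p := (p.1, ξ.2 + Gam f p.1 p.2 ξ.1)) hp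
  have b1 := FG.en_nonneg f (p := (p.1, ξ.1)) hp
  have b2 := FG.en_nonneg f (p := (p.1, ξ.2 + Gam f p.1 p.2 ξ.1)) hp
  have c1 := (g0_bounds hp ξ.1).1
  have c2 := (g0_bounds hp (ξ.2 + Gam f p.1 p.2 ξ.1)).1
  have d : en f (p.1, ξ.1) + en f (p.1, ξ.2 + Gam f p.1 p.2 ξ.1) ≤ σ ^ 2 :=
    (Real.sqrt_le_left hσ).1 h
  simp only at a1 a2
  have s := sq_nonneg σ
  refine ⟨by linarith, (sq_le_sq₀ (norm_nonneg _) (by positivity)).1 (by linarith),
    (sq_le_sq₀ (norm_nonneg _) (by positivity)).1 (by linarith)⟩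

theorem near_lip {f : EE → ℝ} (hf : Conf f) {δ : ℝ} (hδ : 0 < δ) (σ₀ : ℝ) {Φ : EE × EE → ℝ}
    (hΦ : ContDiffOn ℝ 1 Φ OO) : ∃ C : ℝ, ∀ (σ : ℝ) (p q : EE × EE), σ ≤ σ₀ → Near f σ p q →
      δ ≤ Dd p.1 → |Φ p - Φ q| ≤ C * σ := by
  have hδ' : 0 < δ * Real.exp (-3 * σ₀) := by positivity
  have hK := (liou_compact hf _ hδ').2.1
  have hKO : shell f ∩ {p | δ * Real.exp (-3 * σ₀) ≤ Dd p.1} ⊆ OO := fun p hp => mem_OO.2 hp.1.1
  have hm : MapsTo (Prod.fst : EE × EE → EE) OO Bl := fun p hp => mem_OO.mp hp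
  obtain ⟨B1, hB1⟩ := hK.exists_bound_of_continuousOn
    ((hΦ.continuousOn_fderiv_of_isOpen isOpen_OO le_rfl).mono hKO)
  obtain ⟨B2, hB2⟩ := hK.exists_bound_of_continuousOn
    ((((contDiffOn_GamL hf.smooth 0).continuousOn.comp continuousOn_fst hm).clm_apply
      continuousOn_snd).mono hKO)
  refine ⟨B1 * (2 + 2 * B2), ?_⟩
  rintro σ p q hσ ⟨Q, Q', rfl, rfl, h⟩ hp
  have hσ0 : 0 ≤ σ := (Real.sqrt_nonneg _).trans (h 0 ⟨le_rfl, zero_le_one⟩).2.2.2
  have hu : ∀ θ ∈ Icc (0 : ℝ) 1, HasDerivWithinAt (fun s => Real.log (Dd (Q s).1))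
      (-2 * (al (Q θ).1 (Q' θ).1).re) (Icc 0 1) θ := fun θ hθ => by
    obtain ⟨a1, -, a3, -⟩ := h θ hθ
    have d0 : HasDerivAt (fun s => (Q s).1) (Q' θ).1 θ := a3.fst
    have d2 := HasFDerivAt.comp_hasDerivAt (l := Dd) θ (FG.hasFDerivAt_Dd (Q θ).1) d0
    have d1 := HasDerivAt.log (f := fun s => Dd (Q s).1) d2 (Dd_pos a1).ne'
    refine (d1.congr_deriv ?_).hasDerivWithinAt
    rw [FG.al_re]
    simp only [_root_.smul_apply, innerSL_apply_apply, smul_eq_mul]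
    ring
  have hu' := norm_image_sub_le_of_norm_deriv_le_segment' (C := 3 * σ) hu fun θ hθ => by
    obtain ⟨a1, -, -, a4⟩ := h θ (Ico_subset_Icc_self hθ)
    have b1 := (sas_bound hf a1 a4).1
    have b2 := FG.re_al_sq_le a1 (Q' θ).1
    refine (sq_le_sq₀ (norm_nonneg _) (by positivity)).1 ?_
    rw [Real.norm_eq_abs, sq_abs]
    nlinarith [sq_nonneg σ]
  have hin : ∀ θ ∈ Icc (0 : ℝ) 1, Q θ ∈ shell f ∩ {p | δ * Real.exp (-3 * σ₀) ≤ Dd p.1} := by
    intro θ hθ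
    obtain ⟨a1, a2, -, -⟩ := h θ hθ
    refine ⟨⟨a1, a2.ge, by rw [a2]; norm_num⟩, ?_⟩
    have b1 := (abs_le.1 (hu' θ hθ)).1
    have b2 := Real.log_le_log hδ hp
    have b3 : 3 * σ * (θ - 0) ≤ 3 * σ₀ := by nlinarith [hθ.1, hθ.2]
    show δ * Real.exp (-3 * σ₀) ≤ Dd (Q θ).1
    rw [← Real.exp_log (Dd_pos a1), ← Real.exp_log hδ, ← Real.exp_add]
    exact Real.exp_le_exp.2 (by linarith)
  have hv : ∀ θ ∈ Icc (0 : ℝ) 1, HasDerivWithinAt (fun s => Φ (Q s))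
      (fderiv ℝ Φ (Q θ) (Q' θ)) (Icc 0 1) θ := fun θ hθ => by
    obtain ⟨a1, -, a3, -⟩ := h θ hθ
    exact (((hΦ.contDiffAt (isOpen_OO.mem_nhds (mem_OO.2 a1))).differentiableAt
      one_ne_zero).hasFDerivAt.comp_hasDerivAt θ a3).hasDerivWithinAt
  have hv' := norm_image_sub_le_of_norm_deriv_le_segment' (C := B1 * (2 + 2 * B2) * σ) hv
    (fun θ hθ => by
      have hθ' := Ico_subset_Icc_self hθ
      obtain ⟨a1, -, -, a4⟩ := h θ hθ'
      obtain ⟨-, b1, b2⟩ := sas_bound hf a1 a4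
      have c1 := hB1 _ (hin θ hθ')
      have c2 : ‖GamL f (Q θ).1 (Q θ).2‖ ≤ B2 := hB2 _ (hin θ hθ')
      have c0 : 0 ≤ B2 := (norm_nonneg _).trans c2
      have c3 : ‖Gam f (Q θ).1 (Q θ).2 (Q' θ).1‖ ≤ B2 * (2 * σ) :=
        ((GamL f (Q θ).1 (Q θ).2).le_opNorm (Q' θ).1).trans
          (mul_le_mul c2 b1 (norm_nonneg _) c0)
      have c4 : ‖(Q' θ).2‖ ≤ 2 * σ + B2 * (2 * σ) := by
        have := norm_sub_le ((Q' θ).2 + Gam f (Q θ).1 (Q θ).2 (Q' θ).1)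
          (Gam f (Q θ).1 (Q θ).2 (Q' θ).1)
        rw [add_sub_cancel_right] at this
        linarith
      have c5 : ‖Q' θ‖ ≤ (2 + 2 * B2) * σ := by
        rw [Prod.norm_def]
        exact max_le (by nlinarith) (by linarith)
      rw [mul_assoc]
      exact ((fderiv ℝ Φ (Q θ)).le_opNorm _).trans
        (mul_le_mul c1 c5 (norm_nonneg _) ((norm_nonneg _).trans c1))) 1 ⟨zero_le_one, le_rfl⟩
  rw [abs_sub_comm]
  simpa using hv'

theorem near_lip_fin {f : EE → ℝ} (hf : Conf f) {δ : ℝ} (hδ : 0 < δ) (σ₀ : ℝ) {ι : Type}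
    {S : Set ι} (hS : S.Finite) {Φ : ι → EE × EE → ℝ} (hΦ : ∀ i, ContDiffOn ℝ 1 (Φ i) OO) :
    ∃ C : ℝ, 0 ≤ C ∧ ∀ i ∈ S, ∀ (σ : ℝ) (p q : EE × EE), σ ≤ σ₀ → Near f σ p q →
      δ ≤ Dd p.1 → |Φ i p - Φ i q| ≤ C * σ := by
  choose C hC using fun i => near_lip hf hδ σ₀ (hΦ i)
  obtain ⟨B, hB⟩ := (hS.image C).bddAbove
  refine ⟨max B 0, le_max_right _ _, fun i hi σ p q hσ hn hp => (hC i σ p q hσ hn hp).trans ?_⟩
  obtain ⟨Q, Q', -, -, h⟩ := hn
  have hσ0 : 0 ≤ σ := (Real.sqrt_nonneg _).trans (h 0 ⟨le_rfl, zero_le_one⟩).2.2.2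
  exact mul_le_mul_of_nonneg_right ((hB (mem_image_of_mem C hi)).trans (le_max_left _ _)) hσ0

end Dstr

end Pool.Agent.MP_019006_gt

end

section

set_option autoImplicit false

open MeasureTheory Filter Topology Set Matrix

namespace Pool.Agent.MP_019006_gt

namespace Bump

section general

variable {Λ : ℝ} {G : Type} [Group G] {ρ : G →* C3}

theorem u21 (hρ : IsLattice Λ G ρ) (a : G) : IsU21 (ρ a) := hρ.unit a

theorem ext_inv (hρ : IsLattice Λ G ρ) (F0 : EE → ℝ) (a : G) {x : EE} (hx : x ∈ Bl) :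
    ext ρ F0 (mob (ρ a) x) = ext ρ F0 x := by
  unfold ext
  rw [if_pos hx, if_pos (mob_mem (u21 hρ a) hx), ← (Equiv.mulRight a).tsum_eq
    fun b => F0 (mob (ρ b) x)]
  congr 1
  ext b
  rw [Equiv.coe_mulRight, map_mul, mob_mul (u21 hρ a) hx]

theorem ext_loc (hρ : IsLattice Λ G ρ) (hΛ : 4 ≤ Λ) {F0 : EE → ℝ}
    (h0 : ∀ y, 1 / 4 ≤ ‖y‖ → F0 y = 0) {x : EE} (hx : ‖x‖ < 1 / 2) : ext ρ F0 x = F0 x := by
  have hB : x ∈ Bl := mem_Bl.2 (by linarith)
  unfold ext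
  rw [if_pos hB, tsum_eq_single 1, map_one, mob_one]
  intro a ha
  apply h0
  have h1 := lattice_far hρ (by linarith) a ha hx.le
  have h2 : 4 / Λ ^ 2 ≤ 1 / 4 := by
    rw [div_le_div_iff₀ (by positivity) (by norm_num)]; nlinarith
  unfold Dd at h1
  by_contra hn
  have := norm_nonneg (mob (ρ a) x)
  nlinarith

theorem continuousAt_mob (hρ : IsLattice Λ G ρ) (a : G) {x : EE} (hx : x ∈ Bl) :
    ContinuousAt (mob (ρ a)) x :=
  (contDiffOn_mob (u21 hρ a) 0).continuousOn.continuousAt (isOpen_Bl.mem_nhds hx)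

theorem ext_near (hρ : IsLattice Λ G ρ) (hΛ : 4 ≤ Λ) {F0 : EE → ℝ}
    (h0 : ∀ y, 1 / 4 ≤ ‖y‖ → F0 y = 0) (a : G) {x : EE} (hx : x ∈ Bl)
    (ha : ‖mob (ρ a) x‖ < 1 / 2) : ext ρ F0 =ᶠ[𝓝 x] fun y => F0 (mob (ρ a) y) := by
  have h1 : ∀ᶠ y in 𝓝 x, ‖mob (ρ a) y‖ < 1 / 2 :=
    (continuousAt_mob hρ a hx).norm.eventually (gt_mem_nhds ha)
  filter_upwards [h1, isOpen_Bl.mem_nhds hx] with y h2 h3
  rw [← ext_inv hρ F0 a h3, ext_loc hρ hΛ h0 h2]

theorem ext_zero (hρ : IsLattice Λ G ρ) {F0 : EE → ℝ} {t : ℝ} (ht : t ≤ 1 / 2)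
    (h0 : ∀ y, t ≤ ‖y‖ → F0 y = 0) {x : EE} (hx : x ∈ Bl)
    (ha : ∀ a, t < ‖mob (ρ a) x‖) : ext ρ F0 =ᶠ[𝓝 x] fun _ => 0 := by
  have hD := Dd_pos hx
  set c := min (Dd x / 2) (1 / 2) with hc
  have hc0 : 0 < c := lt_min (by linarith) (by norm_num)
  have hfin := lattice_fin hρ c hc0
  have h1 : ∀ᶠ y in 𝓝 x, ∀ a ∈ {a : G | ∃ x ∈ Bl, c ≤ Dd x ∧ c ≤ Dd (mob (ρ a) x)},
      t < ‖mob (ρ a) y‖ :=
    (eventually_all_finite hfin).2 fun a _ =>
      (continuousAt_mob hρ a hx).norm.eventually (lt_mem_nhds (ha a))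
  have h2 : ∀ᶠ y in 𝓝 x, Dd x / 2 < Dd y :=
    Mob.continuous_Dd.continuousAt.eventually (lt_mem_nhds (by linarith))
  filter_upwards [h1, h2, isOpen_Bl.mem_nhds hx] with y h3 h4 h5
  unfold ext
  rw [if_pos h5]
  have : ∀ a, F0 (mob (ρ a) y) = 0 := by
    intro a
    apply h0
    by_cases h6 : c ≤ Dd (mob (ρ a) y)
    · exact (h3 a ⟨y, h5, (min_le_left _ _).trans h4.le, h6⟩).le
    · have h7 : c ≤ 1 / 2 := min_le_right _ _
      unfold Dd at h6
      by_contra hn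
      have := norm_nonneg (mob (ρ a) y)
      nlinarith
  simp [this]

theorem ext_cases (hρ : IsLattice Λ G ρ) (hΛ : 4 ≤ Λ) {F0 : EE → ℝ}
    (h0 : ∀ y, 1 / 4 ≤ ‖y‖ → F0 y = 0) {x : EE} (hx : x ∈ Bl) :
    (∃ a, ext ρ F0 =ᶠ[𝓝 x] fun y => F0 (mob (ρ a) y)) ∨ ext ρ F0 =ᶠ[𝓝 x] fun _ => 0 := by
  by_cases h : ∃ a, ‖mob (ρ a) x‖ < 1 / 2
  · obtain ⟨a, ha⟩ := h
    exact Or.inl ⟨a, ext_near hρ hΛ h0 a hx ha⟩
  · push Not at h
    exact Or.inr (ext_zero hρ (by norm_num) h0 hx fun a => by linarith [h a])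

theorem ext_smooth (hρ : IsLattice Λ G ρ) (hΛ : 4 ≤ Λ) {F0 : EE → ℝ}
    (h0 : ∀ y, 1 / 4 ≤ ‖y‖ → F0 y = 0) (n : ℕ) (hs : ContDiff ℝ n F0) :
    ContDiffOn ℝ n (ext ρ F0) Bl := by
  intro x hx
  apply ContDiffAt.contDiffWithinAt
  rcases ext_cases hρ hΛ h0 hx with ⟨a, h⟩ | h
  · exact (hs.contDiffAt.comp x ((contDiffOn_mob (u21 hρ a) n).contDiffAt
      (isOpen_Bl.mem_nhds hx))).congr_of_eventuallyEq h
  · exact contDiffAt_const.congr_of_eventuallyEq h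

end general

theorem TT_congr {f g : EE → ℝ} {x : EE} (h : f =ᶠ[𝓝 x] g) (u w : EE) :
    TT f x u w = TT g x u w := by
  have h1 : fderiv ℝ f x = fderiv ℝ g x := h.fderiv_eq
  have h2 : (fun y => fderiv ℝ f y w) =ᶠ[𝓝 x] fun y => fderiv ℝ g y w := by
    filter_upwards [h.fderiv (𝕜 := ℝ)] with y hy
    rw [hy]
  have h3 : gradient f x = gradient g x := h.gradient_eq
  unfold TT Hess NN
  rw [h1, h2.fderiv_eq, h3]

theorem TT_zero (x u w : EE) : TT (fun _ => 0) x u w = 0 := by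
  simp [TT, Hess]

theorem g0_nonneg {x : EE} (hx : x ∈ Bl) (u : EE) : 0 ≤ g0 x u u :=
  (sq_nonneg _).trans (g0_bounds hx u).1

theorem abs_g0_le {x : EE} (hx : x ∈ Bl) (u w : EE) :
    |g0 x u w| ≤ (g0 x u u + g0 x w w) / 2 := by
  have h1 := norm_hh_sq_le hx u w
  have h2 : |g0 x u w| ≤ ‖hh x u w‖ := Complex.abs_re_le_norm _
  have h3 := g0_nonneg hx u
  have h4 := g0_nonneg hx w
  refine h2.trans (abs_le_of_sq_le_sq' ?_ (by linarith)).2
  nlinarith [sq_nonneg (g0 x u u - g0 x w w)]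

theorem norm_mul_le {x : EE} (hx : x ∈ Bl) (u w : EE) :
    ‖u‖ * ‖w‖ ≤ (g0 x u u + g0 x w w) / 2 := by
  have h1 := (g0_bounds hx u).1
  have h2 := (g0_bounds hx w).1
  nlinarith [sq_nonneg (‖u‖ - ‖w‖)]

theorem norm_al_le {x : EE} (hx : ‖x‖ ≤ 1 / 2) (u : EE) : ‖al x u‖ ≤ ‖u‖ := by
  have h0 := norm_nonneg x
  have hD : 1 / 2 ≤ Dd x := by unfold Dd; nlinarith
  unfold al
  rw [norm_div, Complex.norm_real, Real.norm_eq_abs, abs_of_pos (by linarith),
    div_le_iff₀ (by linarith)]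
  refine (norm_ip_le u x).trans (mul_le_mul_of_nonneg_left (by linarith) (norm_nonneg _))

theorem norm_Gam0_le {x : EE} (hx : ‖x‖ ≤ 1 / 2) (u w : EE) :
    ‖Gam0 x u w‖ ≤ 2 * (‖u‖ * ‖w‖) := by
  unfold Gam0
  refine (norm_add_le _ _).trans ?_
  rw [norm_smul, norm_smul]
  have h1 := mul_le_mul_of_nonneg_right (norm_al_le hx u) (norm_nonneg w)
  have h2 := mul_le_mul_of_nonneg_right (norm_al_le hx w) (norm_nonneg u)
  linarith

/-- the pointwise smallness statement. -/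
structure Small (f : EE → ℝ) (x : EE) (k r : ℝ) : Prop where
  fb : |f x| ≤ k
  dfb : ∀ u, (fderiv ℝ f x u) ^ 2 ≤ (k * r) ^ 2 * g0 x u u
  Tb : ∀ u w, |TT f x u w| ≤ 4 * k * ((g0 x u u + g0 x w w) / 2)

theorem small_of_zero {f : EE → ℝ} {x : EE} (hx : x ∈ Bl) (h : f =ᶠ[𝓝 x] fun _ => 0) {k r : ℝ}
    (hk : 0 ≤ k) : Small f x k r := by
  refine ⟨?_, fun u => ?_, fun u w => ?_⟩
  · rw [h.eq_of_nhds]; simpa using hk
  · rw [h.fderiv_eq]
    have := g0_nonneg hx u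
    simp only [fderiv_fun_const, Pi.zero_apply, _root_.zero_apply]
    norm_num
    positivity
  · rw [TT_congr h, TT_zero, abs_zero]
    have := g0_nonneg hx u
    have := g0_nonneg hx w
    positivity

theorem Small.congr {f g : EE → ℝ} {x : EE} {k r : ℝ} (h : f =ᶠ[𝓝 x] g) (hs : Small g x k r) :
    Small f x k r := by
  refine ⟨?_, fun u => ?_, fun u w => ?_⟩
  · rw [h.eq_of_nhds]; exact hs.fb
  · rw [h.fderiv_eq]; exact hs.dfb u
  · rw [TT_congr h]; exact hs.Tb u w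

theorem Small.of_mob {A : C3} (hA : IsU21 A) {f : EE → ℝ} (hf : ∀ n : ℕ, ContDiffOn ℝ n f Bl)
    (hfA : ∀ x ∈ Bl, f (mob A x) = f x) {x : EE} (hx : x ∈ Bl) {k r : ℝ}
    (hs : Small f (mob A x) k r) : Small f x k r := by
  have hg : ∀ u, g0 (mob A x) (dmob A x u) (dmob A x u) = g0 x u u := fun u => by
    unfold g0; rw [hh_mob hA hx]
  refine ⟨?_, fun u => ?_, fun u w => ?_⟩
  · rw [← hfA x hx]; exact hs.fb
  · rw [← fderiv_f_mob hA hf hfA hx, ← hg]; exact hs.dfb _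
  · rw [← TT_mob hA hf hfA hx, ← hg u, ← hg w]; exact hs.Tb _ _

theorem fderiv_f0 {F : EE → ℝ} (hF : Differentiable ℝ F) (ε : ℝ) {r : ℝ} (hr : r ≠ 0)
    (x u : EE) : fderiv ℝ (f0 F ε r) x u = ε * r * fderiv ℝ F (r⁻¹ • x) u := by
  have h1 : HasFDerivAt (fun y : EE => r⁻¹ • y) (r⁻¹ • ContinuousLinearMap.id ℝ EE) x :=
    (hasFDerivAt_id x).const_smul r⁻¹
  have h2 := (((hF (r⁻¹ • x)).hasFDerivAt).comp x h1).const_mul (ε * r ^ 2)
  have e : f0 F ε r = fun y => ε * r ^ 2 * (F ∘ fun y : EE => r⁻¹ • y) y := rfl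
  rw [e, h2.fderiv]
  simp only [_root_.smul_apply, ContinuousLinearMap.comp_apply, ContinuousLinearMap.id_apply,
    map_smul, smul_eq_mul]
  field_simp

theorem fderiv2_f0 {F : EE → ℝ} (hF : ContDiff ℝ 2 F) (ε : ℝ) {r : ℝ} (hr : r ≠ 0)
    (x u w : EE) : fderiv ℝ (fun y => fderiv ℝ (f0 F ε r) y w) x u =
      ε * fderiv ℝ (fderiv ℝ F) (r⁻¹ • x) u w := by
  have hd : Differentiable ℝ F := hF.differentiable (by norm_num)
  have hd2 : Differentiable ℝ (fderiv ℝ F) :=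
    (hF.fderiv_right (m := 1) (by norm_num)).differentiable (by norm_num)
  simp only [fderiv_f0 hd ε hr]
  have h1 : HasFDerivAt (fun y : EE => r⁻¹ • y) (r⁻¹ • ContinuousLinearMap.id ℝ EE) x :=
    (hasFDerivAt_id x).const_smul r⁻¹
  have h2 := ((hd2 (r⁻¹ • x)).hasFDerivAt).comp x h1
  have h3 := ((ContinuousLinearMap.apply ℝ ℝ w).hasFDerivAt.comp x h2).const_mul (ε * r)
  have e : (fun y => ε * r * fderiv ℝ F (r⁻¹ • y) w) = fun y => ε * r *
      ((ContinuousLinearMap.apply ℝ ℝ w) ∘ (fderiv ℝ F ∘ fun y : EE => r⁻¹ • y)) y := rfl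
  rw [e, h3.fderiv]
  simp only [_root_.smul_apply, ContinuousLinearMap.comp_apply, ContinuousLinearMap.id_apply,
    map_smul, smul_eq_mul, ContinuousLinearMap.apply_apply]
  field_simp

theorem small_f0 {F : EE → ℝ} (hF : ContDiff ℝ 2 F) {CF : ℝ} (h0 : ∀ y, |F y| ≤ CF)
    (h1 : ∀ y, ‖fderiv ℝ F y‖ ≤ CF) (h2 : ∀ y, ‖fderiv ℝ (fderiv ℝ F) y‖ ≤ CF) {ε r : ℝ}
    (hε : 0 < ε) (hk : CF * ε ≤ 1) (hr : 0 < r) (hr' : r ≤ 1 / 2) {x : EE} (hx : ‖x‖ ≤ 1 / 2) :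
    Small (f0 F ε r) x (CF * ε) r := by
  have hB : x ∈ Bl := mem_Bl.2 (by linarith)
  have hd : Differentiable ℝ F := hF.differentiable (by norm_num)
  have hC : 0 ≤ CF := (abs_nonneg _).trans (h0 0)
  set k := CF * ε with hkdef
  have hk0 : 0 ≤ k := by positivity
  have hdf : ∀ u, |fderiv ℝ (f0 F ε r) x u| ≤ k * r * ‖u‖ := by
    intro u
    rw [fderiv_f0 hd ε hr.ne', abs_mul, abs_of_pos (mul_pos hε hr)]
    have : |fderiv ℝ F (r⁻¹ • x) u| ≤ CF * ‖u‖ :=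
      (ContinuousLinearMap.le_opNorm _ u).trans
        (mul_le_mul_of_nonneg_right (h1 _) (norm_nonneg _))
    calc ε * r * |fderiv ℝ F (r⁻¹ • x) u| ≤ ε * r * (CF * ‖u‖) :=
          mul_le_mul_of_nonneg_left this (by positivity)
      _ = k * r * ‖u‖ := by rw [hkdef]; ring
  have hdf2 : ∀ u, (fderiv ℝ (f0 F ε r) x u) ^ 2 ≤ (k * r) ^ 2 * g0 x u u := by
    intro u
    have h3 := pow_le_pow_left₀ (abs_nonneg _) (hdf u) 2
    rw [sq_abs, mul_pow] at h3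
    exact h3.trans (mul_le_mul_of_nonneg_left (g0_bounds hB u).1 (by positivity))
  have hkr : k * r ≤ k / 2 := by nlinarith
  have hkr0 : 0 ≤ k * r := by positivity
  have hkr2 : (k * r) ^ 2 ≤ k := by nlinarith
  refine ⟨?_, hdf2, fun u w => ?_⟩
  · unfold f0
    rw [abs_mul, abs_of_pos (by positivity)]
    have h3 := h0 (r⁻¹ • x)
    have h4 : r ^ 2 ≤ 1 := by nlinarith
    calc ε * r ^ 2 * |F (r⁻¹ • x)| ≤ ε * 1 * CF := by gcongr
      _ = k := by rw [hkdef]; ring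
  · have hm := norm_mul_le hB u w
    have hg := abs_g0_le hB u w
    set m := (g0 x u u + g0 x w w) / 2
    have huw : 0 ≤ ‖u‖ * ‖w‖ := by positivity
    have a1 : |fderiv ℝ (fun y => fderiv ℝ (f0 F ε r) y w) x u| ≤ k * m := by
      rw [fderiv2_f0 hF ε hr.ne', abs_mul, abs_of_pos hε]
      have : |fderiv ℝ (fderiv ℝ F) (r⁻¹ • x) u w| ≤ CF * (‖u‖ * ‖w‖) := by
        refine (ContinuousLinearMap.le_opNorm₂ (fderiv ℝ (fderiv ℝ F) (r⁻¹ • x)) u w).trans ?_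
        rw [mul_assoc]
        exact mul_le_mul_of_nonneg_right (h2 _) huw
      calc ε * |fderiv ℝ (fderiv ℝ F) (r⁻¹ • x) u w| ≤ ε * (CF * m) := by
            gcongr; exact this.trans (mul_le_mul_of_nonneg_left hm hC)
        _ = k * m := by rw [hkdef]; ring
    have a2 : |fderiv ℝ (f0 F ε r) x (Gam0 x u w)| ≤ k * m := by
      refine (hdf _).trans ?_
      have h3 := norm_Gam0_le hx u w
      calc k * r * ‖Gam0 x u w‖ ≤ k / 2 * (2 * m) := by gcongr; linarith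
        _ = k * m := by ring
    have a3 : |fderiv ℝ (f0 F ε r) x u * fderiv ℝ (f0 F ε r) x w| ≤ k * m := by
      rw [abs_mul]
      calc |fderiv ℝ (f0 F ε r) x u| * |fderiv ℝ (f0 F ε r) x w|
          ≤ (k * r * ‖u‖) * (k * r * ‖w‖) := by gcongr <;> exact hdf _
        _ = (k * r) ^ 2 * (‖u‖ * ‖w‖) := by ring
        _ ≤ k * m := by gcongr
    have a4 : |1 / 2 * fderiv ℝ (f0 F ε r) x (NN (f0 F ε r) x) * g0 x u w| ≤ k * m := by
      have h3 := hdf2 (NN (f0 F ε r) x)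
      have h4 := g0_nonneg hB (NN (f0 F ε r) x)
      rw [g0_NN _ hB] at h3 h4
      set n := fderiv ℝ (f0 F ε r) x (NN (f0 F ε r) x)
      have h5 : n ≤ (k * r) ^ 2 := by
        by_contra hn
        push Not at hn
        have : 0 < n := lt_of_le_of_lt (by positivity) hn
        nlinarith
      rw [abs_mul, abs_of_nonneg (by positivity : 0 ≤ 1 / 2 * n)]
      gcongr
      linarith
    unfold TT Hess
    have b1 := abs_le.1 a1
    have b2 := abs_le.1 a2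
    have b3 := abs_le.1 a3
    have b4 := abs_le.1 a4
    rw [abs_le]
    constructor <;> linarith [b1.1, b1.2, b2.1, b2.2, b3.1, b3.2, b4.1, b4.2]

theorem exists_bound {F : EE → ℝ} (hF : ContDiff ℝ 2 F) (hs : ∀ x, 1 ≤ ‖x‖ → F x = 0) :
    ∃ CF : ℝ, (∀ y, |F y| ≤ CF) ∧ (∀ y, ‖fderiv ℝ F y‖ ≤ CF) ∧
      ∀ y, ‖fderiv ℝ (fderiv ℝ F) y‖ ≤ CF := by
  have hc : HasCompactSupport F := HasCompactSupport.intro (isCompact_closedBall 0 1) fun x hx =>
    hs x (by rw [mem_closedBall_zero_iff, not_le] at hx; exact hx.le)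
  have hF1 : ContDiff ℝ 1 (fderiv ℝ F) := hF.fderiv_right (by norm_num)
  obtain ⟨C0, h0⟩ := hF.continuous.bounded_above_of_compact_support hc
  obtain ⟨C1, h1⟩ := hF1.continuous.bounded_above_of_compact_support (hc.fderiv ℝ)
  obtain ⟨C2, h2⟩ := (hF1.continuous_fderiv (by norm_num)).bounded_above_of_compact_support
    ((hc.fderiv ℝ).fderiv ℝ)
  exact ⟨max C0 (max C1 C2), fun y => (h0 y).trans (le_max_left _ _),
    fun y => (h1 y).trans ((le_max_left _ _).trans (le_max_right _ _)),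
    fun y => (h2 y).trans ((le_max_right _ _).trans (le_max_right _ _))⟩

theorem f0_zero {F : EE → ℝ} (hs : ∀ x, 1 ≤ ‖x‖ → F x = 0) (ε : ℝ) {r : ℝ} (hr : 0 < r)
    (y : EE) (hy : r ≤ ‖y‖) : f0 F ε r y = 0 := by
  unfold f0
  rw [hs, mul_zero]
  rw [norm_smul, norm_inv, Real.norm_eq_abs, abs_of_pos hr, ← div_eq_inv_mul, one_le_div hr]
  exact hy

theorem b0_zero {r : ℝ} (hr : 0 < r) (y : EE) (hy : 2 * r ≤ ‖y‖) : b0 r y = 0 := by
  unfold b0
  have : 2 ≤ ‖y‖ / r := by rwa [le_div_iff₀ hr]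
  exact max_eq_left ((min_le_right _ _).trans (by linarith))

theorem b0_one {r : ℝ} (hr : 0 < r) (y : EE) (hy : ‖y‖ ≤ r) : b0 r y = 1 := by
  unfold b0
  have : ‖y‖ / r ≤ 1 := by rwa [div_le_one hr]
  rw [min_eq_left (by linarith), max_eq_right zero_le_one]

theorem b0_mem (r : ℝ) (y : EE) : 0 ≤ b0 r y ∧ b0 r y ≤ 1 :=
  ⟨le_max_left _ _, max_le zero_le_one (min_le_left _ _)⟩

theorem b0_cont (r : ℝ) : Continuous (b0 r) := by unfold b0; fun_prop

theorem g0_of_gg {f : EE → ℝ} {x u : EE} (hf : |f x| ≤ 1 / 100) (h : gg f x u u = 1) :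
    g0 x u u ≤ 2 := by
  rw [gg_apply] at h
  have h1 : 1 / 2 ≤ Real.exp (2 * f x) := by
    have := Real.add_one_le_exp (2 * f x)
    have := (abs_le.1 hf).1
    linarith
  by_contra hn
  nlinarith

end Bump

open Bump in
theorem bump_main {F : EE → ℝ} {s₀ : ℝ} (hF : IsProfile F s₀) : ∃ C : ℝ, 1 ≤ C ∧
    ∀ (ε r Λ : ℝ) (G : Type) [Group G] (ρ : G →* C3) (f β : EE → ℝ), 0 < ε → C * ε ≤ 1 / 100 →
      0 < r → r ≤ 1 / 20 → 4 ≤ Λ → IsLattice Λ G ρ → f = ext ρ (f0 F ε r) → β = ext ρ (b0 r) →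
      Conf f ∧ (∀ a, ∀ x ∈ Bl, f (mob (ρ a) x) = f x) ∧ (∀ a, ∀ x ∈ Bl, β (mob (ρ a) x) = β x) ∧
      ContinuousOn β Bl ∧ (∀ x, 0 ≤ β x ∧ β x ≤ 1) ∧
      (∀ x, ‖x‖ < 1 / 2 → f x = f0 F ε r x ∧ β x = b0 r x) ∧
      (∀ x ∈ Bl, β x ≠ 0 → ∃ a, ‖mob (ρ a) x‖ < 2 * r) ∧
      ∀ p : EE × EE, p.1 ∈ Bl → en f p = 1 →
        (∀ i j, |(Kmat f p - K0) i j| ≤ C * ε * β p.1) ∧
        ∀ j, |Omat f p 0 j| ≤ C * ε * (6 * r) * β p.1 := by
  have hF2 : ContDiff ℝ 2 F := hF.smooth 2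
  obtain ⟨CF, h0, h1, h2⟩ := exists_bound hF2 hF.supp
  have hC : 0 ≤ CF := (abs_nonneg _).trans (h0 0)
  refine ⟨32 * CF + 1, by linarith, ?_⟩
  intro ε r Λ G _ ρ f β hε hCε hr hr' hΛ hρ hf hβ
  have hk : CF * ε ≤ 1 / 3200 := by nlinarith
  have hk0 : 0 ≤ CF * ε := by positivity
  have zf : ∀ y : EE, 1 / 4 ≤ ‖y‖ → f0 F ε r y = 0 := fun y hy =>
    f0_zero hF.supp ε hr y (by linarith)
  have zb : ∀ y : EE, 1 / 4 ≤ ‖y‖ → b0 r y = 0 := fun y hy => b0_zero hr y (by linarith)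
  have fsm : ∀ n : ℕ, ContDiffOn ℝ n f Bl := fun n => by
    rw [hf]
    exact ext_smooth hρ hΛ zf n
      (contDiff_const.mul ((hF.smooth n).comp (contDiff_id.const_smul r⁻¹)))
  have finv : ∀ a, ∀ x ∈ Bl, f (mob (ρ a) x) = f x := fun a x hx => by
    rw [hf]; exact ext_inv hρ _ a hx
  have binv : ∀ a, ∀ x ∈ Bl, β (mob (ρ a) x) = β x := fun a x hx => by
    rw [hβ]; exact ext_inv hρ _ a hx
  have bcont : ContinuousOn β Bl := by
    rw [hβ]
    exact (ext_smooth hρ hΛ zb 0 (contDiff_zero.2 (b0_cont r))).continuousOn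
  have bmem : ∀ x, 0 ≤ β x ∧ β x ≤ 1 := by
    intro x
    rw [hβ]
    by_cases hx : x ∈ Bl
    · rcases ext_cases hρ hΛ zb hx with ⟨a, h⟩ | h
      · rw [h.eq_of_nhds]; exact b0_mem _ _
      · rw [h.eq_of_nhds]; norm_num
    · unfold ext; rw [if_neg hx]; norm_num
  have loc : ∀ x, ‖x‖ < 1 / 2 → f x = f0 F ε r x ∧ β x = b0 r x := fun x hx => by
    rw [hf, hβ]; exact ⟨ext_loc hρ hΛ zf hx, ext_loc hρ hΛ zb hx⟩
  have small : ∀ x ∈ Bl, Small f x (CF * ε * β x) r := by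
    intro x hx
    by_cases h : ∃ a, ‖mob (ρ a) x‖ ≤ r
    · obtain ⟨a, ha⟩ := h
      have hlt : ‖mob (ρ a) x‖ < 1 / 2 := by linarith
      have hb : β x = 1 := by rw [← binv a x hx, (loc _ hlt).2, b0_one hr _ ha]
      rw [hb, mul_one]
      refine Small.of_mob (u21 hρ a) fsm (finv a) hx (Small.congr ?_
        (small_f0 hF2 h0 h1 h2 hε (by linarith) hr (by linarith) hlt.le))
      filter_upwards [continuous_norm.continuousAt.eventually (gt_mem_nhds hlt)] with y hy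
      exact (loc y hy).1
    · push Not at h
      refine small_of_zero hx ?_ (mul_nonneg hk0 (bmem x).1)
      rw [hf]
      exact ext_zero hρ (by linarith) (f0_zero hF.supp ε hr) hx h
  have kb : ∀ x, 0 ≤ CF * ε * β x ∧ CF * ε * β x ≤ 1 / 3200 := fun x =>
    ⟨mul_nonneg hk0 (bmem x).1, by nlinarith [bmem x]⟩
  have fb : ∀ x ∈ Bl, |f x| ≤ 1 / 100 := fun x hx =>
    (small x hx).fb.trans (by linarith [(kb x).2])
  refine ⟨⟨fsm, fb, fun x hx u => ?_, fun x hx u => ?_⟩, finv, binv, bcont, bmem, loc, ?_, ?_⟩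
  · refine ((small x hx).dfb u).trans (mul_le_mul_of_nonneg_right ?_ (g0_nonneg hx u))
    obtain ⟨k0, k1⟩ := kb x
    have : CF * ε * β x * r ≤ 1 / 100 := by nlinarith
    have h3 : 0 ≤ CF * ε * β x * r := by positivity
    nlinarith
  · refine ((small x hx).Tb u u).trans ?_
    have := g0_nonneg hx u
    nlinarith [(kb x).2]
  · intro x hx hb
    by_contra hn
    push Not at hn
    apply hb
    rw [hβ]
    unfold ext
    rw [if_pos hx]
    simp [fun a => b0_zero hr _ (hn a)]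
  · intro p hp he
    obtain ⟨k0, k1⟩ := kb p.1
    have hs := small p.1 hp
    set k := CF * ε * β p.1 with hkdef
    have hkC : 32 * k ≤ (32 * CF + 1) * ε * β p.1 := by
      rw [hkdef]
      have := mul_nonneg hε.le (bmem p.1).1
      nlinarith
    have gv : g0 p.1 p.2 p.2 ≤ 2 := g0_of_gg (fb _ hp) he
    have gf : ∀ i, g0 p.1 (frame p i) (frame p i) ≤ 2 := fun i =>
      g0_of_gg (fb _ hp) (by rw [(frame_orth hp he i i).1, Matrix.one_apply_eq])
    constructor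
    · intro i j
      rw [Matrix.sub_apply, Kmat_eq fsm hp he]
      have a1 : |Real.exp (-2 * f p.1) - 1| ≤ 4 * k := by
        have h3 := hs.fb
        have h4 : |-2 * f p.1| = 2 * |f p.1| := by rw [abs_mul]; norm_num
        refine (Real.abs_exp_sub_one_le (by rw [h4]; linarith)).trans ?_
        rw [h4]; linarith
      have a2 : |K0 i j| ≤ 4 := by
        fin_cases i <;> fin_cases j <;> simp [K0]
      have a3 : |(1 : M3) i j| ≤ 1 := by
        rw [Matrix.one_apply]; split_ifs <;> simp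
      have a4 : |TT f p.1 p.2 p.2| ≤ 8 * k := (hs.Tb _ _).trans (by nlinarith)
      have a5 : |TT f p.1 (frame p j) (frame p i)| ≤ 8 * k :=
        (hs.Tb _ _).trans (by nlinarith [gf i, gf j])
      have a6 : |(Real.exp (-2 * f p.1) - 1) * K0 i j| ≤ 4 * k * 4 := by
        rw [abs_mul]; gcongr
      have a7 : |TT f p.1 p.2 p.2 * (1 : M3) i j| ≤ 8 * k * 1 := by
        rw [abs_mul]; gcongr
      have b5 := abs_le.1 a5
      have b6 := abs_le.1 a6
      have b7 := abs_le.1 a7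
      rw [abs_le]
      constructor <;> linarith [b5.1, b5.2, b6.1, b6.2, b7.1, b7.2]
    · have hb : ∀ i, |fderiv ℝ f p.1 (frame p i)| ≤ (32 * CF + 1) * ε * (6 * r) * β p.1 := by
        intro i
        have h3 : |fderiv ℝ f p.1 (frame p i)| ≤ 2 * (k * r) := by
          apply abs_le_of_sq_le_sq _ (by positivity)
          refine (hs.dfb _).trans ?_
          nlinarith [gf i, sq_nonneg (k * r)]
        refine h3.trans ?_
        have h4 : (32 * CF + 1) * ε * (6 * r) * β p.1 = (32 * CF + 1) * ε * β p.1 * (6 * r) := by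
          ring
        rw [h4]
        nlinarith
      obtain ⟨o0, o1, o2⟩ := Omat_zero fsm hp he
      intro j
      fin_cases j
      · exact (le_of_eq (by simpa using o0)).trans ((abs_nonneg _).trans (hb 0))
      · exact (le_of_eq (congrArg abs o1)).trans (hb 2)
      · exact (le_of_eq ((congrArg abs o2).trans (abs_neg _))).trans (hb 1)

end Pool.Agent.MP_019006_gt

end
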