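import Pool.Agent.Mg.F019006.Gc982f7

section

set_option autoImplicit false

open MeasureTheory Filter Topology Set Matrix

namespace Pool.Agent.MP_019006_gt

namespace OT

open OE

variable {K Om Y H : ℝ → M3}

theorem f_ne (h : TwoSys K Om Y H) {t : ℝ} (ht : 0 ≤ t) : Y t 0 0 ≠ 0 := by
  intro h0
  have := cone_pos h (Or.inl rfl) ht ![1, 0, 0] (by rw [Y0_vec h]; simp [Qk])
  simp only [Qk, mv] at this
  simp [h0] at this
  nlinarith [sq_nonneg (Y t 1 0), sq_nonneg (Y t 2 0)]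

/-- The slow plane, for all times. -/
theorem slow_plane (h : TwoSys K Om Y H) :
    ∃ α β : ℝ, α ^ 2 ≤ 1 ∧ β ^ 2 ≤ 1 ∧ ∀ t x y : ℝ, Qk 1 (Y t *ᵥ sv α β x y) ≤ 0 := by
  unfold sv
  set c : ℕ → ℝ × ℝ := fun n => (Y n 0 1 / Y n 0 0, Y n 0 2 / Y n 0 0) with hc
  have key : ∀ n : ℕ, ∀ t : ℝ, t ≤ n → ∀ x y : ℝ,
      Qk 1 (Y t *ᵥ ![-((c n).1 * x + (c n).2 * y), x, y]) ≤ 0 := by
    intro n t htn x y
    by_contra hh
    push Not at hh
    have h1 := cone_pos h (Or.inl rfl) htn _ hh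
    have h2 : (Y n *ᵥ ![-((c n).1 * x + (c n).2 * y), x, y]) 0 = 0 := by
      have := f_ne h (Nat.cast_nonneg (α := ℝ) n)
      rw [mv, hc]; simp; field_simp; ring
    unfold Qk at h1
    rw [h2] at h1
    nlinarith [sq_nonneg ((Y n *ᵥ ![-((c n).1 * x + (c n).2 * y), x, y]) 1),
      sq_nonneg ((Y n *ᵥ ![-((c n).1 * x + (c n).2 * y), x, y]) 2)]
  have b1 : ∀ n, (c n).1 ^ 2 ≤ 1 := by
    intro n
    have := key n 0 (Nat.cast_nonneg n) 1 0
    rw [Y0_vec h] at this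
    simp [Qk] at this
    nlinarith [abs_le.mp this]
  have b2 : ∀ n, (c n).2 ^ 2 ≤ 1 := by
    intro n
    have := key n 0 (Nat.cast_nonneg n) 0 1
    rw [Y0_vec h] at this
    simp [Qk] at this
    nlinarith [abs_le.mp this]
  have hcomp : IsCompact (Icc (-1 : ℝ) 1 ×ˢ Icc (-1 : ℝ) 1) := isCompact_Icc.prod isCompact_Icc
  obtain ⟨z, hz0, φ, hφ, hz⟩ := hcomp.tendsto_subseq (x := c) (fun n => by
    have h1 := b1 n
    have h2 := b2 n
    refine ⟨⟨?_, ?_⟩, ⟨?_, ?_⟩⟩ <;> nlinarith [sq_nonneg (c n).1, sq_nonneg (c n).2])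
  refine ⟨z.1, z.2, by nlinarith [hz0.1.1, hz0.1.2], by nlinarith [hz0.2.1, hz0.2.2],
    fun t x y => ?_⟩
  have hcont : Continuous fun w : ℝ × ℝ => Qk 1 (Y t *ᵥ ![-(w.1 * x + w.2 * y), x, y]) := by
    simp only [Qk, mv]
    simp
    fun_prop
  refine le_of_tendsto ((hcont.tendsto z).comp hz) ?_
  filter_upwards [eventually_ge_atTop ⌈t⌉₊] with m hm
  refine key (φ m) t ?_ x y
  exact (Nat.le_ceil t).trans (by exact_mod_cast hm.trans (hφ.id_le m))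

theorem Qk_smul (k r : ℝ) (v : Fin 3 → ℝ) : Qk k (r • v) = r ^ 2 * Qk k v := by
  simp only [Qk, Pi.smul_apply, smul_eq_mul]; ring

theorem nsq_smul (r : ℝ) (v : Fin 3 → ℝ) : nsq (r • v) = r ^ 2 * nsq v := by
  simp only [nsq, Pi.smul_apply, smul_eq_mul]; ring

/-- The fast vector. -/
theorem fast_vec (h : TwoSys K Om Y H) :
    ∃ a b : ℝ, ∀ t : ℝ, 0 ≤ Qk (1 / 5) (Y t *ᵥ ![1, a, b]) := by
  set g : ℕ → Fin 3 → ℝ := fun n => (Y (-(n : ℝ)))⁻¹ *ᵥ ![1, 0, 0] with hg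
  have key0 : ∀ n : ℕ, ∀ t : ℝ, -(n : ℝ) ≤ t → 0 < Qk (1 / 5) (Y t *ᵥ g n) := by
    intro n t ht
    refine cone_pos h (Or.inr rfl) ht _ ?_
    rw [hg]
    simp only [mul_inv_vec h]
    simp [Qk]
  have g0 : ∀ n, g n 0 ≠ 0 := by
    intro n h0
    have := key0 n 0 (by simp)
    rw [Y0_vec h] at this
    simp only [Qk, h0] at this
    nlinarith [sq_nonneg (g n 1), sq_nonneg (g n 2)]
  set c : ℕ → ℝ × ℝ := fun n => (g n 1 / g n 0, g n 2 / g n 0) with hc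
  have key : ∀ n : ℕ, ∀ t : ℝ, -(n : ℝ) ≤ t → 0 ≤ Qk (1 / 5) (Y t *ᵥ ![1, (c n).1, (c n).2]) := by
    intro n t ht
    have e : ![1, (c n).1, (c n).2] = (g n 0)⁻¹ • g n := by
      have := g0 n
      funext i
      fin_cases i <;> simp [hc] <;> field_simp
    rw [e, Matrix.mulVec_smul, Qk_smul]
    exact mul_nonneg (sq_nonneg _) (key0 n t ht).le
  have hcomp : IsCompact (Icc (-1 : ℝ) 1 ×ˢ Icc (-1 : ℝ) 1) := isCompact_Icc.prod isCompact_Icc
  obtain ⟨z, -, φ, hφ, hz⟩ := hcomp.tendsto_subseq (x := c) (fun n => by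
    have h1 := key n 0 (by simp)
    rw [Y0_vec h] at h1
    simp only [Qk] at h1
    simp at h1
    refine ⟨⟨?_, ?_⟩, ⟨?_, ?_⟩⟩ <;> nlinarith [sq_nonneg (c n).1, sq_nonneg (c n).2])
  refine ⟨z.1, z.2, fun t => ?_⟩
  have hcont : Continuous fun w : ℝ × ℝ => Qk (1 / 5) (Y t *ᵥ ![1, w.1, w.2]) := by
    simp only [Qk, mv]
    simp
    fun_prop
  refine ge_of_tendsto ((hcont.tendsto z).comp hz) ?_
  filter_upwards [eventually_ge_atTop ⌈-t⌉₊] with m hm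
  refine key (φ m) t ?_
  have : -t ≤ (φ m : ℝ) := (Nat.le_ceil (-t)).trans (by exact_mod_cast hm.trans (hφ.id_le m))
  linarith

theorem cone_facts {v : Fin 3 → ℝ} (hv : 0 < nsq v) (hq : 0 ≤ Qk (1 / 5) v) :
    0 < v 0 ^ 2 ∧ v 1 ^ 2 + v 2 ^ 2 < 1 / 4 * v 0 ^ 2 ∧ nsq v ≤ 6 / 5 * v 0 ^ 2 := by
  simp only [Qk, nsq] at *
  refine ⟨by linarith, by linarith, by linarith⟩

theorem pert_cone (f0 f1 f2 v0 v1 v2 θ : ℝ) (h0 : 0 < f0 ^ 2)
    (hf : f1 ^ 2 + f2 ^ 2 ≤ 1 / 5 * f0 ^ 2) (hv : 9 * (v0 ^ 2 + v1 ^ 2 + v2 ^ 2) ≤ f0 ^ 2)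
    (hθ : θ ^ 2 < 1) : 0 < (f0 + θ * v0) ^ 2 - (f1 + θ * v1) ^ 2 - (f2 + θ * v2) ^ 2 := by
  have k : (θ * v0) ^ 2 + (θ * v1) ^ 2 + (θ * v2) ^ 2 ≤ 1 / 9 * f0 ^ 2 := by
    have : θ ^ 2 * (v0 ^ 2 + v1 ^ 2 + v2 ^ 2) ≤ 1 * (v0 ^ 2 + v1 ^ 2 + v2 ^ 2) :=
      mul_le_mul_of_nonneg_right hθ.le (by positivity)
    linarith
  generalize θ * v0 = w0 at *
  generalize θ * v1 = w1 at *
  generalize θ * v2 = w2 at *
  nlinarith [sq_nonneg (f0 + 4 * w0), sq_nonneg (f1 - 2 * w1), sq_nonneg (f2 - 2 * w2),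
    sq_nonneg w0, sq_nonneg w1, sq_nonneg w2]

/-- Domination of every vector by the fast one. -/
theorem dom (h : TwoSys K Om Y H) {f : Fin 3 → ℝ} (hf0 : 0 < nsq f)
    (hf : ∀ t, 0 ≤ Qk (1 / 5) (Y t *ᵥ f)) {a b : ℝ} (hab : a ≤ b) (u : Fin 3 → ℝ) :
    nsq (Y b *ᵥ u) * (Y a *ᵥ f) 0 ^ 2 ≤ 54 * (Y b *ᵥ f) 0 ^ 2 * nsq (Y a *ᵥ u) := by
  obtain ⟨a0, -, -⟩ := cone_facts (nsq_Y_pos h a hf0) (hf a)
  rcases (nsq_nonneg u).eq_or_lt with hu | hu
  · have : u = 0 := by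
      funext i
      have := comp_sq_le u i
      rw [← hu] at this
      exact pow_eq_zero_iff (two_ne_zero) |>.mp (le_antisymm this (sq_nonneg _))
    rw [this]
    simp [nsq]
  have pa := nsq_Y_pos h a hu
  set r := Real.sqrt ((Y a *ᵥ f) 0 ^ 2 / (9 * nsq (Y a *ᵥ u))) with hr
  have r2 : r ^ 2 = (Y a *ᵥ f) 0 ^ 2 / (9 * nsq (Y a *ᵥ u)) := Real.sq_sqrt (by positivity)
  have k := col_bd ((Y b *ᵥ f) 0) ((Y b *ᵥ f) 1) ((Y b *ᵥ f) 2) ((Y b *ᵥ (r • u)) 0)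
    ((Y b *ᵥ (r • u)) 1) ((Y b *ᵥ (r • u)) 2) fun θ hθ => by
      have k1 : 0 < Qk 1 (Y a *ᵥ (f + θ • r • u)) := by
        have k2 := hf a
        have k3 : 9 * nsq (Y a *ᵥ (r • u)) ≤ (Y a *ᵥ f) 0 ^ 2 := by
          rw [Matrix.mulVec_smul, nsq_smul, r2]
          field_simp
          exact le_rfl
        rw [Matrix.mulVec_add, Matrix.mulVec_smul]
        simp only [Qk, Pi.add_apply, Pi.smul_apply, smul_eq_mul, one_mul, nsq] at k2 k3 ⊢
        exact pert_cone _ _ _ _ _ _ θ a0 (by linarith) k3 hθ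
      have k4 := cone_pos h (Or.inl rfl) hab _ k1
      rw [Matrix.mulVec_add, Matrix.mulVec_smul] at k4
      simpa only [Qk, Pi.add_apply, Pi.smul_apply, smul_eq_mul, one_mul] using k4
  have k5 : nsq (Y b *ᵥ (r • u)) ≤ 6 * (Y b *ᵥ f) 0 ^ 2 := k
  rw [Matrix.mulVec_smul, nsq_smul, r2, div_mul_eq_mul_div, div_le_iff₀ (by positivity)] at k5
  linarith

theorem sv_eq (α β x y : ℝ) : sv α β x y = x • sv α β 1 0 + y • sv α β 0 1 := by
  funext i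
  fin_cases i <;> simp [sv] <;> ring

theorem fE_eq (A : M3) (α β : ℝ) : fE α A = nsq (A *ᵥ sv α β 1 0) := by
  rw [nsq_sv]; ring

theorem fG_eq (A : M3) (α β : ℝ) : fG β A = nsq (A *ᵥ sv α β 0 1) := by
  rw [nsq_sv]; ring

theorem nsq_sv_ge (α β x y : ℝ) : x ^ 2 + y ^ 2 ≤ nsq (sv α β x y) := by
  simp only [nsq, sv]
  simp
  positivity

theorem nsq_b1 {α : ℝ} (β : ℝ) (hα : α ^ 2 ≤ 1) : nsq (sv α β 1 0) ≤ 2 := by
  simp only [nsq, sv]
  simp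
  linarith

theorem nsq_b2 (α : ℝ) {β : ℝ} (hβ : β ^ 2 ≤ 1) : nsq (sv α β 0 1) ≤ 2 := by
  simp only [nsq, sv]
  simp
  linarith

/-- Decomposition along the fast vector and the slow plane. -/
theorem decomp {α β a b : ℝ} (hΔ : 1 + α * a + β * b ≠ 0) (u : Fin 3 → ℝ) :
    ∃ c x y : ℝ, u = c • ![1, a, b] + sv α β x y := by
  refine ⟨(u 0 + α * u 1 + β * u 2) / (1 + α * a + β * b),
    u 1 - (u 0 + α * u 1 + β * u 2) / (1 + α * a + β * b) * a,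
    u 2 - (u 0 + α * u 1 + β * u 2) / (1 + α * a + β * b) * b, ?_⟩
  funext i
  fin_cases i
  · simp [sv]; field_simp; ring
  · simp [sv]
  · simp [sv]

theorem trans_low (c : ℝ) (φ p : Fin 3 → ℝ) (hφ : φ 1 ^ 2 + φ 2 ^ 2 < 1 / 4 * φ 0 ^ 2)
    (hp : Qk 1 p ≤ 0) : c ^ 2 * φ 0 ^ 2 ≤ 30 * nsq (c • φ + p) := by
  simp only [Qk, nsq, Pi.add_apply, Pi.smul_apply, smul_eq_mul, one_mul] at *
  have k : (c * φ 1) ^ 2 + (c * φ 2) ^ 2 ≤ 1 / 4 * (c * φ 0) ^ 2 := by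
    have := mul_le_mul_of_nonneg_left hφ.le (sq_nonneg c)
    linarith
  rw [← mul_pow]
  generalize c * φ 0 = g0 at *
  generalize c * φ 1 = g1 at *
  generalize c * φ 2 = g2 at *
  obtain ⟨v0, hv0⟩ : ∃ v, v = g0 + p 0 := ⟨_, rfl⟩
  obtain ⟨v1, hv1⟩ : ∃ v, v = g1 + p 1 := ⟨_, rfl⟩
  obtain ⟨v2, hv2⟩ : ∃ v, v = g2 + p 2 := ⟨_, rfl⟩
  have e0 : p 0 = v0 - g0 := by linarith
  have e1 : p 1 = v1 - g1 := by linarith
  have e2 : p 2 = v2 - g2 := by linarith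
  rw [← hv0, ← hv1, ← hv2]
  rw [e0, e1, e2] at hp
  nlinarith [sq_nonneg (g0 - 4 * v0), sq_nonneg (g1 + v1), sq_nonneg (g2 + v2), sq_nonneg v0,
    sq_nonneg v1, sq_nonneg v2]

/-- Comparison of the area on the slow plane with the determinant. -/
theorem area (A : M3) (α β a b : ℝ)
    (hf : (A *ᵥ ![1, a, b]) 1 ^ 2 + (A *ᵥ ![1, a, b]) 2 ^ 2 < 1 / 4 * (A *ᵥ ![1, a, b]) 0 ^ 2)
    (hs : ∀ x y : ℝ, Qk 1 (A *ᵥ sv α β x y) ≤ 0) :
    4 / 5 * (1 + α * a + β * b) ^ 2 * (A.det ^ 2 / (A *ᵥ ![1, a, b]) 0 ^ 2) ≤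
      fE α A * fG β A - fF α β A ^ 2 ∧
    fE α A * fG β A - fF α β A ^ 2 ≤
      8 * (1 + α * a + β * b) ^ 2 * (A.det ^ 2 / (A *ᵥ ![1, a, b]) 0 ^ 2) ∧
    (fE α A ≤ 135 * (A *ᵥ ![1, a, b]) 0 ^ 2 → ∀ c x y : ℝ,
      (fE α A * fG β A - fF α β A ^ 2) * (c ^ 2 / 3 + 4 * (x ^ 2 + y ^ 2)) ≤
        400 * (fE α A + fG β A) * nsq (A *ᵥ (c • ![1, a, b] + sv α β x y))) := by
  have hΔ0 : A.det * (1 + α * a + β * b) =
      (A *ᵥ ![1, a, b]) 0 * ((A 1 1 - α * A 1 0) * (A 2 2 - β * A 2 0) -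
        (A 2 1 - α * A 2 0) * (A 1 2 - β * A 1 0)) +
      (A *ᵥ ![1, a, b]) 1 * ((A 2 1 - α * A 2 0) * (A 0 2 - β * A 0 0) -
        (A 0 1 - α * A 0 0) * (A 2 2 - β * A 2 0)) +
      (A *ᵥ ![1, a, b]) 2 * ((A 0 1 - α * A 0 0) * (A 1 2 - β * A 1 0) -
        (A 1 1 - α * A 1 0) * (A 0 2 - β * A 0 0)) := by
    rw [Matrix.det_fin_three]
    simp only [mv]
    simp
    ring
  have hv : ∀ c x y : ℝ, ∀ i, (A *ᵥ (c • ![1, a, b] + sv α β x y)) i =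
      c / 3 * (3 * (A *ᵥ ![1, a, b]) i) + x * (A i 1 - α * A i 0) + y * (A i 2 - β * A i 0) := by
    intro c x y i
    rw [Matrix.mulVec_add, Matrix.mulVec_smul, Pi.add_apply, mv_sv, Pi.smul_apply, smul_eq_mul]
    ring
  generalize A *ᵥ ![1, a, b] = φ at *
  have f0p : 0 < φ 0 ^ 2 := by nlinarith [sq_nonneg (φ 1), sq_nonneg (φ 2)]
  set p0 := A 0 1 - α * A 0 0 with hp0
  set p1 := A 1 1 - α * A 1 0 with hp1
  set p2 := A 2 1 - α * A 2 0 with hp2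
  set q0 := A 0 2 - β * A 0 0 with hq0
  set q1 := A 1 2 - β * A 1 0 with hq1
  set q2 := A 2 2 - β * A 2 0 with hq2
  have hN := normal_bd p0 p1 p2 q0 q1 q2 fun x y => by
    have := hs x y
    simp only [Qk, mv_sv, one_mul] at this
    exact this
  have hD : fE α A * fG β A - fF α β A ^ 2 =
      (p1 * q2 - p2 * q1) ^ 2 + (p2 * q0 - p0 * q2) ^ 2 + (p0 * q1 - p1 * q0) ^ 2 := by
    simp only [fE, fF, fG, hp0, hp1, hp2, hq0, hq1, hq2]; ring
  have t1 := trans_bd (φ 0) (φ 1) (φ 2) _ _ _ hf hN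
  have t2 := cs (φ 0) (φ 1) (φ 2) (p1 * q2 - p2 * q1) (p2 * q0 - p0 * q2) (p0 * q1 - p1 * q0)
  rw [← hΔ0, ← hD] at t1 t2
  have D0 : 0 ≤ fE α A * fG β A - fF α β A ^ 2 := by rw [hD]; positivity
  refine ⟨?_, ?_, fun hE c x y => ?_⟩
  · rw [← mul_div_assoc, div_le_iff₀ f0p]
    have := mul_le_mul_of_nonneg_right
      (show φ 0 ^ 2 + φ 1 ^ 2 + φ 2 ^ 2 ≤ 5 / 4 * φ 0 ^ 2 by linarith) D0
    linarith
  · rw [← mul_div_assoc, le_div_iff₀ f0p]; linarith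
  · have k := inv_bd (3 * φ 0) (3 * φ 1) (3 * φ 2) p0 p1 p2 q0 q1 q2 (c / 3) x y
      (by linarith) (by unfold fE at hE; linarith) hN
    rw [← hD] at k
    have e1 : 3 * (c / 3) ^ 2 = c ^ 2 / 3 := by ring
    rw [e1] at k
    refine k.trans (le_of_eq ?_)
    simp only [nsq, hv, fE, fG, hp0, hp1, hp2, hq0, hq1, hq2]

/-- A vector not parallel to the slow one has the fast rate. -/
theorem other (E F G : ℕ → ℝ) (hE : ∀ n, 0 < E n) (hD : ∀ n, 0 < E n * G n - F n ^ 2)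
    (τ μ : ℝ) (hT : Rate (fun n => E n + G n) τ)
    (hDr : Rate (fun n => E n * G n - F n ^ 2) (τ + μ)) {x y x' y' : ℝ}
    (hr : Rate (fun n => E n * x ^ 2 + 2 * F n * x * y + G n * y ^ 2) μ)
    (hω : x * y' - y * x' ≠ 0) :
    Rate (fun n => E n * x' ^ 2 + 2 * F n * x' * y' + G n * y' ^ 2) τ := by
  have ω2 : 0 < (x * y' - y * x') ^ 2 := by positivity
  have key : ∀ n, (x * y' - y * x') ^ 2 * (E n * G n - F n ^ 2) ≤
      (E n * x ^ 2 + 2 * F n * x * y + G n * y ^ 2) *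
        (E n * x' ^ 2 + 2 * F n * x' * y' + G n * y' ^ 2) := fun n => by
    nlinarith [sq_nonneg (E n * x * x' + F n * (x * y' + y * x') + G n * y * y')]
  have p1 : ∀ n, 0 < E n * x ^ 2 + 2 * F n * x * y + G n * y ^ 2 := by
    intro n
    rcases (form_nonneg (E n) (F n) (G n) x y (hE n) (hD n)).eq_or_lt with h0 | h0
    · have := key n
      rw [← h0, zero_mul] at this
      exact absurd this (not_le.mpr (mul_pos ω2 (hD n)))
    · exact h0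
  have T0 : ∀ n, 0 < E n + G n := by
    intro n
    have : 0 < G n := by
      by_contra h
      push Not at h
      nlinarith [sq_nonneg (F n), hE n, hD n]
    linarith [hE n]
  have xy : 0 < x' ^ 2 + y' ^ 2 := by
    rcases (add_nonneg (sq_nonneg x') (sq_nonneg y')).eq_or_lt with h0 | h0
    · have a1 : x' = 0 := by nlinarith [sq_nonneg x', sq_nonneg y']
      have a2 : y' = 0 := by nlinarith [sq_nonneg x', sq_nonneg y']
      rw [a1, a2] at hω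
      simp at hω
    · exact h0
  have r1 := (hDr.div hr hD p1).const_mul (fun n => div_pos (hD n) (p1 n)) ω2
  rw [add_sub_cancel_right] at r1
  refine r1.squeeze (hT.const_mul T0 xy) (fun n => mul_pos ω2 (div_pos (hD n) (p1 n)))
    (fun n => ?_) (fun n => ?_)
  · rw [← mul_div_assoc, div_le_iff₀ (p1 n)]
    linarith [key n]
  · linarith [form_le (E n) (F n) (G n) x' y' (hE n) (hD n)]

end OT

end Pool.Agent.MP_019006_gt

end

section

set_option autoImplicit false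

open MeasureTheory Filter Topology Set Matrix

namespace Pool.Agent.MP_019006_gt

namespace OT

open OE

variable {K Om Y H : ℝ → M3}

/-- The data of the splitting into the fast line and the slow plane. -/
structure Split (Y : ℝ → M3) (α β a b : ℝ) : Prop where
  hα : α ^ 2 ≤ 1
  hβ : β ^ 2 ≤ 1
  slow : ∀ t x y : ℝ, Qk 1 (Y t *ᵥ sv α β x y) ≤ 0
  fast : ∀ t : ℝ, 0 ≤ Qk (1 / 5) (Y t *ᵥ ![1, a, b])

theorem f_one (a b : ℝ) : 1 ≤ nsq ![1, a, b] := by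
  simp only [nsq]
  simp
  nlinarith [sq_nonneg a, sq_nonneg b]

theorem f_pos (a b : ℝ) : 0 < nsq ![1, a, b] := one_pos.trans_le (f_one a b)

variable {α β a b : ℝ}

theorem Split.cf (S : Split Y α β a b) (h : TwoSys K Om Y H) (t : ℝ) :
    0 < (Y t *ᵥ ![1, a, b]) 0 ^ 2 ∧
      (Y t *ᵥ ![1, a, b]) 1 ^ 2 + (Y t *ᵥ ![1, a, b]) 2 ^ 2 < 1 / 4 * (Y t *ᵥ ![1, a, b]) 0 ^ 2 ∧
      nsq (Y t *ᵥ ![1, a, b]) ≤ 6 / 5 * (Y t *ᵥ ![1, a, b]) 0 ^ 2 :=
  cone_facts (nsq_Y_pos h t (f_pos a b)) (S.fast t)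

theorem Split.f_le (S : Split Y α β a b) (h : TwoSys K Om Y H) : nsq ![1, a, b] ≤ 6 / 5 := by
  have := (S.cf h 0).2.2
  rw [Y0_vec h] at this
  simpa using this

theorem Split.delta (S : Split Y α β a b) (h : TwoSys K Om Y H) : 1 + α * a + β * b ≠ 0 := by
  intro h0
  have k1 := S.slow 0 a b
  have k2 := (S.cf h 0).2.1
  rw [Y0_vec h] at k1 k2
  have e : α * a + β * b = -1 := by linarith
  simp only [Qk, sv, e] at k1
  simp at k1 k2
  linarith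

theorem Split.D_pos (S : Split Y α β a b) (h : TwoSys K Om Y H) (t : ℝ) :
    0 < fE α (Y t) * fG β (Y t) - fF α β (Y t) ^ 2 := by
  refine lt_of_lt_of_le ?_ (area (Y t) α β a b (S.cf h t).2.1 (S.slow t)).1
  have := S.delta h
  have := (S.cf h t).1
  have := h.det_pos t
  positivity

theorem E_pos (h : TwoSys K Om Y H) (α t : ℝ) : 0 < fE α (Y t) := by
  rw [fE_eq _ α 0]
  exact nsq_Y_pos h t (lt_of_lt_of_le (by norm_num) (nsq_sv_ge α 0 1 0))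

theorem G_pos (h : TwoSys K Om Y H) (β t : ℝ) : 0 < fG β (Y t) := by
  rw [fG_eq _ 0 β]
  exact nsq_Y_pos h t (lt_of_lt_of_le (by norm_num) (nsq_sv_ge 0 β 0 1))

theorem Split.dom_fwd (S : Split Y α β a b) (h : TwoSys K Om Y H) {t : ℝ} (ht : 0 ≤ t)
    (u : Fin 3 → ℝ) : nsq (Y t *ᵥ u) ≤ 54 * (Y t *ᵥ ![1, a, b]) 0 ^ 2 * nsq u := by
  have := dom h (f_pos a b) S.fast ht u
  rw [Y0_vec h, Y0_vec h] at this
  simpa using this

theorem Split.dom_bwd (S : Split Y α β a b) (h : TwoSys K Om Y H) {t : ℝ} (ht : t ≤ 0)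
    (u : Fin 3 → ℝ) : nsq u * (Y t *ᵥ ![1, a, b]) 0 ^ 2 ≤ 54 * nsq (Y t *ᵥ u) := by
  have := dom h (f_pos a b) S.fast ht u
  rw [Y0_vec h, Y0_vec h] at this
  simpa using this

theorem Split.rate_D (S : Split Y α β a b) (h : TwoSys K Om Y H) (T : ℕ → ℝ) {l m : ℝ}
    (r0 : Rate (fun n => (Y (T n)).det ^ 2) l)
    (rf : Rate (fun n => (Y (T n) *ᵥ ![1, a, b]) 0 ^ 2) m) :
    Rate (fun n => fE α (Y (T n)) * fG β (Y (T n)) - fF α β (Y (T n)) ^ 2) (l - m) := by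
  have d := S.delta h
  exact (r0.div rf (fun n => pow_pos (h.det_pos _) 2) fun n => (S.cf h _).1).comparable
    (fun n => div_pos (pow_pos (h.det_pos _) 2) (S.cf h _).1) (by positivity) (by positivity)
    (fun n => (area _ α β a b (S.cf h _).2.1 (S.slow _)).1)
    (fun n => (area _ α β a b (S.cf h _).2.1 (S.slow _)).2.1)

theorem Split.rate_f (S : Split Y α β a b) (h : TwoSys K Om Y H) (T : ℕ → ℝ) {m : ℝ}
    (rf : Rate (fun n => (Y (T n) *ᵥ ![1, a, b]) 0 ^ 2) m) :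
    Rate (fun n => nsq (Y (T n) *ᵥ ![1, a, b])) m :=
  rf.comparable (fun n => (S.cf h _).1) one_pos (by norm_num)
    (fun n => by rw [one_mul]; exact comp_sq_le _ 0) (fun n => (S.cf h _).2.2)

theorem Split.rate_f_fwd (S : Split Y α β a b) (h : TwoSys K Om Y H) (T : ℕ → ℝ)
    (hT : ∀ n, 0 ≤ T n) {m : ℝ} (r : Rate (fun n => fro (Y (T n)) ^ 2) m) :
    Rate (fun n => (Y (T n) *ᵥ ![1, a, b]) 0 ^ 2) m := by
  refine r.comparable (fun n => pow_pos (fro_pos h _) 2) (c := 1 / 162) (C := 6 / 5)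
    (by norm_num) (by norm_num) (fun n => ?_) (fun n => ?_)
  · rw [OdeMul.fro_sq_cols, Fin.sum_univ_three]
    have k0 := S.dom_fwd h (hT n) (Pi.single 0 1)
    have k1 := S.dom_fwd h (hT n) (Pi.single 1 1)
    have k2 := S.dom_fwd h (hT n) (Pi.single 2 1)
    rw [OdeMul.nsq_single] at k0 k1 k2
    linarith
  · have k1 := comp_sq_le (Y (T n) *ᵥ ![1, a, b]) 0
    have k2 := nsq_mulVec_le (Y (T n)) ![1, a, b]
    have k3 := mul_le_mul_of_nonneg_left (S.f_le h) (sq_nonneg (fro (Y (T n))))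
    linarith

theorem Split.rate_f_bwd (S : Split Y α β a b) (h : TwoSys K Om Y H) (T : ℕ → ℝ)
    (hT : ∀ n, T n ≤ 0) {m : ℝ} (r : Rate (fun n => fro (Y (T n))⁻¹ ^ 2) m) :
    Rate (fun n => (Y (T n) *ᵥ ![1, a, b]) 0 ^ 2) (-m) := by
  have p : ∀ n, 0 < fro (Y (T n))⁻¹ ^ 2 := fun n => pow_pos (fro_inv_pos h _) 2
  have r' := (rate_const 1).div r (fun _ => one_pos) p
  rw [zero_sub] at r'
  refine r'.comparable (fun n => div_pos one_pos (p n)) (c := 5 / 6) (C := 162)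
    (by norm_num) (by norm_num) (fun n => ?_) (fun n => ?_)
  · rw [← mul_div_assoc, div_le_iff₀ (p n)]
    have k1 := nsq_mulVec_le (Y (T n))⁻¹ (Y (T n) *ᵥ ![1, a, b])
    rw [inv_mul_vec h] at k1
    have k2 := mul_le_mul_of_nonneg_left (S.cf h (T n)).2.2 (p n).le
    have k3 := f_one a b
    linarith
  · rw [← mul_div_assoc, le_div_iff₀ (p n), OdeMul.fro_sq_cols, Fin.sum_univ_three]
    have k0 := S.dom_bwd h (hT n) ((Y (T n))⁻¹ *ᵥ Pi.single 0 1)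
    have k1 := S.dom_bwd h (hT n) ((Y (T n))⁻¹ *ᵥ Pi.single 1 1)
    have k2 := S.dom_bwd h (hT n) ((Y (T n))⁻¹ *ᵥ Pi.single 2 1)
    rw [mul_inv_vec h, OdeMul.nsq_single] at k0 k1 k2
    linarith

theorem nsq_comb (c x y : ℝ) (u v w : Fin 3 → ℝ) :
    nsq (c • u + (x • v + y • w)) ≤ (c ^ 2 + x ^ 2 + y ^ 2) * (nsq u + nsq v + nsq w) := by
  simp only [nsq, Pi.add_apply, Pi.smul_apply, smul_eq_mul]
  have k0 := cs c x y (u 0) (v 0) (w 0)
  have k1 := cs c x y (u 1) (v 1) (w 1)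
  have k2 := cs c x y (u 2) (v 2) (w 2)
  simp only [add_assoc] at *
  linarith

theorem Split.T_le (S : Split Y α β a b) (t : ℝ) :
    fE α (Y t) + fG β (Y t) ≤ 4 * fro (Y t) ^ 2 := by
  rw [fE_eq _ α β, fG_eq _ α β]
  have k1 := nsq_mulVec_le (Y t) (sv α β 1 0)
  have k2 := nsq_mulVec_le (Y t) (sv α β 0 1)
  have k3 := mul_le_mul_of_nonneg_left (nsq_b1 β S.hα) (sq_nonneg (fro (Y t)))
  have k4 := mul_le_mul_of_nonneg_left (nsq_b2 α S.hβ) (sq_nonneg (fro (Y t)))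
  linarith

theorem Split.rate_T_fwd (S : Split Y α β a b) (h : TwoSys K Om Y H) (T : ℕ → ℝ)
    (hT : ∀ n, 0 ≤ T n) {l m : ℝ} (r : Rate (fun n => fro (Y (T n))⁻¹ ^ 2) l)
    (rD : Rate (fun n => fE α (Y (T n)) * fG β (Y (T n)) - fF α β (Y (T n)) ^ 2) m) :
    Rate (fun n => fE α (Y (T n)) + fG β (Y (T n))) (l + m) := by
  have p : ∀ n, 0 < fro (Y (T n))⁻¹ ^ 2 := fun n => pow_pos (fro_inv_pos h _) 2
  refine (r.mul rD p fun n => S.D_pos h _).comparable (fun n => mul_pos (p n) (S.D_pos h _))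
    (c := 1 / 20000) (C := 2) (by norm_num) (by norm_num) (fun n => ?_) (fun n => ?_)
  · have Dp := S.D_pos h (T n)
    have hE : fE α (Y (T n)) ≤ 135 * (Y (T n) *ᵥ ![1, a, b]) 0 ^ 2 := by
      rw [fE_eq _ α β]
      have k1 := S.dom_fwd h (hT n) (sv α β 1 0)
      have k2 := mul_le_mul_of_nonneg_left (nsq_b1 β S.hα) (S.cf h (T n)).1.le
      have k3 := (S.cf h (T n)).1
      linarith
    have k : ∀ u : Fin 3 → ℝ, (fE α (Y (T n)) * fG β (Y (T n)) - fF α β (Y (T n)) ^ 2) * nsq u ≤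
        6400 * (fE α (Y (T n)) + fG β (Y (T n))) * nsq (Y (T n) *ᵥ u) := by
      intro u
      obtain ⟨c, x, y, rfl⟩ := decomp (S.delta h) u
      have k1 := (area _ α β a b (S.cf h (T n)).2.1 (S.slow _)).2.2 hE c x y
      have k2 : nsq (c • ![1, a, b] + sv α β x y) ≤ 16 * (c ^ 2 / 3 + 4 * (x ^ 2 + y ^ 2)) := by
        rw [sv_eq]
        refine (nsq_comb _ _ _ _ _ _).trans ?_
        have k3 : nsq ![1, a, b] + nsq (sv α β 1 0) + nsq (sv α β 0 1) ≤ 16 / 3 := by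
          linarith [S.f_le h, nsq_b1 β S.hα, nsq_b2 α S.hβ]
        have k4 := mul_le_mul_of_nonneg_left k3
          (show 0 ≤ c ^ 2 + x ^ 2 + y ^ 2 by positivity)
        nlinarith [sq_nonneg x, sq_nonneg y]
      have k5 := mul_le_mul_of_nonneg_left k2 Dp.le
      linarith
    have k0 := k ((Y (T n))⁻¹ *ᵥ Pi.single 0 1)
    have k1 := k ((Y (T n))⁻¹ *ᵥ Pi.single 1 1)
    have k2 := k ((Y (T n))⁻¹ *ᵥ Pi.single 2 1)
    rw [mul_inv_vec h, OdeMul.nsq_single] at k0 k1 k2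
    rw [OdeMul.fro_sq_cols, Fin.sum_univ_three]
    linarith [E_pos h α (T n), G_pos h β (T n)]
  · refine lowT _ _ _ _ (E_pos h α _).le (G_pos h β _).le (S.D_pos h _) fun x y => ?_
    have := nsq_mulVec_le (Y (T n))⁻¹ (Y (T n) *ᵥ sv α β x y)
    rw [inv_mul_vec h, nsq_sv] at this
    exact (nsq_sv_ge α β x y).trans this

theorem Split.rate_T_bwd (S : Split Y α β a b) (h : TwoSys K Om Y H) (T : ℕ → ℝ)
    (hT : ∀ n, T n ≤ 0) {l : ℝ} (r : Rate (fun n => fro (Y (T n)) ^ 2) l) :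
    Rate (fun n => fE α (Y (T n)) + fG β (Y (T n))) l := by
  have k : ∀ u : Fin 3 → ℝ, ∃ C : ℝ, 0 ≤ C ∧ ∀ t, t ≤ 0 →
      nsq (Y t *ᵥ u) ≤ C * (fE α (Y t) + fG β (Y t)) := by
    intro u
    obtain ⟨c, x, y, rfl⟩ := decomp (S.delta h) u
    refine ⟨(c ^ 2 + x ^ 2 + y ^ 2) * 66, by positivity, fun t ht => ?_⟩
    rw [sv_eq, Matrix.mulVec_add, Matrix.mulVec_add, Matrix.mulVec_smul, Matrix.mulVec_smul,
      Matrix.mulVec_smul, mul_assoc]
    refine (nsq_comb _ _ _ _ _ _).trans (mul_le_mul_of_nonneg_left ?_ (by positivity))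
    rw [← fE_eq, ← fG_eq]
    have k1 := S.dom_bwd h ht (sv α β 1 0)
    rw [← fE_eq] at k1
    have k2 := mul_le_mul_of_nonneg_right (nsq_sv_ge α β 1 0) (S.cf h t).1.le
    have k3 := (S.cf h t).2.2
    linarith [E_pos h α t, G_pos h β t]
  obtain ⟨C0, c0, k0⟩ := k (Pi.single 0 1)
  obtain ⟨C1, c1, k1⟩ := k (Pi.single 1 1)
  obtain ⟨C2, c2, k2⟩ := k (Pi.single 2 1)
  have Cp : 0 < C0 + C1 + C2 + 1 := by positivity
  refine r.comparable (fun n => pow_pos (fro_pos h _) 2) (c := (C0 + C1 + C2 + 1)⁻¹) (C := 4)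
    (by positivity) (by norm_num) (fun n => ?_) (fun n => S.T_le _)
  rw [inv_mul_le_iff₀ Cp, OdeMul.fro_sq_cols, Fin.sum_univ_three]
  linarith [k0 _ (hT n), k1 _ (hT n), k2 _ (hT n), E_pos h α (T n), G_pos h β (T n)]

theorem Split.back_two (S : Split Y α β a b) (h : TwoSys K Om Y H) (s : ℝ) (hs : 0 < s) {τ μ : ℝ}
    (rT : Rate (fun n : ℕ => fE α (Y (-(n * s))) + fG β (Y (-(n * s)))) τ)
    (rD : Rate (fun n : ℕ => fE α (Y (-(n * s))) * fG β (Y (-(n * s))) -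
      fF α β (Y (-(n * s))) ^ 2) (τ + μ)) :
    ∃ x y : ℝ, x ^ 2 + y ^ 2 = 1 ∧ Rate (fun n : ℕ => nsq (Y (-(n * s)) *ᵥ sv α β x y)) μ := by
  set e : ℕ → ℝ := fun n => Real.exp (21 / 5 * s * n) with he
  have ep : ∀ n, 0 < e n := fun n => Real.exp_pos _
  have re : Rate e (21 / 5 * s) := rate_exp _
  have eD : ∀ n : ℕ, e n * fE α (Y (-(n * s))) * (e n * fG β (Y (-(n * s)))) -
      (e n * fF α β (Y (-(n * s)))) ^ 2 = e n ^ 2 * (fE α (Y (-(n * s))) * fG β (Y (-(n * s))) -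
        fF α β (Y (-(n * s))) ^ 2) := fun n => by ring
  have eF : ∀ (n : ℕ) (x y : ℝ), e n * fE α (Y (-(n * s))) * x ^ 2 +
      2 * (e n * fF α β (Y (-(n * s)))) * x * y + e n * fG β (Y (-(n * s))) * y ^ 2 =
      e n * nsq (Y (-(n * s)) *ᵥ sv α β x y) := fun n x y => by rw [nsq_sv]; ring
  obtain ⟨-, x, y, hxy, hr⟩ := two_dim (fun n : ℕ => e n * fE α (Y (-(n * s))))
    (fun n : ℕ => e n * fF α β (Y (-(n * s)))) (fun n : ℕ => e n * fG β (Y (-(n * s))))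
    (fun n => mul_pos (ep n) (E_pos h α _))
    (fun n => by rw [eD]; exact mul_pos (pow_pos (ep n) 2) (S.D_pos h _))
    (fun n x y => by
      rw [eF, eF]
      have g := (two_growth h (-(((n + 1 : ℕ) : ℝ) * s)) (-(n * s)) (by push_cast; nlinarith)
        (sv α β x y)).2
      have e1 : e (n + 1) = e n * Real.exp (21 / 5 * (-(n * s) - -(((n + 1 : ℕ) : ℝ) * s))) := by
        rw [he]
        simp only
        rw [← Real.exp_add]
        congr 1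
        push_cast; ring
      rw [e1, mul_assoc]
      exact mul_le_mul_of_nonneg_left g (ep n).le)
    (21 / 5 * s + τ) (21 / 5 * s + μ)
    (by
      simp only [← mul_add]
      exact re.mul rT ep fun n => add_pos (E_pos h α _) (G_pos h β _))
    (by
      simp only [eD]
      convert re.sq.mul rD (fun n => pow_pos (ep n) 2) (fun n => S.D_pos h _) using 1
      ring)
  refine ⟨x, y, hxy, ?_⟩
  simp only [eF] at hr
  have up : 0 < nsq (sv α β x y) := lt_of_lt_of_le (by rw [hxy]; norm_num) (nsq_sv_ge α β x y)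
  have k := hr.div re (fun n => mul_pos (ep n) (nsq_Y_pos h _ up)) ep
  rw [add_sub_cancel_left] at k
  convert k using 2 with n
  have := (ep n).ne'
  field_simp

theorem par {x y x' y' : ℝ} (hxy : x ^ 2 + y ^ 2 = 1) (hω : x * y' - y * x' = 0) (α β : ℝ) :
    sv α β x' y' = (x * x' + y * y') • sv α β x y := by
  have e1 : x' = (x * x' + y * y') * x := by linear_combination (-x') * hxy - y * hω
  have e2 : y' = (x * x' + y * y') * y := by linear_combination (-y') * hxy + x * hω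
  generalize x * x' + y * y' = r at *
  rw [e1, e2]
  funext i
  fin_cases i <;> simp [sv]
  ring

end OT

open OE OT in
theorem two_exponents {K Om Y H : ℝ → M3} (h : TwoSys K Om Y H) (s : ℝ) (hs : 0 < s)
    (l₀ l₁ l₂ : ℝ)
    (h0 : Tendsto (fun n : ℕ => Real.log (Y (n * s)).det / n) atTop (𝓝 l₀))
    (h1 : Tendsto (fun n : ℕ => Real.log (fro (Y (n * s))) / n) atTop (𝓝 l₁))
    (h2 : Tendsto (fun n : ℕ => Real.log (fro (Y (n * s))⁻¹) / n) atTop (𝓝 l₂))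
    (h0' : Tendsto (fun n : ℕ => Real.log (Y (-(n * s))).det / n) atTop (𝓝 (-l₀)))
    (h1' : Tendsto (fun n : ℕ => Real.log (fro (Y (-(n * s)))⁻¹) / n) atTop (𝓝 l₁))
    (h2' : Tendsto (fun n : ℕ => Real.log (fro (Y (-(n * s)))) / n) atTop (𝓝 l₂)) :
    0 < -l₂ / s ∧ -l₂ ≤ l₀ - l₁ + l₂ ∧
    (∃ u : Fin 3 → ℝ, u ≠ 0 ∧
      Tendsto (rate (fun t => Y t *ᵥ u) (fun t => H t *ᵥ u)) (atTop ⊔ atBot) (𝓝 (l₁ / s))) ∧
    ∃ u : Fin 3 → ℝ, u ≠ 0 ∧
      Tendsto (rate (fun t => Y t *ᵥ u) (fun t => H t *ᵥ u)) atTop (𝓝 (-l₂ / s)) ∧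
      (Tendsto (rate (fun t => Y t *ᵥ u) (fun t => H t *ᵥ u)) atBot (𝓝 (-l₂ / s)) ∨
        (-l₂ < l₀ - l₁ + l₂ ∧ Tendsto (rate (fun t => Y t *ᵥ u) (fun t => H t *ᵥ u)) atBot
          (𝓝 ((l₀ - l₁ + l₂) / s)))) ∧
      ∀ (w : Fin 3 → ℝ) (κ C : ℝ), κ < (l₀ - l₁ + l₂) / s →
        (∀ t, 0 ≤ t → nsq (Y t *ᵥ w) ≤ C * Real.exp (2 * κ * t)) → ∃ c : ℝ, w = c • u := by
  obtain ⟨α, β, hα, hβ, hsl⟩ := OT.slow_plane h
  obtain ⟨a, b, hf⟩ := fast_vec h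
  have S : Split Y α β a b := ⟨hα, hβ, hsl, hf⟩
  have ns : ∀ n : ℕ, 0 ≤ (n : ℝ) * s := fun n => by positivity
  have ns' : ∀ n : ℕ, -((n : ℝ) * s) ≤ 0 := fun n => neg_nonpos.mpr (ns n)
  have r0 : Rate (fun n : ℕ => (Y (n * s)).det ^ 2) (2 * l₀) := Rate.sq h0
  have r1 : Rate (fun n : ℕ => fro (Y (n * s)) ^ 2) (2 * l₁) := Rate.sq h1
  have r2 : Rate (fun n : ℕ => fro (Y (n * s))⁻¹ ^ 2) (2 * l₂) := Rate.sq h2
  have r0' : Rate (fun n : ℕ => (Y (-(n * s))).det ^ 2) (2 * -l₀) := Rate.sq h0'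
  have r1' : Rate (fun n : ℕ => fro (Y (-(n * s)))⁻¹ ^ 2) (2 * l₁) := Rate.sq h1'
  have r2' : Rate (fun n : ℕ => fro (Y (-(n * s))) ^ 2) (2 * l₂) := Rate.sq h2'
  have rf := S.rate_f_fwd h (fun n : ℕ => n * s) ns r1
  have rf' := S.rate_f_bwd h (fun n : ℕ => -(n * s)) ns' r1'
  have rD := S.rate_D h (fun n : ℕ => n * s) r0 rf
  have rD' := S.rate_D h (fun n : ℕ => -(n * s)) r0' rf'
  have rT := S.rate_T_fwd h (fun n : ℕ => n * s) ns r2 rD
  have rT' := S.rate_T_bwd h (fun n : ℕ => -(n * s)) ns' r2'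
  rw [show 2 * l₂ + (2 * l₀ - 2 * l₁) = 2 * (l₀ - l₁ + l₂) by ring] at rT
  rw [show 2 * l₀ - 2 * l₁ = 2 * (l₀ - l₁ + l₂) + 2 * -l₂ by ring] at rD
  rw [show 2 * l₂ = -(2 * -l₂) by ring] at rT'
  rw [show 2 * -l₀ - -(2 * l₁) = -(2 * -l₂) + -(2 * (l₀ - l₁ + l₂)) by ring] at rD'
  obtain ⟨hle, x, y, hxy, hr⟩ := two_dim (fun n : ℕ => fE α (Y (n * s)))
    (fun n : ℕ => fF α β (Y (n * s))) (fun n : ℕ => fG β (Y (n * s)))
    (fun n => E_pos h α _) (fun n => S.D_pos h _)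
    (fun n x y => by
      rw [← nsq_sv, ← nsq_sv]
      refine OT.nsq_mono h ?_ _
      push_cast; nlinarith) _ _ rT rD
  have oth : ∀ x' y' : ℝ, x * y' - y * x' ≠ 0 →
      Rate (fun n : ℕ => nsq (Y (n * s) *ᵥ sv α β x' y')) (2 * (l₀ - l₁ + l₂)) := by
    intro x' y' hω
    simp only [nsq_sv]
    exact other _ _ _ (fun n => E_pos h α _) (fun n => S.D_pos h _) _ _ rT rD hr hω
  simp only [← nsq_sv] at hr
  obtain ⟨x₀, y₀, hxy₀, hr₀⟩ := S.back_two h s hs rT' rD'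
  have up : 0 < nsq (sv α β x y) := lt_of_lt_of_le (by rw [hxy]; norm_num) (nsq_sv_ge α β x y)
  have hpos : 9 / 5 * s ≤ 2 * -l₂ := by
    have k := (rate_exp (9 / 5 * s)).mul (rate_const (nsq (sv α β x y)))
      (fun _ => Real.exp_pos _) (fun _ => up)
    rw [add_zero] at k
    refine k.le hr (fun n => mul_pos (Real.exp_pos _) up) fun n => ?_
    have := (two_growth h 0 (n * s) (ns n) (sv α β x y)).1
    rw [Y0_vec h] at this
    convert this using 3; ring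
  have l21 : l₀ - l₁ + l₂ ≤ l₁ := by
    have := rT.le (r1.const_mul (fun n => pow_pos (fro_pos h _) 2) (C := 4) (by norm_num))
      (fun n => add_pos (E_pos h α _) (G_pos h β _)) (fun n => S.T_le _)
    linarith
  refine ⟨div_pos (by linarith) hs, by linarith, ⟨![1, a, b], ?_, ?_⟩, sv α β x y, ?_,
    to_top h hs up hr, ?_, ?_⟩
  · intro h0
    have := congrFun h0 0
    simp at this
  · exact tendsto_sup.mpr ⟨to_top h hs (f_pos a b) (S.rate_f h _ rf),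
      to_bot h hs (f_pos a b) (S.rate_f h _ rf')⟩
  · intro h0
    rw [h0] at up
    simp [nsq] at up
  · by_cases hω : x₀ * y - y₀ * x = 0
    · have hb : Rate (fun n : ℕ => nsq (Y (-(n * s)) *ᵥ sv α β x y)) (-(2 * (l₀ - l₁ + l₂))) := by
        have e : (x₀ * x + y₀ * y) ^ 2 = 1 := by
          have : (x₀ * x + y₀ * y) ^ 2 + (x₀ * y - y₀ * x) ^ 2 =
            (x₀ ^ 2 + y₀ ^ 2) * (x ^ 2 + y ^ 2) := by ring
          rw [hω, hxy, hxy₀] at this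
          linarith
        simp only [par hxy₀ hω α β, Matrix.mulVec_smul, nsq_smul, e, one_mul]
        exact hr₀
      rcases (show -l₂ ≤ l₀ - l₁ + l₂ by linarith).eq_or_lt with e | e
      · left
        rw [← e] at hb
        exact to_bot h hs up hb
      · exact Or.inr ⟨e, to_bot h hs up hb⟩
    · left
      refine to_bot h hs up ?_
      simp only [nsq_sv] at hr₀ ⊢
      exact other _ _ _ (fun n => E_pos h α _) (fun n => S.D_pos h _) _ _ rT' rD' hr₀ hω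
  · intro w κ C hκ hw
    rw [lt_div_iff₀ hs] at hκ
    have cmp : ∀ (g : ℕ → ℝ) (l : ℝ), Rate g l → (∀ n, 0 < g n) →
        (∀ n : ℕ, g n ≤ nsq (Y (n * s) *ᵥ w)) → l ≤ 2 * (κ * s) := by
      intro g l hg g0 gle
      have Cp : 0 < C := by
        have k1 := (g0 0).trans_le ((gle 0).trans (hw _ (ns 0)))
        exact (mul_pos_iff_of_pos_right (Real.exp_pos _)).mp k1
      refine hg.le ((rate_exp (2 * (κ * s))).const_mul (fun _ => Real.exp_pos _) Cp) g0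
        fun n => (gle n).trans ((hw _ (ns n)).trans (le_of_eq ?_))
      congr 2; ring
    obtain ⟨c, x', y', rfl⟩ := decomp (S.delta h) w
    have c0 : c = 0 := by
      by_contra hc
      have c2 : 0 < c ^ 2 / 30 := by positivity
      have := cmp _ _ (rf.const_mul (fun n => (S.cf h _).1) c2)
        (fun n => mul_pos c2 (S.cf h _).1) fun n => by
          have k := trans_low c _ _ (S.cf h (n * s)).2.1 (S.slow (n * s) x' y')
          rw [Matrix.mulVec_add, Matrix.mulVec_smul]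
          linarith
      linarith
    rw [c0, zero_smul, zero_add] at cmp ⊢
    by_cases hω : x * y' - y * x' = 0
    · exact ⟨_, par hxy hω α β⟩
    · exfalso
      have wp : 0 < nsq (sv α β x' y') := by
        refine lt_of_lt_of_le ?_ (nsq_sv_ge α β x' y')
        rcases (add_nonneg (sq_nonneg x') (sq_nonneg y')).eq_or_lt with e | e
        · have a1 : x' = 0 := by nlinarith [sq_nonneg x', sq_nonneg y']
          have a2 : y' = 0 := by nlinarith [sq_nonneg x', sq_nonneg y']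
          rw [a1, a2] at hω
          simp at hω
        · exact e
      have := cmp _ _ (oth x' y' hω) (fun n => nsq_Y_pos h _ wp) fun n => le_rfl
      linarith

end Pool.Agent.MP_019006_gt

end
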