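import Pool.Agent.MP_019006_gt.JobDefs

section

set_option autoImplicit false

open MeasureTheory Filter Topology Set Matrix

namespace Pool.Agent.MP_019006_gt

namespace OE

/-- Exponential rate of a positive sequence. -/
def Rate (a : ℕ → ℝ) (l : ℝ) : Prop :=
  Tendsto (fun n : ℕ => Real.log (a n) / n) atTop (𝓝 l)

/-- Upper exponential rate. -/
def URate (a : ℕ → ℝ) (l : ℝ) : Prop :=
  ∀ ε : ℝ, 0 < ε → ∀ᶠ n : ℕ in atTop, a n ≤ Real.exp ((l + ε) * n)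

theorem rate_const (C : ℝ) : Rate (fun _ => C) 0 := by
  unfold Rate
  exact tendsto_const_div_atTop_nhds_zero_nat (Real.log C)

theorem Rate.mul {a b : ℕ → ℝ} {l m : ℝ} (ha : Rate a l) (hb : Rate b m)
    (a0 : ∀ n, 0 < a n) (b0 : ∀ n, 0 < b n) : Rate (fun n => a n * b n) (l + m) := by
  unfold Rate at *
  refine (ha.add hb).congr fun n => ?_
  rw [Real.log_mul (a0 n).ne' (b0 n).ne', add_div]

theorem Rate.div {a b : ℕ → ℝ} {l m : ℝ} (ha : Rate a l) (hb : Rate b m)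
    (a0 : ∀ n, 0 < a n) (b0 : ∀ n, 0 < b n) : Rate (fun n => a n / b n) (l - m) := by
  unfold Rate at *
  refine (ha.sub hb).congr fun n => ?_
  rw [Real.log_div (a0 n).ne' (b0 n).ne', sub_div]

theorem Rate.const_mul {a : ℕ → ℝ} {l : ℝ} (ha : Rate a l) (a0 : ∀ n, 0 < a n) {C : ℝ}
    (hC : 0 < C) : Rate (fun n => C * a n) l := by
  simpa using (rate_const C).mul ha (fun _ => hC) a0

theorem Rate.sq {a : ℕ → ℝ} {l : ℝ} (ha : Rate a l) : Rate (fun n => a n ^ 2) (2 * l) := by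
  unfold Rate at *
  refine (ha.const_mul 2).congr fun n => ?_
  rw [Real.log_pow]; push_cast; ring

theorem Rate.sqrt {a : ℕ → ℝ} {l : ℝ} (ha : Rate a l) (a0 : ∀ n, 0 < a n) :
    Rate (fun n => Real.sqrt (a n)) (l / 2) := by
  unfold Rate at *
  refine (ha.div_const 2).congr fun n => ?_
  rw [Real.log_sqrt (a0 n).le]; ring

theorem Rate.le {a b : ℕ → ℝ} {l m : ℝ} (ha : Rate a l) (hb : Rate b m)
    (a0 : ∀ n, 0 < a n) (h : ∀ n, a n ≤ b n) : l ≤ m := by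
  unfold Rate at *
  refine le_of_tendsto_of_tendsto' ha hb fun n => ?_
  exact div_le_div_of_nonneg_right (Real.log_le_log (a0 n) (h n)) (Nat.cast_nonneg n)

theorem Rate.squeeze {a b c : ℕ → ℝ} {l : ℝ} (ha : Rate a l) (hc : Rate c l)
    (a0 : ∀ n, 0 < a n) (h1 : ∀ n, a n ≤ b n) (h2 : ∀ n, b n ≤ c n) : Rate b l := by
  unfold Rate at *
  refine tendsto_of_tendsto_of_tendsto_of_le_of_le ha hc (fun n => ?_) (fun n => ?_)
  · exact div_le_div_of_nonneg_right (Real.log_le_log (a0 n) (h1 n)) (Nat.cast_nonneg n)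
  · exact div_le_div_of_nonneg_right (Real.log_le_log ((a0 n).trans_le (h1 n)) (h2 n))
      (Nat.cast_nonneg n)

theorem Rate.comparable {a b : ℕ → ℝ} {l : ℝ} (ha : Rate a l) (a0 : ∀ n, 0 < a n)
    {c C : ℝ} (hc : 0 < c) (hC : 0 < C) (h1 : ∀ n, c * a n ≤ b n) (h2 : ∀ n, b n ≤ C * a n) :
    Rate b l :=
  Rate.squeeze (ha.const_mul a0 hc) (ha.const_mul a0 hC) (fun n => mul_pos hc (a0 n)) h1 h2

theorem Rate.shift {a : ℕ → ℝ} {l : ℝ} (ha : Rate a l) : Rate (fun n => a (n + 1)) l := by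
  unfold Rate at *
  have h1 : Tendsto (fun n : ℕ => Real.log (a (n + 1)) / ((n + 1 : ℕ) : ℝ)) atTop (𝓝 l) :=
    ha.comp (tendsto_add_atTop_nat 1)
  have h2 : Tendsto (fun n : ℕ => 1 + (1 : ℝ) / n) atTop (𝓝 (1 + 0)) :=
    tendsto_const_nhds.add (tendsto_const_div_atTop_nhds_zero_nat 1)
  have h3 := h1.mul h2
  simp only [add_zero, mul_one] at h3
  refine h3.congr' ?_
  filter_upwards [eventually_gt_atTop 0] with n hn
  have : (0 : ℝ) < n := by exact_mod_cast hn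
  push_cast
  field_simp

theorem rate_exp (l : ℝ) : Rate (fun n : ℕ => Real.exp (l * n)) l := by
  unfold Rate
  refine tendsto_const_nhds.congr' ?_
  filter_upwards [eventually_gt_atTop 0] with n hn
  have : (0 : ℝ) < n := by exact_mod_cast hn
  rw [Real.log_exp]; field_simp

theorem Rate.urate {a : ℕ → ℝ} {l : ℝ} (ha : Rate a l) : URate a l := by
  intro ε hε
  have h1 : ∀ᶠ n : ℕ in atTop, Real.log (a n) / n < l + ε :=
    ha.eventually (gt_mem_nhds (by linarith))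
  filter_upwards [h1, eventually_gt_atTop 0] with n hn hn0
  have : (0 : ℝ) < n := by exact_mod_cast hn0
  rw [div_lt_iff₀ this] at hn
  calc a n ≤ |a n| := le_abs_self _
    _ ≤ Real.exp (Real.log (a n)) := by
      rcases eq_or_ne (a n) 0 with h | h
      · simp [h]
      · rw [← Real.log_abs, Real.exp_log (abs_pos.mpr h)]
    _ ≤ _ := Real.exp_le_exp.mpr hn.le

theorem ev_const_le (C ε : ℝ) (hε : 0 < ε) : ∀ᶠ n : ℕ in atTop, C ≤ Real.exp (ε * n) := by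
  have := (rate_const C).urate ε hε
  simpa using this

theorem URate.mono {a b : ℕ → ℝ} {l : ℝ} (hb : URate b l) (h : ∀ n, a n ≤ b n) : URate a l :=
  fun ε hε => (hb ε hε).mono fun n hn => (h n).trans hn

theorem URate.add {a b : ℕ → ℝ} {l : ℝ} (ha : URate a l) (hb : URate b l) :
    URate (fun n => a n + b n) l := by
  intro ε hε
  filter_upwards [ha (ε / 2) (by linarith), hb (ε / 2) (by linarith),
    ev_const_le 2 (ε / 2) (by linarith)] with n h1 h2 h3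
  have : Real.exp ((l + ε) * n) = Real.exp (ε / 2 * n) * Real.exp ((l + ε / 2) * n) := by
    rw [← Real.exp_add]; congr 1; ring
  rw [this]
  have := Real.exp_pos ((l + ε / 2) * n)
  nlinarith

theorem URate.mul {a b : ℕ → ℝ} {l m : ℝ} (ha : URate a l) (hb : URate b m)
    (b0 : ∀ n, 0 ≤ b n) : URate (fun n => a n * b n) (l + m) := by
  intro ε hε
  filter_upwards [ha (ε / 2) (by linarith), hb (ε / 2) (by linarith)] with n h1 h2
  have : Real.exp ((l + m + ε) * n) =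
      Real.exp ((l + ε / 2) * n) * Real.exp ((m + ε / 2) * n) := by
    rw [← Real.exp_add]; congr 1; ring
  rw [this]
  exact mul_le_mul h1 h2 (b0 n) (Real.exp_pos _).le

theorem rate_of_urate {a b : ℕ → ℝ} {l : ℝ} (ha : Rate a l) (a0 : ∀ n, 0 < a n)
    (hb : URate b l) (h : ∀ n, a n ≤ b n) : Rate b l := by
  unfold Rate at *
  rw [tendsto_order] at ha ⊢
  refine ⟨fun x hx => ?_, fun x hx => ?_⟩
  · filter_upwards [ha.1 x hx] with n hn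
    exact hn.trans_le (div_le_div_of_nonneg_right (Real.log_le_log (a0 n) (h n))
      (Nat.cast_nonneg n))
  · filter_upwards [hb ((x - l) / 2) (by linarith), eventually_gt_atTop 0] with n hn hn0
    have hp : (0 : ℝ) < n := by exact_mod_cast hn0
    have h2 := Real.log_le_log ((a0 n).trans_le (h n)) hn
    rw [Real.log_exp] at h2
    rw [div_lt_iff₀ hp]
    nlinarith

theorem URate.summable {a : ℕ → ℝ} {l : ℝ} (ha : URate a l) (a0 : ∀ n, 0 ≤ a n) (hl : l < 0) :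
    Summable a := by
  have hr : Real.exp (l / 2) < 1 := Real.exp_lt_one_iff.mpr (by linarith)
  have hs : Summable fun n : ℕ => Real.exp (l / 2) ^ n :=
    summable_geometric_of_lt_one (Real.exp_pos _).le hr
  refine Summable.of_norm_bounded_eventually_nat hs ?_
  filter_upwards [ha (-l / 2) (by linarith)] with n hn
  rw [Real.norm_of_nonneg (a0 n), ← Real.exp_nat_mul]
  convert hn using 2; ring

theorem URate.tail {a : ℕ → ℝ} {l : ℝ} (ha : URate a l) (a0 : ∀ n, 0 ≤ a n) (hl : l < 0) :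
    URate (fun n => ∑' k, a (k + n)) l := by
  intro ε hε
  set δ := min (ε / 2) (-l / 2) with hδ
  have δ0 : 0 < δ := lt_min (by linarith) (by linarith)
  have δ1 : δ ≤ ε / 2 := min_le_left _ _
  have δ2 : δ ≤ -l / 2 := min_le_right _ _
  set r := Real.exp (l + δ) with hr
  have r0 : 0 < r := Real.exp_pos _
  have r1 : r < 1 := Real.exp_lt_one_iff.mpr (by linarith)
  obtain ⟨N, hN⟩ := eventually_atTop.mp (ha δ δ0)
  filter_upwards [eventually_ge_atTop N, ev_const_le (1 - r)⁻¹ (ε / 2) (by linarith)]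
    with n hn hC
  have hs : HasSum (fun k : ℕ => r ^ k * r ^ n) ((1 - r)⁻¹ * r ^ n) :=
    (hasSum_geometric_of_lt_one r0.le r1).mul_right _
  have hle : ∀ k, a (k + n) ≤ r ^ k * r ^ n := by
    intro k
    have := hN (k + n) (by omega)
    rw [← pow_add, hr, ← Real.exp_nat_mul]
    convert this using 2; ring
  have hsa : Summable fun k => a (k + n) :=
    Summable.of_nonneg_of_le (fun k => a0 _) hle hs.summable
  calc ∑' k, a (k + n) ≤ (1 - r)⁻¹ * r ^ n := by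
        rw [← hs.tsum_eq]; exact hsa.tsum_le_tsum hle hs.summable
    _ ≤ Real.exp (ε / 2 * n) * r ^ n := mul_le_mul_of_nonneg_right hC (pow_nonneg r0.le _)
    _ ≤ Real.exp ((l + ε) * n) := by
        rw [hr, ← Real.exp_nat_mul, ← Real.exp_add]
        refine Real.exp_le_exp.mpr ?_
        have : (0 : ℝ) ≤ n := Nat.cast_nonneg n
        nlinarith

/-- A unit near minimiser of a positive binary form. -/
theorem near_min (E F G : ℝ) (hE : 0 < E) (hD : 0 < E * G - F ^ 2) :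
    ∃ c : ℝ × ℝ, c.1 ^ 2 + c.2 ^ 2 = 1 ∧
      E * c.1 ^ 2 + 2 * F * c.1 * c.2 + G * c.2 ^ 2 ≤ 2 * ((E * G - F ^ 2) / (E + G)) := by
  have hG : 0 < G := by
    by_contra h
    push Not at h
    nlinarith [sq_nonneg F]
  have key : ∀ x y m : ℝ, 0 < m → E + G ≤ 2 * m → m ^ 2 ≤ x ^ 2 + y ^ 2 →
      E * x ^ 2 + 2 * F * x * y + G * y ^ 2 = m * (E * G - F ^ 2) →
      ∃ c : ℝ × ℝ, c.1 ^ 2 + c.2 ^ 2 = 1 ∧
      E * c.1 ^ 2 + 2 * F * c.1 * c.2 + G * c.2 ^ 2 ≤ 2 * ((E * G - F ^ 2) / (E + G)) := by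
    intro x y m hm h1 h2 h3
    have hp : 0 < x ^ 2 + y ^ 2 := lt_of_lt_of_le (by positivity) h2
    set ρ := Real.sqrt (x ^ 2 + y ^ 2) with hρ
    have ρ0 : 0 < ρ := Real.sqrt_pos.mpr hp
    have ρ2 : ρ ^ 2 = x ^ 2 + y ^ 2 := Real.sq_sqrt hp.le
    refine ⟨(x / ρ, y / ρ), ?_, ?_⟩
    · simp only [div_pow]; rw [← add_div, ρ2]; exact div_self hp.ne'
    · have : E * (x / ρ) ^ 2 + 2 * F * (x / ρ) * (y / ρ) + G * (y / ρ) ^ 2 =
          (E * x ^ 2 + 2 * F * x * y + G * y ^ 2) / ρ ^ 2 := by field_simp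
      simp only
      rw [this, h3, ρ2, ← mul_div_assoc, div_le_div_iff₀ hp (by linarith)]
      have h4 : m * (E + G) ≤ 2 * (x ^ 2 + y ^ 2) := by nlinarith
      nlinarith
  rcases le_total E G with h | h
  · exact key G (-F) G hG (by linarith) (by nlinarith [sq_nonneg F]) (by ring)
  · exact key (-F) E E hE (by linarith) (by nlinarith [sq_nonneg F]) (by ring)

theorem om_tri (u v w : ℝ × ℝ) (hu : u.1 ^ 2 + u.2 ^ 2 = 1) (hv : v.1 ^ 2 + v.2 ^ 2 = 1)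
    (hw : w.1 ^ 2 + w.2 ^ 2 = 1) :
    |u.1 * w.2 - u.2 * w.1| ≤ |u.1 * v.2 - u.2 * v.1| + |v.1 * w.2 - v.2 * w.1| := by
  have h1 : u.1 * w.2 - u.2 * w.1 = (u.1 * v.2 - u.2 * v.1) * (v.1 * w.1 + v.2 * w.2) +
      (v.1 * w.2 - v.2 * w.1) * (u.1 * v.1 + u.2 * v.2) := by
    linear_combination (-(u.1 * w.2 - u.2 * w.1)) * hv
  have h2 : |v.1 * w.1 + v.2 * w.2| ≤ 1 := by
    rw [← sq_le_one_iff_abs_le_one]
    nlinarith [sq_nonneg (v.1 * w.2 - v.2 * w.1)]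
  have h3 : |u.1 * v.1 + u.2 * v.2| ≤ 1 := by
    rw [← sq_le_one_iff_abs_le_one]
    nlinarith [sq_nonneg (u.1 * v.2 - u.2 * v.1)]
  rw [h1]
  refine (abs_add_le _ _).trans ?_
  rw [abs_mul, abs_mul]
  exact add_le_add (mul_le_of_le_one_right (abs_nonneg _) h2)
    (mul_le_of_le_one_right (abs_nonneg _) h3)

theorem form_nonneg (E F G x y : ℝ) (hE : 0 < E) (hD : 0 < E * G - F ^ 2) :
    0 ≤ E * x ^ 2 + 2 * F * x * y + G * y ^ 2 := by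
  have : E * (E * x ^ 2 + 2 * F * x * y + G * y ^ 2) =
      (E * x + F * y) ^ 2 + (E * G - F ^ 2) * y ^ 2 := by ring
  have h2 : 0 ≤ E * (E * x ^ 2 + 2 * F * x * y + G * y ^ 2) := by rw [this]; positivity
  exact (mul_nonneg_iff_of_pos_left hE).mp h2

theorem form_le (E F G x y : ℝ) (hE : 0 < E) (hD : 0 < E * G - F ^ 2) :
    E * x ^ 2 + 2 * F * x * y + G * y ^ 2 ≤ (E + G) * (x ^ 2 + y ^ 2) := by
  have := form_nonneg E F G y (-x) hE hD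
  nlinarith

theorem form_split (E F G : ℝ) (hE : 0 < E) (hD : 0 < E * G - F ^ 2) (u c : ℝ × ℝ)
    (hu : u.1 ^ 2 + u.2 ^ 2 = 1) (hc : c.1 ^ 2 + c.2 ^ 2 = 1) :
    E * c.1 ^ 2 + 2 * F * c.1 * c.2 + G * c.2 ^ 2 ≤
      2 * (E * u.1 ^ 2 + 2 * F * u.1 * u.2 + G * u.2 ^ 2) +
        2 * ((u.1 * c.2 - u.2 * c.1) ^ 2 * (E + G)) := by
  set p := u.1 * c.1 + u.2 * c.2 with hp
  set w := u.1 * c.2 - u.2 * c.1 with hw
  have c1 : c.1 = p * u.1 - w * u.2 := by rw [hp, hw]; linear_combination (-c.1) * hu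
  have c2 : c.2 = p * u.2 + w * u.1 := by rw [hp, hw]; linear_combination (-c.2) * hu
  have p1 : p ^ 2 ≤ 1 := by
    have : p ^ 2 + w ^ 2 = 1 := by
      rw [hp, hw]; linear_combination (c.1 ^ 2 + c.2 ^ 2) * hu + hc
    nlinarith [sq_nonneg w]
  have a1 := form_nonneg E F G (p * u.1 + w * u.2) (p * u.2 - w * u.1) hE hD
  have a2 := form_nonneg E F G u.1 u.2 hE hD
  have a3 := form_le E F G (-u.2) u.1 hE hD
  have a4 : (-u.2) ^ 2 + u.1 ^ 2 = 1 := by linarith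
  rw [a4, mul_one] at a3
  have a5 : E * c.1 ^ 2 + 2 * F * c.1 * c.2 + G * c.2 ^ 2 +
      (E * (p * u.1 + w * u.2) ^ 2 + 2 * F * (p * u.1 + w * u.2) * (p * u.2 - w * u.1) +
        G * (p * u.2 - w * u.1) ^ 2) =
      2 * (p ^ 2 * (E * u.1 ^ 2 + 2 * F * u.1 * u.2 + G * u.2 ^ 2)) +
      2 * (w ^ 2 * (E * (-u.2) ^ 2 + 2 * F * (-u.2) * u.1 + G * u.1 ^ 2)) := by
    rw [c1, c2]; ring
  have a6 := mul_le_mul_of_nonneg_right p1 a2
  have a7 := mul_le_mul_of_nonneg_left a3 (sq_nonneg w)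
  linarith

/-- The two dimensional lemma. -/
theorem two_dim (E F G : ℕ → ℝ) (hE : ∀ n, 0 < E n) (hD : ∀ n, 0 < E n * G n - F n ^ 2)
    (mono : ∀ n x y, E n * x ^ 2 + 2 * F n * x * y + G n * y ^ 2 ≤
      E (n + 1) * x ^ 2 + 2 * F (n + 1) * x * y + G (n + 1) * y ^ 2)
    (τ μ : ℝ) (hT : Rate (fun n => E n + G n) τ)
    (hDr : Rate (fun n => E n * G n - F n ^ 2) (τ + μ)) :
    μ ≤ τ ∧ ∃ x y : ℝ, x ^ 2 + y ^ 2 = 1 ∧
      Rate (fun n => E n * x ^ 2 + 2 * F n * x * y + G n * y ^ 2) μ := by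
  have hG : ∀ n, 0 < G n := by
    intro n
    by_contra h
    push Not at h
    nlinarith [sq_nonneg (F n), hE n, hD n]
  have T0 : ∀ n, 0 < E n + G n := fun n => add_pos (hE n) (hG n)
  have hq : Rate (fun n => (E n * G n - F n ^ 2) / (E n + G n)) μ := by
    simpa using hDr.div hT hD T0
  have q0 : ∀ n, 0 < (E n * G n - F n ^ 2) / (E n + G n) := fun n => div_pos (hD n) (T0 n)
  have low : ∀ x y : ℝ, x ^ 2 + y ^ 2 = 1 → ∀ n, (E n * G n - F n ^ 2) / (E n + G n) ≤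
      E n * x ^ 2 + 2 * F n * x * y + G n * y ^ 2 := by
    intro x y h n
    rw [div_le_iff₀ (T0 n)]
    have : (E n * x ^ 2 + 2 * F n * x * y + G n * y ^ 2) * (E n + G n) =
        (E n * G n - F n ^ 2) * (x ^ 2 + y ^ 2) + (E n * x + F n * y) ^ 2 +
          (F n * x + G n * y) ^ 2 := by ring
    rw [this, h]
    nlinarith [sq_nonneg (E n * x + F n * y), sq_nonneg (F n * x + G n * y)]
  have hμτ : μ ≤ τ := by
    refine hq.le hT q0 fun n => ?_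
    have h1 := low 1 0 (by norm_num) n
    have := hG n
    nlinarith
  refine ⟨hμτ, ?_⟩
  rcases hμτ.eq_or_lt with h | h
  · refine ⟨1, 0, by norm_num, ?_⟩
    refine hq.squeeze (h ▸ hT) q0 (low 1 0 (by norm_num)) fun n => ?_
    have := hG n
    nlinarith
  choose c hc1 hc2 using fun n => near_min (E n) (F n) (G n) (hE n) (hD n)
  set a : ℕ → ℝ := fun n => 2 * Real.sqrt
    ((E (n + 1) * G (n + 1) - F (n + 1) ^ 2) / (E (n + 1) + G (n + 1)) / (E n + G n)) with ha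
  have a0 : ∀ n, 0 ≤ a n := fun n => by positivity
  have ar : Rate a ((μ - τ) / 2) := by
    have h1 := (hq.shift.div hT (fun n => q0 (n + 1)) T0).sqrt
      (fun n => div_pos (q0 (n + 1)) (T0 n))
    exact h1.const_mul (fun n => Real.sqrt_pos.mpr (div_pos (q0 (n + 1)) (T0 n))) two_pos
  have step : ∀ n, |(c n).1 * (c (n + 1)).2 - (c n).2 * (c (n + 1)).1| ≤ a n := by
    intro n
    refine abs_le_of_sq_le_sq ?_ (a0 n)
    rw [ha]
    simp only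
    rw [mul_pow, Real.sq_sqrt (div_pos (q0 (n + 1)) (T0 n)).le]
    set q1 := (E (n + 1) * G (n + 1) - F (n + 1) ^ 2) / (E (n + 1) + G (n + 1)) with hq1
    have b1 := hc2 n
    have b2 := (mono n (c (n + 1)).1 (c (n + 1)).2).trans (hc2 (n + 1))
    rw [← hq1] at b2
    have b3 := form_nonneg (E n) (F n) (G n) (c (n + 1)).1 (c (n + 1)).2 (hE n) (hD n)
    have b4 := mul_le_mul b1 b2 b3 (by have := q0 n; positivity)
    have b5 : ((c n).1 * (c (n + 1)).2 - (c n).2 * (c (n + 1)).1) ^ 2 * (E n * G n - F n ^ 2) ≤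
        (E n * (c n).1 ^ 2 + 2 * F n * (c n).1 * (c n).2 + G n * (c n).2 ^ 2) *
        (E n * (c (n + 1)).1 ^ 2 + 2 * F n * (c (n + 1)).1 * (c (n + 1)).2 +
          G n * (c (n + 1)).2 ^ 2) := by
      nlinarith [sq_nonneg (E n * (c n).1 * (c (n + 1)).1 +
        F n * ((c n).1 * (c (n + 1)).2 + (c n).2 * (c (n + 1)).1) +
        G n * (c n).2 * (c (n + 1)).2)]
    have b6 : 2 * ((E n * G n - F n ^ 2) / (E n + G n)) * (2 * q1) =
        2 ^ 2 * (q1 / (E n + G n)) * (E n * G n - F n ^ 2) := by ring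
    exact le_of_mul_le_mul_right (b5.trans (b6 ▸ b4)) (hD n)
  have hneg : (μ - τ) / 2 < 0 := by linarith
  have asum := ar.urate.summable a0 hneg
  have atail := ar.urate.tail a0 hneg
  set S : ℕ → ℝ := fun n => ∑' k, a (k + n) with hS
  have S0 : ∀ n, 0 ≤ S n := fun n => tsum_nonneg fun k => a0 _
  have chain : ∀ n m, |(c n).1 * (c (n + m)).2 - (c n).2 * (c (n + m)).1| ≤
      ∑ k ∈ Finset.range m, a (k + n) := by
    intro n m
    induction m with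
    | zero => simp [mul_comm]
    | succ m ih =>
      rw [Finset.sum_range_succ]
      have h1 := om_tri (c n) (c (n + m)) (c (n + m + 1)) (hc1 _) (hc1 _) (hc1 _)
      have h2 := step (n + m)
      rw [add_comm m n]
      exact h1.trans (add_le_add ih h2)
  have chain' : ∀ n m, n ≤ m → |(c n).1 * (c m).2 - (c n).2 * (c m).1| ≤ S n := by
    intro n m hnm
    obtain ⟨k, rfl⟩ := Nat.exists_eq_add_of_le hnm
    refine (chain n k).trans ?_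
    exact ((summable_nat_add_iff n).mpr asum).sum_le_tsum _ fun k _ => a0 _
  have hcomp : IsCompact (Icc (-1 : ℝ) 1 ×ˢ Icc (-1 : ℝ) 1) := isCompact_Icc.prod isCompact_Icc
  obtain ⟨z, -, φ, hφ, hz⟩ := hcomp.tendsto_subseq (x := c) (fun n => by
    have := hc1 n
    refine ⟨⟨?_, ?_⟩, ⟨?_, ?_⟩⟩ <;> nlinarith [sq_nonneg (c n).1, sq_nonneg (c n).2])
  have z1 : z.1 ^ 2 + z.2 ^ 2 = 1 := by
    have h1 : Tendsto (fun m => (c (φ m)).1 ^ 2 + (c (φ m)).2 ^ 2) atTop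
        (𝓝 (z.1 ^ 2 + z.2 ^ 2)) :=
      ((by fun_prop : Continuous fun w : ℝ × ℝ => w.1 ^ 2 + w.2 ^ 2).tendsto z).comp hz
    simp only [hc1] at h1
    exact (tendsto_nhds_unique tendsto_const_nhds h1).symm
  have z2 : ∀ n, |(c n).1 * z.2 - (c n).2 * z.1| ≤ S n := by
    intro n
    have h1 : Tendsto (fun m => |(c n).1 * (c (φ m)).2 - (c n).2 * (c (φ m)).1|) atTop
        (𝓝 (|(c n).1 * z.2 - (c n).2 * z.1|)) :=
      ((by fun_prop : Continuous fun w : ℝ × ℝ => |(c n).1 * w.2 - (c n).2 * w.1|).tendsto z).comp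
        hz
    refine le_of_tendsto h1 ?_
    filter_upwards [eventually_ge_atTop n] with m hm
    exact chain' n (φ m) (hm.trans (hφ.id_le m))
  refine ⟨z.1, z.2, z1, rate_of_urate hq q0 ?_ (low _ _ z1)⟩
  have u1 : URate (fun n => 4 * ((E n * G n - F n ^ 2) / (E n + G n))) μ :=
    (hq.const_mul q0 (by norm_num)).urate
  have u2 : URate (fun n => S n * S n * (2 * (E n + G n))) μ := by
    have := (atail.mul atail S0).mul (hT.const_mul T0 two_pos).urate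
      (fun n => by have := T0 n; positivity)
    convert this using 1; ring
  refine (u1.add u2).mono fun n => ?_
  have h1 := form_split (E n) (F n) (G n) (hE n) (hD n) (c n) z (hc1 n) z1
  have h2 := hc2 n
  have h3 : ((c n).1 * z.2 - (c n).2 * z.1) ^ 2 ≤ S n ^ 2 := by
    rw [← sq_abs]; exact pow_le_pow_left₀ (abs_nonneg _) (z2 n) 2
  have h4 := mul_le_mul_of_nonneg_right h3 (T0 n).le
  nlinarith

end OE

end Pool.Agent.MP_019006_gt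

end

section

set_option autoImplicit false

open MeasureTheory Filter Topology Set Matrix

namespace Pool.Agent.MP_019006_gt

namespace OE

theorem grow {f : ℝ → ℝ} {c : ℝ}
    (h : ∀ t, ∃ f', HasDerivAt f f' t ∧ (0 ≤ t → c * f t ≤ f')) {s t : ℝ} (hs : 0 ≤ s)
    (hst : s ≤ t) : Real.exp (c * (t - s)) * f s ≤ f t := by
  choose f' hf hc using h
  have hg : ∀ t, HasDerivAt (fun t => Real.exp (-c * t) * f t)
      (Real.exp (-c * t) * (f' t - c * f t)) t := by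
    intro t
    have h1 : HasDerivAt (fun t => Real.exp (-c * t)) (Real.exp (-c * t) * (-c)) t := by
      simpa using ((hasDerivAt_id t).const_mul (-c)).exp
    have h2 := h1.mul (hf t)
    have e : Real.exp (-c * t) * (f' t - c * f t) =
        Real.exp (-c * t) * -c * f t + Real.exp (-c * t) * f' t := by ring
    rw [e]; exact h2
  have hm : MonotoneOn (fun t => Real.exp (-c * t) * f t) (Ici 0) := by
    refine monotoneOn_of_deriv_nonneg (convex_Ici 0) ?_ ?_ ?_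
    · exact fun t _ => (hg t).continuousAt.continuousWithinAt
    · exact fun t _ => (hg t).differentiableAt.differentiableWithinAt
    · intro t ht
      rw [interior_Ici] at ht
      rw [(hg t).deriv]
      exact mul_nonneg (Real.exp_pos _).le (sub_nonneg.mpr (hc t (le_of_lt ht)))
  have h1 := hm (mem_Ici.mpr hs) (mem_Ici.mpr (hs.trans hst)) hst
  simp only at h1
  have h2 := mul_le_mul_of_nonneg_left h1 (Real.exp_pos (c * t)).le
  rw [← mul_assoc, ← mul_assoc, ← Real.exp_add, ← Real.exp_add] at h2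
  have e1 : c * t + -c * s = c * (t - s) := by ring
  have e2 : c * t + -c * t = 0 := by ring
  rw [e1, e2, Real.exp_zero, one_mul] at h2
  exact h2

variable {K Om Y H : ℝ → M3}

theorem deriv_vec (hJ : JacSys K Om Y H) (u : Fin 3 → ℝ) (t : ℝ) (i : Fin 3) :
    HasDerivAt (fun s => (Y s *ᵥ u) i) (((H t - Om t * Y t) *ᵥ u) i) t := by
  simp only [Matrix.mulVec, dotProduct]
  exact HasDerivAt.fun_sum fun j _ => (hJ.dY t i j).mul_const (u j)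

theorem deriv_comp (hJ : JacSys K Om Y H) (hC : Cone K Om Y H) (u : Fin 3 → ℝ) (t : ℝ) :
    ∃ d0 d1 d2 a b w : ℝ, (0 ≤ t → d0 ^ 2 + d1 ^ 2 + d2 ^ 2 ≤
        1 / 100 * ((Y t *ᵥ u) 0 ^ 2 + (Y t *ᵥ u) 1 ^ 2 + (Y t *ᵥ u) 2 ^ 2)) ∧
      |a| ≤ 1 / 100 ∧ |b| ≤ 1 / 100 ∧
      HasDerivAt (fun s => (Y s *ᵥ u) 0)
        (2 * (Y t *ᵥ u) 0 + d0 - (a * (Y t *ᵥ u) 1 + b * (Y t *ᵥ u) 2)) t ∧
      HasDerivAt (fun s => (Y s *ᵥ u) 1)
        ((Y t *ᵥ u) 1 + d1 - (-a * (Y t *ᵥ u) 0 + w * (Y t *ᵥ u) 2)) t ∧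
      HasDerivAt (fun s => (Y s *ᵥ u) 2)
        ((Y t *ᵥ u) 2 + d2 - (-b * (Y t *ᵥ u) 0 - w * (Y t *ᵥ u) 1)) t := by
  have hO : ∀ i j, Om t j i = -Om t i j := fun i j => by
    have := congrFun (congrFun (hJ.Oa t) i) j
    simpa using this
  have o00 : Om t 0 0 = 0 := by have := hO 0 0; linarith
  have o11 : Om t 1 1 = 0 := by have := hO 1 1; linarith
  have o22 : Om t 2 2 = 0 := by have := hO 2 2; linarith
  have key : (H t - Om t * Y t) *ᵥ u =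
      U0 *ᵥ (Y t *ᵥ u) + (H t - U0 * Y t) *ᵥ u - Om t *ᵥ (Y t *ᵥ u) := by
    simp only [Matrix.sub_mulVec, Matrix.mulVec_mulVec]; abel
  have hv : ∀ (y : Fin 3 → ℝ) (i : Fin 3),
      (Om t *ᵥ y) i = Om t i 0 * y 0 + Om t i 1 * y 1 + Om t i 2 * y 2 := by
    intro y i; simp [Matrix.mulVec, dotProduct, Fin.sum_univ_three]
  refine ⟨((H t - U0 * Y t) *ᵥ u) 0, ((H t - U0 * Y t) *ᵥ u) 1, ((H t - U0 * Y t) *ᵥ u) 2,
    Om t 0 1, Om t 0 2, Om t 1 2, fun ht => hC.cone t ht u, hC.Om0 t 1, hC.Om0 t 2, ?_, ?_, ?_⟩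
  · convert deriv_vec hJ u t 0 using 1
    rw [key, Pi.sub_apply, Pi.add_apply, hv, o00]
    simp [U0, Matrix.mulVec_diagonal]
  · convert deriv_vec hJ u t 1 using 1
    rw [key, Pi.sub_apply, Pi.add_apply, hv, o11, hO 0 1]
    simp [U0, Matrix.mulVec_diagonal]
  · convert deriv_vec hJ u t 2 using 1
    rw [key, Pi.sub_apply, Pi.add_apply, hv, o22, hO 0 2, hO 1 2]
    simp [U0, Matrix.mulVec_diagonal]
    ring

theorem cs3 (y0 y1 y2 d0 d1 d2 : ℝ)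
    (h : d0 ^ 2 + d1 ^ 2 + d2 ^ 2 ≤ 1 / 100 * (y0 ^ 2 + y1 ^ 2 + y2 ^ 2)) :
    |2 * (y0 * d0 + y1 * d1 + y2 * d2)| ≤ 1 / 5 * (y0 ^ 2 + y1 ^ 2 + y2 ^ 2) := by
  rw [abs_le]
  constructor
  · nlinarith [sq_nonneg (y0 + 10 * d0), sq_nonneg (y1 + 10 * d1), sq_nonneg (y2 + 10 * d2)]
  · nlinarith [sq_nonneg (y0 - 10 * d0), sq_nonneg (y1 - 10 * d1), sq_nonneg (y2 - 10 * d2)]

theorem growth (hJ : JacSys K Om Y H) (hC : Cone K Om Y H) {s t : ℝ} (hs : 0 ≤ s) (hst : s ≤ t)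
    (u : Fin 3 → ℝ) : Real.exp (9 / 5 * (t - s)) * nsq (Y s *ᵥ u) ≤ nsq (Y t *ᵥ u) ∧
      nsq (Y t *ᵥ u) ≤ Real.exp (21 / 5 * (t - s)) * nsq (Y s *ᵥ u) := by
  constructor
  · refine grow (f := fun t => nsq (Y t *ᵥ u)) (fun t => ?_) hs hst
    obtain ⟨d0, d1, d2, a, b, w, hd, -, -, h0, h1, h2⟩ := deriv_comp hJ hC u t
    refine ⟨_, ((h0.pow 2).add (h1.pow 2)).add (h2.pow 2), fun ht => ?_⟩
    have := (abs_le.mp (cs3 _ _ _ _ _ _ (hd ht))).1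
    simp only [nsq]
    norm_num
    nlinarith [sq_nonneg ((Y t *ᵥ u) 0)]
  · have := grow (f := fun t => -nsq (Y t *ᵥ u)) (c := 21 / 5) (fun t => ?_) hs hst
    · linarith
    obtain ⟨d0, d1, d2, a, b, w, hd, -, -, h0, h1, h2⟩ := deriv_comp hJ hC u t
    refine ⟨_, (((h0.pow 2).add (h1.pow 2)).add (h2.pow 2)).neg, fun ht => ?_⟩
    have := (abs_le.mp (cs3 _ _ _ _ _ _ (hd ht))).2
    simp only [nsq]
    norm_num
    nlinarith [sq_nonneg ((Y t *ᵥ u) 1), sq_nonneg ((Y t *ᵥ u) 2)]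

/-- The cone form. -/
def Qk (k : ℝ) (y : Fin 3 → ℝ) : ℝ := k * y 0 ^ 2 - y 1 ^ 2 - y 2 ^ 2

theorem om_bd (a x y : ℝ) (ha : |a| ≤ 1 / 100) : 2 * (a * x * y) ≤ 1 / 100 * (x ^ 2 + y ^ 2) := by
  obtain ⟨h1, h2⟩ := abs_le.mp ha
  nlinarith [mul_nonneg (sub_nonneg.mpr h2) (sq_nonneg (x + y)),
    mul_nonneg (sub_nonneg.mpr h1) (sq_nonneg (x - y))]

theorem cone_mono (hJ : JacSys K Om Y H) (hC : Cone K Om Y H) {k : ℝ} (hk : k = 1 ∨ k = 1 / 4)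
    {s t : ℝ} (hs : 0 ≤ s) (hst : s ≤ t) (u : Fin 3 → ℝ) :
    Real.exp (3 * (t - s)) * Qk k (Y s *ᵥ u) ≤ Qk k (Y t *ᵥ u) := by
  refine grow (f := fun t => Qk k (Y t *ᵥ u)) (fun t => ?_) hs hst
  obtain ⟨d0, d1, d2, a, b, w, hd, ha, hb, h0, h1, h2⟩ := deriv_comp hJ hC u t
  refine ⟨_, (((h0.pow 2).const_mul k).sub (h1.pow 2)).sub (h2.pow 2), fun ht => ?_⟩
  have e1 := om_bd a ((Y t *ᵥ u) 0) ((Y t *ᵥ u) 1) ha
  have e2 := om_bd b ((Y t *ᵥ u) 0) ((Y t *ᵥ u) 2) hb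
  have hd' := hd ht
  simp only [Qk]
  norm_num
  generalize (Y t *ᵥ u) 0 = y0 at *
  generalize (Y t *ᵥ u) 1 = y1 at *
  generalize (Y t *ᵥ u) 2 = y2 at *
  rcases hk with rfl | rfl
  · nlinarith [sq_nonneg (y0 + 10 * d0), sq_nonneg (y1 - 10 * d1), sq_nonneg (y2 - 10 * d2),
      sq_nonneg y0, sq_nonneg y1, sq_nonneg y2]
  · nlinarith [sq_nonneg (y0 + 20 * d0), sq_nonneg (y1 - 5 * d1), sq_nonneg (y2 - 5 * d2),
      sq_nonneg y0, sq_nonneg y1, sq_nonneg y2]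

theorem cone_nonneg (hJ : JacSys K Om Y H) (hC : Cone K Om Y H) {k : ℝ}
    (hk : k = 1 ∨ k = 1 / 4) {t : ℝ} (ht : 0 ≤ t) (u : Fin 3 → ℝ) (hu : 0 ≤ Qk k u) :
    0 ≤ Qk k (Y t *ᵥ u) := by
  have := cone_mono hJ hC hk le_rfl ht u
  rw [hJ.Y0, Matrix.one_mulVec] at this
  exact (mul_nonneg (Real.exp_pos _).le hu).trans this

theorem cone_pos (hJ : JacSys K Om Y H) (hC : Cone K Om Y H) {k : ℝ}
    (hk : k = 1 ∨ k = 1 / 4) {s t : ℝ} (hs : 0 ≤ s) (hst : s ≤ t) (u : Fin 3 → ℝ)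
    (hu : 0 < Qk k (Y s *ᵥ u)) : 0 < Qk k (Y t *ᵥ u) :=
  (mul_pos (Real.exp_pos _) hu).trans_le (cone_mono hJ hC hk hs hst u)

theorem mv (A : M3) (u : Fin 3 → ℝ) (i : Fin 3) :
    (A *ᵥ u) i = A i 0 * u 0 + A i 1 * u 1 + A i 2 * u 2 := by
  simp [Matrix.mulVec, dotProduct, Fin.sum_univ_three]

theorem f_cone (hJ : JacSys K Om Y H) (hC : Cone K Om Y H) {t : ℝ} (ht : 0 ≤ t) :
    Y t 1 0 ^ 2 + Y t 2 0 ^ 2 < 1 / 4 * Y t 0 0 ^ 2 := by
  have := cone_pos hJ hC (Or.inr rfl) le_rfl ht ![1, 0, 0]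
    (by rw [hJ.Y0, Matrix.one_mulVec]; simp [Qk])
  simp only [Qk, mv] at this
  simp at this
  linarith

theorem f_ne (hJ : JacSys K Om Y H) (hC : Cone K Om Y H) {t : ℝ} (ht : 0 ≤ t) :
    Y t 0 0 ≠ 0 := by
  intro h
  have := f_cone hJ hC ht
  rw [h] at this
  nlinarith [sq_nonneg (Y t 1 0), sq_nonneg (Y t 2 0)]

theorem col_bd (f0 f1 f2 p0 p1 p2 : ℝ)
    (h : ∀ θ : ℝ, θ ^ 2 < 1 → 0 < (f0 + θ * p0) ^ 2 - (f1 + θ * p1) ^ 2 - (f2 + θ * p2) ^ 2) :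
    p0 ^ 2 + p1 ^ 2 + p2 ^ 2 ≤ 6 * f0 ^ 2 := by
  have h1 : p0 ^ 2 ≤ f0 ^ 2 := by
    by_contra hh
    push Not at hh
    have hp : p0 ≠ 0 := by
      rintro rfl
      nlinarith [sq_nonneg f0]
    have hp2 : 0 < p0 ^ 2 := by positivity
    have := h (-f0 / p0) (by rw [div_pow, div_lt_one hp2]; linarith)
    have e : f0 + -f0 / p0 * p0 = 0 := by field_simp; ring
    rw [e] at this
    nlinarith [sq_nonneg (f1 + -f0 / p0 * p1), sq_nonneg (f2 + -f0 / p0 * p2)]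
  have h2 := h (1 / 2) (by norm_num)
  have h3 := h (-1 / 2) (by norm_num)
  nlinarith [sq_nonneg f1, sq_nonneg f2]

theorem col1 (hJ : JacSys K Om Y H) (hC : Cone K Om Y H) {t : ℝ} (ht : 0 ≤ t) :
    Y t 0 1 ^ 2 + Y t 1 1 ^ 2 + Y t 2 1 ^ 2 ≤ 6 * Y t 0 0 ^ 2 := by
  refine col_bd _ (Y t 1 0) (Y t 2 0) _ _ _ fun θ hθ => ?_
  have := cone_pos hJ hC (Or.inl rfl) le_rfl ht ![1, θ, 0]
    (by rw [hJ.Y0, Matrix.one_mulVec]; simp [Qk]; exact (sq_lt_one_iff_abs_lt_one θ).mp hθ)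
  simp only [Qk, mv] at this
  simp at this
  nlinarith

theorem col2 (hJ : JacSys K Om Y H) (hC : Cone K Om Y H) {t : ℝ} (ht : 0 ≤ t) :
    Y t 0 2 ^ 2 + Y t 1 2 ^ 2 + Y t 2 2 ^ 2 ≤ 6 * Y t 0 0 ^ 2 := by
  refine col_bd _ (Y t 1 0) (Y t 2 0) _ _ _ fun θ hθ => ?_
  have := cone_pos hJ hC (Or.inl rfl) le_rfl ht ![1, 0, θ]
    (by rw [hJ.Y0, Matrix.one_mulVec]; simp [Qk]; exact (sq_lt_one_iff_abs_lt_one θ).mp hθ)
  simp only [Qk, mv] at this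
  simp at this
  nlinarith

/-- The slow plane. -/
theorem slow_plane (hJ : JacSys K Om Y H) (hC : Cone K Om Y H) :
    ∃ α β : ℝ, α ^ 2 ≤ 1 ∧ β ^ 2 ≤ 1 ∧ ∀ t, 0 ≤ t → ∀ x y : ℝ,
      Qk 1 (Y t *ᵥ ![-(α * x + β * y), x, y]) ≤ 0 := by
  set c : ℕ → ℝ × ℝ := fun n => (Y n 0 1 / Y n 0 0, Y n 0 2 / Y n 0 0) with hc
  have key : ∀ n : ℕ, ∀ t : ℝ, 0 ≤ t → t ≤ n → ∀ x y : ℝ,
      Qk 1 (Y t *ᵥ ![-((c n).1 * x + (c n).2 * y), x, y]) ≤ 0 := by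
    intro n t ht htn x y
    by_contra h
    push Not at h
    have h1 := cone_pos hJ hC (Or.inl rfl) ht htn _ h
    have h2 : (Y n *ᵥ ![-((c n).1 * x + (c n).2 * y), x, y]) 0 = 0 := by
      have := f_ne hJ hC (Nat.cast_nonneg (α := ℝ) n)
      rw [mv, hc]; simp; field_simp; ring
    unfold Qk at h1
    rw [h2] at h1
    nlinarith [sq_nonneg ((Y n *ᵥ ![-((c n).1 * x + (c n).2 * y), x, y]) 1),
      sq_nonneg ((Y n *ᵥ ![-((c n).1 * x + (c n).2 * y), x, y]) 2)]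
  have b1 : ∀ n, (c n).1 ^ 2 ≤ 1 := by
    intro n
    have := key n 0 le_rfl (Nat.cast_nonneg n) 1 0
    rw [hJ.Y0, Matrix.one_mulVec] at this
    simp [Qk] at this
    nlinarith [abs_le.mp this]
  have b2 : ∀ n, (c n).2 ^ 2 ≤ 1 := by
    intro n
    have := key n 0 le_rfl (Nat.cast_nonneg n) 0 1
    rw [hJ.Y0, Matrix.one_mulVec] at this
    simp [Qk] at this
    nlinarith [abs_le.mp this]
  have hcomp : IsCompact (Icc (-1 : ℝ) 1 ×ˢ Icc (-1 : ℝ) 1) := isCompact_Icc.prod isCompact_Icc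
  obtain ⟨z, hz0, φ, hφ, hz⟩ := hcomp.tendsto_subseq (x := c) (fun n => by
    have h1 := b1 n
    have h2 := b2 n
    refine ⟨⟨?_, ?_⟩, ⟨?_, ?_⟩⟩ <;> nlinarith [sq_nonneg (c n).1, sq_nonneg (c n).2])
  refine ⟨z.1, z.2, by nlinarith [hz0.1.1, hz0.1.2], by nlinarith [hz0.2.1, hz0.2.2],
    fun t ht x y => ?_⟩
  have hcont : Continuous fun w : ℝ × ℝ => Qk 1 (Y t *ᵥ ![-(w.1 * x + w.2 * y), x, y]) := by
    simp only [Qk, mv]
    simp
    fun_prop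
  refine le_of_tendsto ((hcont.tendsto z).comp hz) ?_
  filter_upwards [eventually_ge_atTop ⌈t⌉₊] with m hm
  refine key (φ m) t ht ?_ x y
  exact (Nat.le_ceil t).trans (by exact_mod_cast hm.trans (hφ.id_le m))

end OE

end Pool.Agent.MP_019006_gt

end

section

set_option autoImplicit false

open MeasureTheory Filter Topology Set Matrix

namespace Pool.Agent.MP_019006_gt

namespace OE

theorem fro_sq (A : M3) : fro A ^ 2 = (A 0 0 ^ 2 + A 1 0 ^ 2 + A 2 0 ^ 2) +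
    (A 0 1 ^ 2 + A 1 1 ^ 2 + A 2 1 ^ 2) + (A 0 2 ^ 2 + A 1 2 ^ 2 + A 2 2 ^ 2) := by
  unfold fro
  rw [Real.sq_sqrt (by positivity)]
  simp only [Fin.sum_univ_three]; ring

theorem nsq_nonneg (u : Fin 3 → ℝ) : 0 ≤ nsq u := by unfold nsq; positivity

theorem cs (a b c x y z : ℝ) :
    (a * x + b * y + c * z) ^ 2 ≤ (a ^ 2 + b ^ 2 + c ^ 2) * (x ^ 2 + y ^ 2 + z ^ 2) := by
  nlinarith [sq_nonneg (a * y - b * x), sq_nonneg (a * z - c * x), sq_nonneg (b * z - c * y)]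

theorem nsq_mulVec_le (B : M3) (u : Fin 3 → ℝ) : nsq (B *ᵥ u) ≤ fro B ^ 2 * nsq u := by
  rw [fro_sq]
  simp only [nsq, mv]
  have h0 := cs (B 0 0) (B 0 1) (B 0 2) (u 0) (u 1) (u 2)
  have h1 := cs (B 1 0) (B 1 1) (B 1 2) (u 0) (u 1) (u 2)
  have h2 := cs (B 2 0) (B 2 1) (B 2 2) (u 0) (u 1) (u 2)
  linarith

theorem cross_le (p0 p1 p2 q0 q1 q2 : ℝ) :
    (p1 * q2 - p2 * q1) ^ 2 + (p2 * q0 - p0 * q2) ^ 2 + (p0 * q1 - p1 * q0) ^ 2 ≤
      (p0 ^ 2 + p1 ^ 2 + p2 ^ 2) * (q0 ^ 2 + q1 ^ 2 + q2 ^ 2) := by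
  nlinarith [sq_nonneg (p0 * q0 + p1 * q1 + p2 * q2)]

theorem normal_bd (p0 p1 p2 q0 q1 q2 : ℝ)
    (h : ∀ x y : ℝ, (x * p0 + y * q0) ^ 2 - (x * p1 + y * q1) ^ 2 - (x * p2 + y * q2) ^ 2 ≤ 0) :
    (p2 * q0 - p0 * q2) ^ 2 + (p0 * q1 - p1 * q0) ^ 2 ≤ (p1 * q2 - p2 * q1) ^ 2 := by
  have h1 := h (-(q1 * (p0 * q1 - p1 * q0) - q2 * (p2 * q0 - p0 * q2)))
    (p1 * (p0 * q1 - p1 * q0) - p2 * (p2 * q0 - p0 * q2))
  have e : (-(q1 * (p0 * q1 - p1 * q0) - q2 * (p2 * q0 - p0 * q2)) * p0 +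
      (p1 * (p0 * q1 - p1 * q0) - p2 * (p2 * q0 - p0 * q2)) * q0) ^ 2 -
      (-(q1 * (p0 * q1 - p1 * q0) - q2 * (p2 * q0 - p0 * q2)) * p1 +
      (p1 * (p0 * q1 - p1 * q0) - p2 * (p2 * q0 - p0 * q2)) * q1) ^ 2 -
      (-(q1 * (p0 * q1 - p1 * q0) - q2 * (p2 * q0 - p0 * q2)) * p2 +
      (p1 * (p0 * q1 - p1 * q0) - p2 * (p2 * q0 - p0 * q2)) * q2) ^ 2 =
      ((p2 * q0 - p0 * q2) ^ 2 + (p0 * q1 - p1 * q0) ^ 2) *
        (((p2 * q0 - p0 * q2) ^ 2 + (p0 * q1 - p1 * q0) ^ 2) - (p1 * q2 - p2 * q1) ^ 2) := by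
    ring
  rw [e] at h1
  by_contra hh
  push Not at hh
  have h2 : 0 < (p2 * q0 - p0 * q2) ^ 2 + (p0 * q1 - p1 * q0) ^ 2 :=
    lt_of_le_of_lt (sq_nonneg _) hh
  have := mul_pos h2 (sub_pos.mpr hh)
  linarith

theorem trans_bd (f0 f1 f2 N0 N1 N2 : ℝ) (hf : f1 ^ 2 + f2 ^ 2 < 1 / 4 * f0 ^ 2)
    (hN : N1 ^ 2 + N2 ^ 2 ≤ N0 ^ 2) :
    f0 ^ 2 * (N0 ^ 2 + N1 ^ 2 + N2 ^ 2) ≤ 8 * (f0 * N0 + f1 * N1 + f2 * N2) ^ 2 := by
  have h1 : (f1 * N1 + f2 * N2) ^ 2 ≤ (f1 ^ 2 + f2 ^ 2) * (N1 ^ 2 + N2 ^ 2) := by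
    nlinarith [sq_nonneg (f1 * N2 - f2 * N1)]
  have h2 : (f1 ^ 2 + f2 ^ 2) * (N1 ^ 2 + N2 ^ 2) ≤ (1 / 4 * f0 ^ 2) * N0 ^ 2 :=
    mul_le_mul hf.le hN (by positivity) (by positivity)
  have h3 : f0 ^ 2 * (N1 ^ 2 + N2 ^ 2) ≤ f0 ^ 2 * N0 ^ 2 :=
    mul_le_mul_of_nonneg_left hN (by positivity)
  have h4 : (f0 * N0) ^ 2 ≤ 4 * (f0 * N0 + (f1 * N1 + f2 * N2)) ^ 2 := by
    nlinarith [sq_nonneg (f0 * N0 + 2 * (f1 * N1 + f2 * N2))]
  nlinarith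

theorem inv_bd (f0 f1 f2 p0 p1 p2 q0 q1 q2 a x y : ℝ) (hf : f1 ^ 2 + f2 ^ 2 < 1 / 4 * f0 ^ 2)
    (hE : p0 ^ 2 + p1 ^ 2 + p2 ^ 2 ≤ 15 * f0 ^ 2)
    (hN : (p2 * q0 - p0 * q2) ^ 2 + (p0 * q1 - p1 * q0) ^ 2 ≤ (p1 * q2 - p2 * q1) ^ 2) :
    ((p1 * q2 - p2 * q1) ^ 2 + (p2 * q0 - p0 * q2) ^ 2 + (p0 * q1 - p1 * q0) ^ 2) *
      (3 * a ^ 2 + 4 * (x ^ 2 + y ^ 2)) ≤
      400 * ((p0 ^ 2 + p1 ^ 2 + p2 ^ 2) + (q0 ^ 2 + q1 ^ 2 + q2 ^ 2)) *
        ((a * f0 + x * p0 + y * q0) ^ 2 + (a * f1 + x * p1 + y * q1) ^ 2 +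
          (a * f2 + x * p2 + y * q2) ^ 2) := by
  have f0p : 0 < f0 ^ 2 := by nlinarith [sq_nonneg f1, sq_nonneg f2]
  have t1 := trans_bd f0 f1 f2 _ _ _ hf hN
  have c1 := cs (a * f0 + x * p0 + y * q0) (a * f1 + x * p1 + y * q1) (a * f2 + x * p2 + y * q2)
    (p1 * q2 - p2 * q1) (p2 * q0 - p0 * q2) (p0 * q1 - p1 * q0)
  have c2 := cs (a * f0 + x * p0 + y * q0) (a * f1 + x * p1 + y * q1) (a * f2 + x * p2 + y * q2)
    (q1 * f2 - q2 * f1) (q2 * f0 - q0 * f2) (q0 * f1 - q1 * f0)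
  have c3 := cs (a * f0 + x * p0 + y * q0) (a * f1 + x * p1 + y * q1) (a * f2 + x * p2 + y * q2)
    (f1 * p2 - f2 * p1) (f2 * p0 - f0 * p2) (f0 * p1 - f1 * p0)
  have d1 := cross_le p0 p1 p2 q0 q1 q2
  have d2 := cross_le q0 q1 q2 f0 f1 f2
  have d3 := cross_le f0 f1 f2 p0 p1 p2
  have e1 : (a * f0 + x * p0 + y * q0) * (p1 * q2 - p2 * q1) +
      (a * f1 + x * p1 + y * q1) * (p2 * q0 - p0 * q2) +
      (a * f2 + x * p2 + y * q2) * (p0 * q1 - p1 * q0) =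
      a * (f0 * (p1 * q2 - p2 * q1) + f1 * (p2 * q0 - p0 * q2) + f2 * (p0 * q1 - p1 * q0)) := by
    ring
  have e2 : (a * f0 + x * p0 + y * q0) * (q1 * f2 - q2 * f1) +
      (a * f1 + x * p1 + y * q1) * (q2 * f0 - q0 * f2) +
      (a * f2 + x * p2 + y * q2) * (q0 * f1 - q1 * f0) =
      x * (f0 * (p1 * q2 - p2 * q1) + f1 * (p2 * q0 - p0 * q2) + f2 * (p0 * q1 - p1 * q0)) := by
    ring
  have e3 : (a * f0 + x * p0 + y * q0) * (f1 * p2 - f2 * p1) +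
      (a * f1 + x * p1 + y * q1) * (f2 * p0 - f0 * p2) +
      (a * f2 + x * p2 + y * q2) * (f0 * p1 - f1 * p0) =
      y * (f0 * (p1 * q2 - p2 * q1) + f1 * (p2 * q0 - p0 * q2) + f2 * (p0 * q1 - p1 * q0)) := by
    ring
  rw [e1, mul_pow] at c1
  rw [e2, mul_pow] at c2
  rw [e3, mul_pow] at c3
  generalize f0 * (p1 * q2 - p2 * q1) + f1 * (p2 * q0 - p0 * q2) + f2 * (p0 * q1 - p1 * q0) = Δ
    at *
  have Z0 : 0 ≤ (a * f0 + x * p0 + y * q0) ^ 2 + (a * f1 + x * p1 + y * q1) ^ 2 +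
    (a * f2 + x * p2 + y * q2) ^ 2 := by positivity
  generalize (a * f0 + x * p0 + y * q0) ^ 2 + (a * f1 + x * p1 + y * q1) ^ 2 +
    (a * f2 + x * p2 + y * q2) ^ 2 = Z at *
  have D0 : 0 ≤ (p1 * q2 - p2 * q1) ^ 2 + (p2 * q0 - p0 * q2) ^ 2 + (p0 * q1 - p1 * q0) ^ 2 := by
    positivity
  clear hN e1 e2 e3
  generalize (p1 * q2 - p2 * q1) ^ 2 + (p2 * q0 - p0 * q2) ^ 2 + (p0 * q1 - p1 * q0) ^ 2 = D at *
  generalize (q1 * f2 - q2 * f1) ^ 2 + (q2 * f0 - q0 * f2) ^ 2 + (q0 * f1 - q1 * f0) ^ 2 = D2 at *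
  generalize (f1 * p2 - f2 * p1) ^ 2 + (f2 * p0 - f0 * p2) ^ 2 + (f0 * p1 - f1 * p0) ^ 2 = D3 at *
  have E0 : 0 ≤ p0 ^ 2 + p1 ^ 2 + p2 ^ 2 := by positivity
  have G0 : 0 ≤ q0 ^ 2 + q1 ^ 2 + q2 ^ 2 := by positivity
  generalize p0 ^ 2 + p1 ^ 2 + p2 ^ 2 = E at *
  generalize q0 ^ 2 + q1 ^ 2 + q2 ^ 2 = G at *
  have hφ : f0 ^ 2 + f1 ^ 2 + f2 ^ 2 ≤ 5 / 4 * f0 ^ 2 := by linarith
  generalize f0 ^ 2 + f1 ^ 2 + f2 ^ 2 = φ at *
  clear hf
  generalize f0 ^ 2 = w at *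
  have a0 := sq_nonneg a
  have x0 := sq_nonneg x
  have y0 := sq_nonneg y
  generalize a ^ 2 = A at *
  generalize x ^ 2 = X at *
  generalize y ^ 2 = V at *
  generalize Δ ^ 2 = S at *
  have g1 : D * (X + V) ≤ 10 * (E + G) * Z := by
    refine le_of_mul_le_mul_left ?_ f0p
    have k1 := mul_le_mul_of_nonneg_right t1 (add_nonneg x0 y0)
    have k2 := mul_le_mul_of_nonneg_left (d2.trans (mul_le_mul_of_nonneg_left hφ G0)) Z0
    have k3 := mul_le_mul_of_nonneg_left (d3.trans (mul_le_mul_of_nonneg_right hφ E0)) Z0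
    nlinarith
  have g2 : D * A ≤ 120 * (E + G) * Z := by
    refine le_of_mul_le_mul_left ?_ f0p
    have k1 := mul_le_mul_of_nonneg_right t1 a0
    have k2 : D ≤ 15 * w * (E + G) := by
      have := mul_le_mul_of_nonneg_right hE G0
      have := mul_nonneg f0p.le E0
      nlinarith
    have k3 := mul_le_mul_of_nonneg_left k2 Z0
    nlinarith
  nlinarith

/-- The vector of the slow plane with coordinates `x`, `y`. -/
def sv (α β x y : ℝ) : Fin 3 → ℝ := ![-(α * x + β * y), x, y]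

theorem mv_sv (A : M3) (α β x y : ℝ) (i : Fin 3) :
    (A *ᵥ sv α β x y) i = x * (A i 1 - α * A i 0) + y * (A i 2 - β * A i 0) := by
  rw [mv]; simp [sv]; ring

def fE (α : ℝ) (A : M3) : ℝ :=
  (A 0 1 - α * A 0 0) ^ 2 + (A 1 1 - α * A 1 0) ^ 2 + (A 2 1 - α * A 2 0) ^ 2

def fG (β : ℝ) (A : M3) : ℝ :=
  (A 0 2 - β * A 0 0) ^ 2 + (A 1 2 - β * A 1 0) ^ 2 + (A 2 2 - β * A 2 0) ^ 2

def fF (α β : ℝ) (A : M3) : ℝ :=
  (A 0 1 - α * A 0 0) * (A 0 2 - β * A 0 0) + (A 1 1 - α * A 1 0) * (A 1 2 - β * A 1 0) +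
    (A 2 1 - α * A 2 0) * (A 2 2 - β * A 2 0)

theorem nsq_sv (A : M3) (α β x y : ℝ) : nsq (A *ᵥ sv α β x y) =
    fE α A * x ^ 2 + 2 * fF α β A * x * y + fG β A * y ^ 2 := by
  simp only [nsq, mv_sv, fE, fF, fG]; ring

theorem lowT (E F G r : ℝ) (E0 : 0 ≤ E) (G0 : 0 ≤ G) (Dp : 0 < E * G - F ^ 2)
    (k : ∀ x y : ℝ, x ^ 2 + y ^ 2 ≤ r * (E * x ^ 2 + 2 * F * x * y + G * y ^ 2)) :
    E + G ≤ 2 * (r * (E * G - F ^ 2)) := by
  have k1 := k G (-F)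
  have k2 := k (-F) E
  have Tp : 0 < E + G := by
    rcases (add_nonneg E0 G0).eq_or_lt with h | h
    · have : E = 0 := by linarith
      rw [this] at Dp
      nlinarith [sq_nonneg F]
    · exact h
  refine le_of_mul_le_mul_left ?_ Tp
  nlinarith [sq_nonneg (E - G), sq_nonneg F]

theorem E_bd (f0 f1 f2 g0 g1 g2 α : ℝ) (hα : α ^ 2 ≤ 1) (hf : f1 ^ 2 + f2 ^ 2 < 1 / 4 * f0 ^ 2)
    (h1 : g0 ^ 2 + g1 ^ 2 + g2 ^ 2 ≤ 6 * f0 ^ 2) :
    (g0 - α * f0) ^ 2 + (g1 - α * f1) ^ 2 + (g2 - α * f2) ^ 2 ≤ 15 * f0 ^ 2 := by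
  have k : α ^ 2 * (f0 ^ 2 + f1 ^ 2 + f2 ^ 2) ≤ 1 * (5 / 4 * f0 ^ 2) :=
    mul_le_mul hα (by linarith) (by positivity) (by norm_num)
  have e : (g0 - α * f0) ^ 2 + (g1 - α * f1) ^ 2 + (g2 - α * f2) ^ 2 +
      ((g0 + α * f0) ^ 2 + (g1 + α * f1) ^ 2 + (g2 + α * f2) ^ 2) =
      2 * (g0 ^ 2 + g1 ^ 2 + g2 ^ 2) + 2 * (α ^ 2 * (f0 ^ 2 + f1 ^ 2 + f2 ^ 2)) := by ring
  linarith [sq_nonneg (g0 + α * f0), sq_nonneg (g1 + α * f1), sq_nonneg (g2 + α * f2),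
    sq_nonneg f0]

theorem split_bd (a x y α β : ℝ) (hα : α ^ 2 ≤ 1) (hβ : β ^ 2 ≤ 1) :
    a ^ 2 + x ^ 2 + y ^ 2 ≤ 3 * (a + α * x + β * y) ^ 2 + 4 * (x ^ 2 + y ^ 2) := by
  have m1 := mul_le_mul_of_nonneg_right hα (sq_nonneg x)
  have m2 := mul_le_mul_of_nonneg_right hβ (sq_nonneg y)
  have e : 3 * (a + α * x + β * y) ^ 2 + 3 * (α ^ 2 * x ^ 2) + 3 * (β ^ 2 * y ^ 2) =
      a ^ 2 + (a + α * x + β * y + α * x) ^ 2 + (a + α * x + β * y + β * y) ^ 2 +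
        (α * x - β * y) ^ 2 := by ring
  linarith [sq_nonneg (a + α * x + β * y + α * x), sq_nonneg (a + α * x + β * y + β * y),
    sq_nonneg (α * x - β * y)]

theorem fixed_time (A : M3) (α β : ℝ) (hα : α ^ 2 ≤ 1) (hβ : β ^ 2 ≤ 1) (hdet : 0 < A.det)
    (hf : A 1 0 ^ 2 + A 2 0 ^ 2 < 1 / 4 * A 0 0 ^ 2)
    (h1 : A 0 1 ^ 2 + A 1 1 ^ 2 + A 2 1 ^ 2 ≤ 6 * A 0 0 ^ 2)
    (hs : ∀ x y : ℝ, Qk 1 (A *ᵥ sv α β x y) ≤ 0) :
    4 / 5 * (A.det ^ 2 / A 0 0 ^ 2) ≤ fE α A * fG β A - fF α β A ^ 2 ∧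
    fE α A * fG β A - fF α β A ^ 2 ≤ 8 * (A.det ^ 2 / A 0 0 ^ 2) ∧
    1 / 1200 * (fro A⁻¹ ^ 2 * (fE α A * fG β A - fF α β A ^ 2)) ≤ fE α A + fG β A ∧
    fE α A + fG β A ≤ 2 * (fro A⁻¹ ^ 2 * (fE α A * fG β A - fF α β A ^ 2)) := by
  have f0p : 0 < A 0 0 ^ 2 := by nlinarith [sq_nonneg (A 1 0), sq_nonneg (A 2 0)]
  set p0 := A 0 1 - α * A 0 0 with hp0
  set p1 := A 1 1 - α * A 1 0 with hp1
  set p2 := A 2 1 - α * A 2 0 with hp2
  set q0 := A 0 2 - β * A 0 0 with hq0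
  set q1 := A 1 2 - β * A 1 0 with hq1
  set q2 := A 2 2 - β * A 2 0 with hq2
  have hN := normal_bd p0 p1 p2 q0 q1 q2 fun x y => by
    have := hs x y
    simp only [Qk, mv_sv, one_mul] at this
    exact this
  have hD : fE α A * fG β A - fF α β A ^ 2 =
      (p1 * q2 - p2 * q1) ^ 2 + (p2 * q0 - p0 * q2) ^ 2 + (p0 * q1 - p1 * q0) ^ 2 := by
    simp only [fE, fF, fG, hp0, hp1, hp2, hq0, hq1, hq2]; ring
  have hΔ : A.det = A 0 0 * (p1 * q2 - p2 * q1) + A 1 0 * (p2 * q0 - p0 * q2) +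
      A 2 0 * (p0 * q1 - p1 * q0) := by
    rw [Matrix.det_fin_three]
    simp only [hp0, hp1, hp2, hq0, hq1, hq2]; ring
  have hEb : p0 ^ 2 + p1 ^ 2 + p2 ^ 2 ≤ 15 * A 0 0 ^ 2 := E_bd _ _ _ _ _ _ α hα hf h1
  have t1 := trans_bd (A 0 0) (A 1 0) (A 2 0) _ _ _ hf hN
  have t2 := cs (A 0 0) (A 1 0) (A 2 0) (p1 * q2 - p2 * q1) (p2 * q0 - p0 * q2) (p0 * q1 - p1 * q0)
  rw [← hΔ, ← hD] at t1 t2
  have D0 : 0 ≤ fE α A * fG β A - fF α β A ^ 2 := by rw [hD]; positivity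
  have hU : IsUnit A.det := isUnit_iff_ne_zero.mpr hdet.ne'
  have hinv : ∀ u : Fin 3 → ℝ, (fE α A * fG β A - fF α β A ^ 2) * nsq u ≤
      400 * (fE α A + fG β A) * nsq (A *ᵥ u) := by
    intro u
    have k := inv_bd (A 0 0) (A 1 0) (A 2 0) p0 p1 p2 q0 q1 q2 (u 0 + α * u 1 + β * u 2) (u 1) (u 2)
      hf hEb hN
    rw [← hD] at k
    have k2 : nsq u ≤ 3 * (u 0 + α * u 1 + β * u 2) ^ 2 + 4 * (u 1 ^ 2 + u 2 ^ 2) :=
      split_bd (u 0) (u 1) (u 2) α β hα hβ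
    refine (mul_le_mul_of_nonneg_left k2 D0).trans (k.trans (le_of_eq ?_))
    simp only [nsq, mv, fE, fG, hp0, hp1, hp2, hq0, hq1, hq2]; ring
  refine ⟨?_, ?_, ?_, ?_⟩
  · rw [← mul_div_assoc, div_le_iff₀ f0p]
    have := mul_le_mul_of_nonneg_right
      (show A 0 0 ^ 2 + A 1 0 ^ 2 + A 2 0 ^ 2 ≤ 5 / 4 * A 0 0 ^ 2 by linarith) D0
    linarith
  · rw [← mul_div_assoc, le_div_iff₀ f0p]; linarith
  · have k : ∀ v : Fin 3 → ℝ, (fE α A * fG β A - fF α β A ^ 2) * nsq (A⁻¹ *ᵥ v) ≤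
        400 * (fE α A + fG β A) * nsq v := by
      intro v
      have := hinv (A⁻¹ *ᵥ v)
      rwa [Matrix.mulVec_mulVec, Matrix.mul_nonsing_inv A hU, Matrix.one_mulVec] at this
    have k0 := k ![1, 0, 0]
    have k1 := k ![0, 1, 0]
    have k2 := k ![0, 0, 1]
    simp only [nsq, mv] at k0 k1 k2
    simp at k0 k1 k2
    rw [fro_sq]
    linarith
  · have k : ∀ x y : ℝ, x ^ 2 + y ^ 2 ≤
        fro A⁻¹ ^ 2 * (fE α A * x ^ 2 + 2 * fF α β A * x * y + fG β A * y ^ 2) := by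
      intro x y
      have := nsq_mulVec_le A⁻¹ (A *ᵥ sv α β x y)
      rw [Matrix.mulVec_mulVec, Matrix.nonsing_inv_mul A hU, Matrix.one_mulVec, nsq_sv] at this
      refine le_trans ?_ this
      simp only [nsq, sv]
      simp
      positivity
    have Dp : 0 < fE α A * fG β A - fF α β A ^ 2 := by
      rcases D0.eq_or_lt with h | h
      · rw [← h, mul_zero] at t2
        exact absurd t2 (not_le.mpr (pow_pos hdet 2))
      · exact h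
    exact lowT _ _ _ _ (by unfold fE; positivity) (by unfold fG; positivity) Dp k

variable {K Om Y H : ℝ → M3}

theorem H_le (hC : Cone K Om Y H) {t : ℝ} (ht : 0 ≤ t) (u : Fin 3 → ℝ) :
    nsq (H t *ᵥ u) ≤ 9 * nsq (Y t *ᵥ u) := by
  have h := hC.cone t ht u
  rw [Matrix.sub_mulVec, ← Matrix.mulVec_mulVec] at h
  simp only [nsq, Pi.sub_apply, U0, Matrix.mulVec_diagonal] at h ⊢
  simp at h
  nlinarith [sq_nonneg ((H t *ᵥ u) 0 - 4 * (Y t *ᵥ u) 0), sq_nonneg ((H t *ᵥ u) 1 - 2 * (Y t *ᵥ u) 1),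
    sq_nonneg ((H t *ᵥ u) 2 - 2 * (Y t *ᵥ u) 2), sq_nonneg ((Y t *ᵥ u) 0),
    sq_nonneg ((Y t *ᵥ u) 1), sq_nonneg ((Y t *ᵥ u) 2)]

theorem nsq_low (hJ : JacSys K Om Y H) (hC : Cone K Om Y H) {t : ℝ} (ht : 0 ≤ t)
    (u : Fin 3 → ℝ) : Real.exp (9 / 5 * t) * nsq u ≤ nsq (Y t *ᵥ u) := by
  have := (growth hJ hC le_rfl ht u).1
  rwa [hJ.Y0, Matrix.one_mulVec, sub_zero] at this

theorem nsq_mono (hJ : JacSys K Om Y H) (hC : Cone K Om Y H) {s t : ℝ} (hs : 0 ≤ s) (hst : s ≤ t)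
    (u : Fin 3 → ℝ) : nsq (Y s *ᵥ u) ≤ nsq (Y t *ᵥ u) := by
  refine le_trans ?_ (growth hJ hC hs hst u).1
  refine le_mul_of_one_le_left (nsq_nonneg _) (Real.one_le_exp ?_)
  nlinarith

theorem to_real (hJ : JacSys K Om Y H) (hC : Cone K Om Y H) {s : ℝ} (hs : 0 < s)
    (u : Fin 3 → ℝ) (hu : 0 < nsq u) {l : ℝ} (h : Rate (fun n : ℕ => nsq (Y (n * s) *ᵥ u)) l) :
    Tendsto (fun t : ℝ => Real.log (Real.sqrt (nsq (Y t *ᵥ u) + nsq (H t *ᵥ u))) / t)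
      atTop (𝓝 (l / 2 / s)) := by
  have hts : Tendsto (fun t : ℝ => t / s) atTop atTop := tendsto_id.atTop_div_const hs
  have hn : Tendsto (fun t : ℝ => ⌊t / s⌋₊) atTop atTop := tendsto_nat_floor_atTop.comp hts
  have h1 : Tendsto (fun t : ℝ => Real.log (nsq (Y (⌊t / s⌋₊ * s) *ᵥ u)) / (⌊t / s⌋₊ : ℝ))
      atTop (𝓝 l) := h.comp hn
  have h2 : Tendsto (fun t : ℝ => (⌊t / s⌋₊ : ℝ) / (t / s)) atTop (𝓝 1) :=
    tendsto_nat_floor_div_atTop.comp hts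
  have h3 : Tendsto (fun t : ℝ => Real.log (nsq (Y (⌊t / s⌋₊ * s) *ᵥ u)) / 2 / t)
      atTop (𝓝 (l / 2 / s)) := by
    have := ((h1.mul h2).div_const 2).div_const s
    rw [mul_one] at this
    refine this.congr' ?_
    filter_upwards [hn.eventually (eventually_gt_atTop 0), eventually_gt_atTop 0] with t ht ht0
    have : (0 : ℝ) < ⌊t / s⌋₊ := by exact_mod_cast ht
    field_simp
  set C := Real.log (10 * Real.exp (21 / 5 * s)) / 2 with hC'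
  have h4 : Tendsto (fun t : ℝ => Real.log (nsq (Y (⌊t / s⌋₊ * s) *ᵥ u)) / 2 / t + C / t)
      atTop (𝓝 (l / 2 / s)) := by
    simpa using h3.add (tendsto_const_nhds.div_atTop tendsto_id (a := C))
  have pos : ∀ t, 0 ≤ t → 0 < nsq (Y t *ᵥ u) := fun t ht =>
    (mul_pos (Real.exp_pos _) hu).trans_le (nsq_low hJ hC ht u)
  have fl : ∀ t : ℝ, 0 < t → 0 ≤ (⌊t / s⌋₊ : ℝ) * s ∧ (⌊t / s⌋₊ : ℝ) * s ≤ t ∧
      t - (⌊t / s⌋₊ : ℝ) * s ≤ s := by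
    intro t ht
    have a1 : (⌊t / s⌋₊ : ℝ) ≤ t / s := Nat.floor_le (by positivity)
    have a2 : t / s < (⌊t / s⌋₊ : ℝ) + 1 := Nat.lt_floor_add_one _
    rw [le_div_iff₀ hs] at a1
    rw [div_lt_iff₀ hs] at a2
    exact ⟨by positivity, a1, by linarith⟩
  refine tendsto_of_tendsto_of_tendsto_of_le_of_le' h3 h4 ?_ ?_
  · filter_upwards [eventually_gt_atTop 0] with t ht
    obtain ⟨a1, a2, -⟩ := fl t ht
    refine div_le_div_of_nonneg_right ?_ ht.le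
    rw [Real.log_sqrt (add_nonneg (nsq_nonneg _) (nsq_nonneg _))]
    refine div_le_div_of_nonneg_right (Real.log_le_log (pos _ a1) ?_) (by norm_num)
    have := nsq_mono hJ hC a1 a2 u
    have := nsq_nonneg (H t *ᵥ u)
    linarith
  · filter_upwards [eventually_gt_atTop 0] with t ht
    obtain ⟨a1, a2, a3⟩ := fl t ht
    rw [← add_div]
    refine div_le_div_of_nonneg_right ?_ ht.le
    rw [Real.log_sqrt (add_nonneg (nsq_nonneg _) (nsq_nonneg _)), hC', ← add_div,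
      ← Real.log_mul (pos _ a1).ne' (by positivity)]
    refine div_le_div_of_nonneg_right (Real.log_le_log
      (add_pos_of_pos_of_nonneg (pos _ ht.le) (nsq_nonneg _)) ?_) (by norm_num)
    have b1 := (growth hJ hC a1 a2 u).2
    have b2 := H_le hC ht.le u
    have b3 : Real.exp (21 / 5 * (t - ⌊t / s⌋₊ * s)) ≤ Real.exp (21 / 5 * s) :=
      Real.exp_le_exp.mpr (by linarith)
    have b4 := mul_le_mul_of_nonneg_right b3 (pos _ a1).le
    nlinarith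

end OE

open OE in
theorem exponents {K Om Y H : ℝ → M3} (hJ : JacSys K Om Y H) (hC : Cone K Om Y H) (s : ℝ)
    (hs : 0 < s) (l₀ l₁ l₂ : ℝ)
    (h0 : Tendsto (fun n : ℕ => Real.log (Y (n * s)).det / n) atTop (𝓝 l₀))
    (h1 : Tendsto (fun n : ℕ => Real.log (fro (Y (n * s))) / n) atTop (𝓝 l₁))
    (h2 : Tendsto (fun n : ℕ => Real.log (fro (Y (n * s))⁻¹) / n) atTop (𝓝 l₂))
    (hl : l₀ < 2 * l₁) :
    ∃ (u₁ u₂ : Fin 3 → ℝ) (χ₁ χ₂ : ℝ), u₁ ≠ 0 ∧ u₂ ≠ 0 ∧ 0 < χ₂ ∧ 2 * χ₂ < χ₁ ∧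
      Tendsto (fun t : ℝ => Real.log (Real.sqrt (nsq (Y t *ᵥ u₁) + nsq (H t *ᵥ u₁))) / t)
        atTop (𝓝 χ₁) ∧
      Tendsto (fun t : ℝ => Real.log (Real.sqrt (nsq (Y t *ᵥ u₂) + nsq (H t *ᵥ u₂))) / t)
        atTop (𝓝 χ₂) := by
  obtain ⟨α, β, hα, hβ, hsl⟩ := slow_plane hJ hC
  have ns : ∀ n : ℕ, 0 ≤ (n : ℝ) * s := fun n => by positivity
  have r0 : Rate (fun n : ℕ => (Y (n * s)).det ^ 2) (2 * l₀) := Rate.sq h0
  have r1 : Rate (fun n : ℕ => fro (Y (n * s)) ^ 2) (2 * l₁) := Rate.sq h1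
  have r2 : Rate (fun n : ℕ => fro (Y (n * s))⁻¹ ^ 2) (2 * l₂) := Rate.sq h2
  have fc := fun n : ℕ => f_cone hJ hC (ns n)
  have c1 := fun n : ℕ => col1 hJ hC (ns n)
  have c2 := fun n : ℕ => col2 hJ hC (ns n)
  have dp := fun n : ℕ => hC.det_pos _ (ns n)
  have f0p : ∀ n : ℕ, 0 < Y (n * s) 0 0 ^ 2 := fun n => by
    have := f_ne hJ hC (ns n); positivity
  have frop : ∀ n : ℕ, 0 < fro (Y (n * s)) ^ 2 := fun n => by
    rw [fro_sq]; have := f0p n; positivity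
  have ft := fun n : ℕ => fixed_time (Y (n * s)) α β hα hβ (dp n) (fc n) (c1 n)
    (fun x y => hsl _ (ns n) x y)
  have rf : Rate (fun n : ℕ => Y (n * s) 0 0 ^ 2) (2 * l₁) := by
    refine r1.comparable frop (c := 1 / 14) (C := 1) (by norm_num) (by norm_num) ?_ ?_
    · intro n
      rw [fro_sq]
      linarith [fc n, c1 n, c2 n, f0p n]
    · intro n
      rw [fro_sq, one_mul]
      nlinarith [sq_nonneg (Y (n * s) 1 0), sq_nonneg (Y (n * s) 2 0),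
        sq_nonneg (Y (n * s) 0 1), sq_nonneg (Y (n * s) 1 1), sq_nonneg (Y (n * s) 2 1),
        sq_nonneg (Y (n * s) 0 2), sq_nonneg (Y (n * s) 1 2), sq_nonneg (Y (n * s) 2 2)]
  have re0 : Rate (fun n : ℕ => nsq (Y (n * s) *ᵥ ![1, 0, 0])) (2 * l₁) := by
    refine rf.comparable f0p (c := 1) (C := 2) (by norm_num) (by norm_num) ?_ ?_
    · intro n
      simp only [nsq, mv]; simp
      nlinarith [sq_nonneg (Y (n * s) 1 0), sq_nonneg (Y (n * s) 2 0)]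
    · intro n
      simp only [nsq, mv]; simp
      linarith [fc n, f0p n]
  have qp : ∀ n : ℕ, 0 < (Y (n * s)).det ^ 2 / Y (n * s) 0 0 ^ 2 := fun n =>
    div_pos (pow_pos (dp n) 2) (f0p n)
  have Dp : ∀ n : ℕ, 0 < fE α (Y (n * s)) * fG β (Y (n * s)) - fF α β (Y (n * s)) ^ 2 := fun n =>
    lt_of_lt_of_le (by have := qp n; positivity) (ft n).1
  have rD : Rate (fun n : ℕ => fE α (Y (n * s)) * fG β (Y (n * s)) - fF α β (Y (n * s)) ^ 2)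
      (2 * l₀ - 2 * l₁) :=
    (r0.div rf (fun n => pow_pos (dp n) 2) f0p).comparable qp (by norm_num) (by norm_num)
      (fun n => (ft n).1) (fun n => (ft n).2.1)
  have Ep : ∀ n : ℕ, 0 < fE α (Y (n * s)) := by
    intro n
    have E0 : 0 ≤ fE α (Y (n * s)) := by unfold fE; positivity
    rcases E0.eq_or_lt with h | h
    · have := Dp n
      rw [← h] at this
      nlinarith [sq_nonneg (fF α β (Y (n * s)))]
    · exact h
  have ip : ∀ n : ℕ, 0 < fro (Y (n * s))⁻¹ ^ 2 := by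
    intro n
    have G0 : 0 ≤ fG β (Y (n * s)) := by unfold fG; positivity
    have k := (ft n).2.2.2
    rcases (sq_nonneg (fro (Y (n * s))⁻¹)).eq_or_lt with h | h
    · rw [← h] at k
      linarith [Ep n]
    · exact h
  have rT : Rate (fun n : ℕ => fE α (Y (n * s)) + fG β (Y (n * s))) (2 * l₂ + (2 * l₀ - 2 * l₁)) :=
    (r2.mul rD ip Dp).comparable (fun n => mul_pos (ip n) (Dp n)) (by norm_num) (by norm_num)
      (fun n => (ft n).2.2.1) (fun n => (ft n).2.2.2)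
  obtain ⟨hle, x, y, hxy, hr⟩ := two_dim (fun n : ℕ => fE α (Y (n * s)))
    (fun n : ℕ => fF α β (Y (n * s))) (fun n : ℕ => fG β (Y (n * s))) Ep Dp
    (fun n x y => by
      rw [← nsq_sv, ← nsq_sv]
      refine nsq_mono hJ hC (ns n) ?_ _
      push_cast; nlinarith)
    (2 * l₂ + (2 * l₀ - 2 * l₁)) (-2 * l₂) rT (by convert rD using 1; ring)
  simp only [← nsq_sv] at hr
  have u2p : 0 < nsq (sv α β x y) := by
    simp only [nsq, sv]; simp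
    nlinarith [sq_nonneg (α * x + β * y)]
  have hpos : 9 / 5 * s ≤ -2 * l₂ := by
    have k := (rate_exp (9 / 5 * s)).mul (rate_const (nsq (sv α β x y)))
      (fun _ => Real.exp_pos _) (fun _ => u2p)
    rw [add_zero] at k
    refine k.le hr (fun n => mul_pos (Real.exp_pos _) u2p) fun n => ?_
    have := nsq_low hJ hC (ns n) (sv α β x y)
    convert this using 3; ring
  refine ⟨![1, 0, 0], sv α β x y, 2 * l₁ / 2 / s, -2 * l₂ / 2 / s, ?_, ?_, ?_, ?_,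
    to_real hJ hC hs _ (by simp [nsq]) re0, to_real hJ hC hs _ u2p hr⟩
  · intro h
    have := congrFun h 0
    simp at this
  · intro h
    rw [h] at u2p
    simp [nsq] at u2p
  · exact div_pos (by linarith) hs
  · rw [← mul_div_assoc]
    exact div_lt_div_of_pos_right (by linarith) hs

end Pool.Agent.MP_019006_gt

end
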