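import Pool.Agent.MP_019006_gt.JobDefs

section

set_option autoImplicit false

open MeasureTheory Filter Topology Set Matrix

namespace Pool.Agent.MP_019006_gt

namespace Flat

/-- polynomial multiples of the glue function, reflected at `1`. -/
noncomputable def G (p : Polynomial ℝ) (r : ℝ) : ℝ := p.eval (1 - r)⁻¹ * expNegInvGlue (1 - r)

noncomputable def dp (p : Polynomial ℝ) : Polynomial ℝ :=
  -(Polynomial.X ^ 2 * (p - Polynomial.derivative p))

lemma G_deriv (p : Polynomial ℝ) (r : ℝ) : HasDerivAt (G p) (G (dp p) r) r := by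
  have h := (expNegInvGlue.hasDerivAt_polynomial_eval_inv_mul p (1 - r)).comp r
    ((hasDerivAt_id r).const_sub 1)
  exact h.congr_deriv (by simp [G, dp])

lemma G_cont (p : Polynomial ℝ) : Continuous (G p) :=
  continuous_iff_continuousAt.2 fun r => (G_deriv p r).continuousAt

lemma G_zero (p : Polynomial ℝ) {r : ℝ} (h : 1 ≤ r) : G p r = 0 := by
  simp [G, expNegInvGlue.zero_of_nonpos (show 1 - r ≤ 0 by linarith)]

noncomputable def g0 : ℝ → ℝ := G 1
noncomputable def g1 : ℝ → ℝ := G (dp 1)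
noncomputable def g2 : ℝ → ℝ := G (dp (dp 1))

lemma g1_neg {r : ℝ} (h : r < 1) : g1 r < 0 := by
  have h1 : 0 < 1 - r := by linarith
  have h2 := expNegInvGlue.pos_of_pos h1
  have h3 : 0 < ((1 - r)⁻¹) ^ 2 := by positivity
  have : g1 r = -(((1 - r)⁻¹) ^ 2 * expNegInvGlue (1 - r)) := by simp [g1, G, dp]
  rw [this]
  have := mul_pos h3 h2
  linarith

/-- the one dimensional identity. -/
lemma one_dim (k : ℝ → ℝ) (hk : Continuous k) (h0 : ∀ t, 1 ≤ |t| → k t = 0) :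
    ∫ t, k t * ∫ s in (-6 : ℝ)..0, k (t + s) = 1 / 2 * (∫ t in (-1 : ℝ)..1, k t) ^ 2 := by
  have hsupp : Function.support (fun t => k t * ∫ s in (-6 : ℝ)..0, k (t + s)) ⊆ Ioc (-1) 1 := by
    intro t ht
    by_contra hn
    apply ht
    have : 1 ≤ |t| := by
      rw [mem_Ioc, not_and_or, not_lt, not_le] at hn
      rcases hn with hn | hn
      · rw [abs_of_nonpos (by linarith)]; linarith
      · rw [abs_of_pos (by linarith)]; linarith
    simp [h0 t this]
  rw [← intervalIntegral.integral_eq_integral_of_support_subset hsupp]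
  set K : ℝ → ℝ := fun t => ∫ s in (-1 : ℝ)..t, k s with hK
  have hKd : ∀ t, HasDerivAt K (k t) t := fun t =>
    intervalIntegral.integral_hasDerivAt_right (hk.intervalIntegrable _ _)
      (hk.stronglyMeasurableAtFilter _ _) hk.continuousAt
  have hKc : Continuous K := continuous_iff_continuousAt.2 fun t => (hKd t).continuousAt
  have h1 : ∫ t in (-1 : ℝ)..1, (k t * ∫ s in (-6 : ℝ)..0, k (t + s)) =
      ∫ t in (-1 : ℝ)..1, k t * K t := by
    apply intervalIntegral.integral_congr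
    intro t ht
    rw [uIcc_of_le (by norm_num)] at ht
    have e1 : ∫ s in (-6 : ℝ)..0, k (t + s) = ∫ s in (t + -6)..(t + 0), k s :=
      intervalIntegral.integral_comp_add_left k t
    have e2 : ∫ s in (t + -6)..(-1 : ℝ), k s = 0 := by
      rw [intervalIntegral.integral_congr (g := fun _ => (0 : ℝ))]
      · simp
      · intro s hs
        rw [uIcc_of_le (by linarith [ht.2])] at hs
        apply h0
        rw [abs_of_nonpos (by linarith [hs.2])]
        linarith [hs.2]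
    have e3 := intervalIntegral.integral_add_adjacent_intervals
      (hk.intervalIntegrable (μ := volume) (t + -6) (-1)) (hk.intervalIntegrable (-1) t)
    simp only
    rw [e1, add_zero, ← e3, e2, zero_add]
  rw [h1]
  have h2 : ∀ t ∈ uIcc (-1 : ℝ) 1, HasDerivAt (fun t => 1 / 2 * K t ^ 2) (k t * K t) t := by
    intro t _
    have := ((hKd t).pow 2).const_mul (1 / 2)
    exact this.congr_deriv (by simp; ring)
  rw [intervalIntegral.integral_eq_sub_of_hasDerivAt h2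
    ((hk.mul hKc).intervalIntegrable _ _)]
  simp [hK]

/-- the transversal space. -/
abbrev P := Fin 3 → ℝ

def rho (y : P) : ℝ := y 0 ^ 2 + y 1 ^ 2 + y 2 ^ 2

lemma rho_cont : Continuous rho := by unfold rho; fun_prop

lemma rho_nonneg (y : P) : 0 ≤ rho y := by unfold rho; positivity

lemma sq_le_rho (y : P) (i : Fin 3) : y i ^ 2 ≤ rho y := by
  unfold rho
  fin_cases i <;> simp <;> nlinarith [sq_nonneg (y 0), sq_nonneg (y 1), sq_nonneg (y 2)]

lemma one_le_rho {y : P} (h : y ∉ Metric.closedBall (0 : P) 1) : 1 ≤ rho y := by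
  by_contra hn
  apply h
  rw [mem_closedBall_zero_iff, pi_norm_le_iff_of_nonneg zero_le_one]
  intro i
  have := sq_le_rho y i
  rw [Real.norm_eq_abs, ← sq_le_one_iff_abs_le_one]
  linarith

lemma one_le_prod {p : ℝ × P} (h : p ∉ Metric.closedBall (0 : ℝ × P) 1) :
    1 ≤ p.1 ^ 2 + rho p.2 := by
  by_contra hn
  apply h
  rw [mem_closedBall_zero_iff, Prod.norm_def, max_le_iff]
  have h1 := rho_nonneg p.2
  constructor
  · rw [Real.norm_eq_abs, ← sq_le_one_iff_abs_le_one]; linarith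
  · by_contra h2
    have := one_le_rho (y := p.2) (by rwa [mem_closedBall_zero_iff])
    nlinarith [sq_nonneg p.1]

/-- admissible functions on the product. -/
structure Adm (κ : ℝ × P → ℝ) : Prop where
  cont : Continuous κ
  zero : ∀ p : ℝ × P, 1 ≤ p.1 ^ 2 + rho p.2 → κ p = 0

lemma Adm.add {κ κ' : ℝ × P → ℝ} (h : Adm κ) (h' : Adm κ') : Adm (fun p => κ p + κ' p) :=
  ⟨h.cont.add h'.cont, fun p hp => by simp [h.zero p hp, h'.zero p hp]⟩

lemma Adm.smul {κ : ℝ × P → ℝ} (h : Adm κ) (c : ℝ) : Adm (fun p => c * κ p) :=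
  ⟨continuous_const.mul h.cont, fun p hp => by simp [h.zero p hp]⟩

lemma Adm.integrable {κ : ℝ × P → ℝ} (h : Adm κ) : Integrable κ := by
  apply h.cont.integrable_of_hasCompactSupport
  exact HasCompactSupport.intro (isCompact_closedBall 0 1) fun p hp => h.zero p (one_le_prod hp)

/-- line integral. -/
noncomputable def bar (κ : ℝ × P → ℝ) (y : P) : ℝ := ∫ t in (-1 : ℝ)..1, κ (t, y)

lemma Adm.bar_cont {κ : ℝ × P → ℝ} (h : Adm κ) : Continuous (bar κ) := by
  unfold bar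
  apply intervalIntegral.continuous_parametric_intervalIntegral_of_continuous'
  exact h.cont.comp continuous_swap

lemma Adm.bar_zero {κ : ℝ × P → ℝ} (h : Adm κ) {y : P} (hy : 1 ≤ rho y) : bar κ y = 0 := by
  unfold bar
  have : ∀ t : ℝ, κ (t, y) = 0 := fun t => h.zero _ (by simp only; nlinarith [sq_nonneg t])
  simp [this]

lemma bar_add {κ κ' : ℝ × P → ℝ} (h : Adm κ) (h' : Adm κ') (y : P) :
    bar (fun p => κ p + κ' p) y = bar κ y + bar κ' y := by
  unfold bar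
  apply intervalIntegral.integral_add
  · exact (h.cont.comp (by fun_prop : Continuous fun t : ℝ => (t, y))).intervalIntegrable _ _
  · exact (h'.cont.comp (by fun_prop : Continuous fun t : ℝ => (t, y))).intervalIntegrable _ _

lemma bar_smul (κ : ℝ × P → ℝ) (c : ℝ) (y : P) : bar (fun p => c * κ p) y = c * bar κ y := by
  unfold bar
  exact intervalIntegral.integral_const_mul _ _

lemma Adm.zero_abs {κ : ℝ × P → ℝ} (h : Adm κ) (y : P) (t : ℝ) (ht : 1 ≤ |t|) : κ (t, y) = 0 := by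
  apply h.zero
  have := rho_nonneg y
  have h2 : 1 ≤ t ^ 2 := by rw [← sq_abs]; nlinarith
  simp only
  linarith

/-- the quadratic integrand. -/
noncomputable def quad (κ : ℝ × P → ℝ) (p : ℝ × P) : ℝ :=
  κ p * ∫ s in (-6 : ℝ)..0, κ (p.1 + s, p.2)

lemma Adm.quad {κ : ℝ × P → ℝ} (h : Adm κ) : Adm (quad κ) := by
  refine ⟨h.cont.mul ?_, fun p hp => by simp [Flat.quad, h.zero p hp]⟩
  apply intervalIntegral.continuous_parametric_intervalIntegral_of_continuous'
  exact h.cont.comp (by fun_prop : Continuous fun q : (ℝ × P) × ℝ => (q.1.1 + q.2, q.1.2))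

lemma Adm.integral_quad {κ : ℝ × P → ℝ} (h : Adm κ) :
    ∫ p, Flat.quad κ p = ∫ y, 1 / 2 * bar κ y ^ 2 := by
  have hi := h.quad.integrable
  rw [Measure.volume_eq_prod] at hi ⊢
  rw [integral_prod_symm _ hi]
  congr 1
  ext y
  exact one_dim (fun t => κ (t, y)) (h.cont.comp (by fun_prop)) (h.zero_abs y)

lemma Adm.integral_eq {κ : ℝ × P → ℝ} (h : Adm κ) : ∫ p, κ p = ∫ y, bar κ y := by
  have hi := h.integrable
  rw [Measure.volume_eq_prod] at hi ⊢
  rw [integral_prod_symm _ hi]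
  congr 1
  ext y
  unfold bar
  symm
  apply intervalIntegral.integral_eq_integral_of_support_subset
  intro t ht
  by_contra hn
  apply ht
  apply h.zero_abs
  rw [mem_Ioc, not_and_or, not_lt, not_le] at hn
  rcases hn with hn | hn
  · rw [abs_of_nonpos (by linarith)]; linarith
  · rw [abs_of_pos (by linarith)]; linarith

lemma integrable_P {f : P → ℝ} (hf : Continuous f) (h0 : ∀ y, 1 ≤ rho y → f y = 0) :
    Integrable f := by
  apply hf.integrable_of_hasCompactSupport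
  exact HasCompactSupport.intro (isCompact_closedBall 0 1) fun p hp => h0 p (one_le_rho hp)

/-- second derivative along the line direction. -/
noncomputable def hv (p : ℝ × P) : ℝ :=
  2 * g1 (p.1 ^ 2 + rho p.2) + 4 * g2 (p.1 ^ 2 + rho p.2) * p.1 ^ 2

/-- second derivative in a transversal direction. -/
noncomputable def hw (j : Fin 3) (p : ℝ × P) : ℝ :=
  2 * g1 (p.1 ^ 2 + rho p.2) + 4 * g2 (p.1 ^ 2 + rho p.2) * p.2 j ^ 2

lemma adm_hv : Adm hv := by
  have h1 : Continuous g1 := G_cont _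
  have h2 : Continuous g2 := G_cont _
  have h3 := rho_cont
  refine ⟨by unfold hv; fun_prop, fun p hp => ?_⟩
  simp [hv, g1, g2, G_zero _ hp]

lemma adm_hw (j : Fin 3) : Adm (hw j) := by
  have h1 : Continuous g1 := G_cont _
  have h2 : Continuous g2 := G_cont _
  have h3 := rho_cont
  refine ⟨by unfold hw; fun_prop, fun p hp => ?_⟩
  simp [hw, g1, g2, G_zero _ hp]

lemma bar_hv (y : P) : bar hv y = 0 := by
  unfold bar
  have hd : ∀ t ∈ uIcc (-1 : ℝ) 1,
      HasDerivAt (fun t : ℝ => 2 * t * g1 (t ^ 2 + rho y)) (hv (t, y)) t := by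
    intro t _
    have h1 : HasDerivAt (fun t : ℝ => t ^ 2 + rho y) (2 * t) t := by
      simpa using (hasDerivAt_pow 2 t).add_const (rho y)
    have h2 := (G_deriv (dp 1) (t ^ 2 + rho y)).comp t h1
    have h3 := ((hasDerivAt_id t).const_mul 2).mul h2
    refine h3.congr_deriv ?_
    simp only [hv, g1, g2, id, Function.comp]
    ring
  rw [intervalIntegral.integral_eq_sub_of_hasDerivAt hd
    ((adm_hv.cont.comp (by fun_prop : Continuous fun t : ℝ => (t, y))).intervalIntegrable _ _)]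
  have := rho_nonneg y
  have e : g1 (1 + rho y) = 0 := G_zero _ (by linarith)
  simp [e]

/-- line integrals of the transversal second derivatives. -/
noncomputable def L (j : Fin 3) : P → ℝ := bar (hw j)

lemma L_cont (j : Fin 3) : Continuous (L j) := (adm_hw j).bar_cont

lemma L_zero (j : Fin 3) {y : P} (hy : 1 ≤ rho y) : L j y = 0 := (adm_hw j).bar_zero hy

lemma L_origin : L 0 0 < 0 := by
  have h : 0 < ∫ t in (-1 : ℝ)..1, -hw 0 (t, 0) := by
    apply intervalIntegral.intervalIntegral_pos_of_pos_on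
    · exact (((adm_hw 0).cont.comp
        (by fun_prop : Continuous fun t : ℝ => (t, (0 : P)))).neg).intervalIntegrable _ _
    · intro t ht
      have h1 : t ^ 2 < 1 := by nlinarith [ht.1, ht.2]
      have := g1_neg h1
      simp [hw, rho]
      linarith
    · norm_num
  rw [intervalIntegral.integral_neg] at h
  unfold L bar
  linarith

/-- the functional in coordinates. -/
noncomputable def q (i j k : Fin 3) : ℝ :=
  ∫ y, (1 / 16 * (L j y + L k y) ^ 2 - 1 / 32 * L i y ^ 2)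

lemma q_integrable (i j k : Fin 3) :
    Integrable fun y => 1 / 16 * (L j y + L k y) ^ 2 - 1 / 32 * L i y ^ 2 := by
  have := L_cont
  apply integrable_P (by fun_prop)
  intro y hy
  simp [L_zero _ hy]

lemma q_sum_pos : 0 < q 0 1 2 + q 1 2 0 + q 2 0 1 := by
  unfold q
  have hi : Integrable fun y => 1 / 16 * (L 1 y + L 2 y) ^ 2 - 1 / 32 * L 0 y ^ 2 +
      (1 / 16 * (L 2 y + L 0 y) ^ 2 - 1 / 32 * L 1 y ^ 2) :=
    (q_integrable _ _ _).add (q_integrable _ _ _)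
  rw [← integral_add (q_integrable _ _ _) (q_integrable _ _ _),
    ← integral_add hi (q_integrable _ _ _)]
  have hc := L_cont
  have e : ∀ y, 1 / 16 * (L 1 y + L 2 y) ^ 2 - 1 / 32 * L 0 y ^ 2 +
      (1 / 16 * (L 2 y + L 0 y) ^ 2 - 1 / 32 * L 1 y ^ 2) +
      (1 / 16 * (L 0 y + L 1 y) ^ 2 - 1 / 32 * L 2 y ^ 2) =
      1 / 32 * (L 0 y ^ 2 + L 1 y ^ 2 + L 2 y ^ 2 + 2 * (L 0 y + L 1 y + L 2 y) ^ 2) := by
    intro y; ring
  simp only [e]
  apply Continuous.integral_pos_of_hasCompactSupport_nonneg_nonzero (x := 0)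
  · fun_prop
  · exact HasCompactSupport.intro (isCompact_closedBall 0 1) fun p hp => by
      simp [L_zero _ (one_le_rho hp)]
  · intro y; positivity
  · have := L_origin
    have h2 : 0 < L 0 0 ^ 2 := by nlinarith
    positivity

lemma integral_coord (i j k : Fin 3) :
    ∫ p : ℝ × P, (1 / 8 * (hw j p + hw k p + 2 * hv p) *
        (∫ s in (-6 : ℝ)..0, (hw j (p.1 + s, p.2) + hw k (p.1 + s, p.2) + 2 * hv (p.1 + s, p.2))) -
      1 / 16 * (hw i p + hv p) *
        ∫ s in (-6 : ℝ)..0, (hw i (p.1 + s, p.2) + hv (p.1 + s, p.2))) = q i j k := by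
  have a1 : Adm fun p => hw j p + hw k p + 2 * hv p :=
    ((adm_hw j).add (adm_hw k)).add (adm_hv.smul 2)
  have a2 : Adm fun p => hw i p + hv p := (adm_hw i).add adm_hv
  have b1 : ∀ y, bar (fun p => hw j p + hw k p + 2 * hv p) y = L j y + L k y := by
    intro y
    rw [bar_add ((adm_hw j).add (adm_hw k)) (adm_hv.smul 2), bar_add (adm_hw j) (adm_hw k),
      bar_smul, bar_hv]
    simp [L]
  have b2 : ∀ y, bar (fun p => hw i p + hv p) y = L i y := by
    intro y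
    rw [bar_add (adm_hw i) adm_hv, bar_hv]
    simp [L]
  have e : ∀ p : ℝ × P, (1 / 8 * (hw j p + hw k p + 2 * hv p) *
        (∫ s in (-6 : ℝ)..0, (hw j (p.1 + s, p.2) + hw k (p.1 + s, p.2) + 2 * hv (p.1 + s, p.2))) -
      1 / 16 * (hw i p + hv p) *
        ∫ s in (-6 : ℝ)..0, (hw i (p.1 + s, p.2) + hv (p.1 + s, p.2))) =
      1 / 8 * quad (fun p => hw j p + hw k p + 2 * hv p) p -
        1 / 16 * quad (fun p => hw i p + hv p) p := by
    intro p; simp only [quad]; ring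
  simp only [e]
  rw [integral_sub (a1.quad.integrable.const_mul _) (a2.quad.integrable.const_mul _),
    integral_const_mul, integral_const_mul, a1.integral_quad, a2.integral_quad]
  simp only [b1, b2]
  have hc := L_cont
  have i1 : Integrable fun y => 1 / 2 * (L j y + L k y) ^ 2 :=
    integrable_P (by fun_prop) fun y hy => by simp [L_zero _ hy]
  have i2 : Integrable fun y => 1 / 2 * L i y ^ 2 :=
    integrable_P (by fun_prop) fun y hy => by simp [L_zero _ hy]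
  rw [← integral_const_mul, ← integral_const_mul,
    ← integral_sub (i1.const_mul _) (i2.const_mul _)]
  unfold q
  congr 1
  ext y
  ring

lemma integral_hv : ∫ p, hv p = 0 := by
  rw [adm_hv.integral_eq]
  simp [bar_hv]

end Flat

end Pool.Agent.MP_019006_gt

end

section

set_option autoImplicit false

open MeasureTheory Filter Topology Set Matrix

namespace Pool.Agent.MP_019006_gt

namespace Flat

/-- the radial bump. -/
noncomputable def FF (x : EE) : ℝ := g0 (‖x‖ ^ 2)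

lemma FF_smooth (n : ℕ) : ContDiff ℝ n FF := by
  have : FF = fun x : EE => expNegInvGlue (1 - ‖x‖ ^ 2) := by
    ext x; simp [FF, g0, G]
  rw [this]
  exact (expNegInvGlue.contDiff (n := n)).comp (contDiff_const.sub (contDiff_norm_sq ℝ))

lemma normsq_deriv (x : EE) :
    HasFDerivAt (fun y : EE => ‖y‖ ^ 2) ((2 : ℝ) • innerSL ℝ x) x := by
  have := (hasStrictFDerivAt_norm_sq x).hasFDerivAt
  simpa [two_smul] using this

lemma fderiv_FF (y u : EE) : fderiv ℝ FF y u = g1 (‖y‖ ^ 2) * (2 * inner ℝ u y) := by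
  have h := (G_deriv 1 (‖y‖ ^ 2)).comp_hasFDerivAt y (normsq_deriv y)
  have e : FF = G 1 ∘ fun y : EE => ‖y‖ ^ 2 := rfl
  rw [e, h.fderiv]
  simp [g1, real_inner_comm]

lemma HH_FF (x u : EE) :
    HH FF x u = 2 * g1 (‖x‖ ^ 2) * ‖u‖ ^ 2 + 4 * g2 (‖x‖ ^ 2) * (inner ℝ u x) ^ 2 := by
  unfold HH
  simp only [fderiv_FF]
  have h1 := (G_deriv (dp 1) (‖x‖ ^ 2)).comp_hasFDerivAt x (normsq_deriv x)
  have h2 : HasFDerivAt (fun y : EE => 2 * inner ℝ u y) ((2 : ℝ) • innerSL ℝ u) x :=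
    ((innerSL ℝ u).hasFDerivAt (x := x)).const_mul 2
  have h3 := h1.mul h2
  have e : (fun y : EE => g1 (‖y‖ ^ 2) * (2 * inner ℝ u y)) =
      (G (dp 1) ∘ fun y : EE => ‖y‖ ^ 2) * fun y : EE => 2 * inner ℝ u y := rfl
  rw [e, h3.fderiv]
  simp only [_root_.add_apply, _root_.smul_apply, innerSL_apply_apply,
    smul_eq_mul, Function.comp, real_inner_self_eq_norm_sq, g1, g2, real_inner_comm x u]
  ring

/-- coordinates adapted to an orthonormal frame. -/
noncomputable def psi (b : OrthonormalBasis (Fin 4) ℝ EE) : ℝ × P ≃ᵐ EE :=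
  ((MeasurableEquiv.piFinSuccAbove (fun _ : Fin 4 => ℝ) 0).symm.trans
    (MeasurableEquiv.toLp 2 (Fin 4 → ℝ))).trans b.measurableEquiv.symm

lemma psi_mp (b : OrthonormalBasis (Fin 4) ℝ EE) : MeasurePreserving (psi b) :=
  (b.measurePreserving_measurableEquiv.symm).comp
    ((PiLp.volume_preserving_toLp (Fin 4)).comp
      (volume_preserving_piFinSuccAbove (fun _ : Fin 4 => ℝ) 0).symm)

lemma psi_repr (b : OrthonormalBasis (Fin 4) ℝ EE) (p : ℝ × P) :
    b.repr (psi b p) = WithLp.toLp 2 (Fin.cons p.1 p.2 : Fin 4 → ℝ) := by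
  have : psi b p = b.repr.symm (WithLp.toLp 2 (Fin.cons p.1 p.2 : Fin 4 → ℝ)) := by
    simp only [psi, MeasurableEquiv.trans_apply, MeasurableEquiv.piFinSuccAbove_symm_apply,
      Fin.insertNthEquiv, Equiv.coe_fn_mk, Fin.insertNth_zero']
    rfl
  rw [this, LinearIsometryEquiv.apply_symm_apply]

lemma psi_inner0 (b : OrthonormalBasis (Fin 4) ℝ EE) (p : ℝ × P) :
    inner ℝ (b 0) (psi b p) = p.1 := by
  rw [← b.repr_apply_apply, psi_repr]; simp

lemma psi_inner (b : OrthonormalBasis (Fin 4) ℝ EE) (p : ℝ × P) (j : Fin 3) :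
    inner ℝ (b j.succ) (psi b p) = p.2 j := by
  rw [← b.repr_apply_apply, psi_repr]; simp

lemma psi_norm (b : OrthonormalBasis (Fin 4) ℝ EE) (p : ℝ × P) :
    ‖psi b p‖ ^ 2 = p.1 ^ 2 + rho p.2 := by
  rw [← b.repr.norm_map, psi_repr, EuclideanSpace.real_norm_sq_eq, Fin.sum_univ_succ,
    Fin.sum_univ_three]
  simp only [rho, Fin.cons_zero, Fin.cons_succ]

lemma psi_shift (b : OrthonormalBasis (Fin 4) ℝ EE) (p : ℝ × P) (s : ℝ) :
    psi b p + s • b 0 = psi b (p.1 + s, p.2) := by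
  apply b.repr.injective
  rw [map_add, map_smul, psi_repr, psi_repr, b.repr_self]
  ext i
  refine Fin.cases ?_ (fun j => ?_) i
  · simp
  · simp

lemma HH_psi0 (b : OrthonormalBasis (Fin 4) ℝ EE) (p : ℝ × P) :
    HH FF (psi b p) (b 0) = hv p := by
  rw [HH_FF, psi_norm, psi_inner0, b.orthonormal.1]
  simp [hv]

lemma HH_psi (b : OrthonormalBasis (Fin 4) ℝ EE) (p : ℝ × P) (j : Fin 3) :
    HH FF (psi b p) (b j.succ) = hw j p := by
  rw [HH_FF, psi_norm, psi_inner, b.orthonormal.1]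
  simp [hw]

/-- the functional in a frame. -/
noncomputable def Q (v e1 e2 e3 : EE) : ℝ :=
  ∫ x, (1 / 8 * (HH FF x e2 + HH FF x e3 + 2 * HH FF x v) *
      (∫ s in (-6 : ℝ)..0, (HH FF (x + s • v) e2 + HH FF (x + s • v) e3 +
        2 * HH FF (x + s • v) v)) -
    1 / 16 * (HH FF x e1 + HH FF x v) *
      ∫ s in (-6 : ℝ)..0, (HH FF (x + s • v) e1 + HH FF (x + s • v) v))

lemma Q_eq (b : OrthonormalBasis (Fin 4) ℝ EE) (i j k : Fin 3) :
    Q (b 0) (b i.succ) (b j.succ) (b k.succ) = q i j k := by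
  rw [← integral_coord, Q, ← (psi_mp b).integral_comp']
  simp only [psi_shift, HH_psi0, HH_psi]

lemma frame_orthonormal (v : EE) (hv : ‖v‖ = 1) :
    Orthonormal ℝ ![v, Complex.I • v, perp v, Complex.I • perp v] := by
  have h2 : (v 0).re ^ 2 + (v 0).im ^ 2 + ((v 1).re ^ 2 + (v 1).im ^ 2) = 1 := by
    have := EuclideanSpace.norm_sq_eq v
    rw [hv, Fin.sum_univ_two, Complex.sq_norm, Complex.sq_norm, Complex.normSq_apply,
      Complex.normSq_apply] at this
    linarith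
  have hin : ∀ a c : EE, inner ℝ a c = (a 0).re * (c 0).re + (a 0).im * (c 0).im +
      ((a 1).re * (c 1).re + (a 1).im * (c 1).im) := by
    intro a c
    simp [PiLp.inner_apply, Fin.sum_univ_two, Complex.inner]
    ring
  rw [orthonormal_iff_ite]
  intro i j
  rw [hin]
  fin_cases i <;> fin_cases j <;> simp [perp] <;> linarith

/-- the frame attached to a unit vector. -/
noncomputable def frame (v : EE) (hv : ‖v‖ = 1) : OrthonormalBasis (Fin 4) ℝ EE :=
  (basisOfOrthonormalOfCardEqFinrank (frame_orthonormal v hv) (by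
    rw [← Module.finrank_mul_finrank ℝ ℂ EE]; simp)).toOrthonormalBasis
    (by simpa using frame_orthonormal v hv)

lemma frame_apply (v : EE) (hv : ‖v‖ = 1) (i : Fin 4) :
    frame v hv i = ![v, Complex.I • v, perp v, Complex.I • perp v] i := by
  simp [frame]

lemma q_perm (σ : Equiv.Perm (Fin 3)) (i j k : Fin 3) : q (σ i) (σ j) (σ k) = q i j k := by
  have hv : ‖(EuclideanSpace.single 0 1 : EE)‖ = 1 := by simp
  set b := frame _ hv
  set τ : Equiv.Perm (Fin 4) := Equiv.Perm.decomposeFin.symm (0, σ) with hτ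
  have h0 : b.reindex τ.symm 0 = b 0 := by simp [hτ]
  have h1 : ∀ l : Fin 3, b.reindex τ.symm l.succ = b (σ l).succ := by
    intro l; simp [hτ]
  rw [← Q_eq b, ← Q_eq (b.reindex τ.symm), h0, h1, h1, h1]

lemma q_pos : 0 < q 0 1 2 := by
  have h := q_sum_pos
  have h1 : q 1 2 0 = q 0 1 2 := q_perm (finRotate 3) 0 1 2
  have h2 : q 2 0 1 = q 1 2 0 := q_perm (finRotate 3) 1 2 0
  linarith

lemma integral_HH (u : EE) (hu : ‖u‖ = 1) :
    Integrable (fun x => HH FF x u) ∧ ∫ x, HH FF x u = 0 := by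
  have e : u = frame u hu 0 := by simp [frame_apply]
  constructor
  · rw [e, ← (psi_mp (frame u hu)).integrable_comp_emb (psi _).measurableEmbedding]
    have : (fun x => HH FF x (frame u hu 0)) ∘ psi (frame u hu) = hv := by
      ext p; exact HH_psi0 _ p
    rw [this]
    exact adm_hv.integrable
  · rw [e, ← (psi_mp (frame u hu)).integral_comp']
    simp only [HH_psi0, integral_hv]

end Flat

open Flat in
theorem exists_profile : ∃ (F : EE → ℝ) (s₀ : ℝ), IsProfile F s₀ := by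
  refine ⟨FF, q 0 1 2, q_pos, FF_smooth, fun x hx => G_zero _ (by nlinarith), ?_, ?_⟩
  · intro v hv
    have ho := (frame_orthonormal v hv).1
    obtain ⟨i0, e0⟩ := integral_HH v hv
    obtain ⟨i1, e1⟩ := integral_HH (Complex.I • v) (ho 1)
    obtain ⟨i2, e2⟩ := integral_HH (perp v) (ho 2)
    obtain ⟨i3, e3⟩ := integral_HH (Complex.I • perp v) (ho 3)
    have j1 : Integrable fun x => HH FF x (Complex.I • v) + HH FF x v := i1.add i0
    have j2 : Integrable fun x => HH FF x (perp v) + HH FF x (Complex.I • perp v) := i2.add i3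
    have j3 : Integrable fun x => HH FF x (perp v) + HH FF x (Complex.I • perp v) +
      2 * HH FF x v := j2.add (i0.const_mul 2)
    unfold sig1 sigw
    rw [integral_sub j1 (j3.const_mul 2), integral_const_mul, integral_add i1 i0,
      integral_add j2 (i0.const_mul 2), integral_add i2 i3, integral_const_mul, e0, e1, e2, e3]
    simp
  · intro v hv
    have h := Q_eq (frame v hv) 0 1 2
    simp only [frame_apply] at h
    exact h.ge

end Pool.Agent.MP_019006_gt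

end

section

/-! Elementary facts on U(2,1) and U(3). -/

set_option autoImplicit false

open MeasureTheory Filter Topology Set Matrix

namespace Pool.Agent.MP_019006_gt.Lat

/-- Complex 3 by 3 matrices. -/
abbrev C3 := Matrix (Fin 3) (Fin 3) ℂ

lemma conj_mul_eq (z : ℂ) : star z * z = ((‖z‖ ^ 2 : ℝ) : ℂ) := by
  rw [Complex.star_def, Complex.conj_mul']
  push_cast
  rfl

lemma Jm_sq : Jm * Jm = 1 := by
  ext i j
  fin_cases i <;> fin_cases j <;> simp [Jm]

lemma Jm_ct : Jmᴴ = Jm := by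
  ext i j
  fin_cases i <;> fin_cases j <;> simp [Jm]

lemma Jm_det : Jm.det = -1 := by
  simp [Jm, Fin.prod_univ_three]

lemma form_entry (A B : C3) (i j : Fin 3) :
    (Aᴴ * Jm * B) i j = star (A 0 i) * B 0 j + star (A 1 i) * B 1 j - star (A 2 i) * B 2 j := by
  simp [Jm, Matrix.mul_apply, Fin.sum_univ_three, Matrix.diagonal]
  ring

lemma col_rel {A : C3} (h : Aᴴ * Jm * A = Jm) (j : Fin 3) :
    ‖A 0 j‖ ^ 2 + ‖A 1 j‖ ^ 2 - ‖A 2 j‖ ^ 2 = (Jm j j).re := by
  have := congrFun (congrFun h j) j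
  rw [form_entry, conj_mul_eq, conj_mul_eq, conj_mul_eq] at this
  rw [← this]
  simp only [Complex.sub_re, Complex.add_re, Complex.ofReal_re]

lemma unit_ct {A : C3} (h : Aᴴ * Jm * A = Jm) : Aᴴᴴ * Jm * Aᴴ = Jm := by
  have h1 : (Jm * Aᴴ * Jm) * A = 1 := by
    calc (Jm * Aᴴ * Jm) * A = Jm * (Aᴴ * Jm * A) := by simp only [Matrix.mul_assoc]
      _ = 1 := by rw [h, Jm_sq]
  have h2 : A * (Jm * Aᴴ * Jm) = 1 := mul_eq_one_comm.1 h1
  rw [conjTranspose_conjTranspose]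
  calc A * Jm * Aᴴ = A * (Jm * Aᴴ * Jm) * Jm := by
        simp only [Matrix.mul_assoc, Jm_sq, Matrix.mul_one]
    _ = Jm := by rw [h2, Matrix.one_mul]

lemma ent_le {A : C3} (h : Aᴴ * Jm * A = Jm) (i j : Fin 3) : ‖A i j‖ ≤ ‖A 2 2‖ := by
  have c0 := col_rel h 0
  have c1 := col_rel h 1
  have c2 := col_rel h 2
  have r2 := col_rel (unit_ct h) 2
  simp only [conjTranspose_apply, norm_star] at r2
  simp [Jm] at c0 c1 c2 r2
  refine abs_le_of_sq_le_sq' ?_ (norm_nonneg _) |>.2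
  have p := fun i j => sq_nonneg ‖A i j‖
  have p00 := p 0 0; have p01 := p 0 1; have p02 := p 0 2
  have p10 := p 1 0; have p11 := p 1 1; have p12 := p 1 2
  have p20 := p 2 0; have p21 := p 2 1
  fin_cases i <;> fin_cases j <;> simp <;> linarith

lemma norm_det {A : C3} (h : Aᴴ * Jm * A = Jm) : ‖A.det‖ = 1 := by
  have := congrArg Matrix.det h
  rw [det_mul, det_mul, det_conjTranspose, Jm_det] at this
  have h2 : star A.det * A.det = 1 := by linear_combination -this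
  have h3 := congrArg norm h2
  rw [norm_mul, norm_star, norm_one] at h3
  nlinarith [norm_nonneg A.det]

lemma unitary_col {A : C3} (h : Aᴴ * A = 1) (j : Fin 3) :
    ‖A 0 j‖ ^ 2 + ‖A 1 j‖ ^ 2 + ‖A 2 j‖ ^ 2 = 1 := by
  have := congrFun (congrFun h j) j
  simp only [Matrix.mul_apply, Fin.sum_univ_three, conjTranspose_apply, conj_mul_eq,
    one_apply_eq] at this
  exact_mod_cast this

lemma unitary_le {A : C3} (h : Aᴴ * A = 1) (i j : Fin 3) : ‖A i j‖ ≤ 1 := by
  have c := unitary_col h j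
  refine abs_le_of_sq_le_sq' ?_ zero_le_one |>.2
  have p0 := sq_nonneg ‖A 0 j‖
  have p1 := sq_nonneg ‖A 1 j‖
  have p2 := sq_nonneg ‖A 2 j‖
  fin_cases i <;> simp <;> nlinarith

lemma norm_trace_le {A : C3} (h : ∀ i j, ‖A i j‖ ≤ 1) : ‖A.trace‖ ≤ 3 := by
  rw [trace_fin_three]
  have := norm_add₃_le (a := A 0 0) (b := A 1 1) (c := A 2 2)
  linarith [h 0 0, h 1 1, h 2 2]

open ComplexOrder in
lemma eq_one_of_trace {A : C3} (h : Aᴴ * A = 1) (ht : A.trace = 3) : A = 1 := by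
  have h1 : ((A - 1)ᴴ * (A - 1)).trace = 0 := by
    rw [conjTranspose_sub, conjTranspose_one, Matrix.sub_mul, Matrix.mul_sub, Matrix.mul_sub, h,
      Matrix.mul_one, Matrix.one_mul, Matrix.one_mul, trace_sub, trace_sub, trace_sub,
      trace_conjTranspose, ht, trace_one]
    simp
  rw [trace_conjTranspose_mul_self_eq_zero_iff] at h1
  exact sub_eq_zero.1 h1

/-- An involution in U(2,1) moving a negative vector to the last axis. -/
lemma exists_refl (Z : Fin 3 → ℂ) (hZ : Qf Z < 0) : ∃ (h : C3) (l : ℂ), hᴴ * Jm * h = Jm ∧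
    h * h = 1 ∧ h *ᵥ Z = l • (Pi.single 2 1 : Fin 3 → ℂ) ∧ ‖l‖ ^ 2 = -Qf Z := by
  obtain ⟨m, hm0, hm⟩ : ∃ m : ℝ, 0 < m ∧ m ^ 2 = -Qf Z :=
    ⟨Real.sqrt (-Qf Z), Real.sqrt_pos.2 (by linarith), Real.sq_sqrt (by linarith)⟩
  have hz : 0 < ‖Z 2‖ := by
    refine (norm_nonneg _).lt_of_ne fun h0 => ?_
    unfold Qf at hZ
    rw [← h0] at hZ
    nlinarith [sq_nonneg ‖Z 0‖, sq_nonneg ‖Z 1‖]
  set t : ℝ := m / ‖Z 2‖ with ht
  have ht0 : 0 < t := div_pos hm0 hz
  have htm : t * ‖Z 2‖ = m := div_mul_cancel₀ _ hz.ne'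
  set w : Fin 3 → ℂ := ![Z 0, Z 1, (1 + t) * Z 2] with hw
  set q : ℝ := -m ^ 2 - t * ‖Z 2‖ ^ 2 with hq
  have hq0 : (q : ℂ) ≠ 0 := by
    have : q < 0 := by rw [hq]; nlinarith [mul_pos ht0 (pow_pos hz 2), pow_pos hm0 2]
    exact_mod_cast this.ne
  set u : Fin 3 → ℂ := star w ᵥ* Jm with hu
  have hQ : ((‖Z 0‖ ^ 2 : ℝ) : ℂ) + ((‖Z 1‖ ^ 2 : ℝ) : ℂ) - ((‖Z 2‖ ^ 2 : ℝ) : ℂ) =
      -(m : ℂ) ^ 2 := by
    have : ‖Z 0‖ ^ 2 + ‖Z 1‖ ^ 2 - ‖Z 2‖ ^ 2 = -m ^ 2 := by rw [hm]; simp [Qf]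
    exact_mod_cast this
  have htm' : (t : ℂ) ^ 2 * ((‖Z 2‖ ^ 2 : ℝ) : ℂ) = (m : ℂ) ^ 2 := by
    have : t ^ 2 * ‖Z 2‖ ^ 2 = m ^ 2 := by rw [← htm]; ring
    exact_mod_cast this
  have hq' : (q : ℂ) = -(m : ℂ) ^ 2 - t * ((‖Z 2‖ ^ 2 : ℝ) : ℂ) := by rw [hq]; push_cast; ring
  have hue : u = ![star (Z 0), star (Z 1), -((1 + t) * star (Z 2))] := by
    ext i
    fin_cases i <;> simp [hu, hw, Jm, vecMul_diagonal]
  have e0 := conj_mul_eq (Z 0)
  have e1 := conj_mul_eq (Z 1)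
  have e2 := conj_mul_eq (Z 2)
  have huZ : u ⬝ᵥ Z = q := by
    rw [hue, hq']
    simp only [dotProduct, Fin.sum_univ_three, cons_val_zero, cons_val_one, cons_val_two,
      head_cons, tail_cons]
    linear_combination e0 + e1 - (1 + t) * e2 + hQ
  have huw : u ⬝ᵥ w = 2 * q := by
    rw [hue, hq', hw]
    simp only [dotProduct, Fin.sum_univ_three, cons_val_zero, cons_val_one, cons_val_two,
      head_cons, tail_cons]
    linear_combination e0 + e1 - (1 + t) ^ 2 * e2 + hQ - htm'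
  set P : C3 := vecMulVec w u with hP
  have hPP : P * P = (2 * q : ℂ) • P := by
    rw [hP, vecMulVec_mul_vecMulVec, huw, vecMulVec_smul]
  have hPJ : Pᴴ * Jm = Jm * P := by
    rw [hP, conjTranspose_vecMulVec, vecMulVec_mul, mul_vecMulVec, ← hu]
    congr 1
    rw [hu, star_vecMul, star_star, Jm_ct]
  set h : C3 := 1 - (q : ℂ)⁻¹ • P with hh
  have h2 : h * h = 1 := by
    rw [hh, Matrix.sub_mul, Matrix.mul_sub, Matrix.mul_sub, Matrix.one_mul, Matrix.one_mul,
      Matrix.mul_one, Matrix.smul_mul, Matrix.mul_smul, hPP, smul_smul, smul_smul]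
    have : (q : ℂ)⁻¹ * (q : ℂ)⁻¹ * (2 * q) = (q : ℂ)⁻¹ + (q : ℂ)⁻¹ := by field_simp; ring
    rw [this, add_smul]
    abel
  have h3 : hᴴ * Jm = Jm * h := by
    rw [hh, conjTranspose_sub, conjTranspose_one, conjTranspose_smul, Matrix.sub_mul,
      Matrix.mul_sub, Matrix.smul_mul, Matrix.mul_smul, hPJ, Matrix.one_mul, Matrix.mul_one]
    simp
  refine ⟨h, -(t * Z 2), by rw [h3, Matrix.mul_assoc, h2, Matrix.mul_one], h2, ?_, ?_⟩
  · rw [hh, sub_mulVec, one_mulVec, smul_mulVec, hP, vecMulVec_mulVec, huZ]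
    ext i
    fin_cases i <;> simp [hw] <;> field_simp <;> ring
  · rw [norm_neg, norm_mul, Complex.norm_real, Real.norm_eq_abs, abs_of_pos ht0, htm, hm]

/-- If `B` in U(2,1) sends `x` to `l e₂` then the last coordinate of `x` is controlled. -/
lemma last_coord {B : C3} (hB : Bᴴ * Jm * B = Jm) {x : Fin 3 → ℂ} {l : ℂ}
    (hx : B *ᵥ x = l • (Pi.single 2 1 : Fin 3 → ℂ)) : ‖x 2‖ = ‖l‖ * ‖B 2 2‖ := by
  have h1 : Jm *ᵥ x = (Bᴴ * Jm) *ᵥ (l • (Pi.single 2 1 : Fin 3 → ℂ)) := by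
    rw [← hx, mulVec_mulVec, hB]
  have h2 := congrFun h1 2
  simp [Jm, mulVec_diagonal, mulVec_smul] at h2
  rw [h2, norm_mul]
  simp

lemma trace_le_of_fixed {A : C3} (hA : Aᴴ * Jm * A = Jm) {Z : Fin 3 → ℂ} {c : ℂ} (hZ : Qf Z < 0)
    (hc : A *ᵥ Z = c • Z) : ‖A.trace‖ ≤ 3 := by
  obtain ⟨h, l, h1, h2, h3, h4⟩ := exists_refl Z hZ
  have hl : l ≠ 0 := by
    rintro rfl
    simp at h4
    linarith
  have hB : (h * A * h)ᴴ * Jm * (h * A * h) = Jm := by
    calc (h * A * h)ᴴ * Jm * (h * A * h) = hᴴ * (Aᴴ * (hᴴ * Jm * h) * A) * h := by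
          simp only [conjTranspose_mul, Matrix.mul_assoc]
      _ = Jm := by rw [h1, hA, h1]
  have h5 : (h * A * h) *ᵥ (l • (Pi.single 2 1 : Fin 3 → ℂ)) =
      c • l • (Pi.single 2 1 : Fin 3 → ℂ) := by
    rw [← h3, mulVec_mulVec, Matrix.mul_assoc, h2, Matrix.mul_one, ← mulVec_mulVec, hc,
      mulVec_smul]
  have h6 : ∀ i, (h * A * h) i 2 = c * (Pi.single 2 1 : Fin 3 → ℂ) i := by
    intro i
    have := congrFun h5 i
    rw [mulVec_smul, mulVec_single_one] at this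
    simp only [Pi.smul_apply, smul_eq_mul, col_apply] at this
    refine mul_left_cancel₀ hl ?_
    rw [this]
    ring
  have h7 := col_rel hB 2
  rw [h6 0, h6 1] at h7
  simp [Jm] at h7
  have h8 : ‖(h * A * h) 2 2‖ = 1 := by
    rcases h7 with h7 | h7
    · exact h7
    · linarith [norm_nonneg ((h * A * h) 2 2)]
  have h9 : A.trace = (h * A * h).trace := by
    rw [Matrix.trace_mul_cycle, h2, Matrix.one_mul]
  rw [h9]
  exact norm_trace_le fun i j => h8 ▸ ent_le hB i j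

end Pool.Agent.MP_019006_gt.Lat

end

section

/-! Minkowski's theorem gives three independent short lattice vectors. -/

set_option autoImplicit false

open MeasureTheory Filter Topology Set Matrix

namespace Pool.Agent.MP_019006_gt.Lat

lemma norm_pair (z : ℂ) : Algebra.norm ℝ ((z, 1) : ℂ × ℂ) = ‖z‖ ^ 2 := by
  have : Algebra.lmul ℝ (ℂ × ℂ) (z, 1) =
      LinearMap.prodMap (Algebra.lmul ℝ ℂ z) (LinearMap.id : ℂ →ₗ[ℝ] ℂ) := by
    refine LinearMap.ext fun x => ?_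
    ext <;> simp
  rw [Algebra.norm_apply]
  change LinearMap.det (Algebra.lmul ℝ (ℂ × ℂ) (z, 1)) = _
  rw [this, LinearMap.det_prodMap, LinearMap.det_id, mul_one, ← Complex.normSq_eq_norm_sq,
    ← Algebra.norm_complex_apply, Algebra.norm_apply]

lemma mink {ι : Type} [Fintype ι] (b : Module.Basis ι ℝ (ℂ × ℂ)) (A : AddSubgroup (ℂ × ℂ))
    (hb : ∀ i, b i ∈ A) (ε : ℝ) (hε : 0 < ε) : ∃ η : ℝ, 0 < η ∧ ∀ g : C3, g.det ≠ 0 →
      ‖g.det‖ ≤ η → ∃ v : Fin 3 → ℂ × ℂ, v ≠ 0 ∧ (∀ i, v i ∈ A) ∧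
        (∀ i, ‖(g *ᵥ fun j => (v j).1) i‖ ≤ ε) ∧ ∀ i, ‖(v i).2‖ ≤ ε := by
  classical
  let B := Pi.basis fun _ : Fin 3 => b
  let μ : Measure (Fin 3 → ℂ × ℂ) := Measure.addHaar
  have hF : μ (ZSpan.fundamentalDomain B) < ⊤ := (ZSpan.fundamentalDomain_isBounded B).measure_lt_top
  set K := μ (ZSpan.fundamentalDomain B) * 2 ^ Module.finrank ℝ (Fin 3 → ℂ × ℂ) with hK
  have hK' : K ≠ ⊤ := ENNReal.mul_ne_top hF.ne (ENNReal.pow_ne_top (by simp))
  set c := μ (Metric.closedBall 0 ε) with hc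
  have hc0 : c ≠ 0 := (Metric.measure_closedBall_pos μ 0 hε).ne'
  have hc1 : c ≠ ⊤ := measure_closedBall_lt_top.ne
  have hc2 : 0 < c.toReal := ENNReal.toReal_pos hc0 hc1
  have hk : 0 ≤ K.toReal := ENNReal.toReal_nonneg
  refine ⟨min 1 (c.toReal / (K.toReal + 1)), lt_min one_pos (by positivity), fun g hg0 hg => ?_⟩
  let G : Matrix (Fin 3) (Fin 3) (ℂ × ℂ) := Matrix.of fun i j => (g i j, (1 : C3) i j)
  have hG1 : (RingHom.fst ℂ ℂ).mapMatrix G = g := by ext i j; rfl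
  have hG2 : (RingHom.snd ℂ ℂ).mapMatrix G = 1 := by ext i j; rfl
  have hGd : G.det = (g.det, 1) := by
    refine Prod.ext ?_ ?_
    · change RingHom.fst ℂ ℂ G.det = _
      rw [RingHom.map_det, hG1]
    · change RingHom.snd ℂ ℂ G.det = _
      rw [RingHom.map_det, hG2, det_one]
  let T : (Fin 3 → ℂ × ℂ) →ₗ[ℝ] (Fin 3 → ℂ × ℂ) := (Matrix.toLin' G).restrictScalars ℝ
  have hT : LinearMap.det T = ‖g.det‖ ^ 2 := by
    rw [LinearMap.det_restrictScalars, LinearMap.det_toLin', hGd, norm_pair]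
  have hn : 0 < ‖g.det‖ := norm_pos_iff.2 hg0
  have hlt : K < μ (T ⁻¹' Metric.closedBall 0 ε) := by
    rw [Measure.addHaar_preimage_linearMap μ (by rw [hT]; positivity), hT, ← hc,
      ← ENNReal.ofReal_toReal hc1, ← ENNReal.ofReal_mul (abs_nonneg _),
      ← ENNReal.ofReal_toReal hK', ENNReal.ofReal_lt_ofReal_iff (by positivity),
      abs_of_pos (by positivity), inv_mul_eq_div, lt_div_iff₀ (by positivity)]
    have h1 : ‖g.det‖ ≤ 1 := hg.trans (min_le_left _ _)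
    have h2 : ‖g.det‖ * (K.toReal + 1) ≤ c.toReal :=
      (le_div_iff₀ (by positivity)).1 (hg.trans (min_le_right _ _))
    nlinarith [mul_nonneg hk (mul_nonneg hn.le (sub_nonneg.2 h1))]
  have : Countable (Submodule.span ℤ (Set.range B)).toAddSubgroup :=
    inferInstanceAs (Countable (Submodule.span ℤ (Set.range B)))
  obtain ⟨v, hv0, hv⟩ := exists_ne_zero_mem_lattice_of_measure_mul_two_pow_lt_measure
    (ZSpan.isAddFundamentalDomain' B μ) (s := T ⁻¹' Metric.closedBall 0 ε)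
    (fun x hx => by simpa using hx) ((convex_closedBall 0 ε).linear_preimage T) hlt
  have hv' : ∀ i, ‖(G *ᵥ (v : Fin 3 → ℂ × ℂ)) i‖ ≤ ε := by
    intro i
    have h1 : ‖T v‖ ≤ ε := by simpa using hv
    exact (norm_le_pi_norm (T v) i).trans h1
  refine ⟨v, fun h => hv0 (Subtype.ext h), ?_, fun i => ?_, fun i => ?_⟩
  · have hm : (v : Fin 3 → ℂ × ℂ) ∈ Submodule.span ℤ (Set.range B) := v.2
    refine Submodule.span_induction (p := fun x _ => ∀ i, x i ∈ A) ?_ ?_ ?_ ?_ hm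
    · rintro _ ⟨⟨j, l⟩, rfl⟩ i
      simp only [B, Pi.basis_apply]
      by_cases h : i = j
      · subst h
        simpa using hb l
      · simp [h]
    · intro i
      exact A.zero_mem
    · intro x y _ _ hx hy i
      exact A.add_mem (hx i) (hy i)
    · intro n x _ hx i
      exact A.zsmul_mem (hx i) n
  · refine le_trans (le_of_eq ?_) ((norm_fst_le _).trans (hv' i))
    refine congrArg norm ?_
    simp [G, mulVec, dotProduct, Prod.fst_sum]
  · refine le_trans (le_of_eq ?_) ((norm_snd_le _).trans (hv' i))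
    refine congrArg norm ?_
    simp [G, mulVec, dotProduct, Prod.snd_sum, one_apply]

lemma three {ι : Type} [Fintype ι] (b : Module.Basis ι ℝ (ℂ × ℂ)) (A : AddSubgroup (ℂ × ℂ))
    (hb : ∀ i, b i ∈ A) : ∃ L : ℝ, ∀ g : C3, g.det ≠ 0 → ‖g.det‖ ≤ 2 →
      (∀ v : Fin 3 → ℂ × ℂ, v ≠ 0 → (∀ i, v i ∈ A) → (∀ i, ‖(v i).2‖ ≤ 1 / 4) →
        ¬ ∀ i, ‖(g *ᵥ fun j => (v j).1) i‖ ≤ 1 / 2) →
      ∃ V : Matrix (Fin 3) (Fin 3) (ℂ × ℂ), (∀ i j, V i j ∈ A) ∧ (V.map Prod.fst).det ≠ 0 ∧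
        (∀ i j, ‖(g * V.map Prod.fst) i j‖ ≤ L) ∧ ∀ i j, ‖(V i j).2‖ ≤ 1 / 4 := by
  classical
  obtain ⟨η, hη, hm⟩ := mink b A hb (1 / 4) (by norm_num)
  refine ⟨1 / (2 * η) + 1 / 2, fun g hg0 hg hs => ?_⟩
  let S : Set (Fin 3 → ℂ) := {u | (∀ i, ‖u i‖ ≤ 1 / (2 * η) + 1 / 2) ∧
    ∃ v : Fin 3 → ℂ × ℂ, (∀ i, v i ∈ A) ∧ (∀ i, ‖(v i).2‖ ≤ 1 / 4) ∧ u = g *ᵥ fun j => (v j).1}
  have hS : Submodule.span ℂ S = ⊤ := by
    by_contra hne
    obtain ⟨f, hf0, hf⟩ := Submodule.exists_le_ker_of_lt_top _ (lt_top_iff_ne_top.2 hne)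
    let φ₀ : Fin 3 → ℂ := fun i => f (Pi.single i 1)
    have hφ₀ : ∀ u, f u = φ₀ ⬝ᵥ u := by
      intro u
      conv_lhs => rw [pi_eq_sum_univ' u]
      simp [φ₀, dotProduct, mul_comm]
    obtain ⟨j, hj⟩ := Finite.exists_max fun i => ‖φ₀ i‖
    have hj0 : φ₀ j ≠ 0 := by
      intro h0
      refine hf0 (LinearMap.ext fun u => ?_)
      have : φ₀ = 0 := funext fun i => norm_le_zero_iff.1 (by simpa [h0] using hj i)
      rw [hφ₀, this]
      simp
    let φ : Fin 3 → ℂ := (φ₀ j)⁻¹ • φ₀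
    have hφj : φ j = 1 := by simp [φ, hj0]
    have hφ : ∀ i, ‖φ i‖ ≤ 1 := by
      intro i
      simp only [φ, Pi.smul_apply, smul_eq_mul, norm_mul, norm_inv]
      rw [inv_mul_le_iff₀ (norm_pos_iff.2 hj0), mul_one]
      exact hj i
    let k : C3 := updateRow 1 j (((η / 2 : ℝ) : ℂ) • φ)
    have hk : k.det = ((η / 2 : ℝ) : ℂ) := by
      have := det_updateRow_sum (1 : C3) j (((η / 2 : ℝ) : ℂ) • φ)
      have e : (∑ l, (((η / 2 : ℝ) : ℂ) • φ) l • (1 : C3) l) = ((η / 2 : ℝ) : ℂ) • φ := by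
        ext i
        simp [Finset.sum_apply, one_apply]
      rw [e] at this
      rw [this]
      simp [hφj]
    have hη2 : ‖((η / 2 : ℝ) : ℂ)‖ = η / 2 := by
      rw [Complex.norm_real, Real.norm_eq_abs, abs_of_pos (by positivity)]
    obtain ⟨v, hv0, hvA, hv1, hv2⟩ := hm (k * g)
      (by
        rw [det_mul, hk]
        exact mul_ne_zero (by exact_mod_cast (by positivity : η / 2 ≠ 0)) hg0)
      (by rw [det_mul, hk, norm_mul, hη2]; nlinarith)
    set u := g *ᵥ fun j => (v j).1 with hu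
    rw [← mulVec_mulVec, ← hu] at hv1
    have h1 : ∀ i, i ≠ j → ‖u i‖ ≤ 1 / 4 := by
      intro i hi
      have := hv1 i
      simpa [k, mulVec, updateRow_ne hi, dotProduct, one_apply] using this
    have h2 : ‖φ ⬝ᵥ u‖ ≤ 1 / (2 * η) := by
      have := hv1 j
      simp only [k, mulVec, row_def, updateRow_self, smul_dotProduct, smul_eq_mul, norm_mul,
        hη2] at this
      rw [le_div_iff₀ (by positivity)]
      linarith
    have h3 : ‖u j‖ ≤ ‖φ ⬝ᵥ u‖ + 1 / 2 := by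
      have e : u j = φ ⬝ᵥ u - ∑ i ∈ Finset.univ.erase j, φ i * u i := by
        rw [dotProduct, ← Finset.add_sum_erase _ _ (Finset.mem_univ j), hφj]
        ring
      have e2 : ‖∑ i ∈ Finset.univ.erase j, φ i * u i‖ ≤ 1 / 2 := by
        refine (norm_sum_le _ _).trans ?_
        refine (Finset.sum_le_card_nsmul _ _ (1 / 4) fun i hi => ?_).trans ?_
        · rw [norm_mul]
          have := mul_le_mul (hφ i) (h1 i (Finset.ne_of_mem_erase hi)) (norm_nonneg _) zero_le_one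
          linarith
        · rw [Finset.card_erase_of_mem (Finset.mem_univ j)]
          norm_num
      rw [e]
      exact (norm_sub_le _ _).trans (by linarith)
    have hp : 0 < 1 / (2 * η) := by positivity
    have huS : u ∈ S := by
      refine ⟨fun i => ?_, v, hvA, hv2, rfl⟩
      by_cases hi : i = j
      · rw [hi]; linarith
      · linarith [h1 i hi]
    have h4 : φ ⬝ᵥ u = 0 := by
      have : f u = 0 := hf (Submodule.subset_span huS)
      rw [hφ₀] at this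
      simp [φ, this]
    rw [h4, norm_zero] at h3
    refine hs v hv0 hvA hv2 fun i => ?_
    by_cases hi : i = j
    · rw [hi]; linarith
    · linarith [h1 i hi]
  have h3 : Module.finrank ℂ (Submodule.span ℂ S) = 3 := by rw [hS]; simp
  obtain ⟨u, huS, hli⟩ : ∃ u : Fin 3 → Fin 3 → ℂ, (∀ i, u i ∈ S) ∧ LinearIndependent ℂ u := by
    obtain ⟨f, hf1, -, hf2⟩ := Submodule.exists_fun_fin_finrank_span_eq ℂ S
    exact ⟨f ∘ Fin.cast h3.symm, fun i => hf1 _, hf2.comp _ (Fin.cast_injective _)⟩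
  choose hu1 v hvA hv2 hv using huS
  let V : Matrix (Fin 3) (Fin 3) (ℂ × ℂ) := Matrix.of fun i j => v j i
  have e : ∀ i j, (g * V.map Prod.fst) i j = u j i := by
    intro i j
    rw [hv j]
    rfl
  refine ⟨V, fun i j => hvA j i, fun h0 => ?_, fun i j => by rw [e]; exact hu1 j i,
    fun i j => hv2 j i⟩
  have h4 : IsUnit (g * V.map Prod.fst) := by
    rw [← linearIndependent_cols_iff_isUnit]
    have : (g * V.map Prod.fst).col = u := by
      ext j i
      exact e i j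
    rw [this]
    exact hli
  rw [isUnit_iff_isUnit_det, det_mul, h0, mul_zero] at h4
  exact not_isUnit_zero h4

end Pool.Agent.MP_019006_gt.Lat

end

section

/-! Congruence subgroups of the unitary group of an anisotropic form over an abstract ring. -/

set_option autoImplicit false

open MeasureTheory Filter Topology Set Matrix

namespace Pool.Agent.MP_019006_gt.Lat

/-- The arithmetic data: a ring with two embeddings. -/
structure Dat {R : Type} [CommRing R] [StarRing R] (σ τ : R →+* ℂ) (s : R) (r : ℝ) : Prop where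
  hσ : ∀ x, σ (star x) = star (σ x)
  hτ : ∀ x, τ (star x) = star (τ x)
  hN : ∀ x, x ≠ 0 → 1 ≤ ‖σ x‖ * ‖τ x‖
  hF : ∀ C : ℝ, {x | ‖σ x‖ ≤ C ∧ ‖τ x‖ ≤ C}.Finite
  r1 : 1 ≤ r
  r2 : r ≤ 2
  sσ : σ s = (r : ℂ) ^ 2
  sτ : τ s = -(r : ℂ) ^ 2
  bas : ∃ b : Module.Basis (Fin 4) ℝ (ℂ × ℂ), ∀ i, ∃ x, b i = (σ x, τ x)

variable {R : Type} [CommRing R] [StarRing R] {σ τ : R →+* ℂ} {s : R} {r : ℝ}

/-- The form over the ring. -/
def JR (s : R) : Matrix (Fin 3) (Fin 3) R := diagonal ![1, 1, -s]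

/-- The rescaling matrix. -/
noncomputable def Dm (r : ℝ) : C3 := diagonal ![1, 1, (r : ℂ)]

lemma Dm_mul (hr : r ≠ 0) : Dm r * Dm r⁻¹ = 1 := by
  ext i j
  fin_cases i <;> fin_cases j <;> simp [Dm, hr]

lemma Dm_mul' (hr : r ≠ 0) : Dm r⁻¹ * Dm r = 1 := mul_eq_one_comm.1 (Dm_mul hr)

lemma Dm_det : (Dm r).det = r := by simp [Dm, Fin.prod_univ_three]

/-- The conjugated embedding of matrices. -/
noncomputable def cj (φ : R →+* ℂ) (hr : r ≠ 0) : Matrix (Fin 3) (Fin 3) R →* C3 where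
  toFun g := Dm r * g.map φ * Dm r⁻¹
  map_one' := by rw [Matrix.map_one _ (map_zero φ) (map_one φ), Matrix.mul_one, Dm_mul hr]
  map_mul' a b := by
    rw [Matrix.map_mul]
    simp only [Matrix.mul_assoc]
    rw [← Matrix.mul_assoc (Dm r⁻¹) (Dm r), Dm_mul' hr, Matrix.one_mul]

omit [StarRing R] in
lemma cj_apply (φ : R →+* ℂ) (hr : r ≠ 0) (g : Matrix (Fin 3) (Fin 3) R) :
    cj φ hr g = Dm r * g.map φ * Dm r⁻¹ := rfl

omit [StarRing R] in
lemma cj_mul_D (φ : R →+* ℂ) (hr : r ≠ 0) (g V : Matrix (Fin 3) (Fin 3) R) :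
    cj φ hr g * (Dm r * V.map φ) = Dm r * (g * V).map φ := by
  rw [cj_apply, Matrix.map_mul]
  simp only [Matrix.mul_assoc]
  rw [← Matrix.mul_assoc (Dm r⁻¹) (Dm r), Dm_mul' hr, Matrix.one_mul]

omit [StarRing R] in
lemma cj_trace (φ : R →+* ℂ) (hr : r ≠ 0) (g : Matrix (Fin 3) (Fin 3) R) :
    (cj φ hr g).trace = φ g.trace := by
  rw [cj_apply, Matrix.trace_mul_cycle, Dm_mul' hr, Matrix.one_mul]
  simp [Matrix.trace]

namespace Dat

lemma r0 (h : Dat σ τ s r) : r ≠ 0 := by linarith [h.r1]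

lemma small (h : Dat σ τ s r) {N : ℕ} {x : R} (h1 : ‖σ ((N : R) * x)‖ < N)
    (h2 : ‖τ ((N : R) * x)‖ < N) : x = 0 := by
  by_contra h0
  have := h.hN x h0
  rw [map_mul, map_natCast, norm_mul, Complex.norm_natCast] at h1 h2
  have hN : (0 : ℝ) < N := lt_of_le_of_lt (by positivity) h1
  have h3 : ‖σ x‖ < 1 := by by_contra h3; push Not at h3; nlinarith
  have h4 : ‖τ x‖ < 1 := by by_contra h4; push Not at h4; nlinarith
  nlinarith [norm_nonneg (σ x), norm_nonneg (τ x)]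

lemma τ_inj (h : Dat σ τ s r) : Function.Injective τ := by
  rw [injective_iff_map_eq_zero]
  intro x hx
  by_contra h0
  have := h.hN x h0
  rw [hx, norm_zero, mul_zero] at this
  linarith

lemma gramσ (h : Dat σ τ s r) {m : Type} (V : Matrix (Fin 3) m R) :
    (Vᴴ * JR s * V).map σ = (Dm r * V.map σ)ᴴ * Jm * (Dm r * V.map σ) := by
  have e : (Dm r)ᴴ * Jm * Dm r = (JR s).map σ := by
    ext i j
    fin_cases i <;> fin_cases j <;> simp [Dm, Jm, JR, h.sσ, pow_two]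
  rw [Matrix.map_mul, Matrix.map_mul, conjTranspose_map σ h.hσ, ← e, conjTranspose_mul]
  simp only [Matrix.mul_assoc]

lemma gramτ (h : Dat σ τ s r) {m : Type} (V : Matrix (Fin 3) m R) :
    (Vᴴ * JR s * V).map τ = (Dm r * V.map τ)ᴴ * (Dm r * V.map τ) := by
  have e : (Dm r)ᴴ * Dm r = (JR s).map τ := by
    ext i j
    fin_cases i <;> fin_cases j <;> simp [Dm, JR, h.sτ, pow_two]
  rw [Matrix.map_mul, Matrix.map_mul, conjTranspose_map τ h.hτ, ← e, conjTranspose_mul]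
  simp only [Matrix.mul_assoc]

lemma unitσ (h : Dat σ τ s r) {g : Matrix (Fin 3) (Fin 3) R} (hg : gᴴ * JR s * g = JR s) :
    (cj σ h.r0 g)ᴴ * Jm * cj σ h.r0 g = Jm := by
  have e1 := h.gramσ g
  have e2 := h.gramσ (1 : Matrix (Fin 3) (Fin 3) R)
  rw [conjTranspose_one, Matrix.one_mul, Matrix.mul_one,
    Matrix.map_one _ (map_zero σ) (map_one σ), Matrix.mul_one] at e2
  rw [hg, e2] at e1
  calc (cj σ h.r0 g)ᴴ * Jm * cj σ h.r0 g
      = (Dm r⁻¹)ᴴ * ((Dm r * g.map σ)ᴴ * Jm * (Dm r * g.map σ)) * Dm r⁻¹ := by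
        simp only [cj_apply, conjTranspose_mul, Matrix.mul_assoc]
    _ = (Dm r * Dm r⁻¹)ᴴ * Jm * (Dm r * Dm r⁻¹) := by
        rw [← e1]; simp only [conjTranspose_mul, Matrix.mul_assoc]
    _ = Jm := by rw [Dm_mul h.r0]; simp

lemma unitτ (h : Dat σ τ s r) {g : Matrix (Fin 3) (Fin 3) R} (hg : gᴴ * JR s * g = JR s) :
    (cj τ h.r0 g)ᴴ * cj τ h.r0 g = 1 := by
  have e1 := h.gramτ g
  have e2 := h.gramτ (1 : Matrix (Fin 3) (Fin 3) R)
  rw [conjTranspose_one, Matrix.one_mul, Matrix.mul_one,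
    Matrix.map_one _ (map_zero τ) (map_one τ), Matrix.mul_one] at e2
  rw [hg, e2] at e1
  calc (cj τ h.r0 g)ᴴ * cj τ h.r0 g
      = (Dm r⁻¹)ᴴ * ((Dm r * g.map τ)ᴴ * (Dm r * g.map τ)) * Dm r⁻¹ := by
        simp only [cj_apply, conjTranspose_mul, Matrix.mul_assoc]
    _ = (Dm r * Dm r⁻¹)ᴴ * (Dm r * Dm r⁻¹) := by
        rw [← e1]; simp only [conjTranspose_mul, Matrix.mul_assoc]
    _ = 1 := by rw [Dm_mul h.r0]; simp

lemma entry_le (h : Dat σ τ s r) (φ : R →+* ℂ) {g : Matrix (Fin 3) (Fin 3) R} {C : ℝ}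
    (hC : ∀ i j, ‖cj φ h.r0 g i j‖ ≤ C) (i j : Fin 3) : ‖φ (g i j)‖ ≤ 2 * C := by
  have e : g.map φ = Dm r⁻¹ * cj φ h.r0 g * Dm r := by
    rw [cj_apply]
    simp only [Matrix.mul_assoc]
    rw [Dm_mul' h.r0, Matrix.mul_one, ← Matrix.mul_assoc, Dm_mul' h.r0, Matrix.one_mul]
  have e2 := congrFun (congrFun e i) j
  rw [map_apply, Dm, Dm, mul_diagonal, diagonal_mul] at e2
  have r1 := h.r1
  have r2 := h.r2
  have h1 : ‖(![1, 1, ((r⁻¹ : ℝ) : ℂ)] : Fin 3 → ℂ) i‖ ≤ 1 := by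
    have : |r|⁻¹ ≤ 1 := inv_le_one_of_one_le₀ (r1.trans (le_abs_self r))
    fin_cases i <;> simp [this]
  have h2 : ‖(![1, 1, (r : ℂ)] : Fin 3 → ℂ) j‖ ≤ 2 := by
    have : |r| ≤ 2 := abs_le.2 ⟨by linarith, r2⟩
    fin_cases j <;> simp [this]
  have hC0 : 0 ≤ C := (norm_nonneg _).trans (hC 0 0)
  rw [e2, norm_mul, norm_mul]
  calc _ ≤ (1 * C) * 2 := mul_le_mul (mul_le_mul h1 (hC i j) (norm_nonneg _) zero_le_one) h2
        (norm_nonneg _) (by linarith)
    _ = 2 * C := by ring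

lemma fin_mat (h : Dat σ τ s r) (C : ℝ) :
    {g : Matrix (Fin 3) (Fin 3) R | ∀ i j, ‖σ (g i j)‖ ≤ C ∧ ‖τ (g i j)‖ ≤ C}.Finite :=
  Set.Finite.pi' (t := fun _ : Fin 3 => {v : Fin 3 → R | ∀ j, ‖σ (v j)‖ ≤ C ∧ ‖τ (v j)‖ ≤ C})
    fun _ => Set.Finite.pi' fun _ => h.hF C

end Dat

/-- The principal congruence subgroup of level `N` of the unitary group. -/
def Gs (s : R) (N : ℕ) : Subgroup (Matrix (Fin 3) (Fin 3) R)ˣ where
  carrier := {g | (g : Matrix (Fin 3) (Fin 3) R)ᴴ * JR s * g = JR s ∧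
    ∃ x : Matrix (Fin 3) (Fin 3) R, (g : Matrix (Fin 3) (Fin 3) R) = 1 + (N : R) • x}
  one_mem' := ⟨by simp, 0, by simp⟩
  mul_mem' := by
    rintro a b ⟨ha, x, hx⟩ ⟨hb, y, hy⟩
    refine ⟨?_, x + y + (N : R) • (x * y), ?_⟩
    · calc _ = (b : Matrix (Fin 3) (Fin 3) R)ᴴ *
            ((a : Matrix (Fin 3) (Fin 3) R)ᴴ * JR s * a) * b := by
            simp only [Units.val_mul, conjTranspose_mul, Matrix.mul_assoc]
        _ = JR s := by rw [ha, hb]
    · rw [Units.val_mul, hx, hy]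
      simp only [Matrix.add_mul, Matrix.mul_add, Matrix.one_mul, Matrix.mul_one, Matrix.smul_mul,
        Matrix.mul_smul, smul_add]
      abel
  inv_mem' := by
    rintro a ⟨ha, x, hx⟩
    refine ⟨?_, -(x * (a⁻¹ : (Matrix (Fin 3) (Fin 3) R)ˣ)), ?_⟩
    · calc _ = ((a⁻¹ : (Matrix (Fin 3) (Fin 3) R)ˣ) : Matrix (Fin 3) (Fin 3) R)ᴴ *
            ((a : Matrix (Fin 3) (Fin 3) R)ᴴ * JR s * a) *
              (a⁻¹ : (Matrix (Fin 3) (Fin 3) R)ˣ) := by rw [ha]
        _ = ((a * a⁻¹ : (Matrix (Fin 3) (Fin 3) R)ˣ) : Matrix (Fin 3) (Fin 3) R)ᴴ * JR s *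
              (a * a⁻¹ : (Matrix (Fin 3) (Fin 3) R)ˣ) := by
            simp only [Units.val_mul, conjTranspose_mul, Matrix.mul_assoc]
        _ = JR s := by simp
    · have e := a.mul_inv
      rw [hx, Matrix.add_mul, Matrix.one_mul, Matrix.smul_mul] at e
      rw [smul_neg, ← e]
      abel

/-- The representation in U(2,1). -/
noncomputable def rho (h : Dat σ τ s r) (N : ℕ) : Gs s N →* C3 :=
  (cj σ h.r0).comp ((Units.coeHom _).comp (Gs s N).subtype)

lemma rho_apply (h : Dat σ τ s r) (N : ℕ) (a : Gs s N) :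
    rho h N a = cj σ h.r0 (a.1 : Matrix (Fin 3) (Fin 3) R) := rfl

lemma rho_far (h : Dat σ τ s r) {N : ℕ} {Λ : ℝ} (h1 : 2 * Λ + 1 ≤ N) (h2 : 3 < N) (a : Gs s N)
    (ha : a ≠ 1) : Λ ≤ ‖rho h N a 2 2‖ := by
  by_contra hlt
  push Not at hlt
  obtain ⟨hu, x, hx⟩ := a.2
  have e1 := h.entry_le σ (ent_le (h.unitσ hu))
  have e2 := h.entry_le τ (unitary_le (h.unitτ hu))
  rw [rho_apply] at hlt
  have h3 : (3 : ℝ) < N := by exact_mod_cast h2
  have hx0 : x = 0 := by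
    ext i j
    have e : (N : R) * x i j = (a.1 : Matrix (Fin 3) (Fin 3) R) i j -
        (1 : Matrix (Fin 3) (Fin 3) R) i j := by
      rw [hx]; simp
    have o : ∀ φ : R →+* ℂ, ‖φ ((1 : Matrix (Fin 3) (Fin 3) R) i j)‖ ≤ 1 := by
      intro φ
      by_cases hij : i = j <;> simp [one_apply, hij]
    refine h.small (N := N) ?_ ?_
    · rw [e, map_sub]
      linarith [norm_sub_le (σ ((a.1 : Matrix (Fin 3) (Fin 3) R) i j))
        (σ ((1 : Matrix (Fin 3) (Fin 3) R) i j)), e1 i j, o σ]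
    · rw [e, map_sub]
      linarith [norm_sub_le (τ ((a.1 : Matrix (Fin 3) (Fin 3) R) i j))
        (τ ((1 : Matrix (Fin 3) (Fin 3) R) i j)), e2 i j, o τ]
  refine ha (Subtype.ext (Units.ext ?_))
  rw [hx, hx0]
  simp

lemma rho_fin (h : Dat σ τ s r) (N : ℕ) (C : ℝ) : {a | ‖rho h N a 2 2‖ ≤ C}.Finite := by
  refine Set.Finite.of_injOn (f := fun a : Gs s N => (a.1 : Matrix (Fin 3) (Fin 3) R)) ?_
    (fun a _ b _ hab => Subtype.ext (Units.ext hab)) (h.fin_mat (2 * max C 1))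
  intro a ha i j
  exact ⟨h.entry_le σ (fun i j => ((ent_le (h.unitσ a.2.1) i j).trans ha).trans (le_max_left _ _))
    i j, h.entry_le τ (fun i j => (unitary_le (h.unitτ a.2.1) i j).trans (le_max_right _ _)) i j⟩

lemma rho_free (h : Dat σ τ s r) {N : ℕ} (h2 : 6 < N) (a : Gs s N) (Z : Fin 3 → ℂ) (c : ℂ)
    (hZ : Qf Z < 0) (hc : rho h N a *ᵥ Z = c • Z) : a = 1 := by
  obtain ⟨hu, x, hx⟩ := a.2
  have e1 := trace_le_of_fixed (h.unitσ hu) hZ hc
  have e2 := norm_trace_le (unitary_le (h.unitτ hu))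
  rw [cj_trace] at e1 e2
  have h3 : (6 : ℝ) < N := by exact_mod_cast h2
  have e : (N : R) * x.trace = (a.1 : Matrix (Fin 3) (Fin 3) R).trace - 3 := by
    rw [hx]; simp
  have o : ∀ φ : R →+* ℂ, ‖φ 3‖ = 3 := fun φ => by rw [map_ofNat]; simp
  have ht : x.trace = 0 := by
    refine h.small (N := N) ?_ ?_
    · rw [e, map_sub]
      linarith [norm_sub_le (σ (a.1 : Matrix (Fin 3) (Fin 3) R).trace) (σ 3), o σ]
    · rw [e, map_sub]
      linarith [norm_sub_le (τ (a.1 : Matrix (Fin 3) (Fin 3) R).trace) (τ 3), o τ]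
  rw [ht, mul_zero, eq_comm, sub_eq_zero] at e
  have e3 := eq_one_of_trace (h.unitτ hu) (by rw [cj_trace, e, map_ofNat])
  have e4 := cj_mul_D τ h.r0 (a.1 : Matrix (Fin 3) (Fin 3) R) 1
  rw [e3, Matrix.one_mul, Matrix.mul_one] at e4
  have e5 := congrArg (fun M => Dm r⁻¹ * M) e4
  simp only [← Matrix.mul_assoc, Dm_mul' h.r0, Matrix.one_mul] at e5
  refine Subtype.ext (Units.ext ?_)
  exact (Matrix.map_injective h.τ_inj e5).symm

end Pool.Agent.MP_019006_gt.Lat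

end

section

/-! Cocompactness of the congruence subgroups. -/

set_option autoImplicit false

open MeasureTheory Filter Topology Set Matrix

namespace Pool.Agent.MP_019006_gt.Lat

variable {R : Type} [CommRing R] [StarRing R] {σ τ : R →+* ℂ} {s : R} {r : ℝ}

lemma gram_bound (h : Dat σ τ s r) {k : C3} (hk : kᴴ * Jm * k = Jm)
    {V : Matrix (Fin 3) (Fin 3) R} {L : ℝ} (h1 : ∀ i j, ‖(k * Dm r * V.map σ) i j‖ ≤ L)
    (h2 : ∀ i j, ‖τ (V i j)‖ ≤ 1 / 4) (i j : Fin 3) :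
    ‖σ ((Vᴴ * JR s * V) i j)‖ ≤ 3 * L ^ 2 ∧ ‖τ ((Vᴴ * JR s * V) i j)‖ ≤ 3 / 4 := by
  have key : ∀ (A : C3) (c : ℝ), (∀ i j, ‖A i j‖ ≤ c) → ∀ l, ‖star (A l i) * A l j‖ ≤ c ^ 2 := by
    intro A c hA l
    rw [norm_mul, norm_star, pow_two]
    exact mul_le_mul (hA l i) (hA l j) (norm_nonneg _) ((norm_nonneg _).trans (hA l i))
  constructor
  · have e : (Vᴴ * JR s * V).map σ = (k * Dm r * V.map σ)ᴴ * Jm * (k * Dm r * V.map σ) := by
      rw [h.gramσ]
      conv_lhs => rw [← hk]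
      simp only [conjTranspose_mul, Matrix.mul_assoc]
    have e2 := congrFun (congrFun e i) j
    rw [map_apply, form_entry] at e2
    rw [e2]
    have := key _ _ h1
    refine (norm_sub_le _ _).trans ?_
    have a := norm_add_le (star ((k * Dm r * V.map σ) 0 i) * (k * Dm r * V.map σ) 0 j)
      (star ((k * Dm r * V.map σ) 1 i) * (k * Dm r * V.map σ) 1 j)
    linarith [this 0, this 1, this 2]
  · have e2 := congrFun (congrFun (h.gramτ V) i) j
    rw [map_apply] at e2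
    rw [e2, Matrix.mul_apply, Fin.sum_univ_three]
    have h3 : ∀ i j, ‖(Dm r * V.map τ) i j‖ ≤ 1 / 2 := by
      intro i j
      have h4 : ‖(![1, 1, (r : ℂ)] : Fin 3 → ℂ) i‖ ≤ 2 := by
        have : |r| ≤ 2 := abs_le.2 ⟨by linarith [h.r1], h.r2⟩
        fin_cases i <;> simp [this]
      rw [Dm, diagonal_mul, norm_mul, map_apply]
      have := mul_le_mul h4 (h2 i j) (norm_nonneg _) zero_le_two
      linarith
    have := key _ _ h3
    refine norm_add₃_le.trans ?_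
    simp only [conjTranspose_apply]
    linarith [this 0, this 1, this 2]

open ComplexOrder in
lemma no_short (h : Dat σ τ s r) {k : C3} (hk : kᴴ * Jm * k = Jm) (x : Fin 3 → R)
    (h1 : ∀ i, ‖((k * Dm r) *ᵥ fun j => σ (x j)) i‖ ≤ 1 / 2) (h2 : ∀ i, ‖τ (x i)‖ ≤ 1 / 4) :
    x = 0 := by
  let X : Matrix (Fin 3) (Fin 3) R := Matrix.of fun i _ => x i
  have h3 := gram_bound h hk (V := X) (L := 1 / 2) (fun i _ => h1 i) (fun i _ => h2 i)
  have h4 : Xᴴ * JR s * X = 0 := by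
    ext i j
    refine h.small (N := 1) ?_ ?_
    · rw [Nat.cast_one, one_mul, Nat.cast_one]; linarith [(h3 i j).1]
    · rw [Nat.cast_one, one_mul, Nat.cast_one]; linarith [(h3 i j).2]
  have h5 := h.gramτ X
  rw [h4, Matrix.map_zero _ (map_zero τ), eq_comm, conjTranspose_mul_self_eq_zero] at h5
  have h6 := congrArg (fun M => Dm r⁻¹ * M) h5
  simp only [← Matrix.mul_assoc, Dm_mul' h.r0, Matrix.one_mul, Matrix.mul_zero] at h6
  ext i
  exact h.τ_inj ((congrFun (congrFun h6 i) 0).trans (map_zero τ).symm)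

lemma half_class {N : ℕ} {V W : Matrix (Fin 3) (Fin 3) R}
    (hd : ∀ i j, (N : R) * (Vᴴ * JR s * V).det ∣ W i j - V i j) :
    ∃ x : Matrix (Fin 3) (Fin 3) R, (1 + (N : R) • x) * V = W := by
  choose Y hY using hd
  refine ⟨(star V.det * (JR s).det) • (Matrix.of Y * adjugate V), ?_⟩
  rw [Matrix.add_mul, Matrix.one_mul, Matrix.smul_mul, Matrix.smul_mul, Matrix.mul_assoc,
    adjugate_mul, Matrix.mul_smul, Matrix.mul_one]
  ext i j
  have := hY i j
  rw [det_mul, det_mul, det_conjTranspose] at this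
  simp only [Matrix.add_apply, Matrix.smul_apply, smul_eq_mul, of_apply]
  linear_combination -this

lemma same_class [IsDomain R] {N : ℕ} {V W : Matrix (Fin 3) (Fin 3) R} (hV : V.det ≠ 0)
    (hG : Vᴴ * JR s * V = Wᴴ * JR s * W)
    (hd : ∀ i j, (N : R) * (Vᴴ * JR s * V).det ∣ W i j - V i j) :
    ∃ a : Gs s N, (a.1 : Matrix (Fin 3) (Fin 3) R) * V = W := by
  obtain ⟨x, hx⟩ := half_class hd
  obtain ⟨y, hy⟩ := half_class (s := s) (N := N) (V := W) (W := V) fun i j => by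
    rw [← hG]
    exact dvd_sub_comm.1 (hd i j)
  have r1 : IsRegular V := isRegular_of_isLeftRegular_det (IsRegular.of_ne_zero hV).left
  have r2 : IsRegular Vᴴ := isRegular_of_isLeftRegular_det (IsRegular.of_ne_zero
    (by rw [det_conjTranspose]; exact star_ne_zero.2 hV)).left
  have e1 : (1 + (N : R) • y) * (1 + (N : R) • x) = 1 :=
    r1.right (by simp only [Matrix.mul_assoc, hx, hy, Matrix.one_mul])
  refine ⟨⟨⟨1 + (N : R) • x, 1 + (N : R) • y, mul_eq_one_comm.1 e1, e1⟩, ?_, x, rfl⟩, hx⟩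
  refine r1.right (r2.left ?_)
  calc Vᴴ * (((1 + (N : R) • x)ᴴ * JR s * (1 + (N : R) • x)) * V)
      = ((1 + (N : R) • x) * V)ᴴ * JR s * ((1 + (N : R) • x) * V) := by
        simp only [conjTranspose_mul, Matrix.mul_assoc]
    _ = Vᴴ * (JR s * V) := by rw [hx, ← hG, Matrix.mul_assoc]

lemma rho_cocpt [Module.Finite ℤ R] (h : Dat σ τ s r) {N : ℕ} (hN : N ≠ 0) :
    ∃ δ : ℝ, 0 < δ ∧ ∀ Z : Fin 3 → ℂ, Qf Z < 0 →
      ∃ a : Gs s N, δ * ‖(rho h N a *ᵥ Z) 2‖ ^ 2 ≤ -Qf Z := by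
  classical
  have : IsDomain R := h.τ_inj.isDomain τ
  have : CharZero R := RingHom.charZero τ
  have hσ0 : ∀ x, σ x = 0 → x = 0 := by
    intro x hx
    by_contra h0
    have := h.hN x h0
    rw [hx, norm_zero, zero_mul] at this
    linarith
  obtain ⟨b, hb⟩ := h.bas
  obtain ⟨L, hL⟩ := three b (σ.prod τ).range.toAddSubgroup fun i => by
    obtain ⟨x, hx⟩ := hb i
    exact ⟨x, hx.symm⟩
  have hfin := h.fin_mat (max (3 * L ^ 2) 1)
  set M₀ : R := (N : R) * ∏ Γ ∈ hfin.toFinset.filter (fun Γ => Γ.det ≠ 0), Γ.det with hM₀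
  have hM : M₀ ≠ 0 := mul_ne_zero (Nat.cast_ne_zero.2 hN)
    (Finset.prod_ne_zero_iff.2 fun Γ hΓ => (Finset.mem_filter.1 hΓ).2)
  have : Finite (R ⧸ Ideal.span {M₀}) :=
    Ideal.finiteQuotientOfFreeOfNeBot _ (by simpa using hM)
  let cl : Matrix (Fin 3) (Fin 3) R →
      Matrix (Fin 3) (Fin 3) R × Matrix (Fin 3) (Fin 3) (R ⧸ Ideal.span {M₀}) :=
    fun V => (Vᴴ * JR s * V, V.map (Ideal.Quotient.mk _))
  let 𝒱 : Set (Matrix (Fin 3) (Fin 3) R) := {V | Vᴴ * JR s * V ∈ hfin.toFinset ∧ V.det ≠ 0}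
  have hcl : (cl '' 𝒱).Finite := by
    refine (hfin.toFinset.finite_toSet.prod Set.finite_univ).subset ?_
    rintro _ ⟨V, hV, rfl⟩
    exact ⟨hV.1, Set.mem_univ _⟩
  obtain ⟨t, ht1, ht2, ht3⟩ := (Set.exists_subset_image_finite_and (p := fun u => cl '' 𝒱 ⊆ u)).1
    ⟨_, subset_rfl, hcl, subset_rfl⟩
  obtain ⟨C, hC⟩ := (ht2.image fun W => ∑ i, ‖(Dm r * W.map σ)⁻¹ i 2‖).bddAbove
  refine ⟨1 / ((L * C) ^ 2 + 1), by positivity, fun Z hZ => ?_⟩
  obtain ⟨k, l, hk, hk2, hkZ, hl⟩ := exists_refl Z hZ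
  have hdet : ‖(k * Dm r).det‖ = r := by
    rw [det_mul, norm_mul, norm_det hk, Dm_det, one_mul, Complex.norm_real, Real.norm_eq_abs,
      abs_of_pos (by linarith [h.r1])]
  obtain ⟨V', hV1, hV2, hV3, hV4⟩ := hL (k * Dm r)
    (by rw [← norm_pos_iff, hdet]; linarith [h.r1]) (by rw [hdet]; exact h.r2) (by
      intro v hv0 hvA hv2 hv1
      choose x hx using hvA
      have e : v = fun i => (σ (x i), τ (x i)) := funext fun i => (hx i).symm
      subst e
      refine hv0 ?_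
      rw [no_short h hk x hv1 hv2]
      ext <;> simp)
  choose V₀ hV₀ using hV1
  let V : Matrix (Fin 3) (Fin 3) R := Matrix.of V₀
  have eσ : V'.map Prod.fst = V.map σ := by
    ext i j
    exact (congrArg Prod.fst (hV₀ i j)).symm
  have eτ : ∀ i j, (V' i j).2 = τ (V i j) := fun i j => (congrArg Prod.snd (hV₀ i j)).symm
  rw [eσ] at hV2 hV3
  simp only [eτ] at hV4
  have hVd : V.det ≠ 0 := by
    intro h0
    refine hV2 ?_
    rw [← RingHom.mapMatrix_apply, ← RingHom.map_det, h0, map_zero]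
  have hV : V ∈ 𝒱 := by
    refine ⟨hfin.mem_toFinset.2 fun i j => ?_, hVd⟩
    have := gram_bound h hk hV3 hV4 i j
    exact ⟨this.1.trans (le_max_left _ _), this.2.trans (le_trans (by norm_num) (le_max_right _ _))⟩
  obtain ⟨W, hWt, hW⟩ := ht3 ⟨V, hV, rfl⟩
  have hG : Vᴴ * JR s * V = Wᴴ * JR s * W := (congrArg Prod.fst hW).symm
  have hs0 : s ≠ 0 := by
    intro h0
    have := h.sσ
    rw [h0, map_zero] at this
    exact h.r0 (by exact_mod_cast pow_eq_zero_iff two_ne_zero |>.1 this.symm)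
  have hGd : (Vᴴ * JR s * V).det ≠ 0 := by
    rw [det_mul, det_mul, det_conjTranspose]
    refine mul_ne_zero (mul_ne_zero (star_ne_zero.2 hVd) ?_) hVd
    simpa [JR, Fin.prod_univ_three] using hs0
  obtain ⟨a, ha⟩ := same_class (N := N) hVd hG fun i j => by
    have e1 : Ideal.Quotient.mk (Ideal.span {M₀}) (W i j) = Ideal.Quotient.mk _ (V i j) :=
      congrFun (congrFun (congrArg Prod.snd hW) i) j
    rw [Ideal.Quotient.eq, Ideal.mem_span_singleton] at e1
    refine dvd_trans (mul_dvd_mul_left _ ?_) e1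
    exact Finset.dvd_prod_of_mem _ (Finset.mem_filter.2 ⟨hV.1, hGd⟩)
  refine ⟨a, ?_⟩
  have hWu : IsUnit (Dm r * W.map σ).det := by
    rw [isUnit_iff_ne_zero, det_mul, Dm_det, ← RingHom.mapMatrix_apply, ← RingHom.map_det]
    exact mul_ne_zero (by exact_mod_cast h.r0) fun h0 => (ht1 hWt).2 (hσ0 _ h0)
  have hinv : rho h N a⁻¹ * rho h N a = 1 := by rw [← map_mul, inv_mul_cancel, map_one]
  have e1 : rho h N a * (Dm r * V.map σ) = Dm r * W.map σ := by
    rw [rho_apply, cj_mul_D, ha]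
  have e2 : k * rho h N a⁻¹ = (k * Dm r * V.map σ) * (Dm r * W.map σ)⁻¹ := by
    rw [Matrix.mul_assoc k, Matrix.mul_assoc k]
    congr 1
    have : Dm r * V.map σ = rho h N a⁻¹ * (Dm r * W.map σ) := by
      rw [← e1, ← Matrix.mul_assoc, hinv, Matrix.one_mul]
    rw [this, Matrix.mul_nonsing_inv_cancel_right _ _ hWu]
  have hB : (k * rho h N a⁻¹)ᴴ * Jm * (k * rho h N a⁻¹) = Jm := by
    calc _ = (rho h N a⁻¹)ᴴ * (kᴴ * Jm * k) * rho h N a⁻¹ := by
          simp only [conjTranspose_mul, Matrix.mul_assoc]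
      _ = Jm := by rw [hk]; exact h.unitσ (a⁻¹).2.1
  have e3 := last_coord hB (x := rho h N a *ᵥ Z) (l := l) (by
    rw [mulVec_mulVec, Matrix.mul_assoc, hinv, Matrix.mul_one, hkZ])
  have hL0 : 0 ≤ L := (norm_nonneg _).trans (hV3 0 0)
  have e4 : ‖(k * rho h N a⁻¹) 2 2‖ ≤ L * C := by
    rw [e2, Matrix.mul_apply]
    refine (norm_sum_le _ _).trans ?_
    refine le_trans ?_ (mul_le_mul_of_nonneg_left (hC ⟨W, hWt, rfl⟩) hL0)
    rw [Finset.mul_sum]
    refine Finset.sum_le_sum fun i _ => ?_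
    rw [norm_mul]
    exact mul_le_mul_of_nonneg_right (hV3 2 i) (norm_nonneg _)
  have e5 := pow_le_pow_left₀ (norm_nonneg _) e4 2
  rw [e3, mul_pow ‖l‖, hl, one_div, inv_mul_le_iff₀ (by positivity)]
  nlinarith

lemma lat_of_dat [Module.Finite ℤ R] [Countable R] (h : Dat σ τ s r) (Λ : ℝ) :
    ∃ (G : Type) (_ : Group G) (_ : Countable G) (ρ : G →* C3), IsLattice Λ G ρ := by
  obtain ⟨n, hn⟩ := exists_nat_ge (2 * Λ + 1)
  have : Countable (Matrix (Fin 3) (Fin 3) R) := inferInstanceAs (Countable (Fin 3 → Fin 3 → R))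
  have : Countable (Matrix (Fin 3) (Fin 3) R)ˣ := Units.val_injective.countable
  refine ⟨Gs s (n + 7), inferInstance, inferInstance, rho h (n + 7), fun a => h.unitσ a.2.1,
    rho_far h (by push_cast; linarith) (by omega), rho_fin h _, rho_free h (by omega),
    rho_cocpt h (by omega)⟩

end Pool.Agent.MP_019006_gt.Lat

end

section

/-! A torsion-free uniform arithmetic lattice in U(2,1). -/

set_option autoImplicit false

open MeasureTheory Filter Topology Set Matrix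

namespace Pool.Agent.MP_019006_gt

namespace Lat

/-- The two embeddings of `a + b √2 + (c + d √2) i`. -/
noncomputable def ee (a b c d : ℤ) : ℂ × ℂ :=
  (⟨a + b * √2, c + d * √2⟩, ⟨a - b * √2, c - d * √2⟩)

lemma hq : √2 * √2 = (2 : ℝ) := Real.mul_self_sqrt (by norm_num)

lemma ee_add (a b c d a' b' c' d' : ℤ) :
    ee a b c d + ee a' b' c' d' = ee (a + a') (b + b') (c + c') (d + d') := by
  refine Prod.ext (Complex.ext ?_ ?_) (Complex.ext ?_ ?_) <;> simp [ee] <;> ring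

/-- The ring generated by `√2` and `i`, embedded in `ℂ × ℂ`. -/
noncomputable def RR : StarSubalgebra ℤ (ℂ × ℂ) where
  carrier := {z | ∃ a b c d : ℤ, z = ee a b c d}
  mul_mem' := by
    rintro _ _ ⟨a, b, c, d, rfl⟩ ⟨a', b', c', d', rfl⟩
    refine ⟨a * a' + 2 * b * b' - c * c' - 2 * d * d', a * b' + b * a' - c * d' - d * c',
      a * c' + 2 * b * d' + c * a' + 2 * d * b', a * d' + b * c' + c * b' + d * a', ?_⟩
    refine Prod.ext (Complex.ext ?_ ?_) (Complex.ext ?_ ?_) <;>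
      simp only [ee, Prod.fst_mul, Prod.snd_mul, Complex.mul_re, Complex.mul_im] <;> push_cast
    · linear_combination (b * b' - d * d' : ℝ) * hq
    · linear_combination (b * d' + d * b' : ℝ) * hq
    · linear_combination (b * b' - d * d' : ℝ) * hq
    · linear_combination (b * d' + d * b' : ℝ) * hq
  add_mem' := by
    rintro _ _ ⟨a, b, c, d, rfl⟩ ⟨a', b', c', d', rfl⟩
    exact ⟨_, _, _, _, ee_add ..⟩
  algebraMap_mem' := fun n => ⟨n, 0, 0, 0, by
    refine Prod.ext (Complex.ext ?_ ?_) (Complex.ext ?_ ?_) <;> simp [ee]⟩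
  star_mem' := by
    rintro _ ⟨a, b, c, d, rfl⟩
    refine ⟨a, b, -c, -d, ?_⟩
    refine Prod.ext (Complex.ext ?_ ?_) (Complex.ext ?_ ?_) <;> simp [ee] <;> ring

/-- Integer coordinates. -/
noncomputable def par : (ℤ × ℤ × ℤ × ℤ) →+ RR where
  toFun x := ⟨ee x.1 x.2.1 x.2.2.1 x.2.2.2, _, _, _, _, rfl⟩
  map_zero' := Subtype.ext <| by
    refine Prod.ext (Complex.ext ?_ ?_) (Complex.ext ?_ ?_) <;> simp [ee]
  map_add' _ _ := Subtype.ext (ee_add ..).symm

lemma par_surj : Function.Surjective par := by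
  rintro ⟨_, a, b, c, d, rfl⟩
  exact ⟨(a, b, c, d), rfl⟩

lemma sq_ne {A B : ℤ} (h : A ^ 2 - 2 * B ^ 2 = 0) : A = 0 := by
  by_cases hB : B = 0
  · subst hB
    simpa using h
  · exfalso
    have h1 : ((A : ℝ) / B) ^ 2 = 2 := by
      have : (A : ℝ) ^ 2 - 2 * B ^ 2 = 0 := by exact_mod_cast h
      have hB' : (B : ℝ) ≠ 0 := by exact_mod_cast hB
      field_simp
      linarith
    refine irrational_sqrt_two ⟨|(A : ℚ) / B|, ?_⟩
    rw [← h1, Real.sqrt_sq_eq_abs]
    push_cast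
    rfl

lemma ee_norm {a b c d : ℤ} (h : ee a b c d ≠ 0) : 1 ≤ ‖(ee a b c d).1‖ * ‖(ee a b c d).2‖ := by
  have e : (‖(ee a b c d).1‖ * ‖(ee a b c d).2‖) ^ 2 =
      (((a ^ 2 + 2 * b ^ 2 + c ^ 2 + 2 * d ^ 2) ^ 2 - 2 * (2 * (a * b + c * d)) ^ 2 : ℤ) : ℝ) := by
    rw [mul_pow, Complex.sq_norm, Complex.sq_norm]
    simp only [ee, Complex.normSq_mk]
    push_cast
    linear_combination ((2 * (a ^ 2 + c ^ 2) * (b ^ 2 + d ^ 2) + (b ^ 2 + d ^ 2) ^ 2 *
      (√2 * √2 + 2) - 4 * (a * b + c * d) ^ 2 : ℝ)) * hq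
  have h0 : (a ^ 2 + 2 * b ^ 2 + c ^ 2 + 2 * d ^ 2) ^ 2 - 2 * (2 * (a * b + c * d)) ^ 2 ≠ 0 := by
    intro h0
    have h1 := sq_ne h0
    have ha : a = 0 := by nlinarith [sq_nonneg a, sq_nonneg b, sq_nonneg c, sq_nonneg d]
    have hb : b = 0 := by nlinarith [sq_nonneg a, sq_nonneg b, sq_nonneg c, sq_nonneg d]
    have hc : c = 0 := by nlinarith [sq_nonneg a, sq_nonneg b, sq_nonneg c, sq_nonneg d]
    have hd : d = 0 := by nlinarith [sq_nonneg a, sq_nonneg b, sq_nonneg c, sq_nonneg d]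
    refine h ?_
    subst ha hb hc hd
    refine Prod.ext (Complex.ext ?_ ?_) (Complex.ext ?_ ?_) <;> simp [ee]
  have h1 : (0 : ℤ) ≤
      (a ^ 2 + 2 * b ^ 2 + c ^ 2 + 2 * d ^ 2) ^ 2 - 2 * (2 * (a * b + c * d)) ^ 2 := by
    have := sq_nonneg (‖(ee a b c d).1‖ * ‖(ee a b c d).2‖)
    rw [e] at this
    exact_mod_cast this
  have h2 : (1 : ℝ) ≤ (‖(ee a b c d).1‖ * ‖(ee a b c d).2‖) ^ 2 := by
    rw [e]
    exact_mod_cast lt_of_le_of_ne h1 h0.symm
  exact (one_le_sq_iff₀ (by positivity)).1 h2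

lemma coord_le {a b : ℤ} {C : ℝ} (h1 : |a + b * √2| ≤ C) (h2 : |a - b * √2| ≤ C) :
    a ∈ Icc (-⌈C⌉) ⌈C⌉ ∧ b ∈ Icc (-⌈C⌉) ⌈C⌉ := by
  have h3 : (1 : ℝ) ≤ √2 := Real.one_le_sqrt.2 (by norm_num)
  have h4 := Int.le_ceil C
  rw [abs_le] at h1 h2
  have h5 : |(b : ℝ)| ≤ C := by
    have : |(b : ℝ) * √2| ≤ C := abs_le.2 ⟨by linarith, by linarith⟩
    rw [abs_mul, abs_of_pos (by linarith : (0 : ℝ) < √2)] at this
    nlinarith [abs_nonneg (b : ℝ)]
  rw [abs_le] at h5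
  refine ⟨⟨?_, ?_⟩, ?_, ?_⟩ <;> rw [← Int.cast_le (R := ℝ)] <;> push_cast <;> linarith

lemma dat : Dat ((RingHom.fst ℂ ℂ).comp (SubringClass.subtype RR))
    ((RingHom.snd ℂ ℂ).comp (SubringClass.subtype RR)) (par (0, 1, 0, 0)) √√2 where
  hσ _ := rfl
  hτ _ := rfl
  hN := by
    rintro ⟨_, a, b, c, d, rfl⟩ h
    exact ee_norm fun h0 => h (Subtype.ext h0)
  hF C := by
    have hI := Set.finite_Icc (-⌈C⌉) ⌈C⌉
    refine ((hI.prod (hI.prod (hI.prod hI))).image par).subset ?_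
    rintro ⟨_, a, b, c, d, rfl⟩ ⟨h1, h2⟩
    have e1 := coord_le ((Complex.abs_re_le_norm _).trans h1) ((Complex.abs_re_le_norm _).trans h2)
    have e2 := coord_le ((Complex.abs_im_le_norm _).trans h1) ((Complex.abs_im_le_norm _).trans h2)
    exact ⟨(a, b, c, d), ⟨e1.1, e1.2, e2.1, e2.2⟩, rfl⟩
  r1 := Real.one_le_sqrt.2 (Real.one_le_sqrt.2 (by norm_num))
  r2 := Real.sqrt_le_iff.2 ⟨by norm_num, Real.sqrt_le_iff.2 ⟨by norm_num, by norm_num⟩⟩
  sσ := by
    rw [← Complex.ofReal_pow, Real.sq_sqrt (Real.sqrt_nonneg _)]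
    change (ee 0 1 0 0).1 = _
    refine Complex.ext ?_ ?_ <;> simp [ee]
  sτ := by
    rw [← Complex.ofReal_pow, Real.sq_sqrt (Real.sqrt_nonneg _)]
    change (ee 0 1 0 0).2 = _
    refine Complex.ext ?_ ?_ <;> simp [ee]
  bas := by
    have hli : LinearIndependent ℝ ![ee 1 0 0 0, ee 0 1 0 0, ee 0 0 1 0, ee 0 0 0 1] := by
      rw [Fintype.linearIndependent_iff]
      intro g hg
      have h3 : (0 : ℝ) < √2 := by positivity
      have e1 := congrArg (fun z : ℂ × ℂ => z.1.re) hg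
      have e2 := congrArg (fun z : ℂ × ℂ => z.1.im) hg
      have e3 := congrArg (fun z : ℂ × ℂ => z.2.re) hg
      have e4 := congrArg (fun z : ℂ × ℂ => z.2.im) hg
      simp [Fin.sum_univ_four, ee] at e1 e2 e3 e4
      intro i
      fin_cases i <;> simp <;> nlinarith
    refine ⟨basisOfLinearIndependentOfCardEqFinrank hli (by simp), fun i => ?_⟩
    rw [coe_basisOfLinearIndependentOfCardEqFinrank]
    fin_cases i
    · exact ⟨par (1, 0, 0, 0), rfl⟩
    · exact ⟨par (0, 1, 0, 0), rfl⟩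
    · exact ⟨par (0, 0, 1, 0), rfl⟩
    · exact ⟨par (0, 0, 0, 1), rfl⟩

end Lat

theorem exists_lattice (Λ : ℝ) : ∃ (G : Type) (_ : Group G) (_ : Countable G)
    (ρ : G →* Matrix (Fin 3) (Fin 3) ℂ), IsLattice Λ G ρ :=
  @Lat.lat_of_dat Lat.RR _ _ _ _ _ _
    (Module.Finite.of_surjective Lat.par.toIntLinearMap Lat.par_surj) Lat.par_surj.countable
    Lat.dat Λ

end Pool.Agent.MP_019006_gt

end
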