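import Pool.Agent.Mg.F019006.G5031fe
import Pool.Agent.Mg.F019006.G60de2a
import Pool.Agent.Mg.F019006.Ga63dad
import Pool.Agent.Mg.F019006.G637484
import Pool.Agent.Mg.F019006.G2753c4
import Pool.Agent.Mg.F019006.G5c6f1b
import Pool.Agent.Mg.F019006.G7675c4

section

set_option autoImplicit false

open MeasureTheory Filter Topology Set Matrix

namespace Pool.Agent.MP_019006_gt

/-- All the data of the perturbed ball quotient. -/
structure World {G : Type} [Group G] (ρ : G →* C3) (f β : EE → ℝ) (φ : Flo) (M : DFlo)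
    (e r R : ℝ) : Prop where
  ctx : Ctx f φ M
  lat : IsLattice (4 * Real.exp (2 * R)) G ρ
  finv : ∀ a, ∀ x ∈ Bl, f (mob (ρ a) x) = f x
  βinv : ∀ a, ∀ x ∈ Bl, β (mob (ρ a) x) = β x
  βc : ContinuousOn β Bl
  β01 : ∀ x, 0 ≤ β x ∧ β x ≤ 1
  βsupp : ∀ x ∈ Bl, β x ≠ 0 → ∃ a, ‖mob (ρ a) x‖ < 2 * r
  Kb : ∀ p : EE × EE, p.1 ∈ Bl → en f p = 1 → ∀ i j, |(Kmat f p - K0) i j| ≤ e * β p.1
  Ob : ∀ p : EE × EE, p.1 ∈ Bl → en f p = 1 → ∀ j, |Omat f p 0 j| ≤ e * (6 * r) * β p.1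
  e0 : 0 ≤ e
  e1 : e ≤ 1
  r0 : 0 < r
  r1 : r ≤ 1 / 600
  R2 : 2 ≤ R

/-- The three logarithmic sizes of the Jacobi matrix. -/
noncomputable def LL (f : EE → ℝ) (φ : Flo) (M : DFlo) (i : Fin 3) (q : EE × EE) (t : ℝ) : ℝ :=
  ![Real.log (Ymat f φ M q t).det, Real.log (fro (Ymat f φ M q t)),
    Real.log (fro (Ymat f φ M q t)⁻¹)] i

namespace World

variable {G : Type} [Group G] {ρ : G →* C3} {f β : EE → ℝ} {φ : Flo} {M : DFlo} {e r R : ℝ}

theorem u21 (h : World ρ f β φ M e r R) (a : G) : IsU21 (ρ a) := h.lat.unit a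

theorem sm (h : World ρ f β φ M e r R) : ∀ n : ℕ, ContDiffOn ℝ n f Bl := h.ctx.conf.smooth

theorem fmem (h : World ρ f β φ M e r R) (t : ℝ) {p : EE × EE} (hp : p.1 ∈ Bl) :
    (φ t p).1 ∈ Bl := mem_OO.1 (h.ctx.flow.mem t p (mem_OO.2 hp))

theorem fen (h : World ρ f β φ M e r R) (t : ℝ) (p : EE × EE) : en f (φ t p) = en f p :=
  en_flow h.sm h.ctx.flow t p

theorem fcont (h : World ρ f β φ M e r R) {p : EE × EE} (hp : p.1 ∈ Bl) :
    Continuous fun t => φ t p :=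
  continuous_iff_continuousAt.2 fun t => (h.ctx.flow.deriv t p (mem_OO.2 hp)).continuousAt

theorem mob_inj (h : World ρ f β φ M e r R) {x : EE} (hx : x ∈ Bl) {a b : G}
    (ha : ‖mob (ρ a) x‖ < 2 * r) (hb : ‖mob (ρ b) x‖ < 2 * r) : a = b := by
  by_contra hab
  have hne : a * b⁻¹ ≠ 1 := fun h' => hab (mul_inv_eq_one.1 h')
  have hr := h.r1
  have hE : 1 ≤ Real.exp (2 * R) := Real.one_le_exp (by linarith [h.R2])
  have h1 := lattice_far h.lat (by positivity) _ hne (x := mob (ρ b) x) (by linarith)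
  rw [← mob_mul (h.u21 b) hx, ← map_mul, inv_mul_cancel_right] at h1
  have h2 : 4 / (4 * Real.exp (2 * R)) ^ 2 ≤ 1 / 4 := by
    rw [div_le_div_iff₀ (by positivity) (by norm_num)]; nlinarith
  have h3 : Dd (mob (ρ a) x) = 1 - ‖mob (ρ a) x‖ ^ 2 := rfl
  have h4 := norm_nonneg (mob (ρ a) x)
  nlinarith

theorem small (h : World ρ f β φ M e r R) {p : EE × EE} (hp : p.1 ∈ Bl) (h1 : en f p = 1) :
    SmallPert e (6 * r) R (fun t => β (φ t p).1) (fun t => Kmat f (φ t p))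
      (fun t => Omat f (φ t p)) where
  bc := h.βc.comp_continuous (continuous_fst.comp (h.fcont hp)) fun t => h.fmem t hp
  b0 := fun _ => (h.β01 _).1
  b1 := fun _ => (h.β01 _).2
  Kb := fun t => h.Kb _ (h.fmem t hp) (by rw [h.fen, h1])
  Ob := fun t => h.Ob _ (h.fmem t hp) (by rw [h.fen, h1])
  gap := by
    intro s t hst hs ht
    obtain ⟨a, ha⟩ := h.βsupp _ (h.fmem s hp) hs
    obtain ⟨b, hb⟩ := h.βsupp _ (h.fmem t hp) ht
    have hr := h.r1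
    have hr0 := h.r0
    have hq : (mobT (ρ a) p).1 ∈ Bl := Inv.mobT_mem (h.u21 a) hp
    have hq1 : en f (mobT (ρ a) p) = 1 := by rw [en_mobT (h.u21 a) (h.finv a), h1]
    have hφ : ∀ u, (φ u (mobT (ρ a) p)).1 = mob (ρ a) (φ u p).1 := fun u => by
      rw [flow_mobT (h.u21 a) h.sm (h.finv a) h.ctx.flow, Inv.mobT_of_mem _ (h.fmem u hp)]
    by_cases hab : a = b
    · left
      subst hab
      exact passage_short h.ctx.conf h.ctx.flow hq hq1 hr0.le (by linarith) hst.le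
        (by rw [hφ]; exact ha.le) (by rw [hφ]; exact hb.le)
    · right
      have hne : a * b⁻¹ ≠ 1 := fun h' => hab (mul_inv_eq_one.1 h')
      have h2 := lattice_far h.lat (by positivity) _ hne (x := mob (ρ b) (φ t p).1) (by linarith)
      rw [← mob_mul (h.u21 b) (h.fmem t hp), ← map_mul, inv_mul_cancel_right] at h2
      have h3 := Dd_flow_ge h.ctx.conf h.ctx.flow hq s t
      rw [hφ, hφ, hq1, Real.sqrt_one, abs_of_pos (by linarith)] at h3
      have h4 : 1 / 2 ≤ Dd (mob (ρ a) (φ s p).1) := by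
        have h5 : Dd (mob (ρ a) (φ s p).1) = 1 - ‖mob (ρ a) (φ s p).1‖ ^ 2 := rfl
        have h6 := norm_nonneg (mob (ρ a) (φ s p).1)
        nlinarith
      have h5 : 4 / (4 * Real.exp (2 * R)) ^ 2 = Real.exp (-4 * R) / 4 := by
        rw [show -4 * R = -(2 * R + 2 * R) by ring, Real.exp_neg, Real.exp_add]
        field_simp
      have h6 : Real.exp (-3 * 1 * (t - s)) ≤ Real.exp (-4 * R) := by
        have := Real.exp_pos (-3 * 1 * (t - s))
        have := Real.exp_pos (-4 * R)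
        nlinarith
      have h7 := Real.exp_le_exp.1 h6
      linarith [h.R2]

theorem jac (h : World ρ f β φ M e r R) {p : EE × EE} (hp : p.1 ∈ Bl) (h1 : en f p = 1) :
    JacSys (fun t => Kmat f (φ t p)) (fun t => Omat f (φ t p)) (Ymat f φ M p) (Hmat f φ M p) :=
  jacSys h.sm h.ctx.flow hp h1

theorem cone (h : World ρ f β φ M e r R) {p : EE × EE} (hp : p.1 ∈ Bl) (h1 : en f p = 1) :
    Cone (fun t => Kmat f (φ t p)) (fun t => Omat f (φ t p)) (Ymat f φ M p) (Hmat f φ M p) :=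
  cone_of_small (h.jac hp h1) (h.small hp h1) h.e0 h.e1 (by linarith [h.r0])
    (by linarith [h.r1]) h.R2

theorem LL_bound (h : World ρ f β φ M e r R) {p : EE × EE} (hp : p.1 ∈ Bl) (h1 : en f p = 1)
    (i : Fin 3) {t : ℝ} (ht : 0 ≤ t) : |LL f φ M i p t| ≤ 9 * (1 + t) := by
  obtain ⟨a, b, c⟩ := growth_bounds (h.jac hp h1) (h.cone hp h1) t ht
  fin_cases i
  · exact c
  · exact a
  · exact b

theorem mul (h : World ρ f β φ M e r R) {p : EE × EE} (hp : p.1 ∈ Bl) (h1 : en f p = 1)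
    {s t : ℝ} (hs : 0 ≤ s) (ht : 0 ≤ t) :
    LL f φ M 1 p (s + t) ≤ LL f φ M 1 p s + LL f φ M 1 (φ s p) t + 1 ∧
    LL f φ M 1 (φ s p) t ≤ LL f φ M 1 p (s + t) + LL f φ M 2 p s + 1 ∧
    LL f φ M 2 p (s + t) ≤ LL f φ M 2 p s + LL f φ M 2 (φ s p) t + 1 ∧
    |LL f φ M 0 p (s + t) - LL f φ M 0 p s - LL f φ M 0 (φ s p) t| ≤ 1 := by
  have hq := h.fmem s hp
  have hq1 : en f (φ s p) = 1 := by rw [h.fen, h1]
  have e1 : ∀ u, φ u (φ s p) = φ (s + u) p := fun u => by rw [add_comm, h.ctx.flow.add]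
  have hJ := h.jac hq hq1
  have hC := h.cone hq hq1
  simp only [e1] at hJ hC
  exact almost_mul hs (h.jac hp h1) (h.cone hp h1) hJ hC t ht

theorem LL_sub (h : World ρ f β φ M e r R) {p : EE × EE} (hp : p.1 ∈ Bl) (h1 : en f p = 1)
    (i : Fin 3) {s t : ℝ} (hs : 0 ≤ s) (ht : 0 ≤ t) :
    LL f φ M i p (s + t) ≤ LL f φ M i p s + LL f φ M i (φ s p) t + 1 := by
  obtain ⟨a, -, c, d⟩ := h.mul hp h1 hs ht
  fin_cases i
  · have := (abs_le.1 d).2
    change LL f φ M 0 p (s + t) ≤ LL f φ M 0 p s + LL f φ M 0 (φ s p) t + 1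
    linarith
  · exact a
  · exact c

theorem LL_inv (h : World ρ f β φ M e r R) {p : EE × EE} (hp : p.1 ∈ Bl) (h1 : en f p = 1)
    (a : G) (i : Fin 3) (t : ℝ) : LL f φ M i (mobT (ρ a) p) t = LL f φ M i p t := by
  obtain ⟨A, B, hA, hB, hY⟩ := Ymat_mobT (h.u21 a) h.sm (h.finv a) h.ctx.flow hp h1 t
  have hA' : A * Aᵀ = 1 := mul_eq_one_comm.1 hA
  have hB' : B * Bᵀ = 1 := mul_eq_one_comm.1 hB
  have dA : |A.det| = 1 := by
    have := congrArg Matrix.det hA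
    rw [det_mul, det_transpose, det_one] at this
    rcases mul_self_eq_one_iff.1 this with h' | h' <;> simp [h']
  have dB : |B.det| = 1 := by
    have := congrArg Matrix.det hB
    rw [det_mul, det_transpose, det_one] at this
    rcases mul_self_eq_one_iff.1 this with h' | h' <;> simp [h']
  fin_cases i
  · change Real.log (Ymat f φ M (mobT (ρ a) p) t).det = Real.log (Ymat f φ M p t).det
    rw [hY, ← Real.log_abs, det_mul, det_mul, abs_mul, abs_mul, dA, dB, one_mul, mul_one,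
      Real.log_abs]
  · change Real.log (fro (Ymat f φ M (mobT (ρ a) p) t)) = Real.log (fro (Ymat f φ M p t))
    rw [hY, fro_rot _ _ _ hA hB]
  · change Real.log (fro (Ymat f φ M (mobT (ρ a) p) t)⁻¹) = Real.log (fro (Ymat f φ M p t)⁻¹)
    rw [hY, Matrix.mul_inv_rev, Matrix.mul_inv_rev, inv_eq_left_inv hA, inv_eq_left_inv hB,
      ← Matrix.mul_assoc, fro_rot _ _ _ (by rw [transpose_transpose, hB'])
        (by rw [transpose_transpose, hA'])]

theorem LL_mono (h : World ρ f β φ M e r R) {p : EE × EE} (hp : p.1 ∈ Bl) (h1 : en f p = 1)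
    {s t : ℝ} (hs : 0 ≤ s) (hst : s ≤ t) : LL f φ M 1 p s ≤ LL f φ M 1 p t := by
  change Real.log (fro (Ymat f φ M p s)) ≤ Real.log (fro (Ymat f φ M p t))
  have hC := h.cone hp h1
  refine Real.log_le_log (OdeMul.fro_pos (hC.det_pos s hs).ne') ?_
  refine (pow_le_pow_iff_left₀ (OdeMul.fro_nonneg _) (OdeMul.fro_nonneg _) two_ne_zero).1 ?_
  rw [OdeMul.fro_sq_cols, OdeMul.fro_sq_cols]
  refine Finset.sum_le_sum fun j _ => ?_
  have h2 := (growth_vec (h.jac hp h1) hC s t hs hst (Pi.single j 1)).1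
  have h3 : 1 ≤ Real.exp (9 / 5 * (t - s)) := Real.one_le_exp (by linarith)
  have h4 := OdeMul.nsq_nonneg (Ymat f φ M p s *ᵥ Pi.single j 1)
  nlinarith

/-- The gap functional changes slowly in time. -/
theorem GG_time (h : World ρ f β φ M e r R) {p : EE × EE} (hp : p.1 ∈ Bl) (h1 : en f p = 1)
    {s t : ℝ} (hs : 0 ≤ s) (ht : 0 ≤ t) :
    |(2 * LL f φ M 1 p (s + t) - LL f φ M 0 p (s + t)) -
      (2 * LL f φ M 1 p s - LL f φ M 0 p s)| ≤ 30 * (1 + t) := by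
  obtain ⟨a, -, -, d⟩ := h.mul hp h1 hs ht
  have hq := h.fmem s hp
  have hq1 : en f (φ s p) = 1 := by rw [h.fen, h1]
  have b1 := abs_le.1 (h.LL_bound hq hq1 1 ht)
  have b0 := abs_le.1 (h.LL_bound hq hq1 0 ht)
  have m := h.LL_mono hp h1 hs (show s ≤ s + t by linarith)
  have d' := abs_le.1 d
  rw [abs_le]
  constructor <;> linarith [b1.1, b1.2, b0.1, b0.2, d'.1, d'.2]

/-- The gap functional changes by a bounded amount along the flow. -/
theorem GG_flow (h : World ρ f β φ M e r R) {p : EE × EE} (hp : p.1 ∈ Bl) (h1 : en f p = 1)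
    {s t : ℝ} (hs : 0 ≤ s) (ht : 0 ≤ t) :
    |(2 * LL f φ M 1 (φ s p) t - LL f φ M 0 (φ s p) t) -
      (2 * LL f φ M 1 p t - LL f φ M 0 p t)| ≤ 60 * (1 + s) := by
  obtain ⟨a, b, -, d⟩ := h.mul hp h1 hs ht
  have b1 := abs_le.1 (h.LL_bound hp h1 1 hs)
  have b0 := abs_le.1 (h.LL_bound hp h1 0 hs)
  have b2 := abs_le.1 (h.LL_bound hp h1 2 hs)
  have g := abs_le.1 (h.GG_time hp h1 ht hs)
  rw [add_comm t s] at g
  have d' := abs_le.1 d
  rw [abs_le]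
  constructor <;> linarith [b1.1, b1.2, b0.1, b0.2, d'.1, d'.2, g.1, g.2, b2.1, b2.2]

end World

end Pool.Agent.MP_019006_gt

end

section

set_option autoImplicit false

open MeasureTheory Filter Topology Set Matrix

namespace Pool.Agent.MP_019006_gt

/-- A solution of the Jacobi system that satisfies the cone condition at all times. -/
structure TwoSys (K Om Y H : ℝ → M3) : Prop where
  Kc : Continuous K
  Oc : Continuous Om
  Ks : ∀ t, (K t)ᵀ = K t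
  Oa : ∀ t, (Om t)ᵀ = -Om t
  dY : ∀ t i j, HasDerivAt (fun s => Y s i j) ((H t - Om t * Y t) i j) t
  dH : ∀ t i j, HasDerivAt (fun s => H s i j) ((K t * Y t - Om t * H t) i j) t
  Y0 : Y 0 = 1
  det_pos : ∀ t, 0 < (Y t).det
  wronski : ∀ t, (Y t)ᵀ * H t = (H t)ᵀ * Y t
  cone : ∀ t, ∀ u : Fin 3 → ℝ, nsq ((H t - U0 * Y t) *ᵥ u) ≤ 1 / 100 * nsq (Y t *ᵥ u)
  Om0 : ∀ t j, |Om t 0 j| ≤ 1 / 100

/-- The unstable Riccati solution. -/
noncomputable def Uu (f : EE → ℝ) (φ : Flo) (M : DFlo) (q : EE × EE) : M3 :=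
  fun i j => limUnder atTop fun n : ℕ =>
    (Hmat f φ M (φ (-(n : ℝ)) q) n * (Ymat f φ M (φ (-(n : ℝ)) q) n)⁻¹) i j

/-- The unstable Jacobi matrix. -/
noncomputable def Yu (f : EE → ℝ) (φ : Flo) (M : DFlo) (q : EE × EE) (t : ℝ) : M3 :=
  Ymat f φ M q t + YD f φ M q t * (Uu f φ M q - U0)

noncomputable def Hu (f : EE → ℝ) (φ : Flo) (M : DFlo) (q : EE × EE) (t : ℝ) : M3 :=
  Hmat f φ M q t + HD f φ M q t * (Uu f φ M q - U0)

/-- The unit tangent bundle. -/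
def unitB (f : EE → ℝ) : Set (EE × EE) := {p | p.1 ∈ Bl ∧ en f p = 1}

/-- The exponential growth rate function of a pair of vectors. -/
noncomputable def rate (y η : ℝ → Fin 3 → ℝ) (t : ℝ) : ℝ :=
  Real.log (Real.sqrt (nsq (y t) + nsq (η t))) / t

end Pool.Agent.MP_019006_gt

end

section

set_option autoImplicit false

open MeasureTheory Filter Topology Set Matrix

namespace Pool.Agent.MP_019006_gt

open Jac

namespace ExpGeo

variable {f : EE → ℝ} {φ : Flo} {M : DFlo}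

theorem vert_sum (p : EE × EE) (w : Fin 3 → ℝ) :
    ((0 : EE), ∑ j, w j • frame p j) = ∑ j, w j • ((0 : EE), frame p j) := by
  simp only [Fin.sum_univ_three]
  refine Prod.ext ?_ ?_
  · simp
  · simp

/-- The derivative of the flow maps the generator to the generator. -/
theorem M_XX (hφ : IsFlow OO (XX f) φ M) {p : EE × EE} (hp : p.1 ∈ Bl) (t : ℝ) :
    M t p (XX f p) = XX f (φ t p) := by
  have hp' : p ∈ OO := mem_OO.2 hp
  have h0 : HasDerivAt (fun s => φ s p) (XX f p) 0 := by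
    have := hφ.deriv 0 p hp'
    rwa [hφ.zero] at this
  have h1 : HasFDerivAt (φ t) (M t p) (φ 0 p) := by
    rw [hφ.zero]
    exact hφ.fderiv t p hp'
  have h2 : HasDerivAt (fun s => φ t (φ s p)) (M t p (XX f p)) 0 :=
    HasFDerivAt.comp_hasDerivAt (l := φ t) (f := fun s => φ s p) 0 h1 h0
  have h3 : HasDerivAt (fun s => φ s (φ t p)) (XX f (φ t p)) 0 := by
    have := hφ.deriv 0 (φ t p) (hφ.mem t p hp')
    rwa [hφ.zero] at this
  have e : (fun s => φ t (φ s p)) = fun s => φ s (φ t p) := by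
    funext s
    rw [← hφ.add, ← hφ.add, add_comm]
  rw [e] at h2
  exact h2.unique h3

end ExpGeo

open ExpGeo

theorem isExponentAlong_of {f : EE → ℝ} {φ : Flo} {M : DFlo} (h : Ctx f φ M)
    {q : EE × EE} (hq : q ∈ unitB f) (l : Filter ℝ) (u : Fin 3 → ℝ) (hu : u ≠ 0) (χ : ℝ)
    (hT : Tendsto (rate (fun t => Yu f φ M q t *ᵥ u) (fun t => Hu f φ M q t *ᵥ u)) l (𝓝 χ)) :
    IsExponentAlong l (gg f) (Gam f) φ q χ := by
  have hf := h.conf.smooth
  have hφ := h.flow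
  obtain ⟨hp, h1⟩ := hq
  set w : Fin 3 → ℝ := (Uu f φ M q - U0) *ᵥ u with hw
  set ξ : EE × EE := xi f q (∑ j, u j • frame q j) + ((0 : EE), ∑ j, w j • frame q j) with hξ
  have e1 : ξ.1 = ∑ j, u j • frame q j := by
    rw [hξ, Prod.fst_add, add_zero]
    rfl
  have ht0 := gg_frame_tan hp h1 u
  have ht : gg f q.1 ξ.1 q.2 = 0 := by rw [e1, ht0]
  have ht' : gg f q.1 (ξ.2 + Gam f q.1 q.2 ξ.1) q.2 = 0 := by
    have a1 := xi_tan hp h1 _ ht0
    have a2 := gg_frame_tan hp h1 w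
    have a3 : ξ.2 + Gam f q.1 q.2 ξ.1 = ((xi f q (∑ j, u j • frame q j)).2 +
        Gam f q.1 q.2 (xi f q (∑ j, u j • frame q j)).1) + ∑ j, w j • frame q j := by
      rw [hξ, Prod.fst_add, Prod.snd_add, add_zero]
      abel
    rw [a3, map_add, _root_.add_apply, a1, a2, add_zero]
  refine ⟨ξ, fun h0 => hu ?_, ?_, ?_⟩
  · funext i
    have e : (∑ j, u j • frame q j) = 0 := by rw [← e1, h0]; rfl
    have := gg_frame_sum hp h1 u i
    rw [e] at this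
    simpa using this.symm
  · have e : (fun q : EE × EE => gg f q.1 q.2 q.2) = en f := rfl
    rw [e, fderiv_en hf hp, gg_symm, ht', mul_zero]
  · refine hT.congr fun t => ?_
    have hq := memB hφ hp t
    have hq1 : en f (φ t q) = 1 := by rw [en_flow hf hφ, h1]
    obtain ⟨-, -, eJ, eE⟩ := jacobi_eq hf hφ hp h1 ξ ht ht'
      (fun t => Yu f φ M q t *ᵥ u) (fun t => Hu f φ M q t *ᵥ u)
      (fun t i => by
        rw [Yu, Matrix.add_mulVec, ← Matrix.mulVec_mulVec, ← hw, hξ, xi_sum, vert_sum]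
        simp only [Fin.sum_univ_three, map_add, map_smul, Prod.fst_add, Prod.smul_fst,
          _root_.add_apply, _root_.smul_apply, smul_eq_mul, Pi.add_apply,
          Matrix.mulVec, dotProduct, Ymat, YD]
        ring)
      (fun t i => by
        rw [Hu, Matrix.add_mulVec, ← Matrix.mulVec_mulVec, ← hw, hξ, xi_sum, vert_sum]
        simp only [Fin.sum_univ_three, map_add, map_smul, Prod.fst_add, Prod.smul_fst,
          Prod.snd_add, Prod.smul_snd, Gam_add_right, Gam_smul_right,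
          _root_.add_apply, _root_.smul_apply, smul_eq_mul, Pi.add_apply,
          Matrix.mulVec, dotProduct, Hmat, HD]
        ring) t
    rw [rate, (hφ.fderiv t q (mem_OO.2 hp)).fderiv, sasaki, eE, eJ, gg_frame_nsq hq hq1,
      gg_frame_nsq hq hq1]

theorem of_isExponentAlong {f : EE → ℝ} {φ : Flo} {M : DFlo} (h : Ctx f φ M)
    {q : EE × EE} (hq : q ∈ unitB f) (l : Filter ℝ) (χ : ℝ)
    (hχ : IsExponentAlong l (gg f) (Gam f) φ q χ) : ∃ (a : ℝ) (y η : ℝ → Fin 3 → ℝ),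
      (∀ t i, HasDerivAt (fun s => y s i) ((η t - Omat f (φ t q) *ᵥ y t) i) t) ∧
      (∀ t i, HasDerivAt (fun s => η s i)
        ((Kmat f (φ t q) *ᵥ y t - Omat f (φ t q) *ᵥ η t) i) t) ∧
      Tendsto (fun t : ℝ => Real.log (Real.sqrt (a ^ 2 + nsq (y t) + nsq (η t))) / t) l (𝓝 χ) := by
  have hf := h.conf.smooth
  have hφ := h.flow
  obtain ⟨hp, h1⟩ := hq
  obtain ⟨ξ, -, hξ, hT⟩ := hχ
  have e0 : (fun q : EE × EE => gg f q.1 q.2 q.2) = en f := rfl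
  rw [e0, fderiv_en hf hp, gg_symm] at hξ
  have hξ' : gg f q.1 (ξ.2 + Gam f q.1 q.2 ξ.1) q.2 = 0 := by linarith
  set a : ℝ := gg f q.1 ξ.1 q.2 with ha
  set ζ : EE × EE := ξ - a • XX f q with hζ
  have h1' : gg f q.1 q.2 q.2 = 1 := h1
  have z1 : ζ.1 = ξ.1 - a • q.2 := rfl
  have z2 : ζ.2 + Gam f q.1 q.2 ζ.1 = ξ.2 + Gam f q.1 q.2 ξ.1 := by
    have b1 : ζ.2 = ξ.2 - a • (-Gam f q.1 q.2 q.2) := rfl
    rw [b1, z1, sub_eq_add_neg ξ.1, ← neg_smul, Gam_add_right, Gam_smul_right]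
    module
  have ht : gg f q.1 ζ.1 q.2 = 0 := by
    rw [z1, map_sub, map_smul, _root_.sub_apply, _root_.smul_apply, h1',
      ← ha]
    simp
  have ht' : gg f q.1 (ζ.2 + Gam f q.1 q.2 ζ.1) q.2 = 0 := by rw [z2, hξ']
  have key := jacobi_eq hf hφ hp h1 ζ ht ht'
    (fun t i => gg f (φ t q).1 (M t q ζ).1 (frame (φ t q) i))
    (fun t i => gg f (φ t q).1 ((M t q ζ).2 + Gam f (φ t q).1 (φ t q).2 (M t q ζ).1)
      (frame (φ t q) i)) (fun _ _ => rfl) (fun _ _ => rfl)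
  refine ⟨a, _, _, fun t => (key t).1, fun t => (key t).2.1, hT.congr fun t => ?_⟩
  obtain ⟨-, -, eJ, eE⟩ := key t
  have hq := memB hφ hp t
  have hq1 : en f (φ t q) = 1 := by rw [en_flow hf hφ, h1]
  have hq1' : gg f (φ t q).1 (φ t q).2 (φ t q).2 = 1 := hq1
  have m0 : M t q ξ = M t q ζ + a • XX f (φ t q) := by
    rw [hζ, map_sub, map_smul, M_XX hφ hp, sub_add_cancel]
  have m1 : (M t q ξ).1 = (M t q ζ).1 + a • (φ t q).2 := by rw [m0]; rfl
  have m2 : (M t q ξ).2 + Gam f (φ t q).1 (φ t q).2 (M t q ξ).1 =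
      (M t q ζ).2 + Gam f (φ t q).1 (φ t q).2 (M t q ζ).1 := by
    have b1 : (M t q ξ).2 = (M t q ζ).2 + a • (-Gam f (φ t q).1 (φ t q).2 (φ t q).2) := by
      rw [m0]; rfl
    rw [b1, m1, Gam_add_right, Gam_smul_right]
    module
  have n1 := gg_frame_nsq hq hq1 fun i => gg f (φ t q).1 (M t q ζ).1 (frame (φ t q) i)
  have n2 := gg_frame_tan hq hq1 fun i => gg f (φ t q).1 (M t q ζ).1 (frame (φ t q) i)
  have n3 := gg_frame_nsq hq hq1 fun i => gg f (φ t q).1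
    ((M t q ζ).2 + Gam f (φ t q).1 (φ t q).2 (M t q ζ).1) (frame (φ t q) i)
  rw [← eJ] at n1 n2
  rw [← eE] at n3
  rw [(hφ.fderiv t q (mem_OO.2 hp)).fderiv, sasaki, m2, n3, m1]
  congr 4
  simp only [map_add, map_smul, _root_.add_apply, _root_.smul_apply,
    smul_eq_mul]
  rw [gg_symm f _ (φ t q).2 (M t q ζ).1, n1, n2, hq1']
  ring

end Pool.Agent.MP_019006_gt

end

section

set_option autoImplicit false

open MeasureTheory Filter Topology Set Matrix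

namespace Pool.Agent.MP_019006_gt

namespace OT

open OE

theorem grow {f : ℝ → ℝ} {c : ℝ} (h : ∀ t, ∃ f', HasDerivAt f f' t ∧ c * f t ≤ f') {s t : ℝ}
    (hst : s ≤ t) : Real.exp (c * (t - s)) * f s ≤ f t := by
  have := OE.grow (f := fun r => f (s + r)) (c := c) (fun r => by
    obtain ⟨f', h1, h2⟩ := h (s + r)
    exact ⟨f', h1.comp_const_add s r, fun _ => h2⟩) le_rfl (sub_nonneg.mpr hst)
  simpa using this

variable {K Om Y H : ℝ → M3}

theorem deriv_vec (h : TwoSys K Om Y H) (u : Fin 3 → ℝ) (t : ℝ) (i : Fin 3) :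
    HasDerivAt (fun s => (Y s *ᵥ u) i) (((H t - Om t * Y t) *ᵥ u) i) t := by
  simp only [Matrix.mulVec, dotProduct]
  exact HasDerivAt.fun_sum fun j _ => (h.dY t i j).mul_const (u j)

theorem deriv_comp (h : TwoSys K Om Y H) (u : Fin 3 → ℝ) (t : ℝ) :
    ∃ d0 d1 d2 a b w : ℝ, (d0 ^ 2 + d1 ^ 2 + d2 ^ 2 ≤
        1 / 100 * ((Y t *ᵥ u) 0 ^ 2 + (Y t *ᵥ u) 1 ^ 2 + (Y t *ᵥ u) 2 ^ 2)) ∧
      |a| ≤ 1 / 100 ∧ |b| ≤ 1 / 100 ∧
      HasDerivAt (fun s => (Y s *ᵥ u) 0)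
        (2 * (Y t *ᵥ u) 0 + d0 - (a * (Y t *ᵥ u) 1 + b * (Y t *ᵥ u) 2)) t ∧
      HasDerivAt (fun s => (Y s *ᵥ u) 1)
        ((Y t *ᵥ u) 1 + d1 - (-a * (Y t *ᵥ u) 0 + w * (Y t *ᵥ u) 2)) t ∧
      HasDerivAt (fun s => (Y s *ᵥ u) 2)
        ((Y t *ᵥ u) 2 + d2 - (-b * (Y t *ᵥ u) 0 - w * (Y t *ᵥ u) 1)) t := by
  have hO : ∀ i j, Om t j i = -Om t i j := fun i j => by
    have := congrFun (congrFun (h.Oa t) i) j
    simpa using this
  have o00 : Om t 0 0 = 0 := by have := hO 0 0; linarith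
  have o11 : Om t 1 1 = 0 := by have := hO 1 1; linarith
  have o22 : Om t 2 2 = 0 := by have := hO 2 2; linarith
  have key : (H t - Om t * Y t) *ᵥ u =
      U0 *ᵥ (Y t *ᵥ u) + (H t - U0 * Y t) *ᵥ u - Om t *ᵥ (Y t *ᵥ u) := by
    simp only [Matrix.sub_mulVec, Matrix.mulVec_mulVec]; abel
  have hv : ∀ (y : Fin 3 → ℝ) (i : Fin 3),
      (Om t *ᵥ y) i = Om t i 0 * y 0 + Om t i 1 * y 1 + Om t i 2 * y 2 := by
    intro y i; simp [Matrix.mulVec, dotProduct, Fin.sum_univ_three]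
  refine ⟨((H t - U0 * Y t) *ᵥ u) 0, ((H t - U0 * Y t) *ᵥ u) 1, ((H t - U0 * Y t) *ᵥ u) 2,
    Om t 0 1, Om t 0 2, Om t 1 2, h.cone t u, h.Om0 t 1, h.Om0 t 2, ?_, ?_, ?_⟩
  · convert deriv_vec h u t 0 using 1
    rw [key, Pi.sub_apply, Pi.add_apply, hv, o00]
    simp [U0, Matrix.mulVec_diagonal]
  · convert deriv_vec h u t 1 using 1
    rw [key, Pi.sub_apply, Pi.add_apply, hv, o11, hO 0 1]
    simp [U0, Matrix.mulVec_diagonal]
  · convert deriv_vec h u t 2 using 1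
    rw [key, Pi.sub_apply, Pi.add_apply, hv, o22, hO 0 2, hO 1 2]
    simp [U0, Matrix.mulVec_diagonal]
    ring

end OT

open OE OT in
theorem two_growth {K Om Y H : ℝ → M3} (h : TwoSys K Om Y H) (s t : ℝ) (hst : s ≤ t)
    (u : Fin 3 → ℝ) : Real.exp (9 / 5 * (t - s)) * nsq (Y s *ᵥ u) ≤ nsq (Y t *ᵥ u) ∧
      nsq (Y t *ᵥ u) ≤ Real.exp (21 / 5 * (t - s)) * nsq (Y s *ᵥ u) := by
  constructor
  · refine OT.grow (f := fun t => nsq (Y t *ᵥ u)) (fun t => ?_) hst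
    obtain ⟨d0, d1, d2, a, b, w, hd, -, -, h0, h1, h2⟩ := OT.deriv_comp h u t
    refine ⟨_, ((h0.pow 2).add (h1.pow 2)).add (h2.pow 2), ?_⟩
    have := (abs_le.mp (cs3 _ _ _ _ _ _ hd)).1
    simp only [nsq]
    norm_num
    nlinarith [sq_nonneg ((Y t *ᵥ u) 0)]
  · have := OT.grow (f := fun t => -nsq (Y t *ᵥ u)) (c := 21 / 5) (fun t => ?_) hst
    · linarith
    obtain ⟨d0, d1, d2, a, b, w, hd, -, -, h0, h1, h2⟩ := OT.deriv_comp h u t
    refine ⟨_, (((h0.pow 2).add (h1.pow 2)).add (h2.pow 2)).neg, ?_⟩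
    have := (abs_le.mp (cs3 _ _ _ _ _ _ hd)).2
    simp only [nsq]
    norm_num
    nlinarith [sq_nonneg ((Y t *ᵥ u) 1), sq_nonneg ((Y t *ᵥ u) 2)]

namespace OT

open OE

variable {K Om Y H : ℝ → M3}

theorem cone_mono (h : TwoSys K Om Y H) {k : ℝ} (hk : k = 1 ∨ k = 1 / 5)
    {s t : ℝ} (hst : s ≤ t) (u : Fin 3 → ℝ) :
    Real.exp (3 * (t - s)) * Qk k (Y s *ᵥ u) ≤ Qk k (Y t *ᵥ u) := by
  refine OT.grow (f := fun t => Qk k (Y t *ᵥ u)) (fun t => ?_) hst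
  obtain ⟨d0, d1, d2, a, b, w, hd, ha, hb, h0, h1, h2⟩ := OT.deriv_comp h u t
  refine ⟨_, (((h0.pow 2).const_mul k).sub (h1.pow 2)).sub (h2.pow 2), ?_⟩
  have e1 := om_bd a ((Y t *ᵥ u) 0) ((Y t *ᵥ u) 1) ha
  have e2 := om_bd b ((Y t *ᵥ u) 0) ((Y t *ᵥ u) 2) hb
  simp only [Qk]
  norm_num
  generalize (Y t *ᵥ u) 0 = y0 at *
  generalize (Y t *ᵥ u) 1 = y1 at *
  generalize (Y t *ᵥ u) 2 = y2 at *
  rcases hk with rfl | rfl
  · nlinarith [sq_nonneg (y0 + 10 * d0), sq_nonneg (y1 - 10 * d1), sq_nonneg (y2 - 10 * d2),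
      sq_nonneg y0, sq_nonneg y1, sq_nonneg y2]
  · nlinarith [sq_nonneg (y0 + 25 * d0), sq_nonneg (y1 - 5 * d1), sq_nonneg (y2 - 5 * d2),
      sq_nonneg y0, sq_nonneg y1, sq_nonneg y2]

theorem cone_pos (h : TwoSys K Om Y H) {k : ℝ} (hk : k = 1 ∨ k = 1 / 5) {s t : ℝ} (hst : s ≤ t)
    (u : Fin 3 → ℝ) (hu : 0 < Qk k (Y s *ᵥ u)) : 0 < Qk k (Y t *ᵥ u) :=
  (mul_pos (Real.exp_pos _) hu).trans_le (cone_mono h hk hst u)

theorem unit (h : TwoSys K Om Y H) (t : ℝ) : IsUnit (Y t).det :=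
  isUnit_iff_ne_zero.mpr (h.det_pos t).ne'

theorem mul_inv_vec (h : TwoSys K Om Y H) (t : ℝ) (v : Fin 3 → ℝ) :
    Y t *ᵥ ((Y t)⁻¹ *ᵥ v) = v := by
  rw [Matrix.mulVec_mulVec, Matrix.mul_nonsing_inv _ (unit h t), Matrix.one_mulVec]

theorem inv_mul_vec (h : TwoSys K Om Y H) (t : ℝ) (v : Fin 3 → ℝ) :
    (Y t)⁻¹ *ᵥ (Y t *ᵥ v) = v := by
  rw [Matrix.mulVec_mulVec, Matrix.nonsing_inv_mul _ (unit h t), Matrix.one_mulVec]

theorem Y0_vec (h : TwoSys K Om Y H) (v : Fin 3 → ℝ) : Y 0 *ᵥ v = v := by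
  rw [h.Y0, Matrix.one_mulVec]

theorem inv_det_pos (h : TwoSys K Om Y H) (t : ℝ) : 0 < ((Y t)⁻¹).det := by
  rw [Matrix.det_nonsing_inv, Ring.inverse_eq_inv']
  exact inv_pos.2 (h.det_pos t)

theorem fro_pos (h : TwoSys K Om Y H) (t : ℝ) : 0 < fro (Y t) :=
  OdeMul.fro_pos (h.det_pos t).ne'

theorem fro_inv_pos (h : TwoSys K Om Y H) (t : ℝ) : 0 < fro (Y t)⁻¹ :=
  OdeMul.fro_pos (inv_det_pos h t).ne'

theorem both (h : TwoSys K Om Y H) (t : ℝ) (u : Fin 3 → ℝ) :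
    Real.exp (-(5 * |t|)) * nsq u ≤ nsq (Y t *ᵥ u) ∧
      nsq (Y t *ᵥ u) ≤ Real.exp (5 * |t|) * nsq u := by
  have u0 := nsq_nonneg u
  have v0 := nsq_nonneg (Y t *ᵥ u)
  rcases le_total 0 t with ht | ht
  · have g := two_growth h 0 t ht u
    rw [Y0_vec h, sub_zero] at g
    rw [abs_of_nonneg ht]
    constructor
    · refine le_trans (mul_le_mul_of_nonneg_right (Real.exp_le_exp.mpr ?_) u0) g.1
      linarith
    · refine g.2.trans (mul_le_mul_of_nonneg_right (Real.exp_le_exp.mpr ?_) u0)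
      linarith
  · have g := two_growth h t 0 ht u
    rw [Y0_vec h, zero_sub] at g
    rw [abs_of_nonpos ht]
    constructor
    · rw [Real.exp_neg, inv_mul_le_iff₀ (Real.exp_pos _)]
      refine g.2.trans (mul_le_mul_of_nonneg_right (Real.exp_le_exp.mpr ?_) v0)
      linarith
    · have a1 : 1 ≤ Real.exp (9 / 5 * -t) := Real.one_le_exp (by linarith)
      have a2 : 1 ≤ Real.exp (5 * -t) := Real.one_le_exp (by linarith)
      nlinarith [g.1]

theorem both_inv (h : TwoSys K Om Y H) (t : ℝ) (u : Fin 3 → ℝ) :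
    Real.exp (-(5 * |t|)) * nsq u ≤ nsq ((Y t)⁻¹ *ᵥ u) ∧
      nsq ((Y t)⁻¹ *ᵥ u) ≤ Real.exp (5 * |t|) * nsq u := by
  have g := both h t ((Y t)⁻¹ *ᵥ u)
  rw [mul_inv_vec h] at g
  rw [Real.exp_neg, inv_mul_le_iff₀ (Real.exp_pos _)] at g ⊢
  exact ⟨g.2, g.1⟩

theorem H_le (h : TwoSys K Om Y H) (t : ℝ) (u : Fin 3 → ℝ) :
    nsq (H t *ᵥ u) ≤ 9 * nsq (Y t *ᵥ u) := by
  have h := h.cone t u
  rw [Matrix.sub_mulVec, ← Matrix.mulVec_mulVec] at h
  simp only [nsq, Pi.sub_apply, U0, Matrix.mulVec_diagonal] at h ⊢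
  simp at h
  nlinarith [sq_nonneg ((H t *ᵥ u) 0 - 4 * (Y t *ᵥ u) 0), sq_nonneg ((H t *ᵥ u) 1 - 2 * (Y t *ᵥ u) 1),
    sq_nonneg ((H t *ᵥ u) 2 - 2 * (Y t *ᵥ u) 2), sq_nonneg ((Y t *ᵥ u) 0),
    sq_nonneg ((Y t *ᵥ u) 1), sq_nonneg ((Y t *ᵥ u) 2)]

theorem nsq_mono (h : TwoSys K Om Y H) {s t : ℝ} (hst : s ≤ t) (u : Fin 3 → ℝ) :
    nsq (Y s *ᵥ u) ≤ nsq (Y t *ᵥ u) := by
  refine le_trans ?_ (two_growth h s t hst u).1
  refine le_mul_of_one_le_left (nsq_nonneg _) (Real.one_le_exp ?_)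
  nlinarith

theorem nsq_Y_pos (h : TwoSys K Om Y H) (t : ℝ) {u : Fin 3 → ℝ} (hu : 0 < nsq u) :
    0 < nsq (Y t *ᵥ u) :=
  (mul_pos (Real.exp_pos _) hu).trans_le (both h t u).1

theorem interp {s C l : ℝ} (hs : 0 < s) (a : ℕ → ℝ) (g : ℝ → ℝ)
    (hg : ∀ t, 0 < t → |g t - a ⌊t / s⌋₊| ≤ C)
    (ha : Tendsto (fun n : ℕ => a n / n) atTop (𝓝 l)) :
    Tendsto (fun t : ℝ => g t / t) atTop (𝓝 (l / s)) := by
  have hts : Tendsto (fun t : ℝ => t / s) atTop atTop := tendsto_id.atTop_div_const hs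
  have hn : Tendsto (fun t : ℝ => ⌊t / s⌋₊) atTop atTop := tendsto_nat_floor_atTop.comp hts
  have h1 : Tendsto (fun t : ℝ => a ⌊t / s⌋₊ / (⌊t / s⌋₊ : ℝ)) atTop (𝓝 l) := ha.comp hn
  have h2 : Tendsto (fun t : ℝ => (⌊t / s⌋₊ : ℝ) / (t / s)) atTop (𝓝 1) :=
    tendsto_nat_floor_div_atTop.comp hts
  have h3 : Tendsto (fun t : ℝ => a ⌊t / s⌋₊ / t) atTop (𝓝 (l / s)) := by
    have := (h1.mul h2).div_const s
    rw [mul_one] at this
    refine this.congr' ?_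
    filter_upwards [hn.eventually (eventually_gt_atTop 0), eventually_gt_atTop 0] with t ht ht0
    have : (0 : ℝ) < ⌊t / s⌋₊ := by exact_mod_cast ht
    field_simp
  have h0 : Tendsto (fun t : ℝ => C / t) atTop (𝓝 0) := tendsto_const_nhds.div_atTop tendsto_id
  have h4 := h3.add h0
  have h5 := h3.sub h0
  rw [add_zero] at h4
  rw [sub_zero] at h5
  refine tendsto_of_tendsto_of_tendsto_of_le_of_le' h5 h4 ?_ ?_
  · filter_upwards [eventually_gt_atTop 0] with t ht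
    rw [← sub_div]
    refine div_le_div_of_nonneg_right ?_ ht.le
    linarith [(abs_le.mp (hg t ht)).1]
  · filter_upwards [eventually_gt_atTop 0] with t ht
    rw [← add_div]
    refine div_le_div_of_nonneg_right ?_ ht.le
    linarith [(abs_le.mp (hg t ht)).2]

theorem log_near (h : TwoSys K Om Y H) {s : ℝ} {u : Fin 3 → ℝ} (hu : 0 < nsq u) (t r : ℝ)
    (htr : |t - r| ≤ s) :
    |Real.log (Real.sqrt (nsq (Y t *ᵥ u) + nsq (H t *ᵥ u))) - Real.log (nsq (Y r *ᵥ u)) / 2| ≤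
      (Real.log 10 + 21 / 5 * s) / 2 := by
  have pt := nsq_Y_pos h t hu
  have pr := nsq_Y_pos h r hu
  have hH := H_le h t u
  have H0 := nsq_nonneg (H t *ᵥ u)
  have s0 : 0 ≤ s := (abs_nonneg _).trans htr
  have e1 : 1 ≤ Real.exp (21 / 5 * s) := Real.one_le_exp (by linarith)
  have k : nsq (Y t *ᵥ u) ≤ Real.exp (21 / 5 * s) * nsq (Y r *ᵥ u) ∧
      nsq (Y r *ᵥ u) ≤ Real.exp (21 / 5 * s) * nsq (Y t *ᵥ u) := by
    obtain ⟨b1, b2⟩ := abs_le.mp htr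
    rcases le_total t r with hh | hh
    · refine ⟨(nsq_mono h hh u).trans (le_mul_of_one_le_left pr.le e1), ?_⟩
      refine (two_growth h t r hh u).2.trans
        (mul_le_mul_of_nonneg_right (Real.exp_le_exp.mpr ?_) pt.le)
      linarith
    · refine ⟨?_, (nsq_mono h hh u).trans (le_mul_of_one_le_left pt.le e1)⟩
      refine (two_growth h r t hh u).2.trans
        (mul_le_mul_of_nonneg_right (Real.exp_le_exp.mpr ?_) pr.le)
      linarith
  have l1 := Real.log_le_log pt k.1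
  have l2 := Real.log_le_log pr k.2
  rw [Real.log_mul (Real.exp_pos _).ne' pr.ne', Real.log_exp] at l1
  rw [Real.log_mul (Real.exp_pos _).ne' pt.ne', Real.log_exp] at l2
  have l3 : Real.log (nsq (Y t *ᵥ u)) ≤ Real.log (nsq (Y t *ᵥ u) + nsq (H t *ᵥ u)) :=
    Real.log_le_log pt (by linarith)
  have l4 : Real.log (nsq (Y t *ᵥ u) + nsq (H t *ᵥ u)) ≤ Real.log (10 * nsq (Y t *ᵥ u)) :=
    Real.log_le_log (by linarith) (by linarith)
  rw [Real.log_mul (by norm_num) pt.ne'] at l4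
  have l5 : 0 ≤ Real.log 10 := Real.log_nonneg (by norm_num)
  rw [Real.log_sqrt (by linarith), abs_le]
  constructor <;> linarith

theorem floor_near {s : ℝ} (hs : 0 < s) {t : ℝ} (ht : 0 < t) : |t - (⌊t / s⌋₊ : ℝ) * s| ≤ s := by
  have a1 : (⌊t / s⌋₊ : ℝ) ≤ t / s := Nat.floor_le (by positivity)
  have a2 : t / s < (⌊t / s⌋₊ : ℝ) + 1 := Nat.lt_floor_add_one _
  rw [le_div_iff₀ hs] at a1
  rw [div_lt_iff₀ hs] at a2
  rw [abs_le]
  constructor <;> linarith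

theorem to_top (h : TwoSys K Om Y H) {s : ℝ} (hs : 0 < s) {u : Fin 3 → ℝ} (hu : 0 < nsq u)
    {l : ℝ} (hr : Rate (fun n : ℕ => nsq (Y (n * s) *ᵥ u)) (2 * l)) :
    Tendsto (rate (fun t => Y t *ᵥ u) (fun t => H t *ᵥ u)) atTop (𝓝 (l / s)) := by
  refine interp hs (fun n => Real.log (nsq (Y (n * s) *ᵥ u)) / 2) _
    (fun t ht => log_near h hu t _ (floor_near hs ht)) ?_
  have := Tendsto.div_const hr 2
  rw [show 2 * l / 2 = l by ring] at this
  refine this.congr fun n => ?_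
  ring

theorem to_bot (h : TwoSys K Om Y H) {s : ℝ} (hs : 0 < s) {u : Fin 3 → ℝ} (hu : 0 < nsq u)
    {l : ℝ} (hr : Rate (fun n : ℕ => nsq (Y (-(n * s)) *ᵥ u)) (-(2 * l))) :
    Tendsto (rate (fun t => Y t *ᵥ u) (fun t => H t *ᵥ u)) atBot (𝓝 (l / s)) := by
  have k := interp (l := -l) hs (fun n => Real.log (nsq (Y (-(n * s)) *ᵥ u)) / 2)
    (fun t => Real.log (Real.sqrt (nsq (Y (-t) *ᵥ u) + nsq (H (-t) *ᵥ u))))
    (fun t ht => log_near h hu (-t) _ (by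
      rw [← abs_neg]
      convert floor_near hs ht using 2
      ring)) (by
      have := Tendsto.div_const hr 2
      rw [show -(2 * l) / 2 = -l by ring] at this
      refine this.congr fun n => ?_
      ring)
  have k2 := (k.neg).comp tendsto_neg_atBot_atTop
  rw [show -(-l / s) = l / s by ring] at k2
  refine k2.congr fun t => ?_
  simp only [Function.comp, rate, neg_neg]
  ring

end OT

open OT OdeMul in
theorem two_bounds {K Om Y H : ℝ → M3} (h : TwoSys K Om Y H) (t : ℝ) :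
    |Real.log (fro (Y t))| ≤ 9 * (1 + |t|) ∧ |Real.log (fro (Y t)⁻¹)| ≤ 9 * (1 + |t|) ∧
      |Real.log (Y t).det| ≤ 9 * (1 + |t|) := by
  have h1 := log_fro_bound (both h t)
  have h2 := log_fro_bound (both_inv h t)
  have h3 := log_det_le (h.det_pos t) fun u => (both h t u).2
  have h4 := log_det_le (inv_det_pos h t) fun u => (both_inv h t u).2
  rw [Matrix.det_nonsing_inv, Ring.inverse_eq_inv', Real.log_inv] at h4
  have := abs_nonneg t
  refine ⟨abs_le.2 ⟨?_, ?_⟩, abs_le.2 ⟨?_, ?_⟩, abs_le.2 ⟨?_, ?_⟩⟩ <;>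
    linarith [h1.1, h1.2, h2.1, h2.2]

end Pool.Agent.MP_019006_gt

end

section

set_option autoImplicit false

open MeasureTheory Filter Topology Set Matrix

namespace Pool.Agent.MP_019006_gt

namespace OT

open OE

theorem rate_le_ev {a b : ℕ → ℝ} {l m : ℝ} (ha : Rate a l) (hb : Rate b m)
    (h : ∀ᶠ n in atTop, 0 < a n ∧ a n ≤ b n) : l ≤ m := by
  unfold Rate at *
  refine le_of_tendsto_of_tendsto ha hb ?_
  filter_upwards [h] with n hn
  exact div_le_div_of_nonneg_right (Real.log_le_log hn.1 hn.2) (Nat.cast_nonneg n)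

theorem drift_up {f f' : ℝ → ℝ} {C T t : ℝ} (hC : 0 ≤ C) (hf : ∀ r, HasDerivAt f (f' r) r)
    (hb : ∀ r, T ≤ r → f' r ≤ C * Real.exp (-(9 / 10) * (r - T))) (ht : T ≤ t) :
    f t - f T ≤ 10 / 9 * C := by
  have hg : ∀ r, HasDerivAt (fun r => f r + 10 / 9 * C * Real.exp (-(9 / 10) * (r - T)))
      (f' r - C * Real.exp (-(9 / 10) * (r - T))) r := by
    intro r
    have h1 : HasDerivAt (fun r => Real.exp (-(9 / 10) * (r - T)))
        (Real.exp (-(9 / 10) * (r - T)) * (-(9 / 10))) r := by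
      simpa using (((hasDerivAt_id r).sub_const T).const_mul (-(9 / 10))).exp
    refine ((hf r).add (h1.const_mul (10 / 9 * C))).congr_deriv ?_
    ring
  have hm : AntitoneOn (fun r => f r + 10 / 9 * C * Real.exp (-(9 / 10) * (r - T))) (Ici T) := by
    refine antitoneOn_of_deriv_nonpos (convex_Ici T)
      (fun r _ => (hg r).continuousAt.continuousWithinAt)
      (fun r _ => (hg r).differentiableAt.differentiableWithinAt) fun r hr => ?_
    rw [(hg r).deriv]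
    have := hb r (interior_subset hr)
    linarith
  have h1 := hm (mem_Ici.mpr le_rfl) (mem_Ici.mpr ht) ht
  simp only [sub_self, mul_zero, Real.exp_zero, mul_one] at h1
  have h2 : 0 ≤ 10 / 9 * C * Real.exp (-(9 / 10) * (t - T)) := by positivity
  linarith

theorem drift {f f' : ℝ → ℝ} {c T t : ℝ} (hc : 0 ≤ c) (hf : ∀ r, HasDerivAt f (f' r) r)
    (hb : ∀ r, T ≤ r → f' r ^ 2 ≤ Real.exp (-(9 / 5) * (r - T)) * c) (ht : T ≤ t) :
    (f t - f T) ^ 2 ≤ 4 / 3 * c := by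
  have key : ∀ r, T ≤ r → |f' r| ≤ Real.sqrt c * Real.exp (-(9 / 10) * (r - T)) := by
    intro r hr
    refine abs_le_of_sq_le_sq ?_ (by positivity)
    have e : ((2 : ℕ) : ℝ) * (-(9 / 10) * (r - T)) = -(9 / 5) * (r - T) := by push_cast; ring
    rw [mul_pow, Real.sq_sqrt hc, ← Real.exp_nat_mul, mul_comm, e]
    exact hb r hr
  have h1 := drift_up (Real.sqrt_nonneg c) hf (fun r hr => (abs_le.mp (key r hr)).2) ht
  have h2 := drift_up (f := fun r => -f r) (f' := fun r => -f' r) (Real.sqrt_nonneg c)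
    (fun r => (hf r).neg) (fun r hr => by linarith [(abs_le.mp (key r hr)).1]) ht
  have h3 : |f t - f T| ≤ 10 / 9 * Real.sqrt c := abs_le.mpr ⟨by linarith, h1⟩
  have h4 := pow_le_pow_left₀ (abs_nonneg _) h3 2
  rw [sq_abs, mul_pow, Real.sq_sqrt hc] at h4
  linarith

theorem vec_deriv {F : ℝ → M3} {F' : M3} {y : ℝ → Fin 3 → ℝ} {y' : Fin 3 → ℝ} {t : ℝ}
    (hF : OdeMul.HD F F' t) (hy : ∀ i, HasDerivAt (fun s => y s i) (y' i) t) (i : Fin 3) :
    HasDerivAt (fun s => (F s *ᵥ y s) i) ((F' *ᵥ y t + F t *ᵥ y') i) t := by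
  simp only [Matrix.mulVec, dotProduct, Pi.add_apply, ← Finset.sum_add_distrib]
  exact HasDerivAt.fun_sum fun k _ => (hF i k).mul (hy k)

theorem nsq_add_le (u v : Fin 3 → ℝ) : nsq (u + v) ≤ 2 * nsq u + 2 * nsq v := by
  simp only [nsq, Pi.add_apply]
  nlinarith [sq_nonneg (u 0 - v 0), sq_nonneg (u 1 - v 1), sq_nonneg (u 2 - v 2)]

theorem comp_sq_le (u : Fin 3 → ℝ) (i : Fin 3) : u i ^ 2 ≤ nsq u := by
  have h0 := sq_nonneg (u 0)
  have h1 := sq_nonneg (u 1)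
  have h2 := sq_nonneg (u 2)
  fin_cases i <;> simp [nsq] <;> linarith

variable {K Om Y H : ℝ → M3}

theorem back_le (h : TwoSys K Om Y H) {T t : ℝ} (ht : T ≤ t) (v : Fin 3 → ℝ) :
    nsq (Y T *ᵥ ((Y t)⁻¹ *ᵥ v)) ≤ Real.exp (-(9 / 5) * (t - T)) * nsq v := by
  have g := (two_growth h T t ht ((Y t)⁻¹ *ᵥ v)).1
  rw [mul_inv_vec h] at g
  rw [neg_mul, Real.exp_neg, le_inv_mul_iff₀ (Real.exp_pos _)]
  exact g

theorem invT_le (h : TwoSys K Om Y H) {t : ℝ} (ht : 0 ≤ t) (c : Fin 3 → ℝ) :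
    nsq (((Y t)⁻¹)ᵀ *ᵥ c) ≤ nsq c := by
  have := OdeMul.transpose_bound (Y t)⁻¹ 1 zero_le_one (fun u => by
    have g := nsq_mono h ht ((Y t)⁻¹ *ᵥ u)
    rwa [mul_inv_vec h, Y0_vec h, ← one_mul (nsq u)] at g) c
  rwa [one_mul] at this

theorem sym_U (h : TwoSys K Om Y H) (t : ℝ) : ((Y t)⁻¹)ᵀ * (H t)ᵀ = H t * (Y t)⁻¹ := by
  have u1 : Y t * (Y t)⁻¹ = 1 := Matrix.mul_nonsing_inv _ (unit h t)
  have u2 : ((Y t)⁻¹)ᵀ * (Y t)ᵀ = 1 := by rw [← Matrix.transpose_mul, u1, Matrix.transpose_one]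
  calc ((Y t)⁻¹)ᵀ * (H t)ᵀ = ((Y t)⁻¹)ᵀ * ((H t)ᵀ * Y t) * (Y t)⁻¹ := by
        rw [Matrix.mul_assoc, Matrix.mul_assoc, u1, Matrix.mul_one]
    _ = H t * (Y t)⁻¹ := by
        rw [← h.wronski t, ← Matrix.mul_assoc, u2, Matrix.one_mul]

theorem conserved (h : TwoSys K Om Y H) {y η : ℝ → Fin 3 → ℝ}
    (hy : ∀ t i, HasDerivAt (fun s => y s i) ((η t - Om t *ᵥ y t) i) t)
    (hη : ∀ t i, HasDerivAt (fun s => η s i) ((K t *ᵥ y t - Om t *ᵥ η t) i) t) :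
    ∃ c : Fin 3 → ℝ, ∀ t, η t = H t *ᵥ ((Y t)⁻¹ *ᵥ y t) + ((Y t)⁻¹)ᵀ *ᵥ c := by
  have hd : ∀ t i, HasDerivAt (fun s => ((Y s)ᵀ *ᵥ η s - (H s)ᵀ *ᵥ y s) i) 0 t := by
    intro t i
    have h1 := vec_deriv (OdeMul.HD.transpose (F := Y) (h.dY t)) (hη t) i
    have h2 := vec_deriv (OdeMul.HD.transpose (F := H) (h.dH t)) (hy t) i
    refine (h1.sub h2).congr_deriv ?_
    rw [← Pi.sub_apply]
    have : (H t - Om t * Y t)ᵀ *ᵥ η t + (Y t)ᵀ *ᵥ (K t *ᵥ y t - Om t *ᵥ η t) -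
        ((K t * Y t - Om t * H t)ᵀ *ᵥ y t + (H t)ᵀ *ᵥ (η t - Om t *ᵥ y t)) = 0 := by
      simp only [Matrix.transpose_sub, Matrix.transpose_mul, h.Ks t, h.Oa t, Matrix.sub_mulVec,
        Matrix.mulVec_sub, Matrix.mulVec_mulVec, Matrix.mul_neg, Matrix.neg_mulVec]
      abel
    rw [this]; rfl
  refine ⟨(Y 0)ᵀ *ᵥ η 0 - (H 0)ᵀ *ᵥ y 0, fun t => ?_⟩
  have e : (Y 0)ᵀ *ᵥ η 0 - (H 0)ᵀ *ᵥ y 0 = (Y t)ᵀ *ᵥ η t - (H t)ᵀ *ᵥ y t := by
    funext i
    exact is_const_of_deriv_eq_zero (f := fun s => ((Y s)ᵀ *ᵥ η s - (H s)ᵀ *ᵥ y s) i)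
      (fun s => (hd s i).differentiableAt) (fun s => (hd s i).deriv) 0 t
  have u2 : ((Y t)⁻¹)ᵀ * (Y t)ᵀ = 1 := by
    rw [← Matrix.transpose_mul, Matrix.mul_nonsing_inv _ (unit h t), Matrix.transpose_one]
  rw [e, Matrix.mulVec_sub, Matrix.mulVec_mulVec, Matrix.mulVec_mulVec, Matrix.mulVec_mulVec, u2,
    sym_U h, Matrix.one_mulVec]
  abel

theorem pull_close (h : TwoSys K Om Y H) {y η : ℝ → Fin 3 → ℝ} {c : Fin 3 → ℝ}
    (hy : ∀ t i, HasDerivAt (fun s => y s i) ((η t - Om t *ᵥ y t) i) t)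
    (hc : ∀ t, η t = H t *ᵥ ((Y t)⁻¹ *ᵥ y t) + ((Y t)⁻¹)ᵀ *ᵥ c) {T t : ℝ} (hT : 0 ≤ T)
    (ht : T ≤ t) : nsq (Y T *ᵥ ((Y t)⁻¹ *ᵥ y t) - y T) ≤ 4 * nsq c := by
  have hd : ∀ r i, HasDerivAt (fun s => (Y T *ᵥ ((Y s)⁻¹ *ᵥ y s)) i)
      ((Y T *ᵥ ((Y r)⁻¹ *ᵥ (((Y r)⁻¹)ᵀ *ᵥ c))) i) r := by
    intro r i
    have h1 := vec_deriv (OdeMul.HD.inv (F := Y) (h.dY r) (h.det_pos r).ne') (hy r)
    have h2 := vec_deriv (OdeMul.HD.const (Y T) r) h1 i
    have u1 : Y r * (Y r)⁻¹ = 1 := Matrix.mul_nonsing_inv _ (unit h r)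
    have e : -((Y r)⁻¹ * (H r - Om r * Y r) * (Y r)⁻¹) *ᵥ y r + (Y r)⁻¹ *ᵥ (η r - Om r *ᵥ y r) =
        (Y r)⁻¹ *ᵥ (((Y r)⁻¹)ᵀ *ᵥ c) := by
      rw [hc r]
      simp only [Matrix.neg_mulVec, Matrix.mul_sub, Matrix.sub_mul, Matrix.sub_mulVec,
        Matrix.mulVec_sub, Matrix.mulVec_add, Matrix.mulVec_mulVec, Matrix.mul_assoc, u1,
        Matrix.mul_one]
      abel
    rwa [Matrix.zero_mulVec, zero_add, e] at h2
  have k : ∀ i, ((Y T *ᵥ ((Y t)⁻¹ *ᵥ y t)) i - y T i) ^ 2 ≤ 4 / 3 * nsq c := by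
    intro i
    have := drift (nsq_nonneg c) (fun r => hd r i) (fun r hr => by
      refine (comp_sq_le _ i).trans ((back_le h hr _).trans ?_)
      exact mul_le_mul_of_nonneg_left (invT_le h (hT.trans hr) c) (Real.exp_pos _).le) ht
    rwa [mul_inv_vec h] at this
  simp only [nsq, Pi.sub_apply] at k ⊢
  linarith [k 0, k 1, k 2]

end OT

open OE OT in
theorem two_range {K Om Y H : ℝ → M3} (h : TwoSys K Om Y H) (s : ℝ) (hs : 0 < s) (l₁ l₂ : ℝ)
    (h1 : Tendsto (fun n : ℕ => Real.log (fro (Y (n * s))) / n) atTop (𝓝 l₁))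
    (h2 : Tendsto (fun n : ℕ => Real.log (fro (Y (n * s))⁻¹) / n) atTop (𝓝 l₂))
    (a χ : ℝ) (hχ : 0 < χ) (y η : ℝ → Fin 3 → ℝ)
    (hy : ∀ t i, HasDerivAt (fun s => y s i) ((η t - Om t *ᵥ y t) i) t)
    (hη : ∀ t i, HasDerivAt (fun s => η s i) ((K t *ᵥ y t - Om t *ᵥ η t) i) t)
    (hT : Tendsto (fun t : ℝ => Real.log (Real.sqrt (a ^ 2 + nsq (y t) + nsq (η t))) / t) atTop
      (𝓝 χ)) : -l₂ / s ≤ χ ∧ χ ≤ l₁ / s := by
  obtain ⟨c, hc⟩ := conserved h hy hη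
  have ns : ∀ n : ℕ, 0 ≤ (n : ℝ) * s := fun n => by positivity
  have r1 : Rate (fun n : ℕ => fro (Y (n * s)) ^ 2) (2 * l₁) := Rate.sq h1
  have r2 : Rate (fun n : ℕ => fro (Y (n * s))⁻¹ ^ 2) (2 * l₂) := Rate.sq h2
  have N0 : ∀ t, 0 ≤ a ^ 2 + nsq (y t) + nsq (η t) := fun t =>
    add_nonneg (add_nonneg (sq_nonneg a) (nsq_nonneg _)) (nsq_nonneg _)
  have rN : Rate (fun n : ℕ => a ^ 2 + nsq (y (n * s)) + nsq (η (n * s))) (2 * (χ * s)) := by
    have k := ((hT.comp ((tendsto_natCast_atTop_atTop (R := ℝ)).atTop_mul_const hs)).mul_const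
      s).const_mul 2
    refine k.congr fun n => ?_
    simp only [Function.comp]
    rw [Real.log_sqrt (N0 _)]
    rcases eq_or_ne (n : ℝ) 0 with h0 | h0
    · simp [h0]
    · field_simp
  have χs : 0 < 2 * (χ * s) := by positivity
  have Np : ∀ᶠ n : ℕ in atTop, 0 < a ^ 2 + nsq (y (n * s)) + nsq (η (n * s)) := by
    filter_upwards [rN.eventually (lt_mem_nhds χs)] with n hn
    rcases (N0 (n * s)).eq_or_lt with h0 | h0
    · rw [← h0] at hn
      simp at hn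
    · exact h0
  have c0 := nsq_nonneg c
  have hηle : ∀ t, 0 ≤ t → nsq (η t) ≤ 18 * nsq (y t) + 2 * nsq c := by
    intro t ht
    have b1 := H_le h t ((Y t)⁻¹ *ᵥ y t)
    rw [mul_inv_vec h] at b1
    have b2 := invT_le h ht c
    have b3 := nsq_add_le (H t *ᵥ ((Y t)⁻¹ *ᵥ y t)) (((Y t)⁻¹)ᵀ *ᵥ c)
    rw [← hc t] at b3
    linarith
  constructor
  · obtain ⟨T, hT0, hTy⟩ : ∃ T, 0 ≤ T ∧ 8 * nsq c + 2 < nsq (y T) := by
      by_contra hh
      push Not at hh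
      have := rate_le_ev rN (rate_const (a ^ 2 + 19 * (8 * nsq c + 2) + 2 * nsq c)) (by
        filter_upwards [Np] with n hn
        refine ⟨hn, ?_⟩
        linarith [hh _ (ns n), hηle _ (ns n)])
      linarith
    have fT := fro_pos h T
    have k := (rate_const (1 / fro (Y T) ^ 2)).div r2 (fun _ => by positivity)
      (fun n => by have := fro_inv_pos h (n * s); positivity)
    have k2 := rate_le_ev k rN (by
      filter_upwards [((tendsto_natCast_atTop_atTop (R := ℝ)).atTop_mul_const hs).eventually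
        (eventually_ge_atTop T)] with n hn
      have fi := fro_inv_pos h (n * s)
      refine ⟨by positivity, ?_⟩
      have b1 := pull_close h hy hc hT0 hn
      set w := Y T *ᵥ ((Y (n * s))⁻¹ *ᵥ y (n * s)) with hw
      have b2 : nsq (y T) ≤ 2 * nsq w + 2 * nsq (w - y T) := by
        simp only [nsq, Pi.sub_apply]
        nlinarith [sq_nonneg (2 * w 0 - y T 0), sq_nonneg (2 * w 1 - y T 1),
          sq_nonneg (2 * w 2 - y T 2)]
      have b3 : nsq w ≤ fro (Y T) ^ 2 * (fro (Y (n * s))⁻¹ ^ 2 * nsq (y (n * s))) :=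
        (nsq_mulVec_le _ _).trans (mul_le_mul_of_nonneg_left (nsq_mulVec_le _ _) (sq_nonneg _))
      have b4 : 1 / fro (Y T) ^ 2 / fro (Y (n * s))⁻¹ ^ 2 ≤ nsq (y (n * s)) := by
        rw [div_le_iff₀ (by positivity), div_le_iff₀ (by positivity)]
        linarith
      linarith [sq_nonneg a, nsq_nonneg (η (n * s))])
    rw [div_le_iff₀ hs]
    linarith
  · have k := r1.const_mul (fun n => by have := fro_pos h (n * s); positivity)
      (C := a ^ 2 + 19 * (2 * nsq (y 0) + 8 * nsq c) + 2 * nsq c + 1)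
      (by have := nsq_nonneg (y 0); positivity)
    have k2 := rate_le_ev rN k (by
      filter_upwards [Np] with n hn
      refine ⟨hn, ?_⟩
      have b1 := pull_close h hy hc le_rfl (ns n)
      rw [Y0_vec h] at b1
      set z := (Y (n * s))⁻¹ *ᵥ y (n * s) with hz
      have b2 : nsq z ≤ 2 * nsq (y 0) + 2 * nsq (z - y 0) := by
        have := nsq_add_le (y 0) (z - y 0)
        rwa [add_sub_cancel] at this
      have b3 := nsq_mulVec_le (Y (n * s)) z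
      rw [hz, mul_inv_vec h, ← hz] at b3
      have b4 : 1 ≤ fro (Y (n * s)) ^ 2 := by
        have e1 := nsq_mulVec_le (Y (n * s)) (Pi.single 0 1)
        have e2 := nsq_mono h (ns n) (Pi.single 0 1)
        rw [Y0_vec h] at e2
        rw [OdeMul.nsq_single] at e1 e2
        linarith
      have b5 := hηle _ (ns n)
      have b6 : nsq (y (n * s)) ≤ fro (Y (n * s)) ^ 2 * (2 * nsq (y 0) + 8 * nsq c) :=
        b3.trans (mul_le_mul_of_nonneg_left (by linarith) (sq_nonneg _))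
      have b7 : a ^ 2 + 2 * nsq c + 1 ≤ (a ^ 2 + 2 * nsq c + 1) * fro (Y (n * s)) ^ 2 :=
        le_mul_of_one_le_right (by positivity) b4
      linarith)
    rw [le_div_iff₀ hs]
    linarith

end Pool.Agent.MP_019006_gt

end
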