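import Pool.Agent.Mg.F019006.G637484
import Pool.Agent.MP_019006_gt.Kingman
import Pool.Agent.Mg.F019006.G0da640
import Pool.Agent.Mg.F019006.Gc982f7

section

set_option autoImplicit false

open MeasureTheory Filter Topology Set Matrix
open scoped ENNReal

namespace Pool.Agent.MP_019006_gt

namespace ErgAux

/-- The sigma-algebra of measurable sets that are invariant on `S`. -/
@[reducible] def invSigma {P G : Type} [MeasurableSpace P] (S : Set P) (act : G → P → P) :
    MeasurableSpace P where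
  MeasurableSet' A := MeasurableSet A ∧ ∀ a, ∀ p ∈ S, (act a p ∈ A ↔ p ∈ A)
  measurableSet_empty := ⟨MeasurableSet.empty, fun _ _ _ => Iff.rfl⟩
  measurableSet_compl A hA := ⟨hA.1.compl, fun a p hp => not_congr (hA.2 a p hp)⟩
  measurableSet_iUnion A hA := ⟨MeasurableSet.iUnion fun i => (hA i).1, fun a p hp => by
    simp only [mem_iUnion]
    exact exists_congr fun i => (hA i).2 a p hp⟩

theorem invSigma_le {P G : Type} [m : MeasurableSpace P] (S : Set P) (act : G → P → P) :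
    invSigma S act ≤ m := fun _ hA => hA.1

variable {P G : Type} [MeasurableSpace P] [Group G] [Countable G]

theorem kingman_quot (μ : Measure P) (S : Set P) (hS : MeasurableSet S) (hSc : μ Sᶜ = 0)
    (act : G → P → P) (hact : ∀ a, MeasurePreserving (act a) μ μ)
    (actS : ∀ a, ∀ p ∈ S, act a p ∈ S) (act1 : ∀ p ∈ S, act 1 p = p)
    (actmul : ∀ a b, ∀ p ∈ S, act (a * b) p = act a (act b p))
    (χ : P → ℝ≥0∞) (hχm : Measurable χ) (hχ : ∀ p ∈ S, ∑' a, χ (act a p) = 1)
    (hfin : ∫⁻ p, χ p ∂μ ≠ ⊤)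
    (T : P → P) (hT : MeasurePreserving T μ μ) (TS : ∀ p ∈ S, T p ∈ S)
    (comm : ∀ a, ∀ p ∈ S, T (act a p) = act a (T p))
    (C : ℝ) (f : ℕ → P → ℝ) (fm : ∀ n, Measurable (f n))
    (finv : ∀ n a, ∀ p ∈ S, f n (act a p) = f n p)
    (fsub : ∀ m n, ∀ p ∈ S, f (m + n) p ≤ f m p + f n (T^[m] p))
    (fb : ∀ n, ∀ p ∈ S, |f n p| ≤ C * (n + 1)) :
    ∀ᵐ p ∂μ, ∃ l : ℝ, Tendsto (fun n : ℕ => f n p / n) atTop (𝓝 l) := by
  classical
  have hae : ∀ᵐ p ∂μ, p ∈ S := hSc
  set ν : Measure P := μ.withDensity χ with hν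
  have : IsFiniteMeasure ν := isFiniteMeasure_withDensity hfin
  have hle := invSigma_le S act
  set T' : P → P := S.piecewise T id with hT'
  have hT'm : Measurable T' := Measurable.piecewise hS hT.measurable measurable_id
  have hT'S : ∀ p ∈ S, T' p = T p := fun p hp => piecewise_eq_of_mem _ _ _ hp
  have hT'N : ∀ p, p ∉ S → T' p = p := fun p hp => piecewise_eq_of_notMem _ _ _ hp
  have hitS : ∀ m, ∀ p ∈ S, T'^[m] p = T^[m] p ∧ T^[m] p ∈ S := by
    intro m
    induction m with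
    | zero => intro p hp; exact ⟨rfl, hp⟩
    | succ m ih =>
      intro p hp
      rw [Function.iterate_succ_apply', Function.iterate_succ_apply', (ih p hp).1,
        hT'S _ (ih p hp).2]
      exact ⟨rfl, TS _ (ih p hp).2⟩
  have hitN : ∀ m p, p ∉ S → T'^[m] p = p := fun m p hp => Function.iterate_fixed (hT'N p hp) m
  have hT'0 : @Measurable P P (invSigma S act) (invSigma S act) T' := by
    intro A hA
    refine ⟨hT'm hA.1, fun a p hp => ?_⟩
    rw [mem_preimage, mem_preimage, hT'S _ (actS a p hp), hT'S _ hp, comm a p hp]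
    exact hA.2 a _ (TS p hp)
  have hνA : ∀ A : Set P, MeasurableSet A → ν A = ∫⁻ p, χ p * A.indicator 1 p ∂μ := by
    intro A hA
    rw [← lintegral_indicator_one hA, hν,
      lintegral_withDensity_eq_lintegral_mul _ hχm (measurable_one.indicator hA)]
    rfl
  have hpres : @MeasurePreserving P P (invSigma S act) (invSigma S act) T' (ν.trim hle)
      (ν.trim hle) := by
    refine @MeasurePreserving.mk P P (invSigma S act) (invSigma S act) _ _ _ hT'0 ?_
    refine @Measure.ext P (invSigma S act) _ _ fun A hA => ?_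
    rw [@Measure.map_apply P P (invSigma S act) (invSigma S act) _ _ hT'0 _ hA,
      trim_measurableSet_eq hle (hT'0 hA), trim_measurableSet_eq hle hA,
      hνA _ (hT'm hA.1), hνA _ hA.1,
      ← weight_lintegral_comp μ S hSc act hact act1 actmul χ hχm hχ T hT TS comm (A.indicator 1)
        (measurable_one.indicator hA.1) (fun a p hp => by
          by_cases h : p ∈ A
          · rw [indicator_of_mem h, indicator_of_mem ((hA.2 a p hp).2 h)]; rfl
          · rw [indicator_of_notMem h, indicator_of_notMem (fun h' => h ((hA.2 a p hp).1 h'))])]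
    refine lintegral_congr_ae (hae.mono fun p hp => ?_)
    simp only []
    rw [← hT'S p hp]
    rfl
  have hfm : ∀ n, @Measurable P ℝ (invSigma S act) _ (S.indicator (f n)) := by
    intro n B hB
    refine ⟨((fm n).indicator hS) hB, fun a p hp => ?_⟩
    rw [mem_preimage, mem_preimage, indicator_of_mem (actS a p hp), indicator_of_mem hp,
      finv n a p hp]
  have key := @kingman P (invSigma S act) (ν.trim hle) (isFiniteMeasure_trim hle) T' hpres
    (fun n => S.indicator (f n)) hfm |C|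
    (fun m n x => by
      by_cases hx : x ∈ S
      · rw [(hitS m x hx).1, indicator_of_mem hx, indicator_of_mem hx,
          indicator_of_mem (hitS m x hx).2]
        exact fsub m n x hx
      · rw [hitN m x hx, indicator_of_notMem hx, indicator_of_notMem hx, indicator_of_notMem hx]
        simp)
    (fun n x => by
      by_cases hx : x ∈ S
      · rw [indicator_of_mem hx]
        exact (fb n x hx).trans (by gcongr; exact le_abs_self C)
      · rw [indicator_of_notMem hx, abs_zero]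
        positivity)
  obtain ⟨A, hsub, hA, hA0⟩ :=
    @exists_measurable_superset_of_null P (invSigma S act) (ν.trim hle) _ key
  rw [trim_measurableSet_eq hle hA, hνA _ hA.1] at hA0
  have hm : Measurable fun p => χ p * A.indicator 1 p := hχm.mul (measurable_one.indicator hA.1)
  have h0 : ∀ a, ∀ᵐ p ∂μ, χ (act a p) * A.indicator 1 (act a p) = 0 := fun a =>
    (hact a).quasiMeasurePreserving.ae ((lintegral_eq_zero_iff hm).1 hA0)
  filter_upwards [hae, ae_all_iff.2 h0] with p hp h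
  have hpA : p ∉ A := by
    intro hpA
    have h1 := hχ p hp
    have h2 : ∀ a, χ (act a p) = 0 := fun a => by
      have := h a
      rwa [indicator_of_mem ((hA.2 a p hp).2 hpA), Pi.one_apply, mul_one] at this
    simp [h2] at h1
  by_contra hcon
  refine hpA (hsub ?_)
  simpa only [mem_compl_iff, mem_ofPred_eq, indicator_of_mem hp] using hcon

theorem integral_weight_comp (μ : Measure P) (S : Set P) (hSc : μ Sᶜ = 0)
    (act : G → P → P) (hact : ∀ a, MeasurePreserving (act a) μ μ)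
    (act1 : ∀ p ∈ S, act 1 p = p)
    (actmul : ∀ a b, ∀ p ∈ S, act (a * b) p = act a (act b p))
    (χ : P → ℝ≥0∞) (hχm : Measurable χ) (hχ : ∀ p ∈ S, ∑' a, χ (act a p) = 1)
    (hfin : ∫⁻ p, χ p ∂μ ≠ ⊤)
    (T : P → P) (hT : MeasurePreserving T μ μ) (TS : ∀ p ∈ S, T p ∈ S)
    (comm : ∀ a, ∀ p ∈ S, T (act a p) = act a (T p))
    (C : ℝ) (Ψ : P → ℝ) (Ψm : Measurable Ψ) (Ψb : ∀ p ∈ S, |Ψ p| ≤ C)
    (Ψinv : ∀ a, ∀ p ∈ S, Ψ (act a p) = Ψ p) :
    ∫ p, Ψ (T p) ∂(μ.withDensity χ) = ∫ p, Ψ p ∂(μ.withDensity χ) := by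
  have hae : ∀ᵐ p ∂μ, p ∈ S := hSc
  have haeν : ∀ᵐ p ∂(μ.withDensity χ), p ∈ S := (withDensity_absolutelyContinuous μ χ).ae_le hae
  have : IsFiniteMeasure (μ.withDensity χ) := isFiniteMeasure_withDensity hfin
  have hi1 : Integrable (fun p => Ψ (T p)) (μ.withDensity χ) :=
    Integrable.of_bound (Ψm.comp hT.measurable).aestronglyMeasurable C
      (haeν.mono fun p hp => Ψb _ (TS p hp))
  have hi2 : Integrable Ψ (μ.withDensity χ) :=
    Integrable.of_bound Ψm.aestronglyMeasurable C (haeν.mono fun p hp => Ψb _ hp)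
  have key : ∀ u : P → ℝ≥0∞, Measurable u → (∀ a, ∀ p ∈ S, u (act a p) = u p) →
      ∫⁻ p, u (T p) ∂(μ.withDensity χ) = ∫⁻ p, u p ∂(μ.withDensity χ) := by
    intro u hu uinv
    have hu' : Measurable fun p => u (T p) := hu.comp hT.measurable
    rw [lintegral_withDensity_eq_lintegral_mul _ hχm hu,
      lintegral_withDensity_eq_lintegral_mul _ hχm hu']
    exact weight_lintegral_comp μ S hSc act hact act1 actmul χ hχm hχ T hT TS comm u hu uinv
  rw [integral_eq_lintegral_pos_part_sub_lintegral_neg_part hi1,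
    integral_eq_lintegral_pos_part_sub_lintegral_neg_part hi2,
    key (fun p => ENNReal.ofReal (Ψ p)) Ψm.ennreal_ofReal
      (fun a p hp => by simp only [Ψinv a p hp]),
    key (fun p => ENNReal.ofReal (-Ψ p)) Ψm.neg.ennreal_ofReal
      (fun a p hp => by simp only [Ψinv a p hp])]

theorem integral_unfold (μ : Measure P) (S : Set P) (hSc : μ Sᶜ = 0)
    (act : G → P → P) (hact : ∀ a, MeasurePreserving (act a) μ μ)
    (act1 : ∀ p ∈ S, act 1 p = p)
    (actmul : ∀ a b, ∀ p ∈ S, act (a * b) p = act a (act b p))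
    (χ : P → ℝ≥0∞) (hχm : Measurable χ) (hχ : ∀ p ∈ S, ∑' a, χ (act a p) = 1)
    (Ψ Ψ₀ : P → ℝ) (Ψ₀m : Measurable Ψ₀) (Ψ₀i : Integrable Ψ₀ μ)
    (Ψf : ∀ p ∈ S, {a | Ψ₀ (act a p) ≠ 0}.Finite)
    (Ψsum : ∀ p ∈ S, Ψ p = ∑' a, Ψ₀ (act a p)) :
    ∫ p, Ψ p ∂(μ.withDensity χ) = ∫ p, Ψ₀ p ∂μ := by
  have hae : ∀ᵐ p ∂μ, p ∈ S := hSc
  have haeν : ∀ᵐ p ∂(μ.withDensity χ), p ∈ S := (withDensity_absolutelyContinuous μ χ).ae_le hae
  have key : ∀ u : P → ℝ, Measurable u → Integrable u μ →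
      Integrable (fun p => (∑' a, ENNReal.ofReal (u (act a p))).toReal) (μ.withDensity χ) ∧
      ∫ p, (∑' a, ENNReal.ofReal (u (act a p))).toReal ∂(μ.withDensity χ) =
        (∫⁻ p, ENNReal.ofReal (u p) ∂μ).toReal := by
    intro u hu hi
    have hm : Measurable fun p => ∑' a, ENNReal.ofReal (u (act a p)) :=
      Measurable.tsum fun a => (hu.comp (hact a).measurable).ennreal_ofReal
    have h1 : ∫⁻ p, ∑' a, ENNReal.ofReal (u (act a p)) ∂(μ.withDensity χ) =
        ∫⁻ p, ENNReal.ofReal (u p) ∂μ := by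
      rw [lintegral_withDensity_eq_lintegral_mul _ hχm hm]
      exact weight_unfold μ S hSc act hact act1 actmul χ hχm hχ (fun p => ENNReal.ofReal (u p))
        hu.ennreal_ofReal
    have h2 : ∫⁻ p, ∑' a, ENNReal.ofReal (u (act a p)) ∂(μ.withDensity χ) ≠ ⊤ := by
      rw [h1]; exact hi.lintegral_lt_top.ne
    refine ⟨integrable_toReal_of_lintegral_ne_top hm.aemeasurable h2, ?_⟩
    rw [integral_toReal hm.aemeasurable (ae_lt_top hm h2), h1]
  obtain ⟨i1, e1⟩ := key Ψ₀ Ψ₀m Ψ₀i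
  obtain ⟨i2, e2⟩ := key (fun p => -Ψ₀ p) Ψ₀m.neg Ψ₀i.neg
  rw [integral_eq_lintegral_pos_part_sub_lintegral_neg_part Ψ₀i, ← e1, ← e2,
    ← integral_sub i1 i2]
  refine integral_congr_ae (haeν.mono fun p hp => ?_)
  simp only []
  have hz : ∀ a, a ∉ (Ψf p hp).toFinset → Ψ₀ (act a p) = 0 := fun a ha => by simpa using ha
  rw [Ψsum p hp, tsum_eq_sum (s := (Ψf p hp).toFinset) hz,
    tsum_eq_sum (s := (Ψf p hp).toFinset) (fun a ha => by rw [hz a ha]; simp),
    tsum_eq_sum (s := (Ψf p hp).toFinset) (fun a ha => by rw [hz a ha]; simp),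
    ENNReal.toReal_sum (fun a _ => ENNReal.ofReal_ne_top),
    ENNReal.toReal_sum (fun a _ => ENNReal.ofReal_ne_top), ← Finset.sum_sub_distrib]
  refine Finset.sum_congr rfl fun a _ => ?_
  rw [ENNReal.toReal_ofReal', ENNReal.toReal_ofReal', max_zero_sub_max_neg_zero_eq_self]

end ErgAux

theorem erg_pack {P G : Type} [MeasurableSpace P] [Group G] [Countable G] (μ : Measure P)
    [SFinite μ] (S : Set P) (hS : MeasurableSet S) (hSc : μ Sᶜ = 0)
    (act : G → P → P) (hact : ∀ a, MeasurePreserving (act a) μ μ)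
    (actS : ∀ a, ∀ p ∈ S, act a p ∈ S) (act1 : ∀ p ∈ S, act 1 p = p)
    (actmul : ∀ a b, ∀ p ∈ S, act (a * b) p = act a (act b p))
    (φ : ℝ → P → P) (hφm : Measurable (fun q : ℝ × P => φ q.1 q.2))
    (hφ : ∀ t, MeasurePreserving (φ t) μ μ) (φS : ∀ t, ∀ p ∈ S, φ t p ∈ S)
    (φ0 : ∀ p ∈ S, φ 0 p = p) (φadd : ∀ t s, ∀ p ∈ S, φ (t + s) p = φ t (φ s p))
    (comm : ∀ a t, ∀ p ∈ S, φ t (act a p) = act a (φ t p))
    (K : Set P) (hK : MeasurableSet K) (hKfin : μ K < ⊤)
    (hKcov : ∀ p ∈ S, ∃ a, act a p ∈ K) (hKf : ∀ p ∈ S, {a | act a p ∈ K}.Finite)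
    (C : ℝ) (f : Fin 3 → ℕ → P → ℝ) (fm : ∀ i n, Measurable (f i n))
    (finv : ∀ i n a, ∀ p ∈ S, f i n (act a p) = f i n p)
    (fsub : ∀ i m n, ∀ p ∈ S, f i (m + n) p ≤ f i m p + f i n (φ m p))
    (fb : ∀ i n, ∀ p ∈ S, |f i n p| ≤ C * (n + 1))
    (Ψ Ψ₀ : P → ℝ) (Ψm : Measurable Ψ) (Ψ₀m : Measurable Ψ₀) (Ψ₀i : Integrable Ψ₀ μ)
    (Ψb : ∀ p ∈ S, |Ψ p| ≤ C) (Ψf : ∀ p ∈ S, {a | Ψ₀ (act a p) ≠ 0}.Finite)
    (Ψsum : ∀ p ∈ S, Ψ p = ∑' a, Ψ₀ (act a p)) (hpos : 0 < ∫ p, Ψ₀ p ∂μ)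
    (hlow : ∀ n : ℕ, ∀ p ∈ S, (∫ t in (0 : ℝ)..n, Ψ (φ t p)) - C ≤ 2 * f 1 n p - f 0 n p) :
    (∀ᵐ p ∂μ, ∀ i, ∃ l : ℝ, Tendsto (fun n : ℕ => f i n p / n) atTop (𝓝 l)) ∧
    ¬ ∀ᵐ p ∂μ, ∀ l₁ l₀ : ℝ, Tendsto (fun n : ℕ => f 1 n p / n) atTop (𝓝 l₁) →
      Tendsto (fun n : ℕ => f 0 n p / n) atTop (𝓝 l₀) → 2 * l₁ ≤ l₀ := by
  obtain ⟨χ, hχm, hχK, hχ⟩ :=
    exists_weight S hS act (fun a => (hact a).measurable) actS actmul K hK hKcov hKf
  have hfin : ∫⁻ p, χ p ∂μ ≠ ⊤ := by
    refine ((lintegral_mono hχK).trans_lt ?_).ne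
    rwa [lintegral_indicator_one hK]
  have hae : ∀ᵐ p ∂μ, p ∈ S := hSc
  have hit : ∀ m : ℕ, ∀ p ∈ S, (φ 1)^[m] p = φ m p := by
    intro m p hp
    induction m with
    | zero => simp [φ0 p hp]
    | succ m ih =>
      rw [Function.iterate_succ_apply', ih, ← φadd _ _ p hp]
      congr 1
      push_cast
      ring
  have part1 : ∀ᵐ p ∂μ, ∀ i, ∃ l : ℝ, Tendsto (fun n : ℕ => f i n p / n) atTop (𝓝 l) :=
    ae_all_iff.2 fun i => ErgAux.kingman_quot μ S hS hSc act hact actS act1 actmul χ hχm hχ hfin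
      (φ 1) (hφ 1) (φS 1) (fun a => comm a 1) C (f i) (fm i) (finv i)
      (fun m n p hp => by rw [hit m p hp]; exact fsub i m n p hp) (fb i)
  refine ⟨part1, fun hcon => ?_⟩
  set ν : Measure P := μ.withDensity χ with hν
  have : IsFiniteMeasure ν := isFiniteMeasure_withDensity hfin
  have hac : ν ≪ μ := withDensity_absolutelyContinuous μ χ
  have haeν : ∀ᵐ p ∂ν, p ∈ S := hac.ae_le hae
  have Ψinv : ∀ b, ∀ p ∈ S, Ψ (act b p) = Ψ p := by
    intro b p hp
    rw [Ψsum _ (actS b p hp), Ψsum p hp]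
    simp only [← actmul _ _ p hp]
    exact (Equiv.mulRight b).tsum_eq (fun a => Ψ₀ (act a p))
  set I := ∫ p, Ψ₀ p ∂μ with hI
  have hΨt : ∀ t, ∫ p, Ψ (φ t p) ∂ν = I := fun t =>
    (ErgAux.integral_weight_comp μ S hSc act hact act1 actmul χ hχm hχ hfin (φ t) (hφ t) (φS t)
      (fun a => comm a t) C Ψ Ψm Ψb Ψinv).trans
      (ErgAux.integral_unfold μ S hSc act hact act1 actmul χ hχm hχ Ψ Ψ₀ Ψ₀m Ψ₀i Ψf Ψsum)
  -- Fubini
  have hprod : ∀ n : ℕ, Integrable (Function.uncurry fun (p : P) (t : ℝ) => Ψ (φ t p))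
      (ν.prod (volume.restrict (Ioc (0 : ℝ) n))) := by
    intro n
    have hm : Measurable (Function.uncurry fun (p : P) (t : ℝ) => Ψ (φ t p)) :=
      Ψm.comp (hφm.comp measurable_swap)
    refine Integrable.of_bound hm.aestronglyMeasurable C ?_
    filter_upwards [Measure.quasiMeasurePreserving_fst.ae haeν] with q hq
    exact Ψb _ (φS _ _ hq)
  have hFub : ∀ n : ℕ, Integrable (fun p => ∫ t in (0 : ℝ)..n, Ψ (φ t p)) ν ∧
      ∫ p, (∫ t in (0 : ℝ)..n, Ψ (φ t p)) ∂ν = n * I := by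
    intro n
    have hn : (0 : ℝ) ≤ n := Nat.cast_nonneg n
    simp only [intervalIntegral.integral_of_le hn]
    refine ⟨(hprod n).integral_prod_left, ?_⟩
    rw [integral_integral_swap (hprod n)]
    simp [hΨt]
  -- the positive parts
  set g : ℕ → P → ℝ := fun n p => max ((2 * f 1 n p - f 0 n p) / n) 0 with hg
  have hgm : ∀ n, Measurable (g n) := fun n =>
    ((((fm 1 n).const_mul 2).sub (fm 0 n)).div_const _).max measurable_const
  have hgb : ∀ n, ∀ p ∈ S, ‖g n p‖ ≤ 6 * |C| := by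
    intro n p hp
    have hC : 0 ≤ |C| := abs_nonneg C
    rw [Real.norm_eq_abs, abs_of_nonneg (le_max_right _ _)]
    refine max_le ?_ (by positivity)
    rcases Nat.eq_zero_or_pos n with rfl | hn
    · simp
    · have hn' : (1 : ℝ) ≤ n := by exact_mod_cast hn
      rw [div_le_iff₀ (by linarith)]
      have h1 := (abs_le.1 (fb 1 n p hp)).2
      have h0 := (abs_le.1 (fb 0 n p hp)).1
      have h2 : C * (n + 1) ≤ |C| * (n + 1) := by gcongr; exact le_abs_self C
      nlinarith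
  have hlim : Tendsto (fun n => ∫ p, g n p ∂ν) atTop (𝓝 (∫ _p, (0 : ℝ) ∂ν)) := by
    refine tendsto_integral_of_dominated_convergence (fun _ => 6 * |C|)
      (fun n => (hgm n).aestronglyMeasurable) (integrable_const _)
      (fun n => haeν.mono fun p hp => hgb n p hp) ?_
    filter_upwards [hac.ae_le part1, hac.ae_le hcon] with p h1 h2
    obtain ⟨l₁, hl₁⟩ := h1 1
    obtain ⟨l₀, hl₀⟩ := h1 0
    have h3 := h2 l₁ l₀ hl₁ hl₀
    have h4 := ((hl₁.const_mul 2).sub hl₀).max (tendsto_const_nhds (x := (0 : ℝ)))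
    rw [max_eq_right (by linarith)] at h4
    refine h4.congr fun n => ?_
    simp only [hg]
    congr 1
    ring
  rw [integral_zero] at hlim
  have hlow' : ∀ n : ℕ, 1 ≤ n → I - C * ν.real univ / n ≤ ∫ p, g n p ∂ν := by
    intro n hn
    have hn' : (0 : ℝ) < n := by exact_mod_cast hn
    have h1 : ∫ p, ((∫ t in (0 : ℝ)..n, Ψ (φ t p)) - C) / n ∂ν = I - C * ν.real univ / n := by
      rw [integral_div, integral_sub (hFub n).1 (integrable_const _), (hFub n).2, integral_const,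
        smul_eq_mul]
      field_simp
    rw [← h1]
    refine integral_mono_ae (((hFub n).1.sub (integrable_const _)).div_const _)
      (Integrable.of_bound (hgm n).aestronglyMeasurable _ (haeν.mono fun p hp => hgb n p hp)) ?_
    filter_upwards [haeν] with p hp
    exact le_max_of_le_left (div_le_div_of_nonneg_right (hlow n p hp) hn'.le)
  have hlim2 : Tendsto (fun n : ℕ => I - C * ν.real univ / n) atTop (𝓝 (I - 0)) :=
    tendsto_const_nhds.sub (tendsto_const_div_atTop_nhds_zero_nat _)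
  have := le_of_tendsto_of_tendsto hlim2 hlim (eventually_atTop.2 ⟨1, hlow'⟩)
  linarith

end Pool.Agent.MP_019006_gt

end

section

set_option autoImplicit false

open MeasureTheory Filter Topology Set Matrix

namespace Pool.Agent.MP_019006_gt

theorem continuousOn_PsiT {f β : EE → ℝ} (hf : ∀ n : ℕ, ContDiffOn ℝ n f Bl)
    (hβ : ContinuousOn β Bl) {φ : ℝ → EE × EE → EE × EE}
    {M : ℝ → EE × EE → (EE × EE) →L[ℝ] (EE × EE)} (hφ : IsFlow OO (XX f) φ M) (η e τ : ℝ) :
    ContinuousOn (PsiT f β φ η e τ) OO := by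
  have h1 := Loc.continuousOn_d1 hf
  have h2 := Loc.continuousOn_dw hf
  have h3 := Loc.continuousOn_int h1 hφ (-τ) 0
  have h4 := Loc.continuousOn_int h2 hφ (-τ) 0
  have h5 : ContinuousOn (fun q : EE × EE => β q.1) OO :=
    hβ.comp continuousOn_fst fun q hq => mem_OO.1 hq
  exact ((((continuousOn_const.mul h2).mul h4).sub ((continuousOn_const.mul h1).mul h3)).add
    (continuousOn_const.mul (h1.sub (continuousOn_const.mul h2)))).sub
    (continuousOn_const.mul h5)

namespace Loc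

theorem finrank_EE : Module.finrank ℝ EE = 4 := by
  rw [finrank_real_of_complex, finrank_euclideanSpace_fin]

theorem continuous_L0 (w : EE) : Continuous fun x => L0 x w := by
  have h1 : Continuous fun x : EE => Real.sqrt (Dd x) := by unfold Dd; fun_prop
  have h2 : Continuous fun x : EE => ip w x := by unfold ip; fun_prop
  have h3 : Continuous fun x : EE => (((1 + Real.sqrt (Dd x) : ℝ)) : ℂ) :=
    Complex.continuous_ofReal.comp (continuous_const.add h1)
  have h4 : Continuous fun x : EE => ip w x / (((1 + Real.sqrt (Dd x) : ℝ)) : ℂ) :=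
    h2.div h3 fun x => Complex.ofReal_ne_zero.2 (by positivity)
  exact h1.smul (continuous_const.sub (h4.smul continuous_id))

theorem continuousOn_integrand {f β : EE → ℝ} (hf : ∀ n : ℕ, ContDiffOn ℝ n f Bl)
    (hβ : ContinuousOn β Bl) {φ : ℝ → EE × EE → EE × EE}
    {M : ℝ → EE × EE → (EE × EE) →L[ℝ] (EE × EE)} (hφ : IsFlow OO (XX f) φ M) (η e τ : ℝ)
    (w : EE) : ContinuousOn (fun x => PsiT f β φ η e τ (x, Real.exp (-f x) • L0 x w) *
      (Real.exp (4 * f x) / Dd x ^ 3)) Bl := by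
  have hc : ContinuousOn f Bl := (hf 0).continuousOn
  have h1 : ContinuousOn (fun x => Real.exp (-f x) • L0 x w) Bl :=
    (Real.continuous_exp.comp_continuousOn hc.neg).smul (continuous_L0 w).continuousOn
  have h2 : ContinuousOn (fun x => PsiT f β φ η e τ (x, Real.exp (-f x) • L0 x w)) Bl :=
    (continuousOn_PsiT hf hβ hφ η e τ).comp (continuousOn_id.prodMk h1) fun x hx => mem_OO.2 hx
  have h3 : Continuous fun x : EE => Dd x ^ 3 := by unfold Dd; fun_prop
  exact h2.mul ((Real.continuous_exp.comp_continuousOn (continuousOn_const.mul hc)).div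
    h3.continuousOn fun x hx => (pow_pos (Dd_pos hx) 3).ne')

variable {F : EE → ℝ} {K : ℝ}

theorem continuous_SS (hF : Bd F K) (w : EE) : Continuous (SS F w) := by
  obtain ⟨c1, cw⟩ := sig_cont hF w
  have hl : Continuous fun z : EE × ℝ => z.1 + z.2 • w := by fun_prop
  have i1 := intervalIntegral.continuous_parametric_intervalIntegral_of_continuous'
    (μ := volume) (f := fun (y : EE) (s : ℝ) => sig1 F (y + s • w) w) (c1.comp hl) (-6) 0
  have iw := intervalIntegral.continuous_parametric_intervalIntegral_of_continuous'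
    (μ := volume) (f := fun (y : EE) (s : ℝ) => sigw F (y + s • w) w) (cw.comp hl) (-6) 0
  exact ((continuous_const.mul cw).mul iw).sub ((continuous_const.mul c1).mul i1)

theorem integrable_of_zero {g : EE → ℝ} (hg : Continuous g) (h0 : ∀ y, 1 < ‖y‖ → g y = 0) :
    Integrable g := by
  refine hg.integrable_of_hasCompactSupport ?_
  refine HasCompactSupport.intro (isCompact_closedBall (0 : EE) 1) fun x hx => h0 x ?_
  simpa only [Metric.mem_closedBall, dist_zero_right, not_le] using hx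

theorem continuous_Main (hF : Bd F K) (ε r : ℝ) (w : EE) : Continuous (Main F ε r w) := by
  obtain ⟨c1, cw⟩ := sig_cont hF w
  exact (continuous_const.mul (continuous_SS hF w)).add
    (continuous_const.mul (c1.sub (continuous_const.mul cw)))

theorem integral_Main {s₀ : ℝ} (hP : IsProfile F s₀) (hF : Bd F K) (ε : ℝ) {r : ℝ} (hr : 0 < r)
    {w : EE} (hw : ‖w‖ = 1) :
    ε ^ 2 * r ^ 5 * s₀ ≤ ∫ x in Metric.ball (0 : EE) (2 * r), Main F ε r w (r⁻¹ • x) := by
  obtain ⟨c1, cw⟩ := sig_cont hF w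
  have z1 : ∀ y : EE, 1 < ‖y‖ → SS F w y = 0 := fun y hy => by
    unfold SS
    rw [(sig_zero hF w hy).1, (sig_zero hF w hy).2]; ring
  have z2 : ∀ y : EE, 1 < ‖y‖ → sig1 F y w - 2 * sigw F y w = 0 := fun y hy => by
    rw [(sig_zero hF w hy).1, (sig_zero hF w hy).2]; ring
  have i1 := integrable_of_zero (continuous_SS hF w) z1
  have i2 := integrable_of_zero (g := fun y => sig1 F y w - 2 * sigw F y w)
    (c1.sub (continuous_const.mul cw)) z2
  rw [setIntegral_eq_integral_of_forall_compl_eq_zero, Measure.integral_comp_inv_smul_of_nonneg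
    volume (Main F ε r w) hr.le, finrank_EE, smul_eq_mul]
  · unfold Main
    rw [integral_add (i1.const_mul _) (i2.const_mul _), integral_const_mul, integral_const_mul,
      hP.first w hw, mul_zero, add_zero]
    have h : s₀ ≤ ∫ y, SS F w y := hP.second w hw
    calc ε ^ 2 * r ^ 5 * s₀ ≤ ε ^ 2 * r ^ 5 * ∫ y, SS F w y := by gcongr
      _ = _ := by ring
  · intro x hx
    have hy : 1 < ‖r⁻¹ • x‖ := by
      rw [Metric.mem_ball, dist_zero_right, not_lt] at hx
      rw [norm_smul, norm_inv, Real.norm_eq_abs, abs_of_pos hr, lt_inv_mul_iff₀ hr]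
      linarith
    unfold Main
    rw [z1 _ hy, z2 _ hy]; ring

end Loc

theorem local_line {F : EE → ℝ} {s₀ : ℝ} (hF : IsProfile F s₀) (C : ℝ) : ∃ η : ℝ, 0 < η ∧
    ∀ ε : ℝ, 0 < ε → ε ≤ 1 → ∃ r₀ : ℝ, 0 < r₀ ∧ ∀ (r : ℝ) (f β : EE → ℝ)
      (φ : ℝ → EE × EE → EE × EE) (M : ℝ → EE × EE → (EE × EE) →L[ℝ] (EE × EE)),
      0 < r → r ≤ r₀ → Conf f → (∀ x, ‖x‖ < 1 / 2 → f x = f0 F ε r x ∧ β x = b0 r x) →
      IsFlow OO (XX f) φ M → ∀ w : EE, ‖w‖ = 1 →
        ε ^ 2 * r ^ 5 * s₀ / 2 ≤ ∫ x in Metric.ball (0 : EE) (2 * r),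
          PsiT f β φ η (C * ε) (6 * r) (x, Real.exp (-f x) • L0 x w) *
            (Real.exp (4 * f x) / Dd x ^ 3) := by
  obtain ⟨K, hK⟩ := Loc.exists_bd hF
  have k1 := hK.one
  have s0 := hF.pos
  obtain ⟨V, hV⟩ : ∃ V, V = (volume : Measure EE).real (Metric.ball 0 1) := ⟨_, rfl⟩
  have V0 : 0 ≤ V := hV ▸ measureReal_nonneg
  obtain ⟨c, hc⟩ : ∃ c, c = (1000000000 * K ^ 3) ^ 2 := ⟨_, rfl⟩
  have c0 : 0 ≤ c := hc ▸ sq_nonneg _
  obtain ⟨η, hη⟩ : ∃ η, η = s₀ / (1152 * (C ^ 2 * V + 1)) := ⟨_, rfl⟩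
  have η0 : 0 < η := by rw [hη]; positivity
  have η1 : η * (1152 * (C ^ 2 * V + 1)) = s₀ := by rw [hη]; field_simp
  refine ⟨η, η0, fun ε hε hε1 => ⟨min (min (1 / 100) (1 / (42 * K)))
    (ε ^ 2 * s₀ / (448 * (c * V + 1))), by positivity, ?_⟩⟩
  intro r f β φ M hr hr0 hC hf hφ w hw
  have r1 : r ≤ 1 / 100 := hr0.trans ((min_le_left _ _).trans (min_le_left _ _))
  have r2 : 42 * K * r ≤ 1 := by
    have := hr0.trans ((min_le_left _ _).trans (min_le_right _ _))
    rw [le_div_iff₀ (by positivity)] at this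
    linarith
  have r3 : r * (448 * (c * V + 1)) ≤ ε ^ 2 * s₀ := by
    have := hr0.trans (min_le_right _ _)
    rwa [le_div_iff₀ (by positivity)] at this
  have hball : ∀ x ∈ Metric.ball (0 : EE) (2 * r), ‖x‖ ≤ 2 * r := fun x hx => by
    rw [Metric.mem_ball, dist_zero_right] at hx
    exact hx.le
  have hsub : Metric.closedBall (0 : EE) (2 * r) ⊆ Bl := fun x hx => by
    rw [Metric.mem_closedBall, dist_zero_right] at hx
    exact mem_Bl.2 (by linarith)
  have hb : Continuous (b0 r) := by unfold b0; fun_prop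
  have e1 : ∫ x in Metric.ball (0 : EE) (2 * r),
      PsiT f β φ η (C * ε) (6 * r) (x, Real.exp (-f x) • L0 x w) *
        (Real.exp (4 * f x) / Dd x ^ 3) = ∫ x in Metric.ball (0 : EE) (2 * r),
      PsiT f (b0 r) φ η (C * ε) (6 * r) (x, Real.exp (-f x) • L0 x w) *
        (Real.exp (4 * f x) / Dd x ^ 3) := by
    refine setIntegral_congr_fun measurableSet_ball fun x hx => ?_
    have := (hf x (by linarith [hball x hx])).2
    simp only [PsiT, this]
  have i1 := (((Loc.continuousOn_integrand hC.smooth hb.continuousOn hφ η (C * ε) (6 * r) w).mono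
    hsub).integrableOn_compact (μ := volume) (isCompact_closedBall _ _)).mono_set
      Metric.ball_subset_closedBall
  have cM : Continuous fun x : EE => Loc.Main F ε r w (r⁻¹ • x) :=
    (Loc.continuous_Main hK ε r w).comp (continuous_const_smul r⁻¹)
  have i2 := (cM.continuousOn.integrableOn_compact (μ := volume)
    (isCompact_closedBall (0 : EE) (2 * r))).mono_set Metric.ball_subset_closedBall
  have i3 : IntegrableOn (fun _ : EE => 7 * c * r ^ 2 + 18 * η * (C * ε) ^ 2 * r)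
      (Metric.ball (0 : EE) (2 * r)) := integrableOn_const measure_ball_lt_top.ne
  have h1 := setIntegral_mono_on (i2.sub i3) i1 measurableSet_ball fun x hx => by
    rw [hc]
    exact Loc.point_est hK hε hε1 hr r1 r2 hC (fun x hx => (hf x hx).1) hφ (hball x hx) hw η0.le _
  have h2 := Loc.integral_Main hF hK ε hr hw
  have h3 : (volume : Measure EE).real (Metric.ball 0 (2 * r)) = 16 * r ^ 4 * V := by
    rw [← Measure.addHaar_real_closedBall_eq_addHaar_real_ball,
      Measure.addHaar_real_closedBall _ _ (by linarith), Loc.finrank_EE, ← hV]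
    ring
  simp only [Pi.sub_apply] at h1
  rw [integral_sub i2 i3, setIntegral_const, h3, smul_eq_mul] at h1
  rw [e1]
  refine le_trans ?_ h1
  have a1 : 16 * r ^ 4 * V * (7 * c * r ^ 2) ≤ ε ^ 2 * r ^ 5 * s₀ / 4 := by
    have : r ^ 5 * (r * (448 * (c * V + 1))) ≤ r ^ 5 * (ε ^ 2 * s₀) := by gcongr
    have h6 : 0 ≤ r ^ 6 := by positivity
    linarith
  have a2 : 16 * r ^ 4 * V * (18 * η * (C * ε) ^ 2 * r) ≤ ε ^ 2 * r ^ 5 * s₀ / 4 := by
    rw [← η1]
    have h6 : 0 ≤ ε ^ 2 * r ^ 5 * η := by positivity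
    linarith
  linarith

end Pool.Agent.MP_019006_gt

end

section

set_option autoImplicit false

open MeasureTheory Filter Topology Set Matrix

namespace Pool.Agent.MP_019006_gt

theorem measurable_indicator_of_continuousOn {X Y : Type} [TopologicalSpace X] [MeasurableSpace X]
    [OpensMeasurableSpace X] [TopologicalSpace Y] [MeasurableSpace Y] [BorelSpace Y] [Zero Y]
    {S : Set X} (hS : MeasurableSet S) {u : X → Y} (hu : ContinuousOn u S) :
    Measurable (S.indicator u) := by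
  classical
  have : S.indicator u = S.piecewise u fun _ => 0 := by
    funext x; by_cases hx : x ∈ S <;> simp [hx]
  rw [this]
  exact hu.measurable_piecewise continuousOn_const hS

theorem continuous_fro : Continuous fro := by
  unfold fro
  fun_prop

namespace World

variable {G : Type} [Group G] {ρ : G →* C3} {f β : EE → ℝ} {φ : Flo} {M : DFlo} {e r R : ℝ}

theorem nrm_contOn (h : World ρ f β φ M e r R) {S : Set (EE × EE)}
    (hS : ∀ p ∈ S, p.1 ∈ Bl ∧ p.2 ≠ 0) : ContinuousOn (nrm f) S := by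
  have hen : ContinuousOn (en f) S :=
    (Fib.contOn_en h.ctx.conf).mono fun p hp => mem_OO.2 (hS p hp).1
  have h1 : ContinuousOn (fun p => (Real.sqrt (en f p))⁻¹) S :=
    (Real.continuous_sqrt.comp_continuousOn hen).inv₀ fun p hp =>
      (Real.sqrt_pos.2 (en_nrm (hS p hp).1 (hS p hp).2).1).ne'
  have h2 : ContinuousOn (fun p : EE × EE => (Real.sqrt (en f p))⁻¹ • p.2) S :=
    h1.smul continuousOn_snd
  exact continuousOn_fst.prodMk h2

theorem LL_aux {X : Type} [TopologicalSpace X] {S : Set X} {Y : X → M3} (hY : ContinuousOn Y S)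
    (hd : ∀ p ∈ S, 0 < (Y p).det) : ContinuousOn (fun p => Real.log (Y p).det) S ∧
      ContinuousOn (fun p => Real.log (fro (Y p))) S ∧
      ContinuousOn (fun p => Real.log (fro (Y p)⁻¹)) S := by
  have hdet : ContinuousOn (fun p => (Y p).det) S :=
    (Continuous.matrix_det continuous_id).comp_continuousOn hY
  have h1 : ContinuousOn (fun p => fro (Y p)) S := continuous_fro.comp_continuousOn hY
  have hi : ContinuousOn (fun p => (Y p)⁻¹) S := by
    simp only [Matrix.inv_def, Ring.inverse_eq_inv']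
    have h2 : ContinuousOn (fun p => (Y p).adjugate) S :=
      (Continuous.matrix_adjugate continuous_id).comp_continuousOn hY
    exact (hdet.inv₀ fun p hp => (hd p hp).ne').smul h2
  have h3 : ContinuousOn (fun p => fro (Y p)⁻¹) S := continuous_fro.comp_continuousOn hi
  refine ⟨hdet.log fun p hp => (hd p hp).ne',
    h1.log fun p hp => (OdeMul.fro_pos (hd p hp).ne').ne',
    h3.log fun p hp => (OdeMul.fro_pos ?_).ne'⟩
  rw [Matrix.det_nonsing_inv, Ring.inverse_eq_inv']
  exact inv_ne_zero (hd p hp).ne'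

theorem LL_contOn (h : World ρ f β φ M e r R) (i : Fin 3) {S : Set (EE × EE)} {T : EE × EE → ℝ}
    (hS : ∀ p ∈ S, p.1 ∈ Bl ∧ p.2 ≠ 0) (hT : ContinuousOn T S) (hT0 : ∀ p ∈ S, 0 ≤ T p) :
    ContinuousOn (fun p => LL f φ M i (nrm f p) (T p)) S := by
  have hn := h.nrm_contOn hS
  have h0 : ContinuousOn (fun p => (T p, nrm f p)) S := hT.prodMk hn
  have hY : ContinuousOn (fun p => Ymat f φ M (nrm f p) (T p)) S :=
    ContinuousOn.comp (g := fun q : ℝ × (EE × EE) => Ymat f φ M q.2 q.1)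
      (f := fun p => (T p, nrm f p)) (continuousOn_Ymat h.sm h.ctx.flow) h0 fun p hp =>
      ⟨mem_univ _, mem_OO.2 (hS p hp).1⟩
  have hd : ∀ p ∈ S, 0 < (Ymat f φ M (nrm f p) (T p)).det := fun p hp =>
    (h.cone (p := nrm f p) (hS p hp).1 (en_nrm (hS p hp).1 (hS p hp).2).2).det_pos _ (hT0 p hp)
  obtain ⟨a, b, c⟩ := LL_aux hY hd
  fin_cases i
  · exact a
  · exact b
  · exact c

theorem shell_ne {p : EE × EE} (hp : p ∈ shell f) : p.2 ≠ 0 := by
  intro h0
  have h1 : en f p = 0 := by unfold en; rw [h0]; simp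
  linarith [hp.2.1]

theorem d_bound (h : World ρ f β φ M e r R) {p : EE × EE} (hp : p.1 ∈ Bl) (h1 : en f p = 1) :
    |d1 f p| ≤ e * β p.1 ∧ |dw f p| ≤ 2 * (e * β p.1) := by
  have a := h.Kb p hp h1 0 0
  have b := abs_le.1 (h.Kb p hp h1 1 1)
  have c := abs_le.1 (h.Kb p hp h1 2 2)
  simp only [Matrix.sub_apply, K0, Matrix.diagonal_apply_eq] at a b c
  refine ⟨a, ?_⟩
  unfold dw
  simp only [Matrix.cons_val] at b c
  rw [abs_le]
  constructor <;> linarith [b.1, b.2, c.1, c.2]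

theorem PsiT_bound (h : World ρ f β φ M e r R) {η : ℝ} (hη : 0 ≤ η) {p : EE × EE} (hp : p.1 ∈ Bl)
    (h1 : en f p = 1) : |PsiT f β φ η e (6 * r) p| ≤ (2 + η) * β p.1 := by
  have hr := h.r0
  have hr1 := h.r1
  have hb : ∀ x, e * β x ≤ 1 := fun x => mul_le_one₀ h.e1 (h.β01 x).1 (h.β01 x).2
  have hb' : e * β p.1 ≤ β p.1 := mul_le_of_le_one_left (h.β01 _).1 h.e1
  have i1 : |∫ s in (-(6 * r))..0, d1 f (φ s p)| ≤ 1 := by
    have := intervalIntegral.norm_integral_le_of_norm_le_const (a := -(6 * r)) (b := 0) (C := 1)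
      (f := fun s => d1 f (φ s p)) fun s _ =>
        (h.d_bound (h.fmem s hp) (by rw [h.fen, h1])).1.trans (hb _)
    rw [Real.norm_eq_abs, abs_of_pos (a := 0 - -(6 * r)) (by linarith)] at this
    linarith
  have i2 : |∫ s in (-(6 * r))..0, dw f (φ s p)| ≤ 1 := by
    have := intervalIntegral.norm_integral_le_of_norm_le_const (a := -(6 * r)) (b := 0) (C := 2)
      (f := fun s => dw f (φ s p)) fun s _ =>
        (h.d_bound (h.fmem s hp) (by rw [h.fen, h1])).2.trans (by linarith [hb (φ s p).1])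
    rw [Real.norm_eq_abs, abs_of_pos (a := 0 - -(6 * r)) (by linarith)] at this
    linarith
  obtain ⟨a, b⟩ := h.d_bound hp h1
  have hβ := (h.β01 p.1).1
  have j1 : |d1 f p * ∫ s in (-(6 * r))..0, d1 f (φ s p)| ≤ β p.1 := by
    rw [abs_mul]; nlinarith [abs_nonneg (d1 f p), abs_nonneg (∫ s in (-(6 * r))..0, d1 f (φ s p))]
  have j2 : |dw f p * ∫ s in (-(6 * r))..0, dw f (φ s p)| ≤ 2 * β p.1 := by
    rw [abs_mul]; nlinarith [abs_nonneg (dw f p), abs_nonneg (∫ s in (-(6 * r))..0, dw f (φ s p))]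
  have j3 : 0 ≤ η * e ^ 2 * (6 * r) * β p.1 := by positivity
  have j4 : η * e ^ 2 * (6 * r) * β p.1 ≤ η * β p.1 := by
    have k1 : e ^ 2 ≤ 1 := pow_le_one₀ h.e0 h.e1
    have k2 : e ^ 2 * (6 * r) ≤ 1 := mul_le_one₀ k1 (by linarith) (by linarith)
    have k3 : 0 ≤ η * β p.1 := by positivity
    nlinarith
  unfold PsiT
  rw [mul_assoc (1 / 8 : ℝ), mul_assoc (1 / 16 : ℝ)]
  have a' := abs_le.1 a
  have b' := abs_le.1 b
  have j1' := abs_le.1 j1
  have j2' := abs_le.1 j2
  rw [abs_le]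
  constructor <;> nlinarith [a'.1, a'.2, b'.1, b'.2, j1'.1, j1'.2, j2'.1, j2'.2]

theorem PsiT_inv (h : World ρ f β φ M e r R) (η τ : ℝ) (a : G) {p : EE × EE} (hp : p.1 ∈ Bl)
    (h1 : en f p = 1) : PsiT f β φ η e τ (mobT (ρ a) p) = PsiT f β φ η e τ p := by
  have k : ∀ s, d1 f (φ s (mobT (ρ a) p)) = d1 f (φ s p) ∧
      dw f (φ s (mobT (ρ a) p)) = dw f (φ s p) := fun s => by
    rw [flow_mobT (h.u21 a) h.sm (h.finv a) h.ctx.flow]
    exact d1_dw_mobT (h.u21 a) h.sm (h.finv a) (h.fmem s hp) (by rw [h.fen, h1])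
  obtain ⟨k1, k2⟩ := d1_dw_mobT (h.u21 a) h.sm (h.finv a) hp h1
  have k3 : β (mobT (ρ a) p).1 = β p.1 := by rw [Inv.mobT_of_mem _ hp]; exact h.βinv a _ hp
  unfold PsiT
  simp only [(k _).1, (k _).2, k1, k2, k3]

theorem Psi_eq (h : World ρ f β φ M e r R) (η τ : ℝ) (p : EE × EE) (t : ℝ) :
    Psi η e τ (fun t => β (φ t p).1) (fun t => Kmat f (φ t p)) t = PsiT f β φ η e τ (φ t p) := by
  have k : ∀ u : EE × EE → ℝ, ∫ s in (-τ)..0, u (φ s (φ t p)) = ∫ s in (t - τ)..t, u (φ s p) := by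
    intro u
    simp only [← h.ctx.flow.add]
    rw [intervalIntegral.integral_comp_add_right (fun s => u (φ s p)) t]
    congr 1 <;> ring
  unfold Psi PsiT
  rw [k (dw f), k (d1 f)]
  rfl

theorem shell_flow (h : World ρ f β φ M e r R) (t : ℝ) {p : EE × EE} (hp : p ∈ shell f) :
    φ t p ∈ shell f := ⟨h.fmem t hp.1, by rw [h.fen]; exact hp.2⟩

theorem shell_mobT (h : World ρ f β φ M e r R) (a : G) {p : EE × EE} (hp : p ∈ shell f) :
    mobT (ρ a) p ∈ shell f :=
  ⟨Inv.mobT_mem (h.u21 a) hp.1, by rw [en_mobT (h.u21 a) (h.finv a)]; exact hp.2⟩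

theorem pack [Countable G] (h : World ρ f β φ M e r R) {η C c : ℝ} (hη : 0 ≤ η) (hc : 0 < c)
    (hcore : ∀ p : EE × EE, p.1 ∈ Bl → en f p = 1 → ∀ T : ℝ, 0 ≤ T →
      (∫ t in (0 : ℝ)..T, Psi η e (6 * r) (fun t => β (φ t p).1) (fun t => Kmat f (φ t p)) t) - C ≤
        2 * LL f φ M 1 p T - LL f φ M 0 p T)
    (hloc : ∀ w : EE, ‖w‖ = 1 → c ≤ ∫ x in Metric.ball (0 : EE) (2 * r),
      PsiT f β φ η e (6 * r) (x, Real.exp (-f x) • L0 x w) * (Real.exp (4 * f x) / Dd x ^ 3)) :
    (∀ᵐ p : EE × EE, p ∈ shell f → ∀ i, ∃ l : ℝ, Tendsto (fun n : ℕ =>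
      (LL f φ M i (nrm f p) (n * Real.sqrt (en f p)) + 1) / n) atTop (𝓝 l)) ∧
    ¬ ∀ᵐ p : EE × EE, p ∈ shell f → ∀ l₁ l₀ : ℝ,
      Tendsto (fun n : ℕ => (LL f φ M 1 (nrm f p) (n * Real.sqrt (en f p)) + 1) / n) atTop (𝓝 l₁) →
      Tendsto (fun n : ℕ => (LL f φ M 0 (nrm f p) (n * Real.sqrt (en f p)) + 1) / n) atTop (𝓝 l₀) →
        2 * l₁ ≤ l₀ := by
  have hf := h.ctx.conf
  have hSm : MeasurableSet (shell f) := Fib.meas_shell hf
  have hSO : shell f ⊆ OO := Fib.shell_sub f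
  obtain ⟨δ, hδ, hcov⟩ := lattice_cocpt h.lat
  obtain ⟨-, hKc, hKf⟩ := liou_compact hf δ hδ
  have hun : ∀ p ∈ shell f, (nrm f p).1 ∈ Bl ∧ en f (nrm f p) = 1 := fun p hp =>
    ⟨hp.1, (en_nrm hp.1 (shell_ne hp)).2⟩
  have hs2 : ∀ p ∈ shell f, 1 ≤ Real.sqrt (en f p) ∧ Real.sqrt (en f p) ≤ 2 := fun p hp =>
    ⟨Real.one_le_sqrt.2 hp.2.1, Real.sqrt_le_iff.2 ⟨by norm_num, by linarith [hp.2.2]⟩⟩
  have hsq : ContinuousOn (fun p => Real.sqrt (en f p)) (shell f) :=
    Real.continuous_sqrt.comp_continuousOn ((Fib.contOn_en hf).mono hSO)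
  have hΦ := continuousOn_PsiT h.sm h.βc h.ctx.flow η e (6 * r)
  have hΨc : ContinuousOn (fun p => Real.sqrt (en f p) * PsiT f β φ η e (6 * r) (nrm f p))
      (shell f) := hsq.mul (hΦ.comp (Fib.contOn_nrm hf) fun p hp => mem_OO.2 hp.1)
  obtain ⟨hint, hpos⟩ := fibre_pos hf _ hΦ (2 * r) c (by linarith [h.r1]) hc hloc
  have hBm : MeasurableSet (shell f ∩ {p : EE × EE | ‖p.1‖ < 2 * r}) :=
    hSm.inter (isOpen_lt (by fun_prop) continuous_const).measurableSet
  have hSc : liou f (shell f) (shell f)ᶜ = 0 := by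
    have := (ae_liou_iff hf hSm hSO (fun p => p ∈ shell f)).2 (Eventually.of_forall fun p hp => hp)
    exact this
  have : SFinite (liou f (shell f)) := by unfold liou; infer_instance
  set C' : ℝ := max (max 19 (2 * (2 + η))) (C + 1) with hC'
  have key := erg_pack (liou f (shell f)) (shell f) hSm hSc (fun a => mobT (ρ a))
    (fun a => mobT_measurePreserving (h.u21 a) (h.u21 a⁻¹) (by rw [← map_mul]; simp) (h.finv a)
      hSm hSO (fun p hp => h.shell_mobT a hp) fun p hp => h.shell_mobT a⁻¹ hp)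
    (fun a p hp => h.shell_mobT a hp) (fun p _ => by rw [map_one, Inv.mobT_one])
    (fun a b p hp => by rw [map_mul, Inv.mobT_mul (h.u21 a) (h.u21 b) hp.1])
    φ (h.ctx.flow.measurable isOpen_OO)
    (flow_measurePreserving h.sm h.ctx.flow hSm hSO fun t p hp => h.shell_flow t hp)
    (fun t p hp => h.shell_flow t hp) (fun p _ => h.ctx.flow.zero p)
    (fun t s p _ => h.ctx.flow.add t s p)
    (fun a t p _ => flow_mobT (h.u21 a) h.sm (h.finv a) h.ctx.flow t p)
    (shell f ∩ {p | δ ≤ Dd p.1}) hKc.measurableSet hKf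
    (fun p hp => by
      obtain ⟨a, ha⟩ := hcov p.1 hp.1
      exact ⟨a, h.shell_mobT a hp, by rw [Inv.mobT_of_mem _ hp.1]; exact ha⟩)
    (fun p hp => by
      refine (lattice_fin h.lat (min δ (Dd p.1)) (lt_min hδ (Dd_pos hp.1))).subset fun a ha => ?_
      refine ⟨p.1, hp.1, min_le_right _ _, (min_le_left _ _).trans ?_⟩
      have := ha.2
      rw [Inv.mobT_of_mem _ hp.1] at this
      exact this)
    C' (fun i n => (shell f).indicator fun p =>
      LL f φ M i (nrm f p) (n * Real.sqrt (en f p)) + 1)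
    (fun i n => measurable_indicator_of_continuousOn hSm
      ((h.LL_contOn i (fun p hp => ⟨hp.1, shell_ne hp⟩) (continuousOn_const.mul hsq)
        fun p _ => mul_nonneg (Nat.cast_nonneg n) (Real.sqrt_nonneg _)).add continuousOn_const))
    (fun i n a p hp => by
      rw [indicator_of_mem (h.shell_mobT a hp), indicator_of_mem hp,
        nrm_mobT (h.u21 a) (h.finv a) hp.1, en_mobT (h.u21 a) (h.finv a),
        h.LL_inv (hun p hp).1 (hun p hp).2])
    (fun i m n p hp => by
      rw [indicator_of_mem (h.shell_flow m hp), indicator_of_mem hp, indicator_of_mem hp,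
        flow_nrm h.sm h.ctx.flow m hp.1 (shell_ne hp), h.fen, Nat.cast_add, add_mul,
        mul_comm (Real.sqrt _) (m : ℝ)]
      have := h.LL_sub (hun p hp).1 (hun p hp).2 i (s := m * Real.sqrt (en f p))
        (t := n * Real.sqrt (en f p)) (by positivity) (by positivity)
      linarith)
    (fun i n p hp => by
      rw [indicator_of_mem hp]
      have b := h.LL_bound (hun p hp).1 (hun p hp).2 i (t := n * Real.sqrt (en f p))
        (by positivity)
      have b1 : (n : ℝ) * Real.sqrt (en f p) ≤ n * 2 :=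
        mul_le_mul_of_nonneg_left (hs2 p hp).2 (Nat.cast_nonneg n)
      have b2 : (19 : ℝ) ≤ C' := (le_max_left _ _).trans (le_max_left _ _)
      have b3 : (0 : ℝ) ≤ n := Nat.cast_nonneg n
      have b4 := abs_add_le (LL f φ M i (nrm f p) (n * Real.sqrt (en f p))) 1
      rw [abs_one] at b4
      nlinarith)
    ((shell f).indicator fun p => Real.sqrt (en f p) * PsiT f β φ η e (6 * r) (nrm f p))
    ((shell f ∩ {p : EE × EE | ‖p.1‖ < 2 * r}).indicator
      fun p => Real.sqrt (en f p) * PsiT f β φ η e (6 * r) (nrm f p))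
    (measurable_indicator_of_continuousOn hSm hΨc)
    (measurable_indicator_of_continuousOn hBm (hΨc.mono inter_subset_left)) hint
    (fun p hp => by
      rw [indicator_of_mem hp, abs_mul, abs_of_nonneg (Real.sqrt_nonneg _)]
      have b := h.PsiT_bound hη (hun p hp).1 (hun p hp).2
      have b1 : (2 + η) * β (nrm f p).1 ≤ 2 + η :=
        mul_le_of_le_one_right (by linarith) (h.β01 _).2
      have b2 : 2 * (2 + η) ≤ C' := (le_max_right _ _).trans (le_max_left _ _)
      exact (mul_le_mul (hs2 p hp).2 (b.trans b1) (abs_nonneg _) (by norm_num)).trans b2)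
    (fun p hp => by
      refine Set.Subsingleton.finite fun a ha b hb => ?_
      have ha' := (mem_of_indicator_ne_zero ha).2
      have hb' := (mem_of_indicator_ne_zero hb).2
      rw [Inv.mobT_of_mem _ hp.1] at ha' hb'
      exact h.mob_inj hp.1 ha' hb')
    (fun p hp => by
      rw [indicator_of_mem hp]
      by_cases hex : ∃ a, ‖mob (ρ a) p.1‖ < 2 * r
      · obtain ⟨a, ha⟩ := hex
        rw [tsum_eq_single a]
        · rw [indicator_of_mem, nrm_mobT (h.u21 a) (h.finv a) hp.1, en_mobT (h.u21 a) (h.finv a),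
            h.PsiT_inv η _ a (hun p hp).1 (hun p hp).2]
          exact ⟨h.shell_mobT a hp, by rw [Inv.mobT_of_mem _ hp.1]; exact ha⟩
        · intro b hb
          refine indicator_of_notMem (fun hb' => hb ?_) _
          have := hb'.2
          rw [Inv.mobT_of_mem _ hp.1] at this
          exact h.mob_inj hp.1 this ha
      · have h0 : β p.1 = 0 := by
          by_contra h0
          exact hex (h.βsupp _ hp.1 h0)
        have b := h.PsiT_bound hη (hun p hp).1 (hun p hp).2
        have b1 : β (nrm f p).1 = 0 := h0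
        rw [b1, mul_zero] at b
        rw [abs_nonpos_iff.1 b, mul_zero]
        refine (tsum_congr fun a => ?_).trans tsum_zero |>.symm
        refine indicator_of_notMem (fun ha => hex ⟨a, ?_⟩) _
        have := ha.2
        rw [Inv.mobT_of_mem _ hp.1] at this
        exact this)
    hpos
    (fun n p hp => by
      rw [indicator_of_mem hp, indicator_of_mem hp]
      have k := hcore _ (hun p hp).1 (hun p hp).2 (n * Real.sqrt (en f p)) (by positivity)
      simp only [h.Psi_eq] at k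
      have k1 : ∫ t in (0 : ℝ)..n, (shell f).indicator
          (fun p => Real.sqrt (en f p) * PsiT f β φ η e (6 * r) (nrm f p)) (φ t p) =
          ∫ t in (0 : ℝ)..(n * Real.sqrt (en f p)), PsiT f β φ η e (6 * r) (φ t (nrm f p)) := by
        have k2 : ∀ t, (shell f).indicator
            (fun p => Real.sqrt (en f p) * PsiT f β φ η e (6 * r) (nrm f p)) (φ t p) =
            Real.sqrt (en f p) * PsiT f β φ η e (6 * r) (φ (Real.sqrt (en f p) * t) (nrm f p)) :=
          fun t => by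
            rw [indicator_of_mem (h.shell_flow t hp), h.fen,
              flow_nrm h.sm h.ctx.flow t hp.1 (shell_ne hp)]
        simp only [k2]
        rw [intervalIntegral.integral_const_mul, ← smul_eq_mul,
          intervalIntegral.smul_integral_comp_mul_left
            (fun t => PsiT f β φ η e (6 * r) (φ t (nrm f p))), mul_zero,
          mul_comm (Real.sqrt _) (n : ℝ)]
      rw [k1]
      have b2 : C + 1 ≤ C' := le_max_right _ _
      linarith)
  rw [ae_liou_iff hf hSm hSO, ae_liou_iff hf hSm hSO] at key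
  refine ⟨key.1.mono fun p hp hp' => ?_, fun hh => key.2 (hh.mono fun p hp hp' => ?_)⟩
  · simpa only [indicator_of_mem hp'] using hp hp'
  · simpa only [indicator_of_mem hp'] using hp hp'

end World

end Pool.Agent.MP_019006_gt

end

section

set_option autoImplicit false

open MeasureTheory Filter Topology Set Matrix
open scoped ENNReal

namespace Pool.Agent.MP_019006_gt

namespace ErgAux2

variable {P G : Type} [MeasurableSpace P] [Group G] [Countable G]

omit [Group G] in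
/-- An invariant set that is null for the weighted measure is null. -/
theorem ae_not_mem (μ : Measure P) (S : Set P) (hSc : μ Sᶜ = 0)
    (act : G → P → P) (hact : ∀ a, MeasurePreserving (act a) μ μ)
    (χ : P → ℝ≥0∞) (hχm : Measurable χ) (hχ : ∀ p ∈ S, ∑' a, χ (act a p) = 1)
    (A : Set P) (hA : MeasurableSet A) (hAi : ∀ a, ∀ p ∈ S, (act a p ∈ A ↔ p ∈ A))
    (hA0 : μ.withDensity χ A = 0) : ∀ᵐ p ∂μ, p ∉ A := by
  have hae : ∀ᵐ p ∂μ, p ∈ S := hSc
  have hνA : μ.withDensity χ A = ∫⁻ p, χ p * A.indicator 1 p ∂μ := by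
    rw [← lintegral_indicator_one hA,
      lintegral_withDensity_eq_lintegral_mul _ hχm (measurable_one.indicator hA)]
    rfl
  rw [hνA] at hA0
  have hm : Measurable fun p => χ p * A.indicator 1 p := hχm.mul (measurable_one.indicator hA)
  have h0 : ∀ a, ∀ᵐ p ∂μ, χ (act a p) * A.indicator 1 (act a p) = 0 := fun a =>
    (hact a).quasiMeasurePreserving.ae ((lintegral_eq_zero_iff hm).1 hA0)
  filter_upwards [hae, ae_all_iff.2 h0] with p hp h
  intro hpA
  have h1 := hχ p hp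
  have h2 : ∀ a, χ (act a p) = 0 := fun a => by
    have := h a
    rwa [indicator_of_mem ((hAi a p hp).2 hpA), Pi.one_apply, mul_one] at this
  simp [h2] at h1

omit [Group G] in
/-- Two invariant measurable functions that agree for the weighted measure agree. -/
theorem ae_eq_of_weight (μ : Measure P) (S : Set P) (hSc : μ Sᶜ = 0)
    (act : G → P → P) (hact : ∀ a, MeasurePreserving (act a) μ μ)
    (χ : P → ℝ≥0∞) (hχm : Measurable χ) (hχ : ∀ p ∈ S, ∑' a, χ (act a p) = 1)
    (u v : P → ℝ) (hu : Measurable u) (hv : Measurable v)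
    (ui : ∀ a, ∀ p ∈ S, u (act a p) = u p) (vi : ∀ a, ∀ p ∈ S, v (act a p) = v p)
    (h : ∀ᵐ p ∂(μ.withDensity χ), u p = v p) : ∀ᵐ p ∂μ, u p = v p := by
  have := ae_not_mem μ S hSc act hact χ hχm hχ {p | u p = v p}ᶜ
    (measurableSet_eq_fun hu hv).compl
    (fun a p hp => by simp only [mem_compl_iff, mem_ofPred_eq, ui a p hp, vi a p hp]) h
  filter_upwards [this] with p hp
  simpa using hp

/-- Recurrence on the quotient. -/
theorem recur (μ : Measure P) (S : Set P) (hS : MeasurableSet S) (hSc : μ Sᶜ = 0)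
    (act : G → P → P) (hact : ∀ a, MeasurePreserving (act a) μ μ)
    (actS : ∀ a, ∀ p ∈ S, act a p ∈ S) (act1 : ∀ p ∈ S, act 1 p = p)
    (actmul : ∀ a b, ∀ p ∈ S, act (a * b) p = act a (act b p))
    (χ : P → ℝ≥0∞) (hχm : Measurable χ) (hχ : ∀ p ∈ S, ∑' a, χ (act a p) = 1)
    (hfin : ∫⁻ p, χ p ∂μ ≠ ⊤)
    (T : P → P) (hT : MeasurePreserving T μ μ) (TS : ∀ p ∈ S, T p ∈ S)
    (comm : ∀ a, ∀ p ∈ S, T (act a p) = act a (T p))
    (A : Set P) (hA : MeasurableSet A) (hAi : ∀ a, ∀ p ∈ S, (act a p ∈ A ↔ p ∈ A)) :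
    ∀ᵐ p ∂μ, p ∈ A → ∃ᶠ n : ℕ in atTop, T^[n] p ∈ A := by
  classical
  have hae : ∀ᵐ p ∂μ, p ∈ S := hSc
  set ν : Measure P := μ.withDensity χ with hν
  have : IsFiniteMeasure ν := isFiniteMeasure_withDensity hfin
  have hle := ErgAux.invSigma_le S act
  set T' : P → P := S.piecewise T id with hT'
  have hT'm : Measurable T' := Measurable.piecewise hS hT.measurable measurable_id
  have hT'S : ∀ p ∈ S, T' p = T p := fun p hp => piecewise_eq_of_mem _ _ _ hp
  have hitS : ∀ m, ∀ p ∈ S, T'^[m] p = T^[m] p ∧ T^[m] p ∈ S := by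
    intro m
    induction m with
    | zero => intro p hp; exact ⟨rfl, hp⟩
    | succ m ih =>
      intro p hp
      rw [Function.iterate_succ_apply', Function.iterate_succ_apply', (ih p hp).1,
        hT'S _ (ih p hp).2]
      exact ⟨rfl, TS _ (ih p hp).2⟩
  have hT'0 : @Measurable P P (ErgAux.invSigma S act) (ErgAux.invSigma S act) T' := by
    intro A hA
    refine ⟨hT'm hA.1, fun a p hp => ?_⟩
    rw [mem_preimage, mem_preimage, hT'S _ (actS a p hp), hT'S _ hp, comm a p hp]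
    exact hA.2 a _ (TS p hp)
  have hνA : ∀ A : Set P, MeasurableSet A → ν A = ∫⁻ p, χ p * A.indicator 1 p ∂μ := by
    intro A hA
    rw [← lintegral_indicator_one hA, hν,
      lintegral_withDensity_eq_lintegral_mul _ hχm (measurable_one.indicator hA)]
    rfl
  have hpres : @MeasurePreserving P P (ErgAux.invSigma S act) (ErgAux.invSigma S act) T'
      (ν.trim hle) (ν.trim hle) := by
    refine @MeasurePreserving.mk P P (ErgAux.invSigma S act) (ErgAux.invSigma S act) _ _ _ hT'0 ?_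
    refine @Measure.ext P (ErgAux.invSigma S act) _ _ fun A hA => ?_
    rw [@Measure.map_apply P P (ErgAux.invSigma S act) (ErgAux.invSigma S act) _ _ hT'0 _ hA,
      trim_measurableSet_eq hle (hT'0 hA), trim_measurableSet_eq hle hA,
      hνA _ (hT'm hA.1), hνA _ hA.1,
      ← weight_lintegral_comp μ S hSc act hact act1 actmul χ hχm hχ T hT TS comm (A.indicator 1)
        (measurable_one.indicator hA.1) (fun a p hp => by
          by_cases h : p ∈ A
          · rw [indicator_of_mem h, indicator_of_mem ((hA.2 a p hp).2 h)]; rfl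
          · rw [indicator_of_notMem h, indicator_of_notMem (fun h' => h ((hA.2 a p hp).1 h'))])]
    refine lintegral_congr_ae (hae.mono fun p hp => ?_)
    simp only []
    rw [← hT'S p hp]
    rfl
  have hcons := @MeasurePreserving.conservative P (ErgAux.invSigma S act) T' (ν.trim hle)
    (isFiniteMeasure_trim hle) hpres
  have hA' : @MeasurableSet P (ErgAux.invSigma S act) A := ⟨hA, hAi⟩
  have key := @Conservative.ae_mem_imp_frequently_image_mem P (ErgAux.invSigma S act) T' A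
    (ν.trim hle) hcons (@MeasurableSet.nullMeasurableSet P (ErgAux.invSigma S act) _ _ hA')
  obtain ⟨B, hsub, hB, hB0⟩ :=
    @exists_measurable_superset_of_null P (ErgAux.invSigma S act) (ν.trim hle) _ key
  rw [trim_measurableSet_eq hle hB] at hB0
  filter_upwards [hae, ae_not_mem μ S hSc act hact χ hχm hχ B hB.1 hB.2 hB0] with p hp h hpA
  by_contra hcon
  refine h (hsub ?_)
  simp only [mem_compl_iff, mem_ofPred_eq, Classical.not_imp]
  refine ⟨hpA, fun h' => hcon (h'.mono fun n hn => ?_)⟩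
  rwa [(hitS n p hp).1] at hn

end ErgAux2

theorem erg_pack2 {P G : Type} [MeasurableSpace P] [Group G] [Countable G] (μ : Measure P)
    [SFinite μ] (S : Set P) (hS : MeasurableSet S) (hSc : μ Sᶜ = 0)
    (act : G → P → P) (hact : ∀ a, MeasurePreserving (act a) μ μ)
    (actS : ∀ a, ∀ p ∈ S, act a p ∈ S) (act1 : ∀ p ∈ S, act 1 p = p)
    (actmul : ∀ a b, ∀ p ∈ S, act (a * b) p = act a (act b p))
    (φ : ℝ → P → P) (hφ : ∀ t, MeasurePreserving (φ t) μ μ) (φS : ∀ t, ∀ p ∈ S, φ t p ∈ S)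
    (φ0 : ∀ p ∈ S, φ 0 p = p) (φadd : ∀ t s, ∀ p ∈ S, φ (t + s) p = φ t (φ s p))
    (comm : ∀ a t, ∀ p ∈ S, φ t (act a p) = act a (φ t p))
    (K : Set P) (hK : MeasurableSet K) (hKfin : μ K < ⊤)
    (hKcov : ∀ p ∈ S, ∃ a, act a p ∈ K) (hKf : ∀ p ∈ S, {a | act a p ∈ K}.Finite) :
    (∀ (C : ℝ) (f : ℕ → P → ℝ), (∀ n, Measurable (f n)) →
      (∀ n a, ∀ p ∈ S, f n (act a p) = f n p) →
      (∀ m n, ∀ p ∈ S, f (m + n) p ≤ f m p + f n (φ m p)) →
      (∀ n, ∀ p ∈ S, |f n p| ≤ C * (n + 1)) →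
      ∀ᵐ p ∂μ, ∃ l : ℝ, Tendsto (fun n : ℕ => f n p / n) atTop (𝓝 l) ∧
        Tendsto (fun n : ℕ => f n (φ (-(n : ℝ)) p) / n) atTop (𝓝 l)) ∧
    ∀ A : Set P, MeasurableSet A → (∀ a, ∀ p ∈ S, act a p ∈ A ↔ p ∈ A) →
      ∀ᵐ p ∂μ, p ∈ A → ∃ᶠ n : ℕ in atTop, φ n p ∈ A := by
  obtain ⟨χ, hχm, hχK, hχ⟩ :=
    exists_weight S hS act (fun a => (hact a).measurable) actS actmul K hK hKcov hKf
  have hfin : ∫⁻ p, χ p ∂μ ≠ ⊤ := by
    refine ((lintegral_mono hχK).trans_lt ?_).ne
    rwa [lintegral_indicator_one hK]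
  have hae : ∀ᵐ p ∂μ, p ∈ S := hSc
  have hit : ∀ m : ℕ, ∀ p ∈ S, (φ 1)^[m] p = φ m p := by
    intro m p hp
    induction m with
    | zero => simp [φ0 p hp]
    | succ m ih =>
      rw [Function.iterate_succ_apply', ih, ← φadd _ _ p hp]
      congr 1
      push_cast
      ring
  have hit' : ∀ m : ℕ, ∀ p ∈ S, (φ (-1))^[m] p = φ (-(m : ℝ)) p := by
    intro m p hp
    induction m with
    | zero => simp [φ0 p hp]
    | succ m ih =>
      rw [Function.iterate_succ_apply', ih, ← φadd _ _ p hp]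
      congr 1
      push_cast
      ring
  refine ⟨fun C f fm finv fsub fb => ?_, fun A hA hAi => ?_⟩
  swap
  · filter_upwards [hae, ErgAux2.recur μ S hS hSc act hact actS act1 actmul χ hχm hχ hfin
      (φ 1) (hφ 1) (φS 1) (fun a => comm a 1) A hA hAi] with p hp h hpA
    exact (h hpA).mono fun n hn => by rwa [hit n p hp] at hn
  set ν : Measure P := μ.withDensity χ with hν
  have : IsFiniteMeasure ν := isFiniteMeasure_withDensity hfin
  have hac : ν ≪ μ := withDensity_absolutelyContinuous μ χ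
  have haeν : ∀ᵐ p ∂ν, p ∈ S := hac.ae_le hae
  set g : ℕ → P → ℝ := fun n p => f n (φ (-(n : ℝ)) p) with hg
  have gm : ∀ n, Measurable (g n) := fun n => (fm n).comp (hφ _).measurable
  have ginv : ∀ n a, ∀ p ∈ S, g n (act a p) = g n p := by
    intro n a p hp
    simp only [hg]
    rw [comm a _ p hp, finv n a _ (φS _ p hp)]
  have gb : ∀ n, ∀ p ∈ S, |g n p| ≤ C * (n + 1) := fun n p hp => fb n _ (φS _ p hp)
  have gsub : ∀ m n, ∀ p ∈ S, g (m + n) p ≤ g m p + g n ((φ (-1))^[m] p) := by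
    intro m n p hp
    rw [hit' m p hp]
    simp only [hg]
    have h1 := fsub n m (φ (-((m + n : ℕ) : ℝ)) p) (φS _ p hp)
    rw [← φadd _ _ p hp, add_comm n m] at h1
    rw [← φadd _ _ p hp]
    have e1 : (n : ℝ) + -((m + n : ℕ) : ℝ) = -(m : ℝ) := by push_cast; ring
    have e2 : -(n : ℝ) + -(m : ℝ) = -((m + n : ℕ) : ℝ) := by push_cast; ring
    rw [e1] at h1
    rw [e2]
    linarith
  have lim1 : ∀ᵐ p ∂μ, ∃ l : ℝ, Tendsto (fun n : ℕ => f n p / n) atTop (𝓝 l) :=
    ErgAux.kingman_quot μ S hS hSc act hact actS act1 actmul χ hχm hχ hfin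
      (φ 1) (hφ 1) (φS 1) (fun a => comm a 1) C f fm finv
      (fun m n p hp => by rw [hit m p hp]; exact fsub m n p hp) fb
  have lim2 : ∀ᵐ p ∂μ, ∃ l : ℝ, Tendsto (fun n : ℕ => g n p / n) atTop (𝓝 l) :=
    ErgAux.kingman_quot μ S hS hSc act hact actS act1 actmul χ hχm hχ hfin
      (φ (-1)) (hφ (-1)) (φS (-1)) (fun a => comm a (-1)) C g gm ginv gsub gb
  set L : P → ℝ := fun p => Kingman.lo (fun n => f n p) with hL
  set L' : P → ℝ := fun p => Kingman.lo (fun n => g n p) with hL'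
  have Lm : Measurable L := Kingman.lo_meas fm
  have L'm : Measurable L' := Kingman.lo_meas gm
  have Linv : ∀ a, ∀ p ∈ S, L (act a p) = L p := by
    intro a p hp
    simp only [hL, finv _ a p hp]
  have L'inv : ∀ a, ∀ p ∈ S, L' (act a p) = L' p := by
    intro a p hp
    simp only [hL', ginv _ a p hp]
  have Lb : ∀ p ∈ S, |L p| ≤ 2 * C := fun p hp => Kingman.lo_abs fun n => fb n p hp
  have tL : ∀ᵐ p ∂μ, Tendsto (fun n : ℕ => f n p / n) atTop (𝓝 (L p)) := by
    filter_upwards [lim1] with p ⟨l, hl⟩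
    have : L p = l := hl.liminf_eq
    rwa [this]
  have tL' : ∀ᵐ p ∂μ, Tendsto (fun n : ℕ => g n p / n) atTop (𝓝 (L' p)) := by
    filter_upwards [lim2] with p ⟨l, hl⟩
    have : L' p = l := hl.liminf_eq
    rwa [this]
  -- invariance of the forward limit
  have Lle : ∀ p ∈ S, L p ≤ L (φ 1 p) := by
    intro p hp
    refine Kingman.lo_mono (fun n => fb n p hp) (fun n => fb n _ (φS 1 p hp)) 1 0 (f 1 p)
      fun n => ?_
    have := fsub 1 n p hp
    rw [add_comm 1 n, Nat.cast_one] at this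
    simp only [add_zero]
    linarith
  have Li : Integrable L ν :=
    Integrable.of_bound Lm.aestronglyMeasurable _ (haeν.mono fun p hp => Lb p hp)
  have Li1 : Integrable (fun p => L (φ 1 p)) ν :=
    Integrable.of_bound (Lm.comp (hφ 1).measurable).aestronglyMeasurable _
      (haeν.mono fun p hp => Lb _ (φS 1 p hp))
  have Leq1 : ∀ᵐ p ∂μ, L p = L (φ 1 p) := by
    refine ErgAux2.ae_eq_of_weight μ S hSc act hact χ hχm hχ L (fun p => L (φ 1 p)) Lm
      (Lm.comp (hφ 1).measurable) Linv (fun a p hp => ?_) ?_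
    · rw [comm a 1 p hp, Linv a _ (φS 1 p hp)]
    · refine (integral_eq_iff_of_ae_le Li Li1 (haeν.mono fun p hp => Lle p hp)).1 ?_
      exact (ErgAux.integral_weight_comp μ S hSc act hact act1 actmul χ hχm hχ hfin (φ 1) (hφ 1)
        (φS 1) (fun a => comm a 1) (2 * C) L Lm Lb Linv).symm
  have Leqn : ∀ n : ℕ, ∀ᵐ p ∂μ, L (φ (-(n : ℝ)) p) = L p := by
    intro n
    induction n with
    | zero =>
      filter_upwards [hae] with p hp
      simp [φ0 p hp]
    | succ n ih =>
      filter_upwards [hae, ih, (hφ (-((n + 1 : ℕ) : ℝ))).quasiMeasurePreserving.ae Leq1]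
        with p hp h1 h2
      rw [h2, ← φadd _ _ p hp, ← h1]
      congr 2
      push_cast
      ring
  -- the two integrals
  have bd : ∀ (u : ℕ → P → ℝ), (∀ n, ∀ p ∈ S, |u n p| ≤ C * (n + 1)) →
      ∀ n : ℕ, ∀ p ∈ S, |(|u n p / n - L p|)| ≤ 4 * C := by
    intro u hu n p hp
    rw [abs_abs]
    have h1 := Kingman.div_bdd (fun n => hu n p hp) n
    have h2 := Lb p hp
    have h3 := abs_sub (u n p / n) (L p)
    linarith
  have m1 : ∀ n : ℕ, Measurable fun p => |f n p / n - L p| := fun n =>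
    (((fm n).div_const _).sub Lm).abs
  have m2 : ∀ n : ℕ, Measurable fun p => |g n p / n - L p| := fun n =>
    (((gm n).div_const _).sub Lm).abs
  have t1 : Tendsto (fun n : ℕ => ∫ p, |f n p / n - L p| ∂ν) atTop (𝓝 (∫ _p, (0 : ℝ) ∂ν)) := by
    refine tendsto_integral_of_dominated_convergence (fun _ => 4 * C)
      (fun n => (m1 n).aestronglyMeasurable) (integrable_const _)
      (fun n => haeν.mono fun p hp => bd f fb n p hp) ?_
    filter_upwards [hac.ae_le tL] with p h1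
    have := (h1.sub_const (L p)).abs
    simpa using this
  have t2 : Tendsto (fun n : ℕ => ∫ p, |g n p / n - L p| ∂ν) atTop
      (𝓝 (∫ p, |L' p - L p| ∂ν)) := by
    refine tendsto_integral_of_dominated_convergence (fun _ => 4 * C)
      (fun n => (m2 n).aestronglyMeasurable) (integrable_const _)
      (fun n => haeν.mono fun p hp => bd g gb n p hp) ?_
    filter_upwards [hac.ae_le tL'] with p h1
    exact (h1.sub_const (L p)).abs
  have e12 : ∀ n : ℕ, ∫ p, |f n p / n - L p| ∂ν = ∫ p, |g n p / n - L p| ∂ν := by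
    intro n
    rw [← ErgAux.integral_weight_comp μ S hSc act hact act1 actmul χ hχm hχ hfin (φ (-(n : ℝ)))
      (hφ _) (φS _) (fun a => comm a _) (4 * C) (fun p => |f n p / n - L p|) (m1 n)
      (bd f fb n) (fun a p hp => by simp only [finv n a p hp, Linv a p hp])]
    refine integral_congr_ae ?_
    filter_upwards [hac.ae_le (Leqn n)] with p h1
    simp only [hg, h1]
  rw [integral_zero] at t1
  simp only [e12] at t1
  have e0 : ∫ p, |L' p - L p| ∂ν = 0 := tendsto_nhds_unique t2 t1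
  have L'b : ∀ p ∈ S, |L' p| ≤ 2 * C := fun p hp => Kingman.lo_abs fun n => gb n p hp
  have L'i : Integrable L' ν :=
    Integrable.of_bound L'm.aestronglyMeasurable _ (haeν.mono fun p hp => L'b p hp)
  have e1 : ∀ᵐ p ∂ν, L' p = L p := by
    have := (integral_eq_zero_iff_of_nonneg (fun p => abs_nonneg (L' p - L p))
      (L'i.sub Li).abs).1 e0
    filter_upwards [this] with p hp
    exact sub_eq_zero.1 (abs_eq_zero.1 hp)
  have e2 : ∀ᵐ p ∂μ, L' p = L p :=
    ErgAux2.ae_eq_of_weight μ S hSc act hact χ hχm hχ L' L L'm Lm L'inv Linv e1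
  filter_upwards [tL, tL', e2] with p h1 h2 h3
  exact ⟨L p, h1, h3 ▸ h2⟩

end Pool.Agent.MP_019006_gt

end
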