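import Pool.Agent.Mg.F019006.G209f96
import Pool.Agent.Mg.F019006.G9405fb

section

set_option autoImplicit false

namespace Pool.Agent.MP_c01216_gt

open Set Filter Topology

variable {F : E3 → ℝ} {γ v : ℝ → E3}

theorem Geo.cγ (g : Geo F γ v) : Continuous γ :=
  continuous_iff_continuousAt.2 fun t => (g.d1 t).continuousAt

theorem Geo.cv (g : Geo F γ v) : Continuous v :=
  continuous_iff_continuousAt.2 fun t => (g.d2 t).continuousAt

theorem Geo.dx (g : Geo F γ v) (i : Fin 3) (t : ℝ) : HasDerivAt (fun s => γ s i) (v t i) t :=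
  hasDerivAt_co (g.d1 t) i

theorem Geo.dv (g : Geo F γ v) (i : Fin 3) (t : ℝ) :
    HasDerivAt (fun s => v s i) (-(mu F (γ t) (v t) * gradient F (γ t) i)) t := by
  simpa using hasDerivAt_co (g.d2 t) i

theorem Geo.sq (g : Geo F γ v) (t : ℝ) : v t 0 ^ 2 + v t 1 ^ 2 + v t 2 ^ 2 = 1 := by
  rw [← norm_sq3, g.unit, one_pow]

theorem Geo.tan (h : Body F) (g : Geo F γ v) (t : ℝ) :
    gradient F (γ t) 0 * v t 0 + gradient F (γ t) 1 * v t 1 + gradient F (γ t) 2 * v t 2 = 0 := by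
  have h1 := h.hasDerivAt (g.d1 t)
  rw [funext g.on, fderiv_eq3] at h1
  exact h1.unique (hasDerivAt_const t 0)

theorem flow_mu_pos (h : Body F) {p w : E3} (hp : F p = 0) (hw : ‖w‖ = 1) : 0 < mu F p w :=
  div_pos (h.conv _ _ (norm_ne_zero_iff.1 (by rw [hw]; exact one_ne_zero)))
    (pow_pos (norm_pos_iff.2 (h.grad_ne hp)) 2)

theorem Geo.mu_pos (h : Body F) (g : Geo F γ v) (t : ℝ) : 0 < mu F (γ t) (v t) :=
  flow_mu_pos h (g.on t) (g.unit t)

theorem Geo.cmu (h : Body F) (g : Geo F γ v) : Continuous fun t => mu F (γ t) (v t) :=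
  (h.cont_hess.comp (g.cγ.prodMk g.cv)).div ((h.cont_grad.comp g.cγ).norm.pow 2)
    fun t => pow_ne_zero _ (norm_ne_zero_iff.2 (h.grad_ne (g.on t)))

theorem Geo.contDiff (h : Body F) (g : Geo F γ v) : ContDiff ℝ 2 γ := by
  have e1 : deriv γ = v := funext fun t => (g.d1 t).deriv
  have e2 : deriv v = fun t => -(mu F (γ t) (v t)) • gradient F (γ t) :=
    funext fun t => (g.d2 t).deriv
  rw [show (2 : WithTop ℕ∞) = 1 + 1 from rfl, contDiff_succ_iff_deriv, e1, contDiff_one_iff_deriv,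
    e2]
  exact ⟨fun t => (g.d1 t).differentiableAt, by simp, fun t => (g.d2 t).differentiableAt,
    (g.cmu h).neg.smul (h.cont_grad.comp g.cγ)⟩

theorem Geo.rev (g : Geo F γ v) (c : ℝ) : Geo F (fun t => γ (c - t)) fun t => -v (c - t) :=
  ⟨fun t => g.on _, fun t => by rw [norm_neg, g.unit], fun t => (g.d1 (c - t)).comp_const_sub c t,
    fun t => by simpa [mu] using ((g.d2 (c - t)).comp_const_sub c t).fun_neg⟩

theorem Geo.shift (g : Geo F γ v) (c : ℝ) : Geo F (fun t => γ (c + t)) fun t => v (c + t) :=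
  ⟨fun _ => g.on _, fun _ => g.unit _, fun t => (g.d1 (c + t)).comp_const_add c t,
    fun t => (g.d2 (c + t)).comp_const_add c t⟩

theorem flow_iso (L : E3 ≃ₗᵢ[ℝ] E3) (g : Geo (fun p => F (L p)) γ v) :
    Geo F (fun t => L (γ t)) fun t => L (v t) := by
  refine ⟨g.on, fun t => by rw [L.norm_map, g.unit],
    fun t => L.toContinuousLinearEquiv.hasFDerivAt.comp_hasDerivAt t (g.d1 t), fun t => ?_⟩
  have := L.toContinuousLinearEquiv.hasFDerivAt.comp_hasDerivAt t (g.d2 t)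
  simpa [mu, hess_iso, grad_iso, Function.comp_def] using this

theorem Geo.rx (h : Body F) (g : Geo F γ v) : Geo F (fun t => Rx (γ t)) fun t => Rx (v t) :=
  flow_iso Rx (by rwa [funext h.sx])

theorem Geo.rz (h : Body F) (g : Geo F γ v) : Geo F (fun t => Rz (γ t)) fun t => Rz (v t) :=
  flow_iso Rz (by rwa [funext h.sz])

theorem Geo.sw (g : Geo (fun p => F (Sw p)) γ v) :
    Geo F (fun t => Sw (γ t)) fun t => Sw (v t) := flow_iso Sw g

/-- The geodesic field. -/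
noncomputable def flowX (F : E3 → ℝ) (q : E3 × E3) : E3 × E3 :=
  (q.2, -(mu F q.1 q.2) • gradient F q.1)

theorem flow_compact (h : Body F) : IsCompact {q : E3 × E3 | F q.1 = 0 ∧ ‖q.2‖ = 1} := by
  have h1 : IsCompact {p | F p = 0} :=
    h.compact.of_isClosed_subset (isClosed_eq h.cont continuous_const) fun p hp => le_of_eq hp
  convert h1.prod (isCompact_sphere (0 : E3) 1) using 1
  ext q
  simp

theorem flow_hess2 (h : Body F) : ContDiff ℝ 2 (fderiv ℝ (fderiv ℝ F)) :=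
  (h.smooth.fderiv_right (m := 3) (by norm_num)).fderiv_right (by norm_num)

theorem flow_mu (h : Body F) :
    ContDiffOn ℝ 2 (fun q : E3 × E3 => mu F q.1 q.2) {q | gradient F q.1 ≠ 0} :=
  ((((flow_hess2 h).comp contDiff_fst).clm_apply contDiff_snd).clm_apply
    contDiff_snd).contDiffOn.div
    (((h.contDiff_grad.of_le (by norm_num)).comp contDiff_fst).norm_sq ℝ).contDiffOn
    fun _ hq => pow_ne_zero _ (norm_ne_zero_iff.2 hq)

theorem flow_X (h : Body F) : ContDiffOn ℝ 2 (flowX F) {q | gradient F q.1 ≠ 0} :=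
  contDiff_snd.contDiffOn.prodMk ((flow_mu h).neg.smul
    ((h.contDiff_grad.of_le (by norm_num)).comp contDiff_fst).contDiffOn)

theorem flow_cut (h : Body F) : ∃ (χ : E3 × E3 → ℝ) (K K₂ : NNReal),
    (∀ x, x ∉ {q : E3 × E3 | gradient F q.1 ≠ 0} → χ x = 0) ∧
    (∀ x : E3 × E3, F x.1 = 0 → ‖x.2‖ = 1 → χ x • flowX F x = flowX F x) ∧
    Differentiable ℝ (fun y => χ y • flowX F y) ∧ LipschitzWith K (fun y => χ y • flowX F y) ∧
    LipschitzWith K₂ (fderiv ℝ fun y => χ y • flowX F y) := by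
  obtain ⟨χ, K, K₂, -, h1, h2, h3⟩ := MP_019006_gt.FE.exists_cutoff
    (isOpen_ne_fun (h.cont_grad.comp continuous_fst) continuous_const) (flow_X h) (flow_compact h)
    fun q hq => h.grad_ne hq.1
  exact ⟨χ, K, K₂, h1, fun x a b => (h2 x ⟨a, b⟩).eq_of_nhds, h3⟩

theorem Geo.uniq (h : Body F) {γ' v' : ℝ → E3} (g : Geo F γ v) (g' : Geo F γ' v') {t₀ : ℝ}
    (e : γ t₀ = γ' t₀) (e' : v t₀ = v' t₀) (t : ℝ) : γ t = γ' t ∧ v t = v' t := by
  obtain ⟨χ, K, -, -, h2, -, hK, -⟩ := flow_cut h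
  have key : ∀ {γ v : ℝ → E3}, Geo F γ v → ∀ s,
      HasDerivAt (fun s => (γ s, v s)) (χ (γ s, v s) • flowX F (γ s, v s)) s := by
    intro γ v g s
    rw [h2 (γ s, v s) (g.on s) (g.unit s)]
    exact (g.d1 s).prodMk (g.d2 s)
  exact Prod.mk.inj (MP_019006_gt.FE.uniq_Ioo (f := fun _ y => χ y • flowX F y) (fun _ => hK)
    (a := min t t₀ - 1) (b := max t t₀ + 1) (t₀ := t₀)
    ⟨by linarith [min_le_right t t₀], by linarith [le_max_right t t₀]⟩
    (fun s _ => key g s) (fun s _ => key g' s) (Prod.ext e e')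
    (show t ∈ _ from ⟨by linarith [min_le_left t t₀], by linarith [le_max_left t t₀]⟩))

theorem Geo.sym_x (h : Body F) (g : Geo F γ v) (h0 : γ 0 0 = 0) (h1 : v 0 = pt 1 0 0) (t : ℝ) :
    γ (-t) = Rx (γ t) ∧ v (-t) = -Rx (v t) := by
  have := (g.rev 0).uniq h (g.rx h) (t₀ := 0) (ext3 (by simp [h0]) (by simp) (by simp))
    (ext3 (by simp [h1]) (by simp [h1]) (by simp [h1])) t
  simp only [zero_sub] at this
  exact ⟨this.1, neg_eq_iff_eq_neg.1 this.2⟩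

theorem Geo.plane (h : Body F) (g : Geo F γ v) {t₀ : ℝ} (h0 : γ t₀ 2 = 0) (h1 : v t₀ 2 = 0)
    (t : ℝ) : γ t 2 = 0 ∧ v t 2 = 0 := by
  have := g.uniq h (g.rz h) (t₀ := t₀) (ext3 rfl rfl (by simp [h0])) (ext3 rfl rfl (by simp [h1])) t
  have e1 : γ t 2 = -γ t 2 := congrArg (· 2) this.1
  have e2 : v t 2 = -v t 2 := congrArg (· 2) this.2
  constructor <;> linarith

theorem flow_anti (h : Body F) (g : Geo F γ v) {a b : ℝ} (i : Fin 3)
    (hx : ∀ t ∈ Ioo a b, 0 < gradient F (γ t) i) : StrictAntiOn (fun t => v t i) (Icc a b) := by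
  refine strictAntiOn_of_deriv_neg (convex_Icc a b) (continuous_co g.cv i).continuousOn
    fun t ht => ?_
  rw [interior_Icc] at ht
  rw [(g.dv i t).deriv]
  exact neg_neg_of_pos (mul_pos (g.mu_pos h t) (hx t ht))

theorem Geo.anti0 (h : Body F) (g : Geo F γ v) {a b : ℝ} (hx : ∀ t ∈ Ioo a b, 0 < γ t 0) :
    StrictAntiOn (fun t => v t 0) (Icc a b) := flow_anti h g 0 fun t ht => h.g0_pos (hx t ht)

theorem Geo.anti2 (h : Body F) (g : Geo F γ v) {a b : ℝ} (hz : ∀ t ∈ Ioo a b, 0 < γ t 2) :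
    StrictAntiOn (fun t => v t 2) (Icc a b) := flow_anti h g 2 fun t ht => h.g2_pos (hz t ht)

theorem flow_conc (g : Geo F γ v) {a b : ℝ} (i : Fin 3)
    (hx : StrictAntiOn (fun t => v t i) (Icc a b)) : ConcaveOn ℝ (Icc a b) fun t => γ t i := by
  refine AntitoneOn.concaveOn_of_deriv (convex_Icc a b) (continuous_co g.cγ i).continuousOn
    (fun t _ => (g.dx i t).differentiableAt.differentiableWithinAt) ?_
  rw [show (deriv fun t => γ t i) = fun t => v t i from funext fun t => (g.dx i t).deriv]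
  exact hx.antitoneOn.mono interior_subset

theorem Geo.concave0 (h : Body F) (g : Geo F γ v) {a b : ℝ} (hx : ∀ t ∈ Ioo a b, 0 < γ t 0) :
    ConcaveOn ℝ (Icc a b) fun t => γ t 0 := flow_conc g 0 (g.anti0 h hx)

theorem Geo.concave2 (h : Body F) (g : Geo F γ v) {a b : ℝ} (hz : ∀ t ∈ Ioo a b, 0 < γ t 2) :
    ConcaveOn ℝ (Icc a b) fun t => γ t 2 := flow_conc g 2 (g.anti2 h hz)

theorem flow_dd (h : Body F) {p w : ℝ → E3} {p' w' : E3} {t : ℝ} (hp : HasDerivAt p p' t)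
    (hw : HasDerivAt w w' t) : HasDerivAt (fun s => fderiv ℝ F (p s) (w s))
      (fderiv ℝ (fderiv ℝ F) (p t) p' (w t) + fderiv ℝ F (p t) w') t :=
  ((((h.smooth.fderiv_right (m := 3) (by norm_num)).differentiable
    (by norm_num)) (p t)).hasFDerivAt.comp_hasDerivAt t hp).clm_apply hw

theorem flow_kappa (h : Body F) :
    ∃ κ : ℝ, 0 < κ ∧ ∀ p, F p = 0 → 0 < p 0 → κ * p 0 ≤ gradient F p 0 := by
  obtain ⟨κ, hκ, hb⟩ := h.compact.exists_forall_le'
    (f := fun p => fderiv ℝ (fderiv ℝ F) p (pt 1 0 0) (pt 1 0 0)) (a := 0)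
    (h.cont_hess.comp (continuous_id.prodMk continuous_const)).continuousOn
    fun p _ => h.conv p _ fun e => one_ne_zero (congrArg (· 0) e)
  refine ⟨κ, hκ, fun p hp h0 => ?_⟩
  have hd : ∀ s, HasDerivAt (fun s => gradient F (pt s (p 1) (p 2)) 0)
      (fderiv ℝ (fderiv ℝ F) (pt s (p 1) (p 2)) (pt 1 0 0) (pt 1 0 0)) s := fun s => by
    have h1 : HasDerivAt (fun s => pt s (p 1) (p 2)) (pt 1 0 0) s := by
      have e : (fun s => pt s (p 1) (p 2)) = fun s => s • pt 1 0 0 + pt 0 (p 1) (p 2) :=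
        funext fun s => ext3 (by simp) (by simp) (by simp)
      rw [e]
      simpa using ((hasDerivAt_id' s).smul_const (pt 1 0 0)).add_const (pt 0 (p 1) (p 2))
    have h2 := flow_dd h h1 (hasDerivAt_const s (pt 1 0 0))
    simpa [fderiv_eq3 F] using h2
  have := (convex_Icc 0 (p 0)).mul_sub_le_image_sub_of_le_deriv
    (f := fun s => gradient F (pt s (p 1) (p 2)) 0) (C := κ)
    (fun s _ => (hd s).continuousAt.continuousWithinAt)
    (fun s _ => (hd s).differentiableAt.differentiableWithinAt) (fun s hs => by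
      rw [interior_Icc] at hs
      rw [(hd s).deriv]
      have := h.mono0 (p 1) (p 2) hs.1.le hs.2
      rw [pt_eta, hp] at this
      exact hb _ this.le) 0 ⟨le_rfl, h0.le⟩ (p 0) ⟨h0.le, le_rfl⟩ h0.le
  rwa [pt_eta, h.g0_zero (p := pt 0 (p 1) (p 2)) rfl, sub_zero, sub_zero] at this

theorem flow_sturm {x x' x'' : ℝ → ℝ} {w : ℝ} (hw : 0 < w) (h1 : ∀ t, HasDerivAt x (x' t) t)
    (h2 : ∀ t, HasDerivAt x' (x'' t) t) (h3 : ∀ t, 0 < x t → x'' t + w ^ 2 * x t ≤ 0) :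
    ∃ t ∈ Ioc 0 (2 * (Real.pi / w)), x t ≤ 0 := by
  have hπ : 0 < Real.pi / w := by positivity
  by_contra hn
  push Not at hn
  have hd : ∀ t, HasDerivAt (fun t => x' t * Real.sin (w * t) - w * (x t * Real.cos (w * t)))
      ((x'' t + w ^ 2 * x t) * Real.sin (w * t)) t := fun t => by
    have h0 := (hasDerivAt_id' t).const_mul w
    refine (((h2 t).fun_mul h0.sin).fun_sub (((h1 t).fun_mul h0.cos).const_mul w)).congr_deriv ?_
    ring
  have hle : Real.pi / w ≤ 2 * (Real.pi / w) := by linarith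
  have := monotoneOn_of_deriv_nonneg (convex_Icc (Real.pi / w) (2 * (Real.pi / w)))
    (fun s _ => (hd s).continuousAt.continuousWithinAt)
    (fun s _ => (hd s).differentiableAt.differentiableWithinAt) (fun s hs => by
      rw [interior_Icc] at hs
      rw [(hd s).deriv]
      have h5 : Real.pi < w * s := by rw [mul_comm]; exact (div_lt_iff₀ hw).1 hs.1
      have h6 : w * s < 2 * Real.pi := by
        rw [mul_comm, ← lt_div_iff₀ hw, mul_div_assoc]; exact hs.2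
      have h7 := Real.sin_nonneg_of_nonneg_of_le_pi (x := w * s - Real.pi) (by linarith)
        (by linarith)
      rw [Real.sin_sub_pi] at h7
      exact mul_nonneg_of_nonpos_of_nonpos (h3 s (hn s ⟨hπ.trans hs.1, hs.2.le⟩)) (by linarith))
    ⟨le_rfl, hle⟩ ⟨hle, le_rfl⟩ hle
  have e1 : w * (Real.pi / w) = Real.pi := by field_simp
  have e2 : w * (2 * (Real.pi / w)) = 2 * Real.pi := by field_simp
  simp only [e1, e2, Real.sin_pi, Real.cos_pi, Real.sin_two_pi, Real.cos_two_pi] at this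
  have h1 := mul_pos hw (hn _ ⟨hπ, hle⟩)
  have h2 := mul_pos hw (hn _ ⟨hπ.trans_le hle, le_rfl⟩)
  linarith

theorem flow_time (h : Body F) :
    ∃ T₀ : ℝ, 0 < T₀ ∧ ∀ γ v : ℝ → E3, Geo F γ v → ∃ t ∈ Ioc 0 T₀, γ t 0 ≤ 0 := by
  obtain ⟨κ, hκ, hb⟩ := flow_kappa h
  obtain ⟨m, hm, hc⟩ := (flow_compact h).exists_forall_le'
    ((flow_mu h).continuousOn.mono fun q hq => h.grad_ne hq.1) (a := 0)
    fun q hq => flow_mu_pos h hq.1 hq.2
  obtain ⟨w, hw, hw2⟩ : ∃ w : ℝ, 0 < w ∧ w ^ 2 = m * κ :=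
    ⟨√(m * κ), by positivity, Real.sq_sqrt (by positivity)⟩
  refine ⟨_, by positivity, fun γ v g => flow_sturm hw (g.dx 0) (g.dv 0) fun s h1 => ?_⟩
  have h3 : m ≤ mu F (γ s) (v s) := hc (γ s, v s) ⟨g.on s, g.unit s⟩
  have h4 := mul_le_mul h3 (hb _ (g.on s) h1) (mul_pos hκ h1).le (hm.le.trans h3)
  rw [hw2]
  linarith

theorem Body.exists_time (h : Body F) : ∃ T₀ : ℝ, 0 < T₀ ∧ ∀ γ v : ℝ → E3, Geo F γ v →
    (∃ t ∈ Ioc 0 T₀, γ t 0 ≤ 0) ∧ ∃ t ∈ Ioc 0 T₀, γ t 2 ≤ 0 := by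
  obtain ⟨T, hT, h1⟩ := flow_time h
  obtain ⟨T', -, h2⟩ := flow_time h.swap
  refine ⟨max T T', lt_max_of_lt_left hT, fun γ v g => ⟨?_, ?_⟩⟩
  · obtain ⟨t, ht, e⟩ := h1 γ v g
    exact ⟨t, ⟨ht.1, ht.2.trans (le_max_left _ _)⟩, e⟩
  · obtain ⟨t, ht, e⟩ := h2 _ _ (flow_iso (γ := γ) (v := v) Sw (by simpa using g))
    exact ⟨t, ⟨ht.1, ht.2.trans (le_max_right _ _)⟩, e⟩

theorem Body.exists_acc (h : Body F) : ∃ M : ℝ, 0 < M ∧ ∀ γ v : ℝ → E3, Geo F γ v → ∀ s t,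
    ‖γ t - γ s - (t - s) • v s‖ ≤ M * (t - s) ^ 2 := by
  obtain ⟨M, hM⟩ := (flow_compact h).exists_bound_of_continuousOn
    ((flow_X h).continuousOn.mono fun q hq => h.grad_ne hq.1).snd
  refine ⟨|M| + 1, by positivity, fun γ v g s t => ?_⟩
  have h1 : ∀ r, ‖v r - v s‖ ≤ (|M| + 1) * ‖r - s‖ := fun r =>
    Convex.norm_image_sub_le_of_norm_hasDerivWithin_le (fun x _ => (g.d2 x).hasDerivWithinAt)
      (fun x _ => (hM (γ x, v x) ⟨g.on x, g.unit x⟩).trans (by linarith [le_abs_self M]))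
      convex_univ (mem_univ s) (mem_univ r)
  have h2 := Convex.norm_image_sub_le_of_norm_hasDerivWithin_le (C := (|M| + 1) * ‖t - s‖)
    (f := fun r => γ r - r • v s) (f' := fun r => v r - v s) (s := uIcc s t)
    (fun x _ => by
      simpa using ((g.d1 x).fun_sub ((hasDerivAt_id' x).smul_const (v s))).hasDerivWithinAt)
    (fun x hx => (h1 x).trans (mul_le_mul_of_nonneg_left (abs_sub_left_of_mem_uIcc hx)
      (by positivity))) (convex_uIcc s t) left_mem_uIcc right_mem_uIcc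
  rw [mul_assoc, ← sq, Real.norm_eq_abs, sq_abs] at h2
  rwa [show γ t - γ s - (t - s) • v s = γ t - t • v s - (γ s - s • v s) by rw [sub_smul]; abel]

theorem Body.exists_flow (h : Body F) : ∃ Γ V : E3 × E3 → ℝ → E3,
    (Continuous fun q : (E3 × E3) × ℝ => Γ q.1 q.2) ∧
    (Continuous fun q : (E3 × E3) × ℝ => V q.1 q.2) ∧ (∀ q, Γ q 0 = q.1 ∧ V q 0 = q.2) ∧
    ∀ q : E3 × E3, F q.1 = 0 → fderiv ℝ F q.1 q.2 = 0 → ‖q.2‖ = 1 → Geo F (Γ q) (V q) := by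
  obtain ⟨χ, K, K₂, h1, h2, h3, hK, hK₂⟩ := flow_cut h
  obtain ⟨ψ, N, hψ⟩ := MP_019006_gt.FE.exists_gflow h3 hK hK₂
  have hc := hψ.cont.comp continuous_swap
  refine ⟨fun q t => (ψ t q).1, fun q t => (ψ t q).2, hc.fst, hc.snd,
    fun q => by simp [hψ.zero], fun q a b c => ?_⟩
  have hO : ∀ t, gradient F (ψ t q).1 ≠ 0 := fun t => hψ.stay h1 hK (h.grad_ne a) t
  have d1 : ∀ t, HasDerivAt (fun s => (ψ s q).1) (χ (ψ t q) • flowX F (ψ t q)).1 t := fun t =>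
    (ContinuousLinearMap.fst ℝ E3 E3).hasFDerivAt.comp_hasDerivAt t (hψ.deriv t q)
  have d2 : ∀ t, HasDerivAt (fun s => (ψ s q).2) (χ (ψ t q) • flowX F (ψ t q)).2 t := fun t =>
    (ContinuousLinearMap.snd ℝ E3 E3).hasFDerivAt.comp_hasDerivAt t (hψ.deriv t q)
  have hconst : ∀ {f : E3 × E3 → ℝ}, (∀ t, HasDerivAt (fun s => f (ψ s q)) 0 t) →
      ∀ t, f (ψ t q) = f q := fun {f} hf t => by
    have := is_const_of_deriv_eq_zero (fun t => (hf t).differentiableAt) (fun t => (hf t).deriv) t 0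
    rwa [hψ.zero] at this
  have hH : ∀ t, fderiv ℝ F (ψ t q).1 (ψ t q).2 = 0 := fun t => by
    refine (hconst (f := fun x => fderiv ℝ F x.1 x.2) (fun t => ?_) t).trans b
    convert flow_dd h (d1 t) (d2 t) using 1
    have := norm_ne_zero_iff.2 (hO t)
    simp only [flowX, Prod.smul_mk, map_smul, smul_apply, smul_eq_mul,
      fderiv_eq_inner F _ (gradient _ _), real_inner_self_eq_norm_sq, mu]
    field_simp
    ring
  have hF : ∀ t, F (ψ t q).1 = 0 := fun t => by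
    refine (hconst (f := fun x => F x.1) (fun t => ?_) t).trans a
    convert h.hasDerivAt (d1 t) using 1
    simp [flowX, hH]
  have hU : ∀ t, ‖(ψ t q).2‖ = 1 := fun t => by
    have := hconst (f := fun x => ‖x.2‖ ^ 2) (fun t => by
      convert (d2 t).norm_sq using 1
      have := hH t
      rw [fderiv_eq_inner, real_inner_comm] at this
      simp [flowX, inner_smul_right, this]) t
    rwa [pow_left_inj₀ (norm_nonneg _) (norm_nonneg _) two_ne_zero, c] at this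
  refine ⟨hF, hU, fun t => ?_, fun t => ?_⟩
  · have := d1 t
    rwa [h2 _ (hF t) (hU t)] at this
  · have := d2 t
    rwa [h2 _ (hF t) (hU t)] at this

end Pool.Agent.MP_c01216_gt

end

section

set_option autoImplicit false

namespace Pool.Agent.MP_c01216_gt

open Set Filter Topology

/-- `τ` inverts the decreasing function `h` on `[0,T]`. -/
structure Inv (h : ℝ → ℝ) (T : ℝ) (τ : ℝ → ℝ) : Prop where
  cont : Continuous τ
  anti : Antitone τ
  mem : ∀ z, τ z ∈ Icc 0 T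
  left : ∀ t ∈ Icc 0 T, τ (h t) = t
  right : ∀ z ∈ Icc (h T) (h 0), h (τ z) = z

theorem exists_inv {h : ℝ → ℝ} {T : ℝ} (hT : 0 < T) (hc : Continuous h)
    (ha : StrictAntiOn h (Icc 0 T)) : ∃ τ, Inv h T τ := by
  let c : ℝ → ℝ := fun t => max 0 (min t T)
  have hcm : ∀ t, c t ∈ Icc 0 T := fun t => ⟨le_max_left _ _, max_le hT.le (min_le_right _ _)⟩
  have hce : ∀ t ∈ Icc 0 T, c t = t := fun t ht => by
    simp only [c, min_eq_left ht.2, max_eq_right ht.1]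
  have hcc : Continuous c := by fun_prop
  have hmono : Monotone c := fun s t hst => max_le_max le_rfl (min_le_min hst le_rfl)
  let K : ℝ → ℝ := fun t => -h (c t) + (t - c t)
  have hK : StrictMono K := by
    intro s t hst
    have h1 : s - c s ≤ t - c t := by
      simp only [c, max_def, min_def]
      split_ifs <;> linarith
    rcases (hmono hst.le).eq_or_lt with e | e
    · simp only [K, e]
      linarith
    · have := ha (hcm s) (hcm t) e
      simp only [K]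
      linarith
  have hKc : Continuous K := by fun_prop
  have hs : Function.Surjective K := by
    refine hKc.surjective ?_ ?_
    · refine (tendsto_atTop_add_const_right _ (-h T - T) tendsto_id).congr' ?_
      filter_upwards [eventually_ge_atTop T] with t ht
      simp only [K, c, min_eq_right ht, max_eq_right hT.le, id]
      ring
    · refine (tendsto_atBot_add_const_right _ (-h 0) tendsto_id).congr' ?_
      filter_upwards [eventually_le_atBot 0] with t ht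
      simp only [K, c, max_eq_left ((min_le_left t T).trans ht), id]
      ring
  let e := hK.orderIsoOfSurjective K hs
  have he : ∀ t ∈ Icc 0 T, e.symm (-h t) = t := fun t ht => by
    rw [e.symm_apply_eq]
    change _ = K t
    simp only [K, hce t ht, sub_self, add_zero]
  refine ⟨fun z => c (e.symm (-z)), hcc.comp (e.symm.continuous.comp continuous_neg),
    fun z z' hz => hmono (e.symm.monotone (neg_le_neg hz)), fun z => hcm _,
    fun t ht => by rw [he t ht, hce t ht], fun z hz => ?_⟩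
  obtain ⟨t, ht, rfl⟩ := intermediate_value_Icc' hT.le hc.continuousOn hz
  rw [he t ht, hce t ht]

namespace Inv

variable {h τ : ℝ → ℝ} {T : ℝ}

theorem pos (I : Inv h T τ) : 0 ≤ T := (I.mem 0).1.trans (I.mem 0).2

theorem zero (I : Inv h T τ) {z : ℝ} (hz : h 0 ≤ z) : τ z = 0 :=
  le_antisymm ((I.anti hz).trans_eq (I.left 0 ⟨le_rfl, I.pos⟩)) (I.mem z).1

theorem last (I : Inv h T τ) {z : ℝ} (hz : z ≤ h T) : τ z = T :=
  le_antisymm (I.mem z).2 ((I.left T ⟨I.pos, le_rfl⟩).ge.trans (I.anti hz))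

theorem eq_of_mem (I : Inv h T τ) {z : ℝ} (h1 : 0 < τ z) (h2 : τ z < T) : h (τ z) = z :=
  I.right z ⟨le_of_not_ge fun e => h2.ne (I.last e), le_of_not_ge fun e => h1.ne' (I.zero e)⟩

theorem lt_of (I : Inv h T τ) {z t : ℝ} (ht : t ∈ Ioc 0 T) (hz : h t < z) : τ z < t := by
  have h1 : τ z ≤ t := (I.anti hz.le).trans_eq (I.left t ⟨ht.1.le, ht.2⟩)
  refine h1.lt_of_ne fun e => ?_
  by_cases h2 : h 0 ≤ z
  · exact ht.1.ne' (e.symm.trans (I.zero h2))
  by_cases h3 : h T ≤ z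
  · have := I.right z ⟨h3, le_of_not_ge h2⟩
    rw [e] at this
    exact hz.ne this
  · rw [I.last (le_of_not_ge h3)] at e
    exact h3 (e ▸ hz.le)

theorem gt_of (I : Inv h T τ) {z t : ℝ} (ht : t ∈ Ico 0 T) (hz : z < h t) : t < τ z := by
  have h1 : t ≤ τ z := (I.left t ⟨ht.1, ht.2.le⟩).ge.trans (I.anti hz.le)
  refine h1.lt_of_ne fun e => ?_
  by_cases h2 : z ≤ h T
  · exact ht.2.ne (e.trans (I.last h2))
  by_cases h3 : z ≤ h 0
  · have := I.right z ⟨le_of_not_ge h2, h3⟩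
    rw [← e] at this
    exact hz.ne' this
  · rw [I.zero (le_of_not_ge h3)] at e
    exact h3 (e ▸ hz.le)

theorem hasDerivAt (I : Inv h T τ) (ha : StrictAntiOn h (Icc 0 T)) {t h' : ℝ} (ht : t ∈ Ioo 0 T)
    (hd : HasDerivAt h h' t) (h0 : h' ≠ 0) : HasDerivAt τ h'⁻¹ (h t) := by
  have ht' := Ioo_subset_Icc_self ht
  refine HasDerivAt.of_local_left_inverse I.cont.continuousAt (by rwa [I.left t ht']) h0 ?_
  filter_upwards [Icc_mem_nhds (ha ht' ⟨I.pos, le_rfl⟩ ht.2) (ha ⟨le_rfl, I.pos⟩ ht' ht.1)] with z hz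
  exact I.right z hz

end Inv

variable {F : E3 → ℝ} {a v : ℝ → E3} {T y₂ y₁ : ℝ} {τ : ℝ → ℝ}

theorem Shot.anti (s : Shot F a v T) : StrictAntiOn (fun t => a t 2) (Icc 0 T) := by
  refine strictAntiOn_of_deriv_neg (convex_Icc _ _) (continuous_co s.geo.cγ 2).continuousOn
    fun t ht => ?_
  rw [interior_Icc] at ht
  rw [(s.geo.dx 2 t).deriv]
  exact s.vz t ⟨ht.1, ht.2.le⟩

theorem Shot.znn (s : Shot F a v T) {t : ℝ} (ht : t ∈ Icc 0 T) : 0 ≤ a t 2 := by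
  rcases ht.2.eq_or_lt with e | e
  · rw [e, s.zT]
  · exact (s.zpos t ⟨ht.1, e⟩).le

theorem Shot.xnn (s : Shot F a v T) {t : ℝ} (ht : t ∈ Icc 0 T) : 0 ≤ a t 0 := by
  rw [← closure_Ioo s.pos.ne] at ht
  exact closure_minimal (fun u hu => (s.xpos u hu).le)
    (isClosed_le continuous_const (continuous_co s.geo.cγ 0)) ht

theorem Shot.vznp (s : Shot F a v T) {t : ℝ} (ht : t ∈ Icc 0 T) : v t 2 ≤ 0 := by
  rcases ht.1.eq_or_lt with e | e
  · rw [← e, s.v0, pt_2]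
  · exact (s.vz t ⟨e, ht.2⟩).le

theorem Shot.exists_inv (s : Shot F a v T) : ∃ τ, Inv (fun t => a t 2) T τ :=
  MP_c01216_gt.exists_inv s.pos (continuous_co s.geo.cγ 2) s.anti

/-- The height of `p` above the arc `a` along the level curves of `z`. -/
noncomputable def side (a : ℝ → E3) (τ : ℝ → ℝ) (p : E3) : ℝ := p 1 - a (τ (p 2)) 1

theorem Shot.cont_side (s : Shot F a v T) (I : Inv (fun t => a t 2) T τ) :
    Continuous (side a τ) := by
  have := s.geo.cγ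
  have := I.cont
  unfold side
  fun_prop

theorem Shot.on_of_side (h : Body F) (s : Shot F a v T) (I : Inv (fun t => a t 2) T τ) {p : E3}
    (hp : F p = 0) (h0 : 0 ≤ p 0) (h2 : 0 ≤ p 2) (e : side a τ p = 0) :
    ∃ t ∈ Icc 0 T, a t = p := by
  have e' : a (τ (p 2)) 1 = p 1 := (sub_eq_zero.1 e).symm
  by_cases hz : p 2 ≤ a 0 2
  · exact ⟨_, I.mem _, h.eq_of_yz (s.geo.on _) hp (s.xnn (I.mem _)) h0 e'
      (I.right _ ⟨s.zT.trans_le h2, hz⟩)⟩
  · push Not at hz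
    rw [I.zero hz.le] at e'
    have h1 := h.mono2 0 (p 1) (s.znn ⟨le_rfl, s.pos.le⟩) hz
    have h3 : pt 0 (p 1) (a 0 2) = a 0 := ext3 s.x0.symm e'.symm rfl
    rw [h3, s.geo.on] at h1
    rcases h0.eq_or_lt with e0 | e0
    · have h4 : pt 0 (p 1) (p 2) = p := ext3 e0 rfl rfl
      rw [h4, hp] at h1
      exact absurd h1 (lt_irrefl _)
    · have h4 := h.mono0 (p 1) (p 2) le_rfl e0
      rw [pt_eta, hp] at h4
      exact absurd (h1.trans h4) (lt_irrefl _)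

theorem Shot.side_of_below (I : Inv (fun t => a t 2) T τ) {p : E3} (hb : Below a T p) :
    side a τ p < 0 := by
  rcases hb with ⟨t, ht, e, h1⟩ | ⟨h1, h2⟩
  · rw [side, ← e, I.left t ht]
    linarith
  · rw [side, I.zero h1.le]
    linarith

theorem Shot.below_of_side (s : Shot F a v T) (I : Inv (fun t => a t 2) T τ) {p : E3}
    (h2 : 0 ≤ p 2) (hb : side a τ p < 0) : Below a T p := by
  by_cases hz : p 2 ≤ a 0 2
  · exact Or.inl ⟨_, I.mem _, I.right _ ⟨s.zT.trans_le h2, hz⟩, sub_neg.1 hb⟩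
  · push Not at hz
    rw [side, I.zero hz.le] at hb
    exact Or.inr ⟨hz, sub_neg.1 hb⟩

theorem Shot.side_neg (h : Body F) (s : Shot F a v T) (I : Inv (fun t => a t 2) T τ) {p : E3}
    (hp : F p = 0) (h0 : p 0 = 0) (h2 : 0 < p 2) (h1 : p 1 < a 0 1) : side a τ p < 0 := by
  by_cases hz : a 0 2 ≤ p 2
  · rw [side, I.zero hz]
    linarith
  push Not at hz
  have t1 : 0 < τ (p 2) := I.gt_of ⟨le_rfl, s.pos⟩ hz
  have t2 : τ (p 2) < T := I.lt_of ⟨s.pos, le_rfl⟩ (s.zT.trans_lt h2)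
  have e : a (τ (p 2)) 2 = p 2 := I.eq_of_mem t1 t2
  by_contra hc
  have h3 : a (τ (p 2)) 1 ≤ p 1 := sub_nonneg.1 (not_lt.1 hc)
  have h4 := h.mono0 (a (τ (p 2)) 1) (a (τ (p 2)) 2) le_rfl (s.xpos _ ⟨t1, t2⟩)
  rw [pt_eta, s.geo.on, e] at h4
  have h5 := h.mono2 (a 0 0) (a 0 1) h2.le hz
  rw [pt_eta, s.geo.on, s.x0] at h5
  obtain ⟨c, d, hc0, hd0, hcd, e'⟩ := (Convex.mem_Icc (h3.trans h1.le)).1 ⟨h3, h1.le⟩
  have h6 := h.convexOn.le_on_segment' (mem_univ (pt 0 (a (τ (p 2)) 1) (p 2)))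
    (mem_univ (pt 0 (a 0 1) (p 2))) hc0 hd0 hcd
  have h7 : c • pt 0 (a (τ (p 2)) 1) (p 2) + d • pt 0 (a 0 1) (p 2) = p :=
    ext3 (by simp [h0]) (by simpa using e') (by simp [← add_mul, hcd])
  rw [h7, hp] at h6
  exact absurd (h6.trans_lt (max_lt h4 h5)) (lt_irrefl _)

theorem Arc.side_zero (A : Arc F y₂ a v T) (I : Inv (fun t => a t 2) T τ) {p : E3}
    (h2 : p 2 = 0) : side a τ p = p 1 - y₂ := by
  rw [side, I.last (h2.trans_le A.zT.ge), A.stop, pt_1]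

theorem Arc.v1 (h : Body F) (hp : Poles F y₂ y₁) (A : Arc F y₂ a v T) : v T 1 = 0 := by
  have h1 := A.geo.tan h T
  rw [A.stop, h.g0_zero (pt_0 _ _ _), h.g2_zero (pt_2 _ _ _)] at h1
  have := hp.gbot
  exact (mul_eq_zero.1 (by linarith : gradient F (pt 0 y₂ 0) 1 * v T 1 = 0)).resolve_left this.ne

theorem Arc.near (h : Body F) (hp : Poles F y₂ y₁) (A : Arc F y₂ a v T) :
    ∀ᶠ t in 𝓝[<] T, a t 0 < a t 2 := by
  have h1 := A.geo.sq T
  rw [A.v1 h hp] at h1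
  have h2 := A.vz T ⟨A.pos, le_rfl⟩
  have h3 : v T 2 - v T 0 < 0 := by nlinarith [A.vneg, A.small]
  have h4 := ((A.geo.dx 2 T).sub (A.geo.dx 0 T)).tendsto_slope
  have h5 := (h4.mono_left (nhdsLT_le_nhdsNE T)).eventually_lt_const h3
  filter_upwards [h5, self_mem_nhdsWithin] with t ht ht'
  rw [slope_def_field, Pi.sub_apply, Pi.sub_apply, A.stop, pt_0, pt_2, sub_zero, sub_zero,
    div_neg_iff] at ht
  rcases ht with ht | ht
  · linarith [ht.1]
  · exact absurd (sub_pos.1 ht.2) (not_lt.2 (le_of_lt ht'))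

end Pool.Agent.MP_c01216_gt

end

section

set_option autoImplicit false

namespace Pool.Agent.MP_c01216_gt

open Set Filter Topology

variable {F : E3 → ℝ} {a v b w : ℝ → E3} {T S y₂ y₁ lo hi : ℝ} {τ : ℝ → ℝ}

theorem cross_nonpar (h : Body F) (A : Arc F y₂ a v T) (B : Shot (fun p => F (Sw p)) b w S)
    {s t : ℝ} (hs : s ∈ Icc 0 T) (ht : t ∈ Icc 0 S) (e : a s = Sw (b t)) :
    |inner ℝ (v s) (Sw (w t))| < 1 := by
  have gb := B.geo.sw
  have hend : ∀ u ∈ Ioc 0 t, b u 2 = 0 → u = S := fun u hu h0 =>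
    by_contra fun hne => (B.zpos u ⟨hu.1.le, (hu.2.trans ht.2).lt_of_ne hne⟩).ne' h0
  have hS := B.vz S ⟨B.pos, le_rfl⟩
  have hle := abs_real_inner_le_norm (v s) (Sw (w t))
  rw [A.geo.unit, gb.unit, mul_one] at hle
  refine hle.lt_of_ne fun e1 => ?_
  rcases (abs_eq zero_le_one).1 e1 with e2 | e2
  · have e3 := (inner_eq_one_iff_of_norm_eq_one (A.geo.unit s) (gb.unit t)).1 e2
    have key := fun r => (A.geo.shift s).uniq h (gb.shift t) (t₀ := 0) (by simpa using e)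
      (by simpa using e3) r
    by_cases hst : t ≤ s
    · have h1 := congrArg (fun p : E3 => p 2) (key (-t)).2
      simp only [add_neg_cancel, B.v0, Sw_2, pt_0] at h1
      have := A.vznp (t := s + -t) ⟨by linarith, by linarith [hs.2, ht.1]⟩
      linarith
    · push Not at hst
      have h1 := congrArg (fun p : E3 => p 0) (key (-s)).1
      have h2 := congrArg (fun p : E3 => p 0) (key (-s)).2
      simp only [add_neg_cancel, A.x0, A.v0, Sw_0, pt_0] at h1 h2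
      rw [hend _ ⟨by linarith, by linarith [hs.1]⟩ h1.symm] at h2
      linarith
  · have e3 := (inner_eq_one_iff_of_norm_eq_one (𝕜 := ℝ) (x := -v s) (y := Sw (w t))
      (by rw [norm_neg, A.geo.unit]) (gb.unit t)).1 (by rw [inner_neg_left, e2, neg_neg])
    have key := fun r => (A.geo.rev s).uniq h (gb.shift t) (t₀ := 0) (by simpa using e)
      (by simpa using e3) r
    by_cases hst : s + t ≤ T
    · have h1 := congrArg (fun p : E3 => p 2) (key (-t)).1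
      have h2 := congrArg (fun p : E3 => p 0) (key (-t)).1
      simp only [add_neg_cancel, sub_neg_eq_add, Sw_2, Sw_0, B.x0] at h1 h2
      rcases hst.eq_or_lt with e4 | e4
      · rw [e4, A.stop, pt_0] at h2
        exact (B.zpos 0 ⟨le_rfl, B.pos⟩).ne h2
      · exact (A.zpos _ ⟨by linarith [hs.1, ht.1], e4⟩).ne' h1
    · push Not at hst
      have h1 := congrArg (fun p : E3 => p 0) (key (s - T)).1
      have h2 := congrArg (fun p : E3 => p 0) (key (s - T)).2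
      simp only [sub_sub_cancel, A.stop, Sw_0, pt_0, PiLp.neg_apply] at h1 h2
      rw [hend _ ⟨by linarith, by linarith [hs.2]⟩ h1.symm] at h2
      linarith [A.vneg]

theorem cross_deriv (h : Body F) (A : Arc F y₂ a v T) (I : Inv (fun t => a t 2) T τ)
    (B : Shot (fun p => F (Sw p)) b w S) {s t : ℝ} (hs : s ∈ Ioo 0 T) (ht : t ∈ Icc 0 S)
    (e : a s = Sw (b t)) : ∃ D, D ≠ 0 ∧ HasDerivAt (fun u => side a τ (Sw (b u))) D t := by
  have gb := B.geo.sw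
  have hv := (A.vz s ⟨hs.1, hs.2.le⟩).ne
  have h1 := I.hasDerivAt A.anti hs (A.geo.dx 2 s) hv
  have e2 : a s 2 = Sw (b t) 2 := by rw [e]
  have hτ : τ (Sw (b t) 2) = s := by rw [← e2, I.left s (Ioo_subset_Icc_self hs)]
  rw [e2] at h1
  have h2 := h1.comp t (gb.dx 2 t)
  have h3 := (A.geo.dx 1 s)
  rw [← hτ] at h3
  have h4 := (gb.dx 1 t).sub (h3.comp t h2)
  rw [hτ] at h4
  refine ⟨_, fun h0 => ?_, h4⟩
  have t1 := A.geo.tan h s
  have t2 := gb.tan h t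
  rw [← e] at t2
  have g0 := h.g0_pos (A.xpos s hs)
  have hn := cross_nonpar h A B (Ioo_subset_Icc_self hs) ht e
  have hu := gb.unit t
  generalize Sw (w t) = W at h0 t2 hn hu
  have e1 : W 1 = W 2 / v s 2 * v s 1 := by linear_combination h0
  have e3 : W 2 = W 2 / v s 2 * v s 2 := by field_simp
  generalize W 2 / v s 2 = c at e1 e3
  have e0 : W 0 = c * v s 0 := by
    rw [e1, e3] at t2
    exact mul_left_cancel₀ g0.ne' (by linear_combination t2 - c * t1)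
  have e4 : W = c • v s := ext3 e0 e1 e3
  rw [e4, norm_smul, A.geo.unit, mul_one, Real.norm_eq_abs] at hu
  rw [e4, inner_smul_right, real_inner_self_eq_norm_sq, A.geo.unit, one_pow, mul_one, hu] at hn
  exact lt_irrefl _ hn

theorem cross_sign {f : ℝ → ℝ} {D t : ℝ} (hf : HasDerivAt f D t) (hD : D ≠ 0) (h0 : f t = 0)
    {U : Set ℝ} (hU : U ∈ 𝓝 t) : ∃ u ∈ U, ∃ u' ∈ U, f u < 0 ∧ 0 < f u' := by
  have key : ∀ {g : ℝ → ℝ} {D : ℝ}, HasDerivAt g D t → 0 < D → g t = 0 →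
      ∃ u ∈ U, ∃ u' ∈ U, g u < 0 ∧ 0 < g u' := by
    intro g D hg hD h0
    have h1 := hg.tendsto_slope.eventually_const_lt hD
    obtain ⟨u, h2, h3, h4⟩ := ((h1.filter_mono (nhdsLT_le_nhdsNE t)).and
      ((show ∀ᶠ u in 𝓝[<] t, u ∈ U from mem_nhdsWithin_of_mem_nhds hU).and
        self_mem_nhdsWithin)).exists
    obtain ⟨u', h5, h6, h7⟩ := ((h1.filter_mono (nhdsGT_le_nhdsNE t)).and
      ((show ∀ᶠ u in 𝓝[>] t, u ∈ U from mem_nhdsWithin_of_mem_nhds hU).and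
        self_mem_nhdsWithin)).exists
    rw [slope_def_field, h0, sub_zero] at h2 h5
    refine ⟨u, h3, u', h6, ?_, (div_pos_iff_of_pos_right (sub_pos.2 h7)).1 h5⟩
    by_contra hc
    exact absurd h2 (not_lt.2 (div_nonpos_of_nonneg_of_nonpos (not_lt.1 hc) (sub_nonpos.2 h4.le)))
  rcases hD.lt_or_gt with h | h
  · obtain ⟨u, h1, u', h2, h3, h4⟩ := key hf.neg (neg_pos.2 h) (by simp [h0])
    exact ⟨u', h2, u, h1, neg_pos.1 h4, neg_lt_zero.1 h3⟩
  · exact key hf h h0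

theorem cross_pole (h : Body F) (hp : Poles F y₂ y₁) (A : Arc F y₂ a v T)
    (I : Inv (fun t => a t 2) T τ) (B : Arc (fun p => F (Sw p)) y₂ b w S) :
    ∀ᶠ t in 𝓝[<] S, 0 < side a τ (Sw (b t)) := by
  have h1 : Tendsto (fun t => τ (b t 0)) (𝓝[<] S) (𝓝[<] T) := by
    refine tendsto_nhdsWithin_iff.2 ⟨?_, ?_⟩
    · have := (I.cont.comp (continuous_co B.geo.cγ 0)).tendsto S
      simp only [Function.comp, B.stop, pt_0, I.last A.zT.ge] at this
      exact this.mono_left nhdsWithin_le_nhds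
    · filter_upwards [Ioo_mem_nhdsLT B.pos] with t ht
      exact I.lt_of ⟨A.pos, le_rfl⟩ (A.zT.trans_lt (B.xpos t ht))
  have h2 : ∀ᶠ s in 𝓝[<] T, gradient F (a s) 1 < 0 := by
    have := (continuous_co (h.cont_grad.comp A.geo.cγ) 1).tendsto T
    simp only [Function.comp, A.stop] at this
    exact (this.mono_left nhdsWithin_le_nhds).eventually_lt_const hp.gbot
  filter_upwards [B.near h.swap hp.swap, h1.eventually (A.near h hp), h1.eventually h2,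
    h1.eventually (Ioo_mem_nhdsLT A.pos)] with t h3 h4 h5 h6
  have e : a (τ (b t 0)) 2 = b t 0 := I.eq_of_mem h6.1 h6.2
  have h7 := h.supp (A.geo.on (τ (b t 0))) (B.geo.on t).le fun e' => by
    have := congrArg (fun p : E3 => p 0) e'
    simp only [Sw_0] at this
    linarith
  have h8 := h.g0_pos (A.xpos _ h6)
  simp only [Sw_0, Sw_1, Sw_2, e, sub_self, mul_zero, add_zero] at h7
  simp only [side, Sw_1, Sw_2]
  nlinarith [mul_pos h8 (show 0 < b t 2 - a (τ (b t 0)) 0 by linarith)]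

variable {α V : ℝ → ℝ → E3} {T' : ℝ → ℝ}

theorem Fam.extend (B : Fam F y₂ y₁ α V T' lo hi) :
    ∃ U : ℝ → ℝ, Continuous U ∧ (∀ y ∈ Icc lo hi, U y = T' y) ∧ ∃ C, ∀ y, U y ≤ C := by
  have hm : ∀ y, max lo (min y hi) ∈ Icc lo hi := fun y =>
    ⟨le_max_left _ _, max_le B.lt.le (min_le_right _ _)⟩
  obtain ⟨C, hC⟩ := isCompact_Icc.bddAbove_image B.cT
  exact ⟨fun y => T' (max lo (min y hi)), B.cT.comp_continuous (by fun_prop) hm, fun y hy => by
    simp only [min_eq_left hy.2, max_eq_right hy.1], C, fun y => hC ⟨_, hm y, rfl⟩⟩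

theorem cross_gap (h : Body F) (A : Arc F y₂ a v T)
    (B : Fam (fun p => F (Sw p)) y₂ y₁ α V T' lo hi) :
    ∃ δ > 0, ∀ y ∈ Icc lo hi, ∀ t₁ ∈ Icc 0 (T' y), ∀ s₁ ∈ Icc 0 T, ∀ t₂ s₂, a s₁ = Sw (α y t₁) →
      a s₂ = Sw (α y t₂) → t₁ ≠ t₂ → δ ≤ (t₂ - t₁) ^ 2 + (s₂ - s₁) ^ 2 := by
  obtain ⟨U, hU, hUe, C, hC⟩ := B.extend
  obtain ⟨M, hM, hacc⟩ := h.exists_acc
  have c1 := B.cα
  have c2 := B.cV
  have c3 := A.geo.cγ
  have c4 := A.geo.cv
  have k1 : Continuous fun q : ℝ × ℝ × ℝ => Sw (α q.1 q.2.1) :=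
    Sw.continuous.comp (c1.comp (f := fun q : ℝ × ℝ × ℝ => (q.1, q.2.1)) (by fun_prop))
  have k2 : Continuous fun q : ℝ × ℝ × ℝ => Sw (V q.1 q.2.1) :=
    Sw.continuous.comp (c2.comp (f := fun q : ℝ × ℝ × ℝ => (q.1, q.2.1)) (by fun_prop))
  have k3 : Continuous fun q : ℝ × ℝ × ℝ => v q.2.2 := by fun_prop
  have k4 : Continuous fun q : ℝ × ℝ × ℝ => 1 - |inner ℝ (v q.2.2) (Sw (V q.1 q.2.1))| :=
    continuous_const.sub (k3.inner k2).abs
  have hK : IsCompact ((Icc lo hi ×ˢ Icc 0 C ×ˢ Icc 0 T) ∩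
      ({q : ℝ × ℝ × ℝ | q.2.1 ≤ U q.1} ∩ {q | a q.2.2 = Sw (α q.1 q.2.1)})) :=
    (isCompact_Icc.prod (isCompact_Icc.prod isCompact_Icc)).inter_right
      ((isClosed_le (by fun_prop) (by fun_prop)).inter (isClosed_eq (by fun_prop) k1))
  obtain ⟨η, hη, h1⟩ := hK.exists_forall_le' (a := 0) k4.continuousOn
    fun q hq => sub_pos.2 (cross_nonpar h A (B.shot _ hq.1.1) hq.1.2.2
      ⟨hq.1.2.1.1, le_of_le_of_eq hq.2.1 (hUe _ hq.1.1)⟩ hq.2.2)
  refine ⟨η / M ^ 2, by positivity, fun y hy t₁ ht₁ s₁ hs₁ t₂ s₂ e₁ e₂ hne => ?_⟩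
  have h2 := h1 (y, t₁, s₁) ⟨⟨hy, ⟨ht₁.1, (ht₁.2.trans_eq (hUe y hy).symm).trans (hC y)⟩, hs₁⟩,
    ht₁.2.trans_eq (hUe y hy).symm, e₁⟩
  have gb := (B.shot y hy).geo.sw
  have h3 := hacc _ _ A.geo s₁ s₂
  have h4 := hacc _ _ gb t₁ t₂
  have u1 := A.geo.unit s₁
  have u2 := gb.unit t₁
  simp only [← e₁, ← e₂] at h2 h4
  generalize Sw (V y t₁) = W at h2 h4 u2
  have h5 : ‖(t₂ - t₁) • W - (s₂ - s₁) • v s₁‖ ≤ M * ((t₂ - t₁) ^ 2 + (s₂ - s₁) ^ 2) := by
    have := norm_sub_le (a s₂ - a s₁ - (s₂ - s₁) • v s₁) (a s₂ - a s₁ - (t₂ - t₁) • W)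
    rw [sub_sub_sub_cancel_left] at this
    linarith
  have h6 := pow_le_pow_left₀ (norm_nonneg _) h5 2
  rw [norm_sub_sq_real, norm_smul, norm_smul, u1, u2, inner_smul_left, inner_smul_right,
    real_inner_comm] at h6
  simp only [mul_one, Real.norm_eq_abs, sq_abs, conj_trivial] at h6
  have hr : 0 < (t₂ - t₁) ^ 2 + (s₂ - s₁) ^ 2 :=
    add_pos_of_pos_of_nonneg (pow_pos (abs_pos.2 (sub_ne_zero.2 hne.symm)) 2 |>.trans_eq
      (sq_abs _)) (sq_nonneg _)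
  generalize t₂ - t₁ = x at h6 hr ⊢
  generalize s₂ - s₁ = z at h6 hr ⊢
  generalize inner ℝ (v s₁) W = c at h2 h6
  have h7 := abs_le.1 (show |c| ≤ 1 - η by linarith)
  have h8 : η * (x ^ 2 + z ^ 2) ≤ M ^ 2 * (x ^ 2 + z ^ 2) * (x ^ 2 + z ^ 2) := by
    nlinarith [mul_nonneg (sub_nonneg.2 h7.2) (sq_nonneg (x + z)),
      mul_nonneg (sub_nonneg.2 h7.1) (sq_nonneg (x - z))]
  rw [div_le_iff₀ (by positivity), mul_comm]
  exact le_of_mul_le_mul_right h8 hr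

theorem cross_persist (h : Body F) (hp : Poles F y₂ y₁) (A : Arc F y₂ a v T)
    (I : Inv (fun t => a t 2) T τ) (B : Fam (fun p => F (Sw p)) y₂ y₁ α V T' lo hi) {f y : ℝ}
    (hf : lo ≤ f) (hy : y ∈ Ioc f hi) (hlt : ∀ u ∈ Ioc f hi, α u (T' u) 1 < a 0 1) {s t : ℝ}
    (hs : s ∈ Icc 0 T) (ht : t ∈ Icc 0 (T' y)) (e : a s = Sw (α y t)) {η : ℝ} (hη : 0 < η) :
    ∀ᶠ u in 𝓝[<] y, ∃ t' ∈ Icc 0 (T' u), ∃ s' ∈ Icc 0 T, |t' - t| < η ∧ a s' = Sw (α u t') := by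
  obtain ⟨U, hU, hUe, -⟩ := B.extend
  have hy' : y ∈ Icc lo hi := ⟨hf.trans hy.1.le, hy.2⟩
  have S := B.shot y hy'
  have hG : Continuous fun q : ℝ × ℝ => side a τ (Sw (α q.1 q.2)) :=
    (A.cont_side I).comp (Sw.continuous.comp B.cα)
  have hG1 : ∀ t, Tendsto (fun u => side a τ (Sw (α u t))) (𝓝[<] y) (𝓝 (side a τ (Sw (α y t)))) :=
    fun t => ((hG.comp (Continuous.prodMk_left t)).tendsto y).mono_left nhdsWithin_le_nhds
  have hU1 : Tendsto U (𝓝[<] y) (𝓝 (T' y)) :=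
    hUe y hy' ▸ (hU.tendsto y).mono_left nhdsWithin_le_nhds
  have fin : ∀ u ∈ Ioo f y, ∀ t₁ ∈ Icc 0 (T' u), ∀ t₂ ∈ Icc 0 (T' u), |t₁ - t| < η →
      |t₂ - t| < η → side a τ (Sw (α u t₁)) < 0 → 0 < side a τ (Sw (α u t₂)) →
      ∃ t' ∈ Icc 0 (T' u), ∃ s' ∈ Icc 0 T, |t' - t| < η ∧ a s' = Sw (α u t') := by
    intro u hu t₁ h1 t₂ h2 h3 h4 h5 h6
    have S' := B.shot u ⟨hf.trans hu.1.le, hu.2.le.trans hy.2⟩
    obtain ⟨t', h7, h8⟩ := intermediate_value_uIcc (a := t₁) (b := t₂)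
      (hG.comp (Continuous.prodMk_right u)).continuousOn (mem_uIcc_of_le h5.le h6.le)
    have h9 := uIcc_subset_Icc h1 h2 h7
    obtain ⟨s', h10, h11⟩ := A.on_of_side h I (S'.geo.on t') (S'.znn h9) (S'.xnn h9) h8
    refine ⟨t', h9, s', h10, ?_, h11⟩
    rw [abs_lt] at h3 h4 ⊢
    rcases mem_uIcc.1 h7 with h12 | h12 <;> constructor <;> linarith [h12.1, h12.2]
  rcases ht.2.eq_or_lt with e1 | e1
  · have e2 : a s 0 = 0 := by rw [e, Sw_0, e1, S.zT]
    have e3 : s = T := by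
      by_contra hne
      rcases hs.1.eq_or_lt with e4 | e4
      · have := hlt y hy
        rw [e4, e, e1, Sw_1] at this
        exact lt_irrefl _ this
      · exact (A.xpos s ⟨e4, hs.2.lt_of_ne hne⟩).ne' e2
    have e4 : y = hi := by
      by_contra hne
      have := B.valid y ⟨hf.trans_lt hy.1, hy.2.lt_of_ne hne⟩
      rw [← e1, ← Sw_2, ← e, e3, A.zT] at this
      exact lt_irrefl _ this
    subst e4
    obtain ⟨t₂, h1, h2⟩ := ((cross_pole h hp A I B.arc).and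
      (Ioo_mem_nhdsLT (max_lt S.pos (sub_lt_self (T' y) hη)))).exists
    rw [max_lt_iff] at h2
    filter_upwards [(hG1 t₂).eventually_const_lt h1, hU1.eventually_const_lt h2.2,
      hU1.eventually_lt_const (lt_add_of_pos_right _ hη), Ioo_mem_nhdsLT hy.1] with u h3 h4 h5 h6
    have hu : u ∈ Ioo lo y := ⟨hf.trans_lt h6.1, h6.2⟩
    have S' := B.shot u (Ioo_subset_Icc_self hu)
    rw [hUe u (Ioo_subset_Icc_self hu)] at h4 h5
    refine fin u h6 _ ⟨S'.pos.le, le_rfl⟩ t₂ ⟨h2.1.1.le, h4.le⟩ ?_ ?_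
      (A.side_neg h I (S'.geo.on _) S'.zT (B.valid u hu) (hlt u ⟨h6.1, h6.2.le⟩)) h3
    · rw [abs_lt, e1]
      constructor <;> linarith [h2.1.2]
    · rw [abs_lt, e1]
      constructor <;> linarith [h2.1.2, h2.2]
  · have e2 : 0 < a s 0 := by
      rw [e, Sw_0]
      exact S.zpos t ⟨ht.1, e1⟩
    have s1 : 0 < s := hs.1.lt_of_ne fun e3 => by
      rw [← e3, A.x0] at e2
      exact lt_irrefl _ e2
    have s2 : s < T := hs.2.lt_of_ne fun e3 => by
      rw [e3, A.stop, pt_0] at e2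
      exact lt_irrefl _ e2
    have t1 : 0 < t := ht.1.lt_of_ne fun e3 => by
      have := A.zpos s ⟨hs.1, s2⟩
      rw [e, Sw_2, ← e3, S.x0] at this
      exact lt_irrefl _ this
    obtain ⟨D, hD, h1⟩ := cross_deriv h A I S ⟨s1, s2⟩ ht e
    obtain ⟨t₁, h2, t₂, h3, h4, h5⟩ := cross_sign h1 hD (by
      rw [← e, side, I.left s hs, sub_self])
      (inter_mem (Ioo_mem_nhds t1 e1) (Metric.ball_mem_nhds t hη))
    filter_upwards [(hG1 t₁).eventually_lt_const h4, (hG1 t₂).eventually_const_lt h5,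
      hU1.eventually_const_lt h2.1.2, hU1.eventually_const_lt h3.1.2,
      Ioo_mem_nhdsLT hy.1] with u h6 h7 h8 h9 h10
    rw [hUe u ⟨hf.trans h10.1.le, h10.2.le.trans hy.2⟩] at h8 h9
    exact fin u h10 t₁ ⟨h2.1.1.le, h8.le⟩ t₂ ⟨h3.1.1.le, h9.le⟩ h2.2 h3.2 h6 h7

theorem cross (h : Body F) (hp : Poles F y₂ y₁) (A : Arc F y₂ a v T)
    (B : Fam (fun p => F (Sw p)) y₂ y₁ α V T' lo hi) {s t : ℝ} (hs : s ∈ Icc 0 T)
    (ht : t ∈ Icc 0 (T' hi)) (e : a s = Sw (α hi t)) : t = T' hi := by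
  by_contra hne
  obtain ⟨τ, I⟩ := A.exists_inv
  obtain ⟨U, hU, hUe, C, hC⟩ := B.extend
  obtain ⟨δ, hδ, hgap⟩ := cross_gap h A B
  have c1 := B.cα
  have c3 := A.geo.cγ
  have hhi : hi ∈ Icc lo hi := ⟨B.lt.le, le_rfl⟩
  have z0 := A.zpos 0 ⟨le_rfl, A.pos⟩
  have m1 : y₂ < a 0 1 := hp.lo _ (A.geo.on 0).le fun e' => by
    rw [e', pt_2] at z0
    exact lt_irrefl _ z0
  have m2 : a 0 1 < y₁ := hp.hi _ (A.geo.on 0).le fun e' => by
    rw [e', pt_2] at z0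
    exact lt_irrefl _ z0
  have hE : Continuous fun y => α y (U y) 1 :=
    continuous_co (c1.comp (f := fun y => (y, U y)) (by fun_prop)) 1
  have E1 : α hi (U hi) 1 = y₂ := by rw [hUe hi hhi, B.arc.stop, pt_1]
  have root : ∀ u ∈ Icc lo hi, a 0 1 ≤ α u (U u) 1 → ∃ u' ∈ Icc u hi, α u' (U u') 1 = a 0 1 :=
    fun u hu h1 => intermediate_value_Icc' hu.2 hE.continuousOn ⟨E1.trans_le m1.le, h1⟩
  obtain ⟨f, ⟨hf, ef⟩, hmax⟩ := (isCompact_Icc.inter_right (isClosed_eq hE continuous_const) :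
    IsCompact (Icc lo hi ∩ {y | α y (U y) 1 = a 0 1})).exists_isMaxOn
    (root lo ⟨le_rfl, B.lt.le⟩ (by rw [hUe lo ⟨le_rfl, B.lt.le⟩, B.top]; exact m2.le))
    continuousOn_id
  have hlt : ∀ u ∈ Ioc f hi, α u (T' u) 1 < a 0 1 := fun u hu => by
    have hu' : u ∈ Icc lo hi := ⟨hf.1.trans hu.1.le, hu.2⟩
    by_contra hc
    rw [← hUe u hu'] at hc
    obtain ⟨u', h1, h2⟩ := root u hu' (not_lt.1 hc)
    exact absurd (hmax ⟨⟨hu'.1.trans h1.1, h1.2⟩, h2⟩) (not_le.2 (hu.1.trans_le h1.1))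
  have k1 : Continuous fun q : ℝ × (ℝ × ℝ) × ℝ × ℝ => Sw (α q.1 q.2.1.1) :=
    Sw.continuous.comp (c1.comp (f := fun q : ℝ × (ℝ × ℝ) × ℝ × ℝ => (q.1, q.2.1.1)) (by fun_prop))
  have k2 : Continuous fun q : ℝ × (ℝ × ℝ) × ℝ × ℝ => Sw (α q.1 q.2.1.2) :=
    Sw.continuous.comp (c1.comp (f := fun q : ℝ × (ℝ × ℝ) × ℝ × ℝ => (q.1, q.2.1.2)) (by fun_prop))
  have hK : IsCompact ((Icc f hi ×ˢ (Icc 0 C ×ˢ Icc 0 C) ×ˢ Icc 0 T ×ˢ Icc 0 T) ∩
      (({q : ℝ × (ℝ × ℝ) × ℝ × ℝ | q.2.1.1 ≤ q.2.1.2} ∩ {q | q.2.1.2 ≤ U q.1}) ∩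
        ({q | q.2.2.1 ≤ q.2.2.2} ∩ {q | δ ≤ (q.2.1.2 - q.2.1.1) ^ 2 + (q.2.2.2 - q.2.2.1) ^ 2}) ∩
        ({q | a q.2.2.1 = Sw (α q.1 q.2.1.1)} ∩ {q | a q.2.2.2 = Sw (α q.1 q.2.1.2)}))) :=
    (isCompact_Icc.prod ((isCompact_Icc.prod isCompact_Icc).prod
      (isCompact_Icc.prod isCompact_Icc))).inter_right
      ((((isClosed_le (by fun_prop) (by fun_prop)).inter
        (isClosed_le (by fun_prop) (by fun_prop))).inter
        ((isClosed_le (by fun_prop) (by fun_prop)).inter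
        (isClosed_le (by fun_prop) (by fun_prop)))).inter
        ((isClosed_eq (by fun_prop) k1).inter (isClosed_eq (by fun_prop) k2)))
  have mk : ∀ y ∈ Icc f hi, ∀ t₁ ∈ Icc 0 (T' y), ∀ t₂ ∈ Icc 0 (T' y), ∀ s₁ ∈ Icc 0 T,
      ∀ s₂ ∈ Icc 0 T, t₁ < t₂ → s₁ ≤ s₂ → a s₁ = Sw (α y t₁) → a s₂ = Sw (α y t₂) →
      (y, (t₁, t₂), s₁, s₂) ∈ (Icc f hi ×ˢ (Icc 0 C ×ˢ Icc 0 C) ×ˢ Icc 0 T ×ˢ Icc 0 T) ∩
      (({q : ℝ × (ℝ × ℝ) × ℝ × ℝ | q.2.1.1 ≤ q.2.1.2} ∩ {q | q.2.1.2 ≤ U q.1}) ∩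
        ({q | q.2.2.1 ≤ q.2.2.2} ∩ {q | δ ≤ (q.2.1.2 - q.2.1.1) ^ 2 + (q.2.2.2 - q.2.2.1) ^ 2}) ∩
        ({q | a q.2.2.1 = Sw (α q.1 q.2.1.1)} ∩ {q | a q.2.2.2 = Sw (α q.1 q.2.1.2)})) := by
    intro y hy t₁ h1 t₂ h2 s₁ h3 s₂ h4 h5 h6 e₁ e₂
    have hy' : y ∈ Icc lo hi := ⟨hf.1.trans hy.1, hy.2⟩
    have h7 := hC y
    rw [hUe y hy'] at h7
    exact ⟨⟨hy, ⟨⟨h1.1, h1.2.trans h7⟩, h2.1, h2.2.trans h7⟩, h3, h4⟩,
      ⟨⟨h5.le, h2.2.trans_eq (hUe y hy').symm⟩, h6, hgap y hy' t₁ h1 s₁ h3 t₂ s₂ e₁ e₂ h5.ne⟩, e₁, e₂⟩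
  obtain ⟨⟨y, ⟨t₁, t₂⟩, s₁, s₂⟩, ⟨⟨hy, ⟨a1, a2⟩, a3, a4⟩, ⟨⟨a5, a6⟩, a7, a8⟩, e₁, e₂⟩, hmin⟩ :=
    hK.exists_isMinOn ⟨_, mk hi ⟨hf.2, le_rfl⟩ t ht _ ⟨B.arc.pos.le, le_rfl⟩ s hs T
      ⟨A.pos.le, le_rfl⟩ (ht.2.lt_of_ne hne) hs.2 e (by rw [A.stop, B.arc.stop, Sw_pt])⟩
      continuous_fst.continuousOn
  simp only [mem_ofPred_eq] at hy a1 a2 a3 a4 a5 a6 a7 a8 e₁ e₂
  have hy' : y ∈ Icc lo hi := ⟨hf.1.trans hy.1, hy.2⟩
  have S := B.shot y hy'
  rw [hUe y hy'] at a6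
  have b1 : t₁ ∈ Icc 0 (T' y) := ⟨a1.1, a5.trans a6⟩
  have b2 : t₂ ∈ Icc 0 (T' y) := ⟨a2.1, a6⟩
  have hst : s₁ = s₂ ↔ t₁ = t₂ := by
    constructor
    · intro e3
      refine S.anti.injOn b1 b2 ?_
      rw [e3, e₂] at e₁
      exact (congrArg (fun p : E3 => p 0) e₁).symm
    · intro e3
      refine A.anti.injOn a3 a4 ?_
      rw [e3, ← e₂] at e₁
      exact congrArg (fun p : E3 => p 2) e₁
  have hne' : s₁ ≠ s₂ := fun e3 => by
    rw [e3, hst.1 e3] at a8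
    linarith
  have c4 : t₁ < t₂ := a5.lt_of_ne (mt hst.2 hne')
  have c5 : α y t₂ 0 < α y t₁ 0 := by
    have := A.anti a3 a4 (a7.lt_of_ne hne')
    simpa only [e₁, e₂, Sw_2] using this
  rcases hy.1.eq_or_lt with e3 | e3
  · subst e3
    have e4 : Sw (α f (T' f)) = a 0 := h.eq_of_xy (S.geo.on _) (A.geo.on 0)
      (S.xnn ⟨S.pos.le, le_rfl⟩) z0.le (S.zT.trans A.x0.symm) (by rw [← hUe f hf]; exact ef)
    have c6 : α f t₁ 0 ≤ α f (T' f) 0 := by
      have := A.anti.antitoneOn ⟨le_rfl, A.pos.le⟩ a3 a3.1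
      simpa only [e₁, ← e4, Sw_2] using this
    have c7 := (S.geo.concave0 h.swap S.xpos).min_le_of_mem_Icc b1 ⟨S.pos.le, le_rfl⟩ ⟨a5, a6⟩
    rw [min_eq_left c6] at c7
    exact absurd c5 (not_lt.2 c7)
  · have k3 : Continuous fun q : ℝ × ℝ × ℝ => α q.1 q.2.1 0 - α q.1 q.2.2 0 :=
      (continuous_co (c1.comp (f := fun q : ℝ × ℝ × ℝ => (q.1, q.2.1)) (by fun_prop)) 0).sub
        (continuous_co (c1.comp (f := fun q : ℝ × ℝ × ℝ => (q.1, q.2.2)) (by fun_prop)) 0)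
    have k4 : Continuous fun q : ℝ × ℝ × ℝ => q.2.2 - q.2.1 := by fun_prop
    obtain ⟨η, hη, k5⟩ := Metric.eventually_nhds_iff.1
      (((k3.tendsto (y, t₁, t₂)).eventually_const_lt (sub_pos.2 c5)).and
        ((k4.tendsto (y, t₁, t₂)).eventually_const_lt (sub_pos.2 c4)))
    obtain ⟨u, ⟨t₁', d1, s₁', d2, d3, d4⟩, ⟨t₂', d5, s₂', d6, d7, d8⟩, d9⟩ :=
      ((cross_persist h hp A I B hf.1 ⟨e3, hy.2⟩ hlt a3 b1 e₁ hη).and
        ((cross_persist h hp A I B hf.1 ⟨e3, hy.2⟩ hlt a4 b2 e₂ hη).and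
          (Ioo_mem_nhdsLT (max_lt e3 (sub_lt_self y hη))))).exists
    rw [max_lt_iff] at d9
    have k6 := k5 (y := (u, t₁', t₂')) (max_lt (by
      rw [Real.dist_eq, abs_lt]
      constructor <;> linarith [d9.1.2, d9.2]) (max_lt d3 d7))
    have k7 : s₁' ≤ s₂' := by
      by_contra hc
      have := A.anti d6 d2 (not_le.1 hc)
      simp only [d4, d8, Sw_2] at this
      linarith [k6.1]
    exact absurd (hmin (mk u ⟨d9.1.1.le, d9.2.le.trans hy.2⟩ t₁' d1 t₂' d5 s₁' d2 s₂' d6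
      (sub_pos.1 k6.2) k7 d4 d8)) (not_le.2 d9.2)

end Pool.Agent.MP_c01216_gt

end

section

set_option autoImplicit false

namespace Pool.Agent.MP_c01216_gt

open Set Filter Topology

variable {F : E3 → ℝ} {y₂ y₁ : ℝ}

/-- The first zero of a continuous function that starts positive. -/
theorem shoot_first {f : ℝ → ℝ} (hf : Continuous f) (h0 : 0 < f 0) {T₀ : ℝ}
    (h : ∃ t ∈ Ioc 0 T₀, f t ≤ 0) :
    ∃ T ∈ Ioc 0 T₀, f T = 0 ∧ ∀ t ∈ Ico 0 T, 0 < f t := by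
  obtain ⟨t₁, ht₁, h₁⟩ := h
  have hK : IsCompact (Icc 0 T₀ ∩ {t | f t ≤ 0}) :=
    isCompact_Icc.inter_right (isClosed_le hf continuous_const)
  obtain ⟨T, ⟨hT, hT0⟩, hmin⟩ := hK.exists_isLeast ⟨t₁, ⟨ht₁.1.le, ht₁.2⟩, h₁⟩
  have hT0' : f T ≤ 0 := hT0
  have hpos : ∀ t ∈ Ico 0 T, 0 < f t := by
    intro t ht
    by_contra hc
    have : T ≤ t := hmin ⟨⟨ht.1, ht.2.le.trans hT.2⟩, not_lt.1 hc⟩
    exact absurd ht.2 (not_lt.2 this)
  have hTp : 0 < T := by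
    rcases hT.1.eq_or_lt with e | e
    · rw [← e] at hT0'
      exact absurd h0 (not_lt.2 hT0')
    · exact e
  refine ⟨T, ⟨hTp, hT.2⟩, ?_, hpos⟩
  obtain ⟨s, hs, hs0⟩ : (0 : ℝ) ∈ f '' Icc 0 T :=
    intermediate_value_Icc' hT.1 hf.continuousOn ⟨hT0', h0.le⟩
  rcases hs.2.eq_or_lt with e | e
  · rw [← e]; exact hs0
  · exact absurd hs0 (hpos s ⟨hs.1, e⟩).ne'

/-- A positive jointly continuous function stays positive on a tube. -/
theorem shoot_tube {f : ℝ → ℝ → ℝ} (hf : Continuous fun q : ℝ × ℝ => f q.1 q.2) {y a b : ℝ}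
    (h : ∀ t ∈ Icc a b, 0 < f y t) : ∀ᶠ y' in 𝓝 y, ∀ t ∈ Icc a b, 0 < f y' t :=
  isCompact_Icc.eventually_forall_of_forall_eventually fun t ht =>
    (hf.continuousAt (x := (y, t))).eventually (lt_mem_nhds (h t ht))

/-- A transversal first zero depends continuously on the parameter. -/
theorem shoot_cont {f : ℝ → ℝ → ℝ} (hf : Continuous fun q : ℝ × ℝ => f q.1 q.2) {T : ℝ → ℝ}
    {s : Set ℝ} (hp : ∀ y ∈ s, 0 < T y) (h0 : ∀ y ∈ s, f y (T y) = 0)
    (hpos : ∀ y ∈ s, ∀ t ∈ Ico 0 (T y), 0 < f y t)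
    (hneg : ∀ y ∈ s, ∀ b, T y < b → ∃ t ∈ Ioo (T y) b, f y t < 0) : ContinuousOn T s := by
  intro y hy
  refine tendsto_order.2 ⟨fun a ha => ?_, fun b hb => ?_⟩
  · have h1 := shoot_tube hf (y := y) (a := 0) (b := a)
      fun t ht => hpos y hy t ⟨ht.1, ht.2.trans_lt ha⟩
    filter_upwards [mem_nhdsWithin_of_mem_nhds h1, self_mem_nhdsWithin] with y' h2 hy'
    by_contra hc
    exact (h2 _ ⟨(hp y' hy').le, not_lt.1 hc⟩).ne' (h0 y' hy')
  · obtain ⟨t, ht, hft⟩ := hneg y hy b hb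
    have hc : Continuous fun y' => f y' t := hf.comp (continuous_id.prodMk continuous_const)
    have h1 : ∀ᶠ y' in 𝓝 y, f y' t < 0 := hc.continuousAt.eventually (gt_mem_nhds hft)
    filter_upwards [mem_nhdsWithin_of_mem_nhds h1, self_mem_nhdsWithin] with y' h2 hy'
    by_contra hcon
    have := hpos y' hy' t ⟨((hp y hy).trans ht.1).le, ht.2.trans_le (not_lt.1 hcon)⟩
    exact absurd this (not_lt.2 h2.le)

/-- A function with a zero and negative derivative is negative just after the zero. -/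
theorem shoot_after {f : ℝ → ℝ} {c T : ℝ} (hf : HasDerivAt f c T) (hc : c < 0) (h0 : f T = 0)
    {b : ℝ} (hb : T < b) : ∃ t ∈ Ioo T b, f t < 0 := by
  have h1 : ∀ᶠ t in 𝓝[>] T, slope f T t < 0 :=
    (hf.tendsto_slope.mono_left (nhdsGT_le_nhdsNE T)).eventually (gt_mem_nhds hc)
  obtain ⟨t, h2, h3⟩ := (h1.and (Ioo_mem_nhdsGT hb)).exists
  refine ⟨t, h3, ?_⟩
  rw [slope_def_field, h0, sub_zero] at h2
  have := sub_pos.2 h3.1
  exact (div_neg_iff.1 h2).elim (fun h => absurd h.2 (not_lt.2 this.le)) fun h => h.1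

/-- Between two disjoint closed sets there is a gap. -/
theorem shoot_gap {a b : ℝ} (hab : a < b) {U L : Set ℝ} (hU : IsClosed (Icc a b ∩ U))
    (hL : IsClosed (Icc a b ∩ L)) (ha : a ∈ L) (hb : b ∈ U)
    (hd : ∀ y ∈ Icc a b, y ∈ U → y ∉ L) :
    ∃ lo hi, a ≤ lo ∧ lo < hi ∧ hi ≤ b ∧ lo ∈ L ∧ hi ∈ U ∧ ∀ y ∈ Ioo lo hi, y ∉ U ∧ y ∉ L := by
  have hLc : IsCompact (Icc a b ∩ L) := isCompact_Icc.of_isClosed_subset hL inter_subset_left
  obtain ⟨lo, ⟨hlo, hloL⟩, hmax⟩ := hLc.exists_isGreatest ⟨a, ⟨le_rfl, hab.le⟩, ha⟩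
  have hUc : IsCompact ((Icc a b ∩ U) ∩ Ici lo) :=
    (isCompact_Icc.of_isClosed_subset hU inter_subset_left).inter_right isClosed_Ici
  obtain ⟨hi, ⟨⟨hhi, hhiU⟩, hle⟩, hmin⟩ :=
    hUc.exists_isLeast ⟨b, ⟨⟨hab.le, le_rfl⟩, hb⟩, hlo.2⟩
  have hlt : lo < hi := lt_of_le_of_ne hle fun e => hd hi hhi hhiU (e ▸ hloL)
  refine ⟨lo, hi, hlo.1, hlt, hhi.2, hloL, hhiU, fun y hy => ?_⟩
  have hy' : y ∈ Icc a b := ⟨hlo.1.trans hy.1.le, hy.2.le.trans hhi.2⟩
  exact ⟨fun h => absurd hy.2 (not_lt.2 (hmin ⟨⟨hy', h⟩, hy.1.le⟩)),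
    fun h => absurd hy.1 (not_lt.2 (hmax ⟨hy', h⟩))⟩

/-- A geodesic from the plane `x = 0` that leaves the quadrant `x > 0`, `z > 0` at the time `E`. -/
structure ShootExit (F : E3 → ℝ) (a v : ℝ → E3) (E : ℝ) : Prop where
  geo : Geo F a v
  x0 : a 0 0 = 0
  v0 : v 0 = pt 1 0 0
  pos : 0 < E
  zpos : ∀ t ∈ Ico 0 E, 0 < a t 2
  xpos : ∀ t ∈ Ioo 0 E, 0 < a t 0
  xnn : 0 ≤ a E 0
  znn : 0 ≤ a E 2
  stop : a E 0 = 0 ∨ a E 2 = 0

/-- The horizontal component of the velocity against the horizontal normal. -/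
noncomputable def shootD (F : E3 → ℝ) (p v : E3) : ℝ :=
  v 0 * gradient F p 1 - v 1 * gradient F p 0

section exit

variable {a v : ℝ → E3} {E : ℝ}

theorem ShootExit.vz (h : Body F) (s : ShootExit F a v E) : ∀ t ∈ Ioc 0 E, v t 2 < 0 := by
  intro t ht
  have := s.geo.anti2 h (a := 0) (b := E) (fun u hu => s.zpos u ⟨hu.1.le, hu.2⟩)
    ⟨le_rfl, s.pos.le⟩ ⟨ht.1.le, ht.2⟩ ht.1
  simpa [s.v0] using this

theorem ShootExit.zlt (h : Body F) (s : ShootExit F a v E) : a E 2 < a 0 2 := by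
  obtain ⟨c, hc, e⟩ := exists_hasDerivAt_eq_slope (fun t => a t 2) (fun t => v t 2) s.pos
    (continuous_co s.geo.cγ 2).continuousOn fun t _ => s.geo.dx 2 t
  have h1 := s.vz h c ⟨hc.1, hc.2.le⟩
  rw [e, sub_zero] at h1
  have := (div_neg_iff.1 h1).elim (fun h => absurd h.2 (not_lt.2 s.pos.le)) fun h => h.1
  linarith

theorem ShootExit.vx (h : Body F) (s : ShootExit F a v E) (h0 : a E 0 = 0) : v E 0 < 0 := by
  obtain ⟨c, hc, e⟩ := exists_hasDerivAt_eq_slope (fun t => a t 0) (fun t => v t 0) s.pos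
    (continuous_co s.geo.cγ 0).continuousOn fun t _ => s.geo.dx 0 t
  have := s.geo.anti0 h (a := 0) (b := E) s.xpos ⟨hc.1.le, hc.2.le⟩ ⟨s.pos.le, le_rfl⟩ hc.2
  simp only [h0, s.x0, sub_self, zero_div] at e
  simpa [e] using this

theorem ShootExit.shot (h : Body F) (s : ShootExit F a v E) (h0 : a E 2 = 0) : Shot F a v E :=
  ⟨s.geo, s.x0, s.v0, s.pos, h0, s.zpos, s.vz h, s.xpos⟩

theorem ShootExit.ne (h : Body F) (s : ShootExit F a v E) (h0 : a E 0 = 0) : a E 1 ≠ a 0 1 := by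
  intro e
  have := h.eq_of_xy (s.geo.on E) (s.geo.on 0) s.znn (s.zpos 0 ⟨le_rfl, s.pos⟩).le
    (h0.trans s.x0.symm) e
  exact (s.zlt h).ne (by rw [this])

theorem ShootExit.side (h : Body F) (s : ShootExit F a v E) (h0 : a E 0 = 0) :
    gradient F (a E) 1 * (a 0 1 - a E 1) < 0 := by
  have hz := s.zlt h
  have h1 := h.supp (s.geo.on E) (s.geo.on 0).le (q := a 0) fun e => hz.ne (by rw [e])
  rw [h.g0_zero h0] at h1
  have h2 : 0 ≤ gradient F (a E) 2 := by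
    rcases s.znn.eq_or_lt with e | e
    · exact (h.g2_zero e.symm).ge
    · exact (h.g2_pos e).le
  have := mul_nonneg h2 (sub_pos.2 hz).le
  linarith

theorem ShootExit.D_eq (h : Body F) (h0 : a E 0 = 0) :
    shootD F (a E) (v E) = v E 0 * gradient F (a E) 1 := by
  simp [shootD, h.g0_zero h0]

end exit

theorem shoot_sq (h : Body F) {a v : ℝ → E3} (g : Geo F a v) {t : ℝ} (h0 : a t 2 = 0) :
    shootD F (a t) (v t) ^ 2 = (1 - v t 2 ^ 2) * ‖gradient F (a t)‖ ^ 2 := by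
  have h1 := g.tan h t
  have h2 := g.sq t
  rw [norm_sq3, h.g2_zero h0] at *
  unfold shootD
  have h3 : 1 - v t 2 ^ 2 = v t 0 ^ 2 + v t 1 ^ 2 := by linarith
  rw [h3]
  linear_combination (-(gradient F (a t) 0 * v t 0 + gradient F (a t) 1 * v t 1)) * h1

theorem shoot_three (h : Body F) {a v : ℝ → E3} (g : Geo F a v) {t : ℝ} (h0 : a t 2 = 0)
    (e : (2 * shootD F (a t) (v t)) ^ 2 = ‖gradient F (a t)‖ ^ 2) : v t 2 ^ 2 = 3 / 4 := by
  have h1 := shoot_sq h g h0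
  have h2 : 0 < ‖gradient F (a t)‖ ^ 2 := pow_pos (norm_pos_iff.2 (h.grad_ne (g.on t))) 2
  have h3 : (v t 2 ^ 2 - 3 / 4) * ‖gradient F (a t)‖ ^ 2 = 0 := by nlinarith
  have := (mul_eq_zero.1 h3).resolve_right h2.ne'
  linarith

theorem shoot_contD (h : Body F) {X : Type*} [TopologicalSpace X] {a v : X → E3}
    (ha : Continuous a) (hv : Continuous v) : Continuous fun x => shootD F (a x) (v x) := by
  have hg : Continuous fun x => gradient F (a x) := h.cont_grad.comp ha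
  exact ((continuous_co hv 0).mul (continuous_co hg 1)).sub
    ((continuous_co hv 1).mul (continuous_co hg 0))

/-- Along a geodesic in the plane `z = 0` the sign of `shootD` does not change. -/
theorem shoot_plane (h : Body F) {a v : ℝ → E3} (g : Geo F a v) (h0 : a 0 2 = 0)
    (h1 : v 0 2 = 0) {σ : ℝ} (hσ : σ ^ 2 = 1) (hD : 0 < σ * shootD F (a 0) (v 0)) (t : ℝ) :
    0 < 2 * (σ * shootD F (a t) (v t)) - ‖gradient F (a t)‖ := by
  have hsq : ∀ s, (σ * shootD F (a s) (v s)) ^ 2 = ‖gradient F (a s)‖ ^ 2 := by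
    intro s
    obtain ⟨e0, e1⟩ := g.plane h h0 h1 s
    rw [mul_pow, hσ, shoot_sq h g e0, e1]
    ring
  have hN : ∀ s, 0 < ‖gradient F (a s)‖ := fun s => norm_pos_iff.2 (h.grad_ne (g.on s))
  have hc : Continuous fun s => σ * shootD F (a s) (v s) :=
    continuous_const.mul (shoot_contD h g.cγ g.cv)
  have hp : 0 < σ * shootD F (a t) (v t) := by
    by_contra hcon
    obtain ⟨s, hs⟩ := intermediate_value_univ t 0 hc ⟨not_lt.1 hcon, hD.le⟩
    have h2 := hsq s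
    have h3 : σ * shootD F (a s) (v s) = 0 := hs
    rw [h3] at h2
    have := pow_pos (hN s) 2
    linarith
  have := (pow_left_inj₀ hp.le (hN t).le two_ne_zero).1 (hsq t)
  linarith [hN t]

/-- The family of geodesics that leave the plane `x = 0` orthogonally, with their exit times. -/
theorem shoot_family (h : Body F) (hp : Poles F y₂ y₁) :
    ∃ (α V : ℝ → ℝ → E3) (E : ℝ → ℝ) (T₀ : ℝ), (Continuous fun q : ℝ × ℝ => α q.1 q.2) ∧
      (Continuous fun q : ℝ × ℝ => V q.1 q.2) ∧ ContinuousOn E (Ioo y₂ y₁) ∧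
      (∀ y, α y 0 1 = y ∧ V y 0 = pt 1 0 0) ∧ (∀ y ∈ Icc y₂ y₁, Geo F (α y) (V y)) ∧
      α y₂ 0 = pt 0 y₂ 0 ∧ α y₁ 0 = pt 0 y₁ 0 ∧
      ∀ y ∈ Ioo y₂ y₁, E y ≤ T₀ ∧ ShootExit F (α y) (V y) (E y) := by
  obtain ⟨Z, cZ, -, hZ, hZ0, hZp, -⟩ := h.exists_Z
  obtain ⟨Γ, W, cΓ, cW, h0, hgeo⟩ := h.exists_flow
  obtain ⟨T₀, -, hT⟩ := h.exists_time
  obtain ⟨M, hM, hacc⟩ := h.exists_acc
  let q : ℝ → E3 × E3 := fun y => (pt 0 y (Z 0 y), pt 1 0 0)
  have cq : Continuous q := by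
    have : Continuous fun y : ℝ => Z 0 y := cZ.comp (continuous_const.prodMk continuous_id)
    exact (continuous_pt continuous_const continuous_id this).prodMk continuous_const
  have cq' : Continuous fun w : ℝ × ℝ => (q w.1, w.2) :=
    (cq.comp continuous_fst).prodMk continuous_snd
  have cα : Continuous fun w : ℝ × ℝ => Γ (q w.1) w.2 := cΓ.comp cq'
  have cV : Continuous fun w : ℝ × ℝ => W (q w.1) w.2 := cW.comp cq'
  have hα0 : ∀ y, Γ (q y) 0 = pt 0 y (Z 0 y) := fun y => (h0 (q y)).1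
  have hV0 : ∀ y, W (q y) 0 = pt 1 0 0 := fun y => (h0 (q y)).2
  have hg : ∀ y ∈ Icc y₂ y₁, Geo F (Γ (q y)) (W (q y)) := by
    intro y hy
    have hle : F (pt 0 y 0) ≤ 0 := by
      rcases hy.1.eq_or_lt with e | e
      · rw [← e]; exact hp.bot.le
      · rcases hy.2.eq_or_lt with e' | e'
        · rw [e']; exact hp.top.le
        · exact (hp.mid y ⟨e, e'⟩).le
    refine hgeo (q y) (hZ 0 y hle) ?_ ?_
    · rw [fderiv_eq3, h.g0_zero (p := (q y).1) rfl]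
      simp [q]
    · have : ‖pt 1 0 0‖ ^ 2 = 1 ^ 2 := by simp [norm_sq3]
      exact (pow_left_inj₀ (norm_nonneg _) zero_le_one two_ne_zero).1 this
  -- the first coordinate is positive for small times
  set δ : ℝ := 1 / (2 * M) with hδ
  have hδp : 0 < δ := by positivity
  have hsmall : ∀ y ∈ Icc y₂ y₁, ∀ t ∈ Ioc 0 δ, 0 < Γ (q y) t 0 := by
    intro y hy t ht
    have h1 := hacc _ _ (hg y hy) 0 t
    have h2 := (PiLp.norm_apply_le (Γ (q y) t - Γ (q y) 0 - (t - 0) • W (q y) 0) 0).trans h1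
    rw [hα0, hV0] at h2
    simp only [sub_zero, PiLp.sub_apply, PiLp.smul_apply, pt_0, smul_eq_mul, mul_one,
      Real.norm_eq_abs] at h2
    have h3 := (abs_le.1 h2).1
    have h4 : M * t ≤ 1 / 2 := by
      have := mul_le_mul_of_nonneg_left ht.2 hM.le
      rwa [hδ, show M * (1 / (2 * M)) = 1 / 2 by field_simp] at this
    nlinarith [ht.1]
  let f : ℝ → ℝ → ℝ := fun y t => min (Γ (q y) t 2) (max (Γ (q y) t 0) (δ - t))
  have cf : Continuous fun w : ℝ × ℝ => f w.1 w.2 :=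
    (continuous_co cα 2).min ((continuous_co cα 0).max (continuous_const.sub continuous_snd))
  have hex : ∀ y ∈ Ioo y₂ y₁, ∃ T ∈ Ioc 0 T₀, f y T = 0 ∧ ∀ t ∈ Ico 0 T, 0 < f y t := by
    intro y hy
    refine shoot_first (f := f y) (cf.comp (continuous_const.prodMk continuous_id)) ?_ ?_
    · refine lt_min ?_ (lt_max_of_lt_right (by simpa using hδp))
      rw [hα0]
      exact hZp 0 y (hp.mid y hy)
    · obtain ⟨t, ht, hz⟩ := (hT _ _ (hg y (Ioo_subset_Icc_self hy))).2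
      exact ⟨t, ht, (min_le_left _ _).trans hz⟩
  choose! E hE hE0 hEp using hex
  have hδE : ∀ y ∈ Ioo y₂ y₁, Γ (q y) (E y) 0 ≤ 0 → δ < E y := by
    intro y hy h1
    by_contra hc
    exact absurd (hsmall y (Ioo_subset_Icc_self hy) _ ⟨(hE y hy).1, not_lt.1 hc⟩) (not_lt.2 h1)
  have hexit : ∀ y ∈ Ioo y₂ y₁, ShootExit F (Γ (q y)) (W (q y)) (E y) := by
    intro y hy
    have hy' := Ioo_subset_Icc_self hy
    have e0 : min (Γ (q y) (E y) 2) (max (Γ (q y) (E y) 0) (δ - E y)) = 0 := hE0 y hy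
    have hxnn : 0 ≤ Γ (q y) (E y) 0 := by
      by_contra hc
      have h1 := hδE y hy (not_le.1 hc).le
      have h2 : 0 ≤ max (Γ (q y) (E y) 0) (δ - E y) := e0 ▸ min_le_right _ _
      rcases le_max_iff.1 h2 with h3 | h3
      · exact hc h3
      · linarith
    refine ⟨hg y hy', by rw [hα0]; rfl, hV0 y, (hE y hy).1,
      fun t ht => (lt_min_iff.1 (hEp y hy t ht)).1, fun t ht => ?_, hxnn,
      e0 ▸ min_le_left _ _, ?_⟩
    · rcases lt_max_iff.1 (lt_min_iff.1 (hEp y hy t ⟨ht.1.le, ht.2⟩)).2 with h1 | h1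
      · exact h1
      · exact hsmall y hy' t ⟨ht.1, by linarith⟩
    · rcases min_eq_iff.1 e0 with h1 | h1
      · exact Or.inr h1.1
      · exact Or.inl (le_antisymm (h1.1 ▸ le_max_left _ _) hxnn)
  refine ⟨fun y => Γ (q y), fun y => W (q y), E, T₀, cα, cV, ?_,
    fun y => ⟨by simp [hα0], hV0 y⟩, hg, ?_, ?_, fun y hy => ⟨(hE y hy).2, hexit y hy⟩⟩
  · refine shoot_cont cf (fun y hy => (hE y hy).1) hE0 hEp fun y hy b hb => ?_
    have s := hexit y hy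
    rcases s.stop with h1 | h1
    · obtain ⟨t, ht, h2⟩ := shoot_after (s.geo.dx 0 (E y)) (s.vx h h1) h1 hb
      refine ⟨t, ht, (min_le_right _ _).trans_lt (max_lt h2 ?_)⟩
      have := hδE y hy h1.le
      linarith [ht.1]
    · obtain ⟨t, ht, h2⟩ := shoot_after (s.geo.dx 2 (E y)) (s.vz h _ ⟨s.pos, le_rfl⟩) h1 hb
      exact ⟨t, ht, (min_le_left _ _).trans_lt h2⟩
  · simp only [hα0, hZ0 0 y₂ hp.bot.ge]
  · simp only [hα0, hZ0 0 y₁ hp.top.ge]

theorem Body.shoot (h : Body F) (hp : Poles F y₂ y₁) :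
    (∃ a v T, Shot F a v T ∧ 0 < a T 0 ∧ v T 2 ^ 2 = 3 / 4) ∨
      ∃ α V T lo hi, Fam F y₂ y₁ α V T lo hi := by
  obtain ⟨α, V, E, T₀, cα, cV, cE, h0, hg, hbot, htop, hE⟩ := shoot_family h hp
  let D : ℝ → ℝ := fun y => shootD F (α y (E y)) (V y (E y))
  let N : ℝ → ℝ := fun y => ‖gradient F (α y (E y))‖
  let U : Set ℝ := {y | (α y (E y) 0 = 0 ∧ α y (E y) 1 ≤ y) ∨ (α y (E y) 2 = 0 ∧ N y ≤ 2 * D y)}
  let L : Set ℝ := {y | (α y (E y) 0 = 0 ∧ y ≤ α y (E y) 1) ∨ (α y (E y) 2 = 0 ∧ N y ≤ -(2 * D y))}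
  have hN : ∀ y ∈ Ioo y₂ y₁, 0 < N y := fun y hy =>
    norm_pos_iff.2 (h.grad_ne ((hE y hy).2.geo.on _))
  have hDe : ∀ y, α y (E y) 0 = 0 → D y = V y (E y) 0 * gradient F (α y (E y)) 1 :=
    fun y h1 => ShootExit.D_eq h h1
  have cD : Continuous fun w : ℝ × ℝ => shootD F (α w.1 w.2) (V w.1 w.2) := shoot_contD h cα cV
  have cN : Continuous fun w : ℝ × ℝ => ‖gradient F (α w.1 w.2)‖ := (h.cont_grad.comp cα).norm
  -- the two ends
  have hnear : ∀ (σ y : ℝ), σ ^ 2 = 1 → y ∈ Icc y₂ y₁ → α y 0 = pt 0 y 0 →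
      0 < σ * gradient F (pt 0 y 0) 1 → ∀ᶠ y' in 𝓝 y, ∀ t ∈ Icc 0 T₀,
        0 < 2 * (σ * shootD F (α y' t) (V y' t)) - ‖gradient F (α y' t)‖ := by
    intro σ y hσ hy e hpos
    refine shoot_tube (f := fun y t => 2 * (σ * shootD F (α y t) (V y t)) - ‖gradient F (α y t)‖)
      ((continuous_const.mul (continuous_const.mul cD)).sub cN) fun t _ => ?_
    refine shoot_plane h (hg y hy) (by rw [e]; rfl) (by rw [(h0 y).2]; rfl) hσ ?_ t
    simpa [shootD, e, (h0 y).2] using hpos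
  have hU1 : ∀ᶠ y in 𝓝[<] y₁, y ∈ U := by
    have h1 := hnear 1 y₁ (by norm_num) ⟨hp.lt.le, le_rfl⟩ htop (by simpa using hp.gtop)
    filter_upwards [mem_nhdsWithin_of_mem_nhds h1, Ioo_mem_nhdsLT hp.lt] with y h2 hy
    obtain ⟨hT, s⟩ := hE y hy
    have h3 : 0 < 2 * (1 * D y) - N y := h2 _ ⟨s.pos.le, hT⟩
    rcases s.stop with h4 | h4
    · refine Or.inl ⟨h4, ?_⟩
      have h5 := s.side h h4
      have h6 := s.vx h h4
      have h7 := hDe y h4
      have h8 : gradient F (α y (E y)) 1 < 0 := by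
        by_contra hc
        have := mul_nonpos_of_nonpos_of_nonneg h6.le (not_lt.1 hc)
        linarith [hN y hy]
      rw [(h0 y).1] at h5
      by_contra hc
      have := mul_pos_of_neg_of_neg h8 (sub_neg.2 (not_le.1 hc))
      linarith
    · exact Or.inr ⟨h4, by linarith⟩
  have hL1 : ∀ᶠ y in 𝓝[>] y₂, y ∈ L := by
    have h1 := hnear (-1) y₂ (by norm_num) ⟨le_rfl, hp.lt.le⟩ hbot (by simpa using hp.gbot)
    filter_upwards [mem_nhdsWithin_of_mem_nhds h1, Ioo_mem_nhdsGT hp.lt] with y h2 hy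
    obtain ⟨hT, s⟩ := hE y hy
    have h3 : 0 < 2 * (-1 * D y) - N y := h2 _ ⟨s.pos.le, hT⟩
    rcases s.stop with h4 | h4
    · refine Or.inl ⟨h4, ?_⟩
      have h5 := s.side h h4
      have h6 := s.vx h h4
      have h7 := hDe y h4
      have h8 : 0 < gradient F (α y (E y)) 1 := by
        by_contra hc
        have := mul_nonneg_of_nonpos_of_nonpos h6.le (not_lt.1 hc)
        linarith [hN y hy]
      rw [(h0 y).1] at h5
      by_contra hc
      have := mul_pos h8 (sub_pos.2 (not_le.1 hc))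
      linarith
    · exact Or.inr ⟨h4, by linarith⟩
  obtain ⟨a, haL, ha⟩ := (hL1.and (Ioo_mem_nhdsGT hp.lt)).exists
  obtain ⟨b, hbU, hb⟩ := (hU1.and (Ioo_mem_nhdsLT ha.2)).exists
  have hsub : Icc a b ⊆ Ioo y₂ y₁ := fun y hy => ⟨ha.1.trans_le hy.1, hy.2.trans_lt hb.2⟩
  have cΦ : ContinuousOn (fun y => (y, E y)) (Icc a b) :=
    continuousOn_id.prodMk (cE.mono hsub)
  have hcl : ∀ {S : Set (ℝ × ℝ)}, IsClosed S → IsClosed (Icc a b ∩ (fun y => (y, E y)) ⁻¹' S) :=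
    fun hS => cΦ.preimage_isClosed_of_isClosed isClosed_Icc hS
  have hUc : IsClosed (Icc a b ∩ U) :=
    hcl (S := {w | (α w.1 w.2 0 = 0 ∧ α w.1 w.2 1 ≤ w.1) ∨ (α w.1 w.2 2 = 0 ∧
      ‖gradient F (α w.1 w.2)‖ ≤ 2 * shootD F (α w.1 w.2) (V w.1 w.2))})
      (((isClosed_eq (continuous_co cα 0) continuous_const).inter
        (isClosed_le (continuous_co cα 1) continuous_fst)).union
        ((isClosed_eq (continuous_co cα 2) continuous_const).inter
        (isClosed_le cN (continuous_const.mul cD))))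
  have hLc : IsClosed (Icc a b ∩ L) :=
    hcl (S := {w | (α w.1 w.2 0 = 0 ∧ w.1 ≤ α w.1 w.2 1) ∨ (α w.1 w.2 2 = 0 ∧
      ‖gradient F (α w.1 w.2)‖ ≤ -(2 * shootD F (α w.1 w.2) (V w.1 w.2)))})
      (((isClosed_eq (continuous_co cα 0) continuous_const).inter
        (isClosed_le continuous_fst (continuous_co cα 1))).union
        ((isClosed_eq (continuous_co cα 2) continuous_const).inter
        (isClosed_le cN (continuous_const.mul cD).neg)))
  -- points of `U` on the axis are the lower pole, points of `L` the upper pole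
  have hUp : ∀ y ∈ Ioo y₂ y₁, y ∈ U → α y (E y) 0 = 0 → α y (E y) 2 = 0 →
      α y (E y) = pt 0 y₂ 0 := by
    intro y hy hU h1 h2
    have s := (hE y hy).2
    refine (hp.eq_pole (s.geo.on _) h1 h2).resolve_right fun e => ?_
    rcases hU with h3 | h3
    · have := h3.2
      rw [e] at this
      exact absurd hy.2 (not_lt.2 this)
    · have h4 := hDe y h1
      rw [e] at h4
      have := mul_neg_of_neg_of_pos (s.vx h h1) hp.gtop
      linarith [hN y hy, h3.2]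
  have hLp : ∀ y ∈ Ioo y₂ y₁, y ∈ L → α y (E y) 0 = 0 → α y (E y) 2 = 0 →
      α y (E y) = pt 0 y₁ 0 := by
    intro y hy hL h1 h2
    have s := (hE y hy).2
    refine (hp.eq_pole (s.geo.on _) h1 h2).resolve_left fun e => ?_
    rcases hL with h3 | h3
    · have := h3.2
      rw [e] at this
      exact absurd hy.1 (not_lt.2 this)
    · have h4 := hDe y h1
      rw [e] at h4
      have := mul_pos_of_neg_of_neg (s.vx h h1) hp.gbot
      linarith [hN y hy, h3.2]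
  have hd : ∀ y ∈ Icc a b, y ∈ U → y ∉ L := by
    intro y hy hU hL
    have hy' := hsub hy
    have s := (hE y hy').2
    have hpole : α y (E y) 0 = 0 → α y (E y) 2 = 0 → False := by
      intro h1 h2
      have e := (hUp y hy' hU h1 h2).symm.trans (hLp y hy' hL h1 h2)
      exact hp.lt.ne (congrArg (fun p : E3 => p 1) e)
    rcases hU with h1 | h1 <;> rcases hL with h2 | h2
    · exact s.ne h h1.1 ((le_antisymm h1.2 h2.2).trans (h0 y).1.symm)
    · exact hpole h1.1 h2.1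
    · exact hpole h2.1 h1.1
    · linarith [hN y hy', h1.2, h2.2]
  obtain ⟨lo, hi, hlo, hlt, hhi, hloL, hhiU, hgap⟩ := shoot_gap hb.1 hUc hLc haL hbU hd
  have hsub' : Icc lo hi ⊆ Icc a b := Icc_subset_Icc hlo hhi
  have hvalid : ∀ y ∈ Ioo lo hi, 0 < α y (E y) 0 := by
    intro y hy
    refine lt_of_le_of_ne (hE y (hsub (hsub' (Ioo_subset_Icc_self hy)))).2.xnn fun e => ?_
    rcases le_total (α y (E y) 1) y with h1 | h1
    · exact (hgap y hy).1 (Or.inl ⟨e.symm, h1⟩)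
    · exact (hgap y hy).2 (Or.inl ⟨e.symm, h1⟩)
  have hin : ∀ y ∈ Icc lo hi, α y (E y) 2 = 0 ∧ 2 * D y ≤ N y ∧ -(2 * D y) ≤ N y := by
    have hc := hcl (S := {w | α w.1 w.2 2 = 0 ∧
      2 * shootD F (α w.1 w.2) (V w.1 w.2) ≤ ‖gradient F (α w.1 w.2)‖ ∧
      -(2 * shootD F (α w.1 w.2) (V w.1 w.2)) ≤ ‖gradient F (α w.1 w.2)‖})
      ((isClosed_eq (continuous_co cα 2) continuous_const).inter
        ((isClosed_le (continuous_const.mul cD) cN).inter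
        (isClosed_le (continuous_const.mul cD).neg cN)))
    intro y₀ hy₀
    rw [← closure_Ioo hlt.ne] at hy₀
    refine (closure_minimal ?_ hc hy₀).2
    intro y hy
    refine ⟨hsub' (Ioo_subset_Icc_self hy), ?_⟩
    have h1 := (hE y (hsub (hsub' (Ioo_subset_Icc_self hy)))).2.stop.resolve_left
      (hvalid y hy).ne'
    refine ⟨h1, ?_, ?_⟩
    · exact le_of_not_ge fun h2 => (hgap y hy).1 (Or.inr ⟨h1, h2⟩)
    · exact le_of_not_ge fun h2 => (hgap y hy).2 (Or.inr ⟨h1, h2⟩)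
  have hshot : ∀ y ∈ Icc lo hi, Shot F (α y) (V y) (E y) := fun y hy =>
    (hE y (hsub (hsub' hy))).2.shot h (hin y hy).1
  have mlo : lo ∈ Icc lo hi := ⟨le_rfl, hlt.le⟩
  have mhi : hi ∈ Icc lo hi := ⟨hlt.le, le_rfl⟩
  have slo := (hE lo (hsub (hsub' mlo))).2
  have shi := (hE hi (hsub (hsub' mhi))).2
  rcases shi.xnn.eq_or_lt with ehi | ehi
  swap
  · refine Or.inl ⟨_, _, _, hshot hi mhi, ehi, shoot_three h shi.geo (hin hi mhi).1 ?_⟩
    have h1 := (hhiU.resolve_left fun h1 => ehi.ne' h1.1).2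
    have h2 : 2 * D hi = N hi := le_antisymm (hin hi mhi).2.1 h1
    exact congrArg (· ^ 2) h2
  rcases slo.xnn.eq_or_lt with elo | elo
  swap
  · refine Or.inl ⟨_, _, _, hshot lo mlo, elo, shoot_three h slo.geo (hin lo mlo).1 ?_⟩
    have h1 := (hloL.resolve_left fun h1 => elo.ne' h1.1).2
    have h2 : -(2 * D lo) = N lo := le_antisymm (hin lo mlo).2.2 h1
    exact (neg_sq _).symm.trans (congrArg (· ^ 2) h2)
  have e1 := hUp hi (hsub (hsub' mhi)) hhiU ehi.symm (hin hi mhi).1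
  have e2 := hLp lo (hsub (hsub' mlo)) hloL elo.symm (hin lo mlo).1
  refine Or.inr ⟨α, V, E, lo, hi, cα, cV, cE.mono (hsub'.trans hsub), hlt, hshot, hvalid,
    ⟨hshot hi mhi, e1, shi.vx h ehi.symm, ?_⟩, e2⟩
  have h1 := (hin hi mhi).2.1
  rw [hDe hi ehi.symm] at h1
  have h2 : N hi = -gradient F (α hi (E hi)) 1 := by
    have h3 : gradient F (α hi (E hi)) 1 < 0 := by rw [e1]; exact hp.gbot
    refine (pow_left_inj₀ (norm_nonneg _) (neg_pos.2 h3).le two_ne_zero).1 ?_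
    rw [norm_sq3, h.g0_zero ehi.symm, h.g2_zero (hin hi mhi).1]
    ring
  have h3 : gradient F (α hi (E hi)) 1 < 0 := by rw [e1]; exact hp.gbot
  rw [h2] at h1
  by_contra hc
  have := mul_pos_of_neg_of_neg (show V hi (E hi) 0 + 1 / 2 < 0 by linarith) h3
  linarith

end Pool.Agent.MP_c01216_gt

end
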