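import Pool.Agent.Mg.F019006.G209f96
import Pool.Agent.Mg.F019006.Gb6f097

section

set_option autoImplicit false

namespace Pool.Agent.MP_c01216_gt

open Set Filter Topology MeasureTheory

theorem dens_nonneg (q : ℝ × ℝ) : 0 ≤ dens q := by
  unfold dens
  positivity

theorem meas_open : IsOpen HP := isOpen_lt continuous_const continuous_snd

theorem measurableSet_HP : MeasurableSet HP := meas_open.measurableSet

theorem meas_sqrt_pos (s r : ℝ) : 0 < √(1 + s ^ 2 + r ^ 2) := Real.sqrt_pos.2 (by positivity)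

theorem meas_cont : Continuous dens := by
  unfold dens
  exact Continuous.div continuous_const (by fun_prop) fun q => (pow_pos (meas_sqrt_pos _ _) 3).ne'

theorem meas_le_one (q : ℝ × ℝ) : dens q ≤ 1 := by
  unfold dens
  refine div_le_one_of_le₀ (one_le_pow₀ (Real.one_le_sqrt.2 ?_)) (by positivity)
  nlinarith [sq_nonneg q.1, sq_nonneg q.2]

/-- The mass of a vertical ray. -/
noncomputable def measPsi (s r : ℝ) : ℝ := (1 - r / √(1 + s ^ 2 + r ^ 2)) / (1 + s ^ 2)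

theorem meas_deriv (s x : ℝ) :
    HasDerivAt (fun r => r / √(1 + s ^ 2 + r ^ 2) / (1 + s ^ 2)) (dens (s, x)) x := by
  have h0 := meas_sqrt_pos s x
  have h1 : HasDerivAt (fun r : ℝ => 1 + s ^ 2 + r ^ 2) (2 * x) x := by
    simpa using ((hasDerivAt_id' x).fun_pow 2).const_add (1 + s ^ 2)
  refine (((hasDerivAt_id' x).fun_div (h1.sqrt (by positivity)) h0.ne').div_const _).congr_deriv ?_
  have h2 : √(1 + s ^ 2 + x ^ 2) ^ 2 = 1 + s ^ 2 + x ^ 2 := Real.sq_sqrt (by positivity)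
  unfold dens
  simp only
  generalize √(1 + s ^ 2 + x ^ 2) = w at h0 h2
  field_simp
  linear_combination h2

theorem meas_lim (s : ℝ) :
    Tendsto (fun r => r / √(1 + s ^ 2 + r ^ 2) / (1 + s ^ 2)) atTop (𝓝 (1 / (1 + s ^ 2))) := by
  refine Tendsto.div_const ?_ _
  have h1 : Tendsto (fun r : ℝ => (1 + s ^ 2) / (1 + s ^ 2 + r ^ 2)) atTop (𝓝 0) :=
    tendsto_const_nhds.div_atTop
      (tendsto_atTop_add_const_left _ _ (tendsto_pow_atTop two_ne_zero))
  have h2 := (h1.const_sub 1).sqrt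
  rw [sub_zero, Real.sqrt_one] at h2
  refine h2.congr' ?_
  filter_upwards [eventually_ge_atTop 0] with r hr
  have : 1 - (1 + s ^ 2) / (1 + s ^ 2 + r ^ 2) = r ^ 2 / (1 + s ^ 2 + r ^ 2) := by
    field_simp
    ring
  rw [this, Real.sqrt_div (sq_nonneg r), Real.sqrt_sq hr]

theorem meas_slice (s r : ℝ) : ∫ x in Ioi r, dens (s, x) = measPsi s r := by
  rw [integral_Ioi_of_hasDerivAt_of_nonneg' (fun x _ => meas_deriv s x)
    (fun x _ => dens_nonneg _) (meas_lim s), measPsi, sub_div]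

theorem meas_HP : HP = univ ×ˢ Ioi 0 := by
  ext q
  simp [HP]

theorem meas_psi_zero (s : ℝ) : measPsi s 0 = (1 + s ^ 2)⁻¹ := by simp [measPsi]

theorem integrableOn_dens : IntegrableOn dens HP := by
  rw [meas_HP, IntegrableOn, Measure.volume_eq_prod, ← Measure.prod_restrict,
    integrable_prod_iff meas_cont.aestronglyMeasurable]
  refine ⟨Eventually.of_forall fun s => integrableOn_Ioi_deriv_of_nonneg'
    (fun x _ => meas_deriv s x) (fun x _ => dens_nonneg _) (meas_lim s), ?_⟩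
  simp only [Real.norm_of_nonneg (dens_nonneg _), meas_slice, meas_psi_zero, Measure.restrict_univ]
  exact integrable_inv_one_add_sq

theorem meas_prod (S : Set ℝ) {r : ℝ} (hr : 0 ≤ r) :
    ∫ q in S ×ˢ Ioi r, dens q = ∫ s in S, measPsi s r := by
  have h : IntegrableOn dens (S ×ˢ Ioi r) :=
    integrableOn_dens.mono_set fun q hq => lt_of_le_of_lt hr hq.2
  rw [Measure.volume_eq_prod] at h ⊢
  rw [setIntegral_prod _ h]
  simp only [meas_slice]

theorem meas_total : ∫ q in HP, dens q = Real.pi := by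
  rw [meas_HP, meas_prod _ le_rfl]
  simp only [meas_psi_zero, Measure.restrict_univ]
  exact integral_univ_inv_one_add_sq

theorem meas_fderiv {q : ℝ × ℝ} (hq : q.2 ≠ 0) :
    HasFDerivAt (fun q : ℝ × ℝ => (q.1 / q.2, 1 / q.2))
      (Matrix.toLin (.finTwoProd ℝ) (.finTwoProd ℝ)
        !![1 / q.2, -q.1 / q.2 ^ 2; 0, -1 / q.2 ^ 2]).toContinuousLinearMap q := by
  rw [Matrix.toLin_finTwoProd_toContinuousLinearMap]
  have h := (hasDerivAt_inv hq).comp_hasFDerivAt q (hasFDerivAt_snd (𝕜 := ℝ) (E := ℝ) (F := ℝ))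
  have h' := HasFDerivAt.prodMk (𝕜 := ℝ) (hasFDerivAt_fst.mul h) h
  refine (h'.congr_fderiv ?_).congr_of_eventuallyEq (Eventually.of_forall fun p => ?_)
  · ext <;> simp <;> ring
  · simp [div_eq_mul_inv]

theorem meas_inv {q : ℝ × ℝ} (hq : 0 < q.2) :
    1 / q.2 ^ 3 * dens (q.1 / q.2, 1 / q.2) = dens q := by
  unfold dens
  have : 1 + (q.1 / q.2) ^ 2 + (1 / q.2) ^ 2 = (1 + q.1 ^ 2 + q.2 ^ 2) / q.2 ^ 2 := by
    field_simp
    ring
  have h0 := meas_sqrt_pos q.1 q.2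
  simp only
  rw [this, Real.sqrt_div' _ (sq_nonneg _), Real.sqrt_sq hq.le]
  field_simp

theorem two_sets {A B : Set (ℝ × ℝ)} (hA : MeasurableSet A) (hB : MeasurableSet B) (hA' : A ⊆ HP)
    (hB' : B ⊆ HP) (hd : ∀ q ∈ B, (q.1 / q.2, 1 / q.2) ∉ A) :
    (∫ q in A, dens q) + ∫ q in B, dens q ≤ Real.pi := by
  have hf := fun q (hq : q ∈ B) =>
    (meas_fderiv (ne_of_gt (hB' hq))).hasFDerivWithinAt (s := B)
  have hi : InjOn (fun q : ℝ × ℝ => (q.1 / q.2, 1 / q.2)) B := by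
    intro p hp q hq e
    simp only [Prod.mk.injEq, one_div, inv_inj] at e
    have h1 := e.1
    rw [e.2, div_left_inj' (ne_of_gt (hB' hq))] at h1
    exact Prod.ext h1 e.2
  have h1 := integral_image_eq_integral_abs_det_fderiv_smul volume hB hf hi dens
  have h2 := measurable_image_of_fderivWithin hB hf hi
  have h3 : (fun q : ℝ × ℝ => (q.1 / q.2, 1 / q.2)) '' B ⊆ HP := by
    rintro _ ⟨q, hq, rfl⟩
    exact one_div_pos.2 (show 0 < q.2 from hB' hq)
  rw [setIntegral_congr_fun (g := dens) hB] at h1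
  · rw [← h1, ← setIntegral_union _ h2 (integrableOn_dens.mono_set hA')
      (integrableOn_dens.mono_set h3), ← meas_total]
    · exact setIntegral_mono_set integrableOn_dens (Eventually.of_forall dens_nonneg)
        (union_subset hA' h3).eventuallyLE
    · rw [disjoint_right]
      rintro _ ⟨q, hq, rfl⟩
      exact hd q hq
  · intro q hq
    have h0 : 0 < q.2 := hB' hq
    simp only [LinearMap.det_toContinuousLinearMap, LinearMap.det_toLin, Matrix.det_fin_two_of,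
      smul_eq_mul]
    rw [← meas_inv h0, show 1 / q.2 * (-1 / q.2 ^ 2) - -q.1 / q.2 ^ 2 * 0 = -(1 / q.2 ^ 3) by ring,
      abs_neg, abs_of_pos (by positivity)]

theorem isOpen_area {τ : ℝ × ℝ → ℝ} {σ : ℝ → ℝ} {T t : ℝ} (hτ : Continuous τ)
    (hT : ∀ q ∈ HP, τ q < T) (hσ : ContinuousOn σ (Ioo 0 T)) (ht : t ∈ Ioo 0 T) :
    IsOpen {q | q ∈ HP ∧ q.1 < σ (max (τ q) t)} := by
  have h1 : ContinuousOn (fun q : ℝ × ℝ => σ (max (τ q) t) - q.1) HP :=
    (hσ.comp (hτ.max continuous_const).continuousOn fun q hq =>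
      ⟨lt_max_of_lt_right ht.1, max_lt (hT q hq) ht.2⟩).sub continuous_fst.continuousOn
  convert h1.isOpen_inter_preimage meas_open (isOpen_Ioi (a := (0 : ℝ))) using 1
  ext q
  simp

theorem meas_ind {A : Set (ℝ × ℝ)} (hA : MeasurableSet A) (hA' : A ⊆ HP) :
    Integrable (A.indicator dens) :=
  (integrable_indicator_iff hA).2 (integrableOn_dens.mono_set hA')

theorem meas_four {A A' B B' R : Set (ℝ × ℝ)} (hA : MeasurableSet A) (hA' : MeasurableSet A')
    (hB : MeasurableSet B) (hB' : MeasurableSet B') (hR : MeasurableSet R) (sA : A ⊆ HP)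
    (sA' : A' ⊆ HP) (sB : B ⊆ HP) (sB' : B' ⊆ HP) (fR : volume R ≠ ⊤)
    (h : ∀ q ∉ R, ((q ∈ A ↔ q ∈ A') ∧ (q ∈ B ↔ q ∈ B')) ∨ ((q ∈ A ↔ q ∈ B) ∧ (q ∈ A' ↔ q ∈ B'))) :
    ‖(∫ q in A, dens q) - (∫ q in B, dens q) - ((∫ q in A', dens q) - ∫ q in B', dens q)‖ ≤
      volume.real R * 2 := by
  rw [← integral_indicator hA, ← integral_indicator hB, ← integral_indicator hA',
    ← integral_indicator hB', ← integral_sub (meas_ind hA sA) (meas_ind hB sB),
    ← integral_sub (meas_ind hA' sA') (meas_ind hB' sB'),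
    ← integral_sub ((meas_ind hA sA).sub' (meas_ind hB sB))
      ((meas_ind hA' sA').sub' (meas_ind hB' sB')), ← smul_eq_mul, ← integral_indicator_const _ hR]
  refine norm_integral_le_of_norm_le ((integrable_indicator_iff hR).2 (integrableOn_const fR))
    (Eventually.of_forall fun q => ?_)
  have h0 := dens_nonneg q
  have h1 := meas_le_one q
  rw [Real.norm_eq_abs, abs_le]
  classical
  by_cases hq : q ∈ R
  · simp only [Pi.sub_apply, indicator_apply, if_pos hq]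
    split_ifs <;> constructor <;> linarith
  · rcases h q hq with ⟨e1, e2⟩ | ⟨e1, e2⟩ <;> simp [indicator_apply, hq, e1, e2]

theorem meas_Psi {r : ℝ} (hr : 0 ≤ r) (s : ℝ) :
    HasDerivAt (fun x => ∫ q in Iio x ×ˢ Ioi r, dens q) (measPsi s r) s := by
  have hc : Continuous fun x => measPsi x r := by
    unfold measPsi
    exact Continuous.div (continuous_const.sub (Continuous.div continuous_const (by fun_prop)
      fun x => (meas_sqrt_pos _ _).ne')) (by fun_prop) fun x => by positivity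
  have hi : Integrable fun x => measPsi x r := by
    refine integrable_inv_one_add_sq.mono' hc.aestronglyMeasurable
      (Eventually.of_forall fun x => ?_)
    have h0 := meas_sqrt_pos x r
    have h1 : r / √(1 + x ^ 2 + r ^ 2) ≤ 1 :=
      div_le_one_of_le₀ (Real.le_sqrt_of_sq_le (by nlinarith [sq_nonneg x])) h0.le
    have h2 : 0 ≤ r / √(1 + x ^ 2 + r ^ 2) := div_nonneg hr h0.le
    rw [measPsi, Real.norm_of_nonneg (div_nonneg (by linarith) (by positivity)), ← one_div]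
    exact div_le_div_of_nonneg_right (by linarith) (by positivity)
  have h := ((hc.integral_hasStrictDerivAt 0 s).hasDerivAt).add_const
    (∫ x in Iic (0 : ℝ), measPsi x r)
  refine h.congr_of_eventuallyEq (Eventually.of_forall fun x => ?_)
  simp only
  rw [meas_prod _ hr, ← integral_Iic_eq_integral_Iio,
    ← intervalIntegral.integral_Iic_sub_Iic hi.integrableOn hi.integrableOn, sub_add_cancel]

theorem hasDerivAt_area {τ : ℝ × ℝ → ℝ} {σ : ℝ → ℝ} {T t₀ σ' ρ₀ : ℝ} (hτ : Continuous τ)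
    (hT : ∀ q ∈ HP, τ q < T) (hanti : ∀ s, Antitone fun r => τ (s, r))
    (hσ : ContinuousOn σ (Ioo 0 T)) (ht : t₀ ∈ Ioo 0 T) (hd : HasDerivAt σ σ' t₀) (hρ : 0 < ρ₀)
    (h1 : ∀ r, ρ₀ < r → τ (σ t₀, r) < t₀) (h2 : ∀ r, r < ρ₀ → t₀ < τ (σ t₀, r)) :
    HasDerivAt (fun t => ∫ q in {q | q ∈ HP ∧ q.1 < σ (max (τ q) t)}, dens q)
      ((1 - ρ₀ / √(1 + σ t₀ ^ 2 + ρ₀ ^ 2)) / (1 + σ t₀ ^ 2) * σ') t₀ := by
  have hQ := (meas_Psi hρ.le (σ t₀)).comp t₀ hd
  suffices h : HasDerivAt (fun t => (∫ q in {q | q ∈ HP ∧ q.1 < σ (max (τ q) t)}, dens q) -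
      ∫ q in Iio (σ t) ×ˢ Ioi ρ₀, dens q) 0 t₀ by
    have h' := h.fun_add hQ
    simp only [Function.comp_apply, sub_add_cancel, zero_add] at h'
    exact h'
  obtain ⟨L, hL, hb⟩ := hd.isBigO_sub.exists_pos
  obtain ⟨δ, hδ, hb⟩ := Metric.eventually_nhds_iff.1 hb.bound
  simp only [Real.norm_eq_abs, Real.dist_eq] at hb
  rw [hasDerivAt_iff_isLittleO, Asymptotics.isLittleO_iff]
  intro c hc
  obtain ⟨e, he⟩ : ∃ e, e = c / (8 * L) := ⟨_, rfl⟩
  have e0 : 0 < e := by rw [he]; positivity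
  obtain ⟨a, a1, a2⟩ := exists_between (h1 (ρ₀ + e) (by linarith))
  obtain ⟨b, b1, b2⟩ := exists_between (h2 (ρ₀ - e) (by linarith))
  have c1 : ∀ r, Continuous fun s => τ (s, r) := fun r => by fun_prop
  obtain ⟨η, hη, hn⟩ := Metric.eventually_nhds_iff.1
    (((c1 (ρ₀ + e)).continuousAt.eventually (gt_mem_nhds a1)).and
      ((c1 (ρ₀ - e)).continuousAt.eventually (lt_mem_nhds b2)))
  simp only [Real.dist_eq] at hn
  have c2 : ContinuousAt (fun t => L * |t - t₀|) t₀ := by fun_prop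
  filter_upwards [Ioo_mem_nhds ht.1 ht.2, Ioo_mem_nhds a2 b1, Metric.ball_mem_nhds t₀ hδ,
    c2.eventually (gt_mem_nhds (show L * |t₀ - t₀| < η by simpa using hη))] with t t1 t2 t3 t4
  rw [Metric.mem_ball, Real.dist_eq] at t3
  have sQ : ∀ x, Iio x ×ˢ Ioi ρ₀ ⊆ HP := fun x q hq => hρ.trans hq.2
  have key := meas_four (R := Icc (σ t₀ - L * |t - t₀|) (σ t₀ + L * |t - t₀|) ×ˢ
      Icc (ρ₀ - e) (ρ₀ + e)) (isOpen_area hτ hT hσ t1).measurableSet
    (isOpen_area hτ hT hσ ht).measurableSet (measurableSet_Iio.prod measurableSet_Ioi)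
    (measurableSet_Iio.prod measurableSet_Ioi) (measurableSet_Icc.prod measurableSet_Icc)
    (fun q hq => hq.1) (fun q hq => hq.1) (sQ (σ t)) (sQ (σ t₀))
    (isCompact_Icc.prod isCompact_Icc).measure_lt_top.ne ?_
  · rw [smul_zero, sub_zero]
    refine key.trans (le_of_eq ?_)
    have p0 : 0 ≤ L * |t - t₀| := by positivity
    rw [Measure.volume_eq_prod, measureReal_prod_prod, Real.volume_real_Icc_of_le (by linarith),
      Real.volume_real_Icc_of_le (by linarith), Real.norm_eq_abs, he]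
    field_simp
    ring
  · rintro ⟨s, r⟩ hq
    simp only [mem_ofPred_eq, mem_prod, mem_Iio, mem_Ioi, HP]
    by_cases hs : |s - σ t₀| ≤ L * |t - t₀|
    · have hr : r < ρ₀ - e ∨ ρ₀ + e < r := by
        by_contra hr
        rw [not_or, not_lt, not_lt] at hr
        rw [abs_le] at hs
        exact hq ⟨⟨by linarith [hs.1], by linarith [hs.2]⟩, hr⟩
      obtain ⟨n1, n2⟩ := hn (hs.trans_lt t4)
      rcases hr with hr | hr
      · have h3 : b < τ (s, r) := n2.trans_le (hanti s hr.le)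
        have h4 : ¬ ρ₀ < r := by linarith
        rw [max_eq_left (t2.2.trans h3).le, max_eq_left (b1.trans h3).le]
        exact Or.inl ⟨Iff.rfl, by simp [h4]⟩
      · have h3 : τ (s, r) < a := (hanti s hr.le).trans_lt n1
        have h4 : ρ₀ < r := by linarith
        rw [max_eq_right (h3.trans t2.1).le, max_eq_right (h3.trans a2).le]
        exact Or.inr (by simp [h4, hρ.trans h4])
    · have h3 : ∀ u, |u - t₀| ≤ |t - t₀| → (s < σ u ↔ s < σ t₀) := by
        intro u hu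
        have h4 := (hb (hu.trans_lt t3)).trans (mul_le_mul_of_nonneg_left hu hL.le)
        rw [abs_le] at h4
        rw [not_le, lt_abs] at hs
        rcases hs with hs | hs <;> constructor <;> intro h5 <;> linarith [h4.1, h4.2]
      refine Or.inl ⟨and_congr_right fun _ => ?_, by rw [h3 t le_rfl]⟩
      by_cases h5 : max t t₀ ≤ τ (s, r)
      · rw [max_eq_left (le_of_max_le_left h5), max_eq_left (le_of_max_le_right h5)]
      · rw [not_le, lt_max_iff] at h5
        have h6 := le_abs_self (t - t₀)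
        have h7 := neg_abs_le (t - t₀)
        rw [h3 (max (τ (s, r)) t), h3 (max (τ (s, r)) t₀)]
        · rw [abs_le]
          refine ⟨by linarith [le_max_right (τ (s, r)) t₀, abs_nonneg (t - t₀)], ?_⟩
          rw [sub_le_iff_le_add, max_le_iff]
          rcases h5 with h5 | h5 <;> constructor <;> linarith [abs_nonneg (t - t₀)]
        · rw [abs_le]
          refine ⟨by linarith [le_max_right (τ (s, r)) t], ?_⟩
          rw [sub_le_iff_le_add, max_le_iff]
          rcases h5 with h5 | h5 <;> constructor <;> linarith [abs_nonneg (t - t₀)]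

theorem tendsto_area {ι : Type*} {l : Filter ι} [l.IsCountablyGenerated] {A : ι → Set (ℝ × ℝ)}
    (hA : ∀ᶠ i in l, MeasurableSet (A i) ∧ A i ⊆ HP) (h : ∀ q ∈ HP, ∀ᶠ i in l, q ∉ A i) :
    Tendsto (fun i => ∫ q in A i, dens q) l (𝓝 0) := by
  have h1 := tendsto_integral_filter_of_dominated_convergence (μ := volume) (l := l)
    (F := fun i => (A i).indicator dens) (f := fun _ => (0 : ℝ)) (HP.indicator dens)
    (hA.mono fun i hi => (meas_ind hi.1 hi.2).aestronglyMeasurable)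
    (hA.mono fun i hi => Eventually.of_forall fun q => by
      rw [Real.norm_of_nonneg (indicator_nonneg (fun q _ => dens_nonneg q) q)]
      exact indicator_le_indicator_of_subset hi.2 dens_nonneg q)
    (meas_ind measurableSet_HP subset_rfl) (Eventually.of_forall fun q => by
      refine tendsto_const_nhds.congr' ?_
      by_cases hq : q ∈ HP
      · exact (h q hq).mono fun i hi => (indicator_of_notMem hi _).symm
      · exact hA.mono fun i hi => (indicator_of_notMem (fun h' => hq (hi.2 h')) _).symm)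
  rw [integral_zero] at h1
  exact h1.congr' (hA.mono fun i hi => integral_indicator hi.1)

end Pool.Agent.MP_c01216_gt

end

section

set_option autoImplicit false

namespace Pool.Agent.MP_c01216_gt

open Set Filter Topology

theorem rot_aux {a c x z : ℝ → ℝ} {A B C b y l t : ℝ} (ha : HasDerivAt a A t)
    (hc : HasDerivAt c C t) (hx : HasDerivAt x (-l * a t) t) (hz : HasDerivAt z (-l * c t) t)
    (h0 : 1 + c t ≠ 0) (h1 : a t ^ 2 + b ^ 2 + c t ^ 2 = 1) (h2 : a t * x t + b * y + c t * z t = 0)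
    (h3 : a t * A + b * B + c t * C = 0) (h4 : l = A * x t + B * y + C * z t) :
    HasDerivAt (fun s => x s - z s / (1 + c s) * a s)
      (-((a t * B - b * A) / (1 + c t)) * (y - z t / (1 + c t) * b)) t := by
  refine (hx.fun_sub ((hz.fun_div (hc.const_add 1) h0).fun_mul ha)).congr_deriv ?_
  rw [h4]
  field_simp
  linear_combination (-A * (1 + c t)) * h2 - a t * z t * h3 + z t * A * h1

theorem rot {n n' v : ℝ → E3} {lam : ℝ → ℝ} {T : ℝ} (hT : 0 ≤ T)
    (hn : ∀ t, HasDerivAt n (n' t) t) (hn' : Continuous n')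
    (hv : ∀ t, HasDerivAt v (-(lam t) • n t) t) (n1 : ∀ t, ‖n t‖ = 1) (v1 : ∀ t, ‖v t‖ = 1)
    (nv : ∀ t, inner ℝ (n t) (v t) = 0) (hz : ∀ t ∈ Icc 0 T, 0 ≤ n t 2) (v0 : v 0 = pt 1 0 0) :
    Real.cos (∫ t in (0 : ℝ)..T, (n t 0 * n' t 1 - n t 1 * n' t 0) / (1 + n t 2)) =
      v T 0 - v T 2 / (1 + n T 2) * n T 0 := by
  have dn : ∀ t i, HasDerivAt (fun s => n s i) (n' t i) t := fun t i => hasDerivAt_co (hn t) i
  have dv : ∀ t i, HasDerivAt (fun s => v s i) (-lam t * n t i) t :=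
    fun t i => hasDerivAt_co (hv t) i
  have e1 : ∀ t, n t 0 ^ 2 + n t 1 ^ 2 + n t 2 ^ 2 = 1 := fun t => by
    rw [← norm_sq3, n1, one_pow]
  have e2 : ∀ t, n t 0 * v t 0 + n t 1 * v t 1 + n t 2 * v t 2 = 0 := fun t => by
    rw [← inner3, nv]
  have e3 : ∀ t, n t 0 * n' t 0 + n t 1 * n' t 1 + n t 2 * n' t 2 = 0 := fun t => by
    have h := (((dn t 0).fun_pow 2).fun_add ((dn t 1).fun_pow 2)).fun_add ((dn t 2).fun_pow 2)
    simp only [e1] at h
    have h' := h.unique (hasDerivAt_const t 1)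
    norm_num at h'
    linarith
  have e4 : ∀ t, lam t = n' t 0 * v t 0 + n' t 1 * v t 1 + n' t 2 * v t 2 := fun t => by
    have h := (((dn t 0).fun_mul (dv t 0)).fun_add ((dn t 1).fun_mul (dv t 1))).fun_add
      ((dn t 2).fun_mul (dv t 2))
    simp only [e2] at h
    have h' := h.unique (hasDerivAt_const t 0)
    linear_combination -h' - lam t * e1 t
  have cn : Continuous n := continuous_iff_continuousAt.2 fun t => (hn t).continuousAt
  obtain ⟨w, hw⟩ : ∃ w : ℝ → ℝ,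
      w = fun t => (n t 0 * n' t 1 - n t 1 * n' t 0) / (1 + max (n t 2) 0) := ⟨_, rfl⟩
  have cw : Continuous w := by
    rw [hw]
    refine Continuous.div (by fun_prop) (by fun_prop) fun t => ?_
    have := le_max_right (n t 2) 0
    linarith
  have ew : ∀ t ∈ Icc 0 T, w t = (n t 0 * n' t 1 - n t 1 * n' t 0) / (1 + n t 2) := fun t ht => by
    rw [hw]
    simp only [max_eq_left (hz t ht)]
  have dc : ∀ t, HasDerivAt (fun s => ∫ r in (0 : ℝ)..s, w r) (w t) t :=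
    fun t => (cw.integral_hasStrictDerivAt 0 t).hasDerivAt
  have key : ∀ t ∈ Icc 0 T, HasDerivAt (fun s =>
      (v s 0 - v s 2 / (1 + n s 2) * n s 0 - Real.cos (∫ r in (0 : ℝ)..s, w r)) ^ 2 +
      (v s 1 - v s 2 / (1 + n s 2) * n s 1 - Real.sin (∫ r in (0 : ℝ)..s, w r)) ^ 2) 0 t := by
    intro t ht
    have h0 : 1 + n t 2 ≠ 0 := by
      have := hz t ht
      linarith
    have d0 := rot_aux (dn t 0) (dn t 2) (dv t 0) (dv t 2) h0 (e1 t) (e2 t) (e3 t) (e4 t)
    have d1 := rot_aux (b := n t 0) (y := v t 0) (B := n' t 0) (dn t 1) (dn t 2) (dv t 1) (dv t 2)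
      h0 (by linarith [e1 t]) (by linarith [e2 t]) (by linarith [e3 t]) (by linarith [e4 t])
    refine (((d0.fun_sub (dc t).cos).fun_pow 2).fun_add
      ((d1.fun_sub (dc t).sin).fun_pow 2)).congr_deriv ?_
    rw [ew t ht]
    push_cast
    ring
  have h := constant_of_has_deriv_right_zero
    (fun t ht => (key t ht).continuousAt.continuousWithinAt)
    (fun t ht => (key t (Ico_subset_Icc_self ht)).hasDerivWithinAt) T ⟨hT, le_rfl⟩
  simp only [v0, pt_0, pt_1, pt_2, intervalIntegral.integral_same, Real.cos_zero,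
    Real.sin_zero, zero_div, zero_mul, sub_zero, sub_self, ne_eq, OfNat.ofNat_ne_zero,
    not_false_eq_true, zero_pow, add_zero] at h
  rw [← intervalIntegral.integral_congr (f := w) fun t ht => ew t (by rwa [uIcc_of_le hT] at ht)]
  have h5 := ((add_eq_zero_iff_of_nonneg (sq_nonneg _) (sq_nonneg _)).1 h).1
  exact (sub_eq_zero.1 ((pow_eq_zero_iff two_ne_zero).1 h5)).symm

end Pool.Agent.MP_c01216_gt

end

section

set_option autoImplicit false

namespace Pool.Agent.MP_c01216_gt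

open Set Filter Topology MeasureTheory

variable {F : E3 → ℝ} {a v : ℝ → E3} {T y₂ y₁ : ℝ}

theorem Body.slope_lt (h : Body F) {p q : E3} (hp : F p = 0) (hq : F q = 0) (p0 : 0 < p 0)
    (q0 : 0 < q 0) {s s' r r' : ℝ} (e1 : gradient F p 1 = s * gradient F p 0)
    (e2 : gradient F p 2 = r * gradient F p 0) (e3 : gradient F q 1 = s' * gradient F q 0)
    (e4 : gradient F q 2 = r' * gradient F q 0) (hne : s ≠ s' ∨ r ≠ r') :
    0 < (s' - s) * (q 1 - p 1) + (r' - r) * (q 2 - p 2) := by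
  have g1 := h.g0_pos p0
  have g2 := h.g0_pos q0
  have hn : q ≠ p := by
    rintro rfl
    rcases hne with h1 | h1
    · exact h1 (mul_right_cancel₀ g1.ne' (e1.symm.trans e3))
    · exact h1 (mul_right_cancel₀ g1.ne' (e2.symm.trans e4))
  have h1 := h.supp hp hq.le hn
  have h2 := h.supp hq hp.le hn.symm
  rw [e1, e2] at h1
  rw [e3, e4] at h2
  have h3 : q 0 - p 0 + s * (q 1 - p 1) + r * (q 2 - p 2) < 0 :=
    neg_of_mul_neg_left (by linarith) g1.le
  have h4 : p 0 - q 0 + s' * (p 1 - q 1) + r' * (p 2 - q 2) < 0 :=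
    neg_of_mul_neg_left (by linarith) g2.le
  linarith

theorem Body.z_pos (h : Body F) {p : E3} (hp : 0 < gradient F p 2) : 0 < p 2 := by
  rcases lt_trichotomy (p 2) 0 with h1 | h1 | h1
  · exact absurd hp (h.g2_neg h1).le.not_gt
  · exact absurd hp (h.g2_zero h1).le.not_gt
  · exact h1

theorem Geo.normal (h : Body F) (g : Geo F a v) : ∃ n n' : ℝ → E3, ∃ c : ℝ → ℝ,
    (∀ t, HasDerivAt n (n' t) t) ∧ Continuous n' ∧ (∀ t, ‖n t‖ = 1) ∧ (∀ t, 0 < c t) ∧
      ∀ t, gradient F (a t) = c t • n t := by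
  have h1 : ContDiff ℝ 1 fun t => gradient F (a t) :=
    (h.contDiff_grad.of_le (by norm_num)).comp ((g.contDiff h).of_le (by norm_num))
  have h0 : ∀ t, gradient F (a t) ≠ 0 := fun t => h.grad_ne (g.on t)
  have h2 : ContDiff ℝ 1 fun t => ‖gradient F (a t)‖⁻¹ • gradient F (a t) :=
    ((h1.norm ℝ h0).inv fun t => norm_ne_zero_iff.2 (h0 t)).smul h1
  refine ⟨_, _, fun t => ‖gradient F (a t)‖, fun t => (h2.differentiable one_ne_zero t).hasDerivAt,
    h2.continuous_deriv le_rfl, fun t => norm_smul_inv_norm (h0 t), fun t => norm_pos_iff.2 (h0 t),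
    fun t => ?_⟩
  rw [smul_smul, mul_inv_cancel₀ (norm_ne_zero_iff.2 (h0 t)), one_smul]

theorem gb_alg {x y z x' y' : ℝ} (hx : 0 < x) (hz : 0 ≤ z) (e : x ^ 2 + y ^ 2 + z ^ 2 = 1) :
    (1 - z / x / √(1 + (y / x) ^ 2 + (z / x) ^ 2)) / (1 + (y / x) ^ 2) * ((y' * x - y * x') / x ^ 2)
      = (x * y' - y * x') / (1 + z) := by
  have h1 : √(1 + (y / x) ^ 2 + (z / x) ^ 2) = 1 / x := by
    rw [Real.sqrt_eq_iff_mul_self_eq (by positivity) (by positivity)]
    field_simp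
    linarith
  have h2 : 0 < x ^ 2 + y ^ 2 := by positivity
  rw [h1]
  field_simp
  linear_combination (-(y' * x - y * x')) * e

theorem gb (h : Body F) (hp : Poles F y₂ y₁) (A : Arc F y₂ a v T) :
    ∃ W, MeasurableSet W ∧ W ⊆ HP ∧ Real.pi / 2 < ∫ q in W, dens q ∧ ∀ q ∈ W, ∃ p, F p = 0 ∧
      0 < p 0 ∧ 0 < p 2 ∧ gradient F p 1 = q.1 * gradient F p 0 ∧
      gradient F p 2 = q.2 * gradient F p 0 ∧ Below a T p := by
  obtain ⟨P, cP, hP⟩ := h.exists_P
  obtain ⟨τ, I⟩ := A.exists_inv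
  obtain ⟨n, n', c, dn, cn', n1, c0, hc⟩ := A.geo.normal h
  have hco : ∀ t i, gradient F (a t) i = c t * n t i := fun t i => by rw [hc]; rfl
  have cn : Continuous n := continuous_iff_continuousAt.2 fun t => (dn t).continuousAt
  have Pz : ∀ q ∈ HP, 0 < P q 2 := fun q hq => h.z_pos <| by
    rw [(hP q).2.2.2]
    exact mul_pos hq (h.g0_pos (hP q).2.1)
  have n0 : ∀ t ∈ Ioo 0 T, 0 < n t 0 := fun t ht =>
    (mul_pos_iff_of_pos_left (c0 t)).1 (hco t 0 ▸ h.g0_pos (A.xpos t ht))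
  have n2 : ∀ t ∈ Icc 0 T, 0 ≤ n t 2 := fun t ht => by
    refine nonneg_of_mul_nonneg_right ?_ (c0 t)
    rw [← hco]
    rcases (A.znn ht).eq_or_lt with e | e
    · exact (h.g2_zero e.symm).ge
    · exact (h.g2_pos e).le
  have k1 : ∀ t ∈ Ioo 0 T, ∀ i, gradient F (a t) i = n t i / n t 0 * gradient F (a t) 0 :=
    fun t ht i => by
      rw [hco, hco]
      field_simp [(n0 t ht).ne']
  have cτ : Continuous fun q => τ (P q 2) := I.cont.comp (continuous_co cP 2)
  have hT : ∀ q ∈ HP, τ (P q 2) < T := fun q hq =>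
    I.lt_of ⟨A.pos, le_rfl⟩ (A.zT.trans_lt (Pz q hq))
  have mono : ∀ s r r', r < r' → P (s, r) 2 < P (s, r') 2 := fun s r r' hr => by
    have := h.slope_lt (hP (s, r)).1 (hP (s, r')).1 (hP _).2.1 (hP _).2.1 (hP _).2.2.1
      (hP _).2.2.2 (hP _).2.2.1 (hP _).2.2.2 (Or.inr hr.ne)
    simp only [sub_self, zero_mul, zero_add] at this
    exact sub_pos.1 ((mul_pos_iff_of_pos_left (sub_pos.2 hr)).1 this)
  have cσ : ContinuousOn (fun t => n t 1 / n t 0) (Ioo 0 T) :=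
    (continuous_co cn 1).continuousOn.div (continuous_co cn 0).continuousOn
      fun t ht => (n0 t ht).ne'
  have cω : ContinuousOn (fun t => (n t 0 * n' t 1 - n t 1 * n' t 0) / (1 + n t 2)) (Icc 0 T) :=
    ContinuousOn.div (by fun_prop) (by fun_prop) fun t ht => by linarith [n2 t ht]
  set ω := fun t => (n t 0 * n' t 1 - n t 1 * n' t 0) / (1 + n t 2) with hω
  set B := fun t => {q | q ∈ HP ∧ q.1 < (fun t => n t 1 / n t 0) (max (τ (P q 2)) t)} with hB
  have dm : ∀ t ∈ Ioo 0 T, HasDerivAt (fun t => ∫ q in B t, dens q) (ω t) t := fun t ht => by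
    have e : P (n t 1 / n t 0, n t 2 / n t 0) = a t := by
      have g1 := h.g0_pos (hP (n t 1 / n t 0, n t 2 / n t 0)).2.1
      refine h.eq_of_normal (hP _).1 (A.geo.on t) (div_pos (h.g0_pos (A.xpos t ht)) g1)
        (ext3 ?_ ?_ ?_)
      · simp only [PiLp.smul_apply, smul_eq_mul]
        field_simp
      · simp only [PiLp.smul_apply, smul_eq_mul, (hP _).2.2.1, k1 t ht 1]
        field_simp
      · simp only [PiLp.smul_apply, smul_eq_mul, (hP _).2.2.2, k1 t ht 2]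
        field_simp
    have hz := n2 t (Ioo_subset_Icc_self ht)
    have hρ : 0 < n t 2 / n t 0 := div_pos ((mul_pos_iff_of_pos_left (c0 t)).1
      (hco t 2 ▸ h.g2_pos (A.zpos t ⟨ht.1.le, ht.2⟩))) (n0 t ht)
    have := hasDerivAt_area (τ := fun q => τ (P q 2)) cτ hT
      (fun s r r' hr => I.anti (monotone_iff_forall_lt.2 (fun r r' h => (mono s r r' h).le) hr))
      cσ ht ((hasDerivAt_co (dn t) 1).div (hasDerivAt_co (dn t) 0) (n0 t ht).ne') hρ
      (fun r hr => I.lt_of ⟨ht.1, ht.2.le⟩ ((congrArg (fun p : E3 => p 2) e).symm.trans_lt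
        (mono _ _ _ hr)))
      (fun r hr => I.gt_of ⟨ht.1.le, ht.2⟩ ((mono _ _ _ hr).trans_eq
        (congrArg (fun p : E3 => p 2) e)))
    rwa [gb_alg (n0 t ht) hz (by rw [← norm_sq3, n1, one_pow])] at this
  have iω : IntegrableOn ω (uIcc 0 T) := by
    rw [uIcc_of_le A.pos.le]
    exact cω.integrableOn_Icc
  have cI : ContinuousOn (fun t => ∫ u in (0 : ℝ)..t, ω u) (Icc 0 T) := by
    have := intervalIntegral.continuousOn_primitive_interval iω
    rwa [uIcc_of_le A.pos.le] at this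
  have dI : ∀ t ∈ Ioo 0 T, HasDerivAt (fun t => ∫ u in (0 : ℝ)..t, ω u) (ω t) t := fun t ht =>
    intervalIntegral.integral_hasDerivAt_right
      ((cω.mono (Icc_subset_Icc_right ht.2.le)).intervalIntegrable_of_Icc ht.1.le)
      ((cω.mono Ioo_subset_Icc_self).stronglyMeasurableAtFilter isOpen_Ioo t ht)
      (cω.continuousAt (Icc_mem_nhds ht.1 ht.2))
  obtain ⟨C, hC⟩ := isOpen_Ioo.exists_is_const_of_deriv_eq_zero isPreconnected_Ioo
    (fun t ht => ((dm t ht).sub (dI t ht)).differentiableAt.differentiableWithinAt)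
    fun t ht => ((dm t ht).sub (dI t ht)).deriv.trans (sub_self _)
  have mB : ∀ t ∈ Ioo 0 T, MeasurableSet (B t) := fun t ht =>
    (isOpen_area cτ hT cσ ht).measurableSet
  have out : ∀ (s t₀ : ℝ), a t₀ 0 = 0 → gradient F (a t₀) 1 < 0 →
      ∀ᶠ t in 𝓝 t₀, t ∈ Ioo 0 T → n t 1 / n t 0 < s := fun s t₀ e1 e2 => by
    have e3 : n t₀ 0 = 0 := (mul_eq_zero.1 (hco t₀ 0 ▸ h.g0_zero e1)).resolve_left (c0 t₀).ne'
    have e4 : n t₀ 1 < 0 := neg_of_mul_neg_right (hco t₀ 1 ▸ e2) (c0 t₀).le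
    have e5 : Continuous fun t => n t 1 - s * n t 0 := by fun_prop
    filter_upwards [(e5.tendsto t₀).eventually_lt_const (by rwa [e3, mul_zero, sub_zero])]
      with t h1 h2
    rw [div_lt_iff₀ (n0 t h2)]
    linarith
  have lim1 : Tendsto (fun t => ∫ q in B t, dens q) (𝓝[<] T) (𝓝 0) := by
    refine tendsto_area ?_ fun q hq => ?_
    · filter_upwards [Ioo_mem_nhdsLT A.pos] with t ht using ⟨mB t ht, fun q hq => hq.1⟩
    · filter_upwards [Ioo_mem_nhdsLT A.pos, Ioo_mem_nhdsLT (hT q hq), (out q.1 T (by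
        rw [A.stop, pt_0]) (A.stop ▸ hp.gbot)).filter_mono nhdsWithin_le_nhds] with t h1 h2 h3 h4
      have h5 := h4.2
      simp only [max_eq_right h2.1.le] at h5
      exact lt_asymm h5 (h3 h1)
  have eC : C = -∫ u in (0 : ℝ)..T, ω u := by
    have h1 : Tendsto (fun t => ∫ u in (0 : ℝ)..t, ω u) (𝓝[<] T) (𝓝 (∫ u in (0 : ℝ)..T, ω u)) := by
      rw [← nhdsWithin_Ico_eq_nhdsLT A.pos]
      exact (cI T ⟨A.pos.le, le_rfl⟩).tendsto.mono_left (nhdsWithin_mono _ Ico_subset_Icc_self)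
    have h2 := lim1.sub h1
    rw [zero_sub] at h2
    exact tendsto_nhds_unique (tendsto_const_nhds.congr' (by
      filter_upwards [Ioo_mem_nhdsLT A.pos] with t ht using (hC t ht).symm)) h2
  have lim0 : Tendsto (fun t => ∫ q in B t, dens q) (𝓝[>] 0) (𝓝 C) := by
    have h1 : Tendsto (fun t => ∫ u in (0 : ℝ)..t, ω u) (𝓝[>] 0) (𝓝 (∫ u in (0 : ℝ)..0, ω u)) := by
      rw [← nhdsWithin_Ioc_eq_nhdsGT A.pos]
      exact (cI 0 ⟨le_rfl, A.pos.le⟩).tendsto.mono_left (nhdsWithin_mono _ Ioc_subset_Icc_self)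
    have h2 := h1.const_add C
    rw [intervalIntegral.integral_same, add_zero] at h2
    refine h2.congr' ?_
    filter_upwards [Ioo_mem_nhdsGT A.pos] with t ht
    rw [← hC t ht]
    exact sub_add_cancel _ _
  have C0 : 0 ≤ C := ge_of_tendsto' lim0 fun t => integral_nonneg dens_nonneg
  have mW : MeasurableSet {q | q ∈ HP ∧ side a τ (P q) < 0} :=
    measurableSet_HP.inter
      (isOpen_lt ((A.cont_side I).comp cP) continuous_const).measurableSet
  have lim2 : Tendsto (fun t => ∫ q in B t \ {q | q ∈ HP ∧ side a τ (P q) < 0}, dens q) (𝓝[>] 0)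
      (𝓝 0) := by
    refine tendsto_area ?_ fun q hq => ?_
    · filter_upwards [Ioo_mem_nhdsGT A.pos] with t ht using
        ⟨(mB t ht).diff mW, fun q hq => hq.1.1⟩
    by_cases hW : side a τ (P q) < 0
    · exact Eventually.of_forall fun t h1 => h1.2 ⟨hq, hW⟩
    rw [side, not_lt, sub_nonneg] at hW
    rcases (I.mem (P q 2)).1.eq_or_lt with e | e
    · have e1 : a 0 2 ≤ P q 2 := le_of_not_gt fun h1 => (I.gt_of ⟨le_rfl, A.pos⟩ h1).ne e
      rw [← e] at hW
      have e2 := h.supp (A.geo.on 0) (hP q).1.le fun e' => by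
        have := (hP q).2.1
        rw [e', A.x0] at this
        exact lt_irrefl _ this
      rw [h.g0_zero A.x0] at e2
      have e3 := mul_nonneg (h.g2_pos (A.zpos 0 ⟨le_rfl, A.pos⟩)).le (sub_nonneg.2 e1)
      filter_upwards [Ioo_mem_nhdsGT A.pos, (out q.1 0 A.x0 (neg_of_mul_neg_right (by linarith)
        (sub_nonneg.2 hW))).filter_mono nhdsWithin_le_nhds] with t h1 h3 h4
      have h5 := h4.1.2
      simp only [← e, max_eq_right h1.1.le] at h5
      exact lt_asymm h5 (h3 h1)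
    · filter_upwards [Ioo_mem_nhdsGT e] with t h1 h4
      have h5 := h4.1.2
      simp only [max_eq_left h1.2.le] at h5
      have ht : τ (P q 2) ∈ Ioo 0 T := ⟨e, hT q hq⟩
      have h6 := h.slope_lt (hP q).1 (A.geo.on _) (hP q).2.1 (A.xpos _ ht) (hP q).2.2.1
        (hP q).2.2.2 (k1 _ ht 1) (k1 _ ht 2) (Or.inl h5.ne)
      have h7 : a (τ (P q 2)) 2 = P q 2 := I.eq_of_mem ht.1 ht.2
      rw [h7, sub_self, mul_zero, add_zero] at h6
      linarith [(mul_pos_iff_of_pos_left (sub_pos.2 h5)).1 h6]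
  have C1 : C ≤ ∫ q in {q | q ∈ HP ∧ side a τ (P q) < 0}, dens q := by
    have h1 := lim0.sub lim2
    rw [sub_zero] at h1
    refine le_of_tendsto h1 ?_
    filter_upwards [Ioo_mem_nhdsGT A.pos] with t ht
    rw [← integral_inter_add_sdiff mW (integrableOn_dens.mono_set fun q (hq : q ∈ B t) => hq.1),
      add_sub_cancel_right]
    exact setIntegral_mono_set (integrableOn_dens.mono_set fun q hq => hq.1)
      (Eventually.of_forall dens_nonneg) inter_subset_right.eventuallyLE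
  have hr := rot (lam := fun t => mu F (a t) (v t) * c t) A.pos.le dn cn' (fun t => by
    have := A.geo.d2 t
    rwa [hc, smul_smul, neg_mul] at this) n1 A.geo.unit (fun t => by
      have := A.geo.tan h t
      rw [hco, hco, hco] at this
      rw [inner3]
      exact mul_left_cancel₀ (c0 t).ne' (by linear_combination this)) n2 A.v0
  have e3 : n T 0 = 0 :=
    (mul_eq_zero.1 (hco T 0 ▸ h.g0_zero (by rw [A.stop, pt_0]))).resolve_left (c0 T).ne'
  rw [e3, mul_zero, sub_zero, ← Real.cos_neg, ← eC] at hr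
  refine ⟨_, mW, fun q hq => hq.1, lt_of_lt_of_le (lt_of_not_ge fun h1 => ?_) C1, fun q hq =>
    ⟨P q, (hP q).1, (hP q).2.1, Pz q hq.1, (hP q).2.2.1, (hP q).2.2.2,
      A.below_of_side I (Pz q hq.1).le hq.2⟩⟩
  have := Real.cos_nonneg_of_mem_Icc ⟨by linarith [Real.pi_pos], h1⟩
  linarith [A.vneg]

end Pool.Agent.MP_c01216_gt

end

section

set_option autoImplicit false

namespace Pool.Agent.MP_c01216_gt

open Set Filter Topology

variable {F : E3 → ℝ} {y₂ y₁ : ℝ}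

theorem theta_return {x : ℝ → ℝ} (hc : Continuous x) (hd : HasDerivAt x 1 0) (h0 : x 0 = 0)
    {b : ℝ} (hb : 0 < b) (hb' : x b ≤ 0) : ∃ R, 0 < R ∧ x R = 0 ∧ ∀ t ∈ Ioo 0 R, 0 < x t := by
  have h1 := (hasDerivAt_iff_tendsto_slope_left_right.1 hd).2.eventually (lt_mem_nhds one_pos)
  obtain ⟨d, hd0, h2⟩ := (mem_nhdsGT_iff_exists_Ioc_subset).1 h1
  have h3 : ∀ t ∈ Ioc 0 d, 0 < x t := fun t ht => by
    have := h2 ht
    simp only [mem_ofPred_eq, slope_def_field, h0, sub_zero] at this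
    exact (div_pos_iff_of_pos_right ht.1).1 this
  have h4 : d ≤ b := not_lt.1 fun h => (h3 b ⟨hb, h.le⟩).not_ge hb'
  obtain ⟨c, hc1, hc2⟩ : ∃ c ∈ Icc d b, x c = 0 :=
    intermediate_value_Icc' h4 hc.continuousOn ⟨hb', (h3 d ⟨hd0, le_rfl⟩).le⟩
  have hK : IsCompact (Icc d b ∩ x ⁻¹' {0}) :=
    isCompact_Icc.inter_right (isClosed_singleton.preimage hc)
  obtain ⟨R, hR, hmin⟩ := hK.exists_isLeast ⟨c, hc1, hc2⟩
  refine ⟨R, lt_of_lt_of_le hd0 hR.1.1, hR.2, fun t ht => not_le.1 fun h => ?_⟩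
  have h5 : d ≤ t := not_lt.1 fun h' => (h3 t ⟨ht.1, h'.le⟩).not_ge h
  obtain ⟨e, he1, he2⟩ : ∃ e ∈ Icc d t, x e = 0 :=
    intermediate_value_Icc' h5 hc.continuousOn ⟨h, (h3 d ⟨hd0, le_rfl⟩).le⟩
  exact (hmin ⟨⟨he1.1, he1.2.trans (ht.2.le.trans hR.1.2)⟩, he2⟩).not_gt (he1.2.trans_lt ht.2)

theorem theta_equator (h : Body F) {σ y y' : ℝ} (hσ : σ ≠ 0) (hy : F (pt 0 y 0) = 0)
    (lo : ∀ p, F p ≤ 0 → p ≠ pt 0 y 0 → σ * y < σ * p 1)
    (hi : ∀ p, F p ≤ 0 → p ≠ pt 0 y' 0 → σ * p 1 < σ * y')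
    (pole : ∀ p, F p = 0 → p 0 = 0 → p 2 = 0 → p = pt 0 y 0 ∨ p = pt 0 y' 0)
    {E : E3} (hE : F E = 0) (h0 : 0 < E 0) (h2 : E 2 = 0) :
    ∃ (κ u : ℝ → E3) (τ : ℝ), Geo F κ u ∧ κ 0 0 = 0 ∧ u 0 = pt 1 0 0 ∧ 0 < τ ∧ κ τ = E ∧
      (∀ t, κ t 2 = 0 ∧ u t 2 = 0) ∧ (∀ t ∈ Ioc 0 τ, 0 < κ t 0) ∧ 0 < σ * u τ 1 ∧
      InjOn (fun t => κ t 1) (Icc 0 τ) := by
  obtain ⟨Γ, V, -, -, e0, hg⟩ := h.exists_flow
  have g := hg (pt 0 y 0, pt 1 0 0) hy (by simp [fderiv_eq3, h.g0_zero (p := pt 0 y 0) rfl])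
    ((pow_eq_one_iff_of_nonneg (norm_nonneg _) two_ne_zero).1 (by simp [norm_sq3]))
  obtain ⟨e1, e2⟩ := e0 (pt 0 y 0, pt 1 0 0)
  generalize Γ (pt 0 y 0, pt 1 0 0) = κ at g e1
  generalize V (pt 0 y 0, pt 1 0 0) = u at g e2
  have pl := g.plane h (t₀ := 0) (by rw [e1]; rfl) (by rw [e2]; rfl)
  obtain ⟨T₀, -, hT⟩ := h.exists_time
  obtain ⟨b, hb, hb'⟩ := (hT κ u g).1
  obtain ⟨R, hR, hR0, hx⟩ := theta_return (continuous_co g.cγ 0)
    (by simpa [e2] using g.dx 0 0) (by rw [e1]; rfl) hb.1 hb'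
  have dy : ∀ t, HasDerivAt (fun s => σ * κ s 1) (σ * u t 1) t := fun t => (g.dx 1 t).const_mul σ
  have cy : Continuous fun s => σ * κ s 1 := continuous_const.mul (continuous_co g.cγ 1)
  have ne : ∀ t ∈ Ioo 0 R, σ * u t 1 ≠ 0 := fun t ht h1 => by
    have h3 := (mul_eq_zero.1 h1).resolve_left hσ
    have h4 := g.tan h t
    have h5 := g.sq t
    rw [h3, (pl t).2, mul_zero, mul_zero, add_zero, add_zero] at h4
    rw [h3, (pl t).2, (mul_eq_zero.1 h4).resolve_left (h.g0_pos (hx t ht)).ne'] at h5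
    norm_num at h5
  have pos : ∀ t ∈ Ioo 0 R, 0 < σ * u t 1 := fun t ht => not_le.1 fun h1 => by
    obtain ⟨c, hc, hc'⟩ := exists_hasDerivAt_eq_slope _ _ ht.1 cy.continuousOn fun s _ => dy s
    have h3 : σ * κ 0 1 < σ * κ t 1 := by
      rw [e1]
      exact lo _ (g.on t).le fun e => (hx t ht).ne' (by rw [e]; rfl)
    have h4 : 0 ≤ σ * u c 1 := by
      rw [hc']
      exact div_nonneg (sub_nonneg.2 h3.le) (sub_nonneg.2 ht.1.le)
    obtain ⟨e, he1, he2⟩ : ∃ e ∈ Icc c t, σ * u e 1 = 0 := intermediate_value_Icc' hc.2.le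
      (continuous_const.mul (continuous_co g.cv 1)).continuousOn ⟨h1, h4⟩
    exact ne e ⟨hc.1.trans_le he1.1, he1.2.trans_lt ht.2⟩ he2
  have mono : StrictMonoOn (fun s => σ * κ s 1) (Icc 0 R) :=
    strictMonoOn_of_deriv_pos (convex_Icc _ _) cy.continuousOn fun t ht => by
      rw [interior_Icc] at ht
      rw [(dy t).deriv]
      exact pos t ht
  have h3 : κ R = pt 0 y' 0 := (pole _ (g.on R) hR0 (pl R).1).resolve_left fun e => by
    have := mono ⟨le_rfl, hR.le⟩ ⟨hR.le, le_rfl⟩ hR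
    simp only [e, e1] at this
    exact lt_irrefl _ this
  obtain ⟨τ, hτ, hτ'⟩ : ∃ τ ∈ Ioo 0 R, σ * κ τ 1 = σ * E 1 :=
    intermediate_value_Ioo hR.le cy.continuousOn (by
      simp only [e1, h3]
      exact ⟨lo E hE.le fun e => h0.ne' (by rw [e]; rfl), hi E hE.le fun e => h0.ne' (by rw [e]; rfl)⟩)
  refine ⟨κ, u, τ, g, by rw [e1]; rfl, e2, hτ.1, h.eq_of_yz (g.on τ) hE (hx τ hτ).le h0.le
    (mul_left_cancel₀ hσ hτ') ((pl τ).1.trans h2.symm), pl,
    fun t ht => hx t ⟨ht.1, ht.2.trans_lt hτ.2⟩, pos τ hτ, fun s hs t ht e => ?_⟩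
  exact mono.injOn ⟨hs.1, hs.2.trans hτ.2.le⟩ ⟨ht.1, ht.2.trans hτ.2.le⟩ (congrArg (σ * ·) e)

/-- The symmetric piece of a geodesic, on the unit interval. -/
def thetaArc (a : ℝ → E3) (T : ℝ) (s : ℝ) : E3 := a ((2 * s - 1) * T)

section Arc

variable {a v : ℝ → E3} {T : ℝ}

theorem theta_lin (T s : ℝ) : HasDerivAt (fun s : ℝ => (2 * s - 1) * T) (2 * T) s := by
  simpa using (((hasDerivAt_id' s).const_mul 2).sub_const 1).mul_const T

theorem theta_deriv (g : Geo F a v) (T : ℝ) :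
    deriv (thetaArc a T) = fun s => (2 * T) • v ((2 * s - 1) * T) :=
  funext fun s => ((g.d1 _).scomp s (theta_lin T s)).deriv

theorem theta_unit (g : Geo F a v) (hT : 0 < T) (s : ℝ) :
    ‖deriv (thetaArc a T) s‖⁻¹ • deriv (thetaArc a T) s = v ((2 * s - 1) * T) := by
  have : 0 < 2 * T := by positivity
  simp only [theta_deriv g]
  rw [norm_smul, g.unit, mul_one, Real.norm_of_nonneg this.le, smul_smul, inv_mul_cancel₀ this.ne',
    one_smul]

theorem theta_geo (h : Body F) (g : Geo F a v) (hT : 0 < T) : IsGeodesic F (thetaArc a T) := by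
  refine ⟨(g.contDiff h).comp (f := fun s : ℝ => (2 * s - 1) * T) (by fun_prop),
    fun s _ => ⟨g.on _, fun e => ?_, ?_⟩⟩
  · have h1 := theta_unit g hT s
    have h2 := g.unit ((2 * s - 1) * T)
    rw [← h1, e] at h2
    simp at h2
  · refine ⟨(2 * T) * ((2 * T) * -(mu F (thetaArc a T s) (v ((2 * s - 1) * T)))), ?_⟩
    rw [theta_deriv g, ← smul_smul (2 * T), ← smul_smul (2 * T)]
    exact (((g.d2 _).scomp s (theta_lin T s)).const_smul (2 * T)).deriv

theorem theta_abs (h : Body F) (g : Geo F a v) (h0 : a 0 0 = 0) (h1 : v 0 = pt 1 0 0) (t : ℝ) :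
    a |t| = a t ∨ a |t| = Rx (a t) := by
  rcases abs_choice t with e | e <;> rw [e]
  · exact Or.inl rfl
  · exact Or.inr (g.sym_x h h0 h1 t).1

theorem theta_mem (hT : 0 < T) {s : ℝ} (hs : s ∈ Icc (0 : ℝ) 1) : |(2 * s - 1) * T| ∈ Icc 0 T :=
  ⟨abs_nonneg _, abs_le.2 ⟨by nlinarith [hs.1], by nlinarith [hs.2]⟩⟩

theorem theta_inj (h : Body F) (g : Geo F a v) (h0 : a 0 0 = 0) (h1 : v 0 = pt 1 0 0) (hT : 0 < T)
    (hx : ∀ t ∈ Ioc 0 T, 0 < a t 0) {j : Fin 3} (hj : ∀ p, Rx p j = p j)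
    (hi : InjOn (fun t => a t j) (Icc 0 T)) : InjOn (thetaArc a T) (Icc 0 1) := by
  intro s hs t ht e
  have h2 : ∀ t, a |t| j = a t j := fun t => by
    rcases theta_abs h g h0 h1 t with e | e <;> rw [e]
    exact hj _
  unfold thetaArc at e
  have h3 := hi (theta_mem hT hs) (theta_mem hT ht) (by simp only [h2, e])
  have h4 : (2 * s - 1) * T = (2 * t - 1) * T := by
    rcases abs_eq_abs.1 h3 with e' | e'
    · exact e'
    have h5 := congrArg (· 0) e
    simp only [e', (g.sym_x h h0 h1 _).1, Rx_0] at h5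
    have h6 : a |(2 * t - 1) * T| 0 = 0 := by
      rcases theta_abs h g h0 h1 ((2 * t - 1) * T) with e | e <;> rw [e]
      · linarith
      · rw [Rx_0]
        linarith
    have h7 : (2 * t - 1) * T = 0 := by_contra fun h7 =>
      (hx _ ⟨abs_pos.2 h7, (theta_mem hT ht).2⟩).ne' h6
    rw [e', h7, neg_zero]
  linarith [mul_right_cancel₀ hT.ne' h4]

theorem theta_zero (h : Body F) (g : Geo F a v) (h0 : a 0 0 = 0) (h1 : v 0 = pt 1 0 0) (T : ℝ) :
    thetaArc a T 0 = Rx (a T) := by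
  simpa [thetaArc] using (g.sym_x h h0 h1 T).1

theorem theta_one (a : ℝ → E3) (T : ℝ) : thetaArc a T 1 = a T := by
  norm_num [thetaArc]

theorem theta_ends (h : Body F) (g : Geo F a v) (h0 : a 0 0 = 0) (h1 : v 0 = pt 1 0 0)
    (hT : 0 < T) : ‖deriv (thetaArc a T) 0‖⁻¹ • deriv (thetaArc a T) 0 = -Rx (v T) ∧
      ‖deriv (thetaArc a T) 1‖⁻¹ • deriv (thetaArc a T) 1 = v T := by
  rw [theta_unit g hT, theta_unit g hT, ← (g.sym_x h h0 h1 T).2]
  norm_num

end Arc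

theorem theta_embedded {γ : Fin 3 → ℝ → E3} (hne : γ 0 0 ≠ γ 0 1)
    (he : ∀ i, γ i 0 = γ 0 0 ∧ γ i 1 = γ 0 1) (inj : ∀ i, InjOn (γ i) (Icc 0 1))
    (sep : ∀ i j, i ≠ j → ∀ s ∈ Ioo (0 : ℝ) 1, ∀ t ∈ Ioo (0 : ℝ) 1, γ i s ≠ γ j t) :
    IsEmbedded γ := by
  have key : ∀ i j, ∀ s ∈ Icc (0 : ℝ) 1, ∀ t ∈ Icc (0 : ℝ) 1, γ i s = γ j t → s ∉ Ioo (0 : ℝ) 1 →
      (s = 0 ∧ t = 0) ∨ (s = 1 ∧ t = 1) := by
    intro i j s hs t ht e h
    rcases eq_endpoints_or_mem_Ioo_of_mem_Icc hs with rfl | rfl | h'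
    · exact Or.inl ⟨rfl, inj j ht hs (by rw [← e, (he i).1, (he j).1])⟩
    · exact Or.inr ⟨rfl, inj j ht hs (by rw [← e, (he i).2, (he j).2])⟩
    · exact (h h').elim
  refine ⟨hne, he, fun i j s hs t ht e => ?_⟩
  by_cases hij : i = j
  · subst hij
    exact Or.inl ⟨rfl, inj i hs ht e⟩
  by_cases h1 : s ∈ Ioo (0 : ℝ) 1
  · exact Or.inr ((key j i t ht s hs e.symm fun h2 => sep i j hij s h1 t h2 e).imp And.symm And.symm)
  · exact Or.inr (key i j s hs t ht e h1)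

theorem Body.theta_of_shot (h : Body F) (hp : Poles F y₂ y₁) {a v : ℝ → E3} {T : ℝ}
    (s : Shot F a v T) (hx : 0 < a T 0) (hv : v T 2 ^ 2 = 3 / 4) :
    ∃ γ : Fin 3 → ℝ → E3, IsTheta F γ := by
  have g := s.geo
  have g0 := h.g0_pos hx
  have t1 := g.tan h T
  have q1 := g.sq T
  rw [h.g2_zero s.zT, zero_mul, add_zero] at t1
  have w1 : v T 1 ≠ 0 := fun e => by
    rw [e, mul_zero, add_zero] at t1
    rw [e, (mul_eq_zero.1 t1).resolve_left g0.ne', hv] at q1
    norm_num at q1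
  obtain ⟨κ, u, τ, k, k0, u0, hτ, kE, pl, kx, us, ki⟩ : ∃ (κ u : ℝ → E3) (τ : ℝ), Geo F κ u ∧
      κ 0 0 = 0 ∧ u 0 = pt 1 0 0 ∧ 0 < τ ∧ κ τ = a T ∧ (∀ t, κ t 2 = 0 ∧ u t 2 = 0) ∧
      (∀ t ∈ Ioc 0 τ, 0 < κ t 0) ∧ 0 < -v T 1 * u τ 1 ∧ InjOn (fun t => κ t 1) (Icc 0 τ) := by
    rcases lt_or_gt_of_ne w1 with h1 | h1
    · exact theta_equator h (neg_ne_zero.2 w1) hp.bot
        (fun p a b => mul_lt_mul_of_pos_left (hp.lo p a b) (neg_pos.2 h1))
        (fun p a b => mul_lt_mul_of_pos_left (hp.hi p a b) (neg_pos.2 h1))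
        (fun p => hp.eq_pole) (g.on T) hx s.zT
    · exact theta_equator h (neg_ne_zero.2 w1) hp.top
        (fun p a b => mul_lt_mul_of_neg_left (hp.hi p a b) (neg_neg_of_pos h1))
        (fun p a b => mul_lt_mul_of_neg_left (hp.lo p a b) (neg_neg_of_pos h1))
        (fun p a b c => (hp.eq_pole a b c).symm) (g.on T) hx s.zT
  have t2 := k.tan h τ
  have q2 := k.sq τ
  rw [kE, (pl τ).2, mul_zero, add_zero] at t2
  rw [(pl τ).2] at q2
  have c1 : u τ 0 * v T 1 = u τ 1 * v T 0 :=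
    mul_left_cancel₀ g0.ne' (by linear_combination v T 1 * t2 - u τ 1 * t1)
  have c2 : (u τ 1 + 2 * v T 1) * (u τ 1 - 2 * v T 1) = 0 := by
    linear_combination -4 * u τ 1 ^ 2 * (q1 - hv) + 4 * v T 1 ^ 2 * q2 -
      4 * (u τ 0 * v T 1 + u τ 1 * v T 0) * c1
  have c3 : u τ 1 = -2 * v T 1 := by
    rcases mul_eq_zero.1 c2 with e | e
    · linarith
    · rw [sub_eq_zero.1 e] at us
      nlinarith [sq_nonneg (v T 1)]
  have c4 : u τ 0 = -2 * v T 0 := mul_right_cancel₀ w1 (by rw [c1, c3]; ring)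
  have bal : v T + Rz (v T) + u τ = 0 :=
    ext3 (by simp [c4]; ring) (by simp [c3]; ring) (by simp [(pl τ).2])
  have g' := g.rz h
  have a0 : Rz (a 0) 0 = 0 := s.x0
  have v0 : Rz (v 0) = pt 1 0 0 := by simp [s.v0]
  have ax : ∀ t ∈ Ioc 0 T, 0 < a t 0 := fun t ht =>
    ht.2.eq_or_lt.elim (fun e => e ▸ hx) fun e => s.xpos t ⟨ht.1, e⟩
  have az : InjOn (fun t => a t 2) (Icc 0 T) :=
    (strictAntiOn_of_deriv_neg (convex_Icc _ _) (continuous_co g.cγ 2).continuousOn fun t ht => by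
      rw [interior_Icc] at ht
      rw [(g.dx 2 t).deriv]
      exact s.vz t ⟨ht.1, ht.2.le⟩).injOn
  have zp : ∀ t ∈ Ioo (0 : ℝ) 1, 0 < thetaArc a T t 2 := fun t ht => by
    have h1 := s.zpos |(2 * t - 1) * T|
      ⟨abs_nonneg _, abs_lt.2 ⟨by nlinarith [ht.1, s.pos], by nlinarith [ht.2, s.pos]⟩⟩
    rcases theta_abs h g s.x0 s.v0 ((2 * t - 1) * T) with e | e <;> rw [e] at h1 <;> exact h1
  have zn : ∀ t, thetaArc (fun t => Rz (a t)) T t 2 = -thetaArc a T t 2 := fun _ => rfl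
  have zz : ∀ t, thetaArc κ τ t 2 = 0 := fun _ => (pl _).1
  have rE : Rz (a T) = a T := ext3 rfl rfl (by simp [s.zT])
  have e0 := theta_ends h g s.x0 s.v0 s.pos
  have e1 := theta_ends h g' a0 v0 s.pos
  have e2 := theta_ends h k k0 u0 hτ
  refine ⟨![thetaArc a T, thetaArc (fun t => Rz (a t)) T, thetaArc κ τ], fun i => ?_,
    theta_embedded ?_ (fun i => ?_) (fun i => ?_) fun i j hij p hp' q hq e => ?_, ?_, ?_⟩
  · fin_cases i
    exacts [theta_geo h g s.pos, theta_geo h g' s.pos, theta_geo h k hτ]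
  · intro e
    have := congrArg (· 0) ((theta_zero h g s.x0 s.v0 T).symm.trans (e.trans (theta_one a T)))
    simp only [Rx_0] at this
    linarith
  · fin_cases i
    · exact ⟨rfl, rfl⟩
    · exact ⟨(theta_zero h g' a0 v0 T).trans ((congrArg Rx rE).trans
        (theta_zero h g s.x0 s.v0 T).symm),
        (theta_one (fun t => Rz (a t)) T).trans (rE.trans (theta_one a T).symm)⟩
    · exact ⟨(theta_zero h k k0 u0 τ).trans ((congrArg Rx kE).trans
        (theta_zero h g s.x0 s.v0 T).symm), (theta_one _ τ).trans (kE.trans (theta_one a T).symm)⟩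
  · fin_cases i
    · exact theta_inj h g s.x0 s.v0 s.pos ax Rx_2 az
    · exact theta_inj h g' a0 v0 s.pos ax Rx_2 fun p hp q hq e => az hp hq (neg_injective e)
    · exact theta_inj h k k0 u0 hτ kx Rx_1 ki
  · have h1 := congrArg (· 2) e
    have h2 := zp p hp'
    have h3 := zp q hq
    fin_cases i <;> fin_cases j <;> first
      | exact hij rfl
      | (simp only [Fin.zero_eta, Fin.mk_one, Fin.reduceFinMk, Matrix.cons_val_zero,
          Matrix.cons_val_one, Matrix.cons_val, zn, zz] at h1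
         linarith)
  · rw [IsBalanced, Fin.sum_univ_three]
    refine (congrArg₂ (· + ·) (congrArg₂ (· + ·) e0.1 e1.1) e2.1).trans ?_
    rw [← neg_add, ← neg_add, ← map_add, ← map_add, bal, map_zero, neg_zero]
  · rw [IsBalanced, Fin.sum_univ_three]
    exact (congrArg₂ (· + ·) (congrArg₂ (· + ·) e0.2 e1.2) e2.2).trans bal

theorem theta_sw_deriv (g : ℝ → E3) : deriv (fun t => Sw (g t)) = fun t => Sw (deriv g t) := by
  funext t
  exact congrArg (· 1) (Sw.comp_fderiv (f := g) (x := t))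

theorem IsTheta.sw {γ : Fin 3 → ℝ → E3} (h : IsTheta (fun p => F (Sw p)) γ) :
    IsTheta F fun i t => Sw (γ i t) := by
  obtain ⟨h1, ⟨h2, h3, h4⟩, h5, h6⟩ := h
  have bal : ∀ t, IsBalanced γ t → IsBalanced (fun i t => Sw (γ i t)) t := fun t ht => by
    unfold IsBalanced at ht ⊢
    simp only [theta_sw_deriv, Sw.norm_map, ← map_smul, ← map_sum, ht, map_zero]
  refine ⟨fun i => ⟨Sw.contDiff.comp (h1 i).1, fun t ht => ?_⟩, ⟨fun e => h2 (Sw.injective e),
    fun i => ⟨congrArg Sw (h3 i).1, congrArg Sw (h3 i).2⟩,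
    fun i j s hs t ht e => h4 i j s hs t ht (Sw.injective e)⟩, bal 0 h5, bal 1 h6⟩
  obtain ⟨a, b, c, hc⟩ := (h1 i).2 t ht
  refine ⟨a, ?_, c, ?_⟩
  · simpa only [theta_sw_deriv, ne_eq, map_eq_zero_iff _ Sw.injective] using b
  · simp only [theta_sw_deriv, hc, grad_Sw, map_smul, Sw_Sw]

end Pool.Agent.MP_c01216_gt

end

section

set_option autoImplicit false

namespace Pool.Agent.MP_c01216_gt

open Set Filter Topology MeasureTheory

variable {F : E3 → ℝ} {a v b w : ℝ → E3} {T S y₂ y₁ : ℝ}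

theorem not_both (h : Body F) (hp : Poles F y₂ y₁) (A : Arc F y₂ a v T)
    (B : Arc (fun p => F (Sw p)) y₂ b w S)
    (hc : ∀ s ∈ Icc 0 T, ∀ t ∈ Icc 0 S, a s = Sw (b t) → t = S) {p : E3} (h0 : F p = 0)
    (hx : 0 < p 0) (hz : 0 < p 2) (h1 : Below a T p) (h2 : Below b S (Sw p)) : False := by
  obtain ⟨τ, I⟩ := A.exists_inv
  obtain ⟨τ', I'⟩ := B.exists_inv
  obtain ⟨Z, cZ, Z0, Z1, Z2, -, Z3⟩ := h.exists_Z
  have z0 := A.zpos 0 ⟨le_rfl, A.pos⟩
  have c1 : Continuous fun s => side b τ' (Sw (a s)) :=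
    (B.cont_side I').comp (Sw.continuous.comp A.geo.cγ)
  have up : ∀ s ∈ Ico 0 T, 0 < side b τ' (Sw (a s)) := fun s hs => by
    by_contra hn
    have h3 : 0 < side b τ' (Sw (a 0)) := by
      rw [B.side_zero I' A.x0]
      exact sub_pos.2 (hp.lo (a 0) (A.geo.on 0).le fun e => z0.ne' (by rw [e, pt_2]))
    obtain ⟨s', h4, h5⟩ := intermediate_value_Icc' hs.1 c1.continuousOn ⟨not_lt.1 hn, h3.le⟩
    have h6 : s' ∈ Icc 0 T := ⟨h4.1, h4.2.trans hs.2.le⟩
    obtain ⟨t, h7, h8⟩ := B.on_of_side h.swap I' (p := Sw (a s'))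
      (by simpa only [Sw_Sw] using A.geo.on s') (A.znn h6) (A.xnn h6) h5
    have h9 := hc s' h6 t h7 (by rw [h8, Sw_Sw])
    have h10 := congrArg (fun p : E3 => p 0) h8
    simp only [h9, B.stop, pt_0, Sw_0] at h10
    exact (A.zpos s' ⟨h4.1, h4.2.trans_lt hs.2⟩).ne h10
  have ne : ∀ y z, pt (p 0) y z ≠ pt 0 y₂ 0 := fun y z e => hx.ne' (congrArg (fun p : E3 => p 0) e)
  have l1 : y₂ < p 1 := hp.lo p h0.le (pt_eta p ▸ ne _ _)
  have l2 : F (pt (p 0) (p 1) 0) < 0 := (h.mono2 _ _ le_rfl hz).trans_eq (by rw [pt_eta, h0])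
  have c2 : Continuous fun y => F (pt (p 0) y 0) := h.cont.comp (by fun_prop)
  obtain ⟨y₀, l3, l4⟩ := intermediate_value_Icc' l1.le c2.continuousOn
    ⟨l2.le, (hp.bot.symm.trans_lt (h.mono0 y₂ 0 le_rfl hx)).le⟩
  have c3 : Continuous fun y => side a τ (pt (p 0) y (Z (p 0) y)) :=
    (A.cont_side I).comp (continuous_pt continuous_const continuous_id
      (cZ.comp (Continuous.prodMk_right (p 0))))
  obtain ⟨y, l5, l6⟩ := intermediate_value_Icc' l3.2 c3.continuousOn (show (0 : ℝ) ∈ _ from ⟨by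
    simp only [Z3 p h0 hz.le, pt_eta]
    exact (Shot.side_of_below I h1).le, by
    simp only [Z2 _ _ l4.ge]
    rw [A.side_zero I (pt_2 _ _ _)]
    exact sub_nonneg.2 l3.1⟩)
  have l7 : F (pt (p 0) y 0) ≤ 0 := by
    obtain ⟨c, d, hc, hd, e, e'⟩ := Icc_subset_segment (𝕜 := ℝ) l5
    refine (h.convexOn.le_on_segment (x := pt (p 0) y₀ 0) (y := pt (p 0) (p 1) 0)
      (z := pt (p 0) y 0) (mem_univ _) (mem_univ _)
      ⟨c, d, hc, hd, e, ext3 ?_ e' (by simp)⟩).trans (max_le l4.le l2.le)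
    simp only [PiLp.add_apply, PiLp.smul_apply, pt_0, smul_eq_mul]
    linear_combination p 0 * e
  obtain ⟨s, l8, l9⟩ := A.on_of_side h I (Z1 _ _ l7) hx.le (Z0 _ _) l6
  have l10 := up s ⟨l8.1, l8.2.lt_of_ne fun e => ne _ _ (by rw [← l9, e, A.stop])⟩
  have l11 := Shot.side_of_below I' h2
  simp only [side, l9, Sw_1, Sw_2, pt_0, pt_1] at l10 l11
  linarith [l5.2]

theorem Body.theta (h : Body F) : ∃ γ : Fin 3 → ℝ → E3, IsTheta F γ := by
  obtain ⟨y₂, y₁, hp⟩ := h.exists_poles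
  rcases h.shoot hp with ⟨a, v, T, s, h1, h2⟩ | ⟨α, V, T, lo, hi, B⟩
  · exact h.theta_of_shot hp s h1 h2
  rcases h.swap.shoot hp.swap with ⟨a, v, T, s, h1, h2⟩ | ⟨α', V', T', lo', hi', B'⟩
  · obtain ⟨γ, hγ⟩ := h.swap.theta_of_shot hp.swap s h1 h2
    exact ⟨_, hγ.sw⟩
  obtain ⟨W, m, s, i, hW⟩ := gb h hp B.arc
  obtain ⟨W', m', s', i', hW'⟩ := gb h.swap hp.swap B'.arc
  have := two_sets m m' s s' fun q hq hq' => by
    obtain ⟨p, p1, p2, p3, p4, p5, p6⟩ := hW _ hq'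
    obtain ⟨p', q1, q2, q3, q4, q5, q6⟩ := hW' _ hq
    simp only [grad_Sw, Sw_0, Sw_1, Sw_2] at q4 q5
    have g0 := h.g0_pos p2
    have q0 : 0 < q.2 := s' hq
    have e : p = Sw p' := by
      refine h.eq_of_normal p1 q1 (div_pos (h.g0_pos (p := Sw p') q3) g0) (ext3 ?_ ?_ ?_)
      · simp only [PiLp.smul_apply, smul_eq_mul]
        field_simp
      · simp only [PiLp.smul_apply, smul_eq_mul, p4, q4, q5]
        field_simp
      · simp only [PiLp.smul_apply, smul_eq_mul, p5, q5]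
        field_simp
    exact not_both h hp B.arc B'.arc (fun s hs t ht => cross h hp B.arc B' hs ht) p1 p2 p3 p6
      (by rwa [e, Sw_Sw])
  linarith

end Pool.Agent.MP_c01216_gt

end
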