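import Pool.Agent.Mg.F019006.G93471f
import Pool.Agent.Mg.F019006.G45f3cb
import Pool.Agent.Mg.F019006.G7675c4
import Pool.Agent.Mg.F019006.G2753c4
import Pool.Agent.Mg.F019006.G637484
import Pool.Agent.Mg.F019006.G7f5444
import Pool.Agent.Mg.F019006.G5031fe
import Pool.Agent.Mg.F019006.G5c6f1b
import Pool.Agent.Mg.F019006.Gc982f7
import Pool.Agent.Mg.F019006.G15e11c
import Pool.Agent.Mg.F019006.G655729

section

set_option autoImplicit false

open MeasureTheory Filter Topology Set Matrix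

namespace Pool.Agent.MP_019006_gt

/-- Linear growth along the integers. -/
def Grows (u : ℝ → ℝ) : Prop := ∃ k N : ℕ, ∀ n : ℕ, N ≤ n → (n : ℝ) / (k + 1) ≤ u n

theorem grows_real {u : ℝ → ℝ} {B s c : ℝ} (hs : 0 < s) (hc : 0 < c)
    (hu : ∀ a t, 0 ≤ a → 0 ≤ t → |u (a + t) - u a| ≤ B * (1 + t))
    (h : ∀ᶠ n : ℕ in atTop, c * n ≤ u (n * s)) :
    ∃ c' : ℝ, 0 < c' ∧ ∀ᶠ T : ℝ in atTop, c' * T ≤ u T := by
  obtain ⟨N, hN⟩ := eventually_atTop.1 h
  refine ⟨c / (2 * s), by positivity, ?_⟩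
  filter_upwards [eventually_ge_atTop (N * s), eventually_ge_atTop (0 : ℝ),
    eventually_ge_atTop (2 * s * (c + |B| * (1 + s)) / c)] with T h1 h2 h3
  have hn : N ≤ ⌊T / s⌋₊ := Nat.le_floor ((le_div_iff₀ hs).2 h1)
  have h4 : (⌊T / s⌋₊ : ℝ) ≤ T / s := Nat.floor_le (by positivity)
  have h5 : T / s < ⌊T / s⌋₊ + 1 := Nat.lt_floor_add_one _
  have h6 : (⌊T / s⌋₊ : ℝ) * s ≤ T := (le_div_iff₀ hs).1 h4
  have h7 : T < (⌊T / s⌋₊ + 1) * s := (div_lt_iff₀ hs).1 h5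
  have h8 := hu (⌊T / s⌋₊ * s) (T - ⌊T / s⌋₊ * s) (by positivity) (by linarith)
  rw [add_sub_cancel] at h8
  have h9 : B * (1 + (T - ⌊T / s⌋₊ * s)) ≤ |B| * (1 + s) :=
    mul_le_mul (le_abs_self B) (by linarith) (by linarith) (abs_nonneg B)
  have h10 := hN _ hn
  have h11 := (abs_le.1 h8).1
  have h12 : c + |B| * (1 + s) ≤ c / (2 * s) * T := by
    rw [div_le_iff₀ hc] at h3
    rw [div_mul_eq_mul_div, le_div_iff₀ (by positivity)]
    linarith
  have h13 : c * (T / s) = 2 * (c / (2 * s) * T) := by field_simp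
  nlinarith

theorem grows_of_real {u : ℝ → ℝ} {c : ℝ} (hc : 0 < c) (h : ∀ᶠ T : ℝ in atTop, c * T ≤ u T) :
    Grows u := by
  obtain ⟨k, hk⟩ := exists_nat_one_div_lt hc
  obtain ⟨N, hN⟩ := eventually_atTop.1 (tendsto_natCast_atTop_atTop.eventually h)
  refine ⟨k, N, fun n hn => le_trans ?_ (hN n hn)⟩
  rw [div_eq_mul_one_div, mul_comm]
  exact mul_le_mul_of_nonneg_right hk.le (Nat.cast_nonneg n)

theorem Grows.real {u : ℝ → ℝ} {B : ℝ}
    (hu : ∀ a t, 0 ≤ a → 0 ≤ t → |u (a + t) - u a| ≤ B * (1 + t)) (h : Grows u) :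
    ∃ c' : ℝ, 0 < c' ∧ ∀ᶠ T : ℝ in atTop, c' * T ≤ u T := by
  obtain ⟨k, N, hN⟩ := h
  refine grows_real (s := 1) (c := 1 / (k + 1)) one_pos (by positivity) hu ?_
  filter_upwards [eventually_ge_atTop N] with n hn
  rw [mul_one, one_div_mul_eq_div]
  exact hN n hn

theorem Grows.of_close {u w : ℝ → ℝ} {B : ℝ} (huw : ∀ t, 0 ≤ t → |u t - w t| ≤ B) (h : Grows u) :
    Grows w := by
  obtain ⟨k, N, hN⟩ := h
  obtain ⟨N', hN'⟩ := exists_nat_ge (2 * (k + 1) * B)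
  refine ⟨2 * k + 1, max N N', fun n hn => ?_⟩
  have h1 := hN n ((le_max_left _ _).trans hn)
  have h2 : (N' : ℝ) ≤ n := Nat.cast_le.2 ((le_max_right _ _).trans hn)
  have h3 := (abs_le.1 (huw n (Nat.cast_nonneg n))).2
  have h4 : (n : ℝ) / (k + 1) = 2 * (n / ((2 * k + 1 : ℕ) + 1)) := by
    push_cast; field_simp; ring
  have h5 : B ≤ n / ((2 * k + 1 : ℕ) + 1) := by
    rw [le_div_iff₀ (by positivity)]; push_cast; nlinarith
  linarith

/-- The gap functional. -/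
noncomputable def GG (f : EE → ℝ) (φ : Flo) (M : DFlo) (q : EE × EE) (t : ℝ) : ℝ :=
  2 * LL f φ M 1 q t - LL f φ M 0 q t

/-- The set where the gap functional grows linearly. -/
def Good (f : EE → ℝ) (φ : Flo) (M : DFlo) : Set (EE × EE) :=
  {p | (p.1 ∈ Bl ∧ p.2 ≠ 0) ∧ Grows (GG f φ M (nrm f p))}

theorem tendsto_GG {a b : ℕ → ℝ} {l₁ l₀ : ℝ}
    (h1 : Tendsto (fun n : ℕ => (a n + 1) / n) atTop (𝓝 l₁))
    (h0 : Tendsto (fun n : ℕ => (b n + 1) / n) atTop (𝓝 l₀)) :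
    Tendsto (fun n : ℕ => (2 * a n - b n) / n) atTop (𝓝 (2 * l₁ - l₀)) := by
  have := ((h1.const_mul 2).sub h0).sub tendsto_one_div_atTop_nhds_zero_nat
  rw [sub_zero] at this
  refine this.congr fun n => ?_
  ring

theorem tendsto_drop {a : ℕ → ℝ} {l : ℝ}
    (h1 : Tendsto (fun n : ℕ => (a n + 1) / n) atTop (𝓝 l)) :
    Tendsto (fun n : ℕ => a n / n) atTop (𝓝 l) := by
  have := h1.sub tendsto_one_div_atTop_nhds_zero_nat
  rw [sub_zero] at this
  refine this.congr fun n => ?_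
  ring

namespace World

variable {G : Type} [Group G] {ρ : G →* C3} {f β : EE → ℝ} {φ : Flo} {M : DFlo} {e r R : ℝ}

theorem ne_iff {p : EE × EE} (hp : p.1 ∈ Bl) : p.2 ≠ 0 ↔ 0 < en f p := by
  refine ⟨fun h => (en_nrm hp h).1, fun h h0 => ?_⟩
  have h1 : en f p = 0 := by unfold en; rw [h0]; simp
  linarith

theorem grows_flow (h : World ρ f β φ M e r R) {q : EE × EE} (hq : q.1 ∈ Bl) (h1 : en f q = 1)
    {s : ℝ} (hs : 0 ≤ s) : Grows (GG f φ M (φ s q)) ↔ Grows (GG f φ M q) :=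
  ⟨Grows.of_close fun _ ht => h.GG_flow hq h1 hs ht,
    Grows.of_close fun _ ht => by rw [abs_sub_comm]; exact h.GG_flow hq h1 hs ht⟩

theorem grows_flow' (h : World ρ f β φ M e r R) {q : EE × EE} (hq : q.1 ∈ Bl) (h1 : en f q = 1)
    (s : ℝ) : Grows (GG f φ M (φ s q)) ↔ Grows (GG f φ M q) := by
  rcases le_total 0 s with hs | hs
  · exact h.grows_flow hq h1 hs
  · have := h.grows_flow (h.fmem s hq) (by rw [h.fen, h1]) (neg_nonneg.2 hs)
    rw [← h.ctx.flow.add, neg_add_cancel, h.ctx.flow.zero] at this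
    exact this.symm

theorem invSet (h : World ρ f β φ M e r R) : InvSet ρ φ (Good f φ M) where
  meas := by
    have hW : IsOpen {p : EE × EE | p.1 ∈ Bl ∧ p.2 ≠ 0} :=
      (isOpen_Bl.preimage continuous_fst).inter (isOpen_ne.preimage continuous_snd)
    have hm : ∀ n : ℕ, Measurable ({p : EE × EE | p.1 ∈ Bl ∧ p.2 ≠ 0}.indicator
        fun p => GG f φ M (nrm f p) n) := fun n =>
      measurable_indicator_of_continuousOn hW.measurableSet
        ((continuousOn_const.mul (h.LL_contOn 1 (fun p hp => hp) continuousOn_const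
          fun _ _ => Nat.cast_nonneg n)).sub (h.LL_contOn 0 (fun p hp => hp) continuousOn_const
          fun _ _ => Nat.cast_nonneg n))
    have : Good f φ M = {p : EE × EE | p.1 ∈ Bl ∧ p.2 ≠ 0} ∩ ⋃ k : ℕ, ⋃ N : ℕ, ⋂ n : ℕ,
        ⋂ _ : N ≤ n, {p | (n : ℝ) / (k + 1) ≤ {p : EE × EE | p.1 ∈ Bl ∧ p.2 ≠ 0}.indicator
          (fun p => GG f φ M (nrm f p) n) p} := by
      ext p
      simp only [Good, Grows, mem_ofPred_eq, mem_inter_iff, mem_iUnion, mem_iInter]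
      refine and_congr_right fun hp => ?_
      simp only [indicator_of_mem (show p ∈ {p : EE × EE | p.1 ∈ Bl ∧ p.2 ≠ 0} from hp)]
    rw [this]
    exact hW.measurableSet.inter (MeasurableSet.iUnion fun k => MeasurableSet.iUnion fun N =>
      MeasurableSet.iInter fun n => MeasurableSet.iInter fun _ =>
        measurableSet_le measurable_const (hm n))
  flow := by
    intro t p hp
    have h1 : (φ t p).2 ≠ 0 ↔ p.2 ≠ 0 := by
      rw [ne_iff (f := f) (h.fmem t hp), ne_iff (f := f) hp, h.fen]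
    by_cases h0 : p.2 = 0
    · exact ⟨fun a => absurd h0 (h1.1 a.1.2), fun a => absurd h0 a.1.2⟩
    · have h2 := h.grows_flow' (q := nrm f p) hp (en_nrm hp h0).2 (Real.sqrt (en f p) * t)
      rw [← flow_nrm h.sm h.ctx.flow t hp h0] at h2
      exact ⟨fun a => ⟨⟨hp, h0⟩, h2.1 a.2⟩, fun a => ⟨⟨h.fmem t hp, h1.2 h0⟩, h2.2 a.2⟩⟩
  grp := by
    intro a p hp
    have hq := Inv.mobT_mem (h.u21 a) hp
    have h1 : (mobT (ρ a) p).2 ≠ 0 ↔ p.2 ≠ 0 := by
      rw [ne_iff (f := f) hq, ne_iff (f := f) hp, en_mobT (h.u21 a) (h.finv a)]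
    by_cases h0 : p.2 = 0
    · exact ⟨fun a => absurd h0 (h1.1 a.1.2), fun a => absurd h0 a.1.2⟩
    · have h2 : GG f φ M (nrm f (mobT (ρ a) p)) = GG f φ M (nrm f p) := by
        funext t
        unfold GG
        rw [nrm_mobT (h.u21 a) (h.finv a) hp, h.LL_inv (p := nrm f p) hp (en_nrm hp h0).2,
          h.LL_inv (p := nrm f p) hp (en_nrm hp h0).2]
      exact ⟨fun a => ⟨⟨hp, h0⟩, h2 ▸ a.2⟩, fun a => ⟨⟨hq, h1.2 h0⟩, h2 ▸ a.2⟩⟩
  scale := by
    intro c hc p hp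
    have h2 : nrm f (p.1, c • p.2) = nrm f p := Fib.nrm_smul f p.1 p.2 hc
    have h1 : c • p.2 ≠ 0 ↔ p.2 ≠ 0 := by simp [hc.ne']
    exact ⟨fun a => ⟨⟨hp, h1.1 a.1.2⟩, h2 ▸ a.2⟩, fun a => ⟨⟨hp, h1.2 a.1.2⟩, by
      rw [h2]; exact a.2⟩⟩

theorem good_iff (h : World ρ f β φ M e r R) {p : EE × EE} (hp : p ∈ shell f) {l₁ l₀ : ℝ}
    (h1 : Tendsto (fun n : ℕ => (LL f φ M 1 (nrm f p) (n * Real.sqrt (en f p)) + 1) / n) atTop
      (𝓝 l₁))
    (h0 : Tendsto (fun n : ℕ => (LL f φ M 0 (nrm f p) (n * Real.sqrt (en f p)) + 1) / n) atTop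
      (𝓝 l₀)) : p ∈ Good f φ M ↔ l₀ < 2 * l₁ := by
  have hne := shell_ne hp
  have hs : 0 < Real.sqrt (en f p) := Real.sqrt_pos.2 (en_nrm hp.1 hne).1
  have hT := tendsto_GG h1 h0
  have hu : ∀ a t, 0 ≤ a → 0 ≤ t →
      |GG f φ M (nrm f p) (a + t) - GG f φ M (nrm f p) a| ≤ 30 * (1 + t) := fun a t ha ht =>
    h.GG_time (p := nrm f p) hp.1 (en_nrm hp.1 hne).2 ha ht
  constructor
  · intro hg
    obtain ⟨c, hc, hev⟩ := hg.2.real hu
    have h2 := (tendsto_natCast_atTop_atTop.atTop_mul_const hs).eventually hev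
    have h3 : c * Real.sqrt (en f p) ≤ 2 * l₁ - l₀ := by
      refine ge_of_tendsto hT ?_
      filter_upwards [h2, eventually_gt_atTop 0] with n hn hn0
      rw [le_div_iff₀ (Nat.cast_pos.2 hn0)]
      unfold GG at hn
      linarith
    have := mul_pos hc hs
    linarith
  · intro hl
    refine ⟨⟨hp.1, hne⟩, ?_⟩
    have h2 : ∀ᶠ n : ℕ in atTop, (2 * l₁ - l₀) / 2 * n ≤
        GG f φ M (nrm f p) (n * Real.sqrt (en f p)) := by
      filter_upwards [hT.eventually (lt_mem_nhds (show (2 * l₁ - l₀) / 2 < 2 * l₁ - l₀ by linarith)),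
        eventually_gt_atTop 0] with n hn hn0
      exact ((lt_div_iff₀ (Nat.cast_pos.2 hn0)).1 hn).le
    obtain ⟨c, hc, hev⟩ := grows_real hs (by linarith) hu h2
    exact grows_of_real hc hev

theorem ae_good [Countable G] (h : World ρ f β φ M e r R)
    (h1 : ∀ᵐ p : EE × EE, p ∈ shell f → ∀ i, ∃ l : ℝ, Tendsto (fun n : ℕ =>
      (LL f φ M i (nrm f p) (n * Real.sqrt (en f p)) + 1) / n) atTop (𝓝 l))
    (h2 : ¬ ∀ᵐ p : EE × EE, p ∈ shell f → ∀ l₁ l₀ : ℝ,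
      Tendsto (fun n : ℕ => (LL f φ M 1 (nrm f p) (n * Real.sqrt (en f p)) + 1) / n) atTop (𝓝 l₁) →
      Tendsto (fun n : ℕ => (LL f φ M 0 (nrm f p) (n * Real.sqrt (en f p)) + 1) / n) atTop (𝓝 l₀) →
        2 * l₁ ≤ l₀) : ∀ᵐ p : EE × EE, p.1 ∈ Bl → p ∈ Good f φ M := by
  rcases ergodic_flow h.ctx h.lat h.finv h.invSet with h3 | h3
  · refine absurd (h3.mono fun p hp hs l₁ l₀ a b => ?_) h2
    exact not_lt.1 fun hl => hp hs.1 ((h.good_iff hs a b).2 hl)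
  · exact h3

theorem ae_exp (h : World ρ f β φ M e r R)
    (h1 : ∀ᵐ p : EE × EE, p ∈ shell f → ∀ i, ∃ l : ℝ, Tendsto (fun n : ℕ =>
      (LL f φ M i (nrm f p) (n * Real.sqrt (en f p)) + 1) / n) atTop (𝓝 l))
    (h2 : ∀ᵐ p : EE × EE, p.1 ∈ Bl → p ∈ Good f φ M) :
    ∀ᵐ p : EE × EE, p.1 ∈ Bl → p.2 ≠ 0 → ∃ χ₁ χ₂ : ℝ, 0 < χ₂ ∧ 2 * χ₂ < χ₁ ∧
      IsExponent (gg f) (Gam f) φ (nrm f p) χ₁ ∧ IsExponent (gg f) (Gam f) φ (nrm f p) χ₂ := by
  refine ae_scale h.ctx.conf (fun q => ∃ χ₁ χ₂ : ℝ, 0 < χ₂ ∧ 2 * χ₂ < χ₁ ∧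
      IsExponent (gg f) (Gam f) φ q χ₁ ∧ IsExponent (gg f) (Gam f) φ q χ₂) ?_
  filter_upwards [h1, h2] with p hp hg hs
  obtain ⟨l₀, a₀⟩ := hp hs 0
  obtain ⟨l₁, a₁⟩ := hp hs 1
  obtain ⟨l₂, a₂⟩ := hp hs 2
  have hne := shell_ne hs
  have hq : (nrm f p).1 ∈ Bl := hs.1
  have hq1 := (en_nrm (f := f) hs.1 hne).2
  obtain ⟨u₁, u₂, χ₁, χ₂, b1, b2, b3, b4, b5, b6⟩ := exponents (h.jac hq hq1) (h.cone hq hq1) _
    (Real.sqrt_pos.2 (en_nrm (f := f) hs.1 hne).1) l₀ l₁ l₂ (tendsto_drop a₀) (tendsto_drop a₁)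
    (tendsto_drop a₂) ((h.good_iff hs a₁ a₀).1 (hg hs.1))
  exact ⟨χ₁, χ₂, b3, b4, isExponent_of h.sm h.ctx.flow hq hq1 u₁ b1 χ₁ b5,
    isExponent_of h.sm h.ctx.flow hq hq1 u₂ b2 χ₂ b6⟩

end World

theorem exists_world : ∃ (G : Type) (_ : Group G) (_ : Countable G) (ρ : G →* C3)
    (f β : EE → ℝ) (φ : Flo) (M : DFlo) (e r R : ℝ), World ρ f β φ M e r R ∧
    (∀ᵐ p : EE × EE, p ∈ shell f → ∀ i, ∃ l : ℝ, Tendsto (fun n : ℕ =>
      (LL f φ M i (nrm f p) (n * Real.sqrt (en f p)) + 1) / n) atTop (𝓝 l)) ∧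
    ∀ᵐ p : EE × EE, p.1 ∈ Bl → p ∈ Good f φ M := by
  obtain ⟨F, s₀, hF⟩ := exists_profile
  obtain ⟨C, hC, hbump⟩ := bump_main hF
  obtain ⟨η, hη, hloc⟩ := local_line hF C
  obtain ⟨τ₀, R₀, C₀, hτ₀, hcore⟩ := core_ineq η hη
  have hε : 0 < 1 / (100 * C) := by positivity
  have hCε : C * (1 / (100 * C)) = 1 / 100 := by field_simp
  obtain ⟨r₀, hr₀, hloc⟩ := hloc (1 / (100 * C)) hε
    (by rw [div_le_one (by positivity)]; linarith)
  set r : ℝ := min (min r₀ (τ₀ / 6)) (1 / 600) with hr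
  have hr0 : 0 < r := by positivity
  have hr1 : r ≤ 1 / 600 := min_le_right _ _
  have hr2 : r ≤ r₀ := (min_le_left _ _).trans (min_le_left _ _)
  have hr3 : r ≤ τ₀ / 6 := (min_le_left _ _).trans (min_le_right _ _)
  set R : ℝ := max R₀ 2 with hR
  have hR2 : 2 ≤ R := le_max_right _ _
  obtain ⟨G, iG, iC, ρ, hρ⟩ := exists_lattice (4 * Real.exp (2 * R))
  have hE : 1 ≤ Real.exp (2 * R) := Real.one_le_exp (by linarith)
  obtain ⟨b1, b2, b3, b4, b5, b6, b7, b8⟩ := hbump (1 / (100 * C)) r _ G ρ _ _ hε hCε.le hr0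
    (by linarith) (by linarith) hρ rfl rfl
  obtain ⟨φ, M, hφ⟩ := exists_geoFlow b1
  have hW : World ρ (ext ρ (f0 F (1 / (100 * C)) r)) (ext ρ (b0 r)) φ M (C * (1 / (100 * C))) r R :=
    ⟨⟨b1, hφ⟩, hρ, b2, b3, b4, b5, b7, fun p hp h1 => (b8 p hp h1).1,
      fun p hp h1 => (b8 p hp h1).2, by rw [hCε]; norm_num, by rw [hCε]; norm_num, hr0, hr1, hR2⟩
  have hs₀ := hF.pos
  obtain ⟨k1, k2⟩ := hW.pack (C := C₀) hη.le
    (show 0 < (1 / (100 * C)) ^ 2 * r ^ 5 * s₀ / 2 by positivity)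
    (fun p hp h1 T hT => hcore _ _ _ _ _ _ _ _ hW.e0 hW.e1 (by linarith) (by linarith)
      (le_max_left _ _) (hW.jac hp h1) (hW.small hp h1) T hT)
    (hloc r _ _ φ M hr0 hr2 b1 b6 hφ)
  exact ⟨G, iG, iC, ρ, _, _, φ, M, _, r, R, hW, k1, hW.ae_good k1 k2⟩

end Pool.Agent.MP_019006_gt

end

section

set_option autoImplicit false

open MeasureTheory Filter Topology Set Matrix

namespace Pool.Agent.MP_019006_gt

namespace Unst

/-- A matrix solution of the Jacobi system. -/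
def Sol (K Om Y H : ℝ → M3) : Prop :=
  (∀ t, OdeMul.HD Y (H t - Om t * Y t) t) ∧ ∀ t, OdeMul.HD H (K t * Y t - Om t * H t) t

variable {K Om Y H Y' H' Z G : ℝ → M3}

theorem Sol.shift (h : Sol K Om Y H) (s : ℝ) :
    Sol (fun t => K (s + t)) (fun t => Om (s + t)) (fun t => Y (s + t)) (fun t => H (s + t)) :=
  ⟨fun t => (h.1 (s + t)).shift, fun t => (h.2 (s + t)).shift⟩

theorem Sol.comb (h : Sol K Om Y H) (h' : Sol K Om Y' H') (B : M3) :
    Sol K Om (fun t => Y t + Y' t * B) (fun t => H t + H' t * B) := by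
  refine ⟨fun t i j => ?_, fun t i j => ?_⟩
  · refine ((h.1 t i j).add ((h'.1 t).mul_const B i j)).congr_deriv ?_
    rw [← Matrix.add_apply]
    exact congrFun (congrFun (by noncomm_ring) i) j
  · refine ((h.2 t i j).add ((h'.2 t).mul_const B i j)).congr_deriv ?_
    rw [← Matrix.add_apply]
    exact congrFun (congrFun (by noncomm_ring) i) j

theorem wr (hK : ∀ t, (K t)ᵀ = K t) (hO : ∀ t, (Om t)ᵀ = -Om t) (h : Sol K Om Y H)
    (h' : Sol K Om Z G) (t : ℝ) :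
    (Y t)ᵀ * G t - (H t)ᵀ * Z t = (Y 0)ᵀ * G 0 - (H 0)ᵀ * Z 0 := by
  have d : ∀ r, OdeMul.HD (fun r => (Y r)ᵀ * G r - (H r)ᵀ * Z r) 0 r := fun r => by
    have k := ((h.1 r).transpose.mul (h'.2 r)).sub ((h.2 r).transpose.mul (h'.1 r))
    convert k using 1
    simp only [Matrix.transpose_sub, Matrix.transpose_mul, hK, hO]
    noncomm_ring
  ext i j
  exact is_const_of_deriv_eq_zero (fun r => (d r i j).differentiableAt)
    (fun r => (d r i j).deriv) t 0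

theorem U0_symm : U0ᵀ = U0 := Matrix.diagonal_transpose _

theorem rep (hJ : JacSys K Om Y H) (hD : DirSys K Om Y' H') (h : Sol K Om Z G) (t : ℝ) :
    Z t = Y t * Z 0 + Y' t * (G 0 - U0 * Z 0) ∧ G t = H t * Z 0 + H' t * (G 0 - U0 * Z 0) := by
  have s1 : Sol K Om Y H := ⟨hJ.dY, hJ.dH⟩
  have s2 : Sol K Om Y' H' := ⟨hD.dY, hD.dH⟩
  have w11 := wr hJ.Ks hJ.Oa s1 s1 t
  have w12 := wr hJ.Ks hJ.Oa s1 s2 t
  have w21 := wr hJ.Ks hJ.Oa s2 s1 t
  have w22 := wr hJ.Ks hJ.Oa s2 s2 t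
  have w1 := wr hJ.Ks hJ.Oa s1 h t
  have w2 := wr hJ.Ks hJ.Oa s2 h t
  simp only [hJ.Y0, hJ.H0, hD.Y0, hD.H0, U0_symm, Matrix.transpose_one, Matrix.transpose_zero,
    Matrix.one_mul, Matrix.mul_one, Matrix.zero_mul, Matrix.mul_zero, sub_self, sub_zero,
    zero_sub] at w11 w12 w21 w22 w1 w2
  have e : fromBlocks (H' t)ᵀ (-(Y' t)ᵀ) (-(H t)ᵀ) (Y t)ᵀ * fromBlocks (Y t) (Y' t) (H t) (H' t) =
      1 := by
    rw [fromBlocks_multiply, ← fromBlocks_one]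
    congr 1
    · rw [← neg_neg (1 : M3), ← w21]; noncomm_ring
    · rw [← neg_zero, ← w22]; noncomm_ring
    · rw [← w11]; noncomm_ring
    · rw [← w12]; noncomm_ring
  have e' := mul_eq_one_comm.1 e
  rw [fromBlocks_multiply, ← fromBlocks_one, fromBlocks_inj] at e'
  obtain ⟨a, b, c, d⟩ := e'
  have w2' : Z 0 = (H' t)ᵀ * Z t - (Y' t)ᵀ * G t := by rw [← neg_neg (Z 0), ← w2, neg_sub]
  rw [← w1, w2']
  constructor
  · calc Z t = 1 * Z t + 0 * G t := by simp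
      _ = _ := by rw [← a, ← b]; noncomm_ring
  · calc G t = 0 * Z t + 1 * G t := by simp
      _ = _ := by rw [← c, ← d]; noncomm_ring

theorem ric_symm (hC : Cone K Om Y H) {t : ℝ} (ht : 0 ≤ t) :
    (H t * (Y t)⁻¹)ᵀ = H t * (Y t)⁻¹ := by
  have u1 : Y t * (Y t)⁻¹ = 1 := Matrix.mul_nonsing_inv _ (Ne.isUnit (hC.det_pos t ht).ne')
  have u2 : (Y t)⁻¹ᵀ * (Y t)ᵀ = 1 := by rw [← Matrix.transpose_mul, u1, Matrix.transpose_one]
  calc (H t * (Y t)⁻¹)ᵀ = (Y t)⁻¹ᵀ * ((H t)ᵀ * Y t) * (Y t)⁻¹ := by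
        rw [Matrix.mul_assoc, Matrix.mul_assoc, u1, Matrix.mul_one, Matrix.transpose_mul]
    _ = _ := by rw [← hC.wronski t, ← Matrix.mul_assoc, u2, Matrix.one_mul]

theorem ric_close {s : ℝ} (hs : 0 ≤ s) (hJ : JacSys K Om Y H) (hC : Cone K Om Y H)
    (hJ' : JacSys (fun t => K (s + t)) (fun t => Om (s + t)) Y' H')
    (hC' : Cone (fun t => K (s + t)) (fun t => Om (s + t)) Y' H') {t : ℝ} (ht : 0 ≤ t)
    (i j : Fin 3) :
    |(H (s + t) * (Y (s + t))⁻¹) i j - (H' t * (Y' t)⁻¹) i j| ≤ Real.exp (-(t / 2)) := by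
  have w := wr hJ'.Ks hJ'.Oa ⟨hJ'.dY, hJ'.dH⟩ (Sol.shift ⟨hJ.dY, hJ.dH⟩ s) t
  simp only [hJ'.Y0, hJ'.H0, U0_symm, Matrix.transpose_one, Matrix.one_mul, add_zero] at w
  have u1 : Y' t * (Y' t)⁻¹ = 1 := Matrix.mul_nonsing_inv _ (Ne.isUnit (hC'.det_pos t ht).ne')
  have u2 : (Y' t)⁻¹ᵀ * (Y' t)ᵀ = 1 := by rw [← Matrix.transpose_mul, u1, Matrix.transpose_one]
  have u3 : Y (s + t) * (Y (s + t))⁻¹ = 1 :=
    Matrix.mul_nonsing_inv _ (Ne.isUnit (hC.det_pos _ (add_nonneg hs ht)).ne')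
  have e : H (s + t) * (Y (s + t))⁻¹ - H' t * (Y' t)⁻¹ =
      (Y' t)⁻¹ᵀ * ((H s - U0 * Y s) * (Y (s + t))⁻¹) := by
    rw [← w, ← ric_symm hC' ht, Matrix.transpose_mul, Matrix.sub_mul, Matrix.mul_sub,
      Matrix.mul_assoc, Matrix.mul_assoc, u3, ← Matrix.mul_assoc, u2, Matrix.one_mul,
      Matrix.mul_one]
  rw [← Matrix.sub_apply, e]
  have h1 := OdeMul.entry_sq_le ((Y' t)⁻¹ᵀ * ((H s - U0 * Y s) * (Y (s + t))⁻¹)) i j
  have h2 := OdeMul.transpose_bound (Y' t)⁻¹ _ (Real.exp_pos _).le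
    (fun u => (OdeMul.growth_inv hJ' hC' t ht u).2)
    ((H s - U0 * Y s) *ᵥ ((Y (s + t))⁻¹ *ᵥ Pi.single j 1))
  have h3 := hC.cone s hs ((Y (s + t))⁻¹ *ᵥ Pi.single j 1)
  have h4 := (growth_vec hJ hC s (s + t) hs (by linarith) ((Y (s + t))⁻¹ *ᵥ Pi.single j 1)).1
  rw [Matrix.mulVec_mulVec _ (Y (s + t)), u3, Matrix.one_mulVec, OdeMul.nsq_single] at h4
  rw [← Matrix.mulVec_mulVec, ← Matrix.mulVec_mulVec] at h1
  have h5 : 1 ≤ Real.exp (9 / 5 * (s + t - s)) := Real.one_le_exp (by linarith)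
  have h6 := OdeMul.nsq_nonneg (Y s *ᵥ ((Y (s + t))⁻¹ *ᵥ Pi.single j 1))
  have h7 : nsq ((H s - U0 * Y s) *ᵥ ((Y (s + t))⁻¹ *ᵥ Pi.single j 1)) ≤ 1 / 100 := by nlinarith
  have h8 := mul_le_mul_of_nonneg_left h7 (Real.exp_pos (-(9 / 5 * t))).le
  have h9 : Real.exp (-(9 / 5 * t)) * (1 / 100) ≤ Real.exp (-(t / 2)) ^ 2 := by
    rw [← Real.exp_nat_mul]
    have := Real.exp_le_exp.2 (show -(9 / 5 * t) ≤ ((2 : ℕ) : ℝ) * -(t / 2) by push_cast; linarith)
    linarith [Real.exp_pos (-(9 / 5 * t))]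
  exact abs_le.2 (abs_le_of_sq_le_sq' (by linarith) (Real.exp_pos _).le)

theorem cont_nsq (u : Fin 3 → ℝ) : Continuous fun A : M3 => nsq (A *ᵥ u) := by
  unfold nsq
  fun_prop

theorem det_ne {A : M3} {c : ℝ} (h : ∀ u, nsq u ≤ c * nsq (A *ᵥ u)) : A.det ≠ 0 := by
  intro h0
  obtain ⟨v, hv, h1⟩ := Matrix.exists_mulVec_eq_zero_iff.2 h0
  have h2 := h v
  rw [h1] at h2
  refine hv ?_
  simp only [nsq, Pi.zero_apply] at h2
  ext i
  fin_cases i <;> simp <;> nlinarith [sq_nonneg (v 0), sq_nonneg (v 1), sq_nonneg (v 2)]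

theorem log_close {A E : M3} (hA : 0 < A.det) (hE : ∀ i j, |E i j| ≤ 1 / 18) :
    |Real.log (fro (A * (1 + E))) - Real.log (fro A)| ≤ 1 ∧
      |Real.log (A * (1 + E)).det - Real.log A.det| ≤ 1 := by
  have d4 := OdeMul.small_det hE
  have d5 : 0 < (1 + E).det := by linarith [d4.1]
  have d6 : ((1 + E)⁻¹).det ≠ 0 := by
    rw [Matrix.det_nonsing_inv, Ring.inverse_eq_inv']
    exact (inv_pos.2 d5).ne'
  have d7 : (A * (1 + E)).det ≠ 0 := by
    rw [Matrix.det_mul]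
    positivity
  have f1 : Real.log (fro (1 + E)) ≤ 1 :=
    OdeMul.log_fro_le_one d5.ne' fun u => (OdeMul.small_one_add hE u).2
  have f2 : Real.log (fro (1 + E)⁻¹) ≤ 1 := by
    refine OdeMul.log_fro_le_one d6 fun u => ?_
    have h := (OdeMul.small_one_add hE ((1 + E)⁻¹ *ᵥ u)).1
    rw [Matrix.mulVec_mulVec, Matrix.mul_nonsing_inv _ (Ne.isUnit d5.ne'), Matrix.one_mulVec] at h
    linarith
  have m : ∀ B C : M3, B.det ≠ 0 → C.det ≠ 0 →
      Real.log (fro (B * C)) ≤ Real.log (fro B) + Real.log (fro C) := fun B C hB hC => by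
    rw [← Real.log_mul (OdeMul.fro_pos hB).ne' (OdeMul.fro_pos hC).ne']
    exact Real.log_le_log (OdeMul.fro_pos (by rw [Matrix.det_mul]; exact mul_ne_zero hB hC))
      (OdeMul.fro_mul_le _ _)
  have m1 := m A (1 + E) hA.ne' d5.ne'
  have m2 := m (A * (1 + E)) (1 + E)⁻¹ d7 d6
  rw [Matrix.mul_assoc, Matrix.mul_nonsing_inv _ (Ne.isUnit d5.ne'), Matrix.mul_one] at m2
  have l1 := Real.log_le_sub_one_of_pos d5
  have l2 := Real.one_sub_inv_le_log_of_pos d5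
  have l3 : ((1 + E).det)⁻¹ ≤ 2 := by
    rw [inv_le_comm₀ d5 (by norm_num)]
    linarith [d4.1]
  rw [Matrix.det_mul, Real.log_mul hA.ne' d5.ne']
  exact ⟨abs_le.2 ⟨by linarith, by linarith⟩, abs_le.2 ⟨by linarith, by linarith [d4.2]⟩⟩

end Unst

end Pool.Agent.MP_019006_gt

end

section

set_option autoImplicit false

open MeasureTheory Filter Topology Set Matrix

namespace Pool.Agent.MP_019006_gt

namespace Unst

variable {G : Type} [Group G] {ρ : G →* C3} {f β : EE → ℝ} {φ : Flo} {M : DFlo} {e r R : ℝ}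

theorem cont_YH (h : Ctx f φ M) {ξ : Fin 3 → EE × EE → EE × EE}
    (hξ : ∀ j, ContinuousOn (ξ j) OO) :
    ContinuousOn (fun z : ℝ × (EE × EE) => (fun i j => gg f (φ z.1 z.2).1 (M z.1 z.2 (ξ j z.2)).1
      (frame (φ z.1 z.2) i) : M3)) (univ ×ˢ OO) ∧
    ContinuousOn (fun z : ℝ × (EE × EE) => (fun i j => gg f (φ z.1 z.2).1
      ((M z.1 z.2 (ξ j z.2)).2 + Gam f (φ z.1 z.2).1 (φ z.1 z.2).2 (M z.1 z.2 (ξ j z.2)).1)
      (frame (φ z.1 z.2) i) : M3)) (univ ×ˢ OO) := by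
  have hφ := h.flow
  have hmaps : MapsTo (fun q : ℝ × (EE × EE) => φ q.1 q.2) (univ ×ˢ OO) OO :=
    fun q hq => hφ.mem q.1 q.2 hq.2
  have hm1 : MapsTo (fun q : ℝ × (EE × EE) => (φ q.1 q.2).1) (univ ×ˢ OO) Bl :=
    fun q hq => mem_OO.1 (hmaps hq)
  have h1 := (contDiffOn_gg h.conf.smooth 0).continuousOn.comp hφ.cont.fst hm1
  have h2 := (contDiffOn_GamL h.conf.smooth 0).continuousOn.comp hφ.cont.fst hm1
  have h3 := fun i => (contDiffOn_frame i 0).continuousOn.comp hφ.cont hmaps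
  have h4 := fun j => hφ.Mcont.clm_apply ((hξ j).comp continuous_snd.continuousOn
    fun q hq => hq.2)
  exact ⟨continuousOn_pi.2 fun i => continuousOn_pi.2 fun j =>
      (h1.clm_apply (h4 j).fst).clm_apply (h3 i),
    continuousOn_pi.2 fun i => continuousOn_pi.2 fun j =>
      (h1.clm_apply ((h4 j).snd.add ((h2.clm_apply hφ.cont.snd).clm_apply (h4 j).fst))).clm_apply
        (h3 i)⟩

theorem cont_H (h : Ctx f φ M) :
    ContinuousOn (fun z : ℝ × (EE × EE) => Hmat f φ M z.2 z.1) (univ ×ˢ OO) := by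
  refine (cont_YH h (ξ := fun j p => xi f p (frame p j)) fun j => ?_).2
  have hm : MapsTo (Prod.fst : EE × EE → EE) OO Bl := fun p hp => mem_OO.mp hp
  have h1 := (contDiffOn_gg h.conf.smooth 0).continuousOn.comp continuousOn_fst hm
  have h2 := (contDiffOn_GamL h.conf.smooth 0).continuousOn.comp continuousOn_fst hm
  have hF := (contDiffOn_frame j 0).continuousOn
  have hI := (contDiffOn_frame 0 0).continuousOn
  exact hF.prodMk ((hF.add (((h1.clm_apply hF).clm_apply hI).smul hI)).sub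
    ((h2.clm_apply continuousOn_snd).clm_apply hF))

theorem cont_YD (h : Ctx f φ M) :
    ContinuousOn (fun z : ℝ × (EE × EE) => YD f φ M z.2 z.1) (univ ×ˢ OO) :=
  (cont_YH h (ξ := fun j p => (0, frame p j)) fun j =>
    continuousOn_const.prodMk (contDiffOn_frame j 0).continuousOn).1

theorem YH_mobT {A : C3} (hA : IsU21 A) (h : Ctx f φ M)
    (hfA : ∀ x ∈ Bl, f (mob A x) = f x) {p : EE × EE} (hp : p.1 ∈ Bl) (h1 : en f p = 1) (t : ℝ) :
    Ymat f φ M (mobT A p) t = (Inv.rot A f (φ t p))ᵀ * Ymat f φ M p t * Inv.rot A f p ∧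
    Hmat f φ M (mobT A p) t = (Inv.rot A f (φ t p))ᵀ * Hmat f φ M p t * Inv.rot A f p := by
  have hf := h.conf.smooth
  have hφ := h.flow
  have hq : (φ t p).1 ∈ Bl := mem_OO.1 (hφ.mem t p (mem_OO.2 hp))
  have hq1 : en f (φ t p) = 1 := by rw [en_flow hf hφ, h1]
  have e1 : (mobT A (φ t p)).1 = mob A (φ t p).1 := by rw [Inv.mobT_of_mem A hq]
  have e0 : ∀ j, xi f (mobT A p) (frame (mobT A p) j) = fderiv ℝ (mobT A) p
      (Inv.rot A f p 0 j • xi f p (frame p 0) + Inv.rot A f p 1 j • xi f p (frame p 1) +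
        Inv.rot A f p 2 j • xi f p (frame p 2)) := fun j => by
    rw [Inv.frame_mobT hA hfA hp h1 j, ← Inv.fderiv_mobT_xi hA hf hfA hp]
    simp only [Inv.xi_add, Inv.xi_smul]
  constructor
  · ext i j
    simp only [Matrix.mul_apply, Matrix.transpose_apply, Fin.sum_univ_three, Ymat]
    rw [e0, Inv.M_mobT hA hf hfA hφ hp, flow_mobT hA hf hfA hφ, (Dstr.conn_mobT hA hf hfA hq _).1,
      Inv.frame_mobT hA hfA hq hq1 i, e1, Inv.gg_mob hA hfA hq]
    simp only [map_add, map_smul, Prod.fst_add, Prod.smul_fst, _root_.add_apply,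
      _root_.smul_apply, smul_eq_mul]
    ring
  · ext i j
    simp only [Matrix.mul_apply, Matrix.transpose_apply, Fin.sum_univ_three, Hmat]
    rw [e0, Inv.M_mobT hA hf hfA hφ hp, flow_mobT hA hf hfA hφ, (Dstr.conn_mobT hA hf hfA hq _).2,
      Inv.frame_mobT hA hfA hq hq1 i, e1, Inv.gg_mob hA hfA hq]
    simp only [map_add, map_smul, Prod.fst_add, Prod.smul_fst, Prod.snd_add, Prod.smul_snd,
      Gam_add_right, Gam_smul_right, _root_.add_apply, _root_.smul_apply, smul_eq_mul]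
    ring

/-- The approximate unstable Riccati solution. -/
noncomputable def UT (f : EE → ℝ) (φ : Flo) (M : DFlo) (q : EE × EE) (T : ℝ) : M3 :=
  Hmat f φ M (φ (-T) q) T * (Ymat f φ M (φ (-T) q) T)⁻¹

theorem umem (h : World ρ f β φ M e r R) {q : EE × EE} (hq : q ∈ unitB f) (t : ℝ) :
    φ t q ∈ unitB f := ⟨h.fmem t hq.1, by rw [h.fen, hq.2]⟩

theorem back (h : World ρ f β φ M e r R) (q : EE × EE) (s t : ℝ) :
    φ s (φ (-(s + t)) q) = φ (-t) q := by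
  rw [← h.ctx.flow.add]
  congr 1
  ring

theorem back0 (h : World ρ f β φ M e r R) (q : EE × EE) (s : ℝ) : φ s (φ (-s) q) = q := by
  rw [← h.ctx.flow.add, add_neg_cancel, h.ctx.flow.zero]

theorem shift (h : World ρ f β φ M e r R) {p : EE × EE} (hp : p ∈ unitB f) (s : ℝ) :
    JacSys (fun t => Kmat f (φ (s + t) p)) (fun t => Omat f (φ (s + t) p)) (Ymat f φ M (φ s p))
      (Hmat f φ M (φ s p)) ∧
    Cone (fun t => Kmat f (φ (s + t) p)) (fun t => Omat f (φ (s + t) p)) (Ymat f φ M (φ s p))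
      (Hmat f φ M (φ s p)) ∧
    DirSys (fun t => Kmat f (φ (s + t) p)) (fun t => Omat f (φ (s + t) p)) (YD f φ M (φ s p))
      (HD f φ M (φ s p)) := by
  have hq := umem h hp s
  have e1 : ∀ u, φ u (φ s p) = φ (s + u) p := fun u => by rw [add_comm, h.ctx.flow.add]
  have hJ := h.jac hq.1 hq.2
  have hC := h.cone hq.1 hq.2
  have hD := dirSys h.ctx hq.1 hq.2
  simp only [e1] at hJ hC hD
  exact ⟨hJ, hC, hD⟩

theorem UT_cauchy (h : World ρ f β φ M e r R) {q : EE × EE} (hq : q ∈ unitB f) {T T' : ℝ}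
    (hT : 0 ≤ T) (hT' : T ≤ T') (i j : Fin 3) :
    |UT f φ M q T' i j - UT f φ M q T i j| ≤ Real.exp (-(T / 2)) := by
  obtain ⟨s, rfl⟩ : ∃ s, T' = s + T := ⟨T' - T, by ring⟩
  have hp := umem h hq (-(s + T))
  obtain ⟨a, b, -⟩ := shift h hp s
  have k := ric_close (by linarith) (h.jac hp.1 hp.2) (h.cone hp.1 hp.2) a b hT i j
  rwa [back h] at k

theorem exp_tend : Tendsto (fun T : ℝ => Real.exp (-(T / 2))) atTop (𝓝 0) :=
  Real.tendsto_exp_neg_atTop_nhds_zero.comp (tendsto_id.atTop_div_const two_pos)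

theorem Uu_close (h : World ρ f β φ M e r R) {q : EE × EE} (hq : q ∈ unitB f) {T : ℝ}
    (hT : 0 ≤ T) (i j : Fin 3) : |Uu f φ M q i j - UT f φ M q T i j| ≤ Real.exp (-(T / 2)) := by
  have c : CauchySeq fun n : ℕ => UT f φ M q n i j :=
    cauchySeq_of_le_tendsto_0' (fun n : ℕ => Real.exp (-((n : ℝ) / 2)))
      (fun n m hnm => by
        rw [dist_comm, Real.dist_eq]
        exact UT_cauchy h hq (Nat.cast_nonneg n) (Nat.cast_le.2 hnm) i j)
      (exp_tend.comp tendsto_natCast_atTop_atTop)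
  refine le_of_tendsto (c.tendsto_limUnder.sub_const (UT f φ M q T i j)).abs ?_
  filter_upwards [tendsto_natCast_atTop_atTop.eventually_ge_atTop T] with n hn
  exact UT_cauchy h hq hT hn i j

theorem UT_tend (h : World ρ f β φ M e r R) {q : EE × EE} (hq : q ∈ unitB f) :
    Tendsto (UT f φ M q) atTop (𝓝 (Uu f φ M q)) := by
  refine tendsto_pi_nhds.2 fun i => tendsto_pi_nhds.2 fun j => ?_
  rw [tendsto_iff_dist_tendsto_zero]
  refine squeeze_zero' (Eventually.of_forall fun _ => dist_nonneg) ?_ exp_tend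
  filter_upwards [eventually_ge_atTop 0] with T hT
  rw [dist_comm, Real.dist_eq]
  exact Uu_close h hq hT i j

theorem Uu_cont (h : World ρ f β φ M e r R) : ContinuousOn (Uu f φ M) (unitB f) := by
  refine continuousOn_pi.2 fun i => continuousOn_pi.2 fun j => ?_
  have u : TendstoUniformlyOn (fun T q => UT f φ M q T i j) (fun q => Uu f φ M q i j) atTop
      (unitB f) := by
    refine Metric.tendstoUniformlyOn_iff.2 fun ε hε => ?_
    filter_upwards [eventually_ge_atTop 0, exp_tend.eventually (gt_mem_nhds hε)] with T hT hT' q hq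
    rw [Real.dist_eq]
    exact (Uu_close h hq hT i j).trans_lt hT'
  refine u.continuousOn (Eventually.frequently ?_)
  filter_upwards [eventually_ge_atTop 0] with T hT
  have c0 : ContinuousOn (fun q : EE × EE => (T, φ (-T) q)) (unitB f) :=
    continuousOn_const.prodMk (h.ctx.flow.cont.comp (continuousOn_const.prodMk continuousOn_id)
      fun q hq => ⟨mem_univ _, mem_OO.2 hq.1⟩)
  have cm : MapsTo (fun q : EE × EE => (T, φ (-T) q)) (unitB f) (univ ×ˢ OO) :=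
    fun q hq => ⟨mem_univ _, mem_OO.2 (umem h hq _).1⟩
  have c1 := (continuousOn_Ymat h.sm h.ctx.flow).comp c0 cm
  have c2 := (cont_H h.ctx).comp c0 cm
  have c3 : ContinuousOn (fun q => (Ymat f φ M (φ (-T) q) T)⁻¹) (unitB f) := fun q hq => by
    have hp := umem h hq (-T)
    refine ContinuousAt.comp_continuousWithinAt (g := Inv.inv) (continuousAt_matrix_inv _ ?_)
      (c1 q hq)
    rw [Ring.inverse_eq_inv']
    exact continuousAt_inv₀ ((h.cone hp.1 hp.2).det_pos T hT).ne'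
  exact continuousOn_pi.1 (continuousOn_pi.1 (c2.mul c3) i) j

/-- The approximate unstable Jacobi matrices. -/
noncomputable def YT (f : EE → ℝ) (φ : Flo) (M : DFlo) (q : EE × EE) (t T : ℝ) : M3 :=
  Ymat f φ M q t + YD f φ M q t * (UT f φ M q T - U0)

noncomputable def HT (f : EE → ℝ) (φ : Flo) (M : DFlo) (q : EE × EE) (t T : ℝ) : M3 :=
  Hmat f φ M q t + HD f φ M q t * (UT f φ M q T - U0)

theorem YH_tend (h : World ρ f β φ M e r R) {q : EE × EE} (hq : q ∈ unitB f) (t : ℝ) :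
    Tendsto (YT f φ M q t) atTop (𝓝 (Yu f φ M q t)) ∧
      Tendsto (HT f φ M q t) atTop (𝓝 (Hu f φ M q t)) :=
  ⟨(((UT_tend h hq).sub_const U0).const_mul _).const_add _,
    (((UT_tend h hq).sub_const U0).const_mul _).const_add _⟩

theorem YH_eq (h : World ρ f β φ M e r R) {q : EE × EE} (hq : q ∈ unitB f) (t : ℝ) {T : ℝ}
    (hT : 0 ≤ T) :
    YT f φ M q t T = Ymat f φ M (φ (-T) q) (T + t) * (Ymat f φ M (φ (-T) q) T)⁻¹ ∧
      HT f φ M q t T = Hmat f φ M (φ (-T) q) (T + t) * (Ymat f φ M (φ (-T) q) T)⁻¹ := by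
  have hp := umem h hq (-T)
  obtain ⟨a, -, c⟩ := shift h hp T
  have hJ := h.jac hp.1 hp.2
  obtain ⟨k1, k2⟩ := rep a c (Sol.shift ⟨hJ.dY, hJ.dH⟩ T) t
  have u := Matrix.mul_nonsing_inv _ (Ne.isUnit ((h.cone hp.1 hp.2).det_pos T hT).ne')
  simp only [add_zero, back0 h] at k1 k2
  rw [k1, k2]
  simp only [YT, HT, UT, Matrix.add_mul, Matrix.mul_assoc, Matrix.sub_mul, u, Matrix.mul_one,
    and_self]

theorem sol_u (h : World ρ f β φ M e r R) {q : EE × EE} (hq : q ∈ unitB f) :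
    Sol (fun t => Kmat f (φ t q)) (fun t => Omat f (φ t q)) (Yu f φ M q) (Hu f φ M q) := by
  have hJ := h.jac hq.1 hq.2
  have hD := dirSys h.ctx hq.1 hq.2
  exact Sol.comb ⟨hJ.dY, hJ.dH⟩ ⟨hD.dY, hD.dH⟩ _

theorem Hu_eq (h : World ρ f β φ M e r R) {q : EE × EE} (hq : q ∈ unitB f) (s : ℝ) :
    Hu f φ M q s = Uu f φ M (φ s q) * Yu f φ M q s := by
  refine tendsto_nhds_unique_of_eventuallyEq (YH_tend h hq s).2
    (((UT_tend h (umem h hq s)).comp (tendsto_atTop_add_const_right _ s tendsto_id)).mul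
      (YH_tend h hq s).1) ?_
  filter_upwards [eventually_ge_atTop 0, eventually_ge_atTop (-s)] with T hT hT'
  have hp := umem h hq (-T)
  have e1 : φ (-(T + s)) (φ s q) = φ (-T) q := by
    rw [← h.ctx.flow.add]
    congr 1
    ring
  have u := Matrix.nonsing_inv_mul _
    (Ne.isUnit ((h.cone hp.1 hp.2).det_pos (T + s) (by linarith)).ne')
  simp only [Function.comp_apply, id]
  rw [(YH_eq h hq s hT).1, (YH_eq h hq s hT).2, UT, e1, Matrix.mul_assoc,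
    ← Matrix.mul_assoc _ (Ymat f φ M (φ (-T) q) (T + s)), u, Matrix.one_mul]

end Unst

open Unst

theorem World.twoSys {G : Type} [Group G] {ρ : G →* C3} {f β : EE → ℝ} {φ : Flo} {M : DFlo}
    {e r R : ℝ} (h : World ρ f β φ M e r R) {q : EE × EE} (hq : q ∈ unitB f) :
    TwoSys (fun t => Kmat f (φ t q)) (fun t => Omat f (φ t q)) (Yu f φ M q) (Hu f φ M q) := by
  have hJ := h.jac hq.1 hq.2
  have hD := dirSys h.ctx hq.1 hq.2
  have hs := sol_u h hq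
  have ev : ∀ t : ℝ, ∀ᶠ T in atTop, 0 ≤ T ∧ 0 ≤ T + t := fun t => by
    filter_upwards [eventually_ge_atTop 0, eventually_ge_atTop (-t)] with T h1 h2
    exact ⟨h1, by linarith⟩
  refine ⟨hJ.Kc, hJ.Oc, hJ.Ks, hJ.Oa, hs.1, hs.2, by simp [Yu, hJ.Y0, hD.Y0], fun t => ?_,
    fun t => ?_, fun t u => ?_, (h.cone hq.1 hq.2).Om0⟩
  · refine lt_of_le_of_ne ?_ (det_ne (c := Real.exp (21 / 5 * |t|)) fun u => ?_).symm
    · refine ge_of_tendsto ((continuous_id.matrix_det.tendsto _).comp (YH_tend h hq t).1) ?_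
      filter_upwards [ev t] with T hT
      have hp := umem h hq (-T)
      have d1 := (h.cone hp.1 hp.2).det_pos T hT.1
      have d2 := (h.cone hp.1 hp.2).det_pos _ hT.2
      simp only [Function.comp_apply, id]
      rw [(YH_eq h hq t hT.1).1, Matrix.det_mul, Matrix.det_nonsing_inv, Ring.inverse_eq_inv']
      positivity
    · refine ge_of_tendsto ((((cont_nsq u).tendsto _).comp (YH_tend h hq t).1).const_mul _) ?_
      filter_upwards [ev t] with T hT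
      have hp := umem h hq (-T)
      have g := growth_vec (h.jac hp.1 hp.2) (h.cone hp.1 hp.2)
      have u1 : u = Ymat f φ M (φ (-T) q) T *ᵥ ((Ymat f φ M (φ (-T) q) T)⁻¹ *ᵥ u) := by
        rw [Matrix.mulVec_mulVec, Matrix.mul_nonsing_inv _
          (Ne.isUnit ((h.cone hp.1 hp.2).det_pos T hT.1).ne'), Matrix.one_mulVec]
      simp only [Function.comp_apply]
      rw [(YH_eq h hq t hT.1).1, ← Matrix.mulVec_mulVec]
      generalize (Ymat f φ M (φ (-T) q) T)⁻¹ *ᵥ u = v at u1 ⊢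
      rw [u1]
      rcases le_total 0 t with ht | ht
      · have g1 := (g T (T + t) hT.1 (by linarith) v).1
        have g2 : 1 ≤ Real.exp (9 / 5 * (T + t - T)) := Real.one_le_exp (by linarith)
        have g3 : 1 ≤ Real.exp (21 / 5 * |t|) := Real.one_le_exp (by positivity)
        nlinarith [OdeMul.nsq_nonneg (Ymat f φ M (φ (-T) q) T *ᵥ v),
          OdeMul.nsq_nonneg (Ymat f φ M (φ (-T) q) (T + t) *ᵥ v)]
      · have g1 := (g (T + t) T hT.2 (by linarith) v).2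
        rwa [show T - (T + t) = |t| by rw [abs_of_nonpos ht]; ring] at g1
  · have k := wr hJ.Ks hJ.Oa hs hs t
    have s : (Uu f φ M q)ᵀ = Uu f φ M q := by
      refine tendsto_nhds_unique_of_eventuallyEq
        ((continuous_id.matrix_transpose.tendsto _).comp (UT_tend h hq)) (UT_tend h hq) ?_
      filter_upwards [eventually_ge_atTop 0] with T hT
      have hp := umem h hq (-T)
      exact ric_symm (h.cone hp.1 hp.2) hT
    rw [← sub_eq_zero, k]
    simp [Yu, Hu, hJ.Y0, hD.Y0, hJ.H0, hD.H0, s]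
  · refine le_of_tendsto_of_tendsto (((cont_nsq u).tendsto _).comp
      ((YH_tend h hq t).2.sub ((YH_tend h hq t).1.const_mul U0)))
      ((((cont_nsq u).tendsto _).comp (YH_tend h hq t).1).const_mul _) ?_
    filter_upwards [ev t] with T hT
    have hp := umem h hq (-T)
    simp only [Function.comp_apply]
    rw [(YH_eq h hq t hT.1).1, (YH_eq h hq t hT.1).2, ← Matrix.mul_assoc, ← Matrix.sub_mul,
      ← Matrix.mulVec_mulVec, ← Matrix.mulVec_mulVec]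
    exact (h.cone hp.1 hp.2).cone _ hT.2 _

theorem World.Yu_add {G : Type} [Group G] {ρ : G →* C3} {f β : EE → ℝ} {φ : Flo} {M : DFlo}
    {e r R : ℝ} (h : World ρ f β φ M e r R) {q : EE × EE} (hq : q ∈ unitB f) (s t : ℝ) :
    Yu f φ M q (s + t) = Yu f φ M (φ s q) t * Yu f φ M q s := by
  obtain ⟨a, -, c⟩ := shift h hq s
  have k := (rep a c ((sol_u h hq).shift s) t).1
  simp only [add_zero] at k
  rw [k, Hu_eq h hq, ← Matrix.sub_mul, ← Matrix.mul_assoc, ← Matrix.add_mul]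
  rfl

theorem World.Yu_cont {G : Type} [Group G] {ρ : G →* C3} {f β : EE → ℝ} {φ : Flo} {M : DFlo}
    {e r R : ℝ} (h : World ρ f β φ M e r R) :
    ContinuousOn (fun z : ℝ × (EE × EE) => Yu f φ M z.2 z.1) (univ ×ˢ unitB f) := by
  have hs : univ ×ˢ unitB f ⊆ (univ : Set ℝ) ×ˢ OO := fun z hz => ⟨hz.1, mem_OO.2 hz.2.1⟩
  exact ((continuousOn_Ymat h.sm h.ctx.flow).mono hs).add (((cont_YD h.ctx).mono hs).mul
    (((Uu_cont h).comp continuousOn_snd fun z hz => hz.2).sub continuousOn_const))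

theorem World.Yu_mobT {G : Type} [Group G] {ρ : G →* C3} {f β : EE → ℝ} {φ : Flo} {M : DFlo}
    {e r R : ℝ} (h : World ρ f β φ M e r R) {q : EE × EE} (hq : q ∈ unitB f) (a : G) :
    ∃ S : M3, Sᵀ * S = 1 ∧ ∀ t, ∃ A : M3, Aᵀ * A = 1 ∧
      Yu f φ M (mobT (ρ a) q) t = A * Yu f φ M q t * S := by
  have hA := h.u21 a
  have hfA := h.finv a
  have ro : ∀ p ∈ unitB f, (Inv.rot (ρ a) f p)ᵀ * Inv.rot (ρ a) f p = 1 := fun p hp =>
    Inv.rot_orth hA hfA hp.1 hp.2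
  have hq' : mobT (ρ a) q ∈ unitB f := ⟨Inv.mobT_mem hA hq.1, by rw [en_mobT hA hfA, hq.2]⟩
  have e1 : Uu f φ M (mobT (ρ a) q) = (Inv.rot (ρ a) f q)ᵀ * Uu f φ M q * Inv.rot (ρ a) f q := by
    refine tendsto_nhds_unique (UT_tend h hq')
      ((((UT_tend h hq).const_mul _).mul_const _).congr fun T => ?_)
    have hp := umem h hq (-T)
    obtain ⟨k1, k2⟩ := YH_mobT hA h.ctx hfA hp.1 hp.2 T
    rw [back0 h] at k1 k2
    rw [UT, UT, flow_mobT hA h.sm hfA h.ctx.flow, k1, k2, Dstr.ric_rot (ro q hq) (ro _ hp)]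
  have e2 : U0 = (Inv.rot (ρ a) f q)ᵀ * U0 * Inv.rot (ρ a) f q := by
    have k := (YH_mobT hA h.ctx hfA hq.1 hq.2 0).2
    rwa [(h.jac hq.1 hq.2).H0, (h.jac hq'.1 hq'.2).H0, h.ctx.flow.zero] at k
  have e3 : Uu f φ M (mobT (ρ a) q) - U0 =
      (Inv.rot (ρ a) f q)ᵀ * (Uu f φ M q - U0) * Inv.rot (ρ a) f q := by
    rw [Matrix.mul_sub, Matrix.sub_mul, ← e1, ← e2]
  refine ⟨Inv.rot (ρ a) f q, ro q hq, fun t => ⟨(Inv.rot (ρ a) f (φ t q))ᵀ, ?_, ?_⟩⟩
  · rw [Matrix.transpose_transpose]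
    exact mul_eq_one_comm.1 (ro _ (umem h hq t))
  · rw [Yu, Yu, e3, (YH_mobT hA h.ctx hfA hq.1 hq.2 t).1,
      (Dstr.YH_mobT hA h.ctx hfA hq.1 hq.2 t).1, Matrix.mul_add, Matrix.add_mul]
    simp only [Matrix.mul_assoc]
    rw [← Matrix.mul_assoc (Inv.rot (ρ a) f q) (Inv.rot (ρ a) f q)ᵀ, mul_eq_one_comm.1 (ro q hq),
      Matrix.one_mul]

theorem World.Yu_close {G : Type} [Group G] {ρ : G →* C3} {f β : EE → ℝ} {φ : Flo} {M : DFlo}
    {e r R : ℝ} (h : World ρ f β φ M e r R) {q : EE × EE} (hq : q ∈ unitB f) {t : ℝ}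
    (ht : 0 ≤ t) : |Real.log (fro (Yu f φ M q t)) - Real.log (fro (Ymat f φ M q t))| ≤ 1 ∧
      |Real.log (Yu f φ M q t).det - Real.log (Ymat f φ M q t).det| ≤ 1 := by
  have d := (h.cone hq.1 hq.2).det_pos t ht
  have k := log_close d (E := (Ymat f φ M q t)⁻¹ * Yu f φ M q t - 1) fun i j => by
    refine le_of_tendsto (tendsto_pi_nhds.1 (tendsto_pi_nhds.1
      (((YH_tend h hq t).1.const_mul _).sub_const 1) i) j).abs ?_
    filter_upwards [eventually_ge_atTop 0] with T hT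
    have hp := umem h hq (-T)
    obtain ⟨a, b, -⟩ := shift h hp T
    obtain ⟨E, hE, k⟩ := OdeMul.exists_small hT (h.jac hp.1 hp.2) (h.cone hp.1 hp.2) a b t ht
    rw [back0 h] at k
    rw [(YH_eq h hq t hT).1, k, Matrix.mul_assoc _ _ (Ymat f φ M (φ (-T) q) T)⁻¹,
      Matrix.mul_nonsing_inv _ (Ne.isUnit ((h.cone hp.1 hp.2).det_pos T hT).ne'), Matrix.mul_one,
      ← Matrix.mul_assoc, Matrix.nonsing_inv_mul _ (Ne.isUnit d.ne'), Matrix.one_mul,
      add_sub_cancel_left]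
    exact hE i j
  rwa [add_sub_cancel, ← Matrix.mul_assoc, Matrix.mul_nonsing_inv _ (Ne.isUnit d.ne'),
    Matrix.one_mul] at k

end Pool.Agent.MP_019006_gt

end

section

set_option autoImplicit false

open MeasureTheory Filter Topology Set Matrix

namespace Pool.Agent.MP_019006_gt

/-- The three logarithmic sizes of the unstable Jacobi matrix. -/
noncomputable def LU (f : EE → ℝ) (φ : Flo) (M : DFlo) (i : Fin 3) (q : EE × EE) (t : ℝ) : ℝ :=
  ![Real.log (Yu f φ M q t).det, Real.log (fro (Yu f φ M q t)),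
    Real.log (fro (Yu f φ M q t)⁻¹)] i

/-- Points with a vector that grows slowly forwards and decays fast backwards. -/
def Bad (f : EE → ℝ) (φ : Flo) (M : DFlo) (κ₁ κ₂ C : ℝ) : Set (EE × EE) :=
  {p | p ∈ shell f ∧ ∃ u : Fin 3 → ℝ, nsq u = 1 ∧ ∀ t : ℝ, 0 ≤ t →
    nsq (Yu f φ M (nrm f p) t *ᵥ u) ≤ C * Real.exp (2 * κ₁ * t) ∧
    nsq (Yu f φ M (nrm f p) (-t) *ᵥ u) ≤ C * Real.exp (-(2 * κ₂ * t))}

theorem abs_det_orth {A : M3} (hA : Aᵀ * A = 1) : |A.det| = 1 := by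
  have := congrArg Matrix.det hA
  rw [det_mul, det_transpose, det_one] at this
  rcases mul_self_eq_one_iff.1 this with h' | h' <;> simp [h']

theorem nsq_orth {A : M3} (hA : Aᵀ * A = 1) (u : Fin 3 → ℝ) : nsq (A *ᵥ u) = nsq u := by
  rw [OdeMul.nsq_eq_dot, OdeMul.nsq_eq_dot, dotProduct_mulVec, ← mulVec_transpose, mulVec_mulVec,
    hA, one_mulVec]

theorem nsq_smul (c : ℝ) (u : Fin 3 → ℝ) : nsq (c • u) = c ^ 2 * nsq u := by
  simp only [nsq, Pi.smul_apply, smul_eq_mul]; ring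

theorem nsq_pos {u : Fin 3 → ℝ} (hu : u ≠ 0) : 0 < nsq u := by
  by_contra h
  apply hu
  have h0 := sq_nonneg (u 0)
  have h1 := sq_nonneg (u 1)
  have h2 := sq_nonneg (u 2)
  unfold nsq at h
  funext i
  fin_cases i
  · exact pow_eq_zero_iff (two_ne_zero) |>.1 (by change u 0 ^ 2 = 0; linarith)
  · exact pow_eq_zero_iff (two_ne_zero) |>.1 (by change u 1 ^ 2 = 0; linarith)
  · exact pow_eq_zero_iff (two_ne_zero) |>.1 (by change u 2 ^ 2 = 0; linarith)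

theorem continuous_nsq : Continuous nsq := by
  unfold nsq; fun_prop

theorem compact_nsq : IsCompact {u : Fin 3 → ℝ | nsq u = 1} := by
  refine (isCompact_Icc (a := fun _ => (-1 : ℝ)) (b := fun _ => 1)).of_isClosed_subset
    (isClosed_eq continuous_nsq continuous_const) fun u hu => ?_
  have h : u 0 ^ 2 + u 1 ^ 2 + u 2 ^ 2 = 1 := hu
  have h0 := sq_nonneg (u 0)
  have h1 := sq_nonneg (u 1)
  have h2 := sq_nonneg (u 2)
  have k : ∀ i, |u i| ≤ 1 := fun i => by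
    rw [← sq_le_one_iff_abs_le_one]
    fin_cases i
    · change u 0 ^ 2 ≤ 1; linarith
    · change u 1 ^ 2 ≤ 1; linarith
    · change u 2 ^ 2 ≤ 1; linarith
  exact ⟨fun i => (abs_le.1 (k i)).1, fun i => (abs_le.1 (k i)).2⟩

/-- A rate bound gives a uniform exponential bound. -/
theorem bound_of_rate {y η : ℝ → Fin 3 → ℝ} (hy : Continuous y) {χ κ : ℝ} (hκ : χ < κ)
    (h : Tendsto (rate y η) atTop (𝓝 χ)) :
    ∃ C : ℝ, ∀ t, 0 ≤ t → nsq (y t) ≤ C * Real.exp (2 * κ * t) := by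
  obtain ⟨T, hT⟩ := eventually_atTop.1 (h.eventually (gt_mem_nhds hκ))
  obtain ⟨B, hB⟩ := (isCompact_Icc (a := 0) (b := max T 1)).bddAbove_image
    (f := fun t => nsq (y t) * Real.exp (-(2 * κ * t)))
    ((continuous_nsq.comp hy).mul (by fun_prop)).continuousOn
  refine ⟨max B 1, fun t ht => ?_⟩
  rcases le_total t (max T 1) with h1 | h1
  · have h2 := hB (mem_image_of_mem _ ⟨ht, h1⟩)
    rw [Real.exp_neg, ← div_eq_mul_inv, div_le_iff₀ (Real.exp_pos _)] at h2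
    exact h2.trans (mul_le_mul_of_nonneg_right (le_max_left _ _) (Real.exp_pos _).le)
  · have h2 := hT t ((le_max_left _ _).trans h1)
    have h3 : 0 < t := lt_of_lt_of_le one_pos ((le_max_right _ _).trans h1)
    unfold rate at h2
    rw [div_lt_iff₀ h3] at h2
    have h4 := OdeMul.nsq_nonneg (y t)
    have h5 := OdeMul.nsq_nonneg (η t)
    have h6 : Real.sqrt (nsq (y t) + nsq (η t)) ≤ Real.exp (κ * t) := by
      rcases (Real.sqrt_nonneg (nsq (y t) + nsq (η t))).eq_or_lt with h7 | h7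
      · rw [← h7]; exact (Real.exp_pos _).le
      · exact ((Real.log_lt_iff_lt_exp h7).1 h2).le
    have h8 := Real.sqrt_le_iff.1 h6
    have h9 : Real.exp (κ * t) ^ 2 = Real.exp (2 * κ * t) := by
      rw [sq, ← Real.exp_add]; congr 1; ring
    have h10 := Real.exp_pos (2 * κ * t)
    have h11 : (1 : ℝ) ≤ max B 1 := le_max_right _ _
    nlinarith [h8.2]

theorem bound_of_rate' {y η : ℝ → Fin 3 → ℝ} (hy : Continuous y) {χ κ : ℝ} (hκ : κ < χ)
    (h : Tendsto (rate y η) atBot (𝓝 χ)) :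
    ∃ C : ℝ, ∀ t, 0 ≤ t → nsq (y (-t)) ≤ C * Real.exp (-(2 * κ * t)) := by
  have h1 : Tendsto (rate (fun t => y (-t)) fun t => η (-t)) atTop (𝓝 (-χ)) := by
    refine (h.comp tendsto_neg_atTop_atBot).neg.congr fun t => ?_
    simp only [rate, Function.comp, div_neg, neg_neg]
  obtain ⟨C, hC⟩ := bound_of_rate (hy.comp continuous_neg) (neg_lt_neg hκ) h1
  refine ⟨C, fun t ht => ?_⟩
  have := hC t ht
  rwa [show 2 * -κ * t = -(2 * κ * t) by ring] at this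

namespace World

variable {G : Type} [Group G] {ρ : G →* C3} {f β : EE → ℝ} {φ : Flo} {M : DFlo} {e r R : ℝ}

theorem unit_flow (h : World ρ f β φ M e r R) (t : ℝ) {q : EE × EE} (hq : q ∈ unitB f) :
    φ t q ∈ unitB f := ⟨h.fmem t hq.1, by rw [h.fen]; exact hq.2⟩

theorem unit_nrm {p : EE × EE} (hp : p ∈ shell f) : nrm f p ∈ unitB f :=
  ⟨hp.1, (en_nrm hp.1 (shell_ne hp)).2⟩

theorem Yu_det (h : World ρ f β φ M e r R) {q : EE × EE} (hq : q ∈ unitB f) (t : ℝ) :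
    0 < (Yu f φ M q t).det := (h.twoSys hq).det_pos t

theorem LU_sub (h : World ρ f β φ M e r R) {q : EE × EE} (hq : q ∈ unitB f) (i : Fin 3)
    (s t : ℝ) : LU f φ M i q (s + t) ≤ LU f φ M i q s + LU f φ M i (φ s q) t := by
  have d1 := h.Yu_det hq s
  have d2 := h.Yu_det (h.unit_flow s hq) t
  have k : ∀ A B : M3, A.det ≠ 0 → B.det ≠ 0 →
      Real.log (fro (A * B)) ≤ Real.log (fro A) + Real.log (fro B) := fun A B hA hB => by
    rw [← Real.log_mul (OdeMul.fro_pos hA).ne' (OdeMul.fro_pos hB).ne']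
    exact Real.log_le_log (OdeMul.fro_pos (by rw [det_mul]; exact mul_ne_zero hA hB))
      (OdeMul.fro_mul_le A B)
  have ki : ∀ A : M3, 0 < A.det → A⁻¹.det ≠ 0 := fun A hA => by
    rw [Matrix.det_nonsing_inv, Ring.inverse_eq_inv']
    exact inv_ne_zero hA.ne'
  fin_cases i
  · change Real.log (Yu f φ M q (s + t)).det ≤
      Real.log (Yu f φ M q s).det + Real.log (Yu f φ M (φ s q) t).det
    rw [h.Yu_add hq, det_mul, Real.log_mul d2.ne' d1.ne', add_comm]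
  · change Real.log (fro (Yu f φ M q (s + t))) ≤
      Real.log (fro (Yu f φ M q s)) + Real.log (fro (Yu f φ M (φ s q) t))
    rw [h.Yu_add hq, add_comm]
    exact k _ _ d2.ne' d1.ne'
  · change Real.log (fro (Yu f φ M q (s + t))⁻¹) ≤
      Real.log (fro (Yu f φ M q s)⁻¹) + Real.log (fro (Yu f φ M (φ s q) t)⁻¹)
    rw [h.Yu_add hq, Matrix.mul_inv_rev]
    exact k _ _ (ki _ d1) (ki _ d2)

theorem LU_bound (h : World ρ f β φ M e r R) {q : EE × EE} (hq : q ∈ unitB f) (i : Fin 3)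
    (t : ℝ) : |LU f φ M i q t| ≤ 9 * (1 + |t|) := by
  obtain ⟨a, b, c⟩ := two_bounds (h.twoSys hq) t
  fin_cases i
  · exact c
  · exact a
  · exact b

theorem LU_inv (h : World ρ f β φ M e r R) {q : EE × EE} (hq : q ∈ unitB f) (a : G) (i : Fin 3)
    (t : ℝ) : LU f φ M i (mobT (ρ a) q) t = LU f φ M i q t := by
  obtain ⟨B, hB, hA⟩ := h.Yu_mobT hq a
  obtain ⟨A, hA, hY⟩ := hA t
  have hA' : A * Aᵀ = 1 := mul_eq_one_comm.1 hA
  have hB' : B * Bᵀ = 1 := mul_eq_one_comm.1 hB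
  fin_cases i
  · change Real.log (Yu f φ M (mobT (ρ a) q) t).det = Real.log (Yu f φ M q t).det
    rw [hY, ← Real.log_abs, det_mul, det_mul, abs_mul, abs_mul, abs_det_orth hA, abs_det_orth hB,
      one_mul, mul_one, Real.log_abs]
  · change Real.log (fro (Yu f φ M (mobT (ρ a) q) t)) = Real.log (fro (Yu f φ M q t))
    rw [hY, fro_rot _ _ _ hA hB]
  · change Real.log (fro (Yu f φ M (mobT (ρ a) q) t)⁻¹) = Real.log (fro (Yu f φ M q t)⁻¹)
    rw [hY, Matrix.mul_inv_rev, Matrix.mul_inv_rev, inv_eq_left_inv hA, inv_eq_left_inv hB,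
      ← Matrix.mul_assoc, fro_rot _ _ _ (by rw [transpose_transpose, hB'])
        (by rw [transpose_transpose, hA'])]

theorem Yu_back (h : World ρ f β φ M e r R) {q : EE × EE} (hq : q ∈ unitB f) (t : ℝ) :
    Yu f φ M (φ (-t) q) t = (Yu f φ M q (-t))⁻¹ := by
  have := h.Yu_add hq (-t) t
  rw [neg_add_cancel, (h.twoSys hq).Y0] at this
  exact (inv_eq_left_inv this.symm).symm

theorem Yu_contOn (h : World ρ f β φ M e r R) {T : EE × EE → ℝ} (hT : ContinuousOn T (shell f)) :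
    ContinuousOn (fun p => Yu f φ M (nrm f p) (T p)) (shell f) :=
  ContinuousOn.comp (g := fun z : ℝ × (EE × EE) => Yu f φ M z.2 z.1)
    (f := fun p => (T p, nrm f p)) h.Yu_cont (hT.prodMk (Fib.contOn_nrm h.ctx.conf))
    fun _ hp => ⟨mem_univ _, unit_nrm hp⟩

theorem LU_contOn (h : World ρ f β φ M e r R) (i : Fin 3) {T : EE × EE → ℝ}
    (hT : ContinuousOn T (shell f)) :
    ContinuousOn (fun p => LU f φ M i (nrm f p) (T p)) (shell f) := by
  obtain ⟨a, b, c⟩ := LL_aux (h.Yu_contOn hT) fun p hp => h.Yu_det (unit_nrm hp) _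
  fin_cases i
  · exact a
  · exact b
  · exact c

theorem meas_bad (h : World ρ f β φ M e r R) (κ₁ κ₂ C : ℝ) :
    MeasurableSet (Bad f φ M κ₁ κ₂ C) := by
  have hSm : MeasurableSet (shell f) := Fib.meas_shell h.ctx.conf
  have : CompactSpace {u : Fin 3 → ℝ | nsq u = 1} := isCompact_iff_compactSpace.1 compact_nsq
  have hY : ∀ t, Continuous fun z : shell f × {u : Fin 3 → ℝ | nsq u = 1} =>
      nsq (Yu f φ M (nrm f z.1) t *ᵥ z.2.1) := fun t => by
    have h1 : Continuous fun p : shell f => Yu f φ M (nrm f p) t :=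
      (h.Yu_contOn (T := fun _ => t) continuousOn_const).domRestrict
    exact continuous_nsq.comp ((h1.comp continuous_fst).matrix_mulVec
      (continuous_subtype_val.comp continuous_snd))
  have hZ : IsClosed {z : shell f × {u : Fin 3 → ℝ | nsq u = 1} | ∀ t : ℝ, 0 ≤ t →
      nsq (Yu f φ M (nrm f z.1) t *ᵥ z.2.1) ≤ C * Real.exp (2 * κ₁ * t) ∧
      nsq (Yu f φ M (nrm f z.1) (-t) *ᵥ z.2.1) ≤ C * Real.exp (-(2 * κ₂ * t))} := by
    simp only [ofPred_forall]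
    exact isClosed_iInter fun t => isClosed_iInter fun _ =>
      (isClosed_le (hY t) continuous_const).inter (isClosed_le (hY (-t)) continuous_const)
  have h2 := (MeasurableEmbedding.subtype_coe hSm).measurableSet_image.2
    (isClosedMap_fst_of_compactSpace _ hZ).measurableSet
  convert h2 using 1
  ext p
  constructor
  · rintro ⟨hp, u, hu, hb⟩
    exact ⟨⟨p, hp⟩, ⟨(⟨p, hp⟩, ⟨u, hu⟩), hb, rfl⟩, rfl⟩
  · rintro ⟨q, ⟨z, hz, rfl⟩, rfl⟩
    exact ⟨z.1.2, z.2.1, z.2.2, hz⟩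

theorem bad_mobT (h : World ρ f β φ M e r R) (κ₁ κ₂ C : ℝ) (a : G) {p : EE × EE}
    (hp : p ∈ Bad f φ M κ₁ κ₂ C) : mobT (ρ a) p ∈ Bad f φ M κ₁ κ₂ C := by
  obtain ⟨hs, u, hu, hb⟩ := hp
  obtain ⟨B, hB, hA⟩ := h.Yu_mobT (unit_nrm hs) a
  have hB' : B * Bᵀ = 1 := mul_eq_one_comm.1 hB
  have k : ∀ t, nsq (Yu f φ M (nrm f (mobT (ρ a) p)) t *ᵥ (Bᵀ *ᵥ u)) =
      nsq (Yu f φ M (nrm f p) t *ᵥ u) := fun t => by
    obtain ⟨A, hA, hY⟩ := hA t
    rw [nrm_mobT (h.u21 a) (h.finv a) hs.1, hY, mulVec_mulVec, Matrix.mul_assoc, hB',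
      Matrix.mul_one, ← mulVec_mulVec, nsq_orth hA]
  refine ⟨h.shell_mobT a hs, Bᵀ *ᵥ u, ?_, fun t ht => ?_⟩
  · rw [nsq_orth (by rw [transpose_transpose, hB']), hu]
  · rw [k, k]; exact hb t ht

theorem pack2 [Countable G] (h : World ρ f β φ M e r R) :
    (∀ᵐ p : EE × EE, p ∈ shell f → ∀ i, ∃ l : ℝ,
      Tendsto (fun n : ℕ => LU f φ M i (nrm f p) (n * Real.sqrt (en f p)) / n) atTop (𝓝 l) ∧
      Tendsto (fun n : ℕ => LU f φ M i (φ (-(n * Real.sqrt (en f p))) (nrm f p))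
        (n * Real.sqrt (en f p)) / n) atTop (𝓝 l)) ∧
    ∀ᵐ p : EE × EE, p ∈ shell f → ∀ (κ₁ κ₂ : ℚ) (C : ℕ), p ∈ Bad f φ M κ₁ κ₂ C →
      ∃ᶠ n : ℕ in atTop, φ n p ∈ Bad f φ M κ₁ κ₂ C := by
  have hf := h.ctx.conf
  have hSm : MeasurableSet (shell f) := Fib.meas_shell hf
  have hSO : shell f ⊆ OO := Fib.shell_sub f
  obtain ⟨δ, hδ, hcov⟩ := lattice_cocpt h.lat
  obtain ⟨-, hKc, hKf⟩ := liou_compact hf δ hδ
  have hs2 : ∀ p ∈ shell f, Real.sqrt (en f p) ≤ 2 := fun p hp =>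
    Real.sqrt_le_iff.2 ⟨by norm_num, by linarith [hp.2.2]⟩
  have hsq : ContinuousOn (fun p => Real.sqrt (en f p)) (shell f) :=
    Real.continuous_sqrt.comp_continuousOn ((Fib.contOn_en hf).mono hSO)
  have hSc : liou f (shell f) (shell f)ᶜ = 0 := by
    have := (ae_liou_iff hf hSm hSO (fun p => p ∈ shell f)).2 (Eventually.of_forall fun p hp => hp)
    exact this
  have : SFinite (liou f (shell f)) := by unfold liou; infer_instance
  obtain ⟨k1, k2⟩ := erg_pack2 (liou f (shell f)) (shell f) hSm hSc (fun a => mobT (ρ a))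
    (fun a => mobT_measurePreserving (h.u21 a) (h.u21 a⁻¹) (by rw [← map_mul]; simp) (h.finv a)
      hSm hSO (fun p hp => h.shell_mobT a hp) fun p hp => h.shell_mobT a⁻¹ hp)
    (fun a p hp => h.shell_mobT a hp) (fun p _ => by rw [map_one, Inv.mobT_one])
    (fun a b p hp => by rw [map_mul, Inv.mobT_mul (h.u21 a) (h.u21 b) hp.1])
    φ (flow_measurePreserving h.sm h.ctx.flow hSm hSO fun t p hp => h.shell_flow t hp)
    (fun t p hp => h.shell_flow t hp) (fun p _ => h.ctx.flow.zero p)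
    (fun t s p _ => h.ctx.flow.add t s p)
    (fun a t p _ => flow_mobT (h.u21 a) h.sm (h.finv a) h.ctx.flow t p)
    (shell f ∩ {p | δ ≤ Dd p.1}) hKc.measurableSet hKf
    (fun p hp => by
      obtain ⟨a, ha⟩ := hcov p.1 hp.1
      exact ⟨a, h.shell_mobT a hp, by rw [Inv.mobT_of_mem _ hp.1]; exact ha⟩)
    (fun p hp => by
      refine (lattice_fin h.lat (min δ (Dd p.1)) (lt_min hδ (Dd_pos hp.1))).subset fun a ha => ?_
      refine ⟨p.1, hp.1, min_le_right _ _, (min_le_left _ _).trans ?_⟩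
      have := ha.2
      rw [Inv.mobT_of_mem _ hp.1] at this
      exact this)
  constructor
  · have key : ∀ i, ∀ᵐ p ∂liou f (shell f), ∃ l : ℝ, _ := fun i => k1 18
      (fun n => (shell f).indicator fun p => LU f φ M i (nrm f p) (n * Real.sqrt (en f p)))
      (fun n => measurable_indicator_of_continuousOn hSm
        (h.LU_contOn i (continuousOn_const.mul hsq)))
      (fun n a p hp => by
        rw [indicator_of_mem (h.shell_mobT a hp), indicator_of_mem hp,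
          nrm_mobT (h.u21 a) (h.finv a) hp.1, en_mobT (h.u21 a) (h.finv a),
          h.LU_inv (unit_nrm hp)])
      (fun m n p hp => by
        rw [indicator_of_mem (h.shell_flow m hp), indicator_of_mem hp, indicator_of_mem hp,
          flow_nrm h.sm h.ctx.flow m hp.1 (shell_ne hp), h.fen, Nat.cast_add, add_mul,
          mul_comm (Real.sqrt _) (m : ℝ)]
        exact h.LU_sub (unit_nrm hp) i _ _)
      (fun n p hp => by
        rw [indicator_of_mem hp]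
        have b := h.LU_bound (unit_nrm hp) i (n * Real.sqrt (en f p))
        rw [abs_of_nonneg (a := n * Real.sqrt (en f p)) (by positivity)] at b
        have b1 : (n : ℝ) * Real.sqrt (en f p) ≤ n * 2 :=
          mul_le_mul_of_nonneg_left (hs2 p hp) (Nat.cast_nonneg n)
        linarith)
    have key2 := ae_all_iff.2 key
    rw [ae_liou_iff hf hSm hSO] at key2
    refine key2.mono fun p hp hp' i => ?_
    obtain ⟨l, a, b⟩ := hp hp' i
    refine ⟨l, by simpa only [indicator_of_mem hp'] using a, b.congr fun n => ?_⟩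
    rw [indicator_of_mem (h.shell_flow _ hp'), flow_nrm h.sm h.ctx.flow _ hp'.1 (shell_ne hp'),
      h.fen, mul_neg, mul_comm (Real.sqrt _) (n : ℝ)]
  · have key : ∀ z : ℚ × ℚ × ℕ, ∀ᵐ p ∂liou f (shell f), p ∈ Bad f φ M z.1 z.2.1 z.2.2 →
        ∃ᶠ n : ℕ in atTop, φ n p ∈ Bad f φ M z.1 z.2.1 z.2.2 := fun z =>
      k2 _ (h.meas_bad _ _ _) fun a p hp => ⟨fun hb => by
        have := h.bad_mobT _ _ _ a⁻¹ hb
        rwa [← Inv.mobT_mul (h.u21 a⁻¹) (h.u21 a) hp.1, ← map_mul, inv_mul_cancel, map_one,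
          Inv.mobT_one] at this, h.bad_mobT _ _ _ a⟩
    have key2 := ae_all_iff.2 key
    rw [ae_liou_iff hf hSm hSO] at key2
    exact key2.mono fun p hp hp' κ₁ κ₂ C => hp hp' (κ₁, κ₂, C)

end World

end Pool.Agent.MP_019006_gt

end

section

set_option autoImplicit false

open MeasureTheory Filter Topology Set Matrix

namespace Pool.Agent.MP_019006_gt

theorem tendsto_close {a b : ℕ → ℝ} {l : ℝ} (hab : ∀ n, |a n - b n| ≤ 1)
    (h : Tendsto (fun n : ℕ => a n / n) atTop (𝓝 l)) :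
    Tendsto (fun n : ℕ => (b n + 1) / n) atTop (𝓝 l) := by
  have h1 : Tendsto (fun n : ℕ => (b n + 1 - a n) / n) atTop (𝓝 0) := by
    refine squeeze_zero_norm (a := fun n : ℕ => 2 / n) (fun n => ?_)
      (tendsto_const_div_atTop_nhds_zero_nat 2)
    rw [Real.norm_eq_abs, abs_div, Nat.abs_cast]
    refine div_le_div_of_nonneg_right ?_ (Nat.cast_nonneg n)
    have := abs_le.1 (hab n)
    rw [abs_le]
    constructor <;> linarith [this.1, this.2]
  have := h.add h1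
  rw [add_zero] at this
  refine this.congr fun n => ?_
  ring

namespace World

variable {G : Type} [Group G] {ρ : G →* C3} {f β : EE → ℝ} {φ : Flo} {M : DFlo} {e r R : ℝ}

theorem Yu_vec_cont (h : World ρ f β φ M e r R) {q : EE × EE} (hq : q ∈ unitB f)
    (u : Fin 3 → ℝ) : Continuous fun t => Yu f φ M q t *ᵥ u :=
  (continuous_matrix fun i j => continuous_iff_continuousAt.2 fun t =>
    ((h.twoSys hq).dY t i j).continuousAt).matrix_mulVec continuous_const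

theorem not_bad (h : World ρ f β φ M e r R) {p : EE × EE} (hp : p ∈ shell f)
    (hrec : ∀ (κ₁ κ₂ : ℚ) (C : ℕ), p ∈ Bad f φ M κ₁ κ₂ C →
      ∃ᶠ n : ℕ in atTop, φ n p ∈ Bad f φ M κ₁ κ₂ C)
    {a b : ℝ} (ha : 0 < a) (hab : a < b) {u : Fin 3 → ℝ} (hu : u ≠ 0)
    (h1 : Tendsto (rate (fun t => Yu f φ M (nrm f p) t *ᵥ u) fun t => Hu f φ M (nrm f p) t *ᵥ u)
      atTop (𝓝 a))
    (h2 : Tendsto (rate (fun t => Yu f φ M (nrm f p) t *ᵥ u) fun t => Hu f φ M (nrm f p) t *ᵥ u)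
      atBot (𝓝 b))
    (h3 : ∀ (w : Fin 3 → ℝ) (κ C : ℝ), κ < b →
      (∀ t, 0 ≤ t → nsq (Yu f φ M (nrm f p) t *ᵥ w) ≤ C * Real.exp (2 * κ * t)) →
        ∃ c : ℝ, w = c • u) : False := by
  have hq := unit_nrm hp
  obtain ⟨κ₁, k1, k2⟩ := exists_rat_btwn hab
  obtain ⟨κ₂, k3, k4⟩ := exists_rat_btwn k2
  obtain ⟨C₁, hC₁⟩ := bound_of_rate (h.Yu_vec_cont hq u) k1 h1
  obtain ⟨C₂, hC₂⟩ := bound_of_rate' (h.Yu_vec_cont hq u) k4 h2
  have hu0 := nsq_pos hu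
  obtain ⟨C, hC⟩ := exists_nat_ge (max C₁ C₂ / nsq u)
  have hC' : max C₁ C₂ ≤ C * nsq u := (div_le_iff₀ hu0).1 hC
  have hs : 0 < Real.sqrt (en f p) := Real.sqrt_pos.2 (by linarith [hp.2.1])
  have hn : ∀ y : Fin 3 → ℝ, nsq ((Real.sqrt (nsq u))⁻¹ • y) = nsq y / nsq u := fun y => by
    rw [nsq_smul, inv_pow, Real.sq_sqrt hu0.le, inv_mul_eq_div]
  have hbad : p ∈ Bad f φ M κ₁ κ₂ C := by
    refine ⟨hp, (Real.sqrt (nsq u))⁻¹ • u, by rw [hn, div_self hu0.ne'], fun t ht => ?_⟩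
    rw [mulVec_smul, mulVec_smul, hn, hn, div_le_iff₀ hu0, div_le_iff₀ hu0]
    have e1 := Real.exp_pos (2 * κ₁ * t)
    have e2 := Real.exp_pos (-(2 * κ₂ * t))
    have b1 := (le_max_left C₁ C₂).trans hC'
    have b2 := (le_max_right C₁ C₂).trans hC'
    exact ⟨(hC₁ t ht).trans (by nlinarith), (hC₂ t ht).trans (by nlinarith)⟩
  have hlim : Tendsto (fun n : ℕ => C * C₁ * Real.exp (-(2 * (κ₂ - κ₁) * Real.sqrt (en f p) * n)))
      atTop (𝓝 (C * C₁ * 0)) :=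
    (Real.tendsto_exp_neg_atTop_nhds_zero.comp (tendsto_natCast_atTop_atTop.const_mul_atTop
      (mul_pos (by linarith) hs))).const_mul _
  rw [mul_zero] at hlim
  obtain ⟨n, ⟨-, u', hu', hb⟩, hn2⟩ := ((hrec κ₁ κ₂ C hbad).and_eventually
    (hlim.eventually (gt_mem_nhds hu0))).exists
  rw [flow_nrm h.sm h.ctx.flow n hp.1 (shell_ne hp)] at hb
  set T : ℝ := Real.sqrt (en f p) * n with hT
  have hT0 : 0 ≤ T := by positivity
  have hd := h.Yu_det hq T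
  have hw : ∀ t, Yu f φ M (nrm f p) t *ᵥ ((Yu f φ M (nrm f p) T)⁻¹ *ᵥ u') =
      Yu f φ M (φ T (nrm f p)) (t - T) *ᵥ u' := fun t => by
    have := h.Yu_add hq T (t - T)
    rw [add_sub_cancel] at this
    rw [this, mulVec_mulVec, Matrix.mul_assoc, Matrix.mul_nonsing_inv _ hd.ne'.isUnit,
      Matrix.mul_one]
  have hκ₁ : (0 : ℝ) < κ₁ := ha.trans k1
  have hC0 : (0 : ℝ) ≤ C := Nat.cast_nonneg C
  obtain ⟨c, hc⟩ := h3 ((Yu f φ M (nrm f p) T)⁻¹ *ᵥ u') κ₁ C k2 fun t ht => by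
    rw [hw]
    rcases le_total T t with h4 | h4
    · refine (hb (t - T) (by linarith)).1.trans (mul_le_mul_of_nonneg_left ?_ hC0)
      exact Real.exp_le_exp.2 (by nlinarith)
    · have := (hb (T - t) (by linarith)).2
      rw [neg_sub] at this
      refine this.trans (mul_le_mul_of_nonneg_left ?_ hC0)
      exact Real.exp_le_exp.2 (by nlinarith)
  have e1 : u' = c • (Yu f φ M (nrm f p) T *ᵥ u) := by
    rw [← mulVec_smul, ← hc, mulVec_mulVec, Matrix.mul_nonsing_inv _ hd.ne'.isUnit, one_mulVec]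
  have e2 : 1 ≤ c ^ 2 * (C₁ * Real.exp (2 * κ₁ * T)) := by
    rw [← hu', e1, nsq_smul]
    exact mul_le_mul_of_nonneg_left (hC₁ T hT0) (sq_nonneg c)
  have e3 : c ^ 2 * nsq u ≤ C * Real.exp (-(2 * κ₂ * T)) := by
    have h4 := hw 0
    rw [(h.twoSys hq).Y0, one_mulVec, hc, zero_sub] at h4
    rw [← nsq_smul, h4]
    exact (hb T hT0).2
  have e4 : Real.exp (-(2 * (κ₂ - κ₁) * Real.sqrt (en f p) * n)) =
      Real.exp (-(2 * κ₂ * T)) * Real.exp (2 * κ₁ * T) := by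
    rw [← Real.exp_add]; congr 1; rw [hT]; ring
  rw [e4] at hn2
  have e5 : 0 ≤ C₁ * Real.exp (2 * κ₁ * T) := (OdeMul.nsq_nonneg _).trans (hC₁ T hT0)
  have e6 := mul_le_mul_of_nonneg_right e3 e5
  nlinarith

theorem pointwise (h : World ρ f β φ M e r R) {p : EE × EE} (hp : p ∈ shell f)
    (hg : p ∈ Good f φ M)
    (hl : ∀ i, ∃ l : ℝ,
      Tendsto (fun n : ℕ => LU f φ M i (nrm f p) (n * Real.sqrt (en f p)) / n) atTop (𝓝 l) ∧
      Tendsto (fun n : ℕ => LU f φ M i (φ (-(n * Real.sqrt (en f p))) (nrm f p))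
        (n * Real.sqrt (en f p)) / n) atTop (𝓝 l))
    (hrec : ∀ (κ₁ κ₂ : ℚ) (C : ℕ), p ∈ Bad f φ M κ₁ κ₂ C →
      ∃ᶠ n : ℕ in atTop, φ n p ∈ Bad f φ M κ₁ κ₂ C) :
    ∃ a b : ℝ, 0 < b ∧ 2 < a / b ∧
      IsExponentAlong (atTop ⊔ atBot) (gg f) (Gam f) φ (nrm f p) a ∧
      IsExponentAlong (atTop ⊔ atBot) (gg f) (Gam f) φ (nrm f p) b ∧
      ∀ χ : ℝ, 0 < χ → IsExponentAlong atTop (gg f) (Gam f) φ (nrm f p) χ → b ≤ χ ∧ χ ≤ a := by
  have hq := unit_nrm hp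
  have hs : 0 < Real.sqrt (en f p) := Real.sqrt_pos.2 (by linarith [hp.2.1])
  obtain ⟨l₀, a₀, b₀⟩ := hl 0
  obtain ⟨l₁, a₁, b₁⟩ := hl 1
  obtain ⟨l₂, a₂, b₂⟩ := hl 2
  have hl01 : l₀ < 2 * l₁ := (h.good_iff hp
    (tendsto_close (fun n => (h.Yu_close hq (mul_nonneg (Nat.cast_nonneg n) hs.le)).1) a₁)
    (tendsto_close (fun n => (h.Yu_close hq (mul_nonneg (Nat.cast_nonneg n) hs.le)).2) a₀)).1 hg
  have c₀ : Tendsto (fun n : ℕ => Real.log (Yu f φ M (nrm f p) (-(n * Real.sqrt (en f p)))).det / n)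
      atTop (𝓝 (-l₀)) := by
    refine b₀.neg.congr fun n => ?_
    change -(Real.log (Yu f φ M _ _).det / _) = _
    rw [h.Yu_back hq, Matrix.det_nonsing_inv, Ring.inverse_eq_inv', Real.log_inv, neg_div, neg_neg]
  have c₁ : Tendsto (fun n : ℕ =>
      Real.log (fro (Yu f φ M (nrm f p) (-(n * Real.sqrt (en f p))))⁻¹) / n) atTop (𝓝 l₁) := by
    refine b₁.congr fun n => ?_
    change Real.log (fro (Yu f φ M _ _)) / _ = _
    rw [h.Yu_back hq]
  have c₂ : Tendsto (fun n : ℕ =>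
      Real.log (fro (Yu f φ M (nrm f p) (-(n * Real.sqrt (en f p))))) / n) atTop (𝓝 l₂) := by
    refine b₂.congr fun n => ?_
    change Real.log (fro (Yu f φ M _ _)⁻¹) / _ = _
    rw [h.Yu_back hq, Matrix.nonsing_inv_nonsing_inv _ (h.Yu_det hq _).ne'.isUnit]
  obtain ⟨d1, d2, ⟨u₁, hu₁, d3⟩, u₂, hu₂, d4, d5, d6⟩ :=
    two_exponents (h.twoSys hq) _ hs l₀ l₁ l₂ a₀ a₁ a₂ c₀ c₁ c₂
  refine ⟨l₁ / Real.sqrt (en f p), -l₂ / Real.sqrt (en f p), d1, ?_,
    isExponentAlong_of h.ctx hq _ u₁ hu₁ _ d3, isExponentAlong_of h.ctx hq _ u₂ hu₂ _ ?_,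
    fun χ hχ hE => ?_⟩
  · rw [lt_div_iff₀ d1, ← mul_div_assoc]
    exact div_lt_div_of_pos_right (by linarith) hs
  · rcases d5 with d5 | ⟨d5, d7⟩
    · exact tendsto_sup.2 ⟨d4, d5⟩
    · exact (h.not_bad hp hrec d1 (div_lt_div_of_pos_right d5 hs) hu₂ d4 d7 d6).elim
  · obtain ⟨a, y, η, e1, e2, e3⟩ := of_isExponentAlong h.ctx hq _ χ hE
    exact two_range (h.twoSys hq) _ hs l₁ l₂ a₁ a₂ a χ hχ y η e1 e2 e3

theorem ae_two [Countable G] (h : World ρ f β φ M e r R)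
    (h2 : ∀ᵐ p : EE × EE, p.1 ∈ Bl → p ∈ Good f φ M) :
    ∀ᵐ p : EE × EE, p.1 ∈ Bl → p.2 ≠ 0 → ∃ a b : ℝ, 0 < b ∧ 2 < a / b ∧
      IsExponentAlong (atTop ⊔ atBot) (gg f) (Gam f) φ (nrm f p) a ∧
      IsExponentAlong (atTop ⊔ atBot) (gg f) (Gam f) φ (nrm f p) b ∧
      ∀ χ : ℝ, 0 < χ → IsExponentAlong atTop (gg f) (Gam f) φ (nrm f p) χ → b ≤ χ ∧ χ ≤ a := by
  refine ae_scale h.ctx.conf (fun q => ∃ a b : ℝ, 0 < b ∧ 2 < a / b ∧
      IsExponentAlong (atTop ⊔ atBot) (gg f) (Gam f) φ q a ∧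
      IsExponentAlong (atTop ⊔ atBot) (gg f) (Gam f) φ q b ∧
      ∀ χ : ℝ, 0 < χ → IsExponentAlong atTop (gg f) (Gam f) φ q χ → b ≤ χ ∧ χ ≤ a) ?_
  obtain ⟨k1, k2⟩ := h.pack2
  filter_upwards [k1, k2, h2] with p a b c hp
  exact h.pointwise hp (c hp.1) (a hp) (b hp)

end World

end Pool.Agent.MP_019006_gt

end
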